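import Pool.Agent.VC.GeoA

/-!
# Profiles in the hypercube
-/

namespace Pool.Agent.VC

open Finset Classical

namespace Geo

/-- flip one coordinate -/
def flip {n : ℕ} (f : Fin n) (x : Fin n → Bool) : Fin n → Bool := Function.update x f (!x f)

theorem flip_flip {n : ℕ} (f : Fin n) (x : Fin n → Bool) : flip f (flip f x) = x := by
  funext i
  by_cases h : i = f
  · subst h; simp [flip]
  · simp [flip, h]

theorem dist_flip {n : ℕ} (f : Fin n) (x : Fin n → Bool) : hammingDist x (flip f x) = 1 := by
  rw [hammingDist, Finset.card_eq_one]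
  refine ⟨f, ?_⟩
  ext i
  by_cases h : i = f
  · subst h; simp [flip]
  · simp [flip, h]

theorem card_even_eq {n : ℕ} (P : (Fin n → Bool) → Prop) :
    (univ.filter (fun a : EPos n => P a.1)).card =
      (univ.filter (fun x : Fin n → Bool => P x ∧ Even (ones x))).card := by
  refine Finset.card_bij (fun a _ => a.1) ?_ ?_ ?_
  · intro a ha
    simp only [mem_filter, mem_univ, true_and] at ha ⊢
    exact ⟨ha, a.2⟩
  · intro a _ b _ h
    exact Subtype.ext h
  · intro x hx
    simp only [mem_filter, mem_univ, true_and] at hx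
    exact ⟨⟨x, hx.2⟩, by simpa using hx.1, rfl⟩

theorem card_odd_eq {n : ℕ} (P : (Fin n → Bool) → Prop) :
    (univ.filter (fun a : OPos n => P a.1)).card =
      (univ.filter (fun x : Fin n → Bool => P x ∧ ¬ Even (ones x))).card := by
  refine Finset.card_bij (fun a _ => a.1) ?_ ?_ ?_
  · intro a ha
    simp only [mem_filter, mem_univ, true_and] at ha ⊢
    exact ⟨ha, a.2⟩
  · intro a _ b _ h
    exact Subtype.ext h
  · intro x hx
    simp only [mem_filter, mem_univ, true_and] at hx
    exact ⟨⟨x, hx.2⟩, by simpa using hx.1, rfl⟩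

theorem card_even_odd {n : ℕ} (f : Fin n) (P : (Fin n → Bool) → Prop)
    (hP : ∀ x, P x → P (flip f x)) :
    (univ.filter (fun x : Fin n → Bool => P x ∧ Even (ones x))).card =
      (univ.filter (fun x : Fin n → Bool => P x ∧ ¬ Even (ones x))).card := by
  refine Finset.card_bij (fun x _ => flip f x) ?_ ?_ ?_
  · intro x hx
    simp only [mem_filter, mem_univ, true_and] at hx ⊢
    exact ⟨hP x hx.1, (parity_of_dist_one x _ (dist_flip f x)).1 hx.2⟩
  · intro x _ y _ h
    rw [← flip_flip f x, h, flip_flip]
  · intro x hx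
    simp only [mem_filter, mem_univ, true_and] at hx
    refine ⟨flip f x, ?_, flip_flip f x⟩
    simp only [mem_filter, mem_univ, true_and]
    refine ⟨hP x hx.1, ?_⟩
    by_contra h
    exact hx.2 ((parity_of_dist_one x _ (dist_flip f x)).2 h)

theorem card_split {n : ℕ} (P : (Fin n → Bool) → Prop) :
    (univ.filter (fun x : Fin n → Bool => P x ∧ Even (ones x))).card +
      (univ.filter (fun x : Fin n → Bool => P x ∧ ¬ Even (ones x))).card =
      (univ.filter (fun x : Fin n → Bool => P x)).card := by
  rw [← Finset.card_union_of_disjoint]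
  · congr 1
    ext x
    simp only [mem_union, mem_filter, mem_univ, true_and]
    tauto
  · rw [Finset.disjoint_filter]
    rintro x _ h1 h2
    exact h2.2 h1.2

theorem two_card_even {n : ℕ} (f : Fin n) (P : (Fin n → Bool) → Prop)
    (hP : ∀ x, P x → P (flip f x)) :
    2 * (univ.filter (fun a : EPos n => P a.1)).card =
      (univ.filter (fun x : Fin n → Bool => P x)).card := by
  have h1 := card_even_eq P
  have h2 := card_even_odd f P hP
  have h3 := card_split P
  omega

theorem two_card_odd {n : ℕ} (f : Fin n) (P : (Fin n → Bool) → Prop)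
    (hP : ∀ x, P x → P (flip f x)) :
    2 * (univ.filter (fun a : OPos n => P a.1)).card =
      (univ.filter (fun x : Fin n → Bool => P x)).card := by
  have h1 := card_odd_eq P
  have h2 := card_even_odd f P hP
  have h3 := card_split P
  omega

theorem card_block (k c : ℕ) :
    (univ.filter (fun g : Fin k → Bool => (univ.filter (fun j => g j = true)).card = c)).card =
      k.choose c := by
  have h : (Finset.powersetCard c (univ : Finset (Fin k))).card = k.choose c := by
    rw [Finset.card_powersetCard, Finset.card_univ, Fintype.card_fin]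
  rw [← h]
  refine Finset.card_bij (fun g _ => univ.filter (fun j => g j = true)) ?_ ?_ ?_
  · intro g hg
    simp only [mem_filter, mem_univ, true_and] at hg
    rw [Finset.mem_powersetCard]
    exact ⟨Finset.subset_univ _, hg⟩
  · intro g _ g' _ h
    funext j
    have h1 : j ∈ univ.filter (fun j => g j = true) ↔ j ∈ univ.filter (fun j => g' j = true) := by
      rw [h]
    simp only [mem_filter, mem_univ, true_and] at h1
    cases hg : g j <;> cases hg' : g' j <;> simp_all
  · intro S hS
    rw [Finset.mem_powersetCard] at hS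
    refine ⟨fun j => decide (j ∈ S), ?_, ?_⟩
    · simp only [mem_filter, mem_univ, true_and, decide_eq_true_eq]
      rw [← hS.2]
      congr 1
      ext j; simp
    · ext j; simp

/-- the index type -/
abbrev Ix (K k t r : ℕ) : Type := (Fin K × Fin k) ⊕ (Fin t ⊕ Fin r)

section
variable {n K k t r : ℕ} (e : Fin n ≃ Ix K k t r)

/-- coordinates -/
def phi : (Fin n → Bool) ≃ (Fin K → Fin k → Bool) × ((Fin t → Bool) × (Fin r → Bool)) where
  toFun x := (fun i j => x (e.symm (Sum.inl (i, j))),
    (fun s => x (e.symm (Sum.inr (Sum.inl s))), fun u => x (e.symm (Sum.inr (Sum.inr u)))))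
  invFun p := fun a => Sum.elim (fun ij => p.1 ij.1 ij.2) (Sum.elim p.2.1 p.2.2) (e a)
  left_inv x := by
    funext a
    rcases h : e a with ⟨i, j⟩ | s | u
    · show Sum.elim _ _ (e a) = x a
      rw [h]
      show x (e.symm (Sum.inl (i, j))) = x a
      rw [← h, e.symm_apply_apply]
    · show Sum.elim _ _ (e a) = x a
      rw [h]
      show x (e.symm (Sum.inr (Sum.inl s))) = x a
      rw [← h, e.symm_apply_apply]
    · show Sum.elim _ _ (e a) = x a
      rw [h]
      show x (e.symm (Sum.inr (Sum.inr u))) = x a
      rw [← h, e.symm_apply_apply]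
  right_inv p := by
    simp

/-- number of ones in a block -/
def cnt (x : Fin n → Bool) (i : Fin K) : ℕ :=
  (univ.filter (fun j : Fin k => x (e.symm (Sum.inl (i, j))) = true)).card

theorem cnt_lt (x : Fin n → Bool) (i : Fin K) : cnt e x i < k + 1 := by
  have := Finset.card_filter_le (univ : Finset (Fin k))
    (fun j : Fin k => x (e.symm (Sum.inl (i, j))) = true)
  rw [Finset.card_univ, Fintype.card_fin] at this
  unfold cnt
  omega

/-- the profile -/
def prof (x : Fin n → Bool) : Fin K → Fin (k + 1) := fun i => ⟨cnt e x i, cnt_lt e x i⟩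

theorem card_gen (w : Fin K → Fin (k + 1)) (Q : (Fin t → Bool) → Prop) :
    (univ.filter (fun x : Fin n → Bool => prof e x = w ∧
      Q (fun s => x (e.symm (Sum.inr (Sum.inl s)))))).card =
      (∏ i, k.choose (w i)) * ((univ.filter Q).card * 2 ^ r) := by
  have h1 : (univ.filter (fun x : Fin n → Bool => prof e x = w ∧
      Q (fun s => x (e.symm (Sum.inr (Sum.inl s)))))).card =
      ((Fintype.piFinset (fun i : Fin K => univ.filter (fun g : Fin k → Bool =>
        (univ.filter (fun j => g j = true)).card = (w i : ℕ)))) ×ˢ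
        ((univ.filter Q) ×ˢ (univ : Finset (Fin r → Bool)))).card := by
    refine Finset.card_bij (fun x _ => phi e x) ?_ ?_ ?_
    · intro x hx
      simp only [mem_filter, mem_univ, true_and] at hx
      simp only [mem_product, Fintype.mem_piFinset, mem_filter, mem_univ, true_and, and_true]
      refine ⟨fun i => ?_, hx.2⟩
      have := congrArg Fin.val (congrFun hx.1 i)
      exact this
    · intro x _ y _ h
      exact (phi e).injective h
    · intro p hp
      simp only [mem_product, Fintype.mem_piFinset, mem_filter, mem_univ, true_and,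
        and_true] at hp
      refine ⟨(phi e).symm p, ?_, (phi e).apply_symm_apply p⟩
      simp only [mem_filter, mem_univ, true_and]
      have h2 := (phi e).apply_symm_apply p
      have h3 : ∀ i j, (phi e).symm p (e.symm (Sum.inl (i, j))) = p.1 i j := fun i j =>
        congrFun (congrFun (congrArg Prod.fst h2) i) j
      have h4 : (fun s => (phi e).symm p (e.symm (Sum.inr (Sum.inl s)))) = p.2.1 :=
        congrArg (fun q => q.2.1) h2
      refine ⟨?_, ?_⟩
      · funext i
        apply Fin.ext
        show cnt e ((phi e).symm p) i = w i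
        rw [cnt, ← hp.1 i]
        simp only [h3]
      · rw [h4]; exact hp.2
  rw [h1, Finset.card_product, Finset.card_product, Fintype.card_piFinset, Finset.card_univ]
  simp only [card_block, Fintype.card_fun, Fintype.card_bool, Fintype.card_fin]

theorem card_pat (Q : (Fin t → Bool) → Prop) :
    (univ.filter (fun x : Fin n → Bool =>
      Q (fun s => x (e.symm (Sum.inr (Sum.inl s)))))).card =
      2 ^ (K * k) * ((univ.filter Q).card * 2 ^ r) := by
  have h1 : (univ.filter (fun x : Fin n → Bool =>
      Q (fun s => x (e.symm (Sum.inr (Sum.inl s)))))).card =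
      ((univ : Finset (Fin K → Fin k → Bool)) ×ˢ
        ((univ.filter Q) ×ˢ (univ : Finset (Fin r → Bool)))).card := by
    refine Finset.card_bij (fun x _ => phi e x) ?_ ?_ ?_
    · intro x hx
      simp only [mem_filter, mem_univ, true_and] at hx
      simp only [mem_product, mem_filter, mem_univ, true_and, and_true]
      exact hx
    · intro x _ y _ h
      exact (phi e).injective h
    · intro p hp
      simp only [mem_product, mem_filter, mem_univ, true_and, and_true] at hp
      refine ⟨(phi e).symm p, ?_, (phi e).apply_symm_apply p⟩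
      simp only [mem_filter, mem_univ, true_and]
      have h2 := (phi e).apply_symm_apply p
      have h4 : (fun s => (phi e).symm p (e.symm (Sum.inr (Sum.inl s)))) = p.2.1 :=
        congrArg (fun q => q.2.1) h2
      rw [h4]; exact hp
  rw [h1, Finset.card_product, Finset.card_product, Finset.card_univ, Finset.card_univ]
  simp only [Fintype.card_fun, Fintype.card_bool, Fintype.card_fin]
  rw [← pow_mul, mul_comm k K]

theorem card_prof (w : Fin K → Fin (k + 1)) :
    (univ.filter (fun x : Fin n → Bool => prof e x = w)).card =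
      (∏ i, k.choose (w i)) * (2 ^ t * 2 ^ r) := by
  have h := card_gen e w (fun _ => True)
  simp only [and_true, filter_true, Finset.card_univ, Fintype.card_fun, Fintype.card_bool,
    Fintype.card_fin] at h
  exact h

theorem cnt_flip (u : Fin t ⊕ Fin r) (x : Fin n → Bool) (i : Fin K) :
    cnt e (flip (e.symm (Sum.inr u)) x) i = cnt e x i := by
  unfold cnt flip
  congr 1
  ext j
  simp

theorem prof_flip (u : Fin t ⊕ Fin r) (x : Fin n → Bool) :
    prof e (flip (e.symm (Sum.inr u)) x) = prof e x := by
  funext i
  exact Fin.ext (cnt_flip e u x i)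

theorem pat_flip (u : Fin r) (x : Fin n → Bool) :
    (fun s : Fin t => flip (e.symm (Sum.inr (Sum.inr u))) x (e.symm (Sum.inr (Sum.inl s)))) =
      fun s => x (e.symm (Sum.inr (Sum.inl s))) := by
  funext s
  simp [flip]

end

/-- neighbouring profiles -/
def R {K k : ℕ} (w w' : Fin K → Fin (k + 1)) : Prop :=
  w' = w ∨ ∃ i, (∀ i', i' ≠ i → w' i' = w i') ∧
    ((w' i : ℕ) = w i + 1 ∨ (w i : ℕ) = w' i + 1)

theorem R_symm {K k : ℕ} {w w' : Fin K → Fin (k + 1)} (h : R w w') : R w' w := by
  rcases h with h | ⟨i, h1, h2⟩
  · exact Or.inl h.symm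
  · exact Or.inr ⟨i, fun i' hi => (h1 i' hi).symm, h2.symm⟩

theorem card_R {K k : ℕ} (w : Fin K → Fin (k + 1)) :
    (univ.filter (fun w' => R w w')).card ≤ 2 * K + 1 := by
  let g : Fin K × Bool → (Fin K → Fin (k + 1)) := fun p =>
    Function.update w p.1 (if p.2 then ⟨min (w p.1 + 1) k, by omega⟩ else
      ⟨(w p.1 : ℕ) - 1, by have := (w p.1).2; omega⟩)
  have hsub : (univ.filter (fun w' => R w w')) ⊆ insert w (univ.image g) := by
    intro w' hw'
    simp only [mem_filter, mem_univ, true_and] at hw'
    rw [mem_insert]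
    rcases hw' with h | ⟨i, h1, h2⟩
    · exact Or.inl h
    · right
      rw [mem_image]
      rcases h2 with h2 | h2
      · refine ⟨(i, true), mem_univ _, ?_⟩
        funext i'
        by_cases hi : i' = i
        · subst hi
          simp only [g, Function.update_self, if_true]
          apply Fin.ext
          have := (w' i').2
          simp only
          omega
        · simp only [g, Function.update_of_ne hi]
          exact (h1 i' hi).symm
      · refine ⟨(i, false), mem_univ _, ?_⟩
        funext i'
        by_cases hi : i' = i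
        · subst hi
          simp only [g, Function.update_self]
          apply Fin.ext
          simp only [Bool.false_eq_true, if_false]
          omega
        · simp only [g, Function.update_of_ne hi]
          exact (h1 i' hi).symm
  calc (univ.filter (fun w' => R w w')).card ≤ (insert w (univ.image g)).card :=
        Finset.card_le_card hsub
    _ ≤ (univ.image g).card + 1 := Finset.card_insert_le _ _
    _ ≤ (univ : Finset (Fin K × Bool)).card + 1 := by
        have := Finset.card_image_le (s := (univ : Finset (Fin K × Bool))) (f := g)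
        omega
    _ = 2 * K + 1 := by
        rw [Finset.card_univ, Fintype.card_prod, Fintype.card_fin, Fintype.card_bool]
        ring

theorem R_of_adj {n K k t r : ℕ} (e : Fin n ≃ Ix K k t r) (x y : Fin n → Bool)
    (h : hammingDist x y = 1) : R (prof e x) (prof e y) := by
  rw [hammingDist, Finset.card_eq_one] at h
  obtain ⟨a, ha⟩ := h
  have hne : x a ≠ y a := by
    have : a ∈ ({i | x i ≠ y i} : Finset (Fin n)) := by rw [ha]; exact mem_singleton_self a
    simpa using this
  have heq : ∀ b, b ≠ a → x b = y b := by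
    intro b hb
    by_contra hc
    have : b ∈ ({i | x i ≠ y i} : Finset (Fin n)) := by simpa using hc
    rw [ha, mem_singleton] at this
    exact hb this
  rcases hea : e a with ⟨i, j⟩ | u
  · right
    have hae : e.symm (Sum.inl (i, j)) = a := by rw [← hea, e.symm_apply_apply]
    refine ⟨i, ?_, ?_⟩
    · intro i' hi'
      apply Fin.ext
      show cnt e y i' = cnt e x i'
      unfold cnt
      congr 1
      ext j'
      have : e.symm (Sum.inl (i', j')) ≠ a := by
        rw [← hae]
        intro hc
        have := e.symm.injective hc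
        simp at this
        exact hi' this.1
      simp [heq _ this]
    · have hj : ∀ j', j' ≠ j → x (e.symm (Sum.inl (i, j'))) = y (e.symm (Sum.inl (i, j'))) := by
        intro j' hj'
        apply heq
        rw [← hae]
        intro hc
        have := e.symm.injective hc
        simp at this
        exact hj' this
      have key : ∀ x y : Fin n → Bool, x a = true → y a = false →
          (∀ j', j' ≠ j → x (e.symm (Sum.inl (i, j'))) = y (e.symm (Sum.inl (i, j')))) →
          cnt e x i = cnt e y i + 1 := by
        intro x y hx hy hj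
        unfold cnt
        rw [← Finset.card_insert_of_notMem (a := j)]
        · congr 1
          ext j'
          by_cases hjj : j' = j
          · subst hjj
            simp [hae, hx]
          · simp [hjj, hj j' hjj]
        · simp [hae, hy]
      cases hx : x a
      · cases hy : y a
        · rw [hx, hy] at hne; exact absurd rfl hne
        · left
          exact key y x hy hx (fun j' hj' => (hj j' hj').symm)
      · cases hy : y a
        · right
          exact key x y hx hy hj
        · rw [hx, hy] at hne; exact absurd rfl hne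
  · left
    have hae : e.symm (Sum.inr u) = a := by rw [← hea, e.symm_apply_apply]
    funext i'
    apply Fin.ext
    show cnt e y i' = cnt e x i'
    unfold cnt
    congr 1
    ext j'
    have : e.symm (Sum.inl (i', j')) ≠ a := by
      rw [← hae]
      intro hc
      have := e.symm.injective hc
      simp at this
    simp [heq _ this]

theorem central (j : ℕ) : (Nat.centralBinom j) ^ 2 * (2 * j + 1) ≤ 16 ^ j := by
  induction j with
  | zero => simp
  | succ j ih =>
    have h := Nat.succ_mul_centralBinom_succ j
    -- (j+1) * C(j+1) = 2 * (2j+1) * C(j)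
    have h2 : (j + 1) ^ 2 * ((Nat.centralBinom (j + 1)) ^ 2 * (2 * (j + 1) + 1)) ≤
        (j + 1) ^ 2 * 16 ^ (j + 1) := by
      calc (j + 1) ^ 2 * ((Nat.centralBinom (j + 1)) ^ 2 * (2 * (j + 1) + 1))
          = ((j + 1) * Nat.centralBinom (j + 1)) ^ 2 * (2 * j + 3) := by ring
        _ = (2 * (2 * j + 1) * Nat.centralBinom j) ^ 2 * (2 * j + 3) := by rw [h]
        _ = ((Nat.centralBinom j) ^ 2 * (2 * j + 1)) * (4 * (2 * j + 1) * (2 * j + 3)) := by ring
        _ ≤ 16 ^ j * (4 * (2 * j + 1) * (2 * j + 3)) := Nat.mul_le_mul_right _ ih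
        _ ≤ 16 ^ j * (16 * (j + 1) ^ 2) := by
            apply Nat.mul_le_mul_left
            nlinarith
        _ = (j + 1) ^ 2 * 16 ^ (j + 1) := by ring
    exact Nat.le_of_mul_le_mul_left h2 (by positivity)

theorem choose_sq (k j : ℕ) : (k.choose j) ^ 2 * (k + 1) ≤ 4 ^ k := by
  rcases Nat.even_or_odd' k with ⟨c, hc | hc⟩
  · subst hc
    have h1 : (2 * c).choose j ≤ Nat.centralBinom c := Nat.choose_le_centralBinom j c
    calc ((2 * c).choose j) ^ 2 * (2 * c + 1) ≤ (Nat.centralBinom c) ^ 2 * (2 * c + 1) := by
          gcongr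
      _ ≤ 16 ^ c := central c
      _ = 4 ^ (2 * c) := by rw [pow_mul]; norm_num
  · subst hc
    have h1 : 2 * (2 * c + 1).choose j ≤ Nat.centralBinom (c + 1) := by
      have h3 : (2 * c + 1).choose j ≤ (2 * c + 1).choose c := by
        have := Nat.choose_le_middle j (2 * c + 1)
        have hd : (2 * c + 1) / 2 = c := by omega
        rwa [hd] at this
      have h4 : Nat.centralBinom (c + 1) = 2 * (2 * c + 1).choose c := by
        rw [Nat.centralBinom_eq_two_mul_choose, show 2 * (c + 1) = (2 * c + 1) + 1 by ring,
          Nat.choose_succ_succ, ← Nat.choose_symm_half c]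
        ring
      omega
    have h2 := central (c + 1)
    have h5 : 4 * (((2 * c + 1).choose j) ^ 2 * (2 * c + 1 + 1)) ≤ 4 * 4 ^ (2 * c + 1) := by
      calc 4 * (((2 * c + 1).choose j) ^ 2 * (2 * c + 1 + 1))
          = (2 * (2 * c + 1).choose j) ^ 2 * (2 * c + 2) := by ring
        _ ≤ (Nat.centralBinom (c + 1)) ^ 2 * (2 * (c + 1) + 1) := by
            apply Nat.mul_le_mul (Nat.pow_le_pow_left h1 2)
            omega
        _ ≤ 16 ^ (c + 1) := h2
        _ = 4 * 4 ^ (2 * c + 1) := by
            rw [show (16 : ℕ) = 4 ^ 2 by norm_num, ← pow_mul, ← pow_succ']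
            congr 1
    omega

theorem prod_bound {K k e : ℕ} (hK : K = 8 * e) (w : Fin K → Fin (k + 1)) :
    (∏ i, k.choose (w i)) * (k + 1) ^ (4 * e) ≤ 2 ^ (K * k) := by
  subst hK
  have h1 : (∏ i, k.choose (w i)) ^ 2 * (k + 1) ^ (8 * e) ≤ (4 ^ k) ^ (8 * e) := by
    calc (∏ i, k.choose (w i)) ^ 2 * (k + 1) ^ (8 * e)
        = ∏ i : Fin (8 * e), ((k.choose (w i)) ^ 2 * (k + 1)) := by
          rw [Finset.prod_mul_distrib, Finset.prod_pow, Finset.prod_const, Finset.card_univ,
            Fintype.card_fin]
      _ ≤ ∏ _i : Fin (8 * e), 4 ^ k := Finset.prod_le_prod' (fun i _ => choose_sq k (w i))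
      _ = (4 ^ k) ^ (8 * e) := by rw [Finset.prod_const, Finset.card_univ, Fintype.card_fin]
  have h2 : ((∏ i, k.choose (w i)) * (k + 1) ^ (4 * e)) ^ 2 ≤ (2 ^ (8 * e * k)) ^ 2 := by
    calc ((∏ i, k.choose (w i)) * (k + 1) ^ (4 * e)) ^ 2
        = (∏ i, k.choose (w i)) ^ 2 * (k + 1) ^ (8 * e) := by
          rw [mul_pow, ← pow_mul]; congr 2; ring
      _ ≤ (4 ^ k) ^ (8 * e) := h1
      _ = (2 ^ (8 * e * k)) ^ 2 := by
          rw [show (4 : ℕ) = 2 ^ 2 by norm_num, ← pow_mul, ← pow_mul, ← pow_mul]
          congr 1; ring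
  exact (Nat.pow_le_pow_iff_left (by norm_num)).1 h2

end Geo

open Geo

/-- The profile geometry: `K` blocks of `k` coordinates, `t` pattern coordinates, `r ≥ 1` free
coordinates. -/
theorem exists_geo (n K k t r e : ℕ) (hn : K * k + t + r = n) (hr : 1 ≤ r) (ht : 2 ≤ t)
    (hk : n ≤ (k + 1) ^ 4) (hK : K = 8 * e) :
    ∃ (pE : EPos n → (Fin K → Fin (k + 1))) (pO : OPos n → (Fin K → Fin (k + 1)))
      (nb : (Fin K → Fin (k + 1)) → Finset (Fin K → Fin (k + 1)))
      (m : (Fin K → Fin (k + 1)) → ℕ) (TE : Finset (EPos n)) (FO : Finset (OPos n)),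
      (∀ w w', w' ∈ nb w → w ∈ nb w') ∧ (∀ w, (nb w).card ≤ 2 * K + 1) ∧
      (∀ a b, Adj a b → pO b ∈ nb (pE a)) ∧
      (∀ w, (univ.filter (fun a => pE a = w)).card = m w) ∧
      (∀ w, (univ.filter (fun b => pO b = w)).card = m w) ∧
      (∀ w, (TE.filter (fun a => pE a = w)).card * 2 ^ t = m w) ∧
      FO.card * 2 ^ t = 2 ^ (n - 1) ∧
      (∀ a ∈ TE, ∀ b ∈ FO, ¬ Adj a b) ∧
      (∀ w, m w * n ^ e ≤ 2 ^ (n - 1)) := by
  have hcard : Fintype.card (Fin n) = Fintype.card (Ix K k t r) := by
    simp only [Fintype.card_sum, Fintype.card_prod, Fintype.card_fin]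
    omega
  let ee : Fin n ≃ Ix K k t r := Fintype.equivOfCardEq hcard
  obtain ⟨r', rfl⟩ : ∃ r', r = r' + 1 := ⟨r - 1, by omega⟩
  let u0 : Fin (r' + 1) := 0
  let f0 : Fin n := ee.symm (Sum.inr (Sum.inr u0))
  have hn1 : n - 1 = K * k + (t + r') := by omega
  refine ⟨fun a => prof ee a.1, fun b => prof ee b.1, fun w => univ.filter (fun w' => R w w'),
    fun w => (∏ i, k.choose (w i)) * (2 ^ t * 2 ^ r'),
    univ.filter (fun a => ∀ s : Fin t, a.1 (ee.symm (Sum.inr (Sum.inl s))) = true),
    univ.filter (fun b => ∀ s : Fin t, b.1 (ee.symm (Sum.inr (Sum.inl s))) = false),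
    ?_, ?_, ?_, ?_, ?_, ?_, ?_, ?_, ?_⟩
  · intro w w' h
    simp only [mem_filter, mem_univ, true_and] at h ⊢
    exact R_symm h
  · intro w
    exact card_R w
  · intro a b h
    simp only [mem_filter, mem_univ, true_and]
    exact R_of_adj ee a.1 b.1 h
  · intro w
    have h0 := card_prof ee w
    have h1 : 2 * (univ.filter (fun a : EPos n => prof ee a.1 = w)).card =
        (∏ i, k.choose (w i)) * (2 ^ t * 2 ^ (r' + 1)) := by
      rw [← h0]
      convert two_card_even f0 (fun x => prof ee x = w)
        (fun x hx => (prof_flip ee _ x).trans hx)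
    rw [pow_succ] at h1
    have h2 : 2 * (univ.filter (fun a : EPos n => prof ee a.1 = w)).card =
        2 * ((∏ i, k.choose (w i)) * (2 ^ t * 2 ^ r')) := by
      rw [h1]; ring
    exact Nat.eq_of_mul_eq_mul_left (by norm_num) h2
  · intro w
    have h0 := card_prof ee w
    have h1 : 2 * (univ.filter (fun a : OPos n => prof ee a.1 = w)).card =
        (∏ i, k.choose (w i)) * (2 ^ t * 2 ^ (r' + 1)) := by
      rw [← h0]
      convert two_card_odd f0 (fun x => prof ee x = w)
        (fun x hx => (prof_flip ee _ x).trans hx)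
    rw [pow_succ] at h1
    have h2 : 2 * (univ.filter (fun a : OPos n => prof ee a.1 = w)).card =
        2 * ((∏ i, k.choose (w i)) * (2 ^ t * 2 ^ r')) := by
      rw [h1]; ring
    exact Nat.eq_of_mul_eq_mul_left (by norm_num) h2
  · intro w
    have h0 := card_gen ee w (fun g => ∀ s, g s = true)
    have h1 : 2 * (univ.filter (fun a : EPos n => prof ee a.1 = w ∧
        ∀ s : Fin t, a.1 (ee.symm (Sum.inr (Sum.inl s))) = true)).card =
        (∏ i, k.choose (w i)) * ((univ.filter (fun g : Fin t → Bool => ∀ s, g s = true)).card *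
          2 ^ (r' + 1)) := by
      refine Eq.trans ?_ (Eq.trans h0 ?_)
      · convert two_card_even f0 (fun x => prof ee x = w ∧
          ∀ s : Fin t, x (ee.symm (Sum.inr (Sum.inl s))) = true)
          (fun x hx => ⟨(prof_flip ee _ x).trans hx.1, by
            have := pat_flip ee u0 x
            show ∀ s, flip f0 x (ee.symm (Sum.inr (Sum.inl s))) = true
            intro s
            rw [show flip f0 x (ee.symm (Sum.inr (Sum.inl s))) =
              x (ee.symm (Sum.inr (Sum.inl s))) from congrFun this s]
            exact hx.2 s⟩)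
      · congr!
    have h3 : (univ.filter (fun g : Fin t → Bool => ∀ s, g s = true)).card = 1 := by
      rw [Finset.card_eq_one]
      refine ⟨fun _ => true, ?_⟩
      ext g
      simp only [mem_filter, mem_univ, true_and, mem_singleton]
      exact ⟨fun h => funext h, fun h s => by rw [h]⟩
    rw [h3, one_mul, pow_succ] at h1
    have h4 : ((univ.filter (fun a : EPos n =>
        ∀ s : Fin t, a.1 (ee.symm (Sum.inr (Sum.inl s))) = true)).filter
        (fun a => prof ee a.1 = w)).card =
        (univ.filter (fun a : EPos n => prof ee a.1 = w ∧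
          ∀ s : Fin t, a.1 (ee.symm (Sum.inr (Sum.inl s))) = true)).card := by
      rw [Finset.filter_filter]
      congr 1
      ext a
      simp only [mem_filter, mem_univ, true_and]
      tauto
    have h5 : 2 * ((univ.filter (fun a : EPos n =>
        ∀ s : Fin t, a.1 (ee.symm (Sum.inr (Sum.inl s))) = true)).filter
        (fun a => prof ee a.1 = w)).card = 2 * ((∏ i, k.choose (w i)) * 2 ^ r') := by
      rw [h4, h1]; ring
    have h6 := Nat.eq_of_mul_eq_mul_left (by norm_num : 0 < 2) h5
    rw [h6]; ring
  · have h0 := card_pat ee (fun g => ∀ s, g s = false)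
    have h1 : 2 * (univ.filter (fun b : OPos n =>
        ∀ s : Fin t, b.1 (ee.symm (Sum.inr (Sum.inl s))) = false)).card =
        2 ^ (K * k) * ((univ.filter (fun g : Fin t → Bool => ∀ s, g s = false)).card *
          2 ^ (r' + 1)) := by
      refine Eq.trans ?_ (Eq.trans h0 ?_)
      · convert two_card_odd f0 (fun x =>
          ∀ s : Fin t, x (ee.symm (Sum.inr (Sum.inl s))) = false)
          (fun x hx => by
            have := pat_flip ee u0 x
            show ∀ s, flip f0 x (ee.symm (Sum.inr (Sum.inl s))) = false
            intro s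
            rw [show flip f0 x (ee.symm (Sum.inr (Sum.inl s))) =
              x (ee.symm (Sum.inr (Sum.inl s))) from congrFun this s]
            exact hx s)
      · congr!
    have h3 : (univ.filter (fun g : Fin t → Bool => ∀ s, g s = false)).card = 1 := by
      rw [Finset.card_eq_one]
      refine ⟨fun _ => false, ?_⟩
      ext g
      simp only [mem_filter, mem_univ, true_and, mem_singleton]
      exact ⟨fun h => funext h, fun h s => by rw [h]⟩
    rw [h3, one_mul, pow_succ] at h1
    have h5 : 2 * (univ.filter (fun b : OPos n =>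
        ∀ s : Fin t, b.1 (ee.symm (Sum.inr (Sum.inl s))) = false)).card =
        2 * (2 ^ (K * k) * 2 ^ r') := by
      rw [h1]; ring
    have h6 := Nat.eq_of_mul_eq_mul_left (by norm_num : 0 < 2) h5
    rw [h6, hn1, pow_add, pow_add]; ring
  · intro a ha b hb hab
    simp only [mem_filter, mem_univ, true_and] at ha hb
    have h1 : hammingDist a.1 b.1 = 1 := hab
    have h2 : ({ee.symm (Sum.inr (Sum.inl ⟨0, by omega⟩)),
        ee.symm (Sum.inr (Sum.inl ⟨1, by omega⟩))} : Finset (Fin n)) ⊆
        ({i | a.1 i ≠ b.1 i} : Finset (Fin n)) := by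
      intro i hi
      simp only [mem_insert, mem_singleton] at hi
      simp only [mem_filter, mem_univ, true_and]
      rcases hi with hi | hi
      · rw [hi, ha, hb]; simp
      · rw [hi, ha, hb]; simp
    have h3 := Finset.card_le_card h2
    rw [Finset.card_pair (by
      intro hc
      have := ee.symm.injective hc
      simp at this)] at h3
    rw [hammingDist] at h1
    omega
  · intro w
    have h1 := prod_bound (k := k) hK w
    calc (∏ i, k.choose (w i)) * (2 ^ t * 2 ^ r') * n ^ e
        ≤ (∏ i, k.choose (w i)) * (2 ^ t * 2 ^ r') * ((k + 1) ^ 4) ^ e := by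
          apply Nat.mul_le_mul_left
          exact Nat.pow_le_pow_left hk e
      _ = ((∏ i, k.choose (w i)) * (k + 1) ^ (4 * e)) * (2 ^ t * 2 ^ r') := by
          rw [← pow_mul]; ring
      _ ≤ 2 ^ (K * k) * (2 ^ t * 2 ^ r') := Nat.mul_le_mul_right _ h1
      _ = 2 ^ (n - 1) := by rw [hn1, pow_add, pow_add]

end Pool.Agent.VC
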