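import Pool.Agent.VC.LprimeZ

set_option autoImplicit false

open MeasureTheory Set

namespace Pool.Agent.VC
namespace Sys

/-- the key lemma -/
theorem Lprime (ε : ℝ) (hε : 0 < ε) : ∃ c : ℝ, 0 < c ∧ ∃ j0 : ℕ, ∀ (S : Sys) (k : ℕ),
    S.sep k → ∀ G, S.nb k G ≤ 7 →
    volume {t | t ∈ Icc 1 2 ∧ S.good k t ∧ ∃ g, j0 ≤ g ∧ g ≤ G ∧ S.z k g t < c} ≤
      ENNReal.ofReal ε := by
  obtain ⟨c, hc, j0, h⟩ := LprimeZ ε hε
  refine ⟨c, hc, j0, fun S k hk G hG => ?_⟩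
  have hr : 0 < 1 / S.r k := one_div_pos.2 (S.r_pos k)
  have h1 : ((S.shift k).scale (1 / S.r k) hr).r 0 = 1 := by
    have e : ((S.shift k).scale (1 / S.r k) hr).r 0 = 1 / S.r k * S.P k + 1 / S.r k * S.Q k := rfl
    rw [e, ← mul_add]
    exact one_div_mul_cancel (S.r_pos k).ne'
  have h2 : ((S.shift k).scale (1 / S.r k) hr).sep 0 := by
    rw [sep_scale]
    exact hk
  have h3 : ((S.shift k).scale (1 / S.r k) hr).nb 0 G ≤ 7 := by
    rw [nb_scale, nb_shift]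
    exact hG
  refine le_trans (measure_mono ?_) (h ((S.shift k).scale (1 / S.r k) hr) h1 h2 G h3)
  rintro t ⟨ht, hg, g, hg1, hg2, hg3⟩
  refine ⟨ht, ?_, g, hg1, hg2, ?_⟩
  · have hg' : S.p k + t * S.q k ≤ S.P k + t * S.Q k := hg
    show 1 / S.r k * S.p k + t * (1 / S.r k * S.q k) ≤ 1 / S.r k * S.P k + t * (1 / S.r k * S.Q k)
    have h4 := mul_le_mul_of_nonneg_left hg' hr.le
    linarith
  · rw [z_scale, z_shift]
    exact hg3

/-- the bad slopes of the index `k`: horizon given by the density -/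
def bd (S : Sys) (c : ℝ) (j0 k : ℕ) : Set ℝ :=
  {t | t ∈ Icc 1 2 ∧ S.good k t ∧ ∃ g, j0 ≤ g ∧ S.ta k ≤ 2 * S.ta (k + g) ∧ S.z k g t < c}

theorem measurableSet_bd (S : Sys) (c : ℝ) (j0 k : ℕ) : MeasurableSet (S.bd c j0 k) := by
  have e : S.bd c j0 k = Icc 1 2 ∩ ({t | S.v k t ≤ S.L k t} ∩
      ⋃ g : ℕ, ⋃ (_ : j0 ≤ g ∧ S.ta k ≤ 2 * S.ta (k + g)), {t | S.z k g t < c}) := by
    ext t
    simp only [bd, good, mem_ofPred_eq, mem_inter_iff, mem_iUnion, exists_prop, and_assoc]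
  rw [e]
  refine measurableSet_Icc.inter (MeasurableSet.inter ?_ ?_)
  · refine measurableSet_le ?_ ?_
    · exact (continuous_const.add (continuous_id.mul continuous_const)).measurable
    · exact (continuous_const.add (continuous_id.mul continuous_const)).measurable
  · refine MeasurableSet.iUnion fun g => MeasurableSet.iUnion fun _ => ?_
    exact measurableSet_lt (S.z_cont k g).measurable measurable_const

theorem vol_bd (ε : ℝ) (hε : 0 < ε) : ∃ c : ℝ, 0 < c ∧ ∃ j0 : ℕ, ∀ (S : Sys) (k : ℕ),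
    S.sep k → volume (S.bd c j0 k) ≤ ENNReal.ofReal ε := by
  classical
  obtain ⟨c, hc, j0, h⟩ := Lprime ε hε
  refine ⟨c, hc, j0, fun S k hk => ?_⟩
  have e : S.bd c j0 k = ⋃ G : ℕ, {t | t ∈ Icc 1 2 ∧ S.good k t ∧
      ∃ g, j0 ≤ g ∧ g ≤ G ∧ S.ta k ≤ 2 * S.ta (k + g) ∧ S.z k g t < c} := by
    ext t
    rw [mem_iUnion]
    constructor
    · rintro ⟨h1, h2, g, h3, h4, h5⟩
      exact ⟨g, h1, h2, g, h3, le_rfl, h4, h5⟩
    · rintro ⟨G, h1, h2, g, h3, _, h4, h5⟩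
      exact ⟨h1, h2, g, h3, h4, h5⟩
  have hmono : Monotone (fun G : ℕ => {t | t ∈ Icc (1 : ℝ) 2 ∧ S.good k t ∧
      ∃ g, j0 ≤ g ∧ g ≤ G ∧ S.ta k ≤ 2 * S.ta (k + g) ∧ S.z k g t < c}) := by
    intro G G' hGG t
    rintro ⟨h1, h2, g, h3, h3', h4, h5⟩
    exact ⟨h1, h2, g, h3, h3'.trans hGG, h4, h5⟩
  rw [e, hmono.measure_iUnion]
  refine iSup_le fun G => ?_
  have hta : 0 < S.ta k := S.ta_pos k
  have h0 : S.ta k ≤ 2 * S.ta (k + 0) := by
    rw [add_zero]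
    linarith
  have hG : S.ta k ≤ 2 * S.ta (k + Nat.findGreatest (fun g => S.ta k ≤ 2 * S.ta (k + g)) G) :=
    Nat.findGreatest_spec (P := fun g => S.ta k ≤ 2 * S.ta (k + g)) (Nat.zero_le G) h0
  refine le_trans (measure_mono ?_) (h S k hk _ (S.nb_le_seven k _ hG))
  rintro t ⟨h1, h2, g, h3, h3', h4, h5⟩
  exact ⟨h1, h2, g, h3, Nat.le_findGreatest h3' h4, h5⟩

end Sys
end Pool.Agent.VC
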