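import Pool.Agent.VC.Iter
import Pool.Agent.VC.Lprime

set_option autoImplicit false

open MeasureTheory Set

namespace Pool.Agent.VC
namespace Sys

theorem sysA_ta_L (S : Sys) (t : ℝ) (h1 : 1 ≤ t) (h2 : t ≤ 2) : S.L 0 t * S.ta 0 ≤ 5 := by
  have hP := S.Ppos 0
  have hQ := S.Qpos 0
  have hL := S.L_pos 0 t (by linarith)
  have hta := S.ta_pos 0
  have hA : S.A 0 * (S.P 0 * S.Q 0) = 1 := by
    unfold A
    rw [pow_zero, one_mul, one_div, inv_mul_cancel₀ (mul_pos hP hQ).ne']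
  have h3 : (S.L 0 t * S.ta 0) ^ 2 * (S.P 0 * S.Q 0) = S.L 0 t ^ 2 := by
    rw [mul_pow, S.ta_sq, mul_assoc, hA, mul_one]
  have hr1 := (S.ratio 0).1
  have hr2 := (S.ratio 0).2
  have h4 : S.L 0 t ≤ S.P 0 + 2 * S.Q 0 := by
    unfold L
    have := mul_le_mul_of_nonneg_right h2 hQ.le
    linarith
  have h5 : S.L 0 t ^ 2 ≤ 25 * (S.P 0 * S.Q 0) := by
    have h6 : S.L 0 t ^ 2 ≤ (S.P 0 + 2 * S.Q 0) ^ 2 := pow_le_pow_left₀ hL.le h4 2
    have h7 : 0 ≤ (4 * S.Q 0 - S.P 0) * (4 * S.P 0 - S.Q 0) :=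
      mul_nonneg (by linarith) (by linarith)
    have h8 : 0 ≤ S.P 0 * S.P 0 := mul_nonneg hP.le hP.le
    have h9 := mul_nonneg hQ.le hQ.le
    have h10 := mul_pos hP hQ
    have h11 : 4 * (S.P 0 * S.P 0 + S.Q 0 * S.Q 0) ≤ 17 * (S.P 0 * S.Q 0) := by linarith
    have h12 : (S.P 0 + 2 * S.Q 0) ^ 2 =
        S.P 0 * S.P 0 + 4 * (S.P 0 * S.Q 0) + 4 * (S.Q 0 * S.Q 0) := by ring
    linarith
  have h6 : (S.L 0 t * S.ta 0) ^ 2 ≤ 5 ^ 2 := by
    have h7 : (S.L 0 t * S.ta 0) ^ 2 * (S.P 0 * S.Q 0) ≤ 5 ^ 2 * (S.P 0 * S.Q 0) := by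
      rw [h3]
      linarith
    exact le_of_mul_le_mul_right h7 (mul_pos hP hQ)
  exact (sq_le_sq₀ (mul_pos hL hta).le (by norm_num)).1 h6

open Classical in
/-- the loss at the slope `t` -/
noncomputable def lossA (S : Sys) (c : ℝ) (j0 N : ℕ) (t : ℝ) : ℝ :=
  ∑ k ∈ (Finset.Icc 1 N).filter (fun k => S.sep k), if t ∈ S.bd c j0 k then S.A k else 0

open Classical in
theorem lossA_markov (S : Sys) (c : ℝ) (j0 N : ℕ) {ε T : ℝ} (hε : 0 < ε) (hT : 0 < T)
    (hTN : ∑ k ∈ Finset.range (N + 1), S.A k = T)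
    (h : ∀ k, S.sep k → volume (S.bd c j0 k) ≤ ENNReal.ofReal (ε / 12)) :
    volume {t | T / 12 ≤ S.lossA c j0 N t} ≤ ENNReal.ofReal ε := by
  set I := (Finset.Icc 1 N).filter (fun k => S.sep k) with hI
  let f : ℝ → ENNReal := fun t => ∑ k ∈ I,
    (S.bd c j0 k).indicator (fun _ => ENNReal.ofReal (S.A k)) t
  have hfm : Measurable f := Finset.measurable_sum _ fun k _ =>
    measurable_const.indicator (S.measurableSet_bd c j0 k)
  have hf : ∀ t, f t = ENNReal.ofReal (S.lossA c j0 N t) := by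
    intro t
    unfold lossA
    rw [ENNReal.ofReal_sum_of_nonneg fun k _ => by
      split_ifs
      · exact (S.A_pos k).le
      · exact le_rfl]
    refine Finset.sum_congr rfl fun k _ => ?_
    by_cases ht : t ∈ S.bd c j0 k
    · rw [indicator_of_mem ht, if_pos ht]
    · rw [indicator_of_notMem ht, if_neg ht, ENNReal.ofReal_zero]
  have hint : ∫⁻ t, f t ≤ ENNReal.ofReal (T * (ε / 12)) := by
    have e : ∫⁻ t, f t = ∑ k ∈ I, ENNReal.ofReal (S.A k) * volume (S.bd c j0 k) := by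
      show ∫⁻ t, ∑ k ∈ I, (S.bd c j0 k).indicator (fun _ => ENNReal.ofReal (S.A k)) t = _
      rw [lintegral_finsetSum _ fun k _ =>
        measurable_const.indicator (S.measurableSet_bd c j0 k)]
      refine Finset.sum_congr rfl fun k _ => ?_
      rw [lintegral_indicator (S.measurableSet_bd c j0 k), setLIntegral_const]
    rw [e]
    have h1 : ∑ k ∈ I, ENNReal.ofReal (S.A k) * volume (S.bd c j0 k) ≤
        ∑ k ∈ I, ENNReal.ofReal (S.A k * (ε / 12)) := by
      refine Finset.sum_le_sum fun k hk => ?_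
      rw [ENNReal.ofReal_mul (S.A_pos k).le]
      exact mul_le_mul_right (h k (Finset.mem_filter.1 hk).2) _
    refine h1.trans ?_
    rw [← ENNReal.ofReal_sum_of_nonneg fun k _ => by
      have := S.A_pos k
      positivity]
    apply ENNReal.ofReal_le_ofReal
    rw [← Finset.sum_mul, ← hTN]
    refine mul_le_mul_of_nonneg_right ?_ (by linarith)
    refine Finset.sum_le_sum_of_subset_of_nonneg (fun k hk => ?_) fun k _ _ => (S.A_pos k).le
    have h2 := (Finset.mem_Icc.1 (Finset.mem_filter.1 hk).1).2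
    rw [Finset.mem_range]
    omega
  have hsub : {t | T / 12 ≤ S.lossA c j0 N t} ⊆ {t | ENNReal.ofReal (T / 12) ≤ f t} := by
    intro t ht
    have ht' : T / 12 ≤ S.lossA c j0 N t := ht
    show ENNReal.ofReal (T / 12) ≤ f t
    rw [hf]
    exact ENNReal.ofReal_le_ofReal ht'
  have hmark := mul_meas_ge_le_lintegral (μ := volume) hfm (ENNReal.ofReal (T / 12))
  have h3 : ENNReal.ofReal (T / 12) * volume {t | T / 12 ≤ S.lossA c j0 N t} ≤
      ENNReal.ofReal (T / 12) * ENNReal.ofReal ε := by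
    rw [← ENNReal.ofReal_mul (by linarith)]
    refine (mul_le_mul_right (measure_mono hsub) _).trans (hmark.trans (hint.trans ?_))
    apply ENNReal.ofReal_le_ofReal
    apply le_of_eq
    ring
  have hpos : ENNReal.ofReal (T / 12) ≠ 0 := by
    rw [Ne, ENNReal.ofReal_eq_zero, not_le]
    linarith
  exact (ENNReal.mul_le_mul_iff_right hpos ENNReal.ofReal_ne_top).1 h3

open Classical in
/-- the usable indices -/
noncomputable def usable (S : Sys) (c : ℝ) (j0 N : ℕ) (t : ℝ) : Finset ℕ :=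
  (Finset.Icc 1 N).filter (fun k => S.sep k ∧ S.good k t ∧ t ∉ S.bd c j0 k)

theorem usable_sum (S : Sys) (c : ℝ) (j0 N : ℕ) (t : ℝ) (h1 : 1 ≤ t) (h2 : t ≤ 2) {T : ℝ}
    (hTN : ∑ k ∈ Finset.range (N + 1), S.A k = T) (hl : S.lossA c j0 N t < T / 12)
    (hA : 59 * S.A 0 ≤ T) : T / 8 ≤ ∑ k ∈ S.usable c j0 N t, S.A k := by
  classical
  have hg := S.sum_good N t h1 h2 ((Finset.Icc 1 N).filter (fun k => S.good k t))
    (fun k hk1 hk2 hk3 => Finset.mem_filter.2 ⟨Finset.mem_Icc.2 ⟨hk1, hk2⟩, hk3⟩)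
  have hn := S.sum_nonsep N ((Finset.Icc 1 N).filter (fun k => ¬ S.sep k))
    (fun k hk => ⟨(Finset.mem_Icc.1 (Finset.mem_filter.1 hk).1).1,
      (Finset.mem_Icc.1 (Finset.mem_filter.1 hk).1).2, (Finset.mem_filter.1 hk).2⟩)
  have hsplit : ∑ k ∈ (Finset.Icc 1 N).filter (fun k => S.good k t), S.A k ≤
      ∑ k ∈ S.usable c j0 N t, S.A k +
      ∑ k ∈ (Finset.Icc 1 N).filter (fun k => ¬ S.sep k), S.A k + S.lossA c j0 N t := by
    unfold usable lossA
    rw [Finset.sum_filter, Finset.sum_filter, Finset.sum_filter, Finset.sum_filter,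
      ← Finset.sum_add_distrib, ← Finset.sum_add_distrib]
    refine Finset.sum_le_sum fun k _ => ?_
    have hk := (S.A_pos k).le
    by_cases a1 : S.good k t <;> by_cases a2 : S.sep k <;> by_cases a3 : t ∈ S.bd c j0 k <;>
      simp [a1, a2, a3, hk]
  rw [hTN] at hg
  have h0 := S.A_pos 0
  linarith

/-- part A for binary systems -/
theorem sysA (ε : ℝ) (hε : 0 < ε) : ∃ C : ℝ, 0 < C ∧ ∀ (S : Sys) (N : ℕ),
    volume {t | t ∈ Icc 1 2 ∧ ENNReal.ofReal C <
      volume (fam (S.vt t) (S.Lt t) 0 {0} N) *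
        ENNReal.ofReal (Real.sqrt (∑ k ∈ Finset.range (N + 1), S.A k))} ≤ ENNReal.ofReal ε := by
  obtain ⟨c, hc, j0, hbd⟩ := vol_bd (ε / 12) (by linarith)
  obtain ⟨C1, hC1, hiter⟩ := iter c hc j0
  set M : ℝ := max 59 (8 * C1) with hM
  have hM0 : 0 < M := lt_of_lt_of_le (by norm_num) (le_max_left _ _)
  set C : ℝ := max (C1 * Real.sqrt (8 * C1)) (5 * Real.sqrt M) with hCdef
  have hCpos : 0 < C := lt_of_lt_of_le (mul_pos (by norm_num) (Real.sqrt_pos.2 hM0))
    (le_max_right _ _)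
  refine ⟨C, hCpos, fun S N => ?_⟩
  obtain ⟨T, hTN⟩ : ∃ T : ℝ, ∑ k ∈ Finset.range (N + 1), S.A k = T := ⟨_, rfl⟩
  rw [hTN]
  have hA0 := S.A_pos 0
  have hTA : S.A 0 ≤ T := by
    rw [← hTN]
    exact Finset.single_le_sum (f := fun k => S.A k) (fun k _ => (S.A_pos k).le)
      (Finset.mem_range.2 (Nat.succ_pos N))
  have hT : 0 < T := lt_of_lt_of_le hA0 hTA
  by_cases hcase : M * S.A 0 ≤ T
  · -- large total mass
    refine le_trans (measure_mono ?_) (S.lossA_markov c j0 N hε hT hTN (hbd S))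
    rintro t ⟨ht, hlt⟩
    show T / 12 ≤ S.lossA c j0 N t
    by_contra hcon
    push Not at hcon
    have h59 : 59 * S.A 0 ≤ T :=
      le_trans (mul_le_mul_of_nonneg_right (le_max_left _ _) hA0.le) hcase
    have h8 : 8 * C1 * S.A 0 ≤ T :=
      le_trans (mul_le_mul_of_nonneg_right (le_max_right _ _) hA0.le) hcase
    have hsum := S.usable_sum c j0 N t ht.1 ht.2 hTN hcon h59
    have h8C : 0 < 8 * C1 := by linarith
    set K : ℝ := Real.sqrt (T / (8 * C1)) with hK
    have hK0 : 0 < K := Real.sqrt_pos.2 (div_pos hT h8C)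
    have hKsq : K ^ 2 = T / (8 * C1) := Real.sq_sqrt (div_pos hT h8C).le
    have hit := hiter S t ht.1 ht.2 N (S.usable c j0 N t) (fun k hk => by
        classical
        have hk' := Finset.mem_filter.1 (by unfold usable at hk; exact hk)
        refine ⟨(Finset.mem_Icc.1 hk'.1).1, (Finset.mem_Icc.1 hk'.1).2, fun g hg hta => ?_⟩
        by_contra hz
        exact hk'.2.2.2 ⟨ht, hk'.2.2.1, g, hg, hta, not_le.1 hz⟩) K
      (by
        rw [hK]
        apply Real.le_sqrt_of_sq_le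
        rw [S.ta_sq, le_div_iff₀ h8C]
        linarith)
      (by
        rw [hKsq]
        have e : C1 * (T / (8 * C1)) = T / 8 := by
          field_simp
        rw [e]
        exact hsum)
    have hfin : volume (fam (S.vt t) (S.Lt t) 0 {0} N) * ENNReal.ofReal (Real.sqrt T) ≤
        ENNReal.ofReal C := by
      refine (mul_le_mul_left hit _).trans ?_
      rw [← ENNReal.ofReal_mul (by positivity)]
      apply ENNReal.ofReal_le_ofReal
      have e : Real.sqrt T = K * Real.sqrt (8 * C1) := by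
        rw [hK, ← Real.sqrt_mul (div_pos hT h8C).le, div_mul_cancel₀ _ h8C.ne']
      rw [e]
      have e2 : C1 / K * (K * Real.sqrt (8 * C1)) = C1 * Real.sqrt (8 * C1) := by
        rw [← mul_assoc, div_mul_cancel₀ _ hK0.ne']
      rw [e2]
      exact le_max_left _ _
    exact absurd hlt (not_lt.2 hfin)
  · -- small total mass
    push Not at hcase
    have hempty : {t | t ∈ Icc (1 : ℝ) 2 ∧ ENNReal.ofReal C <
        volume (fam (S.vt t) (S.Lt t) 0 {0} N) * ENNReal.ofReal (Real.sqrt T)} = ∅ := by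
      rw [Set.eq_empty_iff_forall_notMem]
      rintro t ⟨ht, hlt⟩
      have hv : ∀ i, 0 ≤ S.vt t i := fun i => (S.v_pos i t (by linarith [ht.1])).le
      have hL : ∀ i, S.Lt t i = S.vt t (i + 1) + S.Lt t (i + 1) := fun i => S.L_eq i t
      have hLp : ∀ i, 0 < S.Lt t i := fun i => S.L_pos i t (by linarith [ht.1])
      have h1 := fam_triv (S.vt t) (S.Lt t) hv hL hLp 0 N (Nat.zero_le _) {0}
      rw [Finset.card_singleton, Nat.cast_one, one_mul] at h1
      have hfin : volume (fam (S.vt t) (S.Lt t) 0 {0} N) * ENNReal.ofReal (Real.sqrt T) ≤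
          ENNReal.ofReal C := by
        refine (mul_le_mul_left h1 _).trans ?_
        rw [← ENNReal.ofReal_mul (hLp 0).le]
        apply ENNReal.ofReal_le_ofReal
        have h2 : Real.sqrt T ≤ Real.sqrt M * S.ta 0 := by
          unfold ta
          rw [← Real.sqrt_mul hM0.le]
          exact Real.sqrt_le_sqrt hcase.le
        calc S.Lt t 0 * Real.sqrt T ≤ S.Lt t 0 * (Real.sqrt M * S.ta 0) :=
              mul_le_mul_of_nonneg_left h2 (hLp 0).le
          _ = (S.L 0 t * S.ta 0) * Real.sqrt M := by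
              show S.L 0 t * (Real.sqrt M * S.ta 0) = _
              ring
          _ ≤ 5 * Real.sqrt M :=
              mul_le_mul_of_nonneg_right (S.sysA_ta_L t ht.1 ht.2) (Real.sqrt_nonneg _)
          _ ≤ C := le_max_right _ _
      exact absurd hlt (not_lt.2 hfin)
    rw [hempty, measure_empty]
    exact zero_le

end Sys
end Pool.Agent.VC
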