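import Pool.Agent.VC.ProjStage
import Pool.Agent.VC.SysA

set_option autoImplicit false

open MeasureTheory Set

namespace Pool.Agent.VC

private theorem sa_slope_le (lam : ℕ → ℝ) (h : ∀ k, 0 < lam k ∧ lam k ≤ 1 / 2) (N : ℕ) (τ : ℝ)
    (h0 : 0 ≤ τ) (h1 : τ ≤ 1) : volume (slope τ '' stage lam N) ≤ ENNReal.ofReal 2 := by
  have hsub : slope τ '' stage lam N ⊆ Icc 0 2 := by
    rintro _ ⟨w, hw, rfl⟩
    have hx := linStage_subset lam h N hw.1
    have hy := linStage_subset lam h N hw.2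
    show w.re + τ * w.im ∈ Icc (0 : ℝ) 2
    constructor
    · have := mul_nonneg h0 hy.1
      linarith [hx.1]
    · have h3 : τ * w.im ≤ 1 * 1 := mul_le_mul h1 hy.2 hy.1 (by norm_num)
      linarith [hx.2]
  refine (measure_mono hsub).trans ?_
  rw [Real.volume_Icc]
  norm_num

private theorem sa_SS_le (lam : ℕ → ℝ) (h : ∀ k, 1 / 4 ≤ lam k) (n : ℕ) : SS lam n ≤ n := by
  unfold SS
  have h3 : ∑ k ∈ Finset.range n, dens lam k ^ 2 ≤ ∑ k ∈ Finset.range n, (1 : ℝ) := by
    refine Finset.sum_le_sum fun k _ => ?_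
    have h5 := (dens_pos lam h k).le
    have h6 := dens_le_one lam h k
    nlinarith
  simp only [Finset.sum_const, Finset.card_range, nsmul_eq_mul, mul_one] at h3
  exact h3

/-- the exceptional set of the scale `d` -/
private def sa_E (lam : ℕ → ℝ) (N d : ℕ) (C1 : ℝ) (I : Inter lam d) : Set ℝ :=
  {t | t ∈ Icc 1 2 ∧ ENNReal.ofReal C1 <
      volume (fam (I.S.vt t) (I.S.Lt t) 0 {0} (N - I.k0)) *
        ENNReal.ofReal (Real.sqrt (∑ k ∈ Finset.range (N - I.k0 + 1), I.S.A k))}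

private theorem sa_point (lam : ℕ → ℝ) (h : ∀ k, 1 / 4 ≤ lam k ∧ lam k ≤ 1 / 2) (N d D : ℕ)
    (hd1 : 1 ≤ d) (hdD : d ≤ D) (C1 : ℝ) (hC1 : 0 < C1) (I : Inter lam d) (t : ℝ)
    (ht : t ∈ Icc (1 : ℝ) 2) (htE : t ∉ sa_E lam N d C1 I) :
    volume (slope (t * (1 / 2) ^ d) '' stage lam N) *
      ENNReal.ofReal (Real.sqrt (SS lam (N + 1))) ≤
        ENNReal.ofReal (2 ^ D * (C1 + 2 * Real.sqrt D)) := by
  have h' : ∀ k, 0 < lam k ∧ lam k ≤ 1 / 2 := fun k => ⟨by linarith [(h k).1], (h k).2⟩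
  have hD0 : (0 : ℝ) ≤ Real.sqrt D := Real.sqrt_nonneg _
  have h2D : (1 : ℝ) ≤ 2 ^ D := one_le_pow₀ (by norm_num)
  have hdD' : (d : ℝ) ≤ D := by exact_mod_cast hdD
  have hd2 : ((1 : ℝ) / 2) ^ d ≤ 1 / 2 := by
    have := pow_le_pow_of_le_one (show (0 : ℝ) ≤ 1 / 2 by norm_num) (by norm_num) hd1
    rwa [pow_one] at this
  by_cases hN : N < I.k0
  · have h3 : volume (slope (t * (1 / 2) ^ d) '' stage lam N) ≤ ENNReal.ofReal 2 := by
      apply sa_slope_le lam h' N
      · have := ht.1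
        positivity
      · have h4 : (0 : ℝ) < (1 / 2) ^ d := by positivity
        nlinarith [ht.1, ht.2]
    have h4 : SS lam (N + 1) ≤ D := by
      refine (sa_SS_le lam (fun k => (h k).1) (N + 1)).trans ?_
      have := I.k0_le
      exact_mod_cast (by omega : N + 1 ≤ D)
    refine (mul_le_mul' h3 (ENNReal.ofReal_le_ofReal (Real.sqrt_le_sqrt h4))).trans ?_
    rw [← ENNReal.ofReal_mul (by norm_num)]
    apply ENNReal.ofReal_le_ofReal
    nlinarith
  · obtain ⟨n, rfl⟩ := Nat.exists_eq_add_of_le (not_lt.mp hN)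
    have e1 : I.k0 + n - I.k0 = n := by omega
    have hV := slope_stage lam h d I n t (by linarith [ht.1])
    have hS := SS_le_inter lam h d I n
    set V := volume (fam (I.S.vt t) (I.S.Lt t) 0 {0} n) with hVdef
    have hV2 : V ≤ ENNReal.ofReal 2 := by
      have ht0 : 0 < t := by linarith [ht.1]
      have h3 := fam_triv (I.S.vt t) (I.S.Lt t) (fun i => (I.S.v_pos i t ht0).le)
        (fun i => I.S.L_eq i t) (fun i => I.S.L_pos i t ht0) 0 n (Nat.zero_le _) {0}
      refine h3.trans (ENNReal.ofReal_le_ofReal ?_)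
      rw [Finset.card_singleton, Nat.cast_one, one_mul]
      show I.S.P 0 + t * I.S.Q 0 ≤ 2
      rw [I.hP, I.hQ, I.iy0]
      have h4 : side lam (I.ix 0) ≤ 1 := by
        have := side_anti lam h' (Nat.zero_le (I.ix 0))
        exact this
      have h5 : side lam 0 = 1 := rfl
      rw [h5]
      have h6 : (0 : ℝ) < (1 / 2) ^ d := by positivity
      nlinarith [ht.1, ht.2]
    have hVA : V * ENNReal.ofReal (Real.sqrt (∑ k ∈ Finset.range (n + 1), I.S.A k)) ≤
        ENNReal.ofReal C1 := by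
      by_contra hc
      apply htE
      refine ⟨ht, ?_⟩
      rw [e1]
      exact not_le.mp hc
    have hsq : Real.sqrt (SS lam (I.k0 + n + 1)) ≤
        Real.sqrt (∑ k ∈ Finset.range (n + 1), I.S.A k) + Real.sqrt D := by
      refine (Real.sqrt_le_sqrt (hS.trans (add_le_add_right hdD' _))).trans ?_
      have hA0 : 0 ≤ ∑ k ∈ Finset.range (n + 1), I.S.A k :=
        Finset.sum_nonneg fun k _ => (I.S.A_pos k).le
      rw [Real.sqrt_le_left (by positivity)]
      have q1 := Real.sq_sqrt hA0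
      have q2 := Real.sq_sqrt (Nat.cast_nonneg (α := ℝ) D)
      nlinarith [mul_nonneg (Real.sqrt_nonneg (∑ k ∈ Finset.range (n + 1), I.S.A k)) hD0]
    have hk : (2 : ENNReal) ^ I.k0 ≤ ENNReal.ofReal (2 ^ D) := by
      rw [ENNReal.ofReal_pow (by norm_num), ENNReal.ofReal_ofNat]
      exact pow_le_pow_right₀ (by norm_num) (I.k0_le.trans hdD)
    calc volume (slope (t * (1 / 2) ^ d) '' stage lam (I.k0 + n)) *
          ENNReal.ofReal (Real.sqrt (SS lam (I.k0 + n + 1)))
        ≤ ENNReal.ofReal (2 ^ D) * V *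
          (ENNReal.ofReal (Real.sqrt (∑ k ∈ Finset.range (n + 1), I.S.A k)) +
            ENNReal.ofReal (Real.sqrt D)) := by
          refine mul_le_mul' (hV.trans (mul_le_mul' hk le_rfl)) ?_
          rw [← ENNReal.ofReal_add (Real.sqrt_nonneg _) hD0]
          exact ENNReal.ofReal_le_ofReal hsq
      _ = ENNReal.ofReal (2 ^ D) *
          (V * ENNReal.ofReal (Real.sqrt (∑ k ∈ Finset.range (n + 1), I.S.A k)) +
            V * ENNReal.ofReal (Real.sqrt D)) := by rw [mul_assoc, mul_add]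
      _ ≤ ENNReal.ofReal (2 ^ D) * (ENNReal.ofReal C1 + ENNReal.ofReal 2 *
            ENNReal.ofReal (Real.sqrt D)) :=
          mul_le_mul' le_rfl (add_le_add hVA (mul_le_mul' hV2 le_rfl))
      _ = ENNReal.ofReal (2 ^ D * (C1 + 2 * Real.sqrt D)) := by
          rw [ENNReal.ofReal_mul (by positivity), ENNReal.ofReal_add hC1.le (by positivity),
            ENNReal.ofReal_mul (by norm_num : (0 : ℝ) ≤ 2)]

open Pointwise in
private theorem sa_scale (c : ℝ) (s : Set ℝ) :
    volume ((fun x => c * x) '' s) = ENNReal.ofReal |c| * volume s := by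
  have h1 : (fun x => c * x) '' s = c • s := rfl
  rw [h1, Measure.addHaar_smul, Module.finrank_self, pow_one]

/-- part A for the slopes in `(0,1]` -/
theorem slopeA (ε : ℝ) (hε : 0 < ε) : ∃ C : ℝ, 0 < C ∧ ∀ lam : ℕ → ℝ,
    (∀ k, 1 / 4 ≤ lam k ∧ lam k ≤ 1 / 2) → ∀ N : ℕ,
    volume {t | t ∈ Ioc 0 1 ∧ ENNReal.ofReal C <
      volume (slope t '' stage lam N) * ENNReal.ofReal (Real.sqrt (SS lam (N + 1)))} ≤
      ENNReal.ofReal ε := by
  obtain ⟨D0, hD0⟩ := exists_pow_lt_of_lt_one (half_pos hε) (by norm_num : (1 / 2 : ℝ) < 1)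
  set D : ℕ := D0 + 1 with hDdef
  have hDpos : (0 : ℝ) < D := by positivity
  have hD : ((1 : ℝ) / 2) ^ D ≤ ε / 2 := by
    rw [hDdef, pow_succ]
    have : (0 : ℝ) < (1 / 2) ^ D0 := by positivity
    linarith
  obtain ⟨C1, hC1, hS⟩ := Sys.sysA (ε / (2 * D)) (by positivity)
  refine ⟨2 ^ D * (C1 + 2 * Real.sqrt D), by positivity, fun lam h N => ?_⟩
  let I : ∀ d : ℕ, 1 ≤ d → Inter lam d := fun d hd => (exists_inter lam h d hd).some
  let E : ℕ → Set ℝ := fun d => if hd : 1 ≤ d then sa_E lam N d C1 (I d hd) else ∅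
  have hE : ∀ d ∈ Finset.Icc 1 D, volume ((fun x => ((1 : ℝ) / 2) ^ d * x) '' E d) ≤
      ENNReal.ofReal (ε / (2 * D)) := by
    intro d hd
    rw [Finset.mem_Icc] at hd
    rw [sa_scale]
    have h1 : ENNReal.ofReal |((1 : ℝ) / 2) ^ d| ≤ 1 := by
      rw [abs_of_nonneg (by positivity)]
      rw [← ENNReal.ofReal_one]
      exact ENNReal.ofReal_le_ofReal (pow_le_one₀ (by norm_num) (by norm_num))
    have h2 : volume (E d) ≤ ENNReal.ofReal (ε / (2 * D)) := by
      show volume (if hd : 1 ≤ d then sa_E lam N d C1 (I d hd) else ∅) ≤ _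
      rw [dif_pos hd.1]
      exact hS (I d hd.1).S (N - (I d hd.1).k0)
    calc ENNReal.ofReal |((1 : ℝ) / 2) ^ d| * volume (E d)
        ≤ 1 * ENNReal.ofReal (ε / (2 * D)) := mul_le_mul' h1 h2
      _ = _ := one_mul _
  have hsub : {t | t ∈ Ioc (0 : ℝ) 1 ∧ ENNReal.ofReal (2 ^ D * (C1 + 2 * Real.sqrt D)) <
      volume (slope t '' stage lam N) * ENNReal.ofReal (Real.sqrt (SS lam (N + 1)))} ⊆
      Icc 0 ((1 / 2) ^ D) ∪ ⋃ d ∈ Finset.Icc 1 D, (fun x => ((1 : ℝ) / 2) ^ d * x) '' E d := by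
    rintro τ ⟨⟨hτ0, hτ1⟩, hτ⟩
    by_cases hc : τ ≤ (1 / 2) ^ D
    · left
      exact ⟨hτ0.le, hc⟩
    · right
      rw [not_le] at hc
      obtain ⟨n, hn1, hn2⟩ := exists_nat_pow_near_of_lt_one hτ0 hτ1
        (by norm_num : (0 : ℝ) < 1 / 2) (by norm_num)
      have hnD : n < D := by
        by_contra hcon
        have := pow_le_pow_of_le_one (show (0 : ℝ) ≤ 1 / 2 by norm_num) (by norm_num)
          (not_lt.mp hcon)
        linarith
      have hd1 : 1 ≤ n + 1 := by omega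
      have hdD : n + 1 ≤ D := by omega
      rw [mem_iUnion₂]
      refine ⟨n + 1, Finset.mem_Icc.mpr ⟨hd1, hdD⟩, ?_⟩
      have hp : (0 : ℝ) < (1 / 2) ^ (n + 1) := by positivity
      set t : ℝ := τ / (1 / 2) ^ (n + 1) with ht
      have hτt : τ = t * (1 / 2) ^ (n + 1) := by rw [ht]; field_simp
      have htI : t ∈ Icc (1 : ℝ) 2 := by
        constructor
        · rw [ht, le_div_iff₀ hp]
          linarith
        · rw [ht, div_le_iff₀ hp, pow_succ]
          linarith
      have htE : t ∈ E (n + 1) := by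
        by_contra hcon
        have hcon' : t ∉ sa_E lam N (n + 1) C1 (I (n + 1) hd1) := by
          intro hh
          apply hcon
          show t ∈ (if hd : 1 ≤ n + 1 then sa_E lam N (n + 1) C1 (I (n + 1) hd) else ∅)
          rw [dif_pos hd1]
          exact hh
        have h5 := sa_point lam h N (n + 1) D hd1 hdD C1 hC1 (I (n + 1) hd1) t htI hcon'
        rw [← hτt] at h5
        exact absurd hτ (not_lt.mpr h5)
      refine ⟨t, htE, ?_⟩
      show (1 / 2) ^ (n + 1) * t = τ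
      rw [hτt]
      ring
  refine (measure_mono hsub).trans ((measure_union_le _ _).trans ?_)
  have h7 : volume (Icc (0 : ℝ) ((1 / 2) ^ D)) ≤ ENNReal.ofReal (ε / 2) := by
    rw [Real.volume_Icc, sub_zero]
    exact ENNReal.ofReal_le_ofReal hD
  have h8 : volume (⋃ d ∈ Finset.Icc 1 D, (fun x => ((1 : ℝ) / 2) ^ d * x) '' E d) ≤ ENNReal.ofReal (ε / 2) := by
    refine (measure_biUnion_finset_le _ _).trans ((Finset.sum_le_sum hE).trans ?_)
    rw [Finset.sum_const, Nat.card_Icc, nsmul_eq_mul]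
    rw [← ENNReal.ofReal_natCast, ← ENNReal.ofReal_mul (by positivity)]
    apply ENNReal.ofReal_le_ofReal
    rw [Nat.add_sub_cancel]
    apply le_of_eq
    field_simp
  calc _ ≤ ENNReal.ofReal (ε / 2) + ENNReal.ofReal (ε / 2) := add_le_add h7 h8
    _ = ENNReal.ofReal ε := by
      rw [← ENNReal.ofReal_add (by positivity) (by positivity), add_halves]

end Pool.Agent.VC
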