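import Pool.Agent.VC.Stage

set_option autoImplicit false

open MeasureTheory Set

namespace Pool.Agent.VC

/-- part A for the slopes in `(0,1]` -/
def SlopeStmt : Prop := ∀ ε : ℝ, 0 < ε → ∃ C : ℝ, 0 < C ∧ ∀ lam : ℕ → ℝ,
    (∀ k, 1 / 4 ≤ lam k ∧ lam k ≤ 1 / 2) → ∀ N : ℕ,
    volume {t | t ∈ Ioc 0 1 ∧ ENNReal.ofReal C <
      volume (slope t '' stage lam N) * ENNReal.ofReal (Real.sqrt (SS lam (N + 1)))} ≤
      ENNReal.ofReal ε

theorem an_lip {f : ℝ → ℝ} (hf : LipschitzWith 1 f) (s : Set ℝ) :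
    volume (f '' s) ≤ volume s := by
  rw [← hausdorffMeasure_real]
  refine (hf.hausdorffMeasure_image_le zero_le_one s).trans ?_
  simp

theorem an_arctan : LipschitzWith 1 Real.arctan := by
  apply lipschitzWith_of_nnnorm_deriv_le Real.differentiable_arctan
  intro x
  rw [Real.deriv_arctan, ← NNReal.coe_le_coe, coe_nnnorm, NNReal.coe_one, Real.norm_eq_abs,
    abs_of_pos (by positivity)]
  rw [div_le_one (by positivity)]
  nlinarith [sq_nonneg x]

theorem an_mul (c : ℝ) (hc : |c| ≤ 1) : LipschitzWith 1 fun x : ℝ => c * x := by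
  apply LipschitzWith.of_dist_le_mul
  intro x y
  rw [Real.dist_eq, Real.dist_eq, ← mul_sub, abs_mul, NNReal.coe_one]
  exact mul_le_mul_of_nonneg_right hc (abs_nonneg _)

theorem an_add (c : ℝ) : LipschitzWith 1 fun x : ℝ => x + c := by
  apply LipschitzWith.of_dist_le_mul
  intro x y
  rw [Real.dist_eq, Real.dist_eq, add_sub_add_right_eq_sub, NNReal.coe_one, one_mul]

theorem an_sub (c : ℝ) {f : ℝ → ℝ} (hf : LipschitzWith 1 f) :
    LipschitzWith 1 fun x : ℝ => c - f x := by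
  apply LipschitzWith.of_dist_le_mul
  intro x y
  have h := hf.dist_le_mul x y
  rw [Real.dist_eq] at h ⊢
  rw [sub_sub_sub_cancel_left, abs_sub_comm]
  exact h

theorem an_sub' (c : ℝ) {f : ℝ → ℝ} (hf : LipschitzWith 1 f) :
    LipschitzWith 1 fun x : ℝ => c + f x := by
  apply LipschitzWith.of_dist_le_mul
  intro x y
  have h := hf.dist_le_mul x y
  rw [Real.dist_eq] at h ⊢
  rw [add_sub_add_left_eq_sub]
  exact h

/-- swapping the coordinates -/
theorem an_swap (lam : ℕ → ℝ) (N : ℕ) (θ : ℝ) :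
    volume (prj θ '' stage lam N) ≤ volume (prj (Real.pi / 2 - θ) '' stage lam N) := by
  apply measure_mono
  rintro _ ⟨w, hw, rfl⟩
  refine ⟨⟨w.im, w.re⟩, ⟨hw.2, hw.1⟩, ?_⟩
  unfold prj
  rw [Real.cos_pi_div_two_sub, Real.sin_pi_div_two_sub]
  ring

/-- reflecting the first coordinate -/
theorem an_refl (lam : ℕ → ℝ) (N : ℕ) (θ : ℝ) :
    volume (prj θ '' stage lam N) ≤ volume (prj (Real.pi - θ) '' stage lam N) := by
  refine le_trans (measure_mono ?_) (an_lip (an_add (Real.cos θ)) _)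
  rintro _ ⟨w, hw, rfl⟩
  refine ⟨_, ⟨⟨1 - w.re, w.im⟩, ⟨linStage_symm lam N _ hw.1, hw.2⟩, rfl⟩, ?_⟩
  unfold prj
  simp only [Real.cos_pi_sub, Real.sin_pi_sub]
  ring

theorem an_slope (lam : ℕ → ℝ) (N : ℕ) (θ : ℝ) (hθ : Real.cos θ ≠ 0) :
    volume (prj θ '' stage lam N) ≤ volume (slope (Real.tan θ) '' stage lam N) := by
  refine le_trans (measure_mono ?_) (an_lip (an_mul (Real.cos θ) (Real.abs_cos_le_one θ)) _)
  rintro _ ⟨w, hw, rfl⟩
  refine ⟨_, ⟨w, hw, rfl⟩, ?_⟩
  unfold prj slope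
  rw [Real.tan_eq_sin_div_cos]
  field_simp

/-- from slopes to angles -/
theorem angleA (hS : SlopeStmt) (ε : ℝ) (hε : 0 < ε) : ∃ C : ℝ, 0 < C ∧ ∀ lam : ℕ → ℝ,
    (∀ k, 1 / 4 ≤ lam k ∧ lam k ≤ 1 / 2) → ∀ N : ℕ,
    volume {θ | θ ∈ Ioc 0 Real.pi ∧ ENNReal.ofReal C <
      volume (prj θ '' stage lam N) * ENNReal.ofReal (Real.sqrt (SS lam (N + 1)))} ≤
      ENNReal.ofReal ε := by
  obtain ⟨C, hC, h⟩ := hS (ε / 4) (by positivity)
  refine ⟨C, hC, fun lam hlam N => ?_⟩
  have hE := h lam hlam N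
  set E : Set ℝ := {t | t ∈ Ioc 0 1 ∧ ENNReal.ofReal C <
      volume (slope t '' stage lam N) * ENNReal.ofReal (Real.sqrt (SS lam (N + 1)))} with hEdef
  have hpi := Real.pi_pos
  -- the small angles
  have hsmall : ∀ θ : ℝ, 0 < θ → θ ≤ Real.pi / 4 → ENNReal.ofReal C <
      volume (prj θ '' stage lam N) * ENNReal.ofReal (Real.sqrt (SS lam (N + 1))) →
      Real.tan θ ∈ E ∧ Real.arctan (Real.tan θ) = θ := by
    intro θ h0 h1 h2
    have hcos : 0 < Real.cos θ := Real.cos_pos_of_mem_Ioo ⟨by linarith, by linarith⟩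
    refine ⟨⟨⟨Real.tan_pos_of_pos_of_lt_pi_div_two h0 (by linarith), ?_⟩,
      h2.trans_le (mul_le_mul_left (an_slope lam N θ hcos.ne') _)⟩,
      Real.arctan_tan (by linarith) (by linarith)⟩
    rcases h1.lt_or_eq with h3 | h3
    · rw [← Real.tan_pi_div_four]
      exact (Real.tan_lt_tan_of_nonneg_of_lt_pi_div_two h0.le (by linarith) h3).le
    · rw [h3, Real.tan_pi_div_four]
  have hsub : {θ | θ ∈ Ioc 0 Real.pi ∧ ENNReal.ofReal C <
      volume (prj θ '' stage lam N) * ENNReal.ofReal (Real.sqrt (SS lam (N + 1)))} ⊆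
      ((Real.arctan '' E) ∪ ((fun x => Real.pi / 2 - Real.arctan x) '' E)) ∪
      (((fun x => Real.pi - Real.arctan x) '' E) ∪
        ((fun x => Real.pi / 2 + Real.arctan x) '' E)) ∪ {Real.pi / 2, Real.pi} := by
    rintro θ ⟨⟨h0, h1⟩, h2⟩
    rcases le_or_gt θ (Real.pi / 4) with h3 | h3
    · obtain ⟨h4, h5⟩ := hsmall θ h0 h3 h2
      exact Or.inl (Or.inl (Or.inl ⟨_, h4, h5⟩))
    rcases lt_trichotomy θ (Real.pi / 2) with h4 | h4 | h4
    · obtain ⟨h5, h6⟩ := hsmall (Real.pi / 2 - θ) (by linarith) (by linarith)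
        (h2.trans_le (mul_le_mul_left (an_swap lam N θ) _))
      refine Or.inl (Or.inl (Or.inr ⟨_, h5, ?_⟩))
      show Real.pi / 2 - Real.arctan _ = θ
      rw [h6]
      ring
    · exact Or.inr (Or.inl h4)
    · rcases h1.lt_or_eq with h5 | h5
      · have h6 := h2.trans_le (mul_le_mul_left (an_refl lam N θ) _)
        rcases le_or_gt (Real.pi - θ) (Real.pi / 4) with h7 | h7
        · obtain ⟨h8, h9⟩ := hsmall (Real.pi - θ) (by linarith) h7 h6
          refine Or.inl (Or.inr (Or.inl ⟨_, h8, ?_⟩))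
          show Real.pi - Real.arctan _ = θ
          rw [h9]
          ring
        · obtain ⟨h8, h9⟩ := hsmall (Real.pi / 2 - (Real.pi - θ)) (by linarith) (by linarith)
            (h6.trans_le (mul_le_mul_left (an_swap lam N (Real.pi - θ)) _))
          refine Or.inl (Or.inr (Or.inr ⟨_, h8, ?_⟩))
          show Real.pi / 2 + Real.arctan _ = θ
          rw [h9]
          ring
      · exact Or.inr (Or.inr h5)
  have hnull : volume ({Real.pi / 2, Real.pi} : Set ℝ) = 0 :=
    (Set.toFinite _).measure_zero _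
  calc volume {θ | θ ∈ Ioc 0 Real.pi ∧ ENNReal.ofReal C <
      volume (prj θ '' stage lam N) * ENNReal.ofReal (Real.sqrt (SS lam (N + 1)))} 
      ≤ volume (((Real.arctan '' E) ∪ ((fun x => Real.pi / 2 - Real.arctan x) '' E)) ∪
      (((fun x => Real.pi - Real.arctan x) '' E) ∪
        ((fun x => Real.pi / 2 + Real.arctan x) '' E)) ∪ {Real.pi / 2, Real.pi}) :=
        measure_mono hsub
    _ ≤ ((volume E + volume E) + (volume E + volume E)) + 0 := by
        refine (measure_union_le _ _).trans (add_le_add ?_ hnull.le)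
        refine (measure_union_le _ _).trans (add_le_add ?_ ?_)
        · refine (measure_union_le _ _).trans (add_le_add (an_lip an_arctan _)
            (an_lip (an_sub _ an_arctan) _))
        · refine (measure_union_le _ _).trans (add_le_add (an_lip (an_sub _ an_arctan) _)
            (an_lip (an_sub' _ an_arctan) _))
    _ ≤ ((ENNReal.ofReal (ε / 4) + ENNReal.ofReal (ε / 4)) +
          (ENNReal.ofReal (ε / 4) + ENNReal.ofReal (ε / 4))) + 0 := by
        gcongr
    _ = ENNReal.ofReal ε := by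
        rw [add_zero, ← ENNReal.ofReal_add (by positivity) (by positivity),
          ← ENNReal.ofReal_add (by positivity) (by positivity)]
        congr 1
        ring

end Pool.Agent.VC
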