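import Pool.Agent.VC.Defs

set_option autoImplicit false

open MeasureTheory Set

namespace Pool.Agent.VC
namespace Sys

variable (S : Sys)

theorem E_zero (b : ℕ) (F : ℝ → ℝ → ℝ) : S.E 0 b F = F 0 0 := rfl

theorem E_succ (j b : ℕ) (F : ℝ → ℝ → ℝ) : S.E (j + 1) b F =
    1 / 4 * S.E j (b + 1) (fun x y => F (x + S.p (b + 1)) (y + S.q (b + 1))) +
    1 / 2 * S.E j (b + 1) F +
    1 / 4 * S.E j (b + 1) (fun x y => F (x - S.p (b + 1)) (y - S.q (b + 1))) := rfl

theorem eop_p_nonneg (i : ℕ) : 0 ≤ S.p i := by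
  rcases S.dig i with ⟨_, h2, _⟩ | ⟨h1, _, _⟩
  · exact le_trans (S.Ppos i).le h2
  · exact h1.ge

theorem eop_q_nonneg (i : ℕ) : 0 ≤ S.q i := by
  rcases S.dig i with ⟨h1, _, _⟩ | ⟨_, h2, _⟩
  · exact h1.ge
  · exact le_trans (S.Qpos i).le h2

theorem E_const (j b : ℕ) (c : ℝ) : S.E j b (fun _ _ => c) = c := by
  induction j generalizing b with
  | zero => rfl
  | succ j ih =>
    rw [E_succ, ih]
    ring

theorem E_add (j b : ℕ) (F G : ℝ → ℝ → ℝ) :
    S.E j b (fun x y => F x y + G x y) = S.E j b F + S.E j b G := by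
  induction j generalizing b F G with
  | zero => rfl
  | succ j ih =>
    rw [E_succ, E_succ, E_succ, ih, ih, ih]
    ring

theorem E_mul (j b : ℕ) (c : ℝ) (F : ℝ → ℝ → ℝ) :
    S.E j b (fun x y => c * F x y) = c * S.E j b F := by
  induction j generalizing b F with
  | zero => rfl
  | succ j ih =>
    rw [E_succ, E_succ, ih, ih, ih]
    ring

theorem E_sub (j b : ℕ) (F G : ℝ → ℝ → ℝ) :
    S.E j b (fun x y => F x y - G x y) = S.E j b F - S.E j b G := by
  induction j generalizing b F G with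
  | zero => rfl
  | succ j ih =>
    rw [E_succ, E_succ, E_succ, ih, ih, ih]
    ring

/-- monotonicity, only the support `|x| ≤ P_b - P_{b+j}`, `|y| ≤ Q_b - Q_{b+j}` matters -/
theorem E_mono_supp (j b : ℕ) (F G : ℝ → ℝ → ℝ)
    (h : ∀ x y, |x| ≤ S.P b - S.P (b + j) → |y| ≤ S.Q b - S.Q (b + j) → F x y ≤ G x y) :
    S.E j b F ≤ S.E j b G := by
  induction j generalizing b F G with
  | zero =>
    rw [E_zero, E_zero]
    refine h 0 0 ?_ ?_ <;> simp
  | succ j ih =>
    have hp := S.eop_p_nonneg (b + 1)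
    have hq := S.eop_q_nonneg (b + 1)
    have hP := S.hP b
    have hQ := S.hQ b
    have e1 : b + (j + 1) = b + 1 + j := by ring
    rw [e1] at h
    rw [E_succ, E_succ]
    have h1 : S.E j (b + 1) (fun x y => F (x + S.p (b + 1)) (y + S.q (b + 1))) ≤
        S.E j (b + 1) (fun x y => G (x + S.p (b + 1)) (y + S.q (b + 1))) := by
      refine ih (b + 1) _ _ fun x y hx hy => h _ _ ?_ ?_
      · rw [abs_le] at hx ⊢
        constructor <;> linarith [hx.1, hx.2]
      · rw [abs_le] at hy ⊢
        constructor <;> linarith [hy.1, hy.2]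
    have h2 : S.E j (b + 1) F ≤ S.E j (b + 1) G := by
      refine ih (b + 1) _ _ fun x y hx hy => h _ _ ?_ ?_
      · linarith
      · linarith
    have h3 : S.E j (b + 1) (fun x y => F (x - S.p (b + 1)) (y - S.q (b + 1))) ≤
        S.E j (b + 1) (fun x y => G (x - S.p (b + 1)) (y - S.q (b + 1))) := by
      refine ih (b + 1) _ _ fun x y hx hy => h _ _ ?_ ?_
      · rw [abs_le] at hx ⊢
        constructor <;> linarith [hx.1, hx.2]
      · rw [abs_le] at hy ⊢
        constructor <;> linarith [hy.1, hy.2]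
    linarith

theorem E_mono (j b : ℕ) (F G : ℝ → ℝ → ℝ) (h : ∀ x y, F x y ≤ G x y) :
    S.E j b F ≤ S.E j b G := S.E_mono_supp j b F G fun x y _ _ => h x y

theorem E_congr_supp (j b : ℕ) (F G : ℝ → ℝ → ℝ)
    (h : ∀ x y, |x| ≤ S.P b - S.P (b + j) → |y| ≤ S.Q b - S.Q (b + j) → F x y = G x y) :
    S.E j b F = S.E j b G :=
  le_antisymm (S.E_mono_supp j b F G fun x y hx hy => (h x y hx hy).le)
    (S.E_mono_supp j b G F fun x y hx hy => (h x y hx hy).ge)

theorem E_nonneg (j b : ℕ) (F : ℝ → ℝ → ℝ) (h : ∀ x y, 0 ≤ F x y) : 0 ≤ S.E j b F := by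
  have h1 := S.E_mono j b (fun _ _ => 0) F h
  rwa [E_const] at h1

theorem abs_E_le (j b : ℕ) (F : ℝ → ℝ → ℝ) :
    |S.E j b F| ≤ S.E j b (fun x y => |F x y|) := by
  rw [abs_le]
  constructor
  · have h1 := S.E_mono j b (fun x y => (-1) * |F x y|) F fun x y => by
      linarith [neg_abs_le (F x y)]
    rw [E_mul S j b (-1) (fun x y => |F x y|)] at h1
    linarith
  · exact S.E_mono j b F _ fun x y => le_abs_self _

theorem abs_E_le_supp (j b : ℕ) (F : ℝ → ℝ → ℝ) (c : ℝ)
    (h : ∀ x y, |x| ≤ S.P b - S.P (b + j) → |y| ≤ S.Q b - S.Q (b + j) → |F x y| ≤ c) :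
    |S.E j b F| ≤ c := by
  rw [abs_le]
  constructor
  · have h1 := S.E_mono_supp j b (fun _ _ => -c) F fun x y hx hy => (abs_le.1 (h x y hx hy)).1
    rwa [E_const] at h1
  · have h1 := S.E_mono_supp j b F (fun _ _ => c) fun x y hx hy => (abs_le.1 (h x y hx hy)).2
    rwa [E_const] at h1

theorem E_symm (j b : ℕ) (F : ℝ → ℝ → ℝ) :
    S.E j b (fun x y => F (-x) (-y)) = S.E j b F := by
  induction j generalizing b F with
  | zero =>
    rw [E_zero, E_zero]
    simp
  | succ j ih =>
    rw [E_succ, E_succ, ih]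
    have h1 : (fun x y => F (-(x + S.p (b + 1))) (-(y + S.q (b + 1)))) =
        fun x y => (fun x' y' => F (x' - S.p (b + 1)) (y' - S.q (b + 1))) (-x) (-y) := by
      funext x y
      simp only
      congr 1 <;> ring
    have h2 : (fun x y => F (-(x - S.p (b + 1))) (-(y - S.q (b + 1)))) =
        fun x y => (fun x' y' => F (x' + S.p (b + 1)) (y' + S.q (b + 1))) (-x) (-y) := by
      funext x y
      simp only
      congr 1 <;> ring
    rw [h1, h2, ih (b + 1) (fun x' y' => F (x' - S.p (b + 1)) (y' - S.q (b + 1))),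
      ih (b + 1) (fun x' y' => F (x' + S.p (b + 1)) (y' + S.q (b + 1)))]
    ring

theorem E_comp (i j b : ℕ) (F : ℝ → ℝ → ℝ) : S.E (i + j) b F =
    S.E i b (fun x y => S.E j (b + i) (fun x' y' => F (x + x') (y + y'))) := by
  induction i generalizing b F with
  | zero =>
    rw [E_zero, Nat.zero_add, Nat.add_zero]
    simp only [zero_add]
  | succ i ih =>
    have e1 : i + 1 + j = (i + j) + 1 := by ring
    have e2 : b + (i + 1) = b + 1 + i := by ring
    rw [e1, e2, E_succ, E_succ, ih, ih, ih]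
    have h1 : (fun x y => S.E j (b + 1 + i)
        (fun x' y' => F (x + x' + S.p (b + 1)) (y + y' + S.q (b + 1)))) =
        fun x y => S.E j (b + 1 + i)
        (fun x' y' => F (x + S.p (b + 1) + x') (y + S.q (b + 1) + y')) := by
      funext x y
      congr 1
      funext x' y'
      congr 1 <;> ring
    have h2 : (fun x y => S.E j (b + 1 + i)
        (fun x' y' => F (x + x' - S.p (b + 1)) (y + y' - S.q (b + 1)))) =
        fun x y => S.E j (b + 1 + i)
        (fun x' y' => F (x - S.p (b + 1) + x') (y - S.q (b + 1) + y')) := by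
      funext x y
      congr 1
      funext x' y'
      congr 1 <;> ring
    rw [h1, h2]

theorem E_integral {α : Type} [MeasurableSpace α] (μ : Measure α) (j b : ℕ)
    (F : α → ℝ → ℝ → ℝ) (hF : ∀ x y, Integrable (fun a => F a x y) μ) :
    Integrable (fun a => S.E j b (F a)) μ ∧
    ∫ a, S.E j b (F a) ∂μ = S.E j b (fun x y => ∫ a, F a x y ∂μ) := by
  induction j generalizing b F with
  | zero => exact ⟨hF 0 0, rfl⟩
  | succ j ih =>
    obtain ⟨i1, e1⟩ := ih (b + 1) (fun a x y => F a (x + S.p (b + 1)) (y + S.q (b + 1)))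
      fun x y => hF _ _
    obtain ⟨i2, e2⟩ := ih (b + 1) F hF
    obtain ⟨i3, e3⟩ := ih (b + 1) (fun a x y => F a (x - S.p (b + 1)) (y - S.q (b + 1)))
      fun x y => hF _ _
    have j1 := i1.const_mul (1 / 4)
    have j2 := i2.const_mul (1 / 2)
    have j3 := i3.const_mul (1 / 4)
    refine ⟨(j1.add j2).add j3, ?_⟩
    rw [E_succ, ← e1, ← e2, ← e3, ← integral_const_mul, ← integral_const_mul,
      ← integral_const_mul, ← integral_add j1 j2]
    exact integral_add (j1.add j2) j3

theorem E_continuous {α : Type} [TopologicalSpace α] (j b : ℕ)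
    (F : α → ℝ → ℝ → ℝ) (hF : ∀ x y, Continuous (fun a => F a x y)) :
    Continuous (fun a => S.E j b (F a)) := by
  induction j generalizing b F with
  | zero => exact hF 0 0
  | succ j ih =>
    have i1 := ih (b + 1) (fun a x y => F a (x + S.p (b + 1)) (y + S.q (b + 1)))
      fun x y => hF _ _
    have i2 := ih (b + 1) F hF
    have i3 := ih (b + 1) (fun a x y => F a (x - S.p (b + 1)) (y - S.q (b + 1)))
      fun x y => hF _ _
    exact ((continuous_const.mul i1).add (continuous_const.mul i2)).add (continuous_const.mul i3)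

theorem E_shift (k j b : ℕ) (F : ℝ → ℝ → ℝ) : (S.shift k).E j b F = S.E j (k + b) F := by
  induction j generalizing b F with
  | zero => rfl
  | succ j ih =>
    rw [E_succ, E_succ, ih, ih, ih]
    rfl

theorem E_scale (c : ℝ) (hc : 0 < c) (j b : ℕ) (F : ℝ → ℝ → ℝ) :
    (S.scale c hc).E j b F = S.E j b (fun x y => F (c * x) (c * y)) := by
  induction j generalizing b F with
  | zero =>
    rw [E_zero, E_zero, mul_zero]
  | succ j ih =>
    have hp : (S.scale c hc).p (b + 1) = c * S.p (b + 1) := rfl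
    have hq : (S.scale c hc).q (b + 1) = c * S.q (b + 1) := rfl
    rw [E_succ, E_succ, ih, ih, ih, hp, hq]
    simp only [mul_add, mul_sub]

end Sys
end Pool.Agent.VC
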