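import Pool.Agent.VC.Defs

/-!
# Tents, correlations of tents and the weight on slopes
-/

set_option autoImplicit false

open MeasureTheory Set

namespace Pool.Agent.VC

theorem phi_nonneg {r : ℝ} (hr : 0 < r) (x : ℝ) : 0 ≤ phi r x :=
  div_nonneg (le_max_left _ _) hr.le

theorem phi_le {r : ℝ} (hr : 0 < r) (x : ℝ) : phi r x ≤ 1 / r := by
  unfold phi
  apply div_le_div_of_nonneg_right _ hr.le
  apply max_le zero_le_one
  have : 0 ≤ |x| / r := by positivity
  linarith

theorem phi_zero {r : ℝ} (hr : 0 < r) {x : ℝ} (hx : r ≤ |x|) : phi r x = 0 := by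
  unfold phi
  have h1 : 1 ≤ |x| / r := by rwa [le_div_iff₀ hr, one_mul]
  rw [max_eq_left (by linarith), zero_div]

theorem phi_lip {r : ℝ} (hr : 0 < r) (x y : ℝ) : |phi r x - phi r y| ≤ |x - y| / r ^ 2 := by
  unfold phi
  rw [← sub_div, abs_div, abs_of_pos hr, pow_two, ← div_div]
  apply div_le_div_of_nonneg_right _ hr.le
  rw [max_comm 0, max_comm 0]
  refine (abs_max_sub_max_le_abs _ _ _).trans ?_
  have h1 : 1 - |x| / r - (1 - |y| / r) = (|y| - |x|) / r := by ring
  rw [h1, abs_div, abs_of_pos hr]
  apply div_le_div_of_nonneg_right _ hr.le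
  rw [abs_sub_comm x y]
  exact abs_abs_sub_abs_le_abs_sub y x

theorem phi_cont {r : ℝ} (hr : 0 < r) : Continuous (phi r) := by
  unfold phi
  fun_prop

theorem phi_even (r x : ℝ) : phi r (-x) = phi r x := by
  unfold phi
  rw [abs_neg]

theorem phi_supp {r : ℝ} (hr : 0 < r) : Function.support (phi r) ⊆ Ioc (-r) r := by
  intro x hx
  have h1 : |x| < r := by
    by_contra hcon
    push Not at hcon
    exact hx (phi_zero hr hcon)
  rw [abs_lt] at h1
  exact ⟨h1.1, h1.2.le⟩

theorem phi_compact {r : ℝ} (hr : 0 < r) : HasCompactSupport (phi r) :=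
  HasCompactSupport.of_support_subset_isCompact isCompact_Icc
    ((phi_supp hr).trans Ioc_subset_Icc_self)

theorem phi_integrable {r : ℝ} (hr : 0 < r) : Integrable (phi r) :=
  (phi_cont hr).integrable_of_hasCompactSupport (phi_compact hr)

theorem phi_integral {r : ℝ} (hr : 0 < r) : ∫ x, phi r x = 1 := by
  rw [← intervalIntegral.integral_eq_integral_of_support_subset (phi_supp hr)]
  have hi : ∀ a b : ℝ, IntervalIntegrable (phi r) volume a b :=
    fun a b => (phi_cont hr).intervalIntegrable a b
  rw [← intervalIntegral.integral_add_adjacent_intervals (hi (-r) 0) (hi 0 r)]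
  have h1 : ∫ x in (-r)..0, phi r x = ∫ x in (-r)..0, (1 / r + x * (1 / r ^ 2)) := by
    apply intervalIntegral.integral_congr
    intro x hx
    rw [uIcc_of_le (by linarith)] at hx
    have hx1 : |x| = -x := abs_of_nonpos hx.2
    have hx2 : 0 ≤ 1 - |x| / r := by
      rw [sub_nonneg, div_le_one hr, hx1]
      linarith [hx.1]
    simp only [phi]
    rw [max_eq_right hx2, hx1]
    field_simp
    ring
  have h2 : ∫ x in (0 : ℝ)..r, phi r x = ∫ x in (0 : ℝ)..r, (1 / r - x * (1 / r ^ 2)) := by
    apply intervalIntegral.integral_congr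
    intro x hx
    rw [uIcc_of_le hr.le] at hx
    have hx1 : |x| = x := abs_of_nonneg hx.1
    have hx2 : 0 ≤ 1 - |x| / r := by
      rw [sub_nonneg, div_le_one hr, hx1]
      exact hx.2
    simp only [phi]
    rw [max_eq_right hx2, hx1]
    field_simp
  rw [h1, h2]
  rw [intervalIntegral.integral_add (by simp) (by apply Continuous.intervalIntegrable; fun_prop),
    intervalIntegral.integral_sub (by simp) (by apply Continuous.intervalIntegrable; fun_prop),
    intervalIntegral.integral_mul_const, intervalIntegral.integral_mul_const, integral_id,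
    integral_id, intervalIntegral.integral_const, intervalIntegral.integral_const]
  simp only [smul_eq_mul]
  field_simp
  ring

theorem phi_comp_compact {r : ℝ} (hr : 0 < r) (a : ℝ) :
    HasCompactSupport (fun x => phi r (x + a)) := by
  refine HasCompactSupport.of_support_subset_isCompact (K := Icc (-r - a) (r - a))
    isCompact_Icc ?_
  intro x hx
  have h := phi_supp hr (show x + a ∈ Function.support (phi r) from hx)
  exact ⟨by linarith [h.1], by linarith [h.2]⟩

theorem phi_integrable_mul {r s : ℝ} (hr : 0 < r) (hs : 0 < s) (a c : ℝ) :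
    Integrable (fun x => phi r (x + a) * phi s (x + c)) := by
  apply Continuous.integrable_of_hasCompactSupport
  · exact ((phi_cont hr).comp (continuous_add_const a)).mul
      ((phi_cont hs).comp (continuous_add_const c))
  · exact (phi_comp_compact hr a).mul_right

theorem phi_integral_mul {r s : ℝ} (hr : 0 < r) (hs : 0 < s) (a c : ℝ) :
    ∫ x, phi r (x + a) * phi s (x + c) = Phi2 r s (c - a) := by
  unfold Phi2
  rw [← integral_add_right_eq_self (fun x => phi r x * phi s (x + (c - a))) a]
  congr 1
  funext x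
  have : x + a + (c - a) = x + c := by ring
  rw [this]

theorem Phi2_nonneg {r s : ℝ} (hr : 0 < r) (hs : 0 < s) (y : ℝ) : 0 ≤ Phi2 r s y :=
  integral_nonneg fun x => mul_nonneg (phi_nonneg hr x) (phi_nonneg hs _)

theorem phi_int_shift {r : ℝ} (hr : 0 < r) (y : ℝ) : Integrable (fun x => phi r (x + y)) :=
  (phi_integrable hr).comp_add_right y

theorem phi_integral_shift {r : ℝ} (hr : 0 < r) (y : ℝ) : ∫ x, phi r (x + y) = 1 := by
  rw [integral_add_right_eq_self (fun x => phi r x) y]
  exact phi_integral hr

theorem Phi2_le_left {r s : ℝ} (hr : 0 < r) (hs : 0 < s) (y : ℝ) : Phi2 r s y ≤ 1 / r := by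
  unfold Phi2
  have h1 : Integrable (fun x => phi r x * phi s (x + y)) := by
    have := phi_integrable_mul hr hs 0 y
    simpa using this
  calc ∫ x, phi r x * phi s (x + y) ≤ ∫ x, 1 / r * phi s (x + y) := by
        apply integral_mono h1 ((phi_int_shift hs y).const_mul _)
        intro x
        exact mul_le_mul_of_nonneg_right (phi_le hr x) (phi_nonneg hs _)
    _ = 1 / r := by rw [integral_const_mul, phi_integral_shift hs, mul_one]

theorem Phi2_le_right {r s : ℝ} (hr : 0 < r) (hs : 0 < s) (y : ℝ) : Phi2 r s y ≤ 1 / s := by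
  unfold Phi2
  have h1 : Integrable (fun x => phi r x * phi s (x + y)) := by
    have := phi_integrable_mul hr hs 0 y
    simpa using this
  calc ∫ x, phi r x * phi s (x + y) ≤ ∫ x, phi r x * (1 / s) := by
        apply integral_mono h1 ((phi_integrable hr).mul_const _)
        intro x
        exact mul_le_mul_of_nonneg_left (phi_le hs _) (phi_nonneg hr _)
    _ = 1 / s := by rw [integral_mul_const, phi_integral hr, one_mul]

theorem phi_mul_zero {r s : ℝ} (hr : 0 < r) (hs : 0 < s) {x y : ℝ} (hy : r + s ≤ |y|) :
    phi r x * phi s (x + y) = 0 := by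
  by_cases hx : r ≤ |x|
  · rw [phi_zero hr hx, zero_mul]
  · push Not at hx
    have h1 : s ≤ |x + y| := by
      have h2 : |y| ≤ |x + y| + |x| := by
        have h3 := abs_sub (x + y) x
        have h4 : x + y - x = y := by ring
        rw [h4] at h3
        exact h3
      linarith
    rw [phi_zero hs h1, mul_zero]

theorem Phi2_zero {r s : ℝ} (hr : 0 < r) (hs : 0 < s) {y : ℝ} (hy : r + s ≤ |y|) :
    Phi2 r s y = 0 := by
  unfold Phi2
  have : (fun x => phi r x * phi s (x + y)) = fun _ => 0 := by
    funext x
    exact phi_mul_zero hr hs hy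
  rw [this]
  simp

theorem Phi2_cont {r s : ℝ} (hr : 0 < r) (hs : 0 < s) : Continuous (Phi2 r s) := by
  unfold Phi2
  apply continuous_of_dominated (bound := fun x => phi r x * (1 / s))
  · intro y
    exact ((phi_cont hr).mul ((phi_cont hs).comp (continuous_add_const y))).aestronglyMeasurable
  · intro y
    refine Filter.Eventually.of_forall fun x => ?_
    rw [Real.norm_eq_abs, abs_of_nonneg (mul_nonneg (phi_nonneg hr x) (phi_nonneg hs _))]
    exact mul_le_mul_of_nonneg_left (phi_le hs _) (phi_nonneg hr _)
  · exact (phi_integrable hr).mul_const _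
  · refine Filter.Eventually.of_forall fun x => ?_
    exact continuous_const.mul ((phi_cont hs).comp (continuous_const.add continuous_id))

theorem Phi2_integrable {r s : ℝ} (hr : 0 < r) (hs : 0 < s) : Integrable (Phi2 r s) := by
  apply (Phi2_cont hr hs).integrable_of_hasCompactSupport
  refine HasCompactSupport.of_support_subset_isCompact (K := Icc (-(r + s)) (r + s))
    isCompact_Icc ?_
  intro y hy
  have h1 : |y| < r + s := by
    by_contra hcon
    push Not at hcon
    exact hy (Phi2_zero hr hs hcon)
  rw [abs_lt] at h1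
  exact ⟨h1.1.le, h1.2.le⟩

theorem Phi2_integral {r s : ℝ} (hr : 0 < r) (hs : 0 < s) : ∫ y, Phi2 r s y = 1 := by
  unfold Phi2
  have hint : Integrable (Function.uncurry fun y x : ℝ => phi r x * phi s (x + y))
      (volume.prod volume) := by
    apply Continuous.integrable_of_hasCompactSupport
    · have h1 : Continuous fun z : ℝ × ℝ => phi r z.2 := (phi_cont hr).comp continuous_snd
      have h2 : Continuous fun z : ℝ × ℝ => phi s (z.2 + z.1) :=
        (phi_cont hs).comp (continuous_snd.add continuous_fst)
      exact h1.mul h2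
    · refine HasCompactSupport.of_support_subset_isCompact
        (K := Icc (-(r + s)) (r + s) ×ˢ Icc (-r) r) (isCompact_Icc.prod isCompact_Icc) ?_
      rintro ⟨y, x⟩ hyx
      have h0 : phi r x * phi s (x + y) ≠ 0 := hyx
      refine ⟨?_, ?_⟩
      · have h1 : |y| < r + s := by
          by_contra hcon
          push Not at hcon
          exact h0 (phi_mul_zero hr hs hcon)
        rw [abs_lt] at h1
        exact ⟨h1.1.le, h1.2.le⟩
      · have h1 : phi r x ≠ 0 := fun h => h0 (by rw [h, zero_mul])
        have h2 := phi_supp hr h1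
        exact ⟨h2.1.le, h2.2⟩
  rw [integral_integral_swap hint]
  have h1 : ∀ x : ℝ, ∫ y, phi r x * phi s (x + y) = phi r x := by
    intro x
    rw [integral_const_mul, integral_add_left_eq_self (fun y => phi s y) x, phi_integral hs,
      mul_one]
  simp only [h1]
  exact phi_integral hr

theorem phi_scale {c r : ℝ} (hc : 0 < c) (hr : 0 < r) (x : ℝ) :
    phi (c * r) (c * x) = phi r x / c := by
  unfold phi
  have h1 : |c * x| / (c * r) = |x| / r := by
    rw [abs_mul, abs_of_pos hc, mul_div_mul_left _ _ hc.ne']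
  rw [h1, div_div, mul_comm c r]

theorem chi_nonneg (t : ℝ) : 0 ≤ chi t := le_max_left _ _

theorem chi_le (t : ℝ) : chi t ≤ 2 := by
  unfold chi
  apply max_le (by norm_num)
  have := abs_nonneg (2 * t - 3)
  linarith

theorem one_le_chi {t : ℝ} (h1 : 1 ≤ t) (h2 : t ≤ 2) : 1 ≤ chi t := by
  unfold chi
  apply le_max_of_le_right
  have : |2 * t - 3| ≤ 1 := abs_le.2 ⟨by linarith, by linarith⟩
  linarith

theorem chi_zero {t : ℝ} (h : t ≤ 1 / 2 ∨ 5 / 2 ≤ t) : chi t = 0 := by
  unfold chi
  apply max_eq_left
  rcases h with h | h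
  · have := neg_abs_le (2 * t - 3)
    linarith
  · have := le_abs_self (2 * t - 3)
    linarith

theorem chi_lip (t t' : ℝ) : |chi t - chi t'| ≤ 2 * |t - t'| := by
  unfold chi
  rw [max_comm 0, max_comm 0]
  refine (abs_max_sub_max_le_abs _ _ _).trans ?_
  have h1 : 2 - |2 * t - 3| - (2 - |2 * t' - 3|) = |2 * t' - 3| - |2 * t - 3| := by ring
  rw [h1]
  refine (abs_abs_sub_abs_le_abs_sub _ _).trans ?_
  have h2 : 2 * t' - 3 - (2 * t - 3) = 2 * (t' - t) := by ring
  rw [h2, abs_mul, abs_of_pos (by norm_num : (0 : ℝ) < 2), abs_sub_comm]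

theorem chi_cont : Continuous chi := by
  unfold chi
  fun_prop

theorem chi_compact : HasCompactSupport chi := by
  refine HasCompactSupport.of_support_subset_isCompact (K := Icc (1 / 2) (5 / 2))
    isCompact_Icc ?_
  intro t ht
  constructor
  · by_contra hcon
    push Not at hcon
    exact ht (chi_zero (Or.inl hcon.le))
  · by_contra hcon
    push Not at hcon
    exact ht (chi_zero (Or.inr hcon.le))

theorem chi_integrable : Integrable chi :=
  chi_cont.integrable_of_hasCompactSupport chi_compact

theorem chi_eq_phi (t : ℝ) : chi t = 2 * phi 1 (t + (-(3 / 2))) := by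
  unfold chi phi
  have h1 : |2 * t - 3| = 2 * |t + (-(3 / 2))| := by
    rw [show 2 * t - 3 = 2 * (t + (-(3 / 2))) by ring, abs_mul,
      abs_of_pos (by norm_num : (0 : ℝ) < 2)]
  rw [h1, div_one, div_one, mul_max_of_nonneg _ _ (by norm_num : (0 : ℝ) ≤ 2)]
  congr 1
  · ring
  · ring

theorem chi_integral : ∫ t, chi t = 2 := by
  have h : chi = fun t => 2 * phi 1 (t + (-(3 / 2))) := funext chi_eq_phi
  rw [h, integral_const_mul, phi_integral_shift one_pos, mul_one]

/-- weighted integrals of continuous functions are fine -/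
theorem chi_mul_integrable {f : ℝ → ℝ} (hf : Continuous f) : Integrable (fun t => chi t * f t) := by
  apply Continuous.integrable_of_hasCompactSupport
  · exact chi_cont.mul hf
  · exact chi_compact.mul_right

theorem chi_mono {f g : ℝ → ℝ} (hf : Continuous f) (hg : Continuous g)
    (h : ∀ t, f t ≤ g t) : ∫ t, chi t * f t ≤ ∫ t, chi t * g t :=
  integral_mono (chi_mul_integrable hf) (chi_mul_integrable hg)
    fun t => mul_le_mul_of_nonneg_left (h t) (chi_nonneg t)

end Pool.Agent.VC
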