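import Pool.Agent.VC.Basic
import Pool.Agent.VC.EOp
import Pool.Agent.VC.Phi

set_option autoImplicit false

open MeasureTheory Set

namespace Pool.Agent.VC

/-- continuity of an integral with locally uniformly compact support -/
theorem hb_param (F : ℝ → ℝ → ℝ) (hF : Continuous (Function.uncurry F)) (R : ℝ → ℝ)
    (hRc : Continuous R) (hR : ∀ t x, R t ≤ |x| → F t x = 0) :
    Continuous (fun t => ∫ x, F t x) := by
  rw [continuous_iff_continuousAt]
  intro t₀
  have h1 : Continuous (fun t => ∫ x in Icc (-(R t₀ + 1)) (R t₀ + 1), F t x) :=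
    continuous_parametric_integral_of_continuous hF isCompact_Icc
  refine h1.continuousAt.congr ?_
  have h2 : ∀ᶠ t in nhds t₀, R t < R t₀ + 1 :=
    hRc.continuousAt.eventually (Iio_mem_nhds (lt_add_one _))
  filter_upwards [h2] with t ht
  apply setIntegral_eq_integral_of_forall_compl_eq_zero
  intro x hx
  apply hR
  by_contra hcon
  push Not at hcon
  have h3 := abs_lt.1 (hcon.trans ht)
  exact hx ⟨h3.1.le, h3.2.le⟩

namespace Sys

variable (S : Sys)

theorem H_zero (b : ℕ) (t x : ℝ) : S.H b 0 t x = phi (S.r b) x := by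
  unfold H
  rw [E_zero, Nat.add_zero, mul_zero, add_zero, add_zero]

theorem H_succ (b j : ℕ) (t x : ℝ) : S.H b (j + 1) t x =
    1 / 4 * S.H (b + 1) j t (x + S.v (b + 1) t) + 1 / 2 * S.H (b + 1) j t x +
    1 / 4 * S.H (b + 1) j t (x - S.v (b + 1) t) := by
  unfold H
  rw [E_succ, show b + (j + 1) = b + 1 + j by omega]
  have h1 : (fun u w : ℝ => phi (S.r (b + 1 + j)) (x + (u + S.p (b + 1) + t * (w + S.q (b + 1))))) =
      fun u w => phi (S.r (b + 1 + j)) (x + S.v (b + 1) t + (u + t * w)) := by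
    funext u w
    congr 1
    unfold v
    ring
  have h2 : (fun u w : ℝ => phi (S.r (b + 1 + j)) (x + (u - S.p (b + 1) + t * (w - S.q (b + 1))))) =
      fun u w => phi (S.r (b + 1 + j)) (x - S.v (b + 1) t + (u + t * w)) := by
    funext u w
    congr 1
    unfold v
    ring
  rw [← h1, ← h2]

theorem D_succ (b j : ℕ) (t x : ℝ) : S.D b (j + 1) t x =
    1 / 4 * S.D (b + 1) j t (x + S.v (b + 1) t) + 1 / 2 * S.D (b + 1) j t x +
    1 / 4 * S.D (b + 1) j t (x - S.v (b + 1) t) := by
  unfold D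
  rw [S.H_succ b (j + 1), S.H_succ b j]
  ring

theorem H_nonneg (b j : ℕ) (t x : ℝ) : 0 ≤ S.H b j t x :=
  S.E_nonneg _ _ _ fun _ _ => phi_nonneg (S.r_pos _) _

theorem H_le (b j : ℕ) (t x : ℝ) : S.H b j t x ≤ 1 / S.r (b + j) := by
  have h := S.E_mono j b (fun u w => phi (S.r (b + j)) (x + (u + t * w)))
    (fun _ _ => 1 / S.r (b + j)) fun _ _ => phi_le (S.r_pos _) _
  rwa [E_const] at h

/-- lower bound for the shifted point -/
theorem hb_abs (x u a : ℝ) : |x| - |u| - |a| ≤ |x + (u + a)| := by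
  have h1 := abs_sub_abs_le_abs_sub (x + (u + a)) (-(0 : ℝ))
  have h2 : |x| ≤ |x + (u + a)| + |u| + |a| := by
    calc |x| = |(x + (u + a)) + (-u) + (-a)| := by congr 1; ring
      _ ≤ |(x + (u + a)) + (-u)| + |-a| := abs_add_le _ _
      _ ≤ |x + (u + a)| + |-u| + |-a| := by
        have := abs_add_le (x + (u + a)) (-u)
        linarith
      _ = |x + (u + a)| + |u| + |a| := by rw [abs_neg, abs_neg]
  linarith

/-- support -/
theorem H_zero_of (b j : ℕ) (t x : ℝ) (h1 : 1 ≤ t) (h2 : t ≤ 2) (hx : 2 * S.r b ≤ |x|) :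
    S.H b j t x = 0 := by
  have h := S.E_congr_supp j b (fun u w => phi (S.r (b + j)) (x + (u + t * w)))
    (fun _ _ => 0) (fun u w hu hw => ?_)
  · rw [E_const] at h
    exact h
  · apply phi_zero (S.r_pos _)
    refine le_trans ?_ (hb_abs x u (t * w))
    rw [abs_mul, abs_of_nonneg (by linarith : (0 : ℝ) ≤ t)]
    have h3 : t * |w| ≤ 2 * (S.Q b - S.Q (b + j)) :=
      mul_le_mul h2 hw (abs_nonneg _) (by norm_num)
    have h4 := S.Ppos b
    have h5 := S.Ppos (b + j)
    have h6 := S.Qpos (b + j)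
    unfold r at hx ⊢
    linarith

theorem H_zero_of' (b j : ℕ) (t x : ℝ) (hx : (3 + |t|) * S.r b ≤ |x|) :
    S.H b j t x = 0 := by
  have h := S.E_congr_supp j b (fun u w => phi (S.r (b + j)) (x + (u + t * w)))
    (fun _ _ => 0) (fun u w hu hw => ?_)
  · rw [E_const] at h
    exact h
  · apply phi_zero (S.r_pos _)
    refine le_trans ?_ (hb_abs x u (t * w))
    rw [abs_mul]
    have h0 := S.r_anti (Nat.le_add_right b j)
    have h5 := S.Ppos (b + j)
    have h6 := S.Qpos (b + j)
    have h7 := S.P_le_r b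
    have h8 := S.Q_le_r b
    have h9 := S.r_pos b
    have h3 : |t| * |w| ≤ |t| * S.r b :=
      mul_le_mul_of_nonneg_left (by linarith) (abs_nonneg _)
    nlinarith

theorem H_lip (b j : ℕ) (t t' x x' : ℝ) :
    |S.H b j t x - S.H b j t' x'| ≤ (|x - x'| + |t - t'| * S.r b) / S.r (b + j) ^ 2 := by
  unfold H
  rw [← E_sub]
  apply S.abs_E_le_supp
  intro u w hu hw
  refine (phi_lip (S.r_pos _) _ _).trans ?_
  have h0 : (0 : ℝ) < S.r (b + j) ^ 2 := pow_pos (S.r_pos _) 2
  apply div_le_div_of_nonneg_right _ h0.le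
  have h1 : x + (u + t * w) - (x' + (u + t' * w)) = (x - x') + (t - t') * w := by ring
  rw [h1]
  refine (abs_add_le _ _).trans ?_
  rw [abs_mul]
  have h6 := S.Qpos (b + j)
  have h8 := S.Q_le_r b
  have h3 : |t - t'| * |w| ≤ |t - t'| * S.r b :=
    mul_le_mul_of_nonneg_left (by linarith) (abs_nonneg _)
  linarith

/-- joint continuity -/
theorem H_cont (b j : ℕ) : Continuous (fun a : ℝ × ℝ => S.H b j a.1 a.2) := by
  unfold H
  apply S.E_continuous j b (fun (a : ℝ × ℝ) u w => phi (S.r (b + j)) (a.2 + (u + a.1 * w)))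
  intro u w
  exact (phi_cont (S.r_pos _)).comp (by fun_prop)

theorem H_cont_right (b j : ℕ) (t : ℝ) : Continuous (S.H b j t) := by
  have hg : Continuous fun x : ℝ => ((t, x) : ℝ × ℝ) :=
    Continuous.prodMk continuous_const continuous_id
  have h := (S.H_cont b j).comp hg
  exact h

theorem H_compact (b j : ℕ) (t : ℝ) : HasCompactSupport (S.H b j t) := by
  refine HasCompactSupport.of_support_subset_isCompact
    (K := Icc (-((3 + |t|) * S.r b)) ((3 + |t|) * S.r b)) isCompact_Icc ?_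
  intro x hx
  have h1 : |x| < (3 + |t|) * S.r b := by
    by_contra hcon
    push Not at hcon
    exact hx (S.H_zero_of' b j t x hcon)
  have h2 := abs_lt.1 h1
  exact ⟨h2.1.le, h2.2.le⟩

theorem H_integral (b j : ℕ) (t : ℝ) : ∫ x, S.H b j t x = 1 := by
  have h := (S.E_integral volume j b (fun x u w => phi (S.r (b + j)) (x + (u + t * w)))
    (fun u w => phi_int_shift (S.r_pos _) _)).2
  have h2 : (fun u w : ℝ => ∫ x, phi (S.r (b + j)) (x + (u + t * w))) = fun _ _ => (1 : ℝ) := by
    funext u w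
    exact phi_integral_shift (S.r_pos _) _
  rw [h2, E_const] at h
  exact h

theorem D_zero_of (b j : ℕ) (t x : ℝ) (h1 : 1 ≤ t) (h2 : t ≤ 2) (hx : 2 * S.r b ≤ |x|) :
    S.D b j t x = 0 := by
  unfold D
  rw [S.H_zero_of b (j + 1) t x h1 h2 hx, S.H_zero_of b j t x h1 h2 hx, sub_zero]

theorem hb_D_zero (b j : ℕ) (t x : ℝ) (hx : (3 + |t|) * S.r b ≤ |x|) :
    S.D b j t x = 0 := by
  unfold D
  rw [S.H_zero_of' b (j + 1) t x hx, S.H_zero_of' b j t x hx, sub_zero]

theorem D_lip (b j : ℕ) (t t' x x' : ℝ) :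
    |S.D b j t x - S.D b j t' x'| ≤
      2 * (|x - x'| + |t - t'| * S.r b) / S.r (b + j + 1) ^ 2 := by
  unfold D
  have h1 := S.H_lip b (j + 1) t t' x x'
  have h2 := S.H_lip b j t t' x x'
  have h3 : S.r (b + j + 1) ≤ S.r (b + j) := S.r_anti (Nat.le_succ _)
  have h4 := S.r_pos (b + j + 1)
  have h5 := S.r_pos b
  have h6 : 0 ≤ |x - x'| + |t - t'| * S.r b := by positivity
  have h7 : (|x - x'| + |t - t'| * S.r b) / S.r (b + j) ^ 2 ≤
      (|x - x'| + |t - t'| * S.r b) / S.r (b + j + 1) ^ 2 :=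
    div_le_div_of_nonneg_left h6 (pow_pos h4 2) (pow_le_pow_left₀ h4.le h3 2)
  have h8 : S.H b (j + 1) t x - S.H b j t x - (S.H b (j + 1) t' x' - S.H b j t' x') =
      (S.H b (j + 1) t x - S.H b (j + 1) t' x') + -(S.H b j t x - S.H b j t' x') := by ring
  rw [h8]
  refine (abs_add_le _ _).trans ?_
  rw [abs_neg]
  rw [show b + (j + 1) = b + j + 1 from rfl] at h1
  rw [two_mul, add_div]
  linarith

theorem D_cont (b j : ℕ) : Continuous (fun a : ℝ × ℝ => S.D b j a.1 a.2) := by
  unfold D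
  exact (S.H_cont b (j + 1)).sub (S.H_cont b j)

theorem D_cont_right (b j : ℕ) (t : ℝ) : Continuous (S.D b j t) := by
  have hg : Continuous fun x : ℝ => ((t, x) : ℝ × ℝ) :=
    Continuous.prodMk continuous_const continuous_id
  have h := (S.D_cont b j).comp hg
  exact h

theorem D_compact (b j : ℕ) (t : ℝ) : HasCompactSupport (S.D b j t) := by
  refine HasCompactSupport.of_support_subset_isCompact
    (K := Icc (-((3 + |t|) * S.r b)) ((3 + |t|) * S.r b)) isCompact_Icc ?_
  intro x hx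
  have h1 : |x| < (3 + |t|) * S.r b := by
    by_contra hcon
    push Not at hcon
    exact hx (S.hb_D_zero b j t x hcon)
  have h2 := abs_lt.1 h1
  exact ⟨h2.1.le, h2.2.le⟩

theorem H_comp (b i j : ℕ) (t x : ℝ) : S.H b (i + j) t x =
    S.E i b (fun u w => S.H (b + i) j t (x + (u + t * w))) := by
  unfold H
  rw [E_comp, ← Nat.add_assoc]
  congr 1
  funext u w
  congr 1
  funext u' w'
  congr 1
  ring

theorem D_comp (b i j : ℕ) (t x : ℝ) : S.D b (i + j) t x =
    S.E i b (fun u w => S.D (b + i) j t (x + (u + t * w))) := by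
  unfold D
  rw [show i + j + 1 = i + (j + 1) from rfl, H_comp, H_comp, ← E_sub]

/-- continuity in `t` of correlation integrals -/
theorem H_corr_cont (b j : ℕ) (w : ℝ → ℝ) (hw : Continuous w) :
    Continuous (fun t => ∫ x, S.H b j t x * S.H b j t (x + w t)) := by
  have hg : Continuous fun a : ℝ × ℝ => (a.1, a.2 + w a.1) :=
    continuous_fst.prodMk (continuous_snd.add (hw.comp continuous_fst))
  have h1 := (S.H_cont b j).comp hg
  have h2 : Continuous fun a : ℝ × ℝ => S.H b j a.1 (a.2 + w a.1) := h1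
  have h3 := (S.H_cont b j).mul h2
  have hR : Continuous fun t : ℝ => (3 + |t|) * S.r b := by fun_prop
  refine hb_param (fun t x => S.H b j t x * S.H b j t (x + w t)) h3
    (fun t => (3 + |t|) * S.r b) hR ?_
  intro t x hx
  show S.H b j t x * S.H b j t (x + w t) = 0
  rw [S.H_zero_of' b j t x hx, zero_mul]

theorem D_corr_cont (b j : ℕ) (w : ℝ → ℝ) (hw : Continuous w) :
    Continuous (fun t => ∫ x, S.D b j t x * S.D b j t (x + w t)) := by
  have hg : Continuous fun a : ℝ × ℝ => (a.1, a.2 + w a.1) :=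
    continuous_fst.prodMk (continuous_snd.add (hw.comp continuous_fst))
  have h1 := (S.D_cont b j).comp hg
  have h2 : Continuous fun a : ℝ × ℝ => S.D b j a.1 (a.2 + w a.1) := h1
  have h3 := (S.D_cont b j).mul h2
  have hR : Continuous fun t : ℝ => (3 + |t|) * S.r b := by fun_prop
  refine hb_param (fun t x => S.D b j t x * S.D b j t (x + w t)) h3
    (fun t => (3 + |t|) * S.r b) hR ?_
  intro t x hx
  show S.D b j t x * S.D b j t (x + w t) = 0
  rw [S.hb_D_zero b j t x hx, zero_mul]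

theorem D_abs_cont (b j : ℕ) : Continuous (fun t => ∫ x, |S.D b j t x|) := by
  have hR : Continuous fun t : ℝ => (3 + |t|) * S.r b := by fun_prop
  refine hb_param (fun t x => |S.D b j t x|) (S.D_cont b j).abs
    (fun t => (3 + |t|) * S.r b) hR ?_
  intro t x hx
  show |S.D b j t x| = 0
  rw [S.hb_D_zero b j t x hx, abs_zero]

theorem H_shift (k b j : ℕ) (t x : ℝ) : (S.shift k).H b j t x = S.H (k + b) j t x := by
  unfold H
  rw [E_shift]
  have h : (S.shift k).r (b + j) = S.r (k + b + j) := by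
    rw [Nat.add_assoc]
    rfl
  rw [h]

theorem H_scale (c : ℝ) (hc : 0 < c) (b j : ℕ) (t x : ℝ) :
    (S.scale c hc).H b j t (c * x) = S.H b j t x / c := by
  unfold H
  rw [E_scale, div_eq_inv_mul, ← E_mul]
  congr 1
  funext u w
  have h : (S.scale c hc).r (b + j) = c * S.r (b + j) := by
    show c * S.P (b + j) + c * S.Q (b + j) = c * (S.P (b + j) + S.Q (b + j))
    ring
  rw [h, show c * x + (c * u + t * (c * w)) = c * (x + (u + t * w)) by ring,
    phi_scale hc (S.r_pos _), div_eq_inv_mul]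

theorem z_shift (k b j : ℕ) (t : ℝ) : (S.shift k).z b j t = S.z (k + b) j t := by
  unfold z
  rw [H_shift]
  rfl

theorem z_scale (c : ℝ) (hc : 0 < c) (b j : ℕ) (t : ℝ) :
    (S.scale c hc).z b j t = S.z b j t := by
  unfold z
  have h1 : (S.scale c hc).v b t = c * S.v b t := by
    show c * S.p b + t * (c * S.q b) = c * (S.p b + t * S.q b)
    ring
  have h2 : (S.scale c hc).r b = c * S.r b := by
    show c * S.P b + c * S.Q b = c * (S.P b + S.Q b)
    ring
  rw [h1, h2, H_scale]
  field_simp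

theorem z_nonneg (b j : ℕ) (t : ℝ) : 0 ≤ S.z b j t :=
  mul_nonneg (S.r_pos _).le (S.H_nonneg _ _ _ _)

theorem z_cont (b j : ℕ) : Continuous (S.z b j) := by
  have h : Continuous fun t : ℝ => S.H b j t (S.v b t) := by
    have hv : Continuous fun t : ℝ => (t, S.v b t) := by
      unfold v
      fun_prop
    exact (S.H_cont b j).comp hv
  exact h.const_mul (S.r b)

end Sys
end Pool.Agent.VC
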