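import Pool.Agent.VC.Pos
import Pool.Agent.VC.HBasic

set_option autoImplicit false

open MeasureTheory Set

namespace Pool.Agent.VC
namespace Sys

/-- the sequences of a fixed slope -/
def vt (S : Sys) (t : ℝ) : ℕ → ℝ := fun i => S.v i t

def Lt (S : Sys) (t : ℝ) : ℕ → ℝ := fun i => S.L i t

/-- correlation of an interval with a translate -/
theorem au_base (L y : ℝ) (hL : 0 < L) :
    ∫ x, (Icc 0 L).indicator (fun _ => (1 : ℝ)) x * (Icc 0 L).indicator (fun _ => (1 : ℝ)) (x + y) =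
      max 0 (L - |y|) := by
  have h1 : (fun x => (Icc 0 L).indicator (fun _ => (1 : ℝ)) x *
      (Icc 0 L).indicator (fun _ => (1 : ℝ)) (x + y)) =
      (Icc (max 0 (-y)) (min L (L - y))).indicator (fun _ => (1 : ℝ)) := by
    funext x
    by_cases h2 : x ∈ Icc (max 0 (-y)) (min L (L - y))
    · rw [indicator_of_mem h2]
      obtain ⟨h3, h4⟩ := h2
      have h5 := max_le_iff.1 h3
      have h6 := le_min_iff.1 h4
      rw [indicator_of_mem (show x ∈ Icc 0 L from ⟨h5.1, h6.1⟩),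
        indicator_of_mem (show x + y ∈ Icc 0 L from ⟨by linarith, by linarith⟩), one_mul]
    · rw [indicator_of_notMem h2]
      by_cases h3 : x ∈ Icc 0 L
      · by_cases h4 : x + y ∈ Icc 0 L
        · exfalso
          apply h2
          exact ⟨max_le h3.1 (by linarith [h4.1]), le_min h3.2 (by linarith [h4.2])⟩
        · rw [indicator_of_notMem h4, mul_zero]
      · rw [indicator_of_notMem h3, zero_mul]
  rw [h1, integral_indicator measurableSet_Icc, setIntegral_const, smul_eq_mul, mul_one,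
    Real.volume_real_Icc]
  have h3 : min L (L - y) - max 0 (-y) = L - |y| := by
    rcases le_total 0 y with h | h
    · rw [min_eq_right (by linarith), max_eq_left (by linarith), abs_of_nonneg h, sub_zero]
    · rw [min_eq_left (by linarith), max_eq_right (by linarith), abs_of_nonpos h]
  rw [h3, max_comm]

/-- the correlation of the counting function -/
noncomputable def au_R (S : Sys) (n j : ℕ) (t y : ℝ) : ℝ :=
  ∫ x, cnt (sh n (S.vt t)) (sh n (S.Lt t)) j x * cnt (sh n (S.vt t)) (sh n (S.Lt t)) j (x + y)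

theorem au_int (S : Sys) (n j : ℕ) (t a b : ℝ) :
    Integrable (fun x => cnt (sh n (S.vt t)) (sh n (S.Lt t)) j (x + a) *
      cnt (sh n (S.vt t)) (sh n (S.Lt t)) j (x + b)) := by
  have h1 := cnt_mul_integrable (sh n (S.vt t)) (sh n (S.Lt t)) (sh n (S.vt t)) (sh n (S.Lt t))
    j j (b - a)
  have h2 := h1.comp_add_right a
  refine h2.congr (Filter.Eventually.of_forall fun x => ?_)
  simp only
  congr 2
  ring

theorem au_int_eq (S : Sys) (n j : ℕ) (t a b : ℝ) :
    ∫ x, cnt (sh n (S.vt t)) (sh n (S.Lt t)) j (x + a) *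
      cnt (sh n (S.vt t)) (sh n (S.Lt t)) j (x + b) = S.au_R n j t (b - a) := by
  unfold au_R
  rw [← integral_add_right_eq_self (fun x => cnt (sh n (S.vt t)) (sh n (S.Lt t)) j x *
    cnt (sh n (S.vt t)) (sh n (S.Lt t)) j (x + (b - a))) a]
  congr 1
  funext x
  congr 2
  ring

theorem au_R_neg (S : Sys) (n j : ℕ) (t y : ℝ) : S.au_R n j t (-y) = S.au_R n j t y := by
  have h1 := S.au_int_eq n j t y 0
  rw [zero_sub] at h1
  rw [← h1]
  have h2 := S.au_int_eq n j t 0 y
  rw [sub_zero] at h2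
  rw [← h2]
  congr 1
  funext x
  rw [mul_comm]

/-- the recursion -/
theorem au_R_succ (S : Sys) (n j : ℕ) (t y : ℝ) : S.au_R n (j + 1) t y =
    S.au_R (n + 1) j t (y + S.v (n + 1) t) + 2 * S.au_R (n + 1) j t y +
      S.au_R (n + 1) j t (y - S.v (n + 1) t) := by
  set v := S.v (n + 1) t with hv
  set c : ℝ → ℝ := cnt (sh (n + 1) (S.vt t)) (sh (n + 1) (S.Lt t)) j with hc
  have e1 : ∀ x, cnt (sh n (S.vt t)) (sh n (S.Lt t)) (j + 1) x = c x + c (x - v) := by
    intro x
    rw [cnt_succ, sh_sh, sh_sh]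
    rfl
  have i1 : Integrable (fun x => c (x + 0) * c (x + y)) := S.au_int (n + 1) j t 0 y
  have i2 : Integrable (fun x => c (x + 0) * c (x + (y - v))) := S.au_int (n + 1) j t 0 (y - v)
  have i3 : Integrable (fun x => c (x + -v) * c (x + y)) := S.au_int (n + 1) j t (-v) y
  have i4 : Integrable (fun x => c (x + -v) * c (x + (y - v))) :=
    S.au_int (n + 1) j t (-v) (y - v)
  have f1 : ∫ x, c (x + 0) * c (x + y) = S.au_R (n + 1) j t (y - 0) :=
    S.au_int_eq (n + 1) j t 0 y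
  have f2 : ∫ x, c (x + 0) * c (x + (y - v)) = S.au_R (n + 1) j t (y - v - 0) :=
    S.au_int_eq (n + 1) j t 0 (y - v)
  have f3 : ∫ x, c (x + -v) * c (x + y) = S.au_R (n + 1) j t (y - -v) :=
    S.au_int_eq (n + 1) j t (-v) y
  have f4 : ∫ x, c (x + -v) * c (x + (y - v)) = S.au_R (n + 1) j t (y - v - -v) :=
    S.au_int_eq (n + 1) j t (-v) (y - v)
  have e2 : S.au_R n (j + 1) t y = ∫ x, ((c (x + 0) * c (x + y) +
      c (x + 0) * c (x + (y - v))) + (c (x + -v) * c (x + y) + c (x + -v) * c (x + (y - v)))) := by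
    unfold au_R
    congr 1
    funext x
    rw [e1, e1]
    have g1 : x + 0 = x := add_zero x
    have g2 : x + -v = x - v := rfl
    have g3 : x + y - v = x + (y - v) := by ring
    rw [g1, g2, g3]
    ring
  have e3 : ∫ x, ((c (x + 0) * c (x + y) + c (x + 0) * c (x + (y - v))) +
      (c (x + -v) * c (x + y) + c (x + -v) * c (x + (y - v)))) =
      (∫ x, (c (x + 0) * c (x + y) + c (x + 0) * c (x + (y - v)))) +
      ∫ x, (c (x + -v) * c (x + y) + c (x + -v) * c (x + (y - v))) :=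
    integral_add (i1.add i2) (i3.add i4)
  rw [e2, e3, integral_add i1 i2, integral_add i3 i4, f1, f2, f3, f4]
  have g1 : y - 0 = y := sub_zero y
  have g2 : y - v - 0 = y - v := sub_zero _
  have g3 : y - -v = y + v := by ring
  have g4 : y - v - -v = y := by ring
  rw [g1, g2, g3, g4]
  ring

theorem au_auto (S : Sys) (t : ℝ) (ht : 0 < t) (j : ℕ) : ∀ (n : ℕ) (y : ℝ),
    S.au_R n j t y = 4 ^ j * S.E j n (fun u w => max 0 (S.L (n + j) t - |y + (u + t * w)|)) := by
  induction j with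
  | zero =>
    intro n y
    unfold au_R
    rw [E_zero]
    have h1 : ∀ x, cnt (sh n (S.vt t)) (sh n (S.Lt t)) 0 x =
        (Icc 0 (S.L n t)).indicator (fun _ => (1 : ℝ)) x := fun x => by
      rw [cnt_zero]
      rfl
    simp only [h1]
    rw [au_base _ _ (S.L_pos n t ht)]
    simp
  | succ j ih =>
    intro n y
    rw [S.au_R_succ, ih, ih, ih, E_succ]
    have e0 : n + (j + 1) = n + 1 + j := by ring
    rw [e0]
    have e1 : (fun u w => max 0 (S.L (n + 1 + j) t - |y + S.v (n + 1) t + (u + t * w)|)) =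
        fun x y' => max 0 (S.L (n + 1 + j) t -
          |y + (x + S.p (n + 1) + t * (y' + S.q (n + 1)))|) := by
      funext u w
      unfold v
      congr 3
      ring
    have e2 : (fun u w => max 0 (S.L (n + 1 + j) t - |y - S.v (n + 1) t + (u + t * w)|)) =
        fun x y' => max 0 (S.L (n + 1 + j) t -
          |y + (x - S.p (n + 1) + t * (y' - S.q (n + 1)))|) := by
      funext u w
      unfold v
      congr 3
      ring
    rw [e1, e2, pow_succ]
    ring

theorem auto (S : Sys) (n j : ℕ) (t y : ℝ) (ht : 0 < t) :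
    ∫ x, cnt (sh n (S.vt t)) (sh n (S.Lt t)) j x * cnt (sh n (S.vt t)) (sh n (S.Lt t)) j (x + y) =
      4 ^ j * S.E j n (fun u w => max 0 (S.L (n + j) t - |y + (u + t * w)|)) :=
  S.au_auto t ht j n y

/-- lower bound of the correlation by the smoothed density -/
theorem au_R_lower (S : Sys) (n j : ℕ) (t y : ℝ) (h1 : 1 ≤ t) :
    4 ^ j * (S.r (n + j) ^ 2 * S.H n j t y) ≤ S.au_R n j t y := by
  rw [S.au_auto t (by linarith) j n y]
  refine mul_le_mul_of_nonneg_left ?_ (by positivity)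
  unfold H
  rw [← E_mul S j n (S.r (n + j) ^ 2) (fun u w => phi (S.r (n + j)) (y + (u + t * w)))]
  refine S.E_mono j n _ _ fun u w => ?_
  have hr := S.r_pos (n + j)
  have hL := S.r_le_L (n + j) t h1
  unfold phi
  have e1 : S.r (n + j) ^ 2 * (max 0 (1 - |y + (u + t * w)| / S.r (n + j)) / S.r (n + j)) =
      S.r (n + j) * max 0 (1 - |y + (u + t * w)| / S.r (n + j)) := by
    field_simp
  rw [e1, mul_max_of_nonneg _ _ hr.le, mul_zero]
  refine max_le_max le_rfl ?_
  rw [mul_sub, mul_one, mul_div_cancel₀ _ hr.ne']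
  linarith

/-- lower bound of the `L²` norm -/
theorem au_xlow (S : Sys) (t : ℝ) (h1 : 1 ≤ t) (j : ℕ) : ∀ n : ℕ,
    ∑ k ∈ Finset.Icc 1 j, 2 ^ k * 4 ^ (j - k) *
        (S.r (n + j) ^ 2 * S.z (n + k) (j - k) t / S.r (n + k)) ≤ S.au_R n j t 0 := by
  induction j with
  | zero =>
    intro n
    rw [Finset.Icc_eq_empty (by norm_num), Finset.sum_empty]
    unfold au_R
    refine integral_nonneg fun x => ?_
    exact mul_nonneg (cnt_nonneg _ _ _ _) (cnt_nonneg _ _ _ _)
  | succ j ih =>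
    intro n
    have e0 : n + (j + 1) = n + 1 + j := by ring
    have hr1 := S.r_pos (n + 1)
    have e1 : Finset.Icc 1 (j + 1) = insert 1 ((Finset.Icc 1 j).map (addRightEmbedding 1)) := by
      rw [Finset.map_add_right_Icc]
      ext i
      simp only [Finset.mem_Icc, Finset.mem_insert]
      omega
    have e2 : (1 : ℕ) ∉ (Finset.Icc 1 j).map (addRightEmbedding 1) := by
      rw [Finset.map_add_right_Icc]
      simp
    rw [e1, Finset.sum_insert e2, Finset.sum_map, S.au_R_succ, zero_add, zero_sub, S.au_R_neg]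
    have h2 := S.au_R_lower (n + 1) j t (S.v (n + 1) t) h1
    have h3 := ih (n + 1)
    have e3 : ∑ k ∈ Finset.Icc 1 j, 2 ^ (addRightEmbedding 1 k) *
        4 ^ (j + 1 - addRightEmbedding 1 k) *
        (S.r (n + (j + 1)) ^ 2 * S.z (n + addRightEmbedding 1 k)
          (j + 1 - addRightEmbedding 1 k) t / S.r (n + addRightEmbedding 1 k)) =
        2 * ∑ k ∈ Finset.Icc 1 j, 2 ^ k * 4 ^ (j - k) *
        (S.r (n + 1 + j) ^ 2 * S.z (n + 1 + k) (j - k) t / S.r (n + 1 + k)) := by
      rw [Finset.mul_sum]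
      refine Finset.sum_congr rfl fun k _ => ?_
      have g1 : addRightEmbedding 1 k = k + 1 := rfl
      have g2 : j + 1 - (k + 1) = j - k := by omega
      have g3 : n + (k + 1) = n + 1 + k := by ring
      rw [g1, g2, g3, e0, pow_succ]
      ring
    rw [e3]
    have e4 : (2 : ℝ) ^ 1 * 4 ^ (j + 1 - 1) *
        (S.r (n + (j + 1)) ^ 2 * S.z (n + 1) (j + 1 - 1) t / S.r (n + 1)) =
        2 * (4 ^ j * (S.r (n + 1 + j) ^ 2 * S.H (n + 1) j t (S.v (n + 1) t))) := by
      rw [Nat.add_sub_cancel, e0]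
      unfold z
      field_simp
    rw [e4]
    linarith

/-- lower bound of the `L²` norm -/
theorem xlow (S : Sys) (n j : ℕ) (t : ℝ) (h1 : 1 ≤ t) (h2 : t ≤ 2) :
    ∑ k ∈ Finset.Icc 1 j, 2 ^ k * 4 ^ (j - k) *
        (S.r (n + j) ^ 2 * S.z (n + k) (j - k) t / S.r (n + k)) ≤
      ∫ x, cnt (sh n (S.vt t)) (sh n (S.Lt t)) j x ^ 2 := by
  refine (S.au_xlow t h1 j n).trans (le_of_eq ?_)
  unfold au_R
  congr 1
  funext x
  rw [add_zero, pow_two]

theorem xlow' (S : Sys) (n j : ℕ) (t : ℝ) (h1 : 1 ≤ t) (h2 : t ≤ 2) :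
    8 / 25 * (S.L n t / S.ta n) * ∑ k ∈ Finset.Icc 1 j, S.ta (n + k) * S.z (n + k) (j - k) t ≤
      ∫ x, cnt (sh n (S.vt t)) (sh n (S.Lt t)) j x ^ 2 := by
  refine le_trans ?_ (S.xlow n j t h1 h2)
  rw [Finset.mul_sum]
  refine Finset.sum_le_sum fun k hk => ?_
  rw [Finset.mem_Icc] at hk
  have hz : 0 ≤ S.z (n + k) (j - k) t := S.z_nonneg _ _ _
  have ha := S.ta_pos n
  have hb := S.ta_pos (n + k)
  have hc := S.ta_pos (n + j)
  have hca : S.ta (n + j) ≤ S.ta n := S.ta_anti (by omega)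
  have hrN := S.r_pos (n + j)
  have hrK := S.r_pos (n + k)
  have hL := S.L_pos n t (by linarith)
  have q1 := S.ta_r_lower (n + j)
  have q2 := S.ta_r_upper (n + k)
  have q3 := S.ta_r_upper n
  have q4 := S.L_le_r n t h1 h2
  set z := S.z (n + k) (j - k) t
  set a := S.ta n
  set b := S.ta (n + k)
  set c := S.ta (n + j)
  set rN := S.r (n + j)
  set rK := S.r (n + k)
  set L := S.L n t
  set rn := S.r n
  have w1 : (2 : ℝ) ^ (n + j) = 2 ^ n * 2 ^ k * 2 ^ (j - k) := by
    rw [← pow_add, ← pow_add]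
    congr 1
    omega
  have w2 : (4 : ℝ) ^ (j - k) = 2 ^ (j - k) * 2 ^ (j - k) := by
    rw [← mul_pow]
    norm_num
  rw [w1] at q1
  rw [pow_add] at q2
  rw [w2]
  have hX : (0 : ℝ) < 2 ^ n := by positivity
  have hY : (0 : ℝ) < 2 ^ k := by positivity
  have hW : (0 : ℝ) < 2 ^ (j - k) := by positivity
  generalize (2 : ℝ) ^ n = X at *
  generalize (2 : ℝ) ^ k = Y at *
  generalize (2 : ℝ) ^ (j - k) = W at *
  have s1 : 2 ≤ X * Y * W * rN * a := by
    refine q1.trans ?_
    exact mul_le_mul_of_nonneg_left hca (by positivity)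
  have s2 : 4 ≤ (X * Y * W * rN * a) ^ 2 := by nlinarith
  have s3 : X * L * a ≤ 5 := by
    have : X * L * a ≤ X * (2 * rn) * a := by
      refine mul_le_mul_of_nonneg_right (mul_le_mul_of_nonneg_left q4 hX.le) ha.le
    linarith
  have s4 : (X * L * a) * (X * Y * rK * b) ≤ 5 * (5 / 2) :=
    mul_le_mul s3 q2 (by positivity) (by norm_num)
  have s5 : 8 / 25 * (L / a) * b ≤ Y * (W * W) * rN ^ 2 / rK := by
    rw [le_div_iff₀ hrK]
    have t1 : 0 < X ^ 2 * Y * a ^ 2 := by positivity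
    refine le_of_mul_le_mul_left ?_ t1
    have t2 : X ^ 2 * Y * a ^ 2 * (8 / 25 * (L / a) * b * rK) =
        8 / 25 * ((X * L * a) * (X * Y * rK * b)) := by
      field_simp
    have t3 : X ^ 2 * Y * a ^ 2 * (Y * (W * W) * rN ^ 2) = (X * Y * W * rN * a) ^ 2 := by ring
    rw [t2, t3]
    linarith
  calc 8 / 25 * (L / a) * (b * z) = 8 / 25 * (L / a) * b * z := by ring
    _ ≤ Y * (W * W) * rN ^ 2 / rK * z := mul_le_mul_of_nonneg_right s5 hz
    _ = Y * (W * W) * (rN ^ 2 * z / rK) := by ring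

end Sys
end Pool.Agent.VC
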