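import Pool.Agent.VC.TreeKer

set_option autoImplicit false

open MeasureTheory Set

namespace Pool.Agent.VC

/-- number of bad ratios with index at most `k` -/
noncomputable def ib (lam : ℕ → ℝ) (k : ℕ) : ℕ :=
  open Classical in ((Finset.range (k + 1)).filter (fun j => 3 / 8 < lam j)).card

/-- the margin -/
noncomputable def mg (lam : ℕ → ℝ) (k : ℕ) : ℕ := 10 + ib lam k / 16

/-- horizontal digit of generation `k < n` of the word `x < 4^n` -/
def dgx (n k x : ℕ) : ℕ := x / 4 ^ (n - 1 - k) % 4 % 2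

/-- vertical digit -/
def dgy (n k x : ℕ) : ℕ := x / 4 ^ (n - 1 - k) % 4 / 2

/-- the words which are not too close to the other children at a bad refinement -/
def XX (lam : ℕ → ℝ) (n : ℕ) : Set (Fin (4 ^ n)) :=
  {x | ∀ k, 3 / 8 < lam k → k + mg lam k < n →
    (∃ r, 1 ≤ r ∧ r ≤ mg lam k ∧ dgx n (k + r) x = dgx n k x) ∧
    (∃ r, 1 ≤ r ∧ r ≤ mg lam k ∧ dgy n (k + r) x = dgy n k x)}

/-! ### coordinates -/

/-- a coordinate of the corners with digit function `D` -/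
structure BwC (lam : ℕ → ℝ) (c : ℕ → ℕ → ℝ) (D : ℕ → ℕ) : Prop where
  step : ∀ n i, c (n + 1) i = c n (i / 4) + (side lam n - side lam (n + 1)) * (D (i % 4) : ℝ)
  dig : ∀ i, D (i % 4) ≤ 1

theorem bw_re (lam : ℕ → ℝ) : BwC lam (fun n i => (ctr lam n i).re) (fun d => d % 2) where
  step n i := tk_ctr_succ_re lam n i
  dig i := by omega

theorem bw_im (lam : ℕ → ℝ) : BwC lam (fun n i => (ctr lam n i).im) (fun d => d / 2) where
  step n i := tk_ctr_succ_im lam n i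
  dig i := by omega

theorem bw_div (a : ℕ) (s t u : ℕ) (h : s + t = u) : a / 4 ^ s / 4 ^ t = a / 4 ^ u := by
  rw [Nat.div_div_eq_div_mul, ← pow_add, h]

theorem bw_div4 (a : ℕ) (s u : ℕ) (h : s + 1 = u) : a / 4 ^ s / 4 = a / 4 ^ u := by
  have := bw_div a s 1 u h
  rwa [pow_one] at this

section

variable {lam : ℕ → ℝ} {c : ℕ → ℕ → ℝ} {D : ℕ → ℕ}

theorem bw_anc (H : BwC lam c D) (h : ∀ k, 0 < lam k ∧ lam k ≤ 1 / 2) (n j i : ℕ) :
    c n (i / 4 ^ j) ≤ c (n + j) i ∧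
    c (n + j) i ≤ c n (i / 4 ^ j) + (side lam n - side lam (n + j)) := by
  induction j generalizing i with
  | zero => simp
  | succ j ih =>
    obtain ⟨h1, h2⟩ := ih (i / 4)
    have e1 : i / 4 / 4 ^ j = i / 4 ^ (j + 1) := by
      rw [Nat.div_div_eq_div_mul, pow_succ, mul_comm]
    rw [e1] at h1 h2
    have hg := tk_side_gap lam h (n + j)
    have d1 := tk_digit_bd (D (i % 4)) (H.dig i) _ hg
    have e2 : n + (j + 1) = n + j + 1 := rfl
    rw [e2, H.step]
    refine ⟨by linarith [d1.1], by linarith [d1.2]⟩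

theorem bw_side_lb (h : ∀ k, 1 / 4 ≤ lam k ∧ lam k ≤ 1 / 2) (k j : ℕ) :
    (1 / 4 : ℝ) ^ j * side lam k ≤ side lam (k + j) := by
  induction j with
  | zero => simp
  | succ j ih =>
    have h1 := tk_side_pos lam (fun k => by linarith [(h k).1]) (k + j)
    have e : side lam (k + (j + 1)) = lam (k + j) * side lam (k + j) := rfl
    rw [e, pow_succ]
    calc (1 / 4 : ℝ) ^ j * (1 / 4) * side lam k = 1 / 4 * ((1 / 4 : ℝ) ^ j * side lam k) := by ring
      _ ≤ 1 / 4 * side lam (k + j) := by linarith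
      _ ≤ lam (k + j) * side lam (k + j) := mul_le_mul_of_nonneg_right (h (k + j)).1 h1.le

theorem bw_far (H : BwC lam c D) (h : ∀ k, 1 / 4 ≤ lam k ∧ lam k ≤ 1 / 2) (n k : ℕ) (hk : k < n)
    (a b : ℕ) (hab : a / 4 ^ (n - k) = b / 4 ^ (n - k))
    (ha : D (a / 4 ^ (n - 1 - k) % 4) = 0) (hb : D (b / 4 ^ (n - 1 - k) % 4) = 1) (m : ℕ)
    (hX : k + m < n → ∃ r, 1 ≤ r ∧ r ≤ m ∧
      D (a / 4 ^ (n - 1 - (k + r)) % 4) = D (a / 4 ^ (n - 1 - k) % 4)) :
    1 / 2 * (1 / 4) ^ m * side lam k ≤ c n b - c n a := by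
  have h' : ∀ k, 0 < lam k ∧ lam k ≤ 1 / 2 := fun k => ⟨by linarith [(h k).1], (h k).2⟩
  have hs : ∀ k, 0 < side lam k := tk_side_pos lam fun k => (h' k).1
  have hhalf : ∀ k, side lam (k + 1) ≤ 1 / 2 * side lam k := fun k => by
    rw [tk_side_succ]
    exact mul_le_mul_of_nonneg_right (h k).2 (hs k).le
  have e0 : n - (k + 1) = n - 1 - k := by omega
  have ed : ∀ x : ℕ, x / 4 ^ (n - 1 - k) / 4 = x / 4 ^ (n - k) := fun x =>
    bw_div4 x _ _ (by omega)
  -- lower bound for `b`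
  have hbl : c k (b / 4 ^ (n - k)) + (side lam k - side lam (k + 1)) ≤ c n b := by
    have h1 := (bw_anc H h' (k + 1) (n - (k + 1)) b).1
    rw [Nat.add_sub_cancel' (by omega), e0, H.step, hb, ed] at h1
    simpa using h1
  have ha1 : c (k + 1) (a / 4 ^ (n - 1 - k)) = c k (b / 4 ^ (n - k)) := by
    rw [H.step, ha, ed, hab]
    simp
  have h2 := hhalf k
  by_cases hkm : k + m < n
  · obtain ⟨r, hr1, hrm, hr⟩ := hX hkm
    rw [ha] at hr
    have h3 := (bw_anc H h' (k + r + 1) (n - (k + r + 1)) a).2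
    have e1 : n - (k + r + 1) = n - 1 - (k + r) := by omega
    rw [Nat.add_sub_cancel' (by omega), e1, H.step, hr, bw_div4 a _ (n - (k + r)) (by omega)] at h3
    have h4 := (bw_anc H h' (k + 1) (r - 1) (a / 4 ^ (n - (k + r)))).2
    have e2 : k + 1 + (r - 1) = k + r := by omega
    rw [e2, bw_div a _ _ (n - 1 - k) (by omega), ha1] at h4
    have h5 := hhalf (k + r)
    have h6 := bw_side_lb h k r
    have h7 : (1 / 4 : ℝ) ^ m ≤ (1 / 4) ^ r :=
      pow_le_pow_of_le_one (by norm_num) (by norm_num) hrm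
    have h8 : (1 / 4 : ℝ) ^ m * side lam k ≤ (1 / 4) ^ r * side lam k :=
      mul_le_mul_of_nonneg_right h7 (hs k).le
    have h9 := (hs n).le
    push_cast at h3
    linarith
  · have h3 := (bw_anc H h' (k + 1) (n - (k + 1)) a).2
    rw [Nat.add_sub_cancel' (by omega), e0, ha1] at h3
    have h6 := bw_side_lb h k (n - k)
    rw [Nat.add_sub_cancel' (by omega)] at h6
    have h7 : (1 / 4 : ℝ) ^ m ≤ (1 / 4) ^ (n - k) :=
      pow_le_pow_of_le_one (by norm_num) (by norm_num) (by omega)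
    have h8 : (1 / 4 : ℝ) ^ m * side lam k ≤ (1 / 4) ^ (n - k) * side lam k :=
      mul_le_mul_of_nonneg_right h7 (hs k).le
    have h9 : 0 < (1 / 4 : ℝ) ^ m * side lam k := mul_pos (by positivity) (hs k)
    linarith

/-- separation in a coordinate with different digits -/
theorem bw_near (H : BwC lam c D) (h : ∀ k, 1 / 4 ≤ lam k ∧ lam k ≤ 1 / 2) (n k : ℕ) (hk : k < n)
    (a b : ℕ) (hab : a / 4 ^ (n - k) = b / 4 ^ (n - k))
    (ha : D (a / 4 ^ (n - 1 - k) % 4) = 0) (hb : D (b / 4 ^ (n - 1 - k) % 4) = 1)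
    (hl : lam k ≤ 3 / 8) : 1 / 4 * side lam k ≤ c n b - c n a := by
  have h' : ∀ k, 0 < lam k ∧ lam k ≤ 1 / 2 := fun k => ⟨by linarith [(h k).1], (h k).2⟩
  have hs : ∀ k, 0 < side lam k := tk_side_pos lam fun k => (h' k).1
  have e0 : n - (k + 1) = n - 1 - k := by omega
  have ed : ∀ x : ℕ, x / 4 ^ (n - 1 - k) / 4 = x / 4 ^ (n - k) := fun x =>
    bw_div4 x _ _ (by omega)
  have hbl : c k (b / 4 ^ (n - k)) + (side lam k - side lam (k + 1)) ≤ c n b := by
    have h1 := (bw_anc H h' (k + 1) (n - (k + 1)) b).1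
    rw [Nat.add_sub_cancel' (by omega), e0, H.step, hb, ed] at h1
    simpa using h1
  have ha1 : c (k + 1) (a / 4 ^ (n - 1 - k)) = c k (b / 4 ^ (n - k)) := by
    rw [H.step, ha, ed, hab]
    simp
  have h3 := (bw_anc H h' (k + 1) (n - (k + 1)) a).2
  rw [Nat.add_sub_cancel' (by omega), e0, ha1] at h3
  have h4 : side lam (k + 1) ≤ 3 / 8 * side lam k := by
    rw [tk_side_succ]
    exact mul_le_mul_of_nonneg_right hl (hs k).le
  have h9 := (hs n).le
  linarith

end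

/-- from one coordinate to the norm -/
theorem bw_norm_re (lam : ℕ → ℝ) (n : ℕ) (x y : Fin (4 ^ n)) {B : ℝ}
    (h : B ≤ (ctr lam n y).re - (ctr lam n x).re) : B ≤ ‖ctr lam n x - ctr lam n y‖ := by
  have h1 := Complex.abs_re_le_norm (ctr lam n x - ctr lam n y)
  rw [Complex.sub_re] at h1
  have h2 := neg_le_abs ((ctr lam n x).re - (ctr lam n y).re)
  linarith

theorem bw_norm_im (lam : ℕ → ℝ) (n : ℕ) (x y : Fin (4 ^ n)) {B : ℝ}
    (h : B ≤ (ctr lam n y).im - (ctr lam n x).im) : B ≤ ‖ctr lam n x - ctr lam n y‖ := by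
  have h1 := Complex.abs_im_le_norm (ctr lam n x - ctr lam n y)
  rw [Complex.sub_im] at h1
  have h2 := neg_le_abs ((ctr lam n x).im - (ctr lam n y).im)
  linarith

/-- the digits at the first difference -/
theorem bw_digits (n k : ℕ) (hk : k < n) (x y : Fin (4 ^ n)) (h1 : lb n k x = lb n k y)
    (h2 : lb n (k + 1) x ≠ lb n (k + 1) y) :
    ((x : ℕ) / 4 ^ (n - 1 - k) % 4 % 2 = 0 ∧ (y : ℕ) / 4 ^ (n - 1 - k) % 4 % 2 = 1) ∨
    ((y : ℕ) / 4 ^ (n - 1 - k) % 4 % 2 = 0 ∧ (x : ℕ) / 4 ^ (n - 1 - k) % 4 % 2 = 1) ∨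
    ((x : ℕ) / 4 ^ (n - 1 - k) % 4 / 2 = 0 ∧ (y : ℕ) / 4 ^ (n - 1 - k) % 4 / 2 = 1) ∨
    ((y : ℕ) / 4 ^ (n - 1 - k) % 4 / 2 = 0 ∧ (x : ℕ) / 4 ^ (n - 1 - k) % 4 / 2 = 1) := by
  rw [tk_lb_succ n k hk, tk_lb_succ n k hk] at h1
  unfold lb at h1 h2
  have e0 : n - (k + 1) = n - 1 - k := by omega
  rw [e0] at h1 h2
  generalize (x : ℕ) / 4 ^ (n - 1 - k) = a at *
  generalize (y : ℕ) / 4 ^ (n - 1 - k) = b at *
  omega

/-! ### sums over the bad indices -/

open Classical in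
theorem bw_ib (lam : ℕ → ℝ) (k : ℕ) (hb : 3 / 8 < lam k) :
    ib lam k = ((Finset.range k).filter (fun j => 3 / 8 < lam j)).card + 1 := by
  unfold ib
  rw [Finset.range_add_one, Finset.filter_insert, if_pos hb, Finset.card_insert_of_notMem]
  simp

open Classical in
theorem bw_geom (lam : ℕ → ℝ) {q : ℝ} (hq : q < 1) (n : ℕ) :
    ∑ k ∈ (Finset.range n).filter (fun k => 3 / 8 < lam k), q ^ ib lam k =
      q / (1 - q) * (1 - q ^ ((Finset.range n).filter (fun j => 3 / 8 < lam j)).card) := by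
  have h1 : 1 - q ≠ 0 := by linarith
  induction n with
  | zero => simp
  | succ n ih =>
    rw [Finset.range_add_one, Finset.filter_insert]
    by_cases hb : 3 / 8 < lam n
    · rw [if_pos hb, Finset.sum_insert (by simp), Finset.card_insert_of_notMem (by simp), ih,
        bw_ib lam n hb, pow_succ]
      field_simp
      ring
    · rw [if_neg hb, ih]

open Classical in
theorem bw_geom_le (lam : ℕ → ℝ) {q : ℝ} (h0 : 0 ≤ q) (hq : q < 1) (n : ℕ) :
    ∑ k ∈ (Finset.range n).filter (fun k => 3 / 8 < lam k), q ^ ib lam k ≤ q / (1 - q) := by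
  rw [bw_geom lam hq n]
  have h1 : 0 ≤ q / (1 - q) := div_nonneg h0 (by linarith)
  have h2 : 0 ≤ q ^ ((Finset.range n).filter (fun j => 3 / 8 < lam j)).card := pow_nonneg h0 _
  nlinarith

theorem bw_half (i : ℕ) : (1 / 2 : ℝ) ^ (i / 16) ≤ 2 * (24 / 25) ^ i := by
  have h1 : i = 16 * (i / 16) + i % 16 := (Nat.div_add_mod i 16).symm
  have h2 : i % 16 ≤ 15 := by omega
  have h3 : (24 / 25 : ℝ) ^ 15 ≤ (24 / 25) ^ (i % 16) :=
    pow_le_pow_of_le_one (by norm_num) (by norm_num) h2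
  have h4 : (1 / 2 : ℝ) ^ (i / 16) ≤ ((24 / 25) ^ 16) ^ (i / 16) :=
    pow_le_pow_left₀ (by norm_num) (by norm_num) _
  have h5 : (24 / 25 : ℝ) ^ i = ((24 / 25) ^ 16) ^ (i / 16) * (24 / 25) ^ (i % 16) := by
    conv_lhs => rw [h1]
    rw [pow_add, pow_mul]
  rw [h5]
  have h6 : (1 : ℝ) ≤ 2 * (24 / 25) ^ (i % 16) := by
    have : (1 : ℝ) ≤ 2 * (24 / 25) ^ 15 := by norm_num
    linarith
  have h7 : (0 : ℝ) ≤ ((24 / 25) ^ 16) ^ (i / 16) := by positivity
  calc (1 / 2 : ℝ) ^ (i / 16) ≤ ((24 / 25) ^ 16) ^ (i / 16) * 1 := by rw [mul_one]; exact h4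
    _ ≤ ((24 / 25) ^ 16) ^ (i / 16) * (2 * (24 / 25) ^ (i % 16)) :=
        mul_le_mul_of_nonneg_left h6 h7
    _ = _ := by ring

theorem bw_sixteen (i : ℕ) : (16 : ℝ) ^ (i / 16) ≤ (6 / 5) ^ i := by
  have h1 : i = 16 * (i / 16) + i % 16 := (Nat.div_add_mod i 16).symm
  have h4 : (16 : ℝ) ^ (i / 16) ≤ ((6 / 5) ^ 16) ^ (i / 16) :=
    pow_le_pow_left₀ (by norm_num) (by norm_num) _
  have h5 : (6 / 5 : ℝ) ^ i = ((6 / 5) ^ 16) ^ (i / 16) * (6 / 5) ^ (i % 16) := by
    conv_lhs => rw [h1]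
    rw [pow_add, pow_mul]
  have h6 : (1 : ℝ) ≤ (6 / 5) ^ (i % 16) := one_le_pow₀ (by norm_num)
  rw [h5]
  calc (16 : ℝ) ^ (i / 16) ≤ ((6 / 5) ^ 16) ^ (i / 16) * 1 := by rw [mul_one]; exact h4
    _ ≤ _ := mul_le_mul_of_nonneg_left h6 (by positivity)

/-! ### counting words -/

theorem bw_step (a b c : ℕ) (hb : 0 < b) (p : ℕ → Prop) [DecidablePred p] (q : ℕ → ℕ → Prop)
    [∀ y, DecidablePred (q y)] (hq : ∀ y, ((Finset.range b).filter (q y)).card ≤ c)
    [DecidablePred fun x => p (x / b) ∧ q (x / b) (x % b)] :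
    ((Finset.range (a * b)).filter (fun x => p (x / b) ∧ q (x / b) (x % b))).card ≤
      ((Finset.range a).filter p).card * c := by
  classical
  refine le_trans (Finset.card_le_card (t := ((Finset.range a).filter p).biUnion
    (fun y => ((Finset.range b).filter (q y)).image (fun d => b * y + d))) ?_) ?_
  · intro x hx
    rw [Finset.mem_filter, Finset.mem_range] at hx
    rw [Finset.mem_biUnion]
    refine ⟨x / b, ?_, ?_⟩
    · rw [Finset.mem_filter, Finset.mem_range]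
      exact ⟨(Nat.div_lt_iff_lt_mul hb).2 hx.1, hx.2.1⟩
    · rw [Finset.mem_image]
      refine ⟨x % b, ?_, Nat.div_add_mod x b⟩
      rw [Finset.mem_filter, Finset.mem_range]
      exact ⟨Nat.mod_lt x hb, hx.2.2⟩
  · exact Finset.card_biUnion_le_card_mul _ _ _ fun y _ =>
      Finset.card_image_le.trans (hq y)

/-- no repetition of the digit of generation `k` -/
def BwA (D : ℕ → ℕ) (n k m x : ℕ) : Prop := ∀ r, 1 ≤ r → r ≤ m →
  D (x / 4 ^ (n - 1 - (k + r)) % 4) ≠ D (x / 4 ^ (n - 1 - k) % 4)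

/-- the same for the last digits -/
def BwP (D : ℕ → ℕ) (j y : ℕ) : Prop := ∀ r, 1 ≤ r → r ≤ j →
  D (y / 4 ^ (j - r) % 4) ≠ D (y / 4 ^ j % 4)

open Classical in
theorem bw_words (D : ℕ → ℕ)
    (hD : ∀ d0 : ℕ, ((Finset.range 4).filter (fun d => D d ≠ D (d0 % 4))).card ≤ 2) (k j : ℕ) :
    ((Finset.range (4 ^ (k + 1 + j))).filter (fun y => BwP D j y)).card ≤ 4 ^ (k + 1) * 2 ^ j := by
  induction j with
  | zero =>
    refine (Finset.card_filter_le _ _).trans ?_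
    rw [Finset.card_range]
    simp
  | succ j ih =>
    have h1 := bw_step (4 ^ (k + 1 + j)) 4 2 (by norm_num) (fun y => BwP D j y)
      (fun y d => D d ≠ D (y / 4 ^ j % 4)) (fun y => hD (y / 4 ^ j))
    have h2 : 4 ^ (k + 1 + j) * 4 = 4 ^ (k + 1 + (j + 1)) := by rw [← pow_succ]; rfl
    rw [h2] at h1
    refine le_trans (Finset.card_le_card ?_) (h1.trans ?_)
    · intro x hx
      rw [Finset.mem_filter] at hx ⊢
      obtain ⟨hx1, hx2⟩ := hx
      have e : x / 4 / 4 ^ j = x / 4 ^ (j + 1) := by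
        rw [Nat.div_div_eq_div_mul, pow_succ, mul_comm]
      refine ⟨hx1, fun r hr1 hr2 => ?_, ?_⟩
      · have h3 := hx2 r hr1 (by omega)
        have e2 : x / 4 / 4 ^ (j - r) = x / 4 ^ (j + 1 - r) := by
          rw [Nat.div_div_eq_div_mul, mul_comm, ← pow_succ]
          congr 2
          omega
        rw [e, e2]
        exact h3
      · have h3 := hx2 (j + 1) (by omega) le_rfl
        rw [Nat.sub_self, pow_zero, Nat.div_one] at h3
        rw [e]
        exact h3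
    · calc _ ≤ (4 ^ (k + 1) * 2 ^ j) * 2 := Nat.mul_le_mul_right _ ih
        _ = 4 ^ (k + 1) * 2 ^ (j + 1) := by rw [pow_succ]; ring

open Classical in
theorem bw_words2 (D : ℕ → ℕ)
    (hD : ∀ d0 : ℕ, ((Finset.range 4).filter (fun d => D d ≠ D (d0 % 4))).card ≤ 2)
    (n k m : ℕ) (hkm : k + m < n) :
    ((Finset.range (4 ^ n)).filter (fun x => BwA D n k m x)).card * 2 ^ m ≤ 4 ^ n := by
  obtain ⟨s, rfl⟩ : ∃ s, n = k + 1 + m + s := ⟨n - (k + 1 + m), by omega⟩
  have h1 := bw_step (4 ^ (k + 1 + m)) (4 ^ s) (4 ^ s) (by positivity)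
    (fun y => BwP D m y)
    (fun _ _ => True) (fun y => (Finset.card_filter_le _ _).trans (Finset.card_range _).le)
  rw [← pow_add] at h1
  have h2 := bw_words D hD k m
  have h3 : ((Finset.range (4 ^ (k + 1 + m + s))).filter
      (fun x => BwA D (k + 1 + m + s) k m x)).card ≤ 4 ^ (k + 1) * 2 ^ m * 4 ^ s := by
    refine le_trans (Finset.card_le_card ?_) (h1.trans (Nat.mul_le_mul_right _ h2))
    intro x hx
    rw [Finset.mem_filter] at hx ⊢
    obtain ⟨hx1, hx2⟩ := hx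
    refine ⟨hx1, fun r hr1 hr2 => ?_, trivial⟩
    have h4 := hx2 r hr1 hr2
    rw [bw_div x s (m - r) (k + 1 + m + s - 1 - (k + r)) (by omega),
      bw_div x s m (k + 1 + m + s - 1 - k) (by omega)]
    exact h4
  calc _ ≤ (4 ^ (k + 1) * 2 ^ m * 4 ^ s) * 2 ^ m := Nat.mul_le_mul_right _ h3
    _ = 4 ^ (k + 1) * (2 ^ m * 2 ^ m) * 4 ^ s := by ring
    _ = 4 ^ (k + 1 + m + s) := by
        rw [← mul_pow, pow_add _ (k + 1 + m), pow_add _ (k + 1) m, show 2 * 2 = 4 from rfl]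

theorem bw_D1 (d0 : ℕ) :
    ((Finset.range 4).filter (fun d => d % 2 ≠ (d0 % 4) % 2)).card ≤ 2 := by
  have h : d0 % 4 < 4 := Nat.mod_lt _ (by norm_num)
  generalize d0 % 4 = e at *
  interval_cases e <;> decide

theorem bw_D2 (d0 : ℕ) :
    ((Finset.range 4).filter (fun d => d / 2 ≠ (d0 % 4) / 2)).card ≤ 2 := by
  have h : d0 % 4 < 4 := Nat.mod_lt _ (by norm_num)
  generalize d0 % 4 = e at *
  interval_cases e <;> decide

theorem bw_fin (n : ℕ) (p : ℕ → Prop) [DecidablePred p] :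
    (Finset.univ.filter (fun x : Fin (4 ^ n) => p x)).card =
      ((Finset.range (4 ^ n)).filter p).card := by
  rw [← Finset.card_map Fin.valEmbedding]
  congr 1
  ext x
  rw [Finset.mem_map, Finset.mem_filter, Finset.mem_range]
  constructor
  · rintro ⟨y, hy, rfl⟩
    rw [Finset.mem_filter] at hy
    exact ⟨y.2, hy.2⟩
  · rintro ⟨h1, h2⟩
    exact ⟨⟨x, h1⟩, Finset.mem_filter.2 ⟨Finset.mem_univ _, h2⟩, rfl⟩

open Classical in
/-- few words are removed -/
theorem card_XX (lam : ℕ → ℝ) (h : ∀ k, 1 / 4 ≤ lam k ∧ lam k ≤ 1 / 2) (n : ℕ) :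
    ((Finset.univ.filter (fun x => x ∉ XX lam n)).card : ℝ) ≤ 1 / 4 * 4 ^ n := by
  let J : Finset ℕ := ((Finset.range n).filter (fun k => 3 / 8 < lam k)).filter
    (fun k => k + mg lam k < n)
  have hsub : Finset.univ.filter (fun x => x ∉ XX lam n) ⊆
      J.biUnion (fun k => (Finset.univ.filter (fun x : Fin (4 ^ n) => BwA (fun d => d % 2) n k (mg lam k) x)) ∪
        (Finset.univ.filter (fun x : Fin (4 ^ n) => BwA (fun d => d / 2) n k (mg lam k) x))) := by
    intro x hx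
    rw [Finset.mem_filter] at hx
    have h1 := hx.2
    unfold XX at h1
    rw [Set.mem_ofPred_eq] at h1
    push Not at h1
    obtain ⟨k, hk1, hk2, h2⟩ := h1
    rw [Finset.mem_biUnion]
    refine ⟨k, ?_, ?_⟩
    · rw [Finset.mem_filter, Finset.mem_filter, Finset.mem_range]
      exact ⟨⟨by omega, hk1⟩, hk2⟩
    · rw [Finset.mem_union, Finset.mem_filter, Finset.mem_filter]
      by_cases h3 : ∃ r, 1 ≤ r ∧ r ≤ mg lam k ∧ dgx n (k + r) x = dgx n k x
      · right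
        refine ⟨Finset.mem_univ _, fun r hr1 hr2 => ?_⟩
        exact h2 h3 r hr1 hr2
      · left
        refine ⟨Finset.mem_univ _, fun r hr1 hr2 h4 => h3 ⟨r, hr1, hr2, h4⟩⟩
  have hA : ∀ k ∈ J, ((Finset.univ.filter (fun x : Fin (4 ^ n) => BwA (fun d => d % 2) n k (mg lam k) x)).card : ℝ) ≤
      4 ^ n * (1 / 2) ^ mg lam k := by
    intro k hk
    rw [Finset.mem_filter] at hk
    have h1 := bw_words2 (fun d => d % 2) bw_D1 n k (mg lam k) hk.2
    rw [bw_fin n (BwA (fun d => d % 2) n k (mg lam k))]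
    have h2 : (((Finset.range (4 ^ n)).filter
        (fun x => BwA (fun d => d % 2) n k (mg lam k) x)).card : ℝ) * 2 ^ mg lam k ≤ 4 ^ n := by
      exact_mod_cast h1
    rw [one_div, inv_pow, ← div_eq_mul_inv, le_div_iff₀ (by positivity)]
    exact h2
  have hA' : ∀ k ∈ J, ((Finset.univ.filter (fun x : Fin (4 ^ n) => BwA (fun d => d / 2) n k (mg lam k) x)).card : ℝ) ≤
      4 ^ n * (1 / 2) ^ mg lam k := by
    intro k hk
    rw [Finset.mem_filter] at hk
    have h1 := bw_words2 (fun d => d / 2) bw_D2 n k (mg lam k) hk.2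
    rw [bw_fin n (BwA (fun d => d / 2) n k (mg lam k))]
    have h2 : (((Finset.range (4 ^ n)).filter
        (fun x => BwA (fun d => d / 2) n k (mg lam k) x)).card : ℝ) * 2 ^ mg lam k ≤ 4 ^ n := by
      exact_mod_cast h1
    rw [one_div, inv_pow, ← div_eq_mul_inv, le_div_iff₀ (by positivity)]
    exact h2
  have h1 : ((Finset.univ.filter (fun x => x ∉ XX lam n)).card : ℝ) ≤
      ∑ k ∈ J, 2 * (4 ^ n * (1 / 2) ^ mg lam k) := by
    refine le_trans (Nat.cast_le.2 ((Finset.card_le_card hsub).trans Finset.card_biUnion_le)) ?_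
    push_cast
    refine Finset.sum_le_sum fun k hk => ?_
    refine le_trans (Nat.cast_le.2 (Finset.card_union_le _ _)) ?_
    push_cast
    linarith [hA k hk, hA' k hk]
  refine h1.trans ?_
  have h2 : ∀ k, 2 * ((4 : ℝ) ^ n * (1 / 2) ^ mg lam k) ≤
      4 ^ n * (4 * (1 / 2) ^ 10) * (24 / 25) ^ ib lam k := by
    intro k
    unfold mg
    rw [pow_add]
    have h3 := bw_half (ib lam k)
    have h4 : (0 : ℝ) < 4 ^ n * (2 * (1 / 2) ^ 10) := by positivity
    calc 2 * ((4 : ℝ) ^ n * ((1 / 2) ^ 10 * (1 / 2) ^ (ib lam k / 16))) =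
          4 ^ n * (2 * (1 / 2) ^ 10) * (1 / 2) ^ (ib lam k / 16) := by ring
      _ ≤ 4 ^ n * (2 * (1 / 2) ^ 10) * (2 * (24 / 25) ^ ib lam k) :=
          mul_le_mul_of_nonneg_left h3 h4.le
      _ = _ := by ring
  calc ∑ k ∈ J, 2 * ((4 : ℝ) ^ n * (1 / 2) ^ mg lam k)
      ≤ ∑ k ∈ J, 4 ^ n * (4 * (1 / 2) ^ 10) * (24 / 25) ^ ib lam k :=
        Finset.sum_le_sum fun k _ => h2 k
    _ ≤ ∑ k ∈ (Finset.range n).filter (fun k => 3 / 8 < lam k),
          4 ^ n * (4 * (1 / 2) ^ 10) * (24 / 25) ^ ib lam k :=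
        Finset.sum_le_sum_of_subset_of_nonneg (Finset.filter_subset _ _)
          fun k _ _ => by positivity
    _ = 4 ^ n * (4 * (1 / 2) ^ 10) *
          ∑ k ∈ (Finset.range n).filter (fun k => 3 / 8 < lam k), (24 / 25) ^ ib lam k := by
        rw [Finset.mul_sum]
    _ ≤ 4 ^ n * (4 * (1 / 2) ^ 10) * ((24 / 25) / (1 - 24 / 25)) :=
        mul_le_mul_of_nonneg_left (bw_geom_le lam (by norm_num) (by norm_num) n) (by positivity)
    _ ≤ 1 / 4 * 4 ^ n := by
        have : (0 : ℝ) < 4 ^ n := by positivity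
        norm_num
        linarith

/-- separation at a bad refinement -/
theorem sep_bad (lam : ℕ → ℝ) (h : ∀ k, 1 / 4 ≤ lam k ∧ lam k ≤ 1 / 2) (n k : ℕ) (hk : k < n)
    (x y : Fin (4 ^ n)) (hx : x ∈ XX lam n) (hy : y ∈ XX lam n)
    (h1 : lb n k x = lb n k y) (h2 : lb n (k + 1) x ≠ lb n (k + 1) y) (hb : 3 / 8 < lam k) :
    1 / 2 * (1 / 4) ^ mg lam k * side lam k ≤ ‖ctr lam n x - ctr lam n y‖ := by
  rcases bw_digits n k hk x y h1 h2 with ⟨hd1, hd2⟩ | ⟨hd1, hd2⟩ | ⟨hd1, hd2⟩ | ⟨hd1, hd2⟩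
  · exact bw_norm_re lam n x y (bw_far (bw_re lam) h n k hk x y h1 hd1 hd2 _
      fun hkm => (hx k hb hkm).1)
  · rw [norm_sub_rev]
    exact bw_norm_re lam n y x (bw_far (bw_re lam) h n k hk y x h1.symm hd1 hd2 _
      fun hkm => (hy k hb hkm).1)
  · exact bw_norm_im lam n x y (bw_far (bw_im lam) h n k hk x y h1 hd1 hd2 _
      fun hkm => (hx k hb hkm).2)
  · rw [norm_sub_rev]
    exact bw_norm_im lam n y x (bw_far (bw_im lam) h n k hk y x h1.symm hd1 hd2 _
      fun hkm => (hy k hb hkm).2)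

/-- separation at the other refinements -/
theorem sep_nb (lam : ℕ → ℝ) (h : ∀ k, 1 / 4 ≤ lam k ∧ lam k ≤ 1 / 2) (n k : ℕ) (hk : k < n)
    (x y : Fin (4 ^ n)) (h1 : lb n k x = lb n k y) (h2 : lb n (k + 1) x ≠ lb n (k + 1) y)
    (hb : lam k ≤ 3 / 8) :
    1 / 4 * side lam k ≤ ‖ctr lam n x - ctr lam n y‖ := by
  rcases bw_digits n k hk x y h1 h2 with ⟨hd1, hd2⟩ | ⟨hd1, hd2⟩ | ⟨hd1, hd2⟩ | ⟨hd1, hd2⟩
  · exact bw_norm_re lam n x y (bw_near (bw_re lam) h n k hk x y h1 hd1 hd2 hb)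
  · rw [norm_sub_rev]
    exact bw_norm_re lam n y x (bw_near (bw_re lam) h n k hk y x h1.symm hd1 hd2 hb)
  · exact bw_norm_im lam n x y (bw_near (bw_im lam) h n k hk x y h1 hd1 hd2 hb)
  · rw [norm_sub_rev]
    exact bw_norm_im lam n y x (bw_near (bw_im lam) h n k hk y x h1.symm hd1 hd2 hb)

open Classical in
theorem bw_dens (lam : ℕ → ℝ) (h : ∀ k, 1 / 4 ≤ lam k ∧ lam k ≤ 1 / 2) (k : ℕ) :
    dens lam k ≤ (2 / 3) ^ ((Finset.range k).filter (fun j => 3 / 8 < lam j)).card := by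
  have hs : ∀ k, 0 < side lam k := tk_side_pos lam fun k => by linarith [(h k).1]
  induction k with
  | zero =>
    unfold dens
    simp [side]
  | succ k ih =>
    have hl : 0 < lam k := by linarith [(h k).1]
    have hd0 : 0 < dens lam k := by
      unfold dens
      have := hs k
      positivity
    have e : dens lam (k + 1) = dens lam k * (1 / (4 * lam k)) := by
      unfold dens
      rw [tk_side_succ]
      have := (hs k).ne'
      field_simp
      ring
    rw [e, Finset.range_add_one, Finset.filter_insert]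
    by_cases hb : 3 / 8 < lam k
    · rw [if_pos hb, Finset.card_insert_of_notMem (by simp), pow_succ]
      have h1 : 1 / (4 * lam k) ≤ 2 / 3 := by
        rw [div_le_iff₀ (by positivity)]
        linarith
      exact mul_le_mul ih h1 (by positivity) (by positivity)
    · rw [if_neg hb]
      have h1 : 1 / (4 * lam k) ≤ 1 := by
        rw [div_le_iff₀ (by positivity)]
        linarith [(h k).1]
      calc dens lam k * (1 / (4 * lam k)) ≤ dens lam k * 1 :=
            mul_le_mul_of_nonneg_left h1 hd0.le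
        _ ≤ _ := by rw [mul_one]; exact ih

/-- the densities decrease at the bad refinements -/
theorem dens_bad (lam : ℕ → ℝ) (h : ∀ k, 1 / 4 ≤ lam k ∧ lam k ≤ 1 / 2) (k : ℕ)
    (hb : 3 / 8 < lam k) : dens lam k ≤ (2 / 3) ^ (ib lam k - 1) := by
  rw [bw_ib lam k hb, Nat.add_sub_cancel]
  exact bw_dens lam h k

open Classical in
/-- the total weight of the bad refinements -/
theorem sum_bad : ∃ C : ℝ, 0 < C ∧ ∀ lam : ℕ → ℝ, (∀ k, 1 / 4 ≤ lam k ∧ lam k ≤ 1 / 2) →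
    ∀ n : ℕ, ∑ k ∈ (Finset.range n).filter (fun k => 3 / 8 < lam k), 16 ^ mg lam k * dens lam k ≤ C := by
  refine ⟨16 ^ 10 * (3 / 2) * ((4 / 5) / (1 - 4 / 5)), by positivity, fun lam h n => ?_⟩
  have h1 : ∀ k ∈ (Finset.range n).filter (fun k => 3 / 8 < lam k),
      16 ^ mg lam k * dens lam k ≤ 16 ^ 10 * (3 / 2) * (4 / 5) ^ ib lam k := by
    intro k hk
    rw [Finset.mem_filter] at hk
    have h2 := dens_bad lam h k hk.2
    have h3 : 1 ≤ ib lam k := by
      rw [bw_ib lam k hk.2]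
      omega
    have h4 := bw_sixteen (ib lam k)
    have h5 : (2 / 3 : ℝ) ^ (ib lam k - 1) = 3 / 2 * (2 / 3) ^ ib lam k := by
      obtain ⟨i, hi⟩ : ∃ i, ib lam k = i + 1 := ⟨ib lam k - 1, by omega⟩
      rw [hi, Nat.add_sub_cancel, pow_succ]
      ring
    rw [h5] at h2
    unfold mg
    rw [pow_add]
    calc (16 : ℝ) ^ 10 * 16 ^ (ib lam k / 16) * dens lam k
        ≤ 16 ^ 10 * (6 / 5) ^ ib lam k * (3 / 2 * (2 / 3) ^ ib lam k) := by
          have hs : 0 < side lam k := tk_side_pos lam (fun k => by linarith [(h k).1]) k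
          have hd0 : 0 ≤ dens lam k := by
            unfold dens
            positivity
          exact mul_le_mul (mul_le_mul_of_nonneg_left h4 (by positivity)) h2 hd0 (by positivity)
      _ = 16 ^ 10 * (3 / 2) * ((6 / 5) * (2 / 3)) ^ ib lam k := by rw [mul_pow]; ring
      _ = _ := by norm_num
  calc _ ≤ ∑ k ∈ (Finset.range n).filter (fun k => 3 / 8 < lam k),
        16 ^ 10 * (3 / 2) * (4 / 5 : ℝ) ^ ib lam k := Finset.sum_le_sum h1
    _ = 16 ^ 10 * (3 / 2) * ∑ k ∈ (Finset.range n).filter (fun k => 3 / 8 < lam k),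
        (4 / 5 : ℝ) ^ ib lam k := by rw [Finset.mul_sum]
    _ ≤ _ := mul_le_mul_of_nonneg_left (bw_geom_le lam (by norm_num) (by norm_num) n)
        (by positivity)

end Pool.Agent.VC
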