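import Pool.Agent.VC.Defs

set_option autoImplicit false

open MeasureTheory Set

namespace Pool.Agent.VC
namespace Sys

variable (S : Sys)

theorem r_pos (i : ℕ) : 0 < S.r i := add_pos (S.Ppos i) (S.Qpos i)

theorem r_le_P (i : ℕ) : S.r i ≤ 5 * S.P i := by
  unfold r; linarith [(S.ratio i).2]

theorem r_le_Q (i : ℕ) : S.r i ≤ 5 * S.Q i := by
  unfold r; linarith [(S.ratio i).1]

theorem P_le_r (i : ℕ) : S.P i ≤ S.r i := by
  unfold r; linarith [S.Qpos i]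

theorem Q_le_r (i : ℕ) : S.Q i ≤ S.r i := by
  unfold r; linarith [S.Ppos i]

theorem p_nonneg (i : ℕ) : 0 ≤ S.p i := by
  rcases S.dig i with ⟨h1, h2, h3⟩ | ⟨h1, h2, h3⟩
  · linarith [S.Ppos i]
  · rw [h1]

theorem q_nonneg (i : ℕ) : 0 ≤ S.q i := by
  rcases S.dig i with ⟨h1, h2, h3⟩ | ⟨h1, h2, h3⟩
  · rw [h1]
  · linarith [S.Qpos i]

theorem v_pos (i : ℕ) (t : ℝ) (ht : 0 < t) : 0 < S.v i t := by
  unfold v
  rcases S.dig i with ⟨h1, h2, h3⟩ | ⟨h1, h2, h3⟩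
  · rw [h1]; linarith [S.Ppos i]
  · rw [h1, zero_add]
    exact mul_pos ht (by linarith [S.Qpos i])

theorem L_pos (i : ℕ) (t : ℝ) (ht : 0 < t) : 0 < S.L i t :=
  add_pos (S.Ppos i) (mul_pos ht (S.Qpos i))

theorem L_eq (i : ℕ) (t : ℝ) : S.L i t = S.v (i + 1) t + S.L (i + 1) t := by
  unfold L v
  rw [S.hP i, S.hQ i]
  ring

theorem r_le_L (i : ℕ) (t : ℝ) (h1 : 1 ≤ t) : S.r i ≤ S.L i t := by
  unfold r L
  nlinarith [S.Qpos i]

theorem L_le_r (i : ℕ) (t : ℝ) (h1 : 1 ≤ t) (h2 : t ≤ 2) : S.L i t ≤ 2 * S.r i := by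
  unfold r L
  nlinarith [S.Qpos i, S.Ppos i]

theorem P_anti : Antitone S.P := by
  apply antitone_nat_of_succ_le
  intro n
  rw [S.hP n]
  linarith [S.p_nonneg (n + 1)]

theorem Q_anti : Antitone S.Q := by
  apply antitone_nat_of_succ_le
  intro n
  rw [S.hQ n]
  linarith [S.q_nonneg (n + 1)]

theorem r_anti : Antitone S.r := fun _ _ h => add_le_add (S.P_anti h) (S.Q_anti h)

theorem A_pos (i : ℕ) : 0 < S.A i := by
  unfold A
  have := mul_pos (S.Ppos i) (S.Qpos i)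
  positivity

/-- one generation, area -/
theorem area_step (i : ℕ) : S.P i * S.Q i ≤ 4 * (S.P (i + 1) * S.Q (i + 1)) := by
  have hP := S.Ppos (i + 1)
  have hQ := S.Qpos (i + 1)
  rw [S.hP i, S.hQ i]
  rcases S.dig (i + 1) with ⟨h1, h2, h3⟩ | ⟨h1, h2, h3⟩
  · rw [h1, zero_add]
    nlinarith
  · rw [h1, zero_add]
    nlinarith

theorem A_anti : Antitone S.A := by
  apply antitone_nat_of_succ_le
  intro i
  unfold A
  have h1 := mul_pos (S.Ppos i) (S.Qpos i)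
  apply one_div_le_one_div_of_le (by positivity)
  rw [pow_succ]
  have h2 := S.area_step i
  have h3 : (0 : ℝ) < 4 ^ i := by positivity
  nlinarith

theorem A_nonsep (i : ℕ) (h : ¬ S.sep (i + 1)) : S.A (i + 1) ≤ 5 / 6 * S.A i := by
  unfold sep at h
  push Not at h
  obtain ⟨hp, hq⟩ := h
  have hP := S.Ppos (i + 1)
  have hQ := S.Qpos (i + 1)
  have h0 := mul_pos (S.Ppos i) (S.Qpos i)
  have h1 := mul_pos hP hQ
  have hA : S.P i * S.Q i ≤ 10 / 3 * (S.P (i + 1) * S.Q (i + 1)) := by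
    rw [S.hP i, S.hQ i]
    rcases S.dig (i + 1) with ⟨h1, h2, h3⟩ | ⟨h1, h2, h3⟩
    · rw [h1, zero_add]
      nlinarith
    · rw [h1, zero_add]
      nlinarith
  have h3 : (0 : ℝ) < 4 ^ i := by positivity
  unfold A
  rw [mul_one_div, div_le_div_iff₀ (by positivity) (by positivity), pow_succ]
  nlinarith [mul_le_mul_of_nonneg_left hA h3.le]

theorem ta_pos (i : ℕ) : 0 < S.ta i := Real.sqrt_pos.2 (S.A_pos i)

theorem ta_sq (i : ℕ) : S.ta i ^ 2 = S.A i := Real.sq_sqrt (S.A_pos i).le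

theorem ta_anti : Antitone S.ta := fun _ _ h => Real.sqrt_le_sqrt (S.A_anti h)

/-- the square of the normalised size -/
theorem ta_r_sq (i : ℕ) : (2 ^ i * S.r i * S.ta i) ^ 2 * (S.P i * S.Q i) = S.r i ^ 2 := by
  have h1 := S.Ppos i
  have h2 := S.Qpos i
  rw [mul_pow, mul_pow, S.ta_sq i, ← pow_mul, mul_comm i 2, pow_mul]
  unfold A
  norm_num
  field_simp

theorem ta_r_lower (i : ℕ) : 2 ≤ 2 ^ i * S.r i * S.ta i := by
  have h1 := S.Ppos i
  have h2 := S.Qpos i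
  have h3 := S.ta_r_sq i
  have h4 : 0 < 2 ^ i * S.r i * S.ta i := by
    have := S.r_pos i
    have := S.ta_pos i
    positivity
  have h5 : (2 : ℝ) ^ 2 ≤ (2 ^ i * S.r i * S.ta i) ^ 2 := by
    have h6 : 2 ^ 2 * (S.P i * S.Q i) ≤ (2 ^ i * S.r i * S.ta i) ^ 2 * (S.P i * S.Q i) := by
      rw [h3]
      unfold r
      nlinarith [sq_nonneg (S.P i - S.Q i)]
    exact le_of_mul_le_mul_right h6 (mul_pos h1 h2)
  exact (sq_le_sq₀ (by norm_num) h4.le).1 h5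

theorem ta_r_upper (i : ℕ) : 2 ^ i * S.r i * S.ta i ≤ 5 / 2 := by
  have h1 := S.Ppos i
  have h2 := S.Qpos i
  have h3 := S.ta_r_sq i
  have h4 : 0 < 2 ^ i * S.r i * S.ta i := by
    have := S.r_pos i
    have := S.ta_pos i
    positivity
  have h5 : (2 ^ i * S.r i * S.ta i) ^ 2 ≤ (5 / 2 : ℝ) ^ 2 := by
    have h6 : (2 ^ i * S.r i * S.ta i) ^ 2 * (S.P i * S.Q i) ≤ (5 / 2) ^ 2 * (S.P i * S.Q i) := by
      rw [h3]
      unfold r
      nlinarith [mul_nonneg (sub_nonneg.2 (S.ratio i).1) (sub_nonneg.2 (S.ratio i).2)]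
    exact le_of_mul_le_mul_right h6 (mul_pos h1 h2)
  exact (sq_le_sq₀ h4.le (by norm_num)).1 h5

/-- area: `P_i Q_i ≤ 4 P_{i+1} Q_{i+1}`; iterate; `4PQ ≤ r² ≤ (25/4)PQ` -/
theorem r_lower (b j : ℕ) : 4 / 5 * S.r b ≤ 2 ^ j * S.r (b + j) := by
  have h1 := S.ta_r_lower (b + j)
  have h2 := S.ta_r_upper b
  have h3 : S.ta (b + j) ≤ S.ta b := S.ta_anti (by omega)
  have h4 := S.ta_pos (b + j)
  have h5 : (0 : ℝ) < 2 ^ b := by positivity
  have h6 := S.r_pos b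
  have h7 : 2 ^ b * S.r b * S.ta (b + j) ≤ 5 / 2 :=
    (mul_le_mul_of_nonneg_left h3 (by positivity)).trans h2
  rw [pow_add] at h1
  have h8 : 4 / 5 * S.r b * (2 ^ b * S.ta (b + j)) ≤ 2 ^ j * S.r (b + j) * (2 ^ b * S.ta (b + j)) := by
    nlinarith
  exact le_of_mul_le_mul_right h8 (by positivity)

end Sys
end Pool.Agent.VC
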