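import Pool.Agent.VC.VitaliS

/-!
# Removing the stacks of one block
-/

set_option autoImplicit false

open MeasureTheory Set

namespace Pool.Agent.VC

/-- product structure of the indices -/
theorem block_card (n j : ℕ) (F T : Finset ℕ) (hF : ∀ w ∈ F, w < 2 ^ n)
    (hT : ∀ s ∈ T, s < 2 ^ j) :
    ((Finset.range (2 ^ (n + j))).filter (fun i => i / 2 ^ j ∈ F ∧ i % 2 ^ j ∈ T)).card =
      F.card * T.card := by
  have hp : 0 < 2 ^ j := by positivity
  have h1 : (Finset.range (2 ^ (n + j))).filter (fun i => i / 2 ^ j ∈ F ∧ i % 2 ^ j ∈ T) =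
      (F ×ˢ T).image (fun z : ℕ × ℕ => z.1 * 2 ^ j + z.2) := by
    ext i
    rw [Finset.mem_filter, Finset.mem_range, Finset.mem_image]
    constructor
    · rintro ⟨_, h2, h3⟩
      refine ⟨(i / 2 ^ j, i % 2 ^ j), Finset.mk_mem_product h2 h3, ?_⟩
      exact Nat.div_add_mod' i (2 ^ j)
    · rintro ⟨⟨w, s⟩, hz, rfl⟩
      rw [Finset.mem_product] at hz
      obtain ⟨hw, hs⟩ := hz
      have h4 := hF w hw
      have h5 := hT s hs
      have h6 : (w * 2 ^ j + s) / 2 ^ j = w := by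
        rw [mul_comm, Nat.mul_add_div hp, Nat.div_eq_of_lt h5, add_zero]
      have h7 : (w * 2 ^ j + s) % 2 ^ j = s := by
        rw [mul_comm, Nat.mul_add_mod, Nat.mod_eq_of_lt h5]
      refine ⟨?_, ?_, ?_⟩
      · have h8 : (w + 1) * 2 ^ j ≤ 2 ^ n * 2 ^ j := Nat.mul_le_mul_right _ h4
        have h9 : w * 2 ^ j + 2 ^ j = (w + 1) * 2 ^ j := by ring
        rw [pow_add]
        change w * 2 ^ j + s < _
        omega
      · change (w * 2 ^ j + s) / 2 ^ j ∈ F
        rw [h6]; exact hw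
      · change (w * 2 ^ j + s) % 2 ^ j ∈ T
        rw [h7]; exact hs
  rw [h1, Finset.card_image_of_injOn, Finset.card_product]
  rintro ⟨w, s⟩ hz ⟨w', s'⟩ hz' h
  rw [Finset.mem_coe, Finset.mem_product] at hz hz'
  have h5 := hT s hz.2
  have h5' := hT s' hz'.2
  have h : w * 2 ^ j + s = w' * 2 ^ j + s' := h
  have h6 : (w * 2 ^ j + s) / 2 ^ j = w := by
    rw [mul_comm, Nat.mul_add_div hp, Nat.div_eq_of_lt h5, add_zero]
  have h6' : (w' * 2 ^ j + s') / 2 ^ j = w' := by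
    rw [mul_comm, Nat.mul_add_div hp, Nat.div_eq_of_lt h5', add_zero]
  have h7 : w = w' := by rw [← h6, h, h6']
  subst h7
  have h8 : s = s' := by omega
  rw [h8]

theorem mem_fam (v L : ℕ → ℝ) (n : ℕ) (F : Finset ℕ) (N : ℕ) (x : ℝ) :
    x ∈ fam v L n F N ↔ ∃ i, i < 2 ^ N ∧ i / 2 ^ (N - n) ∈ F ∧ x ∈ cell v L N i := by
  unfold fam
  simp only [mem_iUnion, Finset.mem_filter, Finset.mem_range, exists_prop]
  constructor
  · rintro ⟨i, ⟨h1, h2⟩, h3⟩
    exact ⟨i, h1, h2, h3⟩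
  · rintro ⟨i, h1, h2, h3⟩
    exact ⟨i, ⟨h1, h2⟩, h3⟩

theorem block_idx (n j N i : ℕ) (hN : n + j ≤ N) (hi : i < 2 ^ N) :
    i / 2 ^ (N - (n + j)) < 2 ^ (n + j) ∧
      i / 2 ^ (N - (n + j)) / 2 ^ j = i / 2 ^ (N - n) := by
  constructor
  · rw [Nat.div_lt_iff_lt_mul (by positivity), ← pow_add, Nat.add_sub_cancel' hN]
    exact hi
  · rw [Nat.div_div_eq_div_mul, ← pow_add]
    congr 2
    omega

/-- one block -/
theorem block (v L : ℕ → ℝ) (hv : ∀ i, 0 ≤ v i) (hL : ∀ i, L i = v (i + 1) + L (i + 1))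
    (hLp : ∀ i, 0 < L i) (n j N : ℕ) (hN : n + j ≤ N) (F : Finset ℕ) (hF : ∀ w ∈ F, w < 2 ^ n)
    (H β K : ℝ) (hH : 2 ≤ H) (hβ : 0 < β) (hK : 0 < K)
    (hb : ∀ i ≤ j, β * (2 ^ (n + i) * L (n + i)) ≤ K)
    (hX : 2 * H * (2 ^ j * L (n + j)) < ∫ x, cnt (sh n v) (sh n L) j x ^ 2) :
    ∃ F' : Finset ℕ, (∀ w ∈ F', w < 2 ^ (n + j)) ∧
      (F'.card : ℝ) ≤ (1 - 1 / (8 * H)) * (F.card * 2 ^ j) ∧
      volume (fam v L n F N) ≤ ENNReal.ofReal (15 * K * (F.card * 2 ^ j - F'.card) /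
        (2 ^ (n + j) * H * β)) + volume (fam v L (n + j) F' N) := by
  classical
  have hH0 : 0 < H := by linarith
  set D := DD (sh n v) (sh n L) H j with hD
  have hDsub : D ⊆ Finset.range (2 ^ j) := by
    rw [hD]
    unfold DD
    exact Finset.filter_subset _ _
  have hst := stackS (sh n v) (sh n L) (fun i => hv _) (fun i => hL (n + i)) (fun i => hLp _) j H
    hH hX
  rw [← hD] at hst
  set T := Finset.range (2 ^ j) \ D with hT
  have hTcard : T.card + D.card = 2 ^ j := by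
    rw [hT, Finset.card_sdiff_add_card_eq_card hDsub, Finset.card_range]
  have hTlt : ∀ s ∈ T, s < 2 ^ j := fun s hs => by
    rw [hT, Finset.mem_sdiff, Finset.mem_range] at hs
    exact hs.1
  set F' := (Finset.range (2 ^ (n + j))).filter (fun i => i / 2 ^ j ∈ F ∧ i % 2 ^ j ∈ T)
    with hF'
  have hc : F'.card = F.card * T.card := block_card n j F T hF hTlt
  have hTr : (T.card : ℝ) = 2 ^ j - D.card := by
    have : (T.card : ℝ) + D.card = 2 ^ j := by exact_mod_cast hTcard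
    linarith
  have hcr : (F'.card : ℝ) = F.card * (2 ^ j - D.card) := by
    rw [hc, Nat.cast_mul, hTr]
  refine ⟨F', fun w hw => ?_, ?_, ?_⟩
  · rw [hF', Finset.mem_filter, Finset.mem_range] at hw
    exact hw.1
  · rw [hcr]
    have h1 : (0 : ℝ) ≤ F.card := Nat.cast_nonneg _
    have h2 : (2 : ℝ) ^ j / (8 * H) ≤ D.card := by
      rw [div_le_iff₀ (by positivity)]
      linarith
    have h3 : (1 - 1 / (8 * H)) * ((F.card : ℝ) * 2 ^ j) =
        F.card * (2 ^ j - 2 ^ j / (8 * H)) := by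
      ring
    rw [h3]
    exact mul_le_mul_of_nonneg_left (by linarith) h1
  · have hV := vitaliS v L hv hL hLp n j F hF H β K hH0 hβ hK hb
    rw [← hD] at hV
    have h1 : (F.card : ℝ) * 2 ^ j - F'.card = F.card * D.card := by
      rw [hcr]
      ring
    rw [h1]
    have hsub : fam v L n F N ⊆
        {x | ∃ w ∈ F, ∃ k ≤ j, ∃ s < 2 ^ k, high (sh n v) (sh n L) H k s ∧
          x ∈ cell v L (n + k) (w * 2 ^ k + s)} ∪ fam v L (n + j) F' N := by
      intro x hx
      rw [mem_fam] at hx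
      obtain ⟨i, hi, hiF, hxi⟩ := hx
      obtain ⟨h2, h3⟩ := block_idx n j N i hN hi
      rw [← h3] at hiF
      set i1 := i / 2 ^ (N - (n + j)) with hi1
      by_cases hs : i1 % 2 ^ j ∈ D
      · left
        have hs' := hs
        rw [hD] at hs'
        unfold DD at hs'
        rw [Finset.mem_filter, Finset.mem_range] at hs'
        obtain ⟨hs1, k, hk, hhigh⟩ := hs'
        refine ⟨i1 / 2 ^ j, hiF, k, hk, i1 % 2 ^ j / 2 ^ (j - k), ?_, hhigh, ?_⟩
        · rw [Nat.div_lt_iff_lt_mul (by positivity), ← pow_add, Nat.add_sub_cancel' hk]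
          exact hs1
        · have e1 : i1 / 2 ^ j * 2 ^ k + i1 % 2 ^ j / 2 ^ (j - k) = i1 / 2 ^ (j - k) := by
            have e2 : i1 = 2 ^ (j - k) * (i1 / 2 ^ j * 2 ^ k) + i1 % 2 ^ j := by
              have e3 : 2 ^ (j - k) * (i1 / 2 ^ j * 2 ^ k) = i1 / 2 ^ j * 2 ^ j := by
                have e4 : 2 ^ j = 2 ^ k * 2 ^ (j - k) := by
                  rw [← pow_add, Nat.add_sub_cancel' hk]
                calc 2 ^ (j - k) * (i1 / 2 ^ j * 2 ^ k) = i1 / 2 ^ j * (2 ^ k * 2 ^ (j - k)) := by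
                      ring
                  _ = i1 / 2 ^ j * 2 ^ j := by rw [← e4]
              rw [e3]
              exact (Nat.div_add_mod' i1 (2 ^ j)).symm
            conv_rhs => rw [e2]
            rw [Nat.mul_add_div (by positivity)]
          have e5 : i1 / 2 ^ (j - k) = i / 2 ^ (N - (n + k)) := by
            rw [hi1, Nat.div_div_eq_div_mul, ← pow_add]
            congr 2
            omega
          rw [e1, e5]
          have e6 := cell_anc v L hv hL (n + k) (N - (n + k)) i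
          rw [Nat.add_sub_cancel' (by omega)] at e6
          exact e6 hxi
      · right
        rw [mem_fam]
        refine ⟨i, hi, ?_, hxi⟩
        rw [hF', Finset.mem_filter, Finset.mem_range]
        refine ⟨h2, hiF, ?_⟩
        rw [hT, Finset.mem_sdiff, Finset.mem_range]
        exact ⟨Nat.mod_lt _ (by positivity), hs⟩
    calc volume (fam v L n F N) ≤ volume ({x | ∃ w ∈ F, ∃ k ≤ j, ∃ s < 2 ^ k,
            high (sh n v) (sh n L) H k s ∧ x ∈ cell v L (n + k) (w * 2 ^ k + s)} ∪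
              fam v L (n + j) F' N) := measure_mono hsub
      _ ≤ _ := (measure_union_le _ _).trans (add_le_add_left hV _)

/-- passing to all descendants -/
theorem restart (v L : ℕ → ℝ) (n j N : ℕ) (hN : n + j ≤ N) (F : Finset ℕ)
    (hF : ∀ w ∈ F, w < 2 ^ n) :
    ∃ F' : Finset ℕ, (∀ w ∈ F', w < 2 ^ (n + j)) ∧ (F'.card : ℝ) = F.card * 2 ^ j ∧
      fam v L (n + j) F' N = fam v L n F N := by
  refine ⟨(Finset.range (2 ^ (n + j))).filter
    (fun i => i / 2 ^ j ∈ F ∧ i % 2 ^ j ∈ Finset.range (2 ^ j)), fun w hw => ?_, ?_, ?_⟩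
  · rw [Finset.mem_filter, Finset.mem_range] at hw
    exact hw.1
  · rw [block_card n j F _ hF (fun s hs => Finset.mem_range.1 hs), Finset.card_range]
    push_cast
    rfl
  · ext x
    rw [mem_fam, mem_fam]
    constructor
    · rintro ⟨i, hi, hiF, hxi⟩
      obtain ⟨_, h3⟩ := block_idx n j N i hN hi
      rw [Finset.mem_filter] at hiF
      refine ⟨i, hi, ?_, hxi⟩
      rw [← h3]
      exact hiF.2.1
    · rintro ⟨i, hi, hiF, hxi⟩
      obtain ⟨h2, h3⟩ := block_idx n j N i hN hi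
      refine ⟨i, hi, ?_, hxi⟩
      rw [Finset.mem_filter, Finset.mem_range, Finset.mem_range, h3]
      exact ⟨h2, hiF, Nat.mod_lt _ (by positivity)⟩

/-- trivial bound -/
theorem fam_triv (v L : ℕ → ℝ) (hv : ∀ i, 0 ≤ v i) (hL : ∀ i, L i = v (i + 1) + L (i + 1))
    (hLp : ∀ i, 0 < L i) (n N : ℕ) (hN : n ≤ N) (F : Finset ℕ) :
    volume (fam v L n F N) ≤ ENNReal.ofReal (F.card * L n) := by
  have hsub : fam v L n F N ⊆ ⋃ w ∈ F, cell v L n w := by
    intro x hx
    rw [mem_fam] at hx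
    obtain ⟨i, _, hiF, hxi⟩ := hx
    have e6 := cell_anc v L hv hL n (N - n) i
    rw [Nat.add_sub_cancel' hN] at e6
    exact mem_biUnion hiF (e6 hxi)
  calc volume (fam v L n F N) ≤ volume (⋃ w ∈ F, cell v L n w) := measure_mono hsub
    _ ≤ ∑ w ∈ F, volume (cell v L n w) := measure_biUnion_finset_le _ _
    _ = ∑ _w ∈ F, ENNReal.ofReal (L n) := by
        refine Finset.sum_congr rfl fun w _ => ?_
        unfold cell
        rw [Real.volume_Icc]
        congr 1
        ring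
    _ = ENNReal.ofReal (F.card * L n) := by
        rw [Finset.sum_const, nsmul_eq_mul, ENNReal.ofReal_mul (Nat.cast_nonneg _),
          ENNReal.ofReal_natCast]

end Pool.Agent.VC
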