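import Pool.Agent.VC.TreeSup
import Pool.Agent.H52F.Cap

/-!
# Project VC: the limit of the discrete Cauchy transforms (helper63)
-/

set_option autoImplicit false

open MeasureTheory Set Filter Topology

namespace Pool.Agent.VC

/-- differentiability of the Cauchy transform -/
private theorem cl_diff {K : Set ℂ} (hK : IsCompact K) (hKne : K.Nonempty) (m : Measure ℂ)
    [IsFiniteMeasure m] : DifferentiableOn ℂ (fun z => ∫ y in K, (z - y)⁻¹ ∂m) Kᶜ := by
  intro z₀ hz₀
  have hε : 0 < Metric.infDist z₀ K := (hK.isClosed.notMem_iff_infDist_pos hKne).1 hz₀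
  set ε := Metric.infDist z₀ K with hεdef
  have hdist : ∀ z ∈ Metric.ball z₀ (ε / 2), ∀ y ∈ K, ε / 2 ≤ ‖z - y‖ := by
    intro z hz y hy
    have h1 : ε ≤ dist z₀ y := Metric.infDist_le_dist_of_mem hy
    have h2 : dist z₀ y ≤ dist z₀ z + dist z y := dist_triangle _ _ _
    rw [Metric.mem_ball, dist_comm] at hz
    rw [← dist_eq_norm]
    linarith
  have key := hasDerivAt_integral_of_dominated_loc_of_deriv_le (𝕜 := ℂ)
    (μ := m.restrict K) (F := fun z y => (z - y)⁻¹)
    (F' := fun z y => -((z - y) ^ 2)⁻¹) (x₀ := z₀) (s := Metric.ball z₀ (ε / 2))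
    (bound := fun _ => ((ε / 2) ^ 2)⁻¹)
    (Metric.ball_mem_nhds z₀ (by positivity)) ?_ ?_ ?_ ?_ ?_ ?_
  · exact (key.2.differentiableAt).differentiableWithinAt
  · exact Eventually.of_forall fun z => by
      apply Measurable.aestronglyMeasurable; fun_prop
  · apply Integrable.mono' (g := fun _ => (ε / 2)⁻¹) (integrable_const _)
    · apply Measurable.aestronglyMeasurable; fun_prop
    · rw [ae_restrict_iff' hK.measurableSet]
      refine Eventually.of_forall fun y hy => ?_
      rw [norm_inv]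
      have := hdist z₀ (Metric.mem_ball_self (by positivity)) y hy
      gcongr
  · apply Measurable.aestronglyMeasurable; fun_prop
  · rw [ae_restrict_iff' hK.measurableSet]
    refine Eventually.of_forall fun y hy z hz => ?_
    rw [norm_neg, norm_inv, norm_pow]
    have := hdist z hz y hy
    gcongr
  · exact integrable_const _
  · rw [ae_restrict_iff' hK.measurableSet]
    refine Eventually.of_forall fun y hy z hz => ?_
    have h1 := hdist z hz y hy
    have h2 : z - y ≠ 0 := by
      intro h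
      rw [h, norm_zero] at h1
      linarith
    have h3 : HasDerivAt (fun x : ℂ => (x - y)⁻¹) (-1 / (z - y) ^ 2) z :=
      ((hasDerivAt_id' z).sub_const y).fun_inv h2
    rwa [neg_div, one_div] at h3

/-- behaviour at infinity -/
private theorem cl_inf {K : Set ℂ} (hK : IsCompact K) (hKne : K.Nonempty) (m : Measure ℂ)
    [IsFiniteMeasure m] : Tendsto (fun z : ℂ => z * ∫ y in K, (z - y)⁻¹ ∂m) (cocompact ℂ)
      (𝓝 (m.real K : ℂ)) := by
  obtain ⟨R, hR⟩ := hK.isBounded.exists_norm_le
  have hR0 : 0 ≤ R := by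
    obtain ⟨x, hx⟩ := hKne
    exact (norm_nonneg x).trans (hR x hx)
  rw [tendsto_iff_norm_sub_tendsto_zero]
  have hlim : Tendsto (fun z : ℂ => m.real K * (R / (‖z‖ - R))) (cocompact ℂ) (𝓝 0) := by
    rw [show (0:ℝ) = m.real K * 0 by simp]
    apply Tendsto.const_mul
    apply Tendsto.div_atTop tendsto_const_nhds
    exact tendsto_atTop_add_const_right _ _ tendsto_norm_cocompact_atTop
  apply squeeze_zero' (Eventually.of_forall fun z => norm_nonneg _) _ hlim
  filter_upwards [tendsto_norm_cocompact_atTop.eventually_gt_atTop R] with z hz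
  have hne : ∀ y ∈ K, z - y ≠ 0 := by
    intro y hy h
    have : z = y := sub_eq_zero.1 h
    have := hR y hy
    rw [← ‹z = y›] at this
    linarith
  have hlow : ∀ y ∈ K, ‖z‖ - R ≤ ‖z - y‖ := by
    intro y hy
    have h1 := norm_sub_norm_le z y
    have h2 := hR y hy
    linarith
  have hint : Integrable (fun y => (z - y)⁻¹) (m.restrict K) := by
    apply Integrable.mono' (g := fun _ => (‖z‖ - R)⁻¹) (integrable_const _)
    · apply Measurable.aestronglyMeasurable; fun_prop
    · rw [ae_restrict_iff' hK.measurableSet]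
      refine Eventually.of_forall fun y hy => ?_
      rw [norm_inv]
      have := hlow y hy
      have h0 : 0 < ‖z‖ - R := by linarith
      gcongr
  have h2 : z * ∫ y in K, (z - y)⁻¹ ∂m - (m.real K : ℂ) =
      ∫ y in K, (z * (z - y)⁻¹ - 1) ∂m := by
    rw [integral_sub (hint.const_mul z) (integrable_const _), integral_const_mul]
    simp
  rw [h2]
  have h3 : ∀ᵐ y ∂(m.restrict K), ‖z * (z - y)⁻¹ - 1‖ ≤ R / (‖z‖ - R) := by
    rw [ae_restrict_iff' hK.measurableSet]
    refine Eventually.of_forall fun y hy => ?_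
    have h4 : z * (z - y)⁻¹ - 1 = y * (z - y)⁻¹ := by
      have := hne y hy
      field_simp
      ring
    rw [h4, norm_mul, norm_inv, ← div_eq_mul_inv]
    have h5 := hlow y hy
    have h6 := hR y hy
    have h0 : 0 < ‖z‖ - R := by linarith
    gcongr
  have h4 := norm_integral_le_of_norm_le_const h3
  simp only [measureReal_restrict_apply_univ] at h4
  linarith [h4]

/-- the test function -/
private theorem cl_test {K : Set ℂ} (w : ℂ) (d : ℝ) (hd : 0 < d) (h : ∀ z ∈ K, d ≤ ‖w - z‖) :
    ∃ g : BoundedContinuousFunction ℂ ℂ, ∀ z ∈ K, g z = (w - z)⁻¹ := by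
  have hpos : ∀ z : ℂ, 0 < max (‖w - z‖ ^ 2) (d ^ 2) := fun z =>
    lt_of_lt_of_le (by positivity) (le_max_right _ _)
  refine ⟨BoundedContinuousFunction.ofNormedAddCommGroup
    (fun z : ℂ => (starRingEnd ℂ) (w - z) * (((max (‖w - z‖ ^ 2) (d ^ 2))⁻¹ : ℝ) : ℂ)) ?_ (1 / d)
    ?_, ?_⟩
  · refine Continuous.mul (by fun_prop) ?_
    refine Complex.continuous_ofReal.comp ?_
    refine Continuous.inv₀ (by fun_prop) fun z => (hpos z).ne'
  · intro z
    rw [norm_mul, RCLike.norm_conj, Complex.norm_real, Real.norm_of_nonneg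
      (inv_nonneg.2 (hpos z).le), ← div_eq_mul_inv, div_le_div_iff₀ (hpos z) hd, one_mul]
    rcases le_total d ‖w - z‖ with h1 | h1
    · refine le_trans ?_ (le_max_left _ _)
      nlinarith [norm_nonneg (w - z)]
    · refine le_trans ?_ (le_max_right _ _)
      nlinarith [norm_nonneg (w - z)]
  · intro z hz
    have h1 := h z hz
    have h2 : max (‖w - z‖ ^ 2) (d ^ 2) = ‖w - z‖ ^ 2 :=
      max_eq_left (pow_le_pow_left₀ hd.le h1 2)
    simp only [BoundedContinuousFunction.coe_ofNormedAddCommGroup]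
    rw [h2, Complex.inv_def, Complex.normSq_eq_norm_sq]

private theorem cl_digits (lam : ℕ → ℝ) (n : ℕ) : ∀ i : ℕ,
    (∃ e : ℕ → ℝ, (∀ k, e k = 0 ∨ e k = 1) ∧ (∀ k, n ≤ k → e k = 0) ∧
      (ctr lam n i).re = ∑ k ∈ Finset.range n, e k * (side lam k - side lam (k + 1))) ∧
    (∃ e : ℕ → ℝ, (∀ k, e k = 0 ∨ e k = 1) ∧ (∀ k, n ≤ k → e k = 0) ∧
      (ctr lam n i).im = ∑ k ∈ Finset.range n, e k * (side lam k - side lam (k + 1))) := by
  have key : ∀ (n : ℕ) (x l : ℝ) (c : ℕ) (hc : c = 0 ∨ c = 1), 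
      (∃ e : ℕ → ℝ, (∀ k, e k = 0 ∨ e k = 1) ∧ (∀ k, n ≤ k → e k = 0) ∧
        x = ∑ k ∈ Finset.range n, e k * (side lam k - side lam (k + 1))) →
      l = side lam n - side lam (n + 1) →
      (∃ e : ℕ → ℝ, (∀ k, e k = 0 ∨ e k = 1) ∧ (∀ k, n + 1 ≤ k → e k = 0) ∧
        x + l * c = ∑ k ∈ Finset.range (n + 1), e k * (side lam k - side lam (k + 1))) := by
    rintro n x l c hc ⟨e, he1, he2, he3⟩ hl
    refine ⟨fun k => if k = n then (c : ℝ) else e k, ?_, ?_, ?_⟩
    · intro k
      by_cases hk : k = n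
      · simp only [hk, if_true]
        rcases hc with rfl | rfl
        · left; simp
        · right; simp
      · simp only [hk, if_false]
        exact he1 k
    · intro k hk
      have : k ≠ n := by omega
      simp only [this, if_false]
      exact he2 k (by omega)
    · rw [Finset.sum_range_succ, he3, hl]
      congr 1
      · refine Finset.sum_congr rfl fun k hk => ?_
        have : k ≠ n := (Finset.mem_range.1 hk).ne
        simp only [this, if_false]
      · simp only [if_true]
        ring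
  induction n with
  | zero =>
    intro i
    constructor
    · exact ⟨fun _ => 0, fun _ => Or.inl rfl, fun _ _ => rfl, by simp [ctr]⟩
    · exact ⟨fun _ => 0, fun _ => Or.inl rfl, fun _ _ => rfl, by simp [ctr]⟩
  | succ n ih =>
    intro i
    have h1 := key n (ctr lam n (i / 4)).re (side lam n - side lam (n + 1)) ((i % 4) % 2)
      (Nat.mod_two_eq_zero_or_one _) (ih (i / 4)).1 rfl
    have h2 := key n (ctr lam n (i / 4)).im (side lam n - side lam (n + 1)) ((i % 4) / 2)
      (by omega) (ih (i / 4)).2 rfl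
    have e1 : (ctr lam (n + 1) i).re = (ctr lam n (i / 4)).re +
        (side lam n - side lam (n + 1)) * ((i % 4) % 2 : ℕ) := by
      simp only [ctr]
      rw [Complex.add_re, Complex.re_ofReal_mul]
      congr 2
      simp
    have e2 : (ctr lam (n + 1) i).im = (ctr lam n (i / 4)).im +
        (side lam n - side lam (n + 1)) * ((i % 4) / 2 : ℕ) := by
      simp only [ctr]
      rw [Complex.add_im, Complex.im_ofReal_mul]
      congr 2
      simp
    rw [e1, e2]
    exact ⟨h1, h2⟩

private theorem cl_ctr (lam : ℕ → ℝ) (n i : ℕ) : ctr lam n i ∈ corner lam := by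
  obtain ⟨⟨e, he1, he2, he3⟩, ⟨e', he1', he2', he3'⟩⟩ := cl_digits lam n i
  constructor
  · refine ⟨e, he1, ?_⟩
    rw [he3]
    refine hasSum_sum_of_ne_finset_zero fun k hk => ?_
    rw [he2 k (by simpa using hk), zero_mul]
  · refine ⟨e', he1', ?_⟩
    rw [he3']
    refine hasSum_sum_of_ne_finset_zero fun k hk => ?_
    rw [he2' k (by simpa using hk), zero_mul]

/-- the discrete measures -/
private noncomputable def clm (lam : ℕ → ℝ) (n : ℕ) (h : Fin (4 ^ n) → ℝ) : Measure ℂ :=
  ∑ y, ENNReal.ofReal (h y / 4 ^ n) • Measure.dirac (ctr lam n y)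

private instance (lam : ℕ → ℝ) (n : ℕ) (h : Fin (4 ^ n) → ℝ) : IsFiniteMeasure (clm lam n h) := by
  refine ⟨?_⟩
  unfold clm
  rw [Measure.finsetSum_apply]
  refine ENNReal.sum_lt_top.2 fun y _ => ?_
  simp

/-- passing to the limit of the discrete Cauchy transforms -/
theorem capLim (κ : ℝ) (hκ : κ < 1 / 2) (lam : ℕ → ℝ) (hl : ∀ k, 1 / 4 ≤ lam k ∧ lam k ≤ κ)
    (M : ℝ) (hM : 0 < M) (h : ∀ n, Fin (4 ^ n) → ℝ) (h01 : ∀ n x, 0 ≤ h n x ∧ h n x ≤ 1)
    (hav : ∀ n, 1 / 2 ≤ av (h n))
    (hb : ∀ n (w : ℂ), (∀ y, side lam n ≤ ‖w - ctr lam n y‖) → ‖Cau lam n (h n) w‖ ≤ M) :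
    ENNReal.ofReal (1 / (2 * M)) ≤ H52F.anCap (corner lam) := by
  have hl2 : ∀ k, 0 < lam k ∧ lam k ≤ 1 / 2 := fun k =>
    ⟨by linarith [(hl k).1], by linarith [(hl k).2]⟩
  have hK : IsCompact (corner lam) := isCompact_corner lam hl2
  have hKne : (corner lam).Nonempty := ⟨_, cl_ctr lam 0 0⟩
  -- the measures
  let ν : ℕ → FiniteMeasure ℂ := fun n => ⟨clm lam n (h n), inferInstance⟩
  have hcard : ∀ n, av (h n) = ∑ y, h n y / 4 ^ n := by
    intro n
    unfold av
    rw [Fintype.card_fin, Finset.sum_div]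
    push_cast
    rfl
  have hmass : ∀ n, ((ν n).mass : ℝ) = av (h n) := by
    intro n
    have e1 : ((ν n).mass : ENNReal) = clm lam n (h n) univ := by
      rw [FiniteMeasure.ennreal_mass]
      rfl
    have e2 : clm lam n (h n) univ = ENNReal.ofReal (av (h n)) := by
      unfold clm
      rw [Measure.finsetSum_apply, hcard, ENNReal.ofReal_sum_of_nonneg]
      · refine Finset.sum_congr rfl fun y _ => ?_
        simp
      · intro y _
        have := (h01 n y).1
        positivity
    rw [e2] at e1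
    have e3 : 0 ≤ av (h n) := by linarith [hav n]
    have := congrArg ENNReal.toReal e1
    rwa [ENNReal.coe_toReal, ENNReal.toReal_ofReal e3] at this
  have hav1 : ∀ n, av (h n) ≤ 1 := by
    intro n
    rw [hcard]
    calc ∑ y, h n y / 4 ^ n ≤ ∑ _y : Fin (4 ^ n), (1 : ℝ) / 4 ^ n :=
          Finset.sum_le_sum fun y _ => div_le_div_of_nonneg_right (h01 n y).2 (by positivity)
      _ = 1 := by simp
  have hT : ∀ n, ν n ∈ {μ : FiniteMeasure ℂ | μ.mass ≤ 1 ∧ μ (corner lam)ᶜ = 0} := by
    intro n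
    refine ⟨?_, ?_⟩
    · have := hmass n
      have h2 := hav1 n
      rw [← this] at h2
      exact_mod_cast h2
    · rw [FiniteMeasure.null_iff_toMeasure_null]
      change clm lam n (h n) (corner lam)ᶜ = 0
      unfold clm
      rw [Measure.finsetSum_apply]
      refine Finset.sum_eq_zero fun y _ => ?_
      rw [Measure.smul_apply, Measure.dirac_apply' _ hK.measurableSet.compl,
        Set.indicator_of_notMem (notMem_compl_iff.2 (cl_ctr lam n y)), smul_zero]
  have hTc := isCompact_setOfPred_finiteMeasure_le_of_isCompact (1 : NNReal) hK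
  let U : Ultrafilter ℕ := hyperfilter ℕ
  obtain ⟨μ, hμT, hμ⟩ := hTc.ultrafilter_le_nhds (U.map ν) (by
    rw [le_principal_iff]
    exact Filter.univ_mem' (f := (U : Filter ℕ)) hT)
  have hlim : Tendsto ν U (𝓝 μ) := hμ
  have hUat : (U : Filter ℕ) ≤ atTop := by
    rw [← Nat.cofinite_eq_atTop]
    exact hyperfilter_le_cofinite
  let m : Measure ℂ := (μ : Measure ℂ)
  have hmK : m (corner lam)ᶜ = 0 := (FiniteMeasure.null_iff_toMeasure_null _ _).1 hμT.2
  have hm : 1 / 2 ≤ m.real (corner lam) := by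
    have h1 : Tendsto (fun n => ((ν n).mass : ℝ)) U (𝓝 (μ.mass : ℝ)) :=
      (NNReal.continuous_coe.tendsto _).comp ((FiniteMeasure.continuous_mass.tendsto _).comp hlim)
    have h2 : 1 / 2 ≤ (μ.mass : ℝ) :=
      ge_of_tendsto h1 (Filter.Eventually.of_forall fun n => by rw [hmass]; exact hav n)
    have h3 : (μ.mass : ℝ) = m.real univ := rfl
    have h4 : m.real univ = m.real (corner lam) := by
      rw [measureReal_def, measureReal_def]
      congr 1
      have := measure_add_measure_compl (μ := m) hK.measurableSet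
      rw [hmK, add_zero] at this
      exact this.symm
    rw [h3, h4] at h2
    exact h2
  have hbd : ∀ w ∈ (corner lam)ᶜ, ‖∫ y in corner lam, (w - y)⁻¹ ∂m‖ ≤ M := by
    intro w hw
    have hd : 0 < Metric.infDist w (corner lam) :=
      (hK.isClosed.notMem_iff_infDist_pos hKne).1 hw
    set d := Metric.infDist w (corner lam) with hddef
    have hdist : ∀ z ∈ corner lam, d ≤ ‖w - z‖ := by
      intro z hz
      rw [← dist_eq_norm]
      exact Metric.infDist_le_dist_of_mem hz
    obtain ⟨g, hg⟩ := cl_test w d hd hdist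
    have h1 : Tendsto (fun n => ∫ z, g z ∂(ν n : Measure ℂ)) U (𝓝 (∫ z, g z ∂m)) :=
      (FiniteMeasure.tendsto_iff_forall_integral_rclike_tendsto ℂ).1 hlim g
    have h2 : ∀ n, ∫ z, g z ∂(ν n : Measure ℂ) = Cau lam n (h n) w := by
      intro n
      change ∫ z, g z ∂(clm lam n (h n)) = _
      unfold clm Cau
      rw [integral_finsetSum_measure]
      · rw [Finset.sum_div]
        refine Finset.sum_congr rfl fun y _ => ?_
        have h5 := (h01 n y).1
        rw [integral_smul_measure, integral_dirac, hg _ (cl_ctr lam n y),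
          ENNReal.toReal_ofReal (by positivity), Complex.real_smul]
        push_cast
        ring
      · intro y _
        refine Integrable.smul_measure ?_ ENNReal.ofReal_ne_top
        exact g.integrable _
    have h3 : ∫ z, g z ∂m = ∫ y in corner lam, (w - y)⁻¹ ∂m := by
      have h6 : m.restrict (corner lam) = m := by
        rw [Measure.restrict_eq_self_of_ae_mem]
        exact hmK
      nth_rw 1 [← h6]
      exact setIntegral_congr_fun hK.measurableSet fun y hy => hg y hy
    rw [← h3]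
    refine le_of_tendsto h1.norm ?_
    have h7 : Tendsto (side lam) atTop (𝓝 0) := by
      refine squeeze_zero (fun k => (side_pos lam (fun k => (hl2 k).1) k).le)
        (fun k => side_le lam hl2 k) ?_
      exact tendsto_pow_atTop_nhds_zero_of_lt_one (by norm_num) (by norm_num)
    have h8 : ∀ᶠ n in (U : Filter ℕ), side lam n < d := hUat (h7.eventually_lt_const hd)
    refine h8.mono fun n hn => ?_
    rw [h2]
    exact hb n w fun y => hn.le.trans (hdist _ (cl_ctr lam n y))
  have hfin : ENNReal.ofReal (1 / (2 * M)) ≤ ‖((M⁻¹ : ℝ) : ℂ) * (m.real (corner lam) : ℂ)‖ₑ := by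
    rw [← ofReal_norm, norm_mul, Complex.norm_real, Complex.norm_real,
      Real.norm_of_nonneg (inv_nonneg.2 hM.le), Real.norm_of_nonneg (by positivity)]
    refine ENNReal.ofReal_le_ofReal ?_
    have e : 1 / (2 * M) = M⁻¹ * (1 / 2) := by
      field_simp
    rw [e]
    exact mul_le_mul_of_nonneg_left hm (inv_nonneg.2 hM.le)
  refine hfin.trans (le_sSup ⟨fun z => ((M⁻¹ : ℝ) : ℂ) * ∫ y in corner lam, (z - y)⁻¹ ∂m, 0,
    ((M⁻¹ : ℝ) : ℂ) * (m.real (corner lam) : ℂ), ?_, ?_, ?_, rfl⟩)
  · exact (cl_diff hK hKne m).const_mul _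
  · intro z hz
    rw [norm_mul, Complex.norm_real, Real.norm_of_nonneg (inv_nonneg.2 hM.le),
      inv_mul_le_iff₀ hM, mul_one]
    exact hbd z hz
  · have h1 : (fun z : ℂ => z * (((M⁻¹ : ℝ) : ℂ) * (∫ y in corner lam, (z - y)⁻¹ ∂m) - 0)) =
        fun z : ℂ => ((M⁻¹ : ℝ) : ℂ) * (z * ∫ y in corner lam, (z - y)⁻¹ ∂m) := by
      funext z
      ring
    rw [h1]
    exact (cl_inf hK hKne m).const_mul _

end Pool.Agent.VC
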