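import Pool.Agent.VC.Defs

set_option autoImplicit false

open MeasureTheory Set

namespace Pool.Agent.VC

/-- antisymmetry -/
private theorem td_swap {X : Type} [Fintype X] (K : X → X → ℝ) (h : ∀ x y, K y x = - K x y)
    (ν f : X → ℝ) : ∑ x, ν x * op K f x = - ∑ x, f x * op K ν x := by
  unfold op
  have h1 : ∑ x, ν x * ((∑ y, K x y * f y) / Fintype.card X) =
      (∑ x, ∑ y, ν x * K x y * f y) / Fintype.card X := by
    rw [Finset.sum_div]
    refine Finset.sum_congr rfl fun x _ => ?_
    rw [← mul_div_assoc, Finset.mul_sum]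
    congr 1
    exact Finset.sum_congr rfl fun y _ => by ring
  have h2 : ∑ x, f x * ((∑ y, K x y * ν y) / Fintype.card X) =
      (∑ x, ∑ y, f x * K x y * ν y) / Fintype.card X := by
    rw [Finset.sum_div]
    refine Finset.sum_congr rfl fun x _ => ?_
    rw [← mul_div_assoc, Finset.mul_sum]
    congr 1
    exact Finset.sum_congr rfl fun y _ => by ring
  rw [h1, h2, ← neg_div, Finset.sum_comm, ← Finset.sum_neg_distrib]
  congr 1
  refine Finset.sum_congr rfl fun y _ => ?_
  rw [← Finset.sum_neg_distrib]
  refine Finset.sum_congr rfl fun x _ => ?_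
  rw [h y x]
  ring

/-- duality: finite dimensional Hahn-Banach (two antisymmetric kernels at once) -/
theorem treeDual {X : Type} [Fintype X] [Nonempty X] (K1 K2 : X → X → ℝ)
    (h1 : ∀ x y, K1 y x = - K1 x y) (h2 : ∀ x y, K2 y x = - K2 x y) (W : ℝ) (hW : 0 < W)
    (hw1 : ∀ (f : X → ℝ) (l : ℝ), 0 < l →
      l * ((Finset.univ.filter (fun x => l < |op K1 f x|)).card / Fintype.card X) ≤
        W * av (fun x => |f x|))
    (hw2 : ∀ (f : X → ℝ) (l : ℝ), 0 < l →
      l * ((Finset.univ.filter (fun x => l < |op K2 f x|)).card / Fintype.card X) ≤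
        W * av (fun x => |f x|)) :
    ∃ h : X → ℝ, (∀ x, 0 ≤ h x ∧ h x ≤ 1) ∧ 1 / 2 ≤ av h ∧
      (∀ x, |op K1 h x| ≤ 16 * W) ∧ ∀ x, |op K2 h x| ≤ 16 * W := by
  classical
  have hn : (0 : ℝ) < Fintype.card X := by exact_mod_cast Fintype.card_pos
  -- the linear map
  let Φ : (X → ℝ) →ₗ[ℝ] (X ⊕ X → ℝ) :=
    { toFun := fun h => Sum.elim (op K1 h) (op K2 h)
      map_add' := by
        intro f g
        funext k
        rcases k with x | x <;>
        · simp only [Sum.elim_inl, Sum.elim_inr, Pi.add_apply, op, mul_add, Finset.sum_add_distrib,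
            add_div]
      map_smul' := by
        intro c f
        funext k
        rcases k with x | x <;>
        · simp only [Sum.elim_inl, Sum.elim_inr, Pi.smul_apply, op, smul_eq_mul, RingHom.id_apply,
            mul_left_comm _ c, ← Finset.mul_sum, mul_div_assoc] }
  have hΦ1 : ∀ h x, Φ h (Sum.inl x) = op K1 h x := fun h x => rfl
  have hΦ2 : ∀ h x, Φ h (Sum.inr x) = op K2 h x := fun h x => rfl
  have hΦc : Continuous Φ := LinearMap.continuous_of_finiteDimensional Φ
  let avL : (X → ℝ) →ₗ[ℝ] ℝ :=
    { toFun := fun h => av h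
      map_add' := by
        intro f g
        simp only [av, Pi.add_apply, Finset.sum_add_distrib, add_div]
      map_smul' := by
        intro c f
        simp only [av, Pi.smul_apply, smul_eq_mul, RingHom.id_apply, ← Finset.mul_sum,
          mul_div_assoc] }
  have havc : Continuous avL := LinearMap.continuous_of_finiteDimensional avL
  set A0 : Set (X → ℝ) := Set.Icc 0 1 ∩ {h | 1 / 2 ≤ avL h} with hA0
  have hA0c : IsCompact A0 :=
    isCompact_Icc.inter_right (isClosed_le continuous_const havc)
  have hA0v : Convex ℝ A0 := (convex_Icc 0 1).inter (convex_halfSpace_ge avL.isLinear _)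
  have hAc : IsCompact (Φ '' A0) := hA0c.image hΦc
  have hAv : Convex ℝ (Φ '' A0) := hA0v.linear_image Φ
  by_cases hd : Disjoint (Φ '' A0) (Metric.closedBall (0 : X ⊕ X → ℝ) (16 * W))
  · exfalso
    obtain ⟨f, u, v, hfA, huv, hfB⟩ := geometric_hahn_banach_compact_closed hAv hAc
      (convex_closedBall 0 (16 * W)) Metric.isClosed_closedBall hd
    -- coordinates of the functional
    set ν1 : X → ℝ := fun x => f (Pi.single (Sum.inl x) 1) with hν1
    set ν2 : X → ℝ := fun x => f (Pi.single (Sum.inr x) 1) with hν2
    have hf : ∀ w : X ⊕ X → ℝ, f w = ∑ x, ν1 x * w (Sum.inl x) + ∑ x, ν2 x * w (Sum.inr x) := by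
      intro w
      have e1 : w = ∑ k, w k • (Pi.single k (1 : ℝ) : X ⊕ X → ℝ) := by
        funext k
        rw [Finset.sum_apply, Finset.sum_eq_single k]
        · simp
        · intro j _ hj
          simp [hj.symm]
        · intro h; exact absurd (Finset.mem_univ k) h
      conv_lhs => rw [e1]
      rw [map_sum, Fintype.sum_sum_type]
      simp only [map_smul, smul_eq_mul]
      congr 1 <;> exact Finset.sum_congr rfl fun x _ => mul_comm _ _
    set U : ℝ := av (fun x => |ν1 x|) + av (fun x => |ν2 x|) with hU
    have hUeq : ∑ x, |ν1 x| + ∑ x, |ν2 x| = Fintype.card X * U := by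
      rw [hU]
      unfold av
      field_simp
    have hU1 : 0 ≤ av (fun x => |ν1 x|) := by
      unfold av
      exact div_nonneg (Finset.sum_nonneg fun x _ => abs_nonneg _) hn.le
    have hU2 : 0 ≤ av (fun x => |ν2 x|) := by
      unfold av
      exact div_nonneg (Finset.sum_nonneg fun x _ => abs_nonneg _) hn.le
    -- lower bound on the ball
    have hball : v < -(16 * W * (Fintype.card X * U)) := by
      have h3 : (Sum.elim (fun x => -(16 * W) * SignType.sign (ν1 x))
          (fun x => -(16 * W) * SignType.sign (ν2 x)) : X ⊕ X → ℝ) ∈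
          Metric.closedBall (0 : X ⊕ X → ℝ) (16 * W) := by
        rw [mem_closedBall_zero_iff, pi_norm_le_iff_of_nonneg (by positivity)]
        intro k
        have hs : ∀ r : ℝ, |((SignType.sign r : SignType) : ℝ)| ≤ 1 := by
          intro r
          rcases lt_trichotomy r 0 with h | h | h
          · simp [sign_neg h]
          · simp [h]
          · simp [sign_pos h]
        rcases k with x | x
        · rw [Sum.elim_inl, Real.norm_eq_abs, abs_mul, abs_neg, abs_of_pos (by positivity)]
          nlinarith [hs (ν1 x)]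
        · rw [Sum.elim_inr, Real.norm_eq_abs, abs_mul, abs_neg, abs_of_pos (by positivity)]
          nlinarith [hs (ν2 x)]
      have h4 := hfB _ h3
      rw [hf] at h4
      simp only [Sum.elim_inl, Sum.elim_inr] at h4
      have h5 : ∀ ν : X → ℝ, ∑ x, ν x * (-(16 * W) * SignType.sign (ν x)) =
          -(16 * W) * ∑ x, |ν x| := by
        intro ν
        rw [Finset.mul_sum]
        refine Finset.sum_congr rfl fun x _ => ?_
        rw [mul_left_comm, self_mul_sign]
      rw [h5, h5, ← mul_add, hUeq] at h4
      linarith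
    have hUpos : 0 < U := by
      have h3 : (0 : X ⊕ X → ℝ) ∈ Metric.closedBall (0 : X ⊕ X → ℝ) (16 * W) := by
        simp; positivity
      have h4 := hfB _ h3
      rw [map_zero] at h4
      rcases lt_or_eq_of_le (add_nonneg hU1 hU2) with h | h
      · exact h
      · exfalso
        have h5 : Fintype.card X * U = 0 := by rw [hU, ← h, mul_zero]
        rw [← hUeq] at h5
        have h6 : ∀ x, ν1 x = 0 := by
          intro x
          have h7 : ∑ x, |ν1 x| = 0 := by
            have a1 : 0 ≤ ∑ x, |ν1 x| := Finset.sum_nonneg fun x _ => abs_nonneg _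
            have a2 : 0 ≤ ∑ x, |ν2 x| := Finset.sum_nonneg fun x _ => abs_nonneg _
            linarith
          exact abs_eq_zero.1 ((Finset.sum_eq_zero_iff_of_nonneg
            (fun x _ => abs_nonneg (ν1 x))).1 h7 x (Finset.mem_univ x))
        have h8 : ∀ x, ν2 x = 0 := by
          intro x
          have h7 : ∑ x, |ν2 x| = 0 := by
            have a1 : 0 ≤ ∑ x, |ν1 x| := Finset.sum_nonneg fun x _ => abs_nonneg _
            have a2 : 0 ≤ ∑ x, |ν2 x| := Finset.sum_nonneg fun x _ => abs_nonneg _
            linarith
          exact abs_eq_zero.1 ((Finset.sum_eq_zero_iff_of_nonneg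
            (fun x _ => abs_nonneg (ν2 x))).1 h7 x (Finset.mem_univ x))
        have h9 : (1 : X → ℝ) ∈ A0 := by
          refine ⟨⟨fun x => zero_le_one, le_rfl⟩, ?_⟩
          change (1 : ℝ) / 2 ≤ av (1 : X → ℝ)
          unfold av
          simp only [Pi.one_apply, Finset.sum_const, Finset.card_univ, nsmul_eq_mul, mul_one]
          rw [div_self hn.ne']
          norm_num
        have h10 := hfA _ ⟨_, h9, rfl⟩
        rw [hf] at h10
        simp only [h6, h8, zero_mul, Finset.sum_const_zero, add_zero] at h10
        linarith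
    -- the good set
    set l : ℝ := 4 * W * U with hl
    have hl0 : 0 < l := by positivity
    set B1 := Finset.univ.filter (fun x => l < |op K1 ν1 x|) with hB1
    set B2 := Finset.univ.filter (fun x => l < |op K2 ν2 x|) with hB2
    have q1 : (B1.card : ℝ) ≤ Fintype.card X / 4 := by
      have h3 := hw1 ν1 l hl0
      have h4 : l * ((B1.card : ℝ) / Fintype.card X) ≤ l * (1 / 4) := by
        calc _ ≤ W * av (fun x => |ν1 x|) := h3
          _ ≤ W * U := by
            apply mul_le_mul_of_nonneg_left _ hW.le
            rw [hU]; linarith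
          _ = l * (1 / 4) := by rw [hl]; ring
      have h5 := le_of_mul_le_mul_left h4 hl0
      rw [div_le_div_iff₀ hn (by norm_num)] at h5
      linarith
    have q2 : (B2.card : ℝ) ≤ Fintype.card X / 4 := by
      have h3 := hw2 ν2 l hl0
      have h4 : l * ((B2.card : ℝ) / Fintype.card X) ≤ l * (1 / 4) := by
        calc _ ≤ W * av (fun x => |ν2 x|) := h3
          _ ≤ W * U := by
            apply mul_le_mul_of_nonneg_left _ hW.le
            rw [hU]; linarith
          _ = l * (1 / 4) := by rw [hl]; ring
      have h5 := le_of_mul_le_mul_left h4 hl0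
      rw [div_le_div_iff₀ hn (by norm_num)] at h5
      linarith
    set g : X → ℝ := fun x => if x ∈ B1 ∪ B2 then 0 else 1 with hg
    have hgA : g ∈ A0 := by
      refine ⟨⟨fun x => ?_, fun x => ?_⟩, ?_⟩
      · simp only [hg, Pi.zero_apply]; split_ifs <;> norm_num
      · simp only [hg, Pi.one_apply]; split_ifs <;> norm_num
      · change (1 : ℝ) / 2 ≤ av g
        unfold av
        have h3 : ∑ x, g x = Fintype.card X - (B1 ∪ B2).card := by
          have h4 : ∀ x, g x = 1 - (if x ∈ B1 ∪ B2 then 1 else 0) := by
            intro x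
            simp only [hg]; split_ifs <;> norm_num
          rw [Finset.sum_congr rfl fun x _ => h4 x, Finset.sum_sub_distrib, Finset.sum_ite_mem,
            Finset.univ_inter, Finset.sum_const, Finset.sum_const, Finset.card_univ]
          simp
        have h5 : ((B1 ∪ B2).card : ℝ) ≤ B1.card + B2.card := by
          exact_mod_cast Finset.card_union_le B1 B2
        rw [h3, le_div_iff₀ hn]
        linarith
    have h3 := hfA _ ⟨g, hgA, rfl⟩
    rw [hf] at h3
    simp only [hΦ1, hΦ2] at h3
    rw [td_swap K1 h1, td_swap K2 h2] at h3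
    have h4 : ∀ x, g x * op K1 ν1 x ≤ l := by
      intro x
      simp only [hg]
      split_ifs with hx
      · rw [zero_mul]; exact hl0.le
      · rw [one_mul]
        have : x ∉ B1 := fun h => hx (Finset.mem_union_left _ h)
        rw [hB1, Finset.mem_filter] at this
        push Not at this
        exact (le_abs_self _).trans (this (Finset.mem_univ x))
    have h5 : ∀ x, g x * op K2 ν2 x ≤ l := by
      intro x
      simp only [hg]
      split_ifs with hx
      · rw [zero_mul]; exact hl0.le
      · rw [one_mul]
        have : x ∉ B2 := fun h => hx (Finset.mem_union_right _ h)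
        rw [hB2, Finset.mem_filter] at this
        push Not at this
        exact (le_abs_self _).trans (this (Finset.mem_univ x))
    have h6 : ∑ x, g x * op K1 ν1 x ≤ Fintype.card X * l := by
      calc _ ≤ ∑ _x : X, l := Finset.sum_le_sum fun x _ => h4 x
        _ = _ := by simp
    have h7 : ∑ x, g x * op K2 ν2 x ≤ Fintype.card X * l := by
      calc _ ≤ ∑ _x : X, l := Finset.sum_le_sum fun x _ => h5 x
        _ = _ := by simp
    have h8 : Fintype.card X * l = 4 * W * (Fintype.card X * U) := by rw [hl]; ring
    have h9 : 0 < W * (Fintype.card X * U) := by positivity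
    rw [h8] at h6 h7
    linarith
  · rw [Set.not_disjoint_iff] at hd
    obtain ⟨w, ⟨h, hh, rfl⟩, hw⟩ := hd
    rw [mem_closedBall_zero_iff, pi_norm_le_iff_of_nonneg (by positivity)] at hw
    exact ⟨h, fun x => ⟨hh.1.1 x, hh.1.2 x⟩, hh.2, fun x => hw (Sum.inl x),
      fun x => hw (Sum.inr x)⟩

end Pool.Agent.VC
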