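import Pool.Agent.VC.TreeL2

set_option autoImplicit false

open MeasureTheory Set

namespace Pool.Agent.VC

section Weak

variable {X : Type} [Fintype X]

theorem wk_mono {n : ℕ} {lab : ℕ → X → ℕ} (T : IsTree n lab) {j k : ℕ} (h : j ≤ k) (x y : X)
    (hxy : lab k x = lab k y) : lab j x = lab j y := by
  induction h with
  | refl => exact hxy
  | step h ih => exact ih (T.nest _ _ _ hxy)

theorem wk_ce_congr (lab : ℕ → X → ℕ) (k : ℕ) (f : X → ℝ) (x y : X) (h : lab k x = lab k y) :
    ce lab k f x = ce lab k f y := by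
  unfold ce
  rw [h]

/-- the stopping condition -/
def wkP (n : ℕ) (lab : ℕ → X → ℕ) (h : X → ℝ) (α : ℝ) (x : X) (k : ℕ) : Prop :=
  n ≤ k ∨ α < ce lab k h x

theorem wkP_ex (n : ℕ) (lab : ℕ → X → ℕ) (h : X → ℝ) (α : ℝ) (x : X) :
    ∃ k, wkP n lab h α x k := ⟨n, Or.inl le_rfl⟩

open Classical in
/-- the stopping time -/
noncomputable def wkt (n : ℕ) (lab : ℕ → X → ℕ) (h : X → ℝ) (α : ℝ) (x : X) : ℕ :=
  Nat.find (wkP_ex n lab h α x)

theorem wkt_le (n : ℕ) (lab : ℕ → X → ℕ) (h : X → ℝ) (α : ℝ) (x : X) :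
    wkt n lab h α x ≤ n := by
  classical
  unfold wkt
  exact Nat.find_min' _ (Or.inl le_rfl)

theorem wkt_lt (n : ℕ) (lab : ℕ → X → ℕ) (h : X → ℝ) (α : ℝ) (x : X) (k : ℕ)
    (hk : k < wkt n lab h α x) : ce lab k h x ≤ α := by
  classical
  unfold wkt at hk
  have h1 := Nat.find_min _ hk
  unfold wkP at h1
  push Not at h1
  exact h1.2

theorem wkt_spec (n : ℕ) (lab : ℕ → X → ℕ) (h : X → ℝ) (α : ℝ) (x : X) :
    n ≤ wkt n lab h α x ∨ α < ce lab (wkt n lab h α x) h x := by
  classical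
  unfold wkt
  exact Nat.find_spec (wkP_ex n lab h α x)

theorem wkt_congr {n : ℕ} {lab : ℕ → X → ℕ} (T : IsTree n lab) (h : X → ℝ) (α : ℝ) (x y : X)
    (hxy : lab (wkt n lab h α x) y = lab (wkt n lab h α x) x) :
    wkt n lab h α y = wkt n lab h α x := by
  classical
  have h1 : ∀ k ≤ wkt n lab h α x, (wkP n lab h α y k ↔ wkP n lab h α x k) := by
    intro k hk
    unfold wkP
    rw [wk_ce_congr lab k h y x (wk_mono T hk y x hxy)]
  have h2 := Nat.find_spec (wkP_ex n lab h α x)
  show Nat.find (wkP_ex n lab h α y) = wkt n lab h α x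
  rw [Nat.find_eq_iff]
  refine ⟨(h1 _ le_rfl).2 h2, fun k hk hP => ?_⟩
  exact Nat.find_min (wkP_ex n lab h α x) hk ((h1 k hk.le).1 hP)

/-- averages over the stopping classes are self-adjoint -/
theorem wk_adj {n : ℕ} {lab : ℕ → X → ℕ} (T : IsTree n lab) (h : X → ℝ) (α : ℝ) (u v : X → ℝ) :
    ∑ x, u x * ce lab (wkt n lab h α x) v x = ∑ x, ce lab (wkt n lab h α x) u x * v x := by
  classical
  have h1 : ∀ (u v : X → ℝ), ∑ x, u x * ce lab (wkt n lab h α x) v x =
      ∑ x, ∑ y, if lab (wkt n lab h α x) y = lab (wkt n lab h α x) x then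
        u x * v y / 4 ^ (n - wkt n lab h α x) else 0 := by
    intro u v
    refine Finset.sum_congr rfl fun x _ => ?_
    unfold ce
    rw [T.card _ (wkt_le n lab h α x) x, ← Finset.sum_filter, Finset.sum_div, Finset.mul_sum]
    refine Finset.sum_congr rfl fun y _ => ?_
    push_cast
    ring
  have h2 : ∑ x, ce lab (wkt n lab h α x) u x * v x =
      ∑ x, v x * ce lab (wkt n lab h α x) u x := Finset.sum_congr rfl fun x _ => mul_comm _ _
  rw [h2, h1, h1, Finset.sum_comm]
  refine Finset.sum_congr rfl fun y _ => Finset.sum_congr rfl fun x _ => ?_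
  by_cases h3 : lab (wkt n lab h α x) y = lab (wkt n lab h α x) x
  · have h4 := wkt_congr T h α x y h3
    rw [if_pos h3, if_pos (by rw [h4]; exact h3.symm), h4]
    ring
  · rw [if_neg h3, if_neg]
    intro h5
    have h4 := wkt_congr T h α y x h5
    exact h3 (by rw [h4]; exact h5.symm)

theorem wk_ce_one {n : ℕ} {lab : ℕ → X → ℕ} (T : IsTree n lab) (k : ℕ) (hk : k ≤ n) (x : X) :
    ce lab k (fun _ => 1) x = 1 := by
  classical
  unfold ce
  rw [T.card k hk x, Finset.sum_const, T.card k hk x]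
  simp

theorem wk_sum {n : ℕ} {lab : ℕ → X → ℕ} (T : IsTree n lab) (h : X → ℝ) (α : ℝ) (v : X → ℝ) :
    ∑ x, ce lab (wkt n lab h α x) v x = ∑ x, v x := by
  have h1 := wk_adj T h α (fun _ => 1) v
  simp only [one_mul] at h1
  rw [h1]
  refine Finset.sum_congr rfl fun x _ => ?_
  rw [wk_ce_one T _ (wkt_le n lab h α x), one_mul]

theorem wk_ce_nonneg (lab : ℕ → X → ℕ) (k : ℕ) (h : X → ℝ) (h0 : ∀ x, 0 ≤ h x) (x : X) :
    0 ≤ ce lab k h x := by
  unfold ce
  exact div_nonneg (Finset.sum_nonneg fun y _ => h0 y) (Nat.cast_nonneg _)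

theorem wk_abs_ce (lab : ℕ → X → ℕ) (k : ℕ) (f : X → ℝ) (x : X) :
    |ce lab k f x| ≤ ce lab k (fun y => |f y|) x := by
  unfold ce
  rw [abs_div, Nat.abs_cast]
  exact div_le_div_of_nonneg_right (Finset.abs_sum_le_sum_abs _ _) (Nat.cast_nonneg _)

/-- the mean over a child is at most four times the mean -/
theorem wk_child {n : ℕ} {lab : ℕ → X → ℕ} (T : IsTree n lab) (k : ℕ) (hk : k + 1 ≤ n)
    (h : X → ℝ) (h0 : ∀ x, 0 ≤ h x) (x : X) : ce lab (k + 1) h x ≤ 4 * ce lab k h x := by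
  classical
  unfold ce
  rw [T.card k (by omega) x, T.card (k + 1) hk x]
  have h1 : (4 : ℕ) ^ (n - k) = 4 * 4 ^ (n - (k + 1)) := by
    rw [← pow_succ']
    congr 1
    omega
  have h2 : ∑ y ∈ Finset.univ.filter (fun y => lab (k + 1) y = lab (k + 1) x), h y ≤
      ∑ y ∈ Finset.univ.filter (fun y => lab k y = lab k x), h y := by
    refine Finset.sum_le_sum_of_subset_of_nonneg ?_ fun y _ _ => h0 y
    intro y hy
    rw [Finset.mem_filter] at hy ⊢
    exact ⟨hy.1, T.nest k y x hy.2⟩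
  rw [h1]
  push_cast
  rw [← mul_div_assoc, mul_div_mul_left _ _ (by norm_num : (4 : ℝ) ≠ 0)]
  exact div_le_div_of_nonneg_right h2 (by positivity)

/-- the geometric sum -/
theorem wk_geom (q : ℝ) (hq0 : 0 < q) (hq1 : q < 1) (j : ℕ) :
    ∑ k ∈ Finset.range j, q ^ (j - k) ≤ 1 / (1 - q) := by
  induction j with
  | zero =>
    rw [Finset.range_zero, Finset.sum_empty]
    exact div_nonneg zero_le_one (by linarith)
  | succ j ih =>
    rw [Finset.sum_range_succ]
    have h1 : ∑ k ∈ Finset.range j, q ^ (j + 1 - k) = q * ∑ k ∈ Finset.range j, q ^ (j - k) := by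
      rw [Finset.mul_sum]
      refine Finset.sum_congr rfl fun k hk => ?_
      have h2 := Finset.mem_range.1 hk
      rw [← pow_succ']
      congr 1
      omega
    rw [h1, show j + 1 - j = 1 by omega, pow_one]
    have h3 : q * ∑ k ∈ Finset.range j, q ^ (j - k) ≤ q * (1 / (1 - q)) :=
      mul_le_mul_of_nonneg_left ih hq0.le
    have h4 : q * (1 / (1 - q)) + q ≤ 1 / (1 - q) := by
      have h5 : 0 < 1 - q := by linarith
      have h6 : 1 / (1 - q) - (q * (1 / (1 - q)) + q) = 1 - q := by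
        field_simp
        ring
      linarith
    linarith

theorem wk_sides {n : ℕ} {s : ℕ → ℝ} {q : ℝ} (hs : Sides n s q) {k j : ℕ} (h : k ≤ j) :
    s j ≤ q ^ (j - k) * s k := by
  induction h with
  | refl => rw [Nat.sub_self, pow_zero, one_mul]
  | @step m h ih =>
    have hkm : k ≤ m := h
    have h1 : m + 1 - k = (m - k) + 1 := by omega
    have h2 : s (m + 1) ≤ q ^ (m + 1 - k) * s k := by
      rw [h1, pow_succ']
      calc s (m + 1) ≤ q * s m := hs.dec m
        _ ≤ q * (q ^ (m - k) * s k) := mul_le_mul_of_nonneg_left ih hs.q0.le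
        _ = q * q ^ (m - k) * s k := by ring
    exact h2

theorem wk_term {n : ℕ} {s : ℕ → ℝ} {q C : ℝ} (hs : Sides n s q) (hC : 0 ≤ C) {k j : ℕ}
    (h : k ≤ j) (hkn : k ≤ n) :
    4 ^ (n - k) * (C * s j / s k ^ 2) ≤ 4 ^ n * (C * q ^ (j - k)) := by
  have hk := hs.pos k
  have h1 : (4 : ℝ) ^ n = 4 ^ (n - k) * 4 ^ k := by
    rw [← pow_add]
    congr 1
    omega
  rw [h1, mul_assoc]
  refine mul_le_mul_of_nonneg_left ?_ (by positivity)
  rw [div_le_iff₀ (by positivity)]
  have h2 := wk_sides hs h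
  have h3 := hs.den k
  have hq := hs.q0
  calc C * s j ≤ C * (q ^ (j - k) * s k) := mul_le_mul_of_nonneg_left h2 hC
    _ = (C * q ^ (j - k) * s k) * 1 := by ring
    _ ≤ (C * q ^ (j - k) * s k) * (4 ^ k * s k) :=
        mul_le_mul_of_nonneg_left h3 (by positivity)
    _ = 4 ^ k * (C * q ^ (j - k)) * s k ^ 2 := by ring

/-- first difference -/
theorem wk_first {n : ℕ} {lab : ℕ → X → ℕ} (T : IsTree n lab) (x y : X) (j : ℕ)
    (h : lab j x ≠ lab j y) : ∃ k, k < j ∧ lab k x = lab k y ∧ lab (k + 1) x ≠ lab (k + 1) y := by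
  induction j with
  | zero => exact absurd (T.zero x y) h
  | succ j ih =>
    by_cases h1 : lab j x = lab j y
    · exact ⟨j, Nat.lt_succ_self j, h1, h⟩
    · obtain ⟨k, hk, h2⟩ := ih h1
      exact ⟨k, Nat.lt_succ_of_lt hk, h2⟩

/-- the kernel minus its mean, one point -/
theorem wk_diff {n : ℕ} {lab : ℕ → X → ℕ} (T : IsTree n lab) {s : ℕ → ℝ} {q C : ℝ}
    (hs : Sides n s q) (hC : 0 ≤ C) {K : X → X → ℝ} (hK : IsCZ n lab s C K) (x y : X) (j : ℕ)
    (hj : j ≤ n) (hxy : lab j x ≠ lab j y) :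
    |K x y - ce lab j (fun y' => K x y') y| ≤
      ∑ k ∈ Finset.range j, if lab k x = lab k y then C * s j / s k ^ 2 else 0 := by
  classical
  obtain ⟨k, hk, h1, h2⟩ := wk_first T x y j hxy
  have h3 : |K x y - ce lab j (fun y' => K x y') y| ≤ C * s j / s k ^ 2 := by
    have h4 : K x y - ce lab j (fun y' => K x y') y = ce lab j (fun y' => K x y - K x y') y := by
      unfold ce
      rw [Finset.sum_sub_distrib, Finset.sum_const, nsmul_eq_mul, sub_div, mul_comm,
        mul_div_assoc, div_self, mul_one]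
      rw [T.card j hj y]
      positivity
    rw [h4]
    refine (wk_abs_ce lab j _ y).trans ?_
    unfold ce
    have h5 : (0 : ℝ) < ((Finset.univ.filter (fun y' => lab j y' = lab j y)).card : ℝ) := by
      rw [T.card j hj y]
      positivity
    rw [div_le_iff₀ h5, mul_comm, ← nsmul_eq_mul, ← Finset.sum_const]
    refine Finset.sum_le_sum fun y' hy' => ?_
    exact hK.diff k j hk hj x y y' h1 h2 (Finset.mem_filter.1 hy').2
  refine h3.trans ?_
  have h6 : (if lab k x = lab k y then C * s j / s k ^ 2 else 0) ≤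
      ∑ k ∈ Finset.range j, if lab k x = lab k y then C * s j / s k ^ 2 else 0 := by
    refine Finset.single_le_sum (f := fun k => if lab k x = lab k y then C * s j / s k ^ 2 else 0)
      (fun i _ => ?_) (Finset.mem_range.2 hk)
    have h7 := hs.pos j
    have h8 := hs.pos i
    show (0 : ℝ) ≤ if lab i x = lab i y then C * s j / s i ^ 2 else 0
    split_ifs
    · positivity
    · exact le_rfl
  rwa [if_pos h1] at h6

/-- the sum over the points outside the class -/
theorem wk_sumdiff {n : ℕ} {lab : ℕ → X → ℕ} (T : IsTree n lab) {s : ℕ → ℝ} {q C : ℝ}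
    (hs : Sides n s q) (hC : 0 ≤ C) {K : X → X → ℝ} (hK : IsCZ n lab s C K) (y : X) (j : ℕ)
    (hj : j ≤ n) (V : Finset X) (hV : ∀ x ∈ V, lab j x ≠ lab j y) :
    ∑ x ∈ V, |K x y - ce lab j (fun y' => K x y') y| ≤ 4 ^ n * (C * (1 / (1 - q))) := by
  classical
  calc ∑ x ∈ V, |K x y - ce lab j (fun y' => K x y') y|
      ≤ ∑ x ∈ V, ∑ k ∈ Finset.range j, (if lab k x = lab k y then C * s j / s k ^ 2 else 0) :=
        Finset.sum_le_sum fun x hx => wk_diff T hs hC hK x y j hj (hV x hx)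
    _ ≤ ∑ x, ∑ k ∈ Finset.range j, (if lab k x = lab k y then C * s j / s k ^ 2 else 0) := by
        refine Finset.sum_le_sum_of_subset_of_nonneg (Finset.subset_univ V) fun x _ _ => ?_
        refine Finset.sum_nonneg fun k _ => ?_
        have h7 := hs.pos j
        have h8 := hs.pos k
        split_ifs
        · positivity
        · exact le_rfl
    _ = ∑ k ∈ Finset.range j, 4 ^ (n - k) * (C * s j / s k ^ 2) := by
        rw [Finset.sum_comm]
        refine Finset.sum_congr rfl fun k hk => ?_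
        have h1 := Finset.mem_range.1 hk
        rw [← Finset.sum_filter, Finset.sum_const, T.card k (by omega) y, nsmul_eq_mul]
        push_cast
        rfl
    _ ≤ ∑ k ∈ Finset.range j, 4 ^ n * (C * q ^ (j - k)) := by
        refine Finset.sum_le_sum fun k hk => ?_
        have h1 := Finset.mem_range.1 hk
        exact wk_term hs hC h1.le (by omega)
    _ = 4 ^ n * (C * ∑ k ∈ Finset.range j, q ^ (j - k)) := by
        rw [Finset.mul_sum, Finset.mul_sum]
    _ ≤ 4 ^ n * (C * (1 / (1 - q))) := by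
        refine mul_le_mul_of_nonneg_left ?_ (by positivity)
        exact mul_le_mul_of_nonneg_left (wk_geom q hs.q0 hs.q1 j) hC

/-! ### the decomposition -/

/-- the good part -/
noncomputable def wkg (n : ℕ) (lab : ℕ → X → ℕ) (f : X → ℝ) (α : ℝ) (x : X) : ℝ :=
  ce lab (wkt n lab (fun y => |f y|) α x) f x

/-- `f` minus the good part has mean zero over the stopping classes -/
theorem wk_bad_mean {n : ℕ} {lab : ℕ → X → ℕ} (T : IsTree n lab) (f : X → ℝ) (α : ℝ) (x : X) :
    ce lab (wkt n lab (fun y => |f y|) α x) (fun y => f y - wkg n lab f α y) x = 0 := by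
  classical
  have h1 : ∑ y ∈ Finset.univ.filter (fun y => lab (wkt n lab (fun y => |f y|) α x) y =
        lab (wkt n lab (fun y => |f y|) α x) x), (f y - wkg n lab f α y) =
      ∑ y ∈ Finset.univ.filter (fun y => lab (wkt n lab (fun y => |f y|) α x) y =
        lab (wkt n lab (fun y => |f y|) α x) x), (f y - wkg n lab f α x) := by
    refine Finset.sum_congr rfl fun y hy => ?_
    have h2 := (Finset.mem_filter.1 hy).2
    have h3 := wkt_congr T (fun y => |f y|) α x y h2
    unfold wkg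
    rw [h3, wk_ce_congr lab _ f y x h2]
  have hc : (0 : ℝ) < ((Finset.univ.filter (fun y => lab (wkt n lab (fun y => |f y|) α x) y =
        lab (wkt n lab (fun y => |f y|) α x) x)).card : ℝ) := by
    rw [T.card _ (wkt_le n lab _ α x) x]
    positivity
  unfold ce
  rw [h1, Finset.sum_sub_distrib, Finset.sum_const, nsmul_eq_mul]
  unfold wkg ce
  rw [mul_div_cancel₀ _ hc.ne', sub_self, zero_div]

/-- the kernel may be replaced by its difference to the mean -/
theorem wk_bad_op {n : ℕ} {lab : ℕ → X → ℕ} (T : IsTree n lab) (K : X → X → ℝ) (f : X → ℝ)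
    (α : ℝ) (x : X) :
    ∑ y, K x y * (f y - wkg n lab f α y) =
      ∑ y, (K x y - ce lab (wkt n lab (fun y => |f y|) α y) (fun y' => K x y') y) *
        (f y - wkg n lab f α y) := by
  have h1 := wk_adj T (fun y => |f y|) α (fun y => f y - wkg n lab f α y) (fun y' => K x y')
  have h2 : ∑ y, ce lab (wkt n lab (fun y => |f y|) α y) (fun y => f y - wkg n lab f α y) y *
      K x y = 0 := Finset.sum_eq_zero fun y _ => by rw [wk_bad_mean T f α y, zero_mul]
  rw [h2] at h1
  simp only [sub_mul (K x _)]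
  rw [Finset.sum_sub_distrib]
  have h3 : ∑ y, ce lab (wkt n lab (fun y => |f y|) α y) (fun y' => K x y') y *
      (f y - wkg n lab f α y) = 0 := by
    rw [← h1]
    exact Finset.sum_congr rfl fun y _ => mul_comm _ _
  rw [h3, sub_zero]

theorem wk_top {n : ℕ} {lab : ℕ → X → ℕ} (T : IsTree n lab) (f : X → ℝ) (x : X) :
    ce lab n f x = f x := by
  classical
  have h1 : Finset.univ.filter (fun y => lab n y = lab n x) = {x} := by
    ext y
    rw [Finset.mem_filter, Finset.mem_singleton]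
    exact ⟨fun h => T.top y x h.2, fun h => ⟨Finset.mem_univ _, by rw [h]⟩⟩
  unfold ce
  rw [h1, Finset.sum_singleton, Finset.card_singleton, Nat.cast_one, div_one]

theorem wk_zero {n : ℕ} {lab : ℕ → X → ℕ} (T : IsTree n lab) (f : X → ℝ) (x : X) :
    ce lab 0 f x = av f := by
  classical
  have h1 : Finset.univ.filter (fun y => lab 0 y = lab 0 x) = Finset.univ :=
    Finset.filter_true_of_mem fun y _ => T.zero y x
  unfold ce av
  rw [h1, Finset.card_univ]

theorem wk_card {n : ℕ} {lab : ℕ → X → ℕ} (T : IsTree n lab) (x : X) :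
    (Fintype.card X : ℝ) = 4 ^ n := by
  classical
  have h1 : Finset.univ.filter (fun y => lab 0 y = lab 0 x) = Finset.univ :=
    Finset.filter_true_of_mem fun y _ => T.zero y x
  have h2 := T.card 0 (Nat.zero_le n) x
  rw [h1, Finset.card_univ, Nat.sub_zero] at h2
  rw [h2]
  push_cast
  rfl

open Classical in
/-- the stopping set -/
noncomputable def wkU (n : ℕ) (lab : ℕ → X → ℕ) (f : X → ℝ) (α : ℝ) : Finset X :=
  Finset.univ.filter fun x => α < ce lab (wkt n lab (fun y => |f y|) α x) (fun y => |f y|) x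

theorem wk_mem_U (n : ℕ) (lab : ℕ → X → ℕ) (f : X → ℝ) (α : ℝ) (x : X) :
    x ∈ wkU n lab f α ↔
      α < ce lab (wkt n lab (fun y => |f y|) α x) (fun y => |f y|) x := by
  unfold wkU
  rw [Finset.mem_filter]
  exact ⟨fun h => h.2, fun h => ⟨Finset.mem_univ _, h⟩⟩

theorem wk_b_zero {n : ℕ} {lab : ℕ → X → ℕ} (T : IsTree n lab) (f : X → ℝ) (α : ℝ) (y : X)
    (hy : y ∉ wkU n lab f α) : f y - wkg n lab f α y = 0 := by
  rw [wk_mem_U] at hy
  have h1 : wkt n lab (fun y => |f y|) α y = n := by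
    rcases wkt_spec n lab (fun y => |f y|) α y with h | h
    · exact le_antisymm (wkt_le n lab _ α y) h
    · exact absurd h hy
  unfold wkg
  rw [h1, wk_top T, sub_self]

theorem wk_ne {n : ℕ} {lab : ℕ → X → ℕ} (T : IsTree n lab) (f : X → ℝ) (α : ℝ) (x y : X)
    (hx : x ∉ wkU n lab f α) (hy : y ∈ wkU n lab f α) :
    lab (wkt n lab (fun y => |f y|) α y) x ≠ lab (wkt n lab (fun y => |f y|) α y) y := by
  intro h
  rw [wk_mem_U] at hx hy
  refine hx ?_
  rw [wkt_congr T (fun y => |f y|) α y x h, wk_ce_congr lab _ _ x y h]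
  exact hy

open Classical in
/-- the bad part -/
theorem wk_bad {n : ℕ} {lab : ℕ → X → ℕ} (T : IsTree n lab) {s : ℕ → ℝ} {q C : ℝ}
    (hs : Sides n s q) (hC : 0 ≤ C) {K : X → X → ℝ} (hK : IsCZ n lab s C K) (f : X → ℝ) (α : ℝ) :
    ∑ x ∈ Finset.univ.filter (fun x => x ∉ wkU n lab f α),
      |∑ y, K x y * (f y - wkg n lab f α y)| ≤
      4 ^ n * (C * (1 / (1 - q))) * ∑ y, |f y - wkg n lab f α y| := by
  classical
  calc ∑ x ∈ Finset.univ.filter (fun x => x ∉ wkU n lab f α),
      |∑ y, K x y * (f y - wkg n lab f α y)|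
      ≤ ∑ x ∈ Finset.univ.filter (fun x => x ∉ wkU n lab f α),
        ∑ y, |K x y - ce lab (wkt n lab (fun y => |f y|) α y) (fun y' => K x y') y| *
          |f y - wkg n lab f α y| := by
        refine Finset.sum_le_sum fun x _ => ?_
        rw [wk_bad_op T]
        refine (Finset.abs_sum_le_sum_abs _ _).trans (le_of_eq ?_)
        exact Finset.sum_congr rfl fun y _ => abs_mul _ _
    _ = ∑ y, (∑ x ∈ Finset.univ.filter (fun x => x ∉ wkU n lab f α),
        |K x y - ce lab (wkt n lab (fun y => |f y|) α y) (fun y' => K x y') y|) *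
          |f y - wkg n lab f α y| := by
        rw [Finset.sum_comm]
        exact Finset.sum_congr rfl fun y _ => (Finset.sum_mul _ _ _).symm
    _ ≤ ∑ y, 4 ^ n * (C * (1 / (1 - q))) * |f y - wkg n lab f α y| := by
        refine Finset.sum_le_sum fun y _ => ?_
        by_cases hy : y ∈ wkU n lab f α
        · refine mul_le_mul_of_nonneg_right ?_ (abs_nonneg _)
          refine wk_sumdiff T hs hC hK y _ (wkt_le n lab _ α y) _ fun x hx => ?_
          exact wk_ne T f α x y (Finset.mem_filter.1 hx).2 hy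
        · rw [wk_b_zero T f α y hy, abs_zero, mul_zero, mul_zero]
    _ = _ := (Finset.mul_sum _ _ _).symm

theorem wk_abs_g (n : ℕ) (lab : ℕ → X → ℕ) (f : X → ℝ) (α : ℝ) (x : X) :
    |wkg n lab f α x| ≤ ce lab (wkt n lab (fun y => |f y|) α x) (fun y => |f y|) x :=
  wk_abs_ce lab _ f x

theorem wk_sum_g {n : ℕ} {lab : ℕ → X → ℕ} (T : IsTree n lab) (f : X → ℝ) (α : ℝ) :
    ∑ x, |wkg n lab f α x| ≤ ∑ x, |f x| := by
  rw [← wk_sum T (fun y => |f y|) α (fun y => |f y|)]
  exact Finset.sum_le_sum fun x _ => wk_abs_g n lab f α x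

theorem wk_sum_b {n : ℕ} {lab : ℕ → X → ℕ} (T : IsTree n lab) (f : X → ℝ) (α : ℝ) :
    ∑ x, |f x - wkg n lab f α x| ≤ 2 * ∑ x, |f x| := by
  have h1 : ∑ x, |f x - wkg n lab f α x| ≤ ∑ x, (|f x| + |wkg n lab f α x|) :=
    Finset.sum_le_sum fun x _ => abs_sub _ _
  rw [Finset.sum_add_distrib] at h1
  linarith [wk_sum_g T f α]

theorem wk_card_U {n : ℕ} {lab : ℕ → X → ℕ} (T : IsTree n lab) (f : X → ℝ) (α : ℝ) :
    (wkU n lab f α).card * α ≤ ∑ x, |f x| := by
  rw [← wk_sum T (fun y => |f y|) α (fun y => |f y|), ← nsmul_eq_mul, ← Finset.sum_const]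
  refine (Finset.sum_le_sum fun x hx => ((wk_mem_U n lab f α x).1 hx).le).trans ?_
  exact Finset.sum_le_sum_of_subset_of_nonneg (Finset.subset_univ _)
    fun x _ _ => wk_ce_nonneg lab _ _ (fun y => abs_nonneg _) x

theorem wk_le_four {n : ℕ} {lab : ℕ → X → ℕ} (T : IsTree n lab) (f : X → ℝ) (α : ℝ)
    (hα : 0 ≤ α) (h : av (fun y => |f y|) ≤ α) (x : X) :
    ce lab (wkt n lab (fun y => |f y|) α x) (fun y => |f y|) x ≤ 4 * α := by
  rcases Nat.eq_zero_or_pos (wkt n lab (fun y => |f y|) α x) with h0 | h0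
  · rw [h0, wk_zero T]
    linarith
  · obtain ⟨k, hk⟩ : ∃ k, wkt n lab (fun y => |f y|) α x = k + 1 := ⟨_, (Nat.succ_pred_eq_of_pos h0).symm⟩
    have h1 := wkt_le n lab (fun y => |f y|) α x
    have h2 := wkt_lt n lab (fun y => |f y|) α x k (by omega)
    rw [hk] at h1 ⊢
    have h3 := wk_child T k h1 (fun y => |f y|) (fun y => abs_nonneg _) x
    linarith

theorem wk_sum_g_sq {n : ℕ} {lab : ℕ → X → ℕ} (T : IsTree n lab) (f : X → ℝ) (α : ℝ)
    (hα : 0 ≤ α) (h : av (fun y => |f y|) ≤ α) :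
    ∑ x, wkg n lab f α x ^ 2 ≤ 4 * α * ∑ x, |f x| := by
  calc ∑ x, wkg n lab f α x ^ 2 ≤ ∑ x, 4 * α * |wkg n lab f α x| := by
        refine Finset.sum_le_sum fun x _ => ?_
        rw [← sq_abs, sq]
        exact mul_le_mul_of_nonneg_right ((wk_abs_g n lab f α x).trans
          (wk_le_four T f α hα h x)) (abs_nonneg _)
    _ = 4 * α * ∑ x, |wkg n lab f α x| := (Finset.mul_sum _ _ _).symm
    _ ≤ _ := mul_le_mul_of_nonneg_left (wk_sum_g T f α) (by linarith)

/-- Chebyshev -/
theorem wk_cheb (u : X → ℝ) (V : Finset X) (h0 : ∀ x ∈ V, 0 ≤ u x) (l : ℝ) (S : Finset X)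
    (hS : ∀ x ∈ S, x ∈ V ∧ l ≤ u x) : l * S.card ≤ ∑ x ∈ V, u x := by
  rw [mul_comm, ← nsmul_eq_mul, ← Finset.sum_const]
  exact (Finset.sum_le_sum fun x hx => (hS x hx).2).trans
    (Finset.sum_le_sum_of_subset_of_nonneg (fun x hx => (hS x hx).1) fun x hx _ => h0 x hx)

/-- the `L²` bound from the bilinear bound -/
theorem wk_L2 {K : X → X → ℝ} {M : ℝ} (hM : 0 ≤ M) (h : ∀ f g : X → ℝ,
      |av (fun x => g x * op K f x)| ≤
        M * (Real.sqrt (av (fun x => g x ^ 2)) * Real.sqrt (av (fun x => f x ^ 2))))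
    (g : X → ℝ) : av (fun x => op K g x ^ 2) ≤ M ^ 2 * av (fun x => g x ^ 2) := by
  have h1 := h g (op K g)
  have h2 : (fun x => op K g x * op K g x) = fun x => op K g x ^ 2 := by
    funext x
    rw [sq]
  rw [h2] at h1
  have ha : 0 ≤ av (fun x => op K g x ^ 2) :=
    div_nonneg (Finset.sum_nonneg fun x _ => sq_nonneg _) (Nat.cast_nonneg _)
  have hb : 0 ≤ av (fun x => g x ^ 2) :=
    div_nonneg (Finset.sum_nonneg fun x _ => sq_nonneg _) (Nat.cast_nonneg _)
  rw [abs_of_nonneg ha] at h1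
  set a := av (fun x => op K g x ^ 2) with hadef
  set b := av (fun x => g x ^ 2) with hbdef
  have h3 := Real.sq_sqrt ha
  have h4 := Real.sq_sqrt hb
  rcases eq_or_lt_of_le (Real.sqrt_nonneg a) with h5 | h5
  · rw [← h5] at h3
    nlinarith [mul_nonneg (sq_nonneg M) hb]
  · have h6 : Real.sqrt a ≤ M * Real.sqrt b := by
      by_contra h7
      push Not at h7
      nlinarith
    calc a = Real.sqrt a ^ 2 := h3.symm
      _ ≤ (M * Real.sqrt b) ^ 2 := by
        exact pow_le_pow_left₀ (Real.sqrt_nonneg a) h6 2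
      _ = M ^ 2 * b := by rw [mul_pow, h4]

end Weak

/-- the weak type estimate, `M` = the `L²` bound -/
theorem treeWeak (q C : ℝ) (hq0 : 0 < q) (hq1 : q < 1) (hC : 0 ≤ C) : ∃ C' : ℝ, 0 < C' ∧
    ∀ {X : Type} [Fintype X] (n : ℕ) (lab : ℕ → X → ℕ) (_ : IsTree n lab) (s : ℕ → ℝ)
      (_ : Sides n s q) (K : X → X → ℝ) (_ : IsCZ n lab s C K) (M : ℝ) (_ : 1 ≤ M)
      (_ : ∀ f g : X → ℝ, |av (fun x => g x * op K f x)| ≤
        M * (Real.sqrt (av (fun x => g x ^ 2)) * Real.sqrt (av (fun x => f x ^ 2))))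
      (f : X → ℝ) (l : ℝ) (_ : 0 < l),
      l * ((Finset.univ.filter (fun x => l < |op K f x|)).card / Fintype.card X) ≤
        C' * M * av (fun x => |f x|) := by
  classical
  have hE : 0 ≤ C * (1 / (1 - q)) := mul_nonneg hC (div_nonneg zero_le_one (by linarith))
  refine ⟨17 + 4 * (C * (1 / (1 - q))), by linarith, ?_⟩
  intro X _ n lab T s hs K hK M hM hL2 f l hl
  set E : ℝ := C * (1 / (1 - q)) with hEdef
  rcases isEmpty_or_nonempty X with hemp | ⟨⟨x0⟩⟩
  · simp [av]
  have hN := wk_card T x0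
  have hNpos : (0 : ℝ) < Fintype.card X := by rw [hN]; positivity
  set N : ℝ := (Fintype.card X : ℝ) with hNdef
  set A : ℝ := ∑ x, |f x| with hAdef
  have hA0 : 0 ≤ A := Finset.sum_nonneg fun x _ => abs_nonneg _
  have havA : av (fun x => |f x|) = A / N := rfl
  have hMpos : 0 < M := by linarith
  set S : Finset X := Finset.univ.filter (fun x => l < |op K f x|) with hSdef
  rw [havA]
  rcases lt_or_ge (A / N) (l / M) with hlt | hge
  swap
  · have h1 : (S.card : ℝ) / N ≤ 1 := by
      rw [div_le_one hNpos, hNdef]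
      exact_mod_cast Finset.card_le_univ S
    have h2 : l ≤ M * (A / N) := by
      rw [div_le_iff₀ hMpos] at hge
      linarith
    have h3 : 0 ≤ M * (A / N) := by positivity
    calc l * ((S.card : ℝ) / N) ≤ l * 1 := mul_le_mul_of_nonneg_left h1 hl.le
      _ ≤ 1 * (M * (A / N)) := by linarith
      _ ≤ (17 + 4 * E) * (M * (A / N)) := mul_le_mul_of_nonneg_right (by linarith) h3
      _ = _ := by ring
  set α : ℝ := l / M with hαdef
  have hα : 0 < α := div_pos hl hMpos
  have hαM : M * α = l := by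
    rw [hαdef]
    field_simp
  set g : X → ℝ := wkg n lab f α with hgdef
  set b : X → ℝ := fun x => f x - g x with hbdef
  set U : Finset X := wkU n lab f α with hUdef
  -- the good part
  set S1 : Finset X := Finset.univ.filter (fun x => l / 2 < |op K g x|) with hS1
  have hgood : l * S1.card ≤ 16 * M * A := by
    have h1 : (l / 2) ^ 2 * S1.card ≤ ∑ x, op K g x ^ 2 := by
      refine wk_cheb (fun x => op K g x ^ 2) Finset.univ (fun x _ => sq_nonneg _) _ S1
        fun x hx => ⟨Finset.mem_univ _, ?_⟩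
      have h2 := (Finset.mem_filter.1 hx).2
      rw [← sq_abs (op K g x)]
      exact pow_le_pow_left₀ (by linarith) h2.le 2
    have h2 := wk_L2 (by linarith) hL2 g
    have h3 : ∑ x, op K g x ^ 2 ≤ M ^ 2 * ∑ x, g x ^ 2 := by
      unfold av at h2
      rw [← mul_div_assoc] at h2
      exact (div_le_div_iff_of_pos_right hNpos).1 h2
    have h4 : ∑ x, g x ^ 2 ≤ 4 * α * A := wk_sum_g_sq T f α hα.le hlt.le
    have h5 : M ^ 2 * ∑ x, g x ^ 2 ≤ M ^ 2 * (4 * α * A) :=
      mul_le_mul_of_nonneg_left h4 (sq_nonneg _)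
    have h6 : M ^ 2 * (4 * α * A) = l * (4 * M * A) := by
      rw [← hαM]
      ring
    have h7 : l * (l * S1.card) ≤ l * (16 * M * A) := by nlinarith
    exact le_of_mul_le_mul_left h7 hl
  -- the stopping set
  have hU : l * U.card ≤ M * A := by
    have h1 : (U.card : ℝ) * α ≤ A := wk_card_U T f α
    calc l * U.card = M * (U.card * α) := by rw [← hαM]; ring
      _ ≤ M * A := mul_le_mul_of_nonneg_left h1 hMpos.le
  -- the bad part
  set V : Finset X := Finset.univ.filter (fun x => x ∉ wkU n lab f α) with hV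
  set S2 : Finset X := Finset.univ.filter (fun x => x ∉ U ∧ l / 2 < |op K b x|) with hS2
  have hbad : l * S2.card ≤ 4 * E * M * A := by
    have h1 : l / 2 * S2.card ≤ ∑ x ∈ V, |op K b x| := by
      refine wk_cheb (fun x => |op K b x|) V (fun x _ => abs_nonneg _) _ S2 fun x hx => ?_
      have h2 := (Finset.mem_filter.1 hx).2
      exact ⟨Finset.mem_filter.2 ⟨Finset.mem_univ _, h2.1⟩, h2.2.le⟩
    have h2 : ∑ x ∈ V, |op K b x| = (∑ x ∈ V, |∑ y, K x y * b y|) / N := by
      rw [Finset.sum_div]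
      refine Finset.sum_congr rfl fun x _ => ?_
      unfold op
      rw [abs_div, abs_of_pos hNpos]
    have h3 : ∑ x ∈ V, |∑ y, K x y * b y| ≤ N * E * ∑ y, |b y| := by
      have h4 := wk_bad T hs hC hK f α
      rw [← hN] at h4
      exact h4
    have h4 : ∑ y, |b y| ≤ 2 * A := wk_sum_b T f α
    have h5 : (∑ x ∈ V, |∑ y, K x y * b y|) / N ≤ E * (2 * A) := by
      rw [div_le_iff₀ hNpos]
      have h6 : N * E * ∑ y, |b y| ≤ N * E * (2 * A) :=
        mul_le_mul_of_nonneg_left h4 (by positivity)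
      linarith
    have h6 : l * S2.card ≤ 4 * E * A := by
      rw [h2] at h1
      linarith
    have h7 : 4 * E * A ≤ 4 * E * M * A := by
      have h8 : 0 ≤ E * A := mul_nonneg hE hA0
      nlinarith
    linarith
  -- the union
  have hsub : S ⊆ S1 ∪ (U ∪ S2) := by
    intro x hx
    have h1 := (Finset.mem_filter.1 hx).2
    rw [Finset.mem_union, Finset.mem_union]
    by_contra hc
    push Not at hc
    obtain ⟨hc1, hc2, hc3⟩ := hc
    have h2 : |op K g x| ≤ l / 2 := by
      by_contra h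
      push Not at h
      exact hc1 (Finset.mem_filter.2 ⟨Finset.mem_univ _, h⟩)
    have h3 : |op K b x| ≤ l / 2 := by
      by_contra h
      push Not at h
      exact hc3 (Finset.mem_filter.2 ⟨Finset.mem_univ _, hc2, h⟩)
    have h4 : op K f x = op K g x + op K b x := by
      unfold op
      rw [← add_div, ← Finset.sum_add_distrib]
      congr 1
      refine Finset.sum_congr rfl fun y _ => ?_
      rw [hbdef]
      ring
    have h5 : |op K f x| ≤ |op K g x| + |op K b x| := by
      rw [h4]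
      exact abs_add_le _ _
    linarith
  have hcard : (S.card : ℝ) ≤ S1.card + (U.card + S2.card) := by
    have h1 := Finset.card_le_card hsub
    have h2 := Finset.card_union_le S1 (U ∪ S2)
    have h3 := Finset.card_union_le U S2
    exact_mod_cast h1.trans (h2.trans (Nat.add_le_add_left h3 _))
  have hfin : l * S.card ≤ (17 + 4 * E) * M * A := by
    have h1 : l * S.card ≤ l * (S1.card + (U.card + S2.card)) :=
      mul_le_mul_of_nonneg_left hcard hl.le
    nlinarith
  rw [← mul_div_assoc, ← mul_div_assoc]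
  exact div_le_div_of_nonneg_right hfin hNpos.le

end Pool.Agent.VC
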