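import Pool.Agent.VC.TreeKer
import Pool.Agent.VC.TreeWeak
import Pool.Agent.VC.TreeDual

set_option autoImplicit false

open MeasureTheory Set

namespace Pool.Agent.VC

theorem exists_h (κ : ℝ) (hκ : κ < 1 / 2) : ∃ C : ℝ, 0 < C ∧ ∀ lam : ℕ → ℝ,
    (∀ k, 1 / 4 ≤ lam k ∧ lam k ≤ κ) → ∀ n : ℕ,
    ∃ h : Fin (4 ^ n) → ℝ, (∀ x, 0 ≤ h x ∧ h x ≤ 1) ∧ 1 / 2 ≤ av h ∧
      (∀ x, |op (KR lam n) h x| ≤ C * (1 + Real.sqrt (SS lam n))) ∧
      ∀ x, |op (KI lam n) h x| ≤ C * (1 + Real.sqrt (SS lam n)) := by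
  obtain ⟨C, hC, hCZ⟩ := isCZ_K κ hκ
  obtain ⟨C1, hC1, hL2⟩ := treeL2 (1 / 2) C (by norm_num) (by norm_num) hC.le
  obtain ⟨C2, hC2, hW⟩ := treeWeak (1 / 2) C (by norm_num) (by norm_num) hC.le
  refine ⟨16 * (C2 * (C1 + 1)), by positivity, fun lam hlam n => ?_⟩
  obtain ⟨hR, hI⟩ := hCZ lam hlam n
  have hT := isTree_lb n
  have hS := sides_side lam (fun k => ⟨(hlam k).1, (hlam k).2.trans hκ.le⟩) n
  have hsq : 0 ≤ Real.sqrt (SS lam n) := Real.sqrt_nonneg _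
  set M : ℝ := (C1 + 1) * (1 + Real.sqrt (SS lam n)) with hM
  have hM1 : 1 ≤ M := by
    rw [hM]
    nlinarith
  have hL : ∀ K : Fin (4 ^ n) → Fin (4 ^ n) → ℝ, IsCZ n (lb n) (side lam) C K →
      ∀ f g : Fin (4 ^ n) → ℝ, |av (fun x => g x * op K f x)| ≤
        M * (Real.sqrt (av (fun x => g x ^ 2)) * Real.sqrt (av (fun x => f x ^ 2))) := by
    intro K hK f g
    refine (hL2 n (lb n) hT (side lam) hS K hK f g).trans ?_
    refine mul_le_mul_of_nonneg_right ?_ (mul_nonneg (Real.sqrt_nonneg _) (Real.sqrt_nonneg _))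
    have h1 : ∑ k ∈ Finset.range n, (1 / (4 ^ k * side lam k)) ^ 2 = SS lam n := rfl
    rw [h1, hM]
    nlinarith
  obtain ⟨h, h0, h1, h2, h3⟩ := treeDual (KR lam n) (KI lam n) hR.anti hI.anti (C2 * M)
    (by positivity)
    (fun f l hl => hW n (lb n) hT (side lam) hS (KR lam n) hR M hM1 (hL _ hR) f l hl)
    (fun f l hl => hW n (lb n) hT (side lam) hS (KI lam n) hI M hM1 (hL _ hI) f l hl)
  have e : 16 * (C2 * M) = 16 * (C2 * (C1 + 1)) * (1 + Real.sqrt (SS lam n)) := by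
    rw [hM]
    ring
  exact ⟨h, h0, h1, fun x => (h2 x).trans e.le, fun x => (h3 x).trans e.le⟩

end Pool.Agent.VC
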