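import Pool.Agent.VC.CapLim
import Pool.Agent.VC.TreeH

set_option autoImplicit false

open MeasureTheory Set

namespace Pool.Agent.VC

/-- lower bound of the analytic capacity -/
theorem capLow (κ : ℝ) (hκ : κ < 1 / 2) : ∃ c : ℝ, 0 < c ∧ ∀ lam : ℕ → ℝ,
    (∀ k, 1 / 4 ≤ lam k ∧ lam k ≤ κ) → ∀ B : ℝ, (∀ N, SS lam N ≤ B) →
    ENNReal.ofReal (c / Real.sqrt B) ≤ H52F.anCap (corner lam) := by
  obtain ⟨C1, hC1, H1⟩ := exists_h κ hκ
  obtain ⟨C2, hC2, H2⟩ := treeSup κ hκ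
  refine ⟨1 / (2 * (C2 * (1 + 2 * C1))), by positivity, fun lam hl B hB => ?_⟩
  have hB1 : 1 ≤ B := by
    have h1 := hB 1
    unfold SS at h1
    rw [Finset.sum_range_one] at h1
    unfold dens side at h1
    norm_num at h1
    exact h1
  have hs1 : 1 ≤ Real.sqrt B := Real.one_le_sqrt.2 hB1
  have hs0 : 0 < Real.sqrt B := by linarith
  choose h h01 hav hR hI using H1 lam hl
  have hM : 0 < C2 * (1 + 2 * C1) * Real.sqrt B := by positivity
  have hle : ∀ n, C1 * (1 + Real.sqrt (SS lam n)) ≤ C1 * (1 + Real.sqrt B) := fun n =>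
    mul_le_mul_of_nonneg_left (by linarith [Real.sqrt_le_sqrt (hB n)]) hC1.le
  have hb : ∀ n (w : ℂ), (∀ y, side lam n ≤ ‖w - ctr lam n y‖) →
      ‖Cau lam n (h n) w‖ ≤ C2 * (1 + 2 * C1) * Real.sqrt B := by
    intro n w hw
    have h2 := H2 lam hl n (h n) (h01 n) (C1 * (1 + Real.sqrt B))
      (fun x => (hR n x).trans (hle n)) (fun x => (hI n x).trans (hle n)) w hw
    refine h2.trans ?_
    rw [mul_assoc]
    refine mul_le_mul_of_nonneg_left ?_ hC2.le
    nlinarith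
  have h3 := capLim κ hκ lam hl (C2 * (1 + 2 * C1) * Real.sqrt B) hM h h01 hav hb
  refine le_trans (le_of_eq ?_) h3
  congr 1
  field_simp

end Pool.Agent.VC
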