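import Pool.Agent.VC.HBasic

set_option autoImplicit false

open MeasureTheory Set

namespace Pool.Agent.VC
namespace Sys

variable (S : Sys)

theorem corr_r_pos (i : ℕ) : 0 < S.r i := add_pos (S.Ppos i) (S.Qpos i)

theorem corr_E_mul_right (j b : ℕ) (c : ℝ) (F : ℝ → ℝ → ℝ) :
    S.E j b F * c = S.E j b (fun x y => F x y * c) := by
  rw [mul_comm, ← S.E_mul]
  congr 1
  funext x y
  ring

/-- correlation of two densities with the same base and `i`, `j` digits -/
theorem corr (b i j : ℕ) (t y : ℝ) : ∫ x, S.H b i t x * S.H b j t (x + y) =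
    S.E i b (fun u w => S.E j b (fun u' w' =>
      Phi2 (S.r (b + i)) (S.r (b + j)) (y + ((u' - u) + t * (w' - w))))) := by
  have hi := S.corr_r_pos (b + i)
  have hj := S.corr_r_pos (b + j)
  have e1 : ∀ x, S.H b i t x * S.H b j t (x + y) =
      S.E i b (fun u w => S.E j b (fun u' w' =>
        phi (S.r (b + i)) (x + (u + t * w)) * phi (S.r (b + j)) (x + (y + (u' + t * w'))))) := by
    intro x
    unfold H
    rw [S.corr_E_mul_right]
    congr 1
    funext u w
    rw [← S.E_mul]
    congr 1
    funext u' w'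
    rw [add_assoc]
  simp_rw [e1]
  have e2 : ∀ u w : ℝ, Integrable (fun x => S.E j b (fun u' w' =>
        phi (S.r (b + i)) (x + (u + t * w)) * phi (S.r (b + j)) (x + (y + (u' + t * w'))))) ∧
      ∫ x, S.E j b (fun u' w' =>
        phi (S.r (b + i)) (x + (u + t * w)) * phi (S.r (b + j)) (x + (y + (u' + t * w')))) =
      S.E j b (fun u' w' => ∫ x,
        phi (S.r (b + i)) (x + (u + t * w)) * phi (S.r (b + j)) (x + (y + (u' + t * w')))) :=
    fun u w => S.E_integral volume j b (fun x u' w' =>
        phi (S.r (b + i)) (x + (u + t * w)) * phi (S.r (b + j)) (x + (y + (u' + t * w'))))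
      (fun u' w' => phi_integrable_mul hi hj _ _)
  rw [(S.E_integral volume i b (fun x u w => S.E j b (fun u' w' =>
        phi (S.r (b + i)) (x + (u + t * w)) * phi (S.r (b + j)) (x + (y + (u' + t * w')))))
      (fun u w => (e2 u w).1)).2]
  congr 1
  funext u w
  rw [(e2 u w).2]
  congr 1
  funext u' w'
  rw [phi_integral_mul hi hj]
  congr 1
  ring

/-- integrated against `chi`, the shift being `m v_b(t)` -/
theorem corr_chi (b i j : ℕ) (m : ℝ) :
    ∫ t, chi t * (∫ x, S.H b i t x * S.H b j t (x + m * S.v b t)) =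
    S.E i b (fun u w => S.E j b (fun u' w' =>
      Psi (Phi2 (S.r (b + i)) (S.r (b + j))) (m * S.p b + (u' - u)) (m * S.q b + (w' - w)))) := by
  have hi := S.corr_r_pos (b + i)
  have hj := S.corr_r_pos (b + j)
  have e1 : ∀ t, chi t * (∫ x, S.H b i t x * S.H b j t (x + m * S.v b t)) =
      S.E i b (fun u w => S.E j b (fun u' w' =>
        chi t * Phi2 (S.r (b + i)) (S.r (b + j))
          (m * S.v b t + ((u' - u) + t * (w' - w))))) := by
    intro t
    rw [S.corr, ← S.E_mul]
    congr 1
    funext u w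
    rw [← S.E_mul]
  simp_rw [e1]
  have hint : ∀ u w u' w' : ℝ, Integrable (fun t => chi t * Phi2 (S.r (b + i)) (S.r (b + j))
          (m * S.v b t + ((u' - u) + t * (w' - w)))) := by
    intro u w u' w'
    apply chi_mul_integrable
    apply (Phi2_cont hi hj).comp
    unfold v
    fun_prop
  have e2 : ∀ u w : ℝ, Integrable (fun t => S.E j b (fun u' w' =>
        chi t * Phi2 (S.r (b + i)) (S.r (b + j))
          (m * S.v b t + ((u' - u) + t * (w' - w))))) ∧
      ∫ t, S.E j b (fun u' w' => chi t * Phi2 (S.r (b + i)) (S.r (b + j))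
          (m * S.v b t + ((u' - u) + t * (w' - w)))) =
      S.E j b (fun u' w' => ∫ t, chi t * Phi2 (S.r (b + i)) (S.r (b + j))
          (m * S.v b t + ((u' - u) + t * (w' - w)))) :=
    fun u w => S.E_integral volume j b (fun t u' w' =>
        chi t * Phi2 (S.r (b + i)) (S.r (b + j)) (m * S.v b t + ((u' - u) + t * (w' - w))))
      (fun u' w' => hint u w u' w')
  rw [(S.E_integral volume i b (fun t u w => S.E j b (fun u' w' =>
        chi t * Phi2 (S.r (b + i)) (S.r (b + j)) (m * S.v b t + ((u' - u) + t * (w' - w)))))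
      (fun u w => (e2 u w).1)).2]
  congr 1
  funext u w
  rw [(e2 u w).2]
  congr 1
  funext u' w'
  unfold Psi
  congr 1
  funext t
  unfold v
  congr 2
  ring

end Sys
end Pool.Agent.VC
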