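import Mathlib

/-!
# Covering a bipartite relation of bounded VC-dimension
-/

namespace Pool.Agent.VC

open Finset Classical

private theorem cover_card_small {X : Type} (S : Finset X) (d : ℕ) :
    (S.powerset.filter (fun T => T.card ≤ d)).card ≤ (S.card + 1) ^ d := by
  induction d with
  | zero =>
    have : S.powerset.filter (fun T => T.card ≤ 0) ⊆ {∅} := by
      intro T hT
      rw [mem_filter] at hT
      rw [mem_singleton]
      exact card_eq_zero.1 (Nat.le_zero.1 hT.2)
    calc _ ≤ ({∅} : Finset (Finset X)).card := card_le_card this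
      _ = 1 := card_singleton _
      _ ≤ _ := by simp
  | succ d ih =>
    let F : Option X × Finset X → Finset X := fun p => p.1.elim p.2 (fun x => insert x p.2)
    have hsub : S.powerset.filter (fun T => T.card ≤ d + 1) ⊆
        ((insertNone S) ×ˢ (S.powerset.filter (fun T => T.card ≤ d))).image F := by
      intro T hT
      rw [mem_filter, mem_powerset] at hT
      rw [mem_image]
      by_cases h : T.card ≤ d
      · refine ⟨(none, T), ?_, rfl⟩
        rw [mem_product, mem_filter, mem_powerset]
        exact ⟨none_mem_insertNone, hT.1, h⟩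
      · have hne : T.Nonempty := by
          rw [← card_pos]
          omega
        obtain ⟨x, hx⟩ := hne
        refine ⟨(some x, T.erase x), ?_, ?_⟩
        · rw [mem_product, mem_filter, mem_powerset]
          refine ⟨some_mem_insertNone.2 (hT.1 hx), (erase_subset _ _).trans hT.1, ?_⟩
          rw [card_erase_of_mem hx]
          omega
        · exact insert_erase hx
    calc _ ≤ _ := card_le_card hsub
      _ ≤ _ := card_image_le
      _ = (S.card + 1) * (S.powerset.filter (fun T => T.card ≤ d)).card := by
        rw [card_product, card_insertNone]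
      _ ≤ (S.card + 1) * (S.card + 1) ^ d := Nat.mul_le_mul_left _ ih
      _ = _ := by ring

private theorem cover_num (n N D : ℕ) (hn : 3 ≤ n) (hD : N < n ^ 9 * D) (hDN : D ≤ N) :
    ((N - D : ℕ) : ℝ) ^ (2 * n ^ 10) ≤ Real.exp (-(2 * n)) * (N : ℝ) ^ (2 * n ^ 10) := by
  have hn0 : (0 : ℝ) < (n : ℝ) := by
    have : 0 < n := by omega
    exact_mod_cast this
  have h1 : ((N - D : ℕ) : ℝ) ≤ Real.exp (-(1 / (n : ℝ) ^ 9)) * N := by
    rw [Nat.cast_sub hDN]
    have h2 : (N : ℝ) / (n : ℝ) ^ 9 ≤ D := by
      rw [div_le_iff₀ (by positivity)]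
      have : (N : ℝ) < (n : ℝ) ^ 9 * D := by exact_mod_cast hD
      nlinarith
    have h3 : 1 - 1 / (n : ℝ) ^ 9 ≤ Real.exp (-(1 / (n : ℝ) ^ 9)) := by
      have := Real.add_one_le_exp (-(1 / (n : ℝ) ^ 9))
      linarith
    calc (N : ℝ) - D ≤ N - N / (n : ℝ) ^ 9 := by linarith
      _ = (1 - 1 / (n : ℝ) ^ 9) * N := by ring
      _ ≤ _ := mul_le_mul_of_nonneg_right h3 (Nat.cast_nonneg _)
  calc ((N - D : ℕ) : ℝ) ^ (2 * n ^ 10)
      ≤ (Real.exp (-(1 / (n : ℝ) ^ 9)) * N) ^ (2 * n ^ 10) :=
        pow_le_pow_left₀ (Nat.cast_nonneg _) h1 _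
    _ = Real.exp (-(2 * n)) * (N : ℝ) ^ (2 * n ^ 10) := by
      rw [mul_pow, ← Real.exp_nat_mul]
      congr 2
      push_cast
      field_simp

/-- Bounded VC-dimension: the columns `{x | h x y}` fall into at most `n ^ (11 d)` classes of
diameter at most `2 |X| / n ^ 9`. -/
theorem exists_cover {X Y : Type} [Fintype X] [Fintype Y] (h : X → Y → Prop) (n d : ℕ)
    (hn : 3 ≤ n) (hX : 0 < Fintype.card X) (hY : Fintype.card Y ≤ 2 ^ n)
    (hvc : ∀ S : Finset X, (∀ T : Finset X, T ⊆ S → ∃ y, ∀ x ∈ S, (h x y ↔ x ∈ T)) →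
      S.card ≤ d) :
    ∃ (M : ℕ) (cl : Y → Fin M), M ≤ n ^ (11 * d) ∧ ∀ y y', cl y = cl y' →
      n ^ 9 * (univ.filter (fun x => ¬ (h x y ↔ h x y'))).card ≤ 2 * Fintype.card X := by
  set D : Y → Y → Finset X := fun y y' => univ.filter (fun x => ¬ (h x y ↔ h x y')) with hDdef
  have hDcomm : ∀ y y', D y y' = D y' y := by
    intro y y'
    ext x
    simp only [hDdef, mem_filter, mem_univ, true_and]
    tauto
  have hDself : ∀ y, D y y = ∅ := by
    intro y
    ext x
    simp [hDdef]
  have hDtri : ∀ y z y', D y y' ⊆ D y z ∪ D z y' := by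
    intro y z y' x
    simp only [hDdef, mem_filter, mem_univ, true_and, mem_union]
    tauto
  -- the maximal separated family
  obtain ⟨F, hF, hFmax⟩ := Finset.exists_max_image
    ((univ : Finset (Finset Y)).filter (fun F => ∀ y ∈ F, ∀ y' ∈ F, y ≠ y' →
      Fintype.card X < n ^ 9 * (D y y').card)) Finset.card ⟨∅, by simp⟩
  rw [mem_filter] at hF
  have hsep := hF.2
  have hcov : ∀ y, ∃ f ∈ F, n ^ 9 * (D y f).card ≤ Fintype.card X := by
    intro y
    by_contra hcon
    push Not at hcon
    have hy : y ∉ F := by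
      intro hy
      have := hcon y hy
      rw [hDself] at this
      simp at this
    have h1 := hFmax (insert y F) (by
      rw [mem_filter]
      refine ⟨mem_univ _, ?_⟩
      intro a ha b hb hab
      rw [mem_insert] at ha hb
      rcases ha with rfl | ha
      · rcases hb with rfl | hb
        · exact absurd rfl hab
        · exact hcon b hb
      · rcases hb with rfl | hb
        · rw [hDcomm]
          exact hcon a ha
        · exact hsep a ha b hb hab)
    rw [card_insert_of_notMem hy] at h1
    omega
  choose f hfF hf using hcov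
  refine ⟨F.card, fun y => F.equivFin ⟨f y, hfF y⟩, ?_, ?_⟩
  · -- the bound for the number of classes
    -- a sample which separates everything
    have hsample : ∃ ω : Fin (2 * n ^ 10) → X, ∀ y ∈ F, ∀ y' ∈ F, y ≠ y' → ∃ i, ω i ∈ D y y' := by
      by_contra hcon
      push Not at hcon
      have hsub : (univ : Finset (Fin (2 * n ^ 10) → X)) ⊆ F.offDiag.biUnion
          (fun p => Fintype.piFinset (fun _ => (D p.1 p.2)ᶜ)) := by
        intro ω _
        obtain ⟨y, hy, y', hy', hne, hω⟩ := hcon ω
        rw [mem_biUnion]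
        refine ⟨(y, y'), mem_offDiag.2 ⟨hy, hy', hne⟩, ?_⟩
        rw [Fintype.mem_piFinset]
        intro i
        rw [mem_compl]
        exact hω i
      have h1 := (card_le_card hsub).trans card_biUnion_le
      rw [card_univ, Fintype.card_fun, Fintype.card_fin] at h1
      have h2 : ((Fintype.card X : ℝ)) ^ (2 * n ^ 10) ≤
          ∑ p ∈ F.offDiag, Real.exp (-(2 * n)) * (Fintype.card X : ℝ) ^ (2 * n ^ 10) := by
        calc ((Fintype.card X : ℝ)) ^ (2 * n ^ 10) = ((Fintype.card X ^ (2 * n ^ 10) : ℕ) : ℝ) := by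
              push_cast; rfl
          _ ≤ ((∑ p ∈ F.offDiag, (Fintype.piFinset (fun _ : Fin (2 * n ^ 10) =>
              (D p.1 p.2)ᶜ)).card : ℕ) : ℝ) := by exact_mod_cast h1
          _ = ∑ p ∈ F.offDiag, ((Fintype.card X - (D p.1 p.2).card : ℕ) : ℝ) ^ (2 * n ^ 10) := by
            push_cast
            refine sum_congr rfl fun p _ => ?_
            rw [Fintype.card_piFinset_const, card_compl]
            push_cast
            rfl
          _ ≤ _ := by
            refine sum_le_sum fun p hp => ?_
            rw [mem_offDiag] at hp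
            exact cover_num n _ _ hn (hsep p.1 hp.1 p.2 hp.2.1 hp.2.2) (card_le_univ _)
      rw [sum_const, nsmul_eq_mul] at h2
      have h3 : ((F.offDiag.card : ℕ) : ℝ) ≤ 4 ^ n := by
        have h4 : F.offDiag.card ≤ 4 ^ n := by
          calc F.offDiag.card ≤ F.card * F.card := by
                rw [offDiag_card]
                exact Nat.sub_le _ _
            _ ≤ 2 ^ n * 2 ^ n := Nat.mul_le_mul ((card_le_univ _).trans hY)
                ((card_le_univ _).trans hY)
            _ = 4 ^ n := by rw [← mul_pow]; norm_num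
        exact_mod_cast h4
      have h5 : (4 : ℝ) ^ n * Real.exp (-(2 * n)) < 1 := by
        rw [Real.exp_neg, ← div_eq_mul_inv, div_lt_one (Real.exp_pos _)]
        have h6 : (2 : ℝ) < Real.exp 1 := lt_trans (by norm_num) Real.exp_one_gt_d9
        calc (4 : ℝ) ^ n = 2 ^ (2 * n) := by
              rw [pow_mul]; norm_num
          _ < Real.exp 1 ^ (2 * n) := by
            exact pow_lt_pow_left₀ h6 (by norm_num) (by omega)
          _ = Real.exp (2 * n) := by
            rw [← Real.exp_nat_mul]
            push_cast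
            ring_nf
      have h7 : (0 : ℝ) < (Fintype.card X : ℝ) ^ (2 * n ^ 10) := by
        have : (0 : ℝ) < Fintype.card X := by exact_mod_cast hX
        positivity
      have h8 : (F.offDiag.card : ℝ) * (Real.exp (-(2 * n)) * (Fintype.card X : ℝ) ^ (2 * n ^ 10))
          ≤ 4 ^ n * Real.exp (-(2 * n)) * (Fintype.card X : ℝ) ^ (2 * n ^ 10) := by
        rw [← mul_assoc]
        have := Real.exp_pos (-(2 * n) : ℝ)
        gcongr
      have h9 : 4 ^ n * Real.exp (-(2 * n)) * (Fintype.card X : ℝ) ^ (2 * n ^ 10) <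
          1 * (Fintype.card X : ℝ) ^ (2 * n ^ 10) := mul_lt_mul_of_pos_right h5 h7
      linarith
    obtain ⟨ω, hω⟩ := hsample
    set S : Finset X := univ.image ω with hS
    have hScard : S.card ≤ 2 * n ^ 10 := by
      calc S.card ≤ (univ : Finset (Fin (2 * n ^ 10))).card := card_image_le
        _ = _ := by rw [card_univ, Fintype.card_fin]
    set A : Finset (Finset X) := F.image (fun y => S.filter (fun x => h x y)) with hA
    have hAF : A.card = F.card := by
      rw [hA]
      refine card_image_of_injOn ?_
      intro y hy y' hy' heq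
      by_contra hne
      obtain ⟨i, hi⟩ := hω y hy y' hy' hne
      rw [hDdef] at hi
      simp only [mem_filter, mem_univ, true_and] at hi
      apply hi
      have hmem : ω i ∈ S := mem_image_of_mem _ (mem_univ _)
      have h1 : ω i ∈ S.filter (fun x => h x y) ↔ ω i ∈ S.filter (fun x => h x y') := by
        simp only at heq
        rw [heq]
      rw [mem_filter, mem_filter] at h1
      constructor
      · intro h2
        exact (h1.1 ⟨hmem, h2⟩).2
      · intro h2
        exact (h1.2 ⟨hmem, h2⟩).2
    have hsh : A.shatterer ⊆ S.powerset.filter (fun T => T.card ≤ d) := by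
      intro T hT
      rw [mem_shatterer] at hT
      rw [mem_filter, mem_powerset]
      have hTS : T ⊆ S := by
        obtain ⟨u, hu, hTu⟩ := hT (subset_refl T)
        rw [hA, mem_image] at hu
        obtain ⟨y, _, rfl⟩ := hu
        intro x hx
        rw [← hTu] at hx
        exact (mem_filter.1 (mem_inter.1 hx).2).1
      refine ⟨hTS, hvc T ?_⟩
      intro T' hT'
      obtain ⟨u, hu, hTu⟩ := hT hT'
      rw [hA, mem_image] at hu
      obtain ⟨y, _, rfl⟩ := hu
      refine ⟨y, fun x hx => ?_⟩
      rw [← hTu, mem_inter, mem_filter]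
      constructor
      · intro h1
        exact ⟨hx, hTS hx, h1⟩
      · intro h1
        exact h1.2.2
    calc F.card = A.card := hAF.symm
      _ ≤ A.shatterer.card := card_le_card_shatterer A
      _ ≤ (S.powerset.filter (fun T => T.card ≤ d)).card := card_le_card hsh
      _ ≤ (S.card + 1) ^ d := cover_card_small S d
      _ ≤ (n ^ 11) ^ d := by
        refine Nat.pow_le_pow_left ?_ d
        have h1 : 1 ≤ n ^ 10 := Nat.one_le_pow _ _ (by omega)
        calc S.card + 1 ≤ 2 * n ^ 10 + 1 := by omega
          _ ≤ 3 * n ^ 10 := by omega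
          _ ≤ n * n ^ 10 := Nat.mul_le_mul_right _ hn
          _ = n ^ 11 := by ring
      _ = n ^ (11 * d) := by rw [← pow_mul]
  · intro y y' hyy
    have h1 : f y = f y' := by
      have := F.equivFin.injective hyy
      exact congrArg Subtype.val this
    have h2 := hf y
    have h3 := hf y'
    rw [← h1, hDcomm] at h3
    have h4 : (D y y').card ≤ (D y (f y)).card + (D (f y) y').card :=
      (card_le_card (hDtri y (f y) y')).trans (card_union_le _ _)
    calc n ^ 9 * (D y y').card ≤ n ^ 9 * ((D y (f y)).card + (D (f y) y').card) :=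
          Nat.mul_le_mul_left _ h4
      _ = n ^ 9 * (D y (f y)).card + n ^ 9 * (D (f y) y').card := by ring
      _ ≤ 2 * Fintype.card X := by omega

end Pool.Agent.VC
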