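import Pool.Agent.VC.Phi

set_option autoImplicit false

open MeasureTheory Set

namespace Pool.Agent.VC

/-- the hypotheses on the bump functions -/
private structure Bump (K ρ : ℝ) (Φ : ℝ → ℝ) : Prop where
  pos : 0 < ρ
  cont : Continuous Φ
  nonneg : ∀ x, 0 ≤ Φ x
  int : ∫ x, Φ x = 1
  supp : ∀ x, ρ ≤ |x| → Φ x = 0
  le : ∀ x, Φ x ≤ K / ρ

private theorem Bump.integrable {K ρ : ℝ} {Φ : ℝ → ℝ} (h : Bump K ρ Φ) : Integrable Φ := by
  apply h.cont.integrable_of_hasCompactSupport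
  apply HasCompactSupport.intro (isCompact_Icc (a := -ρ) (b := ρ))
  intro x hx
  apply h.supp
  by_contra hlt
  push Not at hlt
  rw [abs_lt] at hlt
  exact hx ⟨hlt.1.le, hlt.2.le⟩

/-- crude bound -/
private theorem Bump.crude {K ρ : ℝ} {Φ : ℝ → ℝ} (h : Bump K ρ Φ) (hK : 1 ≤ K) (x y : ℝ) :
    Psi Φ x y ≤ 4 * (K / ρ) := by
  have hρ := h.pos
  have hKρ : 0 ≤ K / ρ := by positivity
  unfold Psi
  have h1 : ∀ t, chi t * Φ (x + t * y) ≤ (Icc (1 / 2 : ℝ) (5 / 2)).indicator
      (fun _ => 2 * (K / ρ)) t := by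
    intro t
    by_cases ht : t ∈ Icc (1 / 2 : ℝ) (5 / 2)
    · rw [indicator_of_mem ht]
      exact mul_le_mul (chi_le t) (h.le _) (h.nonneg _) (by norm_num)
    · rw [indicator_of_notMem ht]
      have : chi t = 0 := by
        apply chi_zero
        by_contra hc
        push Not at hc
        exact ht ⟨hc.1.le, hc.2.le⟩
      rw [this, zero_mul]
  have h2 : Integrable ((Icc (1 / 2 : ℝ) (5 / 2)).indicator (fun _ => 2 * (K / ρ))) := by
    rw [integrable_indicator_iff measurableSet_Icc]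
    exact integrableOn_const (by simp)
  have h3 : ∫ t, (Icc (1 / 2 : ℝ) (5 / 2)).indicator (fun _ => 2 * (K / ρ)) t = 4 * (K / ρ) := by
    rw [integral_indicator measurableSet_Icc, setIntegral_const, smul_eq_mul, measureReal_def,
      Real.volume_Icc, ENNReal.toReal_ofReal (by norm_num)]
    ring
  rw [← h3]
  apply integral_mono_of_nonneg
  · exact Filter.Eventually.of_forall fun t => mul_nonneg (chi_nonneg t) (h.nonneg _)
  · exact h2
  · exact Filter.Eventually.of_forall h1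

/-- substitution -/
private theorem subst (Φ : ℝ → ℝ) (x y : ℝ) (hy : y ≠ 0) :
    Psi Φ x y = |y|⁻¹ * ∫ s, chi (s / y) * Φ (x + s) := by
  have h1 := Measure.integral_comp_mul_left (fun s => chi (s / y) * Φ (x + s)) y
  unfold Psi
  rw [smul_eq_mul, abs_inv] at h1
  rw [← h1]
  congr 1
  funext t
  rw [mul_div_cancel_left₀ t hy, mul_comm y t]

private theorem Bump.main {K ρ : ℝ} {Φ : ℝ → ℝ} (h : Bump K ρ Φ) (x y : ℝ) (hy : y ≠ 0) :
    |Psi Φ x y - |y|⁻¹ * chi (-x / y)| ≤ 2 * ρ / y ^ 2 := by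
  have hρ := h.pos
  have hy' : 0 < |y| := abs_pos.2 hy
  have hint : Integrable (fun s => Φ (x + s)) := h.integrable.comp_add_left x
  have hone : ∫ s, Φ (x + s) = 1 := by
    rw [integral_add_left_eq_self (μ := volume) Φ x]; exact h.int
  have hint2 : Integrable (fun s => chi (s / y) * Φ (x + s)) := by
    apply hint.bdd_mul (c := 2)
    · exact (chi_cont.comp (continuous_id.div_const y)).aestronglyMeasurable
    · exact Filter.Eventually.of_forall fun s => by
        rw [Real.norm_of_nonneg (chi_nonneg _)]; exact chi_le _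
  have h2 : ∫ s, chi (s / y) * Φ (x + s) - chi (-x / y) * Φ (x + s)
      = (∫ s, chi (s / y) * Φ (x + s)) - chi (-x / y) := by
    rw [integral_sub hint2 (hint.const_mul _), integral_const_mul, hone, mul_one]
  have h3 : |(∫ s, chi (s / y) * Φ (x + s)) - chi (-x / y)| ≤ 2 * ρ / |y| := by
    rw [← h2]
    have h4 : ∀ s, ‖chi (s / y) * Φ (x + s) - chi (-x / y) * Φ (x + s)‖
        ≤ (2 * ρ / |y|) * Φ (x + s) := by
      intro s
      rw [← sub_mul, norm_mul, Real.norm_of_nonneg (h.nonneg _)]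
      by_cases hs : ρ ≤ |x + s|
      · rw [h.supp _ hs, mul_zero, mul_zero]
      · push Not at hs
        apply mul_le_mul_of_nonneg_right _ (h.nonneg _)
        have h5 : s / y - -x / y = (x + s) / y := by ring
        calc ‖chi (s / y) - chi (-x / y)‖ ≤ 2 * |s / y - -x / y| := chi_lip _ _
          _ = 2 * (|x + s| / |y|) := by rw [h5, abs_div]
          _ ≤ 2 * (ρ / |y|) := by gcongr
          _ = 2 * ρ / |y| := by ring
    have h6 := norm_integral_le_of_norm_le (hint.const_mul (2 * ρ / |y|))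
      (Filter.Eventually.of_forall h4)
    rw [integral_const_mul, hone, mul_one] at h6
    exact h6
  rw [subst Φ x y hy, ← mul_sub, abs_mul, abs_of_pos (inv_pos.2 hy')]
  calc |y|⁻¹ * |(∫ s, chi (s / y) * Φ (x + s)) - chi (-x / y)| ≤ |y|⁻¹ * (2 * ρ / |y|) := by
        gcongr
    _ = 2 * ρ / y ^ 2 := by
        rw [← sq_abs y]
        field_simp

private theorem Bump.far {K ρ : ℝ} {Φ : ℝ → ℝ} (h : Bump K ρ Φ) (x y : ℝ) (hy : y ≠ 0) :
    Psi Φ x y ≤ 2 / |y| := by
  have hy' : 0 < |y| := abs_pos.2 hy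
  have hint : Integrable (fun s => Φ (x + s)) := h.integrable.comp_add_left x
  have hone : ∫ s, Φ (x + s) = 1 := by
    rw [integral_add_left_eq_self (μ := volume) Φ x]; exact h.int
  rw [subst Φ x y hy]
  have h1 : ∫ s, chi (s / y) * Φ (x + s) ≤ ∫ s, 2 * Φ (x + s) := by
    apply integral_mono_of_nonneg
    · exact Filter.Eventually.of_forall fun t => mul_nonneg (chi_nonneg _) (h.nonneg _)
    · exact hint.const_mul 2
    · exact Filter.Eventually.of_forall fun s => mul_le_mul_of_nonneg_right (chi_le _) (h.nonneg _)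
  rw [integral_const_mul, hone, mul_one] at h1
  calc |y|⁻¹ * ∫ s, chi (s / y) * Φ (x + s) ≤ |y|⁻¹ * 2 := by gcongr
    _ = 2 / |y| := by ring

theorem Psi_nonneg (Φ : ℝ → ℝ) (h : ∀ x, 0 ≤ Φ x) (x y : ℝ) : 0 ≤ Psi Φ x y :=
  integral_nonneg fun t => mul_nonneg (chi_nonneg t) (h _)

private theorem Bump.zero {K ρ : ℝ} {Φ : ℝ → ℝ} (h : Bump K ρ Φ) (x y : ℝ)
    (hxy : ρ + 5 / 2 * |y| ≤ |x|) : Psi Φ x y = 0 := by
  unfold Psi
  have h1 : (fun t => chi t * Φ (x + t * y)) = fun _ => 0 := by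
    funext t
    by_cases ht : t ≤ 1 / 2 ∨ 5 / 2 ≤ t
    · rw [chi_zero ht, zero_mul]
    · push Not at ht
      have h2 : |t * y| ≤ 5 / 2 * |y| := by
        rw [abs_mul, abs_of_pos (by linarith [ht.1])]
        exact mul_le_mul_of_nonneg_right ht.2.le (abs_nonneg y)
      have h3 : ρ ≤ |x + t * y| := by
        have h4 := abs_sub_abs_le_abs_sub x (-(t * y))
        rw [abs_neg, sub_neg_eq_add] at h4
        linarith
      rw [h.supp _ h3, mul_zero]
  rw [h1, integral_zero]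

theorem Psi_le (K : ℝ) (hK : 1 ≤ K) : ∃ C : ℝ, 0 < C ∧ ∀ (ρ : ℝ) (Φ : ℝ → ℝ), 0 < ρ →
    Continuous Φ → (∀ x, 0 ≤ Φ x) → (∫ x, Φ x = 1) → (∀ x, ρ ≤ |x| → Φ x = 0) →
    (∀ x, Φ x ≤ K / ρ) → ∀ x y, Psi Φ x y * max |x| |y| ≤ C := by
  refine ⟨48 * K + 8, by positivity, ?_⟩
  intro ρ Φ hρ h1 h2 h3 h4 h5 x y
  have h : Bump K ρ Φ := ⟨hρ, h1, h2, h3, h4, h5⟩
  have h0 := Psi_nonneg Φ h2 x y
  set w := max |x| |y| with hw
  have hxw : |x| ≤ w := le_max_left _ _
  have hyw : |y| ≤ w := le_max_right _ _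
  have hw0 : 0 ≤ w := (abs_nonneg x).trans hxw
  rcases le_or_gt w (12 * ρ) with hc | hc
  · calc Psi Φ x y * w ≤ (4 * (K / ρ)) * (12 * ρ) :=
          mul_le_mul (h.crude hK x y) hc hw0 (by positivity)
      _ = 48 * K := by field_simp; ring
      _ ≤ 48 * K + 8 := by linarith
  · rcases le_or_gt (w / 4) |y| with hy | hy
    · have hy0 : 0 < |y| := by linarith
      calc Psi Φ x y * w ≤ (2 / |y|) * (4 * |y|) :=
            mul_le_mul (h.far x y (abs_pos.1 hy0)) (by linarith) hw0 (by positivity)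
        _ = 8 := by field_simp; ring
        _ ≤ 48 * K + 8 := by linarith
    · have hx : |x| = w := by
        rcases le_total |x| |y| with h6 | h6
        · exfalso
          have : w = |y| := max_eq_right h6
          linarith
        · exact (max_eq_left h6).symm
      rw [h.zero x y (by rw [hx]; linarith), zero_mul]
      positivity

theorem Psi_diff (K : ℝ) (hK : 1 ≤ K) : ∃ C : ℝ, 0 < C ∧ ∀ (ρ : ℝ) (Φ Φ' : ℝ → ℝ), 0 < ρ →
    Continuous Φ → (∀ x, 0 ≤ Φ x) → (∫ x, Φ x = 1) → (∀ x, ρ ≤ |x| → Φ x = 0) →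
    (∀ x, Φ x ≤ K / ρ) →
    Continuous Φ' → (∀ x, 0 ≤ Φ' x) → (∫ x, Φ' x = 1) → (∀ x, ρ ≤ |x| → Φ' x = 0) →
    (∀ x, Φ' x ≤ K / ρ) →
    ∀ x y x' y', |x - x'| ≤ ρ → |y - y'| ≤ ρ →
      |Psi Φ x y - Psi Φ' x' y'| * (max |x| |y|) ^ 2 ≤ C * ρ := by
  refine ⟨576 * K + 728, by positivity, ?_⟩
  intro ρ Φ Φ' hρ h1 h2 h3 h4 h5 h1' h2' h3' h4' h5' x y x' y' hx hy
  have h : Bump K ρ Φ := ⟨hρ, h1, h2, h3, h4, h5⟩
  have h' : Bump K ρ Φ' := ⟨hρ, h1', h2', h3', h4', h5'⟩
  have h0 := Psi_nonneg Φ h2 x y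
  have h0' := Psi_nonneg Φ' h2' x' y'
  set w := max |x| |y| with hw
  have hxw : |x| ≤ w := le_max_left _ _
  have hyw : |y| ≤ w := le_max_right _ _
  have hw0 : 0 ≤ w := (abs_nonneg x).trans hxw
  rcases le_or_gt w (12 * ρ) with hc | hc
  · have h6 : |Psi Φ x y - Psi Φ' x' y'| ≤ 4 * (K / ρ) := by
      rw [abs_le]
      constructor
      · linarith [h'.crude hK x' y']
      · linarith [h.crude hK x y]
    calc |Psi Φ x y - Psi Φ' x' y'| * w ^ 2 ≤ (4 * (K / ρ)) * (12 * ρ) ^ 2 := by gcongr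
      _ = 576 * K * ρ := by field_simp; ring
      _ ≤ (576 * K + 728) * ρ := by nlinarith
  · have hwp : 0 < w := by linarith
    rcases le_or_gt (w / 4) |y| with hyc | hyc
    · -- the main case
      have hy0 : 0 < |y| := by linarith
      have hyn : y ≠ 0 := abs_pos.1 hy0
      have hy1 : w / 6 ≤ |y'| := by
        have := abs_sub_abs_le_abs_sub y y'
        linarith
      have hy0' : 0 < |y'| := by linarith
      have hyn' : y' ≠ 0 := abs_pos.1 hy0'
      have e1 := h.main x y hyn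
      have e2 := h'.main x' y' hyn'
      have e3 : 2 * ρ / y ^ 2 ≤ 32 * ρ / w ^ 2 := by
        rw [div_le_div_iff₀ (by rw [← sq_abs]; positivity) (by positivity), ← sq_abs y]
        have : w ^ 2 ≤ 16 * |y| ^ 2 := by nlinarith
        nlinarith
      have e4 : 2 * ρ / y' ^ 2 ≤ 72 * ρ / w ^ 2 := by
        rw [div_le_div_iff₀ (by rw [← sq_abs]; positivity) (by positivity), ← sq_abs y']
        have : w ^ 2 ≤ 36 * |y'| ^ 2 := by nlinarith
        nlinarith
      have e5 : |y|⁻¹ ≤ 4 / w := by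
        rw [inv_le_comm₀ hy0 (by positivity), inv_div]
        exact hyc
      have e6 : |y'|⁻¹ ≤ 6 / w := by
        rw [inv_le_comm₀ hy0' (by positivity), inv_div]
        exact hy1
      have e7 : |(|y|⁻¹ - |y'|⁻¹)| ≤ 24 * ρ / w ^ 2 := by
        have h7 : |y|⁻¹ - |y'|⁻¹ = (|y'| - |y|) * (|y|⁻¹ * |y'|⁻¹) := by field_simp
        rw [h7, abs_mul, abs_of_pos (by positivity : 0 < |y|⁻¹ * |y'|⁻¹)]
        have h8 : |(|y'| - |y|)| ≤ ρ := by
          have := abs_abs_sub_abs_le_abs_sub y' y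
          rw [abs_sub_comm y' y] at this
          linarith
        calc |(|y'| - |y|)| * (|y|⁻¹ * |y'|⁻¹) ≤ ρ * ((4 / w) * (6 / w)) := by gcongr
          _ = 24 * ρ / w ^ 2 := by field_simp; ring
      have e8 : |(-x / y) - (-x' / y')| ≤ 48 * ρ / w := by
        have h7 : (-x / y) - (-x' / y') = (x * (y - y') - y * (x - x')) * (y⁻¹ * y'⁻¹) := by
          field_simp; ring
        rw [h7, abs_mul, abs_mul, abs_inv, abs_inv]
        have h8 : |x * (y - y') - y * (x - x')| ≤ 2 * w * ρ := by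
          calc |x * (y - y') - y * (x - x')| ≤ |x * (y - y')| + |y * (x - x')| := abs_sub _ _
            _ = |x| * |y - y'| + |y| * |x - x'| := by rw [abs_mul, abs_mul]
            _ ≤ w * ρ + w * ρ := by gcongr
            _ = 2 * w * ρ := by ring
        calc |x * (y - y') - y * (x - x')| * (|y|⁻¹ * |y'|⁻¹)
            ≤ (2 * w * ρ) * ((4 / w) * (6 / w)) := by gcongr
          _ = 48 * ρ / w := by field_simp; ring
      have e9 : |(|y|⁻¹ * chi (-x / y) - |y'|⁻¹ * chi (-x' / y'))| ≤ 624 * ρ / w ^ 2 := by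
        have h7 : |y|⁻¹ * chi (-x / y) - |y'|⁻¹ * chi (-x' / y') =
          (|y|⁻¹ - |y'|⁻¹) * chi (-x / y) + |y'|⁻¹ * (chi (-x / y) - chi (-x' / y')) := by ring
        rw [h7]
        calc |(|y|⁻¹ - |y'|⁻¹) * chi (-x / y) + |y'|⁻¹ * (chi (-x / y) - chi (-x' / y'))|
            ≤ |(|y|⁻¹ - |y'|⁻¹) * chi (-x / y)| + |(|y'|⁻¹ * (chi (-x / y) - chi (-x' / y')))| :=
              abs_add_le _ _
          _ = |(|y|⁻¹ - |y'|⁻¹)| * chi (-x / y) + |y'|⁻¹ * |chi (-x / y) - chi (-x' / y')| := by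
              rw [abs_mul, abs_mul, abs_of_nonneg (chi_nonneg (-x / y)),
                abs_of_pos (inv_pos.2 hy0')]
          _ ≤ (24 * ρ / w ^ 2) * 2 + (6 / w) * (2 * (48 * ρ / w)) := by
              have h9 := chi_lip (-x / y) (-x' / y')
              have h10 := chi_le (-x / y)
              have h11 := chi_nonneg (-x / y)
              have h12 : |chi (-x / y) - chi (-x' / y')| ≤ 2 * (48 * ρ / w) := by linarith
              gcongr
          _ = 624 * ρ / w ^ 2 := by field_simp; ring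
      have e10 : |Psi Φ x y - Psi Φ' x' y'| ≤ 728 * ρ / w ^ 2 := by
        have h7 : Psi Φ x y - Psi Φ' x' y' = (Psi Φ x y - |y|⁻¹ * chi (-x / y))
          + (|y|⁻¹ * chi (-x / y) - |y'|⁻¹ * chi (-x' / y'))
          - (Psi Φ' x' y' - |y'|⁻¹ * chi (-x' / y')) := by ring
        have h13 : 728 * ρ / w ^ 2 = 32 * ρ / w ^ 2 + 624 * ρ / w ^ 2 + 72 * ρ / w ^ 2 := by ring
        rw [h13]
        have a1 := abs_le.1 (e1.trans e3)
        have a2 := abs_le.1 (e2.trans e4)
        have a3 := abs_le.1 e9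
        rw [h7, abs_le]
        constructor
        · linarith [a1.1, a2.2, a3.1]
        · linarith [a1.2, a2.1, a3.2]
      calc |Psi Φ x y - Psi Φ' x' y'| * w ^ 2 ≤ (728 * ρ / w ^ 2) * w ^ 2 := by gcongr
        _ = 728 * ρ := by field_simp
        _ ≤ (576 * K + 728) * ρ := by nlinarith
    · -- both vanish
      have hx0 : |x| = w := by
        rcases le_total |x| |y| with h6 | h6
        · exfalso
          have : w = |y| := max_eq_right h6
          linarith
        · exact (max_eq_left h6).symm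
      have hx' : w - ρ ≤ |x'| := by
        have := abs_sub_abs_le_abs_sub x x'
        linarith
      have hy' : |y'| ≤ w / 4 + ρ := by
        have := abs_sub_abs_le_abs_sub y' y
        rw [abs_sub_comm y' y] at this
        linarith
      rw [h.zero x y (by rw [hx0]; linarith), h'.zero x' y' (by linarith), sub_zero, abs_zero,
        zero_mul]
      positivity

end Pool.Agent.VC
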