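import Pool.Agent.VC.Corr
import Pool.Agent.VC.SubL

set_option autoImplicit false

open MeasureTheory Set

namespace Pool.Agent.VC
namespace Sys

/-- comparison of expectations over `j + e` and `j` digits -/
theorem crs_cmp (S : Sys) (b j e : ℕ) (F G : ℝ → ℝ → ℝ) (c : ℝ)
    (h : ∀ x y x' y', |x| ≤ S.P b - S.P (b + j) → |y| ≤ S.Q b - S.Q (b + j) →
      |x'| ≤ S.P (b + j) - S.P (b + j + e) → |y'| ≤ S.Q (b + j) - S.Q (b + j + e) →
      |F (x + x') (y + y') - G x y| ≤ c) :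
    |S.E (j + e) b F - S.E j b G| ≤ c := by
  rw [E_comp, ← E_sub]
  refine S.abs_E_le_supp j b _ c fun x y hx hy => ?_
  have h1 : S.E e (b + j) (fun x' y' => F (x + x') (y + y')) - G x y =
      S.E e (b + j) (fun x' y' => F (x + x') (y + y') - G x y) := by
    rw [E_sub S e (b + j) (fun x' y' => F (x + x') (y + y')) (fun _ _ => G x y), E_const]
  rw [h1]
  exact S.abs_E_le_supp e (b + j) _ c fun x' y' hx' hy' => h x y x' y' hx hy hx' hy'

/-- the double expectation -/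
noncomputable def crsM (S : Sys) (b i j : ℕ) (m : ℝ) : ℝ :=
  S.E i b (fun u w => S.E j b (fun u' w' =>
    Psi (Phi2 (S.r (b + i)) (S.r (b + j))) (m * S.p b + (u' - u)) (m * S.q b + (w' - w))))

theorem crs_cont (S : Sys) (b i j : ℕ) (m : ℝ) :
    Continuous fun t => ∫ x, S.H b i t x * S.H b j t (x + m * S.v b t) := by
  simp only [corr]
  refine E_continuous S i b _ fun u w => ?_
  refine E_continuous S j b _ fun u' w' => ?_
  refine (Phi2_cont (S.r_pos _) (S.r_pos _)).comp ?_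
  unfold v
  fun_prop

theorem crs_int (S : Sys) (b i j : ℕ) (t a : ℝ) :
    Integrable fun x => S.H b i t x * S.H b j t (x + a) := by
  apply Continuous.integrable_of_hasCompactSupport
  · exact (S.H_cont_right b i t).mul ((S.H_cont_right b j t).comp (continuous_add_const a))
  · exact (S.H_compact b i t).mul_right

theorem crs_int4 (f₁ f₂ f₃ f₄ : ℝ → ℝ) (h₁ : Integrable f₁) (h₂ : Integrable f₂)
    (h₃ : Integrable f₃) (h₄ : Integrable f₄) :
    ∫ x, (f₁ x - f₂ x - f₃ x + f₄ x) = (∫ x, f₁ x) - (∫ x, f₂ x) - (∫ x, f₃ x) + ∫ x, f₄ x := by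
  have e1 : ∫ x, (f₁ x - f₂ x - f₃ x + f₄ x) = (∫ x, (f₁ x - f₂ x - f₃ x)) + ∫ x, f₄ x :=
    integral_add ((h₁.sub h₂).sub h₃) h₄
  have e2 : ∫ x, (f₁ x - f₂ x - f₃ x) = (∫ x, (f₁ x - f₂ x)) - ∫ x, f₃ x :=
    integral_sub (h₁.sub h₂) h₃
  have e3 : ∫ x, (f₁ x - f₂ x) = (∫ x, f₁ x) - ∫ x, f₂ x := integral_sub h₁ h₂
  rw [e1, e2, e3]

/-- lower bound for the distance of the two copies -/
theorem crs_W (S : Sys) (b j : ℕ) (hs : S.sep b) (m : ℝ) (hm : m = 1 ∨ m = 2) (u w u' w' : ℝ)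
    (hu : |u| ≤ S.P b - S.P (b + j)) (hw : |w| ≤ S.Q b - S.Q (b + j))
    (hu' : |u'| ≤ S.P b - S.P (b + j)) (hw' : |w'| ≤ S.Q b - S.Q (b + j)) :
    S.r b / 15 ≤ max |m * S.p b + (u' - u)| |m * S.q b + (w' - w)| := by
  have hP := S.Ppos (b + j)
  have hQ := S.Qpos (b + j)
  have hm1 : 1 ≤ m := by
    rcases hm with h | h
    · exact h.ge
    · rw [h]
      norm_num
  rw [abs_le] at hu hw hu' hw'
  rcases hs with h | h
  · refine le_max_of_le_left ?_
    have h1 : S.p b ≤ m * S.p b := by nlinarith [S.p_nonneg b]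
    have h2 := S.r_le_P b
    refine le_trans ?_ (le_abs_self _)
    linarith [hu.2, hu'.1]
  · refine le_max_of_le_right ?_
    have h1 : S.q b ≤ m * S.q b := by nlinarith [S.q_nonneg b]
    have h2 := S.r_le_Q b
    refine le_trans ?_ (le_abs_self _)
    linarith [hw.2, hw'.1]

theorem crs_r (S : Sys) (g e : ℕ) (he : e ≤ 1) : 2 / 5 * S.r g ≤ S.r (g + e) := by
  have h1 := S.r_lower g e
  have h2 := S.r_pos g
  have h3 := S.r_pos (g + e)
  interval_cases e
  · rw [pow_zero, one_mul] at h1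
    linarith
  · rw [pow_one] at h1
    linarith

/-- cross terms of the energy -/
theorem crossH : ∃ C : ℝ, 0 < C ∧ ∀ (S : Sys) (b j : ℕ), S.sep b → ∀ m : ℝ, (m = 1 ∨ m = 2) →
    |∫ t, chi t * (∫ x, S.H b j t x * S.H b j t (x + m * S.v b t))| ≤ C / S.r b := by
  obtain ⟨C, hC, h⟩ := Psi_le 2 (by norm_num)
  refine ⟨15 * C, by positivity, fun S b j hs m hm => ?_⟩
  have hr := S.r_pos b
  have hg := S.r_pos (b + j)
  rw [corr_chi]
  refine S.abs_E_le_supp j b _ _ fun u w hu hw => ?_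
  refine S.abs_E_le_supp j b _ _ fun u' w' hu' hw' => ?_
  have h1 := h (2 * S.r (b + j)) (Phi2 (S.r (b + j)) (S.r (b + j))) (by positivity)
    (Phi2_cont hg hg) (Phi2_nonneg hg hg) (Phi2_integral hg hg)
    (fun x hx => Phi2_zero hg hg (by linarith))
    (fun x => (Phi2_le_left hg hg x).trans (le_of_eq (by field_simp)))
    (m * S.p b + (u' - u)) (m * S.q b + (w' - w))
  have h2 := S.crs_W b j hs m hm u w u' w' hu hw hu' hw'
  have h3 := Psi_nonneg (Phi2 (S.r (b + j)) (S.r (b + j))) (Phi2_nonneg hg hg)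
    (m * S.p b + (u' - u)) (m * S.q b + (w' - w))
  rw [abs_of_nonneg h3, le_div_iff₀ hr]
  have h4 := mul_le_mul_of_nonneg_left h2 h3
  linarith

/-- comparison of the double expectations -/
theorem crs_diff : ∃ C : ℝ, 0 < C ∧ ∀ (S : Sys) (b j e₁ e₂ : ℕ), e₁ ≤ 1 → e₂ ≤ 1 → S.sep b →
    ∀ m : ℝ, (m = 1 ∨ m = 2) →
    |S.crsM b (j + e₁) (j + e₂) m - S.crsM b j j m| ≤ C * S.r (b + j) / S.r b ^ 2 := by
  obtain ⟨C, hC, h⟩ := Psi_diff 5 (by norm_num)
  refine ⟨450 * C, by positivity, fun S b j e₁ e₂ he₁ he₂ hs m hm => ?_⟩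
  have hr := S.r_pos b
  have hg := S.r_pos (b + j)
  have hg1 := S.r_pos (b + j + e₁)
  have hg2 := S.r_pos (b + j + e₂)
  unfold crsM
  refine S.crs_cmp b j e₁ _ _ _ fun u w d k hu hw hd hk => ?_
  refine S.crs_cmp b j e₂ _ _ _ fun u' w' d' k' hu' hw' hd' hk' => ?_
  rw [← add_assoc b j e₁, ← add_assoc b j e₂]
  have k1 := S.crs_r (b + j) e₁ he₁
  have k2 := S.crs_r (b + j) e₂ he₂
  have a1 : S.r (b + j + e₁) ≤ S.r (b + j) := S.r_anti (Nat.le_add_right _ _)
  have a2 : S.r (b + j + e₂) ≤ S.r (b + j) := S.r_anti (Nat.le_add_right _ _)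
  have hPr := S.P_le_r (b + j)
  have hQr := S.Q_le_r (b + j)
  have p1 := S.Ppos (b + j + e₁)
  have p2 := S.Ppos (b + j + e₂)
  have q1 := S.Qpos (b + j + e₁)
  have q2 := S.Qpos (b + j + e₂)
  have h1 := h (2 * S.r (b + j)) (Phi2 (S.r (b + j)) (S.r (b + j)))
    (Phi2 (S.r (b + j + e₁)) (S.r (b + j + e₂))) (by positivity)
    (Phi2_cont hg hg) (Phi2_nonneg hg hg) (Phi2_integral hg hg)
    (fun x hx => Phi2_zero hg hg (by linarith))
    (fun x => (Phi2_le_left hg hg x).trans (by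
      rw [div_le_div_iff₀ hg (by positivity)]
      linarith))
    (Phi2_cont hg1 hg2) (Phi2_nonneg hg1 hg2) (Phi2_integral hg1 hg2)
    (fun x hx => Phi2_zero hg1 hg2 (by linarith))
    (fun x => (Phi2_le_left hg1 hg2 x).trans (by
      rw [div_le_div_iff₀ hg1 (by positivity)]
      linarith))
    (m * S.p b + (u' - u)) (m * S.q b + (w' - w))
    (m * S.p b + (u' + d' - (u + d))) (m * S.q b + (w' + k' - (w + k)))
    (by
      rw [abs_le] at hd hd' ⊢
      constructor <;> linarith [hd.1, hd.2, hd'.1, hd'.2])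
    (by
      rw [abs_le] at hk hk' ⊢
      constructor <;> linarith [hk.1, hk.2, hk'.1, hk'.2])
  have h2 := S.crs_W b j hs m hm u w u' w' hu hw hu' hw'
  rw [abs_sub_comm] at h1
  set X := |Psi (Phi2 (S.r (b + j + e₁)) (S.r (b + j + e₂))) (m * S.p b + (u' + d' - (u + d)))
    (m * S.q b + (w' + k' - (w + k))) - Psi (Phi2 (S.r (b + j)) (S.r (b + j)))
    (m * S.p b + (u' - u)) (m * S.q b + (w' - w))| with hX
  have hX0 : 0 ≤ X := abs_nonneg _
  have h3 : (S.r b / 15) ^ 2 ≤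
      (max |m * S.p b + (u' - u)| |m * S.q b + (w' - w)|) ^ 2 := by gcongr
  have h4 := mul_le_mul_of_nonneg_left h3 hX0
  rw [le_div_iff₀ (by positivity)]
  have h5 : X * (S.r b / 15) ^ 2 = X * S.r b ^ 2 / 225 := by ring
  rw [h5] at h4
  linarith

/-- cross terms of the energy of the differences -/
theorem crossD : ∃ C : ℝ, 0 < C ∧ ∀ (S : Sys) (b j : ℕ), S.sep b → ∀ m : ℝ, (m = 1 ∨ m = 2) →
    |∫ t, chi t * (∫ x, S.D b j t x * S.D b j t (x + m * S.v b t))| ≤
      C * S.r (b + j) / S.r b ^ 2 := by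
  obtain ⟨C, hC, h⟩ := crs_diff
  refine ⟨3 * C, by positivity, fun S b j hs m hm => ?_⟩
  have h11 := h S b j 1 1 le_rfl le_rfl hs m hm
  have h10 := h S b j 1 0 le_rfl (by norm_num) hs m hm
  have h01 := h S b j 0 1 (by norm_num) le_rfl hs m hm
  simp only [Nat.add_zero] at h10 h01
  have hsplit : ∫ t, chi t * (∫ x, S.D b j t x * S.D b j t (x + m * S.v b t)) =
      S.crsM b (j + 1) (j + 1) m - S.crsM b (j + 1) j m - S.crsM b j (j + 1) m +
        S.crsM b j j m := by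
    have e1 : ∀ t, (∫ x, S.D b j t x * S.D b j t (x + m * S.v b t)) =
        (∫ x, S.H b (j + 1) t x * S.H b (j + 1) t (x + m * S.v b t)) -
        (∫ x, S.H b (j + 1) t x * S.H b j t (x + m * S.v b t)) -
        (∫ x, S.H b j t x * S.H b (j + 1) t (x + m * S.v b t)) +
        (∫ x, S.H b j t x * S.H b j t (x + m * S.v b t)) := by
      intro t
      have i11 := S.crs_int b (j + 1) (j + 1) t (m * S.v b t)
      have i10 := S.crs_int b (j + 1) j t (m * S.v b t)
      have i01 := S.crs_int b j (j + 1) t (m * S.v b t)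
      have i00 := S.crs_int b j j t (m * S.v b t)
      refine Eq.trans (integral_congr_ae (Filter.Eventually.of_forall fun x => ?_))
        (crs_int4 _ _ _ _ i11 i10 i01 i00)
      simp only [D]
      ring
    have c11 := chi_mul_integrable (S.crs_cont b (j + 1) (j + 1) m)
    have c10 := chi_mul_integrable (S.crs_cont b (j + 1) j m)
    have c01 := chi_mul_integrable (S.crs_cont b j (j + 1) m)
    have c00 := chi_mul_integrable (S.crs_cont b j j m)
    have e2 : ∫ t, chi t * (∫ x, S.D b j t x * S.D b j t (x + m * S.v b t)) =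
        (∫ t, chi t * (∫ x, S.H b (j + 1) t x * S.H b (j + 1) t (x + m * S.v b t))) -
        (∫ t, chi t * (∫ x, S.H b (j + 1) t x * S.H b j t (x + m * S.v b t))) -
        (∫ t, chi t * (∫ x, S.H b j t x * S.H b (j + 1) t (x + m * S.v b t))) +
        (∫ t, chi t * (∫ x, S.H b j t x * S.H b j t (x + m * S.v b t))) := by
      refine Eq.trans (integral_congr_ae (Filter.Eventually.of_forall fun t => ?_))
        (crs_int4 _ _ _ _ c11 c10 c01 c00)
      simp only [e1]
      ring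
    rw [e2, corr_chi, corr_chi, corr_chi, corr_chi]
    rfl
  have h3 : S.crsM b (j + 1) (j + 1) m - S.crsM b (j + 1) j m - S.crsM b j (j + 1) m +
        S.crsM b j j m = (S.crsM b (j + 1) (j + 1) m - S.crsM b j j m) -
        (S.crsM b (j + 1) j m - S.crsM b j j m) - (S.crsM b j (j + 1) m - S.crsM b j j m) := by
    ring
  have h4 : 3 * C * S.r (b + j) / S.r b ^ 2 = 3 * (C * S.r (b + j) / S.r b ^ 2) := by ring
  rw [hsplit, h3, h4]
  rw [abs_le] at h11 h10 h01 ⊢
  constructor <;> linarith [h11.1, h11.2, h10.1, h10.2, h01.1, h01.2]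

end Sys
end Pool.Agent.VC
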