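import Mathlib

/-!
# Even and odd positions of the hypercube
-/

namespace Pool.Agent.VC

open Finset Classical

/-- Number of ones. -/
def ones {n : ℕ} (x : Fin n → Bool) : ℕ := (univ.filter (fun i => x i = true)).card

/-- Even positions. -/
abbrev EPos (n : ℕ) : Type := {x : Fin n → Bool // Even (ones x)}

/-- Odd positions. -/
abbrev OPos (n : ℕ) : Type := {x : Fin n → Bool // ¬ Even (ones x)}

/-- Adjacency of an even and an odd position. -/
def Adj {n : ℕ} (a : EPos n) (b : OPos n) : Prop := hammingDist a.1 b.1 = 1

end Pool.Agent.VC
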