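import Pool.Agent.VC.Order

/-!
# Cutting into intervals
-/

namespace Pool.Agent.VC

open Finset Classical

/-- Ranking of a finite type by an injective key. -/
theorem cut_rank {P : Type} [Fintype P] (key : P → ℕ) (hinj : Function.Injective key) :
    ∃ r : P ≃ Fin (Fintype.card P), ∀ b b', key b < key b' → (r b : ℕ) < r b' := by
  let _ : LinearOrder P := LinearOrder.lift' key hinj
  refine ⟨(Fintype.orderIsoFinOfCardEq P rfl).symm.toEquiv, ?_⟩
  intro b b' h
  have h1 : b < b' := h
  have h2 := (Fintype.orderIsoFinOfCardEq P rfl).symm.strictMono h1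
  exact h2

/-- Consecutive intervals of given sizes. -/
theorem cut_intervals {J : Type} [Fintype J] (q : J → ℕ) (N : ℕ) (hsum : ∑ j, q j = N) :
    ∃ T : J → ℕ, (∀ j j', j ≠ j' → T j + q j ≤ T j' ∨ T j' + q j' ≤ T j) ∧
      ∀ r, r < N → ∃ j, T j ≤ r ∧ r < T j + q j := by
  set e : J ≃ Fin (Fintype.card J) := Fintype.equivFin J with he
  set T : J → ℕ := fun j => ∑ j' ∈ univ.filter (fun j' => e j' < e j), q j' with hT
  have hlt : ∀ j j', e j < e j' → T j + q j ≤ T j' := by
    intro j j' h
    have h1 : T j + q j = ∑ i ∈ insert j (univ.filter (fun i => e i < e j)), q i := by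
      rw [Finset.sum_insert (by simp), add_comm]
    rw [h1]
    apply Finset.sum_le_sum_of_subset
    intro i hi
    rw [Finset.mem_insert, Finset.mem_filter] at hi
    rw [Finset.mem_filter]
    rcases hi with rfl | ⟨_, hi⟩
    · exact ⟨Finset.mem_univ _, h⟩
    · exact ⟨Finset.mem_univ _, hi.trans h⟩
  have hdisj : ∀ j j', j ≠ j' → T j + q j ≤ T j' ∨ T j' + q j' ≤ T j := by
    intro j j' h
    rcases lt_trichotomy (e j) (e j') with h1 | h1 | h1
    · exact Or.inl (hlt _ _ h1)
    · exact absurd (e.injective h1) h
    · exact Or.inr (hlt _ _ h1)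
  refine ⟨T, hdisj, ?_⟩
  have hle : ∀ j, T j + q j ≤ N := by
    intro j
    have h1 : T j + q j = ∑ i ∈ insert j (univ.filter (fun i => e i < e j)), q i := by
      rw [Finset.sum_insert (by simp), add_comm]
    rw [h1, ← hsum]
    exact Finset.sum_le_sum_of_subset (Finset.subset_univ _)
  set S : Finset ℕ := univ.biUnion (fun j => Finset.Ico (T j) (T j + q j)) with hS
  have hsub : S ⊆ Finset.range N := by
    intro r hr
    rw [hS, Finset.mem_biUnion] at hr
    obtain ⟨j, _, hj⟩ := hr
    rw [Finset.mem_Ico] at hj
    rw [Finset.mem_range]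
    have := hle j
    omega
  have hcard : S.card = N := by
    rw [hS, Finset.card_biUnion]
    · simp [hsum]
    · intro j _ j' _ h
      rw [Function.onFun, Finset.disjoint_left]
      intro r hr hr'
      rw [Finset.mem_Ico] at hr hr'
      rcases hdisj j j' h with h1 | h1 <;> omega
  have heq : S = Finset.range N := by
    apply Finset.eq_of_subset_of_card_le hsub
    rw [hcard, Finset.card_range]
  intro r hr
  have : r ∈ S := by rw [heq]; exact Finset.mem_range.2 hr
  rw [hS, Finset.mem_biUnion] at this
  obtain ⟨j, _, hj⟩ := this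
  rw [Finset.mem_Ico] at hj
  exact ⟨j, hj.1, hj.2⟩

/-- Cutting lemma: the points of `P` (with profiles `p`, at most `s` points in a profile) are
distributed to classes of the exact sizes `q j ≥ s`, such that a profile meets at most two classes
and the profiles met by a class have cost at most `L (q j + 2 s) + 2 C`. -/
theorem exists_cut {P W J : Type} [Fintype P] [Fintype W] [Fintype J] (p : P → W)
    (q : J → ℕ) (s : ℕ) (hsum : ∑ j, q j = Fintype.card P)
    (hs : ∀ w, (univ.filter (fun b => p b = w)).card ≤ s) (hq : ∀ j, s ≤ q j)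
    (cost : W → ℝ) (hc0 : ∀ w, 0 ≤ cost w) (C L : ℝ) (hL0 : 0 ≤ L)
    (hcost : ∀ w, cost w ≤ C) (htot : ∑ w, cost w ≤ L * (Fintype.card P : ℝ))
    (hLs : L * (s : ℝ) ≤ C) :
    ∃ F : P → J, (∀ j, (univ.filter (fun b => F b = j)).card = q j) ∧
      (∀ w, (univ.filter (fun j => ∃ b, p b = w ∧ F b = j)).card ≤ 2) ∧
      ∀ j, ∑ w ∈ univ.filter (fun w => ∃ b, p b = w ∧ F b = j), cost w ≤
        L * ((q j : ℝ) + 2 * (s : ℝ)) + 2 * C := by
  have hC0 : 0 ≤ C := le_trans (mul_nonneg hL0 (Nat.cast_nonneg _)) hLs
  set N := Fintype.card P with hN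
  -- the average cost
  set lam : ℝ := (∑ w, cost w) / N with hlam
  have hcs : 0 ≤ ∑ w, cost w := Finset.sum_nonneg fun w _ => hc0 w
  have hlam0 : 0 ≤ lam := div_nonneg hcs (Nat.cast_nonneg _)
  have hlamL : lam ≤ L := by
    rcases Nat.eq_zero_or_pos N with h | h
    · rw [hlam, h]; simpa using hL0
    · have h' : (0 : ℝ) < N := by exact_mod_cast h
      rw [hlam, div_le_iff₀ h']
      exact htot
  set nw : W → ℕ := fun w => (univ.filter (fun b => p b = w)).card with hnw
  have hnwsum : ∑ w, nw w = N := by
    rw [hN, ← Finset.card_univ, hnw]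
    exact (Finset.card_eq_sum_card_fiberwise (fun b _ => Finset.mem_univ (p b))).symm
  set u : W → ℝ := fun w => cost w - lam * nw w with hu
  have hlamN : lam * N = ∑ w, cost w := by
    rcases Nat.eq_zero_or_pos N with h | h
    · have h1 : ∑ w, cost w ≤ 0 := by
        have := htot
        rw [h] at this
        simpa using this
      have h2 : ∑ w, cost w = 0 := le_antisymm h1 hcs
      rw [h2, h]; simp
    · have h' : (N : ℝ) ≠ 0 := by
        have : (0 : ℝ) < N := by exact_mod_cast h
        exact this.ne'
      rw [hlam, div_mul_cancel₀ _ h']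
  have husum : ∑ w, u w = 0 := by
    rw [hu, Finset.sum_sub_distrib, ← Finset.mul_sum, ← Nat.cast_sum, hnwsum, hlamN, sub_self]
  have hub : ∀ w, |u w| ≤ C := by
    intro w
    have h1 : lam * nw w ≤ C := by
      calc lam * nw w ≤ L * s := by
            apply mul_le_mul hlamL _ (Nat.cast_nonneg _) hL0
            exact_mod_cast hs w
        _ ≤ C := hLs
    have h2 : 0 ≤ lam * nw w := mul_nonneg hlam0 (Nat.cast_nonneg _)
    have h3 := hc0 w
    have h4 := hcost w
    rw [abs_le]
    constructor <;> simp only [hu] <;> linarith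
  obtain ⟨idx, hidx, hpre⟩ := exists_order u C hC0 hub husum
  -- ranks of the points
  set e0 : P ≃ Fin N := Fintype.equivFin P with he0
  set key : P → ℕ := fun b => idx (p b) * N + e0 b with hkey
  have hkeylt : ∀ b b', idx (p b) < idx (p b') → key b < key b' := by
    intro b b' h
    have h1 : (e0 b : ℕ) < N := (e0 b).2
    have h2 : (idx (p b) + 1) * N ≤ idx (p b') * N := Nat.mul_le_mul_right _ h
    have h3 : (idx (p b) + 1) * N = idx (p b) * N + N := by ring
    simp only [hkey]
    omega
  have hkeyinj : Function.Injective key := by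
    intro b b' h
    rcases lt_trichotomy (idx (p b)) (idx (p b')) with h1 | h1 | h1
    · exact absurd h (hkeylt _ _ h1).ne
    · have : (e0 b : ℕ) = e0 b' := by
        simp only [hkey, h1] at h
        omega
      exact e0.injective (Fin.ext this)
    · exact absurd h (hkeylt _ _ h1).ne'
  obtain ⟨r, hr⟩ := cut_rank key hkeyinj
  have hridx : ∀ b b', idx (p b) < idx (p b') → (r b : ℕ) < r b' := fun b b' h =>
    hr b b' (hkeylt b b' h)
  have hle_idx : ∀ b b', (r b : ℕ) ≤ r b' → idx (p b) ≤ idx (p b') := by
    intro b b' h
    by_contra hc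
    exact absurd (hridx b' b (not_le.1 hc)) (not_lt.2 h)
  obtain ⟨T, hdisj, hcov⟩ := cut_intervals q N hsum
  choose f hf using hcov
  set F : P → J := fun b => f (r b) (r b).2 with hF
  have hFT : ∀ b, T (F b) ≤ r b ∧ (r b : ℕ) < T (F b) + q (F b) := fun b => hf _ _
  have hFuniq : ∀ b j, T j ≤ r b → (r b : ℕ) < T j + q j → F b = j := by
    intro b j h1 h2
    by_contra h
    have h3 := hFT b
    rcases hdisj _ _ h with h4 | h4 <;> omega
  have hqN : ∀ j, ∀ x, T j ≤ x → x < T j + q j → x < N := by
    intro j
    -- total size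
    by_contra hcon
    push Not at hcon
    obtain ⟨x, hx1, hx2, hx3⟩ := hcon
    -- the ranks of class `j` are fewer than `q j`
    have hc : ∀ j', (univ.filter (fun b => F b = j')).card ≤ q j' := by
      intro j'
      have : (univ.filter (fun b => F b = j')).card ≤ (Finset.Ico (T j') (T j' + q j')).card := by
        apply Finset.card_le_card_of_injOn (fun b => (r b : ℕ))
        · intro b hb
          rw [Finset.mem_coe, Finset.mem_filter] at hb
          have h3 := hFT b
          rw [hb.2] at h3
          rw [Finset.mem_coe, Finset.mem_Ico]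
          exact h3
        · intro b _ b' _ h
          exact r.injective (Fin.ext h)
      simpa using this
    have hc' : (univ.filter (fun b => F b = j)).card < q j := by
      have : (univ.filter (fun b => F b = j)).card
          ≤ ((Finset.Ico (T j) (T j + q j)).erase x).card := by
        apply Finset.card_le_card_of_injOn (fun b => (r b : ℕ))
        · intro b hb
          rw [Finset.mem_coe, Finset.mem_filter] at hb
          have h3 := hFT b
          rw [hb.2] at h3
          rw [Finset.mem_coe, Finset.mem_erase, Finset.mem_Ico]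
          have h4 : (r b : ℕ) < N := (r b).2
          have h5 : (r b : ℕ) ≠ x := by omega
          exact ⟨h5, h3⟩
        · intro b _ b' _ h
          exact r.injective (Fin.ext h)
      have h5 : x ∈ Finset.Ico (T j) (T j + q j) := Finset.mem_Ico.2 ⟨hx1, hx2⟩
      rw [Finset.card_erase_of_mem h5, Nat.card_Ico] at this
      have h6 : 0 < q j := by omega
      omega
    have h7 : ∑ j', (univ.filter (fun b => F b = j')).card = N := by
      rw [hN, ← Finset.card_univ]
      exact (Finset.card_eq_sum_card_fiberwise (fun b _ => Finset.mem_univ (F b))).symm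
    have h8 : ∑ j', (univ.filter (fun b => F b = j')).card < ∑ j', q j' :=
      Finset.sum_lt_sum (fun j' _ => hc j') ⟨j, Finset.mem_univ _, hc'⟩
    omega
  have hcard : ∀ j, (univ.filter (fun b => F b = j)).card = q j := by
    intro j
    have h1 : (univ.filter (fun b => F b = j)).card
        = (Finset.Ico (T j) (T j + q j)).card := by
      apply Finset.card_bij (fun b _ => (r b : ℕ))
      · intro b hb
        rw [Finset.mem_filter] at hb
        have h3 := hFT b
        rw [hb.2] at h3
        rw [Finset.mem_Ico]
        exact h3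
      · intro b _ b' _ h
        exact r.injective (Fin.ext h)
      · intro x hx
        rw [Finset.mem_Ico] at hx
        have hxN := hqN j x hx.1 hx.2
        refine ⟨r.symm ⟨x, hxN⟩, ?_, ?_⟩
        · rw [Finset.mem_filter]
          refine ⟨Finset.mem_univ _, hFuniq _ _ ?_ ?_⟩ <;> simp [hx.1, hx.2]
        · simp
    rw [h1]; simp
  -- between two points of a class
  have hbetween : ∀ b1 b b2, F b1 = F b2 → (r b1 : ℕ) ≤ r b → (r b : ℕ) ≤ r b2 →
      F b = F b1 := by
    intro b1 b b2 h h1 h2
    have h3 := hFT b1
    have h4 := hFT b2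
    rw [← h] at h4
    exact hFuniq b (F b1) (by omega) (by omega)
  refine ⟨F, hcard, ?_, ?_⟩
  · intro w
    by_contra hcon
    push Not at hcon
    rw [Finset.two_lt_card] at hcon
    obtain ⟨j1, hj1, j2, hj2, j3, hj3, h12, h13, h23⟩ := hcon
    -- the middle class
    have key3 : ∀ a b c : J, (∃ x, p x = w ∧ F x = a) → (∃ x, p x = w ∧ F x = b) →
        (∃ x, p x = w ∧ F x = c) → T a + q a ≤ T b → T b + q b ≤ T c → False := by
      intro a b c ha hb hc hab hbc
      obtain ⟨x, hx, hxa⟩ := ha
      obtain ⟨y, hy, hyb⟩ := hb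
      obtain ⟨z, hz, hzc⟩ := hc
      have hsub : insert x (insert z (univ.filter (fun v => F v = b)))
          ⊆ univ.filter (fun v => p v = w) := by
        intro v hv
        rw [Finset.mem_insert, Finset.mem_insert, Finset.mem_filter] at hv
        rw [Finset.mem_filter]
        refine ⟨Finset.mem_univ _, ?_⟩
        rcases hv with rfl | rfl | ⟨_, hv⟩
        · exact hx
        · exact hz
        · have h1 := hFT v
          have h2 := hFT x
          have h3 := hFT z
          rw [hv] at h1
          rw [hxa] at h2
          rw [hzc] at h3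
          have h4 := hle_idx x v (by omega)
          have h5 := hle_idx v z (by omega)
          rw [hx] at h4
          rw [hz] at h5
          exact hidx (le_antisymm h5 h4)
      have hxnot : x ∉ insert z (univ.filter (fun v => F v = b)) := by
        intro hv
        rw [Finset.mem_insert, Finset.mem_filter] at hv
        have h2 := hFT x
        have h3 := hFT z
        have h4 := hFT y
        rw [hxa] at h2
        rw [hzc] at h3
        rw [hyb] at h4
        rcases hv with h | ⟨_, h⟩
        · rw [h] at h2
          omega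
        · have h5 := hFT x
          rw [h] at h5
          omega
      have hznot : z ∉ univ.filter (fun v => F v = b) := by
        intro hv
        rw [Finset.mem_filter] at hv
        have h3 := hFT z
        rw [hzc] at h3
        have h5 := hFT z
        rw [hv.2] at h5
        omega
      have h6 := Finset.card_le_card hsub
      rw [Finset.card_insert_of_notMem hxnot, Finset.card_insert_of_notMem hznot, hcard] at h6
      have h7 := hs w
      have h8 := hq b
      omega
    have m1 : ∃ x, p x = w ∧ F x = j1 := (Finset.mem_filter.1 hj1).2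
    have m2 : ∃ x, p x = w ∧ F x = j2 := (Finset.mem_filter.1 hj2).2
    have m3 : ∃ x, p x = w ∧ F x = j3 := (Finset.mem_filter.1 hj3).2
    rcases hdisj j1 j2 h12 with a | a <;> rcases hdisj j1 j3 h13 with b | b <;>
      rcases hdisj j2 j3 h23 with c | c
    · exact key3 j1 j2 j3 m1 m2 m3 a c
    · exact key3 j1 j3 j2 m1 m3 m2 b c
    · -- j3 < j1 < j2 < j3
      exact key3 j3 j1 j2 m3 m1 m2 b a
    · exact key3 j3 j1 j2 m3 m1 m2 b a
    · exact key3 j2 j1 j3 m2 m1 m3 a b
    · exact key3 j2 j1 j3 m2 m1 m3 a b
    · exact key3 j2 j3 j1 m2 m3 m1 c b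
    · exact key3 j3 j2 j1 m3 m2 m1 c a
  · intro j
    set Wj := univ.filter (fun w => ∃ b, p b = w ∧ F b = j) with hWj
    rcases Finset.eq_empty_or_nonempty Wj with h0 | hne
    · rw [h0, Finset.sum_empty]
      positivity
    obtain ⟨w1, hw1, hmin⟩ := Finset.exists_min_image Wj idx hne
    obtain ⟨w2, hw2, hmax⟩ := Finset.exists_max_image Wj idx hne
    obtain ⟨b1, hb1, hFb1⟩ := (Finset.mem_filter.1 hw1).2
    obtain ⟨b2, hb2, hFb2⟩ := (Finset.mem_filter.1 hw2).2
    set R := univ.filter (fun w => idx w1 ≤ idx w ∧ idx w ≤ idx w2) with hR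
    have hsubR : Wj ⊆ R := by
      intro w hw
      rw [hR, Finset.mem_filter]
      exact ⟨Finset.mem_univ _, hmin w hw, hmax w hw⟩
    have h1 : ∑ w ∈ Wj, cost w ≤ ∑ w ∈ R, cost w :=
      Finset.sum_le_sum_of_subset_of_nonneg hsubR fun w _ _ => hc0 w
    have h2 : ∑ w ∈ R, cost w = ∑ w ∈ R, u w + lam * ((∑ w ∈ R, nw w : ℕ) : ℝ) := by
      rw [Nat.cast_sum, Finset.mul_sum, ← Finset.sum_add_distrib]
      refine Finset.sum_congr rfl fun w _ => ?_
      simp only [hu]
      ring
    -- the sum of u over an interval of indices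
    have h3 : ∑ w ∈ R, u w ≤ 2 * C := by
      have e1 : ∑ w ∈ univ.filter (fun w => idx w < idx w2 + 1), u w
          = ∑ w ∈ univ.filter (fun w => idx w < idx w1), u w + ∑ w ∈ R, u w := by
        rw [← Finset.sum_union]
        · refine Finset.sum_congr ?_ fun _ _ => rfl
          ext w
          have h12 : idx w1 ≤ idx w2 := hmin w2 hw2
          simp only [hR, Finset.mem_union, Finset.mem_filter, Finset.mem_univ, true_and]
          omega
        · rw [Finset.disjoint_left]
          intro w hw hw'
          rw [Finset.mem_filter] at hw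
          rw [hR, Finset.mem_filter] at hw'
          omega
      have e2 := abs_le.1 (hpre (idx w2 + 1))
      have e3 := abs_le.1 (hpre (idx w1))
      linarith [e2.2, e3.1]
    have h4 : ∑ w ∈ R, nw w ≤ q j + 2 * s := by
      have e1 : ∑ w ∈ R, nw w = (univ.filter (fun b => p b ∈ R)).card := by
        rw [Finset.card_eq_sum_card_fiberwise (f := p) (t := R)]
        · refine Finset.sum_congr rfl fun w hw => ?_
          simp only [hnw]
          congr 1
          ext b
          simp only [Finset.mem_filter, Finset.mem_univ, true_and]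
          constructor
          · intro h; exact ⟨by rw [h]; exact hw, h⟩
          · intro h; exact h.2
        · intro b hb
          exact (Finset.mem_filter.1 hb).2
      rw [e1]
      have e2 : univ.filter (fun b => p b ∈ R) ⊆ univ.filter (fun b => F b = j) ∪
          (univ.filter (fun b => p b = w1) ∪ univ.filter (fun b => p b = w2)) := by
        intro b hb
        have hbR := (Finset.mem_filter.1 hb).2
        rw [hR, Finset.mem_filter] at hbR
        rw [Finset.mem_union, Finset.mem_union, Finset.mem_filter, Finset.mem_filter,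
          Finset.mem_filter]
        rcases eq_or_lt_of_le hbR.2.1 with h | h
        · right; left
          exact ⟨Finset.mem_univ _, (hidx h).symm⟩
        rcases eq_or_lt_of_le hbR.2.2 with h' | h'
        · right; right
          exact ⟨Finset.mem_univ _, hidx h'⟩
        left
        refine ⟨Finset.mem_univ _, ?_⟩
        have g1 : (r b1 : ℕ) < r b := hridx b1 b (by rw [hb1]; exact h)
        have g2 : (r b : ℕ) < r b2 := hridx b b2 (by rw [hb2]; exact h')
        have g3 := hbetween b1 b b2 (by rw [hFb1, hFb2]) g1.le g2.le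
        rw [g3, hFb1]
      calc (univ.filter (fun b => p b ∈ R)).card
          ≤ _ := Finset.card_le_card e2
        _ ≤ (univ.filter (fun b => F b = j)).card + (univ.filter (fun b => p b = w1) ∪
            univ.filter (fun b => p b = w2)).card := Finset.card_union_le _ _
        _ ≤ q j + (s + s) := by
            rw [hcard]
            exact Nat.add_le_add_left ((Finset.card_union_le _ _).trans
              (Nat.add_le_add (hs w1) (hs w2))) _
        _ = q j + 2 * s := by ring
    have h5 : lam * ((∑ w ∈ R, nw w : ℕ) : ℝ) ≤ L * ((q j : ℝ) + 2 * (s : ℝ)) := by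
      apply mul_le_mul hlamL _ (Nat.cast_nonneg _) hL0
      have : ((∑ w ∈ R, nw w : ℕ) : ℝ) ≤ ((q j + 2 * s : ℕ) : ℝ) := by exact_mod_cast h4
      push_cast at this ⊢
      exact this
    linarith

end Pool.Agent.VC
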