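import Mathlib

set_option autoImplicit false

open MeasureTheory Set

namespace Pool.Agent.VC

/-! ## Part A: binary systems -/

/-- a binary system of rectangles `P i × Q i` (one coordinate is refined at a time): `p i, q i` are
the digits, `P i, Q i` the tails -/
structure Sys where
  p : ℕ → ℝ
  q : ℕ → ℝ
  P : ℕ → ℝ
  Q : ℕ → ℝ
  hP : ∀ i, P i = p (i + 1) + P (i + 1)
  hQ : ∀ i, Q i = q (i + 1) + Q (i + 1)
  Ppos : ∀ i, 0 < P i
  Qpos : ∀ i, 0 < Q i
  dig : ∀ i, (q i = 0 ∧ P i ≤ p i ∧ p i ≤ 3 * P i) ∨ (p i = 0 ∧ Q i ≤ q i ∧ q i ≤ 3 * Q i)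
  ratio : ∀ i, P i ≤ 4 * Q i ∧ Q i ≤ 4 * P i
  touch : ∀ i t, 1 ≤ t → t ≤ 2 → p i + t * q i ≤ 2 * (P i + t * Q i)
  good3 : ∀ i t, 1 ≤ t → t ≤ 2 → ∃ j, i < j ∧ j ≤ i + 3 ∧ p j + t * q j ≤ P j + t * Q j

namespace Sys

/-- the size of the rectangle of generation `i` -/
def r (S : Sys) (i : ℕ) : ℝ := S.P i + S.Q i

/-- the projected digit, slope `t` -/
def v (S : Sys) (i : ℕ) (t : ℝ) : ℝ := S.p i + t * S.q i

/-- the length of the projection of a rectangle of generation `i` -/
def L (S : Sys) (i : ℕ) (t : ℝ) : ℝ := S.P i + t * S.Q i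

/-- the digit is separated -/
def sep (S : Sys) (i : ℕ) : Prop := 7 / 3 * S.P i ≤ S.p i ∨ 7 / 3 * S.Q i ≤ S.q i

/-- `i` is good for the slope `t` -/
def good (S : Sys) (i : ℕ) (t : ℝ) : Prop := S.v i t ≤ S.L i t

/-- the squared density `(2^{-i})² / (P_i Q_i)` -/
noncomputable def A (S : Sys) (i : ℕ) : ℝ := 1 / (4 ^ i * (S.P i * S.Q i))

/-- the density -/
noncomputable def ta (S : Sys) (i : ℕ) : ℝ := Real.sqrt (S.A i)

open Classical in
/-- number of non-separated digits `i` with `b < i ≤ b + j` -/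
noncomputable def nb (S : Sys) (b j : ℕ) : ℕ :=
  ((Finset.Ioc b (b + j)).filter (fun i => ¬ S.sep i)).card

/-- the tail system -/
def shift (S : Sys) (k : ℕ) : Sys where
  p i := S.p (k + i)
  q i := S.q (k + i)
  P i := S.P (k + i)
  Q i := S.Q (k + i)
  hP i := S.hP (k + i)
  hQ i := S.hQ (k + i)
  Ppos i := S.Ppos (k + i)
  Qpos i := S.Qpos (k + i)
  dig i := S.dig (k + i)
  ratio i := S.ratio (k + i)
  touch i := S.touch (k + i)
  good3 i t h1 h2 := by
    obtain ⟨j, hj1, hj2, hj3⟩ := S.good3 (k + i) t h1 h2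
    refine ⟨j - k, by omega, by omega, ?_⟩
    rw [Nat.add_sub_cancel' (by omega)]
    exact hj3

/-- the system scaled by `c` -/
def scale (S : Sys) (c : ℝ) (hc : 0 < c) : Sys where
  p i := c * S.p i
  q i := c * S.q i
  P i := c * S.P i
  Q i := c * S.Q i
  hP i := by rw [S.hP i]; ring
  hQ i := by rw [S.hQ i]; ring
  Ppos i := mul_pos hc (S.Ppos i)
  Qpos i := mul_pos hc (S.Qpos i)
  dig i := by
    rcases S.dig i with ⟨h1, h2, h3⟩ | ⟨h1, h2, h3⟩
    · left
      refine ⟨by rw [h1]; ring, by nlinarith, by nlinarith⟩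
    · right
      refine ⟨by rw [h1]; ring, by nlinarith, by nlinarith⟩
  ratio i := ⟨by nlinarith [(S.ratio i).1], by nlinarith [(S.ratio i).2]⟩
  touch i t h1 h2 := by nlinarith [S.touch i t h1 h2]
  good3 i t h1 h2 := by
    obtain ⟨j, hj1, hj2, hj3⟩ := S.good3 i t h1 h2
    exact ⟨j, hj1, hj2, by nlinarith⟩

/-- the expectation of `F u` for `u = ∑_{b<i≤b+j} σ_i (p_i, q_i)`, the `σ_i` independent with
probabilities `1/4, 1/2, 1/4` of `-1, 0, 1` -/
noncomputable def E (S : Sys) : ℕ → ℕ → (ℝ → ℝ → ℝ) → ℝ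
  | 0, _, F => F 0 0
  | j + 1, b, F =>
      1 / 4 * E S j (b + 1) (fun x y => F (x + S.p (b + 1)) (y + S.q (b + 1))) +
      1 / 2 * E S j (b + 1) F +
      1 / 4 * E S j (b + 1) (fun x y => F (x - S.p (b + 1)) (y - S.q (b + 1)))

end Sys

/-- the tent function of width `r` and integral one -/
noncomputable def phi (r x : ℝ) : ℝ := max 0 (1 - |x| / r) / r

/-- correlation of two tents -/
noncomputable def Phi2 (r s y : ℝ) : ℝ := ∫ x, phi r x * phi s (x + y)

/-- the weight on slopes -/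
noncomputable def chi (t : ℝ) : ℝ := max 0 (2 - |2 * t - 3|)

/-- `∫ χ(t) Φ(π_t W) dt` -/
noncomputable def Psi (Φ : ℝ → ℝ) (x y : ℝ) : ℝ := ∫ t, chi t * Φ (x + t * y)

namespace Sys

/-- the density of the projected difference measure from generation `b`, with `j` digits, smoothed
at scale `r_{b+j}` -/
noncomputable def H (S : Sys) (b j : ℕ) (t x : ℝ) : ℝ :=
  S.E j b (fun u w => phi (S.r (b + j)) (x + (u + t * w)))

/-- difference of consecutive densities -/
noncomputable def D (S : Sys) (b j : ℕ) (t x : ℝ) : ℝ := S.H b (j + 1) t x - S.H b j t x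

/-- the density at the digit `k` -/
noncomputable def z (S : Sys) (k j : ℕ) (t : ℝ) : ℝ := S.r k * S.H k j t (S.v k t)

end Sys

/-! ### one dimensional families (fixed slope) -/

/-- position of the `i`-th cell (`i < 2^m`) of generation `m` -/
noncomputable def pos (v : ℕ → ℝ) : ℕ → ℕ → ℝ
  | 0, _ => 0
  | m + 1, i => pos v m (i / 2) + ((i % 2 : ℕ) : ℝ) * v (m + 1)

/-- interval of the `i`-th cell of generation `m` -/
noncomputable def cell (v L : ℕ → ℝ) (m i : ℕ) : Set ℝ := Icc (pos v m i) (pos v m i + L m)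

/-- the counting function of generation `m` -/
noncomputable def cnt (v L : ℕ → ℝ) (m : ℕ) (x : ℝ) : ℝ :=
  ∑ i ∈ Finset.range (2 ^ m), (cell v L m i).indicator (fun _ => (1 : ℝ)) x

/-- part of generation `N` of the cells of generation `n` in the family `F` -/
noncomputable def fam (v L : ℕ → ℝ) (n : ℕ) (F : Finset ℕ) (N : ℕ) : Set ℝ :=
  ⋃ i ∈ {i ∈ Finset.range (2 ^ N) | i / 2 ^ (N - n) ∈ F}, cell v L N i

/-! ## the corner Cantor sets -/

/-- side length of generation `k` -/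
noncomputable def side (lam : ℕ → ℝ) : ℕ → ℝ
  | 0 => 1
  | k + 1 => lam k * side lam k

/-- left endpoints / points of the linear Cantor set -/
noncomputable def lin (lam : ℕ → ℝ) : Set ℝ :=
  {x | ∃ e : ℕ → ℝ, (∀ k, e k = 0 ∨ e k = 1) ∧
    HasSum (fun k => e k * (side lam k - side lam (k + 1))) x}

/-- stage `n` of the linear Cantor set -/
noncomputable def linStage (lam : ℕ → ℝ) (n : ℕ) : Set ℝ :=
  {x | ∃ e : ℕ → ℝ, (∀ k, e k = 0 ∨ e k = 1) ∧
    x - ∑ k ∈ Finset.range n, e k * (side lam k - side lam (k + 1)) ∈ Icc 0 (side lam n)}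

/-- the corner Cantor set -/
noncomputable def corner (lam : ℕ → ℝ) : Set ℂ := {w | w.re ∈ lin lam ∧ w.im ∈ lin lam}

/-- stage `n` of the corner Cantor set: `4^n` squares of side `side lam n` -/
noncomputable def stage (lam : ℕ → ℝ) (n : ℕ) : Set ℂ :=
  {w | w.re ∈ linStage lam n ∧ w.im ∈ linStage lam n}

/-- density of generation `k` -/
noncomputable def dens (lam : ℕ → ℝ) (k : ℕ) : ℝ := 1 / (4 ^ k * side lam k)

/-- sum of the squared densities -/
noncomputable def SS (lam : ℕ → ℝ) (n : ℕ) : ℝ := ∑ k ∈ Finset.range n, dens lam k ^ 2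

/-- projection with slope `t` -/
noncomputable def slope (t : ℝ) (w : ℂ) : ℝ := w.re + t * w.im

/-- orthogonal projection in the direction `θ`, as in the frozen statement -/
noncomputable def prj (θ : ℝ) (w : ℂ) : ℝ := w.re * Real.cos θ + w.im * Real.sin θ

/-! ## Part B: trees and antisymmetric kernels -/

/-- `lab` : labels of a finite `4`-ary tree of depth `n` on `X` -/
structure IsTree {X : Type} [Fintype X] (n : ℕ) (lab : ℕ → X → ℕ) : Prop where
  zero : ∀ x y, lab 0 x = lab 0 y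
  top : ∀ x y, lab n x = lab n y → x = y
  nest : ∀ k x y, lab (k + 1) x = lab (k + 1) y → lab k x = lab k y
  card : ∀ k ≤ n, ∀ x, (Finset.univ.filter (fun y => lab k y = lab k x)).card = 4 ^ (n - k)

/-- the bounds of a Calderon-Zygmund kernel on a tree -/
structure IsCZ {X : Type} [Fintype X] (n : ℕ) (lab : ℕ → X → ℕ) (s : ℕ → ℝ) (C : ℝ)
    (K : X → X → ℝ) : Prop where
  anti : ∀ x y, K y x = - K x y
  size : ∀ k, k < n → ∀ x y, lab k x = lab k y → lab (k + 1) x ≠ lab (k + 1) y →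
    |K x y| ≤ C / s k
  diff : ∀ k j, k < j → j ≤ n → ∀ x y y', lab k x = lab k y → lab (k + 1) x ≠ lab (k + 1) y →
    lab j y' = lab j y → |K x y - K x y'| ≤ C * s j / s k ^ 2
  diff2 : ∀ k i j, k < i → k < j → i ≤ n → j ≤ n → ∀ x y x' y', lab k x = lab k y →
    lab (k + 1) x ≠ lab (k + 1) y → lab i x' = lab i x → lab j y' = lab j y →
    |K x y - K x' y - K x y' + K x' y'| ≤ C * s i * s j / s k ^ 3

/-- the operator with kernel `K`, uniform probability -/
noncomputable def op {X : Type} [Fintype X] (K : X → X → ℝ) (f : X → ℝ) (x : X) : ℝ :=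
  (∑ y, K x y * f y) / Fintype.card X

/-- mean -/
noncomputable def av {X : Type} [Fintype X] (f : X → ℝ) : ℝ := (∑ y, f y) / Fintype.card X

end Pool.Agent.VC
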