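import Mathlib

/-!
# Project VC (MP_0b5e13_an), row L2id: elementary `L²` identities and inequalities
-/

set_option autoImplicit false

open MeasureTheory Set

namespace Pool.Agent.VC

private theorem shift_cs {F : ℝ → ℝ} (hs : HasCompactSupport F) (v : ℝ) :
    HasCompactSupport (fun x => F (x + v)) :=
  hs.comp_homeomorph (Homeomorph.addRight v)

private theorem shift_cs' {F : ℝ → ℝ} (hs : HasCompactSupport F) (v : ℝ) :
    HasCompactSupport (fun x => F (x - v)) := by
  have := shift_cs hs (-v)
  simpa [sub_eq_add_neg] using this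

/-- expand the square, translation invariance -/
theorem three_shift (F : ℝ → ℝ) (hF : Continuous F) (hs : HasCompactSupport F) (v : ℝ) :
    ∫ x, (1 / 4 * F (x + v) + 1 / 2 * F x + 1 / 4 * F (x - v)) ^ 2 =
      3 / 8 * (∫ x, F x ^ 2) + 1 / 2 * (∫ x, F x * F (x + 1 * v)) +
        1 / 8 * (∫ x, F x * F (x + 2 * v)) := by
  have cp : Continuous (fun x => F (x + v)) := by fun_prop
  have cm : Continuous (fun x => F (x - v)) := by fun_prop
  have i1 : Integrable (fun x => F (x + v) * F (x + v)) :=
    (cp.mul cp).integrable_of_hasCompactSupport ((shift_cs hs v).mul_right)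
  have i2 : Integrable (fun x => F x * F x) :=
    (hF.mul hF).integrable_of_hasCompactSupport hs.mul_right
  have i3 : Integrable (fun x => F (x - v) * F (x - v)) :=
    (cm.mul cm).integrable_of_hasCompactSupport ((shift_cs' hs v).mul_right)
  have i4 : Integrable (fun x => F x * F (x + v)) :=
    (hF.mul cp).integrable_of_hasCompactSupport hs.mul_right
  have i5 : Integrable (fun x => F (x - v) * F x) :=
    (cm.mul hF).integrable_of_hasCompactSupport ((shift_cs' hs v).mul_right)
  have i6 : Integrable (fun x => F (x - v) * F (x + v)) :=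
    (cm.mul cp).integrable_of_hasCompactSupport ((shift_cs' hs v).mul_right)
  have e1 : ∫ x, F (x + v) * F (x + v) = ∫ x, F x * F x :=
    integral_add_right_eq_self (fun x => F x * F x) v
  have e3 : ∫ x, F (x - v) * F (x - v) = ∫ x, F x * F x :=
    integral_sub_right_eq_self (fun x => F x * F x) v
  have e5 : ∫ x, F (x - v) * F x = ∫ x, F x * F (x + v) := by
    have := integral_sub_right_eq_self (μ := volume) (fun x => F x * F (x + v)) v
    rw [← this]
    refine integral_congr_ae (Filter.Eventually.of_forall fun x => ?_)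
    simp only [sub_add_cancel]
  have e6 : ∫ x, F (x - v) * F (x + v) = ∫ x, F x * F (x + 2 * v) := by
    have := integral_sub_right_eq_self (μ := volume) (fun x => F x * F (x + 2 * v)) v
    rw [← this]
    refine integral_congr_ae (Filter.Eventually.of_forall fun x => ?_)
    show F (x - v) * F (x + v) = F (x - v) * F (x - v + 2 * v)
    rw [show x - v + 2 * v = x + v by ring]
  have e0 : (fun x => (1 / 4 * F (x + v) + 1 / 2 * F x + 1 / 4 * F (x - v)) ^ 2)
      = fun x => 1 / 16 * (F (x + v) * F (x + v)) + 1 / 4 * (F x * F x)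
        + 1 / 16 * (F (x - v) * F (x - v)) + 1 / 4 * (F x * F (x + v))
        + 1 / 4 * (F (x - v) * F x) + 1 / 8 * (F (x - v) * F (x + v)) := by
    funext x
    ring
  rw [e0]
  rw [integral_add (((((i1.const_mul _).fun_add (i2.const_mul _)).fun_add
      (i3.const_mul _)).fun_add (i4.const_mul _)).fun_add (i5.const_mul _)) (i6.const_mul _),
    integral_add ((((i1.const_mul _).fun_add (i2.const_mul _)).fun_add (i3.const_mul _)).fun_add
      (i4.const_mul _)) (i5.const_mul _),
    integral_add (((i1.const_mul _).fun_add (i2.const_mul _)).fun_add (i3.const_mul _))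
      (i4.const_mul _),
    integral_add ((i1.const_mul _).fun_add (i2.const_mul _)) (i3.const_mul _),
    integral_add (i1.const_mul _) (i2.const_mul _)]
  simp only [integral_const_mul, e1, e3, e5, e6, one_mul, pow_two]
  ring

theorem three_shift_le (F : ℝ → ℝ) (hF : Continuous F) (hs : HasCompactSupport F) (v : ℝ) :
    ∫ x, (1 / 4 * F (x + v) + 1 / 2 * F x + 1 / 4 * F (x - v)) ^ 2 ≤ ∫ x, F x ^ 2 := by
  have cp : Continuous (fun x => F (x + v)) := by fun_prop
  have cm : Continuous (fun x => F (x - v)) := by fun_prop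
  have sq : ∀ G : ℝ → ℝ, Continuous G → HasCompactSupport G → Integrable (fun x => G x ^ 2) := by
    intro G hG hs
    have : Integrable (fun x => G x * G x) :=
      (hG.mul hG).integrable_of_hasCompactSupport hs.mul_right
    simpa [pow_two] using this
  have i1 := sq _ cp (shift_cs hs v)
  have i2 := sq _ hF hs
  have i3 := sq _ cm (shift_cs' hs v)
  have i0 : Integrable (fun x => (1 / 4 * F (x + v) + 1 / 2 * F x + 1 / 4 * F (x - v)) ^ 2) := by
    refine sq (fun x => 1 / 4 * F (x + v) + 1 / 2 * F x + 1 / 4 * F (x - v)) (by fun_prop) ?_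
    exact (((shift_cs hs v).mul_left).add hs.mul_left).add (shift_cs' hs v).mul_left
  have e1 : ∫ x, F (x + v) ^ 2 = ∫ x, F x ^ 2 :=
    integral_add_right_eq_self (fun x => F x ^ 2) v
  have e3 : ∫ x, F (x - v) ^ 2 = ∫ x, F x ^ 2 :=
    integral_sub_right_eq_self (fun x => F x ^ 2) v
  have h : ∫ x, (1 / 4 * F (x + v) + 1 / 2 * F x + 1 / 4 * F (x - v)) ^ 2 ≤
      ∫ x, (1 / 4 * F (x + v) ^ 2 + 1 / 2 * F x ^ 2 + 1 / 4 * F (x - v) ^ 2) := by
    refine integral_mono i0 (((i1.const_mul _).add (i2.const_mul _)).add (i3.const_mul _)) ?_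
    intro x
    simp only
    nlinarith [sq_nonneg (F (x + v) - F x), sq_nonneg (F x - F (x - v)),
      sq_nonneg (F (x + v) - F (x - v))]
  refine h.trans (le_of_eq ?_)
  rw [integral_add ((i1.const_mul _).fun_add (i2.const_mul _)) (i3.const_mul _),
    integral_add (i1.const_mul _) (i2.const_mul _)]
  simp only [integral_const_mul, e1, e3]
  ring

private theorem cs_set {f : ℝ → ℝ} {T : Set ℝ} (hT : volume T ≠ ⊤)
    (hf : IntegrableOn f T) (hf2 : IntegrableOn (fun x => f x ^ 2) T) :
    (∫ x in T, f x) ^ 2 ≤ (volume T).toReal * ∫ x in T, f x ^ 2 := by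
  have hfin : IsFiniteMeasure (volume.restrict T) := ⟨by
    rw [Measure.restrict_apply_univ]
    exact lt_top_iff_ne_top.mpr hT⟩
  have hreal : (volume.restrict T).real univ = (volume T).toReal := by
    rw [Measure.real, Measure.restrict_apply_univ]
  have key : ∀ c : ℝ, 0 ≤ (∫ x in T, f x ^ 2) - 2 * c * (∫ x in T, f x)
      + c ^ 2 * (volume T).toReal := by
    intro c
    have h0 : 0 ≤ ∫ x in T, (f x - c) ^ 2 := integral_nonneg fun x => sq_nonneg _
    have e : (fun x => (f x - c) ^ 2) = fun x => f x ^ 2 - 2 * c * f x + c ^ 2 := by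
      funext x; ring
    rw [e, integral_add (hf2.fun_sub (hf.const_mul _)) (integrable_const _),
      integral_sub hf2 (hf.const_mul _), integral_const_mul, integral_const, hreal,
      smul_eq_mul] at h0
    linarith
  rcases eq_or_lt_of_le (ENNReal.toReal_nonneg (a := volume T)) with h | h
  · have hz : volume T = 0 := by
      rcases (ENNReal.toReal_eq_zero_iff _).mp h.symm with h' | h'
      · exact h'
      · exact absurd h' hT
    rw [setIntegral_measure_zero _ hz, setIntegral_measure_zero _ hz]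
    simp
  · set m := (volume T).toReal with hm
    have h2 := key ((∫ x in T, f x) / m)
    have h3 : (∫ x in T, f x ^ 2) - 2 * ((∫ x in T, f x) / m) * (∫ x in T, f x)
      + ((∫ x in T, f x) / m) ^ 2 * m = (∫ x in T, f x ^ 2) - (∫ x in T, f x) ^ 2 / m := by
      field_simp
      ring
    rw [h3, sub_nonneg, div_le_iff₀ h] at h2
    linarith

private theorem cs_of_zero {a : ℝ} {f : ℝ → ℝ} (hs : ∀ x, 2 * a ≤ |x| → f x = 0) :
    HasCompactSupport f := by
  refine HasCompactSupport.intro (isCompact_Icc (a := -(2 * a)) (b := 2 * a)) ?_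
  intro x hx
  refine hs x ?_
  by_contra h
  rw [not_le, abs_lt] at h
  exact hx ⟨h.1.le, h.2.le⟩

/-- Paley-Zygmund for a density -/
theorem pz (a : ℝ) (ha : 0 < a) (f : ℝ → ℝ) (hf : Continuous f) (h0 : ∀ x, 0 ≤ f x)
    (hs : ∀ x, 2 * a ≤ |x| → f x = 0) (hI : ∫ x, f x = 1) :
    ENNReal.ofReal (1 / (4 * ∫ x, f x ^ 2)) ≤
      volume {x | x ∈ Icc (-(2 * a)) (2 * a) ∧ 1 / 8 ≤ a * f x} := by
  set T : Set ℝ := {x | x ∈ Icc (-(2 * a)) (2 * a) ∧ 1 / 8 ≤ a * f x} with hTdef
  have hcs : HasCompactSupport f := cs_of_zero hs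
  have hTsub : T ⊆ Icc (-(2 * a)) (2 * a) := fun x hx => hx.1
  have hTm : MeasurableSet T := by
    have h1 : IsClosed {x : ℝ | 1 / 8 ≤ a * f x} :=
      isClosed_le continuous_const (continuous_const.mul hf)
    exact measurableSet_Icc.inter h1.measurableSet
  have hIccv : volume (Icc (-(2 * a)) (2 * a)) = ENNReal.ofReal (4 * a) := by
    rw [Real.volume_Icc]
    congr 1
    ring
  have hTfin : volume T ≠ ⊤ := by
    refine ne_top_of_le_ne_top ?_ (measure_mono hTsub)
    rw [hIccv]
    exact ENNReal.ofReal_ne_top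
  have hfi : Integrable f := hf.integrable_of_hasCompactSupport hcs
  have hf2i : Integrable (fun x => f x ^ 2) := by
    have : Integrable (fun x => f x * f x) :=
      (hf.mul hf).integrable_of_hasCompactSupport hcs.mul_right
    simpa [pow_two] using this
  have hIcc : ∫ x in Icc (-(2 * a)) (2 * a), f x = 1 := by
    rw [← hI]
    refine setIntegral_eq_integral_of_forall_compl_eq_zero ?_
    intro x hx
    refine hs x ?_
    by_contra h
    rw [not_le, abs_lt] at h
    exact hx ⟨h.1.le, h.2.le⟩
  have hsplit : (∫ x in T, f x) + (∫ x in Icc (-(2 * a)) (2 * a) \ T, f x) = 1 := by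
    rw [← hIcc, ← setIntegral_union disjoint_sdiff_right
      (measurableSet_Icc.diff hTm) hfi.integrableOn hfi.integrableOn,
      union_sdiff_cancel hTsub]
  have hsmall : ∫ x in Icc (-(2 * a)) (2 * a) \ T, f x ≤ 1 / 2 := by
    have hDfin : volume (Icc (-(2 * a)) (2 * a) \ T) ≠ ⊤ := by
      refine ne_top_of_le_ne_top ?_ (measure_mono sdiff_subset)
      rw [hIccv]
      exact ENNReal.ofReal_ne_top
    have h1 : ∫ x in Icc (-(2 * a)) (2 * a) \ T, f x
        ≤ ∫ x in Icc (-(2 * a)) (2 * a) \ T, (1 / (8 * a) : ℝ) := by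
      refine setIntegral_mono_on hfi.integrableOn (integrableOn_const hDfin)
        (measurableSet_Icc.diff hTm) ?_
      intro x hx
      have h2 : ¬ (1 / 8 ≤ a * f x) := fun h => hx.2 ⟨hx.1, h⟩
      rw [not_le] at h2
      rw [le_div_iff₀ (by positivity)]
      nlinarith
    refine h1.trans ?_
    rw [setIntegral_const, smul_eq_mul, Measure.real]
    have h3 : (volume (Icc (-(2 * a)) (2 * a) \ T)).toReal ≤ 4 * a := by
      have := ENNReal.toReal_mono (by rw [hIccv]; exact ENNReal.ofReal_ne_top)
        (measure_mono (μ := volume) (sdiff_subset (s := Icc (-(2 * a)) (2 * a)) (t := T)))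
      rwa [hIccv, ENNReal.toReal_ofReal (by positivity)] at this
    calc (volume (Icc (-(2 * a)) (2 * a) \ T)).toReal * (1 / (8 * a))
        ≤ 4 * a * (1 / (8 * a)) := mul_le_mul_of_nonneg_right h3 (by positivity)
      _ = 1 / 2 := by field_simp; norm_num
  have hhalf : 1 / 2 ≤ ∫ x in T, f x := by linarith
  have hcauchy := cs_set hTfin hfi.integrableOn hf2i.integrableOn
  have hle : ∫ x in T, f x ^ 2 ≤ ∫ x, f x ^ 2 :=
    setIntegral_le_integral hf2i (Filter.Eventually.of_forall fun x => sq_nonneg _)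
  have h4 : 1 / 4 ≤ (volume T).toReal * ∫ x, f x ^ 2 := by
    have h5 : (1 / 4 : ℝ) ≤ (∫ x in T, f x) ^ 2 := by nlinarith
    refine h5.trans (hcauchy.trans ?_)
    exact mul_le_mul_of_nonneg_left hle ENNReal.toReal_nonneg
  have hpos : 0 < ∫ x, f x ^ 2 := by
    rcases eq_or_lt_of_le (integral_nonneg (fun x => sq_nonneg (f x)) :
      0 ≤ ∫ x, f x ^ 2) with h | h
    · rw [← h, mul_zero] at h4
      norm_num at h4
    · exact h
  rw [← ENNReal.ofReal_toReal hTfin]
  refine ENNReal.ofReal_le_ofReal ?_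
  rw [div_le_iff₀ (by positivity)]
  linarith

/-- `L¹` from `L²` on an interval -/
theorem l1_sq_le (a : ℝ) (ha : 0 < a) (f : ℝ → ℝ) (hf : Continuous f)
    (hs : ∀ x, 2 * a ≤ |x| → f x = 0) :
    (∫ x, |f x|) ^ 2 ≤ 4 * a * ∫ x, f x ^ 2 := by
  have hcs : HasCompactSupport f := cs_of_zero hs
  have hfi : Integrable f := hf.integrable_of_hasCompactSupport hcs
  have hf2i : Integrable (fun x => f x ^ 2) := by
    have : Integrable (fun x => f x * f x) :=
      (hf.mul hf).integrable_of_hasCompactSupport hcs.mul_right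
    simpa [pow_two] using this
  have hIccv : volume (Icc (-(2 * a)) (2 * a)) = ENNReal.ofReal (4 * a) := by
    rw [Real.volume_Icc]
    congr 1
    ring
  have hz : ∀ x, x ∉ Icc (-(2 * a)) (2 * a) → f x = 0 := by
    intro x hx
    refine hs x ?_
    by_contra h
    rw [not_le, abs_lt] at h
    exact hx ⟨h.1.le, h.2.le⟩
  have e1 : ∫ x in Icc (-(2 * a)) (2 * a), |f x| = ∫ x, |f x| :=
    setIntegral_eq_integral_of_forall_compl_eq_zero fun x hx => by rw [hz x hx, abs_zero]
  have e2 : ∫ x in Icc (-(2 * a)) (2 * a), |f x| ^ 2 = ∫ x, f x ^ 2 := by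
    simp only [sq_abs]
    exact setIntegral_eq_integral_of_forall_compl_eq_zero fun x hx => by
      rw [hz x hx]; norm_num
  have h := cs_set (f := fun x => |f x|) (T := Icc (-(2 * a)) (2 * a))
    (by rw [hIccv]; exact ENNReal.ofReal_ne_top) hfi.abs.integrableOn
    (by simpa only [sq_abs] using hf2i.integrableOn)
  rw [e1, e2, hIccv, ENNReal.toReal_ofReal (by positivity)] at h
  exact h

end Pool.Agent.VC
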