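import Pool.Agent.VC.Basic

set_option autoImplicit false

open MeasureTheory Set

namespace Pool.Agent.VC
namespace Sys

variable (S : Sys)

theorem nb_zero (b : ℕ) : S.nb b 0 = 0 := by
  unfold nb
  simp

theorem nb_add (b i j : ℕ) : S.nb b (i + j) = S.nb b i + S.nb (b + i) j := by
  classical
  unfold nb
  rw [← Finset.card_union_of_disjoint]
  · congr 1
    ext k
    simp only [Finset.mem_union, Finset.mem_filter, Finset.mem_Ioc]
    constructor
    · rintro ⟨⟨h1, h2⟩, h3⟩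
      by_cases h : k ≤ b + i
      · exact Or.inl ⟨⟨h1, h⟩, h3⟩
      · exact Or.inr ⟨⟨by omega, by omega⟩, h3⟩
    · rintro (⟨⟨h1, h2⟩, h3⟩ | ⟨⟨h1, h2⟩, h3⟩)
      · exact ⟨⟨h1, by omega⟩, h3⟩
      · exact ⟨⟨by omega, by omega⟩, h3⟩
  · rw [Finset.disjoint_left]
    intro k hk hk'
    simp only [Finset.mem_filter, Finset.mem_Ioc] at hk hk'
    omega

theorem nb_one_sep (b : ℕ) (h : S.sep (b + 1)) : S.nb b 1 = 0 := by
  classical
  unfold nb
  rw [Finset.card_eq_zero, Finset.filter_eq_empty_iff]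
  intro i hi
  rw [Finset.mem_Ioc] at hi
  have : i = b + 1 := by omega
  rw [this]
  exact fun hn => hn h

theorem nb_one_nonsep (b : ℕ) (h : ¬ S.sep (b + 1)) : S.nb b 1 = 1 := by
  classical
  unfold nb
  rw [Finset.card_eq_one]
  refine ⟨b + 1, ?_⟩
  ext i
  simp only [Finset.mem_filter, Finset.mem_Ioc, Finset.mem_singleton]
  constructor
  · rintro ⟨⟨h1, h2⟩, -⟩; omega
  · rintro rfl; exact ⟨⟨by omega, le_refl _⟩, h⟩

theorem nb_succ_sep (b j : ℕ) (h : S.sep (b + 1)) : S.nb b (j + 1) = S.nb (b + 1) j := by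
  rw [add_comm j 1, nb_add, nb_one_sep S b h, zero_add]

theorem nb_succ_nonsep (b j : ℕ) (h : ¬ S.sep (b + 1)) :
    S.nb b (j + 1) = S.nb (b + 1) j + 1 := by
  rw [add_comm j 1, nb_add, nb_one_nonsep S b h, add_comm]

theorem nb_mono_right (b j j' : ℕ) (h : j ≤ j') : S.nb b j ≤ S.nb b j' := by
  obtain ⟨i, rfl⟩ := Nat.exists_eq_add_of_le h
  rw [nb_add]
  exact Nat.le_add_right _ _

theorem nb_shift (k b j : ℕ) : (S.shift k).nb b j = S.nb (k + b) j := by
  induction j generalizing b with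
  | zero => rw [nb_zero, nb_zero]
  | succ j ih =>
    by_cases h : S.sep (k + b + 1)
    · have h' : (S.shift k).sep (b + 1) := h
      rw [nb_succ_sep _ b j h', nb_succ_sep _ (k + b) j h, ih (b + 1)]
      rfl
    · have h' : ¬ (S.shift k).sep (b + 1) := h
      rw [nb_succ_nonsep _ b j h', nb_succ_nonsep _ (k + b) j h, ih (b + 1)]
      rfl

theorem sep_scale (c : ℝ) (hc : 0 < c) (i : ℕ) : (S.scale c hc).sep i ↔ S.sep i := by
  have e1 : 7 / 3 * (c * S.P i) ≤ c * S.p i ↔ 7 / 3 * S.P i ≤ S.p i := by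
    rw [mul_left_comm]; exact mul_le_mul_iff_right₀ hc
  have e2 : 7 / 3 * (c * S.Q i) ≤ c * S.q i ↔ 7 / 3 * S.Q i ≤ S.q i := by
    rw [mul_left_comm]; exact mul_le_mul_iff_right₀ hc
  exact or_congr e1 e2

theorem nb_scale (c : ℝ) (hc : 0 < c) (b j : ℕ) : (S.scale c hc).nb b j = S.nb b j := by
  classical
  unfold nb
  congr 1
  ext i
  simp only [Finset.mem_filter, sep_scale]

theorem PQ_half (i : ℕ) : S.P (i + 1) * S.Q (i + 1) ≤ 1 / 2 * (S.P i * S.Q i) := by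
  have hp := S.Ppos (i + 1)
  have hq := S.Qpos (i + 1)
  rw [S.hP i, S.hQ i]
  rcases S.dig (i + 1) with ⟨h1, h2, h3⟩ | ⟨h1, h2, h3⟩
  · rw [h1]
    nlinarith [mul_le_mul_of_nonneg_right h2 hq.le]
  · rw [h1]
    nlinarith [mul_le_mul_of_nonneg_left h2 hp.le]

theorem PQ_sep (i : ℕ) (h : S.sep (i + 1)) :
    S.P (i + 1) * S.Q (i + 1) ≤ 3 / 10 * (S.P i * S.Q i) := by
  have hp := S.Ppos (i + 1)
  have hq := S.Qpos (i + 1)
  rw [S.hP i, S.hQ i]
  rcases h with h | h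
  · rcases S.dig (i + 1) with ⟨h1, h2, h3⟩ | ⟨h1, h2, h3⟩
    · rw [h1]
      nlinarith [mul_le_mul_of_nonneg_right h hq.le]
    · exfalso
      rw [h1] at h
      linarith
  · rcases S.dig (i + 1) with ⟨h1, h2, h3⟩ | ⟨h1, h2, h3⟩
    · exfalso
      rw [h1] at h
      linarith
    · rw [h1]
      nlinarith [mul_le_mul_of_nonneg_left h hp.le]

theorem PQ_nb (b j : ℕ) : S.P (b + j) * S.Q (b + j) ≤
    (3 / 10) ^ j * (5 / 3) ^ S.nb b j * (S.P b * S.Q b) := by
  induction j with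
  | zero => rw [nb_zero]; simp
  | succ j ih =>
    have h0 : 0 < S.P b * S.Q b := mul_pos (S.Ppos b) (S.Qpos b)
    by_cases h : S.sep (b + j + 1)
    · have h1 := S.PQ_sep (b + j) h
      rw [nb_add, nb_one_sep S (b + j) h, add_zero]
      calc S.P (b + (j + 1)) * S.Q (b + (j + 1)) ≤ 3 / 10 * (S.P (b + j) * S.Q (b + j)) := h1
        _ ≤ 3 / 10 * ((3 / 10) ^ j * (5 / 3) ^ S.nb b j * (S.P b * S.Q b)) := by
            exact mul_le_mul_of_nonneg_left ih (by norm_num)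
        _ = (3 / 10) ^ (j + 1) * (5 / 3) ^ S.nb b j * (S.P b * S.Q b) := by ring
    · have h1 := S.PQ_half (b + j)
      rw [nb_add, nb_one_nonsep S (b + j) h]
      calc S.P (b + (j + 1)) * S.Q (b + (j + 1)) ≤ 1 / 2 * (S.P (b + j) * S.Q (b + j)) := h1
        _ ≤ 1 / 2 * ((3 / 10) ^ j * (5 / 3) ^ S.nb b j * (S.P b * S.Q b)) := by
            exact mul_le_mul_of_nonneg_left ih (by norm_num)
        _ = (3 / 10) ^ (j + 1) * (5 / 3) ^ (S.nb b j + 1) * (S.P b * S.Q b) := by ring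

/-- `P_{b+j}Q_{b+j} ≤ (3/10)^j (5/3)^{nb} P_bQ_b` and `4PQ ≤ r² ≤ (25/4)PQ` -/
theorem r_upper (b j : ℕ) (h : S.nb b j ≤ 7) : S.r (b + j) ≤ 8 * (11 / 20) ^ j * S.r b := by
  have h1 := S.PQ_nb b j
  have hPj := S.Ppos (b + j)
  have hQj := S.Qpos (b + j)
  have hPb := S.Ppos b
  have hQb := S.Qpos b
  obtain ⟨g1, g2⟩ := S.ratio (b + j)
  have h2 : S.r (b + j) ^ 2 ≤ 25 / 4 * (S.P (b + j) * S.Q (b + j)) := by
    unfold r
    nlinarith [mul_nonneg (sub_nonneg.mpr g1) (sub_nonneg.mpr g2)]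
  have h3 : 4 * (S.P b * S.Q b) ≤ S.r b ^ 2 := by
    unfold r
    nlinarith [sq_nonneg (S.P b - S.Q b)]
  have h4 : ((5 : ℝ) / 3) ^ S.nb b j ≤ (5 / 3) ^ 7 :=
    pow_le_pow_right₀ (by norm_num) h
  have h5 : ((3 : ℝ) / 10) ^ j ≤ ((11 / 20) ^ j) ^ 2 := by
    rw [← pow_mul, mul_comm, pow_mul]
    exact pow_le_pow_left₀ (by norm_num) (by norm_num) j
  have hr : 0 < S.r b := by unfold r; linarith
  have h6 : (3 / 10 : ℝ) ^ j * (5 / 3) ^ S.nb b j * (S.P b * S.Q b) ≤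
      ((11 / 20) ^ j) ^ 2 * (5 / 3) ^ 7 * (S.r b ^ 2 / 4) := by
    have h7 : (3 / 10 : ℝ) ^ j * (5 / 3) ^ S.nb b j ≤ ((11 / 20) ^ j) ^ 2 * (5 / 3) ^ 7 :=
      mul_le_mul h5 h4 (by positivity) (by positivity)
    exact mul_le_mul h7 (by linarith) (mul_pos hPb hQb).le (by positivity)
  have h8 : S.r (b + j) ^ 2 ≤ (8 * (11 / 20) ^ j * S.r b) ^ 2 := by
    have h9 : S.r (b + j) ^ 2 ≤ 25 / 4 * (((11 / 20) ^ j) ^ 2 * (5 / 3) ^ 7 * (S.r b ^ 2 / 4)) := by
      linarith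
    have h10 : 25 / 4 * (((11 / 20 : ℝ) ^ j) ^ 2 * (5 / 3) ^ 7 * (S.r b ^ 2 / 4)) ≤
        (8 * (11 / 20) ^ j * S.r b) ^ 2 := by
      have h11 : (0 : ℝ) ≤ ((11 / 20 : ℝ) ^ j) ^ 2 * S.r b ^ 2 := by positivity
      have e : (8 * (11 / 20 : ℝ) ^ j * S.r b) ^ 2 = 64 * (((11 / 20 : ℝ) ^ j) ^ 2 * S.r b ^ 2) := by
        ring
      have e' : 25 / 4 * (((11 / 20 : ℝ) ^ j) ^ 2 * (5 / 3) ^ 7 * (S.r b ^ 2 / 4)) =
        (25 / 16 * (5 / 3) ^ 7) * (((11 / 20 : ℝ) ^ j) ^ 2 * S.r b ^ 2) := by ring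
      rw [e, e']
      exact mul_le_mul_of_nonneg_right (by norm_num) h11
    linarith
  exact le_of_sq_le_sq h8 (by positivity)

theorem A_nb (b j : ℕ) : S.A (b + j) ≤ (5 / 6) ^ S.nb b j * S.A b := by
  induction j with
  | zero => rw [nb_zero]; simp
  | succ j ih =>
    have h0 := S.A_pos b
    by_cases h : S.sep (b + j + 1)
    · rw [nb_add, nb_one_sep S (b + j) h, add_zero]
      exact (S.A_anti (by omega : b + j ≤ b + (j + 1))).trans ih
    · rw [nb_add, nb_one_nonsep S (b + j) h]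
      have h1 := S.A_nonsep (b + j) h
      calc S.A (b + (j + 1)) ≤ 5 / 6 * S.A (b + j) := h1
        _ ≤ 5 / 6 * ((5 / 6) ^ S.nb b j * S.A b) := mul_le_mul_of_nonneg_left ih (by norm_num)
        _ = (5 / 6) ^ (S.nb b j + 1) * S.A b := by ring

theorem nb_le_seven (b j : ℕ) (h : S.ta b ≤ 2 * S.ta (b + j)) : S.nb b j ≤ 7 := by
  by_contra hcon
  have hn : 8 ≤ S.nb b j := by omega
  have h1 := S.A_nb b j
  have h2 : S.A b ≤ 4 * S.A (b + j) := by
    rw [← S.ta_sq b, ← S.ta_sq (b + j)]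
    have := pow_le_pow_left₀ (S.ta_pos b).le h 2
    nlinarith
  have h3 : ((5 : ℝ) / 6) ^ S.nb b j ≤ (5 / 6) ^ 8 :=
    pow_le_pow_of_le_one (by norm_num) (by norm_num) hn
  have h0 := S.A_pos b
  have h4 : (5 / 6 : ℝ) ^ S.nb b j * S.A b ≤ (5 / 6) ^ 8 * S.A b :=
    mul_le_mul_of_nonneg_right h3 h0.le
  have h5 : (5 / 6 : ℝ) ^ 8 * S.A b < 1 / 4 * S.A b :=
    mul_lt_mul_of_pos_right (by norm_num) h0
  linarith

/-- the non-separated indices have small total weight -/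
theorem sum_nonsep (N : ℕ) (s : Finset ℕ) (hs : ∀ k ∈ s, 1 ≤ k ∧ k ≤ N ∧ ¬ S.sep k) :
    ∑ k ∈ s, S.A k ≤ 5 * S.A 0 := by
  classical
  have key : ∀ N : ℕ, (∑ k ∈ (Finset.Ioc 0 N).filter (fun k => ¬ S.sep k), S.A k) +
      5 * S.A N ≤ 5 * S.A 0 := by
    intro N
    induction N with
    | zero => simp
    | succ N ih =>
      have e : Finset.Ioc 0 (N + 1) = insert (N + 1) (Finset.Ioc 0 N) := by
        ext k; simp only [Finset.mem_Ioc, Finset.mem_insert]; omega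
      rw [e, Finset.filter_insert]
      by_cases h : S.sep (N + 1)
      · rw [if_neg (not_not.mpr h)]
        have := S.A_anti (Nat.le_succ N)
        have h2 : S.A (N + 1) ≤ S.A N := this
        linarith
      · rw [if_pos h, Finset.sum_insert (by simp)]
        have := S.A_nonsep N h
        linarith
  have hsub : s ⊆ (Finset.Ioc 0 N).filter (fun k => ¬ S.sep k) := by
    intro k hk
    obtain ⟨h1, h2, h3⟩ := hs k hk
    rw [Finset.mem_filter, Finset.mem_Ioc]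
    exact ⟨⟨by omega, h2⟩, h3⟩
  have h1 : ∑ k ∈ s, S.A k ≤ ∑ k ∈ (Finset.Ioc 0 N).filter (fun k => ¬ S.sep k), S.A k :=
    Finset.sum_le_sum_of_subset_of_nonneg hsub fun k _ _ => (S.A_pos k).le
  have h2 := key N
  have h3 := S.A_pos N
  linarith

/-- the indices good for `t` have a third of the total weight (`good3`, `A_anti`) -/
theorem sum_good (N : ℕ) (t : ℝ) (h1 : 1 ≤ t) (h2 : t ≤ 2) (s : Finset ℕ)
    (hs : ∀ k, 1 ≤ k → k ≤ N → S.good k t → k ∈ s) :
    ∑ k ∈ Finset.range (N + 1), S.A k ≤ 3 * ∑ k ∈ s, S.A k + 7 * S.A 0 := by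
  classical
  have key : ∀ m : ℕ, ∑ k ∈ Finset.Ioc 3 (3 * m + 3), S.A k ≤
      3 * ∑ k ∈ (Finset.Ioc 0 (3 * m)).filter (fun k => S.good k t), S.A k := by
    intro m
    induction m with
    | zero => simp
    | succ m ih =>
      have e : Finset.Ioc 3 (3 * (m + 1) + 3) = insert (3 * m + 4) (insert (3 * m + 5)
          (insert (3 * m + 6) (Finset.Ioc 3 (3 * m + 3)))) := by
        ext k; simp only [Finset.mem_Ioc, Finset.mem_insert]; omega
      rw [e, Finset.sum_insert (by simp), Finset.sum_insert (by simp),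
        Finset.sum_insert (by simp)]
      obtain ⟨j, hj1, hj2, hj3⟩ := S.good3 (3 * m) t h1 h2
      have a4 : S.A (3 * m + 4) ≤ S.A j := S.A_anti (by omega)
      have a5 : S.A (3 * m + 5) ≤ S.A j := S.A_anti (by omega)
      have a6 : S.A (3 * m + 6) ≤ S.A j := S.A_anti (by omega)
      have hins : insert j ((Finset.Ioc 0 (3 * m)).filter (fun k => S.good k t)) ⊆
          (Finset.Ioc 0 (3 * (m + 1))).filter (fun k => S.good k t) := by
        intro k hk
        rw [Finset.mem_insert] at hk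
        rw [Finset.mem_filter, Finset.mem_Ioc]
        rcases hk with rfl | hk
        · exact ⟨⟨by omega, by omega⟩, hj3⟩
        · rw [Finset.mem_filter, Finset.mem_Ioc] at hk
          exact ⟨⟨hk.1.1, by omega⟩, hk.2⟩
      have h3 := Finset.sum_le_sum_of_subset_of_nonneg hins
        (fun k _ _ => (S.A_pos k).le)
      rw [Finset.sum_insert (by
        rw [Finset.mem_filter, Finset.mem_Ioc]; intro h; omega)] at h3
      linarith
  set m := N / 3 with hm
  have hN1 : 3 * m ≤ N := by omega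
  have hN2 : N < 3 * m + 3 := by omega
  have hkm := key m
  have hsub : (Finset.Ioc 0 (3 * m)).filter (fun k => S.good k t) ⊆ s := by
    intro k hk
    rw [Finset.mem_filter, Finset.mem_Ioc] at hk
    exact hs k (by omega) (by omega) hk.2
  have h4 := Finset.sum_le_sum_of_subset_of_nonneg hsub (fun k _ _ => (S.A_pos k).le)
  have hsub2 : Finset.range (N + 1) ⊆ Finset.range 4 ∪ Finset.Ioc 3 (3 * m + 3) := by
    intro k hk
    rw [Finset.mem_range] at hk
    rw [Finset.mem_union, Finset.mem_range, Finset.mem_Ioc]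
    omega
  have h5 := Finset.sum_le_sum_of_subset_of_nonneg hsub2 (fun k _ _ => (S.A_pos k).le)
  have hdis : Disjoint (Finset.range 4) (Finset.Ioc 3 (3 * m + 3)) := by
    rw [Finset.disjoint_left]
    intro k hk hk'
    rw [Finset.mem_range] at hk
    rw [Finset.mem_Ioc] at hk'
    omega
  rw [Finset.sum_union hdis] at h5
  have h6 : ∑ k ∈ Finset.range 4, S.A k ≤ 4 * S.A 0 := by
    have := Finset.sum_le_card_nsmul (Finset.range 4) S.A (S.A 0)
      (fun k _ => S.A_anti (Nat.zero_le k))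
    rw [Finset.card_range, nsmul_eq_mul] at this
    exact_mod_cast this
  have h7 := S.A_pos 0
  linarith

end Sys
end Pool.Agent.VC
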