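import Pool.Agent.VC.Cross
import Pool.Agent.VC.Nb
import Pool.Agent.VC.L2id

set_option autoImplicit false

open MeasureTheory Set

namespace Pool.Agent.VC
namespace Sys

variable (S : Sys)

theorem v_cont (b : ℕ) : Continuous (S.v b) := by
  unfold v
  fun_prop

theorem H_sq_cont (b j : ℕ) : Continuous (fun t => ∫ x, S.H b j t x ^ 2) := by
  have h := S.H_corr_cont b j (fun _ => 0) continuous_const
  simpa only [add_zero, ← sq] using h

theorem D_sq_cont (b j : ℕ) : Continuous (fun t => ∫ x, S.D b j t x ^ 2) := by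
  have h := S.D_corr_cont b j (fun _ => 0) continuous_const
  simpa only [add_zero, ← sq] using h

theorem e_succ_le (b j : ℕ) : ∫ t, chi t * (∫ x, S.H b (j + 1) t x ^ 2) ≤
    ∫ t, chi t * (∫ x, S.H (b + 1) j t x ^ 2) := by
  refine chi_mono (S.H_sq_cont b (j + 1)) (S.H_sq_cont (b + 1) j) fun t => ?_
  have h := three_shift_le (S.H (b + 1) j t) (S.H_cont_right (b + 1) j t)
    (S.H_compact (b + 1) j t) (S.v (b + 1) t)
  simp only [H_succ]
  exact h

theorem d_succ_le (b j : ℕ) : ∫ t, chi t * (∫ x, S.D b (j + 1) t x ^ 2) ≤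
    ∫ t, chi t * (∫ x, S.D (b + 1) j t x ^ 2) := by
  refine chi_mono (S.D_sq_cont b (j + 1)) (S.D_sq_cont (b + 1) j) fun t => ?_
  have h := three_shift_le (S.D (b + 1) j t) (S.D_cont_right (b + 1) j t)
    (S.D_compact (b + 1) j t) (S.v (b + 1) t)
  simp only [D_succ]
  exact h

/-- combination of three weighted integrals -/
theorem chi_three {f g1 g2 : ℝ → ℝ} (hf : Continuous f) (h1 : Continuous g1) (h2 : Continuous g2)
    {K : ℝ} (k1 : |∫ t, chi t * g1 t| ≤ K) (k2 : |∫ t, chi t * g2 t| ≤ K) :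
    ∫ t, chi t * (3 / 8 * f t + 1 / 2 * g1 t + 1 / 8 * g2 t) ≤
      3 / 8 * (∫ t, chi t * f t) + 5 / 8 * K := by
  have e : ∀ t, chi t * (3 / 8 * f t + 1 / 2 * g1 t + 1 / 8 * g2 t) =
      (3 / 8 * (chi t * f t) + 1 / 2 * (chi t * g1 t)) + 1 / 8 * (chi t * g2 t) := by
    intro t; ring
  simp only [e]
  have i0 : Integrable (fun t => 3 / 8 * (chi t * f t)) := (chi_mul_integrable hf).const_mul _
  have i1 : Integrable (fun t => 1 / 2 * (chi t * g1 t)) := (chi_mul_integrable h1).const_mul _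
  have i2 : Integrable (fun t => 1 / 8 * (chi t * g2 t)) := (chi_mul_integrable h2).const_mul _
  have i01 : Integrable (fun t => 3 / 8 * (chi t * f t) + 1 / 2 * (chi t * g1 t)) := i0.add i1
  rw [integral_add i01 i2, integral_add i0 i1, integral_const_mul, integral_const_mul,
    integral_const_mul]
  have a1 := (le_abs_self _).trans k1
  have a2 := (le_abs_self _).trans k2
  linarith

theorem e_succ_sep {C : ℝ} (hC : ∀ (S : Sys) (b j : ℕ), S.sep b → ∀ m : ℝ, (m = 1 ∨ m = 2) →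
    |∫ t, chi t * (∫ x, S.H b j t x * S.H b j t (x + m * S.v b t))| ≤ C / S.r b)
    (b j : ℕ) (h : S.sep (b + 1)) : ∫ t, chi t * (∫ x, S.H b (j + 1) t x ^ 2) ≤
    3 / 8 * (∫ t, chi t * (∫ x, S.H (b + 1) j t x ^ 2)) + 5 / 8 * (C / S.r (b + 1)) := by
  have e : ∀ t, (∫ x, S.H b (j + 1) t x ^ 2) = 3 / 8 * (∫ x, S.H (b + 1) j t x ^ 2) +
      1 / 2 * (∫ x, S.H (b + 1) j t x * S.H (b + 1) j t (x + 1 * S.v (b + 1) t)) +
      1 / 8 * (∫ x, S.H (b + 1) j t x * S.H (b + 1) j t (x + 2 * S.v (b + 1) t)) := by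
    intro t
    have h := three_shift (S.H (b + 1) j t) (S.H_cont_right (b + 1) j t)
      (S.H_compact (b + 1) j t) (S.v (b + 1) t)
    simp only [H_succ]
    exact h
  simp only [e]
  exact chi_three (S.H_sq_cont (b + 1) j)
    (S.H_corr_cont (b + 1) j (fun t => 1 * S.v (b + 1) t) ((S.v_cont (b + 1)).const_mul 1))
    (S.H_corr_cont (b + 1) j (fun t => 2 * S.v (b + 1) t) ((S.v_cont (b + 1)).const_mul 2))
    (hC S (b + 1) j h 1 (Or.inl rfl)) (hC S (b + 1) j h 2 (Or.inr rfl))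

theorem d_succ_sep {C : ℝ} (hC : ∀ (S : Sys) (b j : ℕ), S.sep b → ∀ m : ℝ, (m = 1 ∨ m = 2) →
    |∫ t, chi t * (∫ x, S.D b j t x * S.D b j t (x + m * S.v b t))| ≤
      C * S.r (b + j) / S.r b ^ 2)
    (b j : ℕ) (h : S.sep (b + 1)) : ∫ t, chi t * (∫ x, S.D b (j + 1) t x ^ 2) ≤
    3 / 8 * (∫ t, chi t * (∫ x, S.D (b + 1) j t x ^ 2)) +
      5 / 8 * (C * S.r (b + 1 + j) / S.r (b + 1) ^ 2) := by
  have e : ∀ t, (∫ x, S.D b (j + 1) t x ^ 2) = 3 / 8 * (∫ x, S.D (b + 1) j t x ^ 2) +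
      1 / 2 * (∫ x, S.D (b + 1) j t x * S.D (b + 1) j t (x + 1 * S.v (b + 1) t)) +
      1 / 8 * (∫ x, S.D (b + 1) j t x * S.D (b + 1) j t (x + 2 * S.v (b + 1) t)) := by
    intro t
    have h := three_shift (S.D (b + 1) j t) (S.D_cont_right (b + 1) j t)
      (S.D_compact (b + 1) j t) (S.v (b + 1) t)
    simp only [D_succ]
    exact h
  simp only [e]
  exact chi_three (S.D_sq_cont (b + 1) j)
    (S.D_corr_cont (b + 1) j (fun t => 1 * S.v (b + 1) t) ((S.v_cont (b + 1)).const_mul 1))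
    (S.D_corr_cont (b + 1) j (fun t => 2 * S.v (b + 1) t) ((S.v_cont (b + 1)).const_mul 2))
    (hC S (b + 1) j h 1 (Or.inl rfl)) (hC S (b + 1) j h 2 (Or.inr rfl))

theorem inv_r_succ (b : ℕ) : 1 / S.r (b + 1) ≤ 5 / 2 * (1 / S.r b) := by
  have h := S.r_lower b 1
  have h0 := S.r_pos b
  have h1 := S.r_pos (b + 1)
  rw [pow_one] at h
  rw [mul_one_div, div_le_div_iff₀ h1 h0]
  linarith

theorem inv_r (b i : ℕ) : 1 / S.r (b + i) ≤ 5 / 4 * 2 ^ i * (1 / S.r b) := by
  have h := S.r_lower b i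
  have h0 := S.r_pos b
  have h1 := S.r_pos (b + i)
  rw [mul_one_div, div_le_div_iff₀ h1 h0]
  linarith

theorem H_int (b j : ℕ) (t : ℝ) : Integrable (S.H b j t) :=
  (S.H_cont_right b j t).integrable_of_hasCompactSupport (S.H_compact b j t)

theorem e_zero (b : ℕ) : ∫ t, chi t * (∫ x, S.H b 0 t x ^ 2) ≤ 2 * (1 / S.r b) := by
  have h1 : ∀ t, (∫ x, S.H b 0 t x ^ 2) ≤ 1 / S.r b := by
    intro t
    have h2 : ∫ x, S.H b 0 t x ^ 2 ≤ ∫ x, 1 / S.r b * S.H b 0 t x := by
      refine integral_mono_of_nonneg (Filter.Eventually.of_forall fun x => sq_nonneg _)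
        ((S.H_int b 0 t).const_mul _) (Filter.Eventually.of_forall fun x => ?_)
      show S.H b 0 t x ^ 2 ≤ 1 / S.r b * S.H b 0 t x
      rw [sq]
      exact mul_le_mul_of_nonneg_right (S.H_le b 0 t x) (S.H_nonneg b 0 t x)
    rw [integral_const_mul, S.H_integral, mul_one] at h2
    exact h2
  refine (chi_mono (S.H_sq_cont b 0) continuous_const h1).trans (le_of_eq ?_)
  rw [integral_mul_const, chi_integral]

theorem d_zero (b : ℕ) : ∫ t, chi t * (∫ x, S.D b 0 t x ^ 2) ≤ 10 * (1 / S.r b) := by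
  have h1 : ∀ t, (∫ x, S.D b 0 t x ^ 2) ≤ 2 * (1 / S.r (b + 1)) := by
    intro t
    have i1 := S.H_int b 1 t
    have i0 := S.H_int b 0 t
    have h2 : ∫ x, S.D b 0 t x ^ 2 ≤ ∫ x, 1 / S.r (b + 1) * (S.H b 1 t x + S.H b 0 t x) := by
      refine integral_mono_of_nonneg (Filter.Eventually.of_forall fun x => sq_nonneg _)
        ((i1.add i0).const_mul _) (Filter.Eventually.of_forall fun x => ?_)
      show S.D b 0 t x ^ 2 ≤ 1 / S.r (b + 1) * (S.H b 1 t x + S.H b 0 t x)
      have a1 := S.H_nonneg b 1 t x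
      have a0 := S.H_nonneg b 0 t x
      have b1 := S.H_le b 1 t x
      have b0 : S.H b 0 t x ≤ 1 / S.r (b + 1) := (S.H_le b 0 t x).trans
        (one_div_le_one_div_of_le (S.r_pos (b + 1)) (S.r_anti (Nat.le_succ b)))
      have hD : S.D b 0 t x = S.H b 1 t x - S.H b 0 t x := rfl
      rw [hD]
      have c1 : |S.H b 1 t x - S.H b 0 t x| ≤ 1 / S.r (b + 1) := by
        rw [abs_le]; constructor <;> linarith
      have c2 : |S.H b 1 t x - S.H b 0 t x| ≤ S.H b 1 t x + S.H b 0 t x := by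
        rw [abs_le]; constructor <;> linarith
      rw [← sq_abs, sq]
      exact mul_le_mul c1 c2 (abs_nonneg _) (by have := S.r_pos (b + 1); positivity)
    rw [integral_const_mul, integral_add i1 i0, S.H_integral, S.H_integral] at h2
    linarith
  refine (chi_mono (S.D_sq_cont b 0) continuous_const h1).trans ?_
  rw [integral_mul_const, chi_integral]
  have := S.inv_r_succ b
  linarith

theorem energy : ∃ C : ℝ, 0 < C ∧ ∀ (S : Sys) (b j : ℕ), S.nb b j ≤ 7 →
    ∫ t, chi t * (∫ x, S.H b j t x ^ 2) ≤ C / S.r b := by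
  obtain ⟨C, hC0, hC⟩ := crossH
  set K : ℝ := 2 + 2 * C with hK
  have hK0 : 0 < K := by positivity
  have key : ∀ (S : Sys) (j b : ℕ), ∫ t, chi t * (∫ x, S.H b j t x ^ 2) ≤
      K * (8 / 3) ^ S.nb b j * ∑ i ∈ Finset.range (j + 1), (3 / 8) ^ i * (1 / S.r (b + i)) := by
    intro S j
    induction j with
    | zero =>
      intro b
      rw [nb_zero]
      simp only [zero_add, Finset.range_one, Finset.sum_singleton, pow_zero, add_zero, one_mul,
        mul_one]
      have h0 : 0 < 1 / S.r b := by have := S.r_pos b; positivity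
      refine (S.e_zero b).trans ?_
      exact mul_le_mul_of_nonneg_right (by rw [hK]; linarith) h0.le
    | succ j ih =>
      intro b
      have h0 : 0 < 1 / S.r b := by have := S.r_pos b; positivity
      have hT : ∑ i ∈ Finset.range (j + 1 + 1), (3 / 8 : ℝ) ^ i * (1 / S.r (b + i)) =
          3 / 8 * (∑ i ∈ Finset.range (j + 1), (3 / 8) ^ i * (1 / S.r (b + 1 + i))) +
            1 / S.r b := by
        rw [Finset.sum_range_succ', Finset.mul_sum]
        congr 1
        · refine Finset.sum_congr rfl fun i _ => ?_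
          rw [show b + (i + 1) = b + 1 + i by ring, pow_succ]
          ring
        · simp
      rw [hT]
      set T : ℝ := ∑ i ∈ Finset.range (j + 1), (3 / 8) ^ i * (1 / S.r (b + 1 + i)) with hTdef
      have hT0 : 0 ≤ T := Finset.sum_nonneg fun i _ => by
        have := S.r_pos (b + 1 + i); positivity
      have hih := ih (b + 1)
      rw [← hTdef] at hih
      by_cases h : S.sep (b + 1)
      · have h1 := S.e_succ_sep hC b j h
        rw [nb_succ_sep _ b j h]
        set w : ℝ := (8 / 3) ^ S.nb (b + 1) j with hw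
        have hw1 : 1 ≤ w := one_le_pow₀ (by norm_num)
        have h2 := S.inv_r_succ b
        have h3 : C / S.r (b + 1) ≤ C * (5 / 2 * (1 / S.r b)) := by
          rw [div_eq_mul_one_div]
          exact mul_le_mul_of_nonneg_left h2 hC0.le
        have h4 : K * 1 * (1 / S.r b) ≤ K * w * (1 / S.r b) :=
          mul_le_mul_of_nonneg_right (mul_le_mul_of_nonneg_left hw1 hK0.le) h0.le
        have h5 : 25 / 16 * C * (1 / S.r b) ≤ K * 1 * (1 / S.r b) :=
          mul_le_mul_of_nonneg_right (by rw [hK]; linarith) h0.le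
        calc ∫ t, chi t * (∫ x, S.H b (j + 1) t x ^ 2)
            ≤ 3 / 8 * (∫ t, chi t * (∫ x, S.H (b + 1) j t x ^ 2)) +
              5 / 8 * (C / S.r (b + 1)) := h1
          _ ≤ 3 / 8 * (K * w * T) + K * w * (1 / S.r b) := by linarith
          _ = K * w * (3 / 8 * T + 1 / S.r b) := by ring
      · have h1 := S.e_succ_le b j
        rw [nb_succ_nonsep _ b j h, pow_succ]
        set w : ℝ := (8 / 3) ^ S.nb (b + 1) j with hw
        have hw0 : 0 < w := by positivity
        have h3 : 0 ≤ K * (w * (8 / 3)) * (1 / S.r b) := by positivity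
        calc ∫ t, chi t * (∫ x, S.H b (j + 1) t x ^ 2)
            ≤ ∫ t, chi t * (∫ x, S.H (b + 1) j t x ^ 2) := h1
          _ ≤ K * w * T := hih
          _ ≤ K * w * T + K * (w * (8 / 3)) * (1 / S.r b) := by linarith
          _ = K * (w * (8 / 3)) * (3 / 8 * T + 1 / S.r b) := by ring
  have geo : ∀ n : ℕ, ∑ i ∈ Finset.range n, (3 / 4 : ℝ) ^ i ≤ 4 := by
    intro n
    have h := geom_sum_eq (x := (3 / 4 : ℝ)) (by norm_num) n
    rw [h]
    have : (0 : ℝ) ≤ (3 / 4) ^ n := by positivity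
    rw [div_le_iff_of_neg (by norm_num)]
    linarith
  refine ⟨K * (8 / 3) ^ 7 * 5, by positivity, fun S b j hnb => ?_⟩
  have h0 : 0 < 1 / S.r b := by have := S.r_pos b; positivity
  have h1 : ∑ i ∈ Finset.range (j + 1), (3 / 8 : ℝ) ^ i * (1 / S.r (b + i)) ≤ 5 * (1 / S.r b) := by
    calc ∑ i ∈ Finset.range (j + 1), (3 / 8 : ℝ) ^ i * (1 / S.r (b + i))
        ≤ ∑ i ∈ Finset.range (j + 1), (3 / 4 : ℝ) ^ i * (5 / 4 * (1 / S.r b)) := by
          refine Finset.sum_le_sum fun i _ => ?_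
          have h2 := S.inv_r b i
          calc (3 / 8 : ℝ) ^ i * (1 / S.r (b + i)) ≤
              (3 / 8) ^ i * (5 / 4 * 2 ^ i * (1 / S.r b)) :=
                mul_le_mul_of_nonneg_left h2 (by positivity)
            _ = ((3 / 8) * 2) ^ i * (5 / 4 * (1 / S.r b)) := by rw [mul_pow]; ring
            _ = (3 / 4 : ℝ) ^ i * (5 / 4 * (1 / S.r b)) := by norm_num
      _ = (∑ i ∈ Finset.range (j + 1), (3 / 4 : ℝ) ^ i) * (5 / 4 * (1 / S.r b)) := by
          rw [Finset.sum_mul]
      _ ≤ 4 * (5 / 4 * (1 / S.r b)) := mul_le_mul_of_nonneg_right (geo _) (by positivity)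
      _ = 5 * (1 / S.r b) := by ring
  have h2 : (8 / 3 : ℝ) ^ S.nb b j ≤ (8 / 3) ^ 7 := pow_le_pow_right₀ (by norm_num) hnb
  calc ∫ t, chi t * (∫ x, S.H b j t x ^ 2)
      ≤ K * (8 / 3) ^ S.nb b j *
        ∑ i ∈ Finset.range (j + 1), (3 / 8) ^ i * (1 / S.r (b + i)) := key S j b
    _ ≤ K * (8 / 3) ^ 7 * (5 * (1 / S.r b)) := by
        refine mul_le_mul (mul_le_mul_of_nonneg_left h2 hK0.le) h1 ?_ (by positivity)
        exact Finset.sum_nonneg fun i _ => by have := S.r_pos (b + i); positivity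
    _ = K * (8 / 3) ^ 7 * 5 / S.r b := by ring

theorem dEnergy : ∃ C : ℝ, 0 < C ∧ ∀ (S : Sys) (b j : ℕ), S.nb b (j + 1) ≤ 7 →
    ∫ t, chi t * (∫ x, S.D b j t x ^ 2) ≤ C / S.r b * (3 / 4) ^ j := by
  obtain ⟨C, hC0, hC⟩ := crossD
  set K : ℝ := 10 + 4 * C with hK
  have hK0 : 0 < K := by positivity
  have key : ∀ (S : Sys) (j b : ℕ), ∫ t, chi t * (∫ x, S.D b j t x ^ 2) ≤
      K * (8 / 3) ^ S.nb b j * ((3 / 8) ^ j * (1 / S.r (b + j)) +
        ∑ i ∈ Finset.range j, (3 / 8) ^ i * (S.r (b + j) * (1 / S.r (b + i)) ^ 2)) := by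
    intro S j
    induction j with
    | zero =>
      intro b
      rw [nb_zero]
      simp only [Finset.range_zero, Finset.sum_empty, pow_zero, add_zero, one_mul, mul_one]
      have h0 : 0 < 1 / S.r b := by have := S.r_pos b; positivity
      refine (S.d_zero b).trans ?_
      exact mul_le_mul_of_nonneg_right (by rw [hK]; linarith) h0.le
    | succ j ih =>
      intro b
      have hr0 := S.r_pos b
      have hr1 := S.r_pos (b + 1)
      have hrj := S.r_pos (b + 1 + j)
      have h0 : 0 < 1 / S.r b := by positivity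
      have hT : (3 / 8 : ℝ) ^ (j + 1) * (1 / S.r (b + (j + 1))) +
          ∑ i ∈ Finset.range (j + 1), (3 / 8 : ℝ) ^ i *
            (S.r (b + (j + 1)) * (1 / S.r (b + i)) ^ 2) =
          3 / 8 * ((3 / 8) ^ j * (1 / S.r (b + 1 + j)) +
            ∑ i ∈ Finset.range j, (3 / 8) ^ i * (S.r (b + 1 + j) * (1 / S.r (b + 1 + i)) ^ 2)) +
            S.r (b + 1 + j) * (1 / S.r b) ^ 2 := by
        rw [Finset.sum_range_succ', mul_add, Finset.mul_sum,
          show b + (j + 1) = b + 1 + j by ring]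
        have e1 : ∑ i ∈ Finset.range j, (3 / 8 : ℝ) ^ (i + 1) *
            (S.r (b + 1 + j) * (1 / S.r (b + (i + 1))) ^ 2) =
            ∑ i ∈ Finset.range j, 3 / 8 * ((3 / 8) ^ i *
              (S.r (b + 1 + j) * (1 / S.r (b + 1 + i)) ^ 2)) := by
          refine Finset.sum_congr rfl fun i _ => ?_
          rw [show b + (i + 1) = b + 1 + i by ring, pow_succ]
          ring
        rw [e1, pow_succ, pow_zero, one_mul, add_zero]
        ring
      rw [hT]
      set T : ℝ := (3 / 8) ^ j * (1 / S.r (b + 1 + j)) +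
            ∑ i ∈ Finset.range j, (3 / 8) ^ i * (S.r (b + 1 + j) * (1 / S.r (b + 1 + i)) ^ 2)
        with hTdef
      have hT0 : 0 ≤ T := by
        rw [hTdef]
        refine add_nonneg (by positivity) (Finset.sum_nonneg fun i _ => by
          have := S.r_pos (b + 1 + i); positivity)
      have hih := ih (b + 1)
      rw [← hTdef] at hih
      set g : ℝ := S.r (b + 1 + j) * (1 / S.r b) ^ 2 with hg
      have hg0 : 0 < g := by positivity
      by_cases h : S.sep (b + 1)
      · have h1 := S.d_succ_sep hC b j h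
        rw [nb_succ_sep _ b j h]
        set w : ℝ := (8 / 3) ^ S.nb (b + 1) j with hw
        have hw1 : 1 ≤ w := one_le_pow₀ (by norm_num)
        have h2 := S.inv_r_succ b
        have h3 : C * S.r (b + 1 + j) / S.r (b + 1) ^ 2 ≤ C * (25 / 4 * g) := by
          have e1 : C * S.r (b + 1 + j) / S.r (b + 1) ^ 2 =
              C * (S.r (b + 1 + j) * (1 / S.r (b + 1)) ^ 2) := by
            field_simp
          rw [e1, hg]
          refine mul_le_mul_of_nonneg_left ?_ hC0.le
          have h6 : (1 / S.r (b + 1)) ^ 2 ≤ (5 / 2 * (1 / S.r b)) ^ 2 :=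
            pow_le_pow_left₀ (by positivity) h2 2
          calc S.r (b + 1 + j) * (1 / S.r (b + 1)) ^ 2 ≤
              S.r (b + 1 + j) * (5 / 2 * (1 / S.r b)) ^ 2 :=
                mul_le_mul_of_nonneg_left h6 hrj.le
            _ = 25 / 4 * (S.r (b + 1 + j) * (1 / S.r b) ^ 2) := by ring
        have h4 : K * 1 * g ≤ K * w * g :=
          mul_le_mul_of_nonneg_right (mul_le_mul_of_nonneg_left hw1 hK0.le) hg0.le
        have h5 : 125 / 32 * C * g ≤ K * 1 * g :=
          mul_le_mul_of_nonneg_right (by rw [hK]; linarith) hg0.le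
        calc ∫ t, chi t * (∫ x, S.D b (j + 1) t x ^ 2)
            ≤ 3 / 8 * (∫ t, chi t * (∫ x, S.D (b + 1) j t x ^ 2)) +
              5 / 8 * (C * S.r (b + 1 + j) / S.r (b + 1) ^ 2) := h1
          _ ≤ 3 / 8 * (K * w * T) + K * w * g := by linarith
          _ = K * w * (3 / 8 * T + g) := by ring
      · have h1 := S.d_succ_le b j
        rw [nb_succ_nonsep _ b j h, pow_succ]
        set w : ℝ := (8 / 3) ^ S.nb (b + 1) j with hw
        have hw0 : 0 < w := by positivity
        have h3 : 0 ≤ K * (w * (8 / 3)) * g := by positivity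
        calc ∫ t, chi t * (∫ x, S.D b (j + 1) t x ^ 2)
            ≤ ∫ t, chi t * (∫ x, S.D (b + 1) j t x ^ 2) := h1
          _ ≤ K * w * T := hih
          _ ≤ K * w * T + K * (w * (8 / 3)) * g := by linarith
          _ = K * (w * (8 / 3)) * (3 / 8 * T + g) := by ring
  have geo : ∀ n : ℕ, ∑ i ∈ Finset.range n, (11 / 20 : ℝ) ^ (n - i) * (3 / 4) ^ i ≤
      11 / 4 * (3 / 4) ^ n := by
    intro n
    induction n with
    | zero => norm_num
    | succ n ih =>
      rw [Finset.sum_range_succ]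
      have e1 : ∑ i ∈ Finset.range n, (11 / 20 : ℝ) ^ (n + 1 - i) * (3 / 4) ^ i =
          11 / 20 * ∑ i ∈ Finset.range n, (11 / 20 : ℝ) ^ (n - i) * (3 / 4) ^ i := by
        rw [Finset.mul_sum]
        refine Finset.sum_congr rfl fun i hi => ?_
        rw [Finset.mem_range] at hi
        rw [show n + 1 - i = (n - i) + 1 by omega, pow_succ]
        ring
      rw [e1, show n + 1 - n = 1 by omega, pow_one, pow_succ]
      have : (0 : ℝ) < (3 / 4) ^ n := by positivity
      linarith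
  refine ⟨K * (8 / 3) ^ 7 * 29, by positivity, fun S b j hnb => ?_⟩
  have hr0 := S.r_pos b
  have h0 : 0 < 1 / S.r b := by positivity
  have hnb' : S.nb b j ≤ 7 := (S.nb_mono_right b j (j + 1) (Nat.le_succ j)).trans hnb
  have h1 : (3 / 8 : ℝ) ^ j * (1 / S.r (b + j)) +
        ∑ i ∈ Finset.range j, (3 / 8 : ℝ) ^ i * (S.r (b + j) * (1 / S.r (b + i)) ^ 2) ≤
      29 * (3 / 4) ^ j * (1 / S.r b) := by
    have a1 : (3 / 8 : ℝ) ^ j * (1 / S.r (b + j)) ≤ 5 / 4 * (3 / 4) ^ j * (1 / S.r b) := by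
      calc (3 / 8 : ℝ) ^ j * (1 / S.r (b + j)) ≤ (3 / 8) ^ j * (5 / 4 * 2 ^ j * (1 / S.r b)) :=
            mul_le_mul_of_nonneg_left (S.inv_r b j) (by positivity)
        _ = 5 / 4 * ((3 / 8) * 2) ^ j * (1 / S.r b) := by rw [mul_pow]; ring
        _ = 5 / 4 * (3 / 4) ^ j * (1 / S.r b) := by norm_num
    have a2 : ∑ i ∈ Finset.range j, (3 / 8 : ℝ) ^ i * (S.r (b + j) * (1 / S.r (b + i)) ^ 2) ≤
        10 * (11 / 4 * (3 / 4) ^ j) * (1 / S.r b) := by
      calc ∑ i ∈ Finset.range j, (3 / 8 : ℝ) ^ i * (S.r (b + j) * (1 / S.r (b + i)) ^ 2)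
          ≤ ∑ i ∈ Finset.range j, (11 / 20 : ℝ) ^ (j - i) * (3 / 4) ^ i *
              (10 * (1 / S.r b)) := by
            refine Finset.sum_le_sum fun i hi => ?_
            rw [Finset.mem_range] at hi
            have hri := S.r_pos (b + i)
            have hn2 : S.nb (b + i) (j - i) ≤ 7 := by
              have h3 := S.nb_add b i (j - i)
              rw [show i + (j - i) = j by omega] at h3
              omega
            have h4 := S.r_upper (b + i) (j - i) hn2
            rw [show b + i + (j - i) = b + j by omega] at h4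
            have h5 : S.r (b + j) * (1 / S.r (b + i)) ≤ 8 * (11 / 20) ^ (j - i) := by
              rw [mul_one_div, div_le_iff₀ hri]
              exact h4
            have h6 := S.inv_r b i
            calc (3 / 8 : ℝ) ^ i * (S.r (b + j) * (1 / S.r (b + i)) ^ 2)
                = (3 / 8) ^ i * ((S.r (b + j) * (1 / S.r (b + i))) * (1 / S.r (b + i))) := by
                  ring
              _ ≤ (3 / 8) ^ i * ((8 * (11 / 20) ^ (j - i)) * (5 / 4 * 2 ^ i * (1 / S.r b))) := by
                  refine mul_le_mul_of_nonneg_left ?_ (by positivity)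
                  exact mul_le_mul h5 h6 (by positivity) (by positivity)
              _ = (11 / 20) ^ (j - i) * ((3 / 8) * 2) ^ i * (10 * (1 / S.r b)) := by
                  rw [mul_pow]; ring
              _ = (11 / 20 : ℝ) ^ (j - i) * (3 / 4) ^ i * (10 * (1 / S.r b)) := by norm_num
        _ = (∑ i ∈ Finset.range j, (11 / 20 : ℝ) ^ (j - i) * (3 / 4) ^ i) *
              (10 * (1 / S.r b)) := by rw [Finset.sum_mul]
        _ ≤ (11 / 4 * (3 / 4) ^ j) * (10 * (1 / S.r b)) :=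
            mul_le_mul_of_nonneg_right (geo j) (by positivity)
        _ = 10 * (11 / 4 * (3 / 4) ^ j) * (1 / S.r b) := by ring
    have h8 : 0 < (3 / 4 : ℝ) ^ j * (1 / S.r b) := by positivity
    nlinarith [a1, a2, h8]
  have h2 : (8 / 3 : ℝ) ^ S.nb b j ≤ (8 / 3) ^ 7 := pow_le_pow_right₀ (by norm_num) hnb'
  have hpos : 0 ≤ (3 / 8 : ℝ) ^ j * (1 / S.r (b + j)) +
        ∑ i ∈ Finset.range j, (3 / 8 : ℝ) ^ i * (S.r (b + j) * (1 / S.r (b + i)) ^ 2) := by
    have := S.r_pos (b + j)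
    refine add_nonneg (by positivity) (Finset.sum_nonneg fun i _ => by
      have := S.r_pos (b + i); positivity)
  calc ∫ t, chi t * (∫ x, S.D b j t x ^ 2)
      ≤ K * (8 / 3) ^ S.nb b j * ((3 / 8) ^ j * (1 / S.r (b + j)) +
        ∑ i ∈ Finset.range j, (3 / 8) ^ i * (S.r (b + j) * (1 / S.r (b + i)) ^ 2)) := key S j b
    _ ≤ K * (8 / 3) ^ 7 * (29 * (3 / 4) ^ j * (1 / S.r b)) :=
        mul_le_mul (mul_le_mul_of_nonneg_left h2 hK0.le) h1 hpos (by positivity)
    _ = K * (8 / 3) ^ 7 * 29 / S.r b * (3 / 4) ^ j := by ring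

end Sys
end Pool.Agent.VC
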