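import Pool.Agent.VC.TreeKer

set_option autoImplicit false

open MeasureTheory Set

namespace Pool.Agent.VC

/-- the discrete Cauchy transform -/
noncomputable def Cau (lam : ℕ → ℝ) (n : ℕ) (h : Fin (4 ^ n) → ℝ) (w : ℂ) : ℂ :=
  (∑ y, (h y : ℂ) / (w - ctr lam n y)) / 4 ^ n

/-! ### auxiliary statements -/

theorem ts_side_pos (lam : ℕ → ℝ) (h : ∀ k, 1 / 4 ≤ lam k) : ∀ k, 0 < side lam k := by
  intro k
  induction k with
  | zero => exact one_pos
  | succ k ih =>
    have h1 := h k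
    show 0 < lam k * side lam k
    exact mul_pos (by linarith) ih

theorem ts_side_half (lam : ℕ → ℝ) (h : ∀ k, 1 / 4 ≤ lam k) (h2 : ∀ k, lam k ≤ 1 / 2) (k : ℕ) :
    side lam (k + 1) ≤ side lam k / 2 := by
  have h1 := ts_side_pos lam h k
  show lam k * side lam k ≤ side lam k / 2
  nlinarith [h2 k]

theorem ts_side_quarter (lam : ℕ → ℝ) (h : ∀ k, 1 / 4 ≤ lam k) (k : ℕ) :
    side lam k / 4 ≤ side lam (k + 1) := by
  have h1 := ts_side_pos lam h k
  show side lam k / 4 ≤ lam k * side lam k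
  nlinarith [h k]

theorem ts_side_dens (lam : ℕ → ℝ) (h : ∀ k, 1 / 4 ≤ lam k) (k : ℕ) :
    1 ≤ 4 ^ k * side lam k := by
  induction k with
  | zero => simp [side]
  | succ k ih =>
    have h1 := ts_side_quarter lam h k
    have h2 : (0 : ℝ) < 4 ^ k := by positivity
    calc (1 : ℝ) ≤ 4 ^ k * side lam k := ih
      _ = 4 ^ (k + 1) * (side lam k / 4) := by rw [pow_succ]; ring
      _ ≤ 4 ^ (k + 1) * side lam (k + 1) := mul_le_mul_of_nonneg_left h1 (by positivity)

/-- geometric sum -/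
theorem ts_geo (lam : ℕ → ℝ) (h : ∀ k, 1 / 4 ≤ lam k) (h2 : ∀ k, lam k ≤ 1 / 2) (n : ℕ) :
    ∀ k ≤ n, (∑ j ∈ Finset.range k, (4 : ℝ) ^ (n - j) / side lam j ^ 2) * side lam k ≤ 4 ^ n := by
  intro k
  induction k with
  | zero => intro _; simp
  | succ k ih =>
    intro hk
    have h3 := ih (by omega)
    have hs := ts_side_pos lam h k
    have hs' := ts_side_pos lam h (k + 1)
    have hh := ts_side_half lam h h2 k
    have hd := ts_side_dens lam h k
    rw [Finset.sum_range_succ, add_mul]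
    have h4 : (∑ j ∈ Finset.range k, (4 : ℝ) ^ (n - j) / side lam j ^ 2) * side lam (k + 1) ≤
        4 ^ n / 2 := by
      have h5 : 0 ≤ ∑ j ∈ Finset.range k, (4 : ℝ) ^ (n - j) / side lam j ^ 2 :=
        Finset.sum_nonneg fun j _ => by positivity
      calc (∑ j ∈ Finset.range k, (4 : ℝ) ^ (n - j) / side lam j ^ 2) * side lam (k + 1) ≤
          (∑ j ∈ Finset.range k, (4 : ℝ) ^ (n - j) / side lam j ^ 2) * (side lam k / 2) :=
            mul_le_mul_of_nonneg_left hh h5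
        _ ≤ 4 ^ n / 2 := by linarith
    have h6 : (4 : ℝ) ^ (n - k) / side lam k ^ 2 * side lam (k + 1) ≤ 4 ^ n / 2 := by
      have h7 : (4 : ℝ) ^ n = 4 ^ (n - k) * 4 ^ k := by
        rw [← pow_add]
        congr 1
        omega
      have h8 : (4 : ℝ) ^ (n - k) / side lam k ^ 2 * side lam (k + 1) ≤
          (4 : ℝ) ^ (n - k) / side lam k ^ 2 * (side lam k / 2) :=
        mul_le_mul_of_nonneg_left hh (by positivity)
      have h9 : (4 : ℝ) ^ (n - k) / side lam k ^ 2 * (side lam k / 2) =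
          (4 : ℝ) ^ (n - k) * (1 / side lam k) / 2 := by
        field_simp
      have h10 : 1 / side lam k ≤ 4 ^ k := by
        rw [div_le_iff₀ hs]
        exact hd
      have h11 : (4 : ℝ) ^ (n - k) * (1 / side lam k) ≤ 4 ^ (n - k) * 4 ^ k :=
        mul_le_mul_of_nonneg_left h10 (by positivity)
      rw [h7]
      linarith
    linarith

/-- sum over the points outside a class -/
theorem ts_sum (n : ℕ) (x : Fin (4 ^ n)) (g : Fin (4 ^ n) → ℝ) (a : ℕ → ℝ) (ha : ∀ j, 0 ≤ a j)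
    (hg : ∀ y, 0 ≤ g y) : ∀ k ≤ n,
    (∀ j < k, ∀ y, lb n j y = lb n j x → lb n (j + 1) y ≠ lb n (j + 1) x → g y ≤ a j) →
    ∑ y ∈ Finset.univ.filter (fun y => lb n k y ≠ lb n k x), g y ≤
      ∑ j ∈ Finset.range k, (4 : ℝ) ^ (n - j) * a j := by
  intro k
  induction k with
  | zero =>
    intro _ _
    rw [Finset.filter_false_of_mem]
    · simp
    · intro y _ hy
      exact hy ((isTree_lb n).zero y x)
  | succ k ih =>
    intro hk hh
    have h1 := ih (by omega) (fun j hj y h1 h2 => hh j (by omega) y h1 h2)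
    rw [Finset.sum_range_succ]
    have h2 : ∑ y ∈ Finset.univ.filter (fun y => lb n (k + 1) y ≠ lb n (k + 1) x), g y ≤
        ∑ y ∈ Finset.univ.filter (fun y => lb n k y ≠ lb n k x), g y +
          ∑ y ∈ Finset.univ.filter (fun y => lb n k y = lb n k x), a k := by
      rw [Finset.sum_filter, Finset.sum_filter, Finset.sum_filter, ← Finset.sum_add_distrib]
      refine Finset.sum_le_sum fun y _ => ?_
      by_cases h3 : lb n k y = lb n k x
      · rw [if_neg (not_not.2 h3), if_pos h3, zero_add]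
        by_cases h4 : lb n (k + 1) y = lb n (k + 1) x
        · rw [if_neg (not_not.2 h4)]
          exact ha k
        · rw [if_pos h4]
          exact hh k (by omega) y h3 h4
      · rw [if_pos h3, if_neg h3, add_zero]
        split_ifs
        · exact le_rfl
        · exact hg y
    have h5 : ∑ y ∈ Finset.univ.filter (fun y => lb n k y = lb n k x), a k =
        (4 : ℝ) ^ (n - k) * a k := by
      rw [Finset.sum_const, (isTree_lb n).card k (by omega) x, nsmul_eq_mul]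
      push_cast
      ring
    linarith

/-- the sum with the bound of the differences -/
theorem ts_sum' (lam : ℕ → ℝ) (h : ∀ k, 1 / 4 ≤ lam k) (h2 : ∀ k, lam k ≤ 1 / 2) (n : ℕ)
    (x : Fin (4 ^ n)) (g : Fin (4 ^ n) → ℝ) (hg : ∀ y, 0 ≤ g y) (δ : ℝ) (hδ : 0 < δ) (k : ℕ)
    (hk : k ≤ n)
    (hh : ∀ j < k, ∀ y, lb n j y = lb n j x → lb n (j + 1) y ≠ lb n (j + 1) x →
      g y ≤ 2 * side lam k / (δ * side lam j) ^ 2) :
    ∑ y ∈ Finset.univ.filter (fun y => lb n k y ≠ lb n k x), g y ≤ 4 ^ n * (2 / δ ^ 2) := by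
  have hs := ts_side_pos lam h
  have h1 := ts_sum n x g (fun j => 2 * side lam k / (δ * side lam j) ^ 2)
    (fun j => by have := hs k; positivity) hg k hk hh
  refine h1.trans ?_
  have h3 : ∑ j ∈ Finset.range k, (4 : ℝ) ^ (n - j) * (2 * side lam k / (δ * side lam j) ^ 2) =
      2 / δ ^ 2 * ((∑ j ∈ Finset.range k, (4 : ℝ) ^ (n - j) / side lam j ^ 2) * side lam k) := by
    rw [Finset.sum_mul, Finset.mul_sum]
    refine Finset.sum_congr rfl fun j _ => ?_
    have := hs j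
    field_simp
  rw [h3, mul_comm]
  exact mul_le_mul_of_nonneg_right (ts_geo lam h h2 n k hk) (by positivity)

theorem ts_frac (c : ℝ) (hc0 : 0 ≤ c) (hc1 : c ≤ 1) (A B : ℂ) (p q D : ℝ) (hp : 0 < p)
    (hq : 0 < q) (hA : p ≤ ‖A‖) (hB : q ≤ ‖B‖) (hD : ‖B - A‖ ≤ D) :
    ‖(c : ℂ) / A - (c : ℂ) / B‖ ≤ D / (p * q) := by
  have hA0 : A ≠ 0 := norm_pos_iff.1 (lt_of_lt_of_le hp hA)
  have hB0 : B ≠ 0 := norm_pos_iff.1 (lt_of_lt_of_le hq hB)
  have h1 : (c : ℂ) / A - (c : ℂ) / B = (c : ℂ) * (B - A) / (A * B) := by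
    field_simp
  rw [h1, norm_div, norm_mul, norm_mul, Complex.norm_real, Real.norm_of_nonneg hc0]
  have h2 : c * ‖B - A‖ ≤ D := by
    have := norm_nonneg (B - A)
    nlinarith
  have h3 : p * q ≤ ‖A‖ * ‖B‖ := mul_le_mul hA hB hq.le (norm_nonneg _)
  have h4 : 0 < p * q := mul_pos hp hq
  have h5 : 0 ≤ D := (norm_nonneg _).trans hD
  calc c * ‖B - A‖ / (‖A‖ * ‖B‖) ≤ D / (‖A‖ * ‖B‖) :=
        div_le_div_of_nonneg_right h2 (by positivity)
    _ ≤ D / (p * q) := div_le_div_of_nonneg_left h5 h4 h3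

/-- the sum over the points outside the class of generation `k` -/
noncomputable def tsS (lam : ℕ → ℝ) (n : ℕ) (h : Fin (4 ^ n) → ℝ) (k : ℕ) (x : Fin (4 ^ n)) : ℂ :=
  ∑ y ∈ Finset.univ.filter (fun y => lb n k y ≠ lb n k x), (h y : ℂ) / (ctr lam n x - ctr lam n y)

/-- step (1) -/
theorem ts_one (κ : ℝ) (hκ : κ < 1 / 2) (lam : ℕ → ℝ) (hl : ∀ k, 1 / 4 ≤ lam k ∧ lam k ≤ κ)
    (n : ℕ) (h : Fin (4 ^ n) → ℝ) (hh : ∀ x, 0 ≤ h x ∧ h x ≤ 1) (k : ℕ) (hk : k ≤ n)
    (x x' : Fin (4 ^ n)) (hx : lb n k x' = lb n k x) :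
    ‖tsS lam n h k x - tsS lam n h k x'‖ ≤ 4 ^ n * (2 / (1 - 2 * κ) ^ 2) := by
  have h4 : ∀ k, 1 / 4 ≤ lam k := fun k => (hl k).1
  have h2 : ∀ k, lam k ≤ 1 / 2 := fun k => (hl k).2.trans hκ.le
  have hδ : 0 < 1 - 2 * κ := by linarith
  have hs := ts_side_pos lam h4
  unfold tsS
  rw [hx, ← Finset.sum_sub_distrib]
  refine (norm_sum_le _ _).trans ?_
  refine ts_sum' lam h4 h2 n x (fun y => ‖(h y : ℂ) / (ctr lam n x - ctr lam n y) -
    (h y : ℂ) / (ctr lam n x' - ctr lam n y)‖) (fun y => norm_nonneg _) (1 - 2 * κ) hδ k hk ?_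
  intro j hj y _ hy
  have hlκ : ∀ k, 0 < lam k ∧ lam k ≤ κ := fun k => ⟨by linarith [h4 k], (hl k).2⟩
  have hl2 : ∀ k, 0 < lam k ∧ lam k ≤ 1 / 2 := fun k => ⟨by linarith [h4 k], h2 k⟩
  have hx1 : lb n (j + 1) x' = lb n (j + 1) x := (isTree_lb n).mono (by omega) _ _ hx
  have hA := ctr_sep κ lam hlκ hκ n j (by omega) x y (fun h => hy h.symm)
  have hB := ctr_sep κ lam hlκ hκ n j (by omega) x' y (fun h => hy (h.symm.trans hx1))
  have hD := ctr_close lam hl2 n k hk x' x hx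
  have h3 : ‖(ctr lam n x' - ctr lam n y) - (ctr lam n x - ctr lam n y)‖ ≤ 2 * side lam k := by
    rw [sub_sub_sub_cancel_right]
    exact hD
  have h5 := ts_frac (h y) (hh y).1 (hh y).2 _ _ _ _ _ (mul_pos hδ (hs j)) (mul_pos hδ (hs j))
    hA hB h3
  rw [← sq] at h5
  exact h5

/-- the full sum -/
noncomputable def tsT (lam : ℕ → ℝ) (n : ℕ) (h : Fin (4 ^ n) → ℝ) (x : Fin (4 ^ n)) : ℂ :=
  ∑ y, (h y : ℂ) / (ctr lam n x - ctr lam n y)

theorem ts_T (lam : ℕ → ℝ) (n : ℕ) (h : Fin (4 ^ n) → ℝ) (B : ℝ)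
    (hR : ∀ x, |op (KR lam n) h x| ≤ B) (hI : ∀ x, |op (KI lam n) h x| ≤ B) (x : Fin (4 ^ n)) :
    ‖tsT lam n h x‖ ≤ 4 ^ n * (2 * B) := by
  have hN : (0 : ℝ) < 4 ^ n := by positivity
  have hre : (tsT lam n h x).re = 4 ^ n * op (KR lam n) h x := by
    unfold tsT op KR
    rw [Complex.re_sum, Fintype.card_fin]
    push_cast
    rw [mul_div_cancel₀ _ hN.ne']
    refine Finset.sum_congr rfl fun y _ => ?_
    rw [div_eq_mul_one_div, Complex.re_ofReal_mul, mul_comm]
  have him : (tsT lam n h x).im = 4 ^ n * op (KI lam n) h x := by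
    unfold tsT op KI
    rw [Complex.im_sum, Fintype.card_fin]
    push_cast
    rw [mul_div_cancel₀ _ hN.ne']
    refine Finset.sum_congr rfl fun y _ => ?_
    rw [div_eq_mul_one_div, Complex.im_ofReal_mul, mul_comm]
  refine (Complex.norm_le_abs_re_add_abs_im _).trans ?_
  rw [hre, him, abs_mul, abs_mul, abs_of_pos hN]
  have h1 := mul_le_mul_of_nonneg_left (hR x) hN.le
  have h2 := mul_le_mul_of_nonneg_left (hI x) hN.le
  linarith

/-- step (2) -/
theorem ts_two (κ : ℝ) (hκ : κ < 1 / 2) (lam : ℕ → ℝ) (hl : ∀ k, 1 / 4 ≤ lam k ∧ lam k ≤ κ)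
    (n : ℕ) (h : Fin (4 ^ n) → ℝ) (hh : ∀ x, 0 ≤ h x ∧ h x ≤ 1) (B : ℝ)
    (hR : ∀ x, |op (KR lam n) h x| ≤ B) (hI : ∀ x, |op (KI lam n) h x| ≤ B) (k : ℕ) (hk : k ≤ n)
    (x : Fin (4 ^ n)) :
    ‖tsS lam n h k x‖ ≤ 4 ^ n * (2 * B + 2 / (1 - 2 * κ) ^ 2) := by
  have hN : (0 : ℝ) < 4 ^ n := by positivity
  have hδ : 0 < 1 - 2 * κ := by linarith
  set Q := Finset.univ.filter (fun y => lb n k y = lb n k x) with hQ
  have hsplit : ∀ x' ∈ Q, tsT lam n h x' = tsS lam n h k x' +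
      ∑ y ∈ Q, (h y : ℂ) / (ctr lam n x' - ctr lam n y) := by
    intro x' hx'
    have hx1 : lb n k x' = lb n k x := (Finset.mem_filter.1 hx').2
    unfold tsT tsS
    rw [hx1, hQ, ← Finset.sum_filter_add_sum_filter_not Finset.univ
      (fun y => lb n k y = lb n k x), add_comm]
  have hm0 : 0 ≤ ∑ x' ∈ Q, h x' := Finset.sum_nonneg fun y _ => (hh y).1
  rcases hm0.eq_or_lt with hm | hm
  · -- `h` vanishes on the class
    have hz : ∀ y ∈ Q, h y = 0 := by
      have := (Finset.sum_eq_zero_iff_of_nonneg (fun y _ => (hh y).1)).1 hm.symm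
      exact this
    have hxQ : x ∈ Q := Finset.mem_filter.2 ⟨Finset.mem_univ _, rfl⟩
    have h1 := hsplit x hxQ
    rw [Finset.sum_eq_zero (fun y hy => by rw [hz y hy]; simp), add_zero] at h1
    rw [← h1]
    refine (ts_T lam n h B hR hI x).trans ?_
    refine mul_le_mul_of_nonneg_left ?_ hN.le
    have : 0 ≤ 2 / (1 - 2 * κ) ^ 2 := by positivity
    linarith
  · -- the double sum vanishes
    have hdouble : ∑ x' ∈ Q, ∑ y ∈ Q, (h x' : ℂ) * ((h y : ℂ) / (ctr lam n x' - ctr lam n y)) =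
        0 := by
      have h1 : ∑ x' ∈ Q, ∑ y ∈ Q, (h x' : ℂ) * ((h y : ℂ) / (ctr lam n x' - ctr lam n y)) =
          -∑ x' ∈ Q, ∑ y ∈ Q, (h x' : ℂ) * ((h y : ℂ) / (ctr lam n x' - ctr lam n y)) := by
        conv_lhs => rw [Finset.sum_comm]
        rw [← Finset.sum_neg_distrib]
        refine Finset.sum_congr rfl fun y _ => ?_
        rw [← Finset.sum_neg_distrib]
        refine Finset.sum_congr rfl fun x' _ => ?_
        rw [← neg_sub (ctr lam n y) (ctr lam n x'), div_neg, mul_neg]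
        ring
      exact self_eq_neg.1 h1
    have hkey : ((∑ x' ∈ Q, h x' : ℝ) : ℂ) * tsS lam n h k x =
        ∑ x' ∈ Q, (h x' : ℂ) * tsT lam n h x' +
          ∑ x' ∈ Q, (h x' : ℂ) * (tsS lam n h k x - tsS lam n h k x') := by
      have h1 : ∑ x' ∈ Q, (h x' : ℂ) * tsT lam n h x' =
          ∑ x' ∈ Q, (h x' : ℂ) * tsS lam n h k x' := by
        have h2 : ∑ x' ∈ Q, (h x' : ℂ) * tsT lam n h x' =
            ∑ x' ∈ Q, (h x' : ℂ) * tsS lam n h k x' +
            ∑ x' ∈ Q, ∑ y ∈ Q, (h x' : ℂ) * ((h y : ℂ) / (ctr lam n x' - ctr lam n y)) := by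
          rw [← Finset.sum_add_distrib]
          refine Finset.sum_congr rfl fun x' hx' => ?_
          rw [hsplit x' hx', mul_add, Finset.mul_sum]
        rw [h2, hdouble, add_zero]
      rw [h1, ← Finset.sum_add_distrib]
      push_cast
      rw [Finset.sum_mul]
      refine Finset.sum_congr rfl fun x' _ => ?_
      ring
    have hn1 : ‖∑ x' ∈ Q, (h x' : ℂ) * tsT lam n h x'‖ ≤ (∑ x' ∈ Q, h x') * (4 ^ n * (2 * B)) := by
      refine (norm_sum_le _ _).trans ?_
      rw [Finset.sum_mul]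
      refine Finset.sum_le_sum fun x' _ => ?_
      rw [norm_mul, Complex.norm_real, Real.norm_of_nonneg (hh x').1]
      exact mul_le_mul_of_nonneg_left (ts_T lam n h B hR hI x') (hh x').1
    have hn2 : ‖∑ x' ∈ Q, (h x' : ℂ) * (tsS lam n h k x - tsS lam n h k x')‖ ≤
        (∑ x' ∈ Q, h x') * (4 ^ n * (2 / (1 - 2 * κ) ^ 2)) := by
      refine (norm_sum_le _ _).trans ?_
      rw [Finset.sum_mul]
      refine Finset.sum_le_sum fun x' hx' => ?_
      rw [norm_mul, Complex.norm_real, Real.norm_of_nonneg (hh x').1]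
      exact mul_le_mul_of_nonneg_left (ts_one κ hκ lam hl n h hh k hk x x'
        (Finset.mem_filter.1 hx').2) (hh x').1
    have h5 : (∑ x' ∈ Q, h x') * ‖tsS lam n h k x‖ ≤
        (∑ x' ∈ Q, h x') * (4 ^ n * (2 * B + 2 / (1 - 2 * κ) ^ 2)) := by
      have h6 : ‖((∑ x' ∈ Q, h x' : ℝ) : ℂ) * tsS lam n h k x‖ =
          (∑ x' ∈ Q, h x') * ‖tsS lam n h k x‖ := by
        rw [norm_mul, Complex.norm_real, Real.norm_of_nonneg hm.le]
      rw [← h6, hkey]
      refine (norm_add_le _ _).trans ?_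
      calc _ ≤ (∑ x' ∈ Q, h x') * (4 ^ n * (2 * B)) +
            (∑ x' ∈ Q, h x') * (4 ^ n * (2 / (1 - 2 * κ) ^ 2)) := add_le_add hn1 hn2
        _ = _ := by ring
    exact le_of_mul_le_mul_left h5 hm

/-- bound on the plane from the bound at the points -/
theorem treeSup (κ : ℝ) (hκ : κ < 1 / 2) : ∃ C : ℝ, 0 < C ∧ ∀ lam : ℕ → ℝ,
    (∀ k, 1 / 4 ≤ lam k ∧ lam k ≤ κ) → ∀ (n : ℕ) (h : Fin (4 ^ n) → ℝ),
    (∀ x, 0 ≤ h x ∧ h x ≤ 1) → ∀ B : ℝ, (∀ x, |op (KR lam n) h x| ≤ B) →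
    (∀ x, |op (KI lam n) h x| ≤ B) → ∀ w : ℂ, (∀ y, side lam n ≤ ‖w - ctr lam n y‖) →
    ‖Cau lam n h w‖ ≤ C * (1 + B) := by
  have hδ : 0 < 1 - 2 * κ := by linarith
  refine ⟨4 + 4 / (1 - 2 * κ) ^ 2, by positivity, ?_⟩
  intro lam hl n h hh B hR hI w hw
  have hN : (0 : ℝ) < 4 ^ n := by positivity
  have h4 : ∀ k, 1 / 4 ≤ lam k := fun k => (hl k).1
  have h2 : ∀ k, lam k ≤ 1 / 2 := fun k => (hl k).2.trans hκ.le
  have hlκ : ∀ k, 0 < lam k ∧ lam k ≤ κ := fun k => ⟨by linarith [h4 k], (hl k).2⟩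
  have hl2 : ∀ k, 0 < lam k ∧ lam k ≤ 1 / 2 := fun k => ⟨by linarith [h4 k], h2 k⟩
  have hs := ts_side_pos lam h4
  have : Nonempty (Fin (4 ^ n)) := ⟨⟨0, by positivity⟩⟩
  have hB0 : 0 ≤ B := (abs_nonneg _).trans (hR (Classical.arbitrary _))
  have hC1 : 0 ≤ 2 / (1 - 2 * κ) ^ 2 := by positivity
  have hCau : ‖Cau lam n h w‖ = ‖∑ y, (h y : ℂ) / (w - ctr lam n y)‖ / 4 ^ n := by
    unfold Cau
    rw [norm_div, norm_pow]
    norm_num
  rw [hCau, div_le_iff₀ hN]
  obtain ⟨x, hx⟩ := Finite.exists_min (fun y : Fin (4 ^ n) => ‖w - ctr lam n y‖)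
  rcases le_or_gt 1 ‖w - ctr lam n x‖ with h1 | h1
  · -- far away
    have h3 : ‖∑ y, (h y : ℂ) / (w - ctr lam n y)‖ ≤ 4 ^ n := by
      refine (norm_sum_le _ _).trans ?_
      calc ∑ y, ‖(h y : ℂ) / (w - ctr lam n y)‖ ≤ ∑ _y : Fin (4 ^ n), (1 : ℝ) := by
            refine Finset.sum_le_sum fun y _ => ?_
            rw [norm_div, Complex.norm_real, Real.norm_of_nonneg (hh y).1]
            rw [div_le_one (lt_of_lt_of_le one_pos (h1.trans (hx y)))]
            exact (hh y).2.trans (h1.trans (hx y))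
        _ = 4 ^ n := by simp
    refine h3.trans ?_
    have h5 : (1 : ℝ) ≤ (4 + 4 / (1 - 2 * κ) ^ 2) * (1 + B) := by
      have h6 : 0 ≤ 4 / (1 - 2 * κ) ^ 2 := by positivity
      nlinarith
    nlinarith
  · -- the generation of the distance
    have hex : ∃ k, k < n ∧ side lam (k + 1) ≤ ‖w - ctr lam n x‖ ∧
        ‖w - ctr lam n x‖ < side lam k := by
      have hP : ∃ m, side lam m ≤ ‖w - ctr lam n x‖ := ⟨n, hw x⟩
      classical
      have hm := Nat.find_spec hP
      have hmn : Nat.find hP ≤ n := Nat.find_min' hP (hw x)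
      have hm0 : Nat.find hP ≠ 0 := by
        intro h0
        rw [h0] at hm
        have : side lam 0 = 1 := rfl
        linarith
      obtain ⟨k, hk⟩ := Nat.exists_eq_succ_of_ne_zero hm0
      refine ⟨k, by omega, ?_, ?_⟩
      · rw [hk] at hm
        exact hm
      · have := Nat.find_min hP (m := k) (by omega)
        exact not_le.1 this
    obtain ⟨k, hkn, hk1, hk2⟩ := hex
    have hsplit : ∑ y, (h y : ℂ) / (w - ctr lam n y) =
        ∑ y ∈ Finset.univ.filter (fun y => lb n k y = lb n k x), (h y : ℂ) / (w - ctr lam n y) +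
        ∑ y ∈ Finset.univ.filter (fun y => lb n k y ≠ lb n k x), (h y : ℂ) / (w - ctr lam n y) :=
      (Finset.sum_filter_add_sum_filter_not Finset.univ _ _).symm
    -- the points of the class
    have hin : ‖∑ y ∈ Finset.univ.filter (fun y => lb n k y = lb n k x),
        (h y : ℂ) / (w - ctr lam n y)‖ ≤ 4 ^ n * 4 := by
      refine (norm_sum_le _ _).trans ?_
      have hkk := ts_side_quarter lam h4 k
      have hsk := hs k
      calc ∑ y ∈ Finset.univ.filter (fun y => lb n k y = lb n k x),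
            ‖(h y : ℂ) / (w - ctr lam n y)‖ ≤
          ∑ _y ∈ Finset.univ.filter (fun y => lb n k y = lb n k x), 4 / side lam k := by
            refine Finset.sum_le_sum fun y _ => ?_
            rw [norm_div, Complex.norm_real, Real.norm_of_nonneg (hh y).1]
            have h5 : side lam k / 4 ≤ ‖w - ctr lam n y‖ := hkk.trans (hk1.trans (hx y))
            have h6 : 0 < ‖w - ctr lam n y‖ := by linarith
            rw [div_le_div_iff₀ h6 hsk]
            have := (hh y).2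
            have := (hh y).1
            nlinarith
        _ = 4 ^ (n - k) * (4 / side lam k) := by
            rw [Finset.sum_const, (isTree_lb n).card k hkn.le x, nsmul_eq_mul]
            push_cast
            ring
        _ ≤ 4 ^ n * 4 := by
            have h7 : (4 : ℝ) ^ n = 4 ^ (n - k) * 4 ^ k := by
              rw [← pow_add]
              congr 1
              omega
            have h10 : 1 / side lam k ≤ 4 ^ k := by
              rw [div_le_iff₀ hsk]
              exact ts_side_dens lam h4 k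
            have h11 : (4 : ℝ) ^ (n - k) * (1 / side lam k) ≤ 4 ^ (n - k) * 4 ^ k :=
              mul_le_mul_of_nonneg_left h10 (by positivity)
            have h12 : (4 : ℝ) ^ (n - k) * (4 / side lam k) =
                4 * (4 ^ (n - k) * (1 / side lam k)) := by ring
            rw [h7, h12]
            linarith
    -- the other points
    have hout : ‖∑ y ∈ Finset.univ.filter (fun y => lb n k y ≠ lb n k x),
        (h y : ℂ) / (w - ctr lam n y) - tsS lam n h k x‖ ≤ 4 ^ n * (2 / (1 - 2 * κ) ^ 2) := by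
      unfold tsS
      rw [← Finset.sum_sub_distrib]
      refine (norm_sum_le _ _).trans ?_
      refine ts_sum' lam h4 h2 n x (fun y => ‖(h y : ℂ) / (w - ctr lam n y) -
        (h y : ℂ) / (ctr lam n x - ctr lam n y)‖) (fun y => norm_nonneg _) (1 - 2 * κ) hδ k
        hkn.le ?_
      intro j hj y _ hy
      have hB := ctr_sep κ lam hlκ hκ n j (by omega) x y (fun h => hy h.symm)
      have hsj := mul_pos hδ (hs j)
      have h5 : ‖ctr lam n x - ctr lam n y‖ ≤ 2 * ‖w - ctr lam n y‖ := by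
        have h6 : ctr lam n x - ctr lam n y = (w - ctr lam n y) - (w - ctr lam n x) := by ring
        rw [h6]
        have h7 := norm_sub_le (w - ctr lam n y) (w - ctr lam n x)
        have h8 := hx y
        linarith
      have hA : (1 - 2 * κ) * side lam j / 2 ≤ ‖w - ctr lam n y‖ := by linarith
      have h3 : ‖(ctr lam n x - ctr lam n y) - (w - ctr lam n y)‖ ≤ side lam k := by
        rw [sub_sub_sub_cancel_right, norm_sub_rev]
        exact hk2.le
      have h9 := ts_frac (h y) (hh y).1 (hh y).2 _ _ _ _ _ (by linarith) hsj hA hB h3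
      refine h9.trans (le_of_eq ?_)
      field_simp
    have htwo := ts_two κ hκ lam hl n h hh B hR hI k hkn.le x
    have hfin : ‖∑ y, (h y : ℂ) / (w - ctr lam n y)‖ ≤
        4 ^ n * 4 + 4 ^ n * (2 / (1 - 2 * κ) ^ 2) +
          4 ^ n * (2 * B + 2 / (1 - 2 * κ) ^ 2) := by
      rw [hsplit]
      have h5 : ∑ y ∈ Finset.univ.filter (fun y => lb n k y = lb n k x),
          (h y : ℂ) / (w - ctr lam n y) +
          ∑ y ∈ Finset.univ.filter (fun y => lb n k y ≠ lb n k x), (h y : ℂ) / (w - ctr lam n y) =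
          ∑ y ∈ Finset.univ.filter (fun y => lb n k y = lb n k x),
            (h y : ℂ) / (w - ctr lam n y) +
          (∑ y ∈ Finset.univ.filter (fun y => lb n k y ≠ lb n k x),
            (h y : ℂ) / (w - ctr lam n y) - tsS lam n h k x) + tsS lam n h k x := by ring
      rw [h5]
      exact (norm_add_le _ _).trans (add_le_add ((norm_add_le _ _).trans (add_le_add hin hout))
        htwo)
    refine hfin.trans ?_
    have h6 : 0 ≤ 4 / (1 - 2 * κ) ^ 2 := by positivity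
    have h7 : 2 / (1 - 2 * κ) ^ 2 + 2 / (1 - 2 * κ) ^ 2 = 4 / (1 - 2 * κ) ^ 2 := by ring
    have h8 : 4 + 2 / (1 - 2 * κ) ^ 2 + (2 * B + 2 / (1 - 2 * κ) ^ 2) ≤
        (4 + 4 / (1 - 2 * κ) ^ 2) * (1 + B) := by nlinarith
    nlinarith

end Pool.Agent.VC
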