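import Pool.Agent.VC.BadW
import Pool.Agent.VC.TreeSup

set_option autoImplicit false

open MeasureTheory Set

namespace Pool.Agent.VC

open Classical in
/-- the separation at the refinement `j` -/
noncomputable def t2s (lam : ℕ → ℝ) (j : ℕ) : ℝ :=
  if 3 / 8 < lam j then 1 / 2 * (1 / 4) ^ mg lam j * side lam j else 1 / 4 * side lam j

theorem t2_pos (lam : ℕ → ℝ) (h : ∀ k, 1 / 4 ≤ lam k) (j : ℕ) : 0 < t2s lam j := by
  have hs := ts_side_pos lam h j
  unfold t2s
  split_ifs <;> positivity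

theorem t2_sep (lam : ℕ → ℝ) (h : ∀ k, 1 / 4 ≤ lam k ∧ lam k ≤ 1 / 2) (n j : ℕ) (hj : j < n)
    (x y : Fin (4 ^ n)) (hx : x ∈ XX lam n) (hy : y ∈ XX lam n)
    (h1 : lb n j x = lb n j y) (h2 : lb n (j + 1) x ≠ lb n (j + 1) y) :
    t2s lam j ≤ ‖ctr lam n x - ctr lam n y‖ := by
  unfold t2s
  split_ifs with hb
  · exact sep_bad lam h n j hj x y hx hy h1 h2 hb
  · exact sep_nb lam h n j hj x y h1 h2 (not_lt.1 hb)

theorem t2_side_mono (lam : ℕ → ℝ) (h : ∀ k, 1 / 4 ≤ lam k) (h2 : ∀ k, lam k ≤ 1 / 2) {j k : ℕ}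
    (hjk : j ≤ k) : side lam k ≤ side lam j := by
  induction k, hjk using Nat.le_induction with
  | base => exact le_rfl
  | succ k _ ih =>
    have h1 := ts_side_half lam h h2 k
    have h3 := ts_side_pos lam h k
    linarith

/-- one term of the sum -/
theorem t2_term (lam : ℕ → ℝ) (h : ∀ k, 1 / 4 ≤ lam k ∧ lam k ≤ 1 / 2) (n k j : ℕ) (hk : k ≤ n)
    (hj : j < k) :
    (4 : ℝ) ^ (n - j) * (2 * side lam k / t2s lam j ^ 2) ≤
      32 * ((4 : ℝ) ^ (n - j) / side lam j ^ 2 * side lam k) +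
        4 ^ n * (8 * (if 3 / 8 < lam j then 16 ^ mg lam j * dens lam j else 0)) := by
  have h4 : ∀ k, 1 / 4 ≤ lam k := fun k => (h k).1
  have hs := ts_side_pos lam h4
  have hsj := hs j
  have hsk := hs k
  have hmono := t2_side_mono lam h4 (fun k => (h k).2) hj.le
  by_cases hb : 3 / 8 < lam j
  · have e1 : t2s lam j = 1 / 2 * (1 / 4) ^ mg lam j * side lam j := by
      unfold t2s
      rw [if_pos hb]
    rw [e1, if_pos hb]
    have e2 : (1 / 2 * (1 / 4 : ℝ) ^ mg lam j * side lam j) ^ 2 =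
        1 / 4 * (side lam j ^ 2 / 16 ^ mg lam j) := by
      have e3 : ((1 / 4 : ℝ) ^ mg lam j) ^ 2 = 1 / 16 ^ mg lam j := by
        rw [← pow_mul, mul_comm, pow_mul, one_div_pow, one_div_pow]
        norm_num
      rw [mul_pow, mul_pow, e3]
      ring
    rw [e2]
    have h16 : (0 : ℝ) < 16 ^ mg lam j := by positivity
    have e4 : (4 : ℝ) ^ (n - j) * (2 * side lam k / (1 / 4 * (side lam j ^ 2 / 16 ^ mg lam j))) =
        8 * 16 ^ mg lam j * ((4 : ℝ) ^ (n - j) * (1 / side lam j)) * (side lam k / side lam j) := by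
      field_simp
      ring
    have e5 : (4 : ℝ) ^ (n - j) * (1 / side lam j) = 4 ^ n * dens lam j := by
      have e6 : (4 : ℝ) ^ n = 4 ^ (n - j) * 4 ^ j := by
        rw [← pow_add]
        congr 1
        omega
      unfold dens
      rw [e6]
      field_simp
    rw [e4, e5]
    have h5 : side lam k / side lam j ≤ 1 := (div_le_one hsj).2 hmono
    have h6 : 0 ≤ dens lam j := by
      unfold dens
      positivity
    have h7 : 0 ≤ 8 * 16 ^ mg lam j * (4 ^ n * dens lam j) := by positivity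
    have h8 := mul_le_mul_of_nonneg_left h5 h7
    have h9 : 0 ≤ 32 * ((4 : ℝ) ^ (n - j) / side lam j ^ 2 * side lam k) := by positivity
    calc 8 * 16 ^ mg lam j * (4 ^ n * dens lam j) * (side lam k / side lam j)
        ≤ 8 * 16 ^ mg lam j * (4 ^ n * dens lam j) * 1 := h8
      _ = 4 ^ n * (8 * (16 ^ mg lam j * dens lam j)) := by ring
      _ ≤ _ := by linarith
  · have e1 : t2s lam j = 1 / 4 * side lam j := by
      unfold t2s
      rw [if_neg hb]
    rw [e1, if_neg hb, mul_zero, mul_zero, add_zero]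
    refine le_of_eq ?_
    field_simp
    ring

/-- the sum of the bounds -/
theorem t2_sum (Cb : ℝ) (lam : ℕ → ℝ) (h : ∀ k, 1 / 4 ≤ lam k ∧ lam k ≤ 1 / 2)
    (hb : ∀ n : ℕ, ∑ k ∈ Finset.range n, (if 3 / 8 < lam k then 16 ^ mg lam k * dens lam k else 0) ≤
      Cb) (n k : ℕ) (hk : k ≤ n) :
    ∑ j ∈ Finset.range k, (4 : ℝ) ^ (n - j) * (2 * side lam k / t2s lam j ^ 2) ≤
      4 ^ n * (32 + 8 * Cb) := by
  have h4 : ∀ k, 1 / 4 ≤ lam k := fun k => (h k).1
  have h2 : ∀ k, lam k ≤ 1 / 2 := fun k => (h k).2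
  have h1 : ∑ j ∈ Finset.range k, (4 : ℝ) ^ (n - j) * (2 * side lam k / t2s lam j ^ 2) ≤
      ∑ j ∈ Finset.range k, (32 * ((4 : ℝ) ^ (n - j) / side lam j ^ 2 * side lam k) +
        4 ^ n * (8 * (if 3 / 8 < lam j then 16 ^ mg lam j * dens lam j else 0))) :=
    Finset.sum_le_sum fun j hj => t2_term lam h n k j hk (Finset.mem_range.1 hj)
  refine h1.trans ?_
  rw [Finset.sum_add_distrib, ← Finset.mul_sum, ← Finset.mul_sum, ← Finset.mul_sum,
    ← Finset.sum_mul]
  have h5 := ts_geo lam h4 h2 n k hk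
  have h6 := hb k
  have h7 : (0 : ℝ) < 4 ^ n := by positivity
  have h8 := mul_le_mul_of_nonneg_left h6 h7.le
  linarith

/-- the sum with the bound of the differences -/
theorem t2_sum' (Cb : ℝ) (lam : ℕ → ℝ) (h : ∀ k, 1 / 4 ≤ lam k ∧ lam k ≤ 1 / 2)
    (hb : ∀ n : ℕ, ∑ k ∈ Finset.range n, (if 3 / 8 < lam k then 16 ^ mg lam k * dens lam k else 0) ≤
      Cb) (n k : ℕ) (hk : k ≤ n) (x : Fin (4 ^ n)) (g : Fin (4 ^ n) → ℝ) (hg : ∀ y, 0 ≤ g y)
    (hh : ∀ j < k, ∀ y, lb n j y = lb n j x → lb n (j + 1) y ≠ lb n (j + 1) x →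
      g y ≤ 2 * side lam k / t2s lam j ^ 2) :
    ∑ y ∈ Finset.univ.filter (fun y => lb n k y ≠ lb n k x), g y ≤ 4 ^ n * (32 + 8 * Cb) := by
  have hs := ts_side_pos lam fun k => (h k).1
  have h1 := ts_sum n x g (fun j => 2 * side lam k / t2s lam j ^ 2)
    (fun j => by have := hs k; positivity) hg k hk hh
  exact h1.trans (t2_sum Cb lam h hb n k hk)

/-- step (1) -/
theorem t2_one (Cb : ℝ) (lam : ℕ → ℝ) (hl : ∀ k, 1 / 4 ≤ lam k ∧ lam k ≤ 1 / 2)
    (hb : ∀ n : ℕ, ∑ k ∈ Finset.range n, (if 3 / 8 < lam k then 16 ^ mg lam k * dens lam k else 0) ≤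
      Cb) (n : ℕ) (h : Fin (4 ^ n) → ℝ) (hh : ∀ x, 0 ≤ h x ∧ h x ≤ 1)
    (hX : ∀ x, x ∉ XX lam n → h x = 0) (k : ℕ) (hk : k ≤ n)
    (x x' : Fin (4 ^ n)) (hxX : x ∈ XX lam n) (hxX' : x' ∈ XX lam n) (hx : lb n k x' = lb n k x) :
    ‖tsS lam n h k x - tsS lam n h k x'‖ ≤ 4 ^ n * (32 + 8 * Cb) := by
  have h4 : ∀ k, 1 / 4 ≤ lam k := fun k => (hl k).1
  have hs := ts_side_pos lam h4
  unfold tsS
  rw [hx, ← Finset.sum_sub_distrib]
  refine (norm_sum_le _ _).trans ?_
  refine t2_sum' Cb lam hl hb n k hk x (fun y => ‖(h y : ℂ) / (ctr lam n x - ctr lam n y) -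
    (h y : ℂ) / (ctr lam n x' - ctr lam n y)‖) (fun y => norm_nonneg _) ?_
  intro j hj y hy0 hy
  have hp := t2_pos lam h4 j
  by_cases hyX : y ∈ XX lam n
  · have hl2 : ∀ k, 0 < lam k ∧ lam k ≤ 1 / 2 := fun k => ⟨by linarith [h4 k], (hl k).2⟩
    have hx0 : lb n j x' = lb n j x := (isTree_lb n).mono (by omega) _ _ hx
    have hx1 : lb n (j + 1) x' = lb n (j + 1) x := (isTree_lb n).mono (by omega) _ _ hx
    have hA := t2_sep lam hl n j (by omega) x y hxX hyX hy0.symm (fun h => hy h.symm)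
    have hB := t2_sep lam hl n j (by omega) x' y hxX' hyX (hx0.trans hy0.symm)
      (fun h => hy (h.symm.trans hx1))
    have hD := ctr_close lam hl2 n k hk x' x hx
    have h3 : ‖(ctr lam n x' - ctr lam n y) - (ctr lam n x - ctr lam n y)‖ ≤ 2 * side lam k := by
      rw [sub_sub_sub_cancel_right]
      exact hD
    have h5 := ts_frac (h y) (hh y).1 (hh y).2 _ _ _ _ _ hp hp hA hB h3
    rw [← sq] at h5
    exact h5
  · have := hs k
    simp only [hX y hyX, Complex.ofReal_zero, zero_div, sub_zero, norm_zero]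
    positivity

theorem t2_T (lam : ℕ → ℝ) (n : ℕ) (h : Fin (4 ^ n) → ℝ) (B : ℝ) (x : Fin (4 ^ n))
    (hR : |op (KR lam n) h x| ≤ B) (hI : |op (KI lam n) h x| ≤ B) :
    ‖tsT lam n h x‖ ≤ 4 ^ n * (2 * B) := by
  have hN : (0 : ℝ) < 4 ^ n := by positivity
  have hre : (tsT lam n h x).re = 4 ^ n * op (KR lam n) h x := by
    unfold tsT op KR
    rw [Complex.re_sum, Fintype.card_fin]
    push_cast
    rw [mul_div_cancel₀ _ hN.ne']
    refine Finset.sum_congr rfl fun y _ => ?_
    rw [div_eq_mul_one_div, Complex.re_ofReal_mul, mul_comm]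
  have him : (tsT lam n h x).im = 4 ^ n * op (KI lam n) h x := by
    unfold tsT op KI
    rw [Complex.im_sum, Fintype.card_fin]
    push_cast
    rw [mul_div_cancel₀ _ hN.ne']
    refine Finset.sum_congr rfl fun y _ => ?_
    rw [div_eq_mul_one_div, Complex.im_ofReal_mul, mul_comm]
  refine (Complex.norm_le_abs_re_add_abs_im _).trans ?_
  rw [hre, him, abs_mul, abs_mul, abs_of_pos hN]
  have h1 := mul_le_mul_of_nonneg_left hR hN.le
  have h2 := mul_le_mul_of_nonneg_left hI hN.le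
  linarith

/-- step (2) -/
theorem t2_two (Cb : ℝ) (hCb : 0 ≤ Cb) (lam : ℕ → ℝ) (hl : ∀ k, 1 / 4 ≤ lam k ∧ lam k ≤ 1 / 2)
    (hb : ∀ n : ℕ, ∑ k ∈ Finset.range n, (if 3 / 8 < lam k then 16 ^ mg lam k * dens lam k else 0) ≤
      Cb) (n : ℕ) (h : Fin (4 ^ n) → ℝ) (hh : ∀ x, 0 ≤ h x ∧ h x ≤ 1)
    (hX : ∀ x, x ∉ XX lam n → h x = 0) (B : ℝ)
    (hR : ∀ x ∈ XX lam n, |op (KR lam n) h x| ≤ B)
    (hI : ∀ x ∈ XX lam n, |op (KI lam n) h x| ≤ B) (k : ℕ) (hk : k ≤ n)
    (x : Fin (4 ^ n)) (hxX : x ∈ XX lam n) :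
    ‖tsS lam n h k x‖ ≤ 4 ^ n * (2 * B + (32 + 8 * Cb)) := by
  have hN : (0 : ℝ) < 4 ^ n := by positivity
  set Q := Finset.univ.filter (fun y => lb n k y = lb n k x) with hQ
  have hsplit : ∀ x' ∈ Q, tsT lam n h x' = tsS lam n h k x' +
      ∑ y ∈ Q, (h y : ℂ) / (ctr lam n x' - ctr lam n y) := by
    intro x' hx'
    have hx1 : lb n k x' = lb n k x := (Finset.mem_filter.1 hx').2
    unfold tsT tsS
    rw [hx1, hQ, ← Finset.sum_filter_add_sum_filter_not Finset.univ
      (fun y => lb n k y = lb n k x), add_comm]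
  have hm0 : 0 ≤ ∑ x' ∈ Q, h x' := Finset.sum_nonneg fun y _ => (hh y).1
  rcases hm0.eq_or_lt with hm | hm
  · -- `h` vanishes on the class
    have hz : ∀ y ∈ Q, h y = 0 := by
      have := (Finset.sum_eq_zero_iff_of_nonneg (fun y _ => (hh y).1)).1 hm.symm
      exact this
    have hxQ : x ∈ Q := Finset.mem_filter.2 ⟨Finset.mem_univ _, rfl⟩
    have h1 := hsplit x hxQ
    rw [Finset.sum_eq_zero (fun y hy => by rw [hz y hy]; simp), add_zero] at h1
    rw [← h1]
    refine (t2_T lam n h B x (hR x hxX) (hI x hxX)).trans ?_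
    refine mul_le_mul_of_nonneg_left ?_ hN.le
    linarith
  · -- the double sum vanishes
    have hdouble : ∑ x' ∈ Q, ∑ y ∈ Q, (h x' : ℂ) * ((h y : ℂ) / (ctr lam n x' - ctr lam n y)) =
        0 := by
      have h1 : ∑ x' ∈ Q, ∑ y ∈ Q, (h x' : ℂ) * ((h y : ℂ) / (ctr lam n x' - ctr lam n y)) =
          -∑ x' ∈ Q, ∑ y ∈ Q, (h x' : ℂ) * ((h y : ℂ) / (ctr lam n x' - ctr lam n y)) := by
        conv_lhs => rw [Finset.sum_comm]
        rw [← Finset.sum_neg_distrib]
        refine Finset.sum_congr rfl fun y _ => ?_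
        rw [← Finset.sum_neg_distrib]
        refine Finset.sum_congr rfl fun x' _ => ?_
        rw [← neg_sub (ctr lam n y) (ctr lam n x'), div_neg, mul_neg]
        ring
      exact self_eq_neg.1 h1
    have hkey : ((∑ x' ∈ Q, h x' : ℝ) : ℂ) * tsS lam n h k x =
        ∑ x' ∈ Q, (h x' : ℂ) * tsT lam n h x' +
          ∑ x' ∈ Q, (h x' : ℂ) * (tsS lam n h k x - tsS lam n h k x') := by
      have h1 : ∑ x' ∈ Q, (h x' : ℂ) * tsT lam n h x' =
          ∑ x' ∈ Q, (h x' : ℂ) * tsS lam n h k x' := by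
        have h2 : ∑ x' ∈ Q, (h x' : ℂ) * tsT lam n h x' =
            ∑ x' ∈ Q, (h x' : ℂ) * tsS lam n h k x' +
            ∑ x' ∈ Q, ∑ y ∈ Q, (h x' : ℂ) * ((h y : ℂ) / (ctr lam n x' - ctr lam n y)) := by
          rw [← Finset.sum_add_distrib]
          refine Finset.sum_congr rfl fun x' hx' => ?_
          rw [hsplit x' hx', mul_add, Finset.mul_sum]
        rw [h2, hdouble, add_zero]
      rw [h1, ← Finset.sum_add_distrib]
      push_cast
      rw [Finset.sum_mul]
      refine Finset.sum_congr rfl fun x' _ => ?_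
      ring
    have hn1 : ‖∑ x' ∈ Q, (h x' : ℂ) * tsT lam n h x'‖ ≤ (∑ x' ∈ Q, h x') * (4 ^ n * (2 * B)) := by
      refine (norm_sum_le _ _).trans ?_
      rw [Finset.sum_mul]
      refine Finset.sum_le_sum fun x' _ => ?_
      rw [norm_mul, Complex.norm_real, Real.norm_of_nonneg (hh x').1]
      by_cases hx' : x' ∈ XX lam n
      · exact mul_le_mul_of_nonneg_left (t2_T lam n h B x' (hR x' hx') (hI x' hx')) (hh x').1
      · rw [hX x' hx', zero_mul, zero_mul]
    have hn2 : ‖∑ x' ∈ Q, (h x' : ℂ) * (tsS lam n h k x - tsS lam n h k x')‖ ≤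
        (∑ x' ∈ Q, h x') * (4 ^ n * (32 + 8 * Cb)) := by
      refine (norm_sum_le _ _).trans ?_
      rw [Finset.sum_mul]
      refine Finset.sum_le_sum fun x' hx' => ?_
      rw [norm_mul, Complex.norm_real, Real.norm_of_nonneg (hh x').1]
      by_cases hxX' : x' ∈ XX lam n
      · exact mul_le_mul_of_nonneg_left (t2_one Cb lam hl hb n h hh hX k hk x x' hxX hxX'
          (Finset.mem_filter.1 hx').2) (hh x').1
      · rw [hX x' hxX', zero_mul, zero_mul]
    have h5 : (∑ x' ∈ Q, h x') * ‖tsS lam n h k x‖ ≤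
        (∑ x' ∈ Q, h x') * (4 ^ n * (2 * B + (32 + 8 * Cb))) := by
      have h6 : ‖((∑ x' ∈ Q, h x' : ℝ) : ℂ) * tsS lam n h k x‖ =
          (∑ x' ∈ Q, h x') * ‖tsS lam n h k x‖ := by
        rw [norm_mul, Complex.norm_real, Real.norm_of_nonneg hm.le]
      rw [← h6, hkey]
      refine (norm_add_le _ _).trans ?_
      calc _ ≤ (∑ x' ∈ Q, h x') * (4 ^ n * (2 * B)) +
            (∑ x' ∈ Q, h x') * (4 ^ n * (32 + 8 * Cb)) := add_le_add hn1 hn2
        _ = _ := by ring
    exact le_of_mul_le_mul_left h5 hm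

/-- bound on the plane from the bound at the remaining points -/
theorem treeSup2 : ∃ C : ℝ, 0 < C ∧ ∀ lam : ℕ → ℝ,
    (∀ k, 1 / 4 ≤ lam k ∧ lam k ≤ 1 / 2) → ∀ (n : ℕ) (h : Fin (4 ^ n) → ℝ),
    (∀ x, 0 ≤ h x ∧ h x ≤ 1) → (∀ x, x ∉ XX lam n → h x = 0) →
    ∀ B : ℝ, 0 ≤ B → (∀ x ∈ XX lam n, |op (KR lam n) h x| ≤ B) →
    (∀ x ∈ XX lam n, |op (KI lam n) h x| ≤ B) →
    ∀ w : ℂ, (∀ y, side lam n ≤ ‖w - ctr lam n y‖) → ‖Cau lam n h w‖ ≤ C * (1 + B) := by
  obtain ⟨Cb, hCb, hsum⟩ := sum_bad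
  refine ⟨4 + 2 * (32 + 8 * Cb), by positivity, ?_⟩
  intro lam hl n h hh hX B hB0 hR hI w hw
  have hb : ∀ n : ℕ, ∑ k ∈ Finset.range n,
      (if 3 / 8 < lam k then 16 ^ mg lam k * dens lam k else 0) ≤ Cb := by
    intro n
    have h1 := hsum lam hl n
    rw [Finset.sum_filter] at h1
    exact h1
  have hN : (0 : ℝ) < 4 ^ n := by positivity
  have h4 : ∀ k, 1 / 4 ≤ lam k := fun k => (hl k).1
  have hs := ts_side_pos lam h4
  have hCau : ‖Cau lam n h w‖ = ‖∑ y, (h y : ℂ) / (w - ctr lam n y)‖ / 4 ^ n := by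
    unfold Cau
    rw [norm_div, norm_pow]
    norm_num
  rw [hCau, div_le_iff₀ hN]
  have hC0 : 0 ≤ (4 + 2 * (32 + 8 * Cb)) * (1 + B) * 4 ^ n := by positivity
  rcases (XX lam n).eq_empty_or_nonempty with hemp | hne
  · -- nothing remains
    have hz : ∑ y, (h y : ℂ) / (w - ctr lam n y) = 0 := by
      refine Finset.sum_eq_zero fun y _ => ?_
      rw [hX y (by rw [hemp]; exact Set.notMem_empty y), Complex.ofReal_zero, zero_div]
    rw [hz, norm_zero]
    exact hC0
  obtain ⟨x, hxX, hx⟩ := Set.exists_min_image (XX lam n)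
    (fun y : Fin (4 ^ n) => ‖w - ctr lam n y‖) (Set.toFinite _) hne
  rcases le_or_gt 1 ‖w - ctr lam n x‖ with h1 | h1
  · -- far away
    have h3 : ‖∑ y, (h y : ℂ) / (w - ctr lam n y)‖ ≤ 4 ^ n := by
      refine (norm_sum_le _ _).trans ?_
      calc ∑ y, ‖(h y : ℂ) / (w - ctr lam n y)‖ ≤ ∑ _y : Fin (4 ^ n), (1 : ℝ) := by
            refine Finset.sum_le_sum fun y _ => ?_
            by_cases hyX : y ∈ XX lam n
            · rw [norm_div, Complex.norm_real, Real.norm_of_nonneg (hh y).1]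
              rw [div_le_one (lt_of_lt_of_le one_pos (h1.trans (hx y hyX)))]
              exact (hh y).2.trans (h1.trans (hx y hyX))
            · rw [hX y hyX, Complex.ofReal_zero, zero_div, norm_zero]
              exact zero_le_one
        _ = 4 ^ n := by simp
    refine h3.trans ?_
    have h5 : (1 : ℝ) ≤ (4 + 2 * (32 + 8 * Cb)) * (1 + B) := by nlinarith
    nlinarith
  · -- the generation of the distance
    have hex : ∃ k, k < n ∧ side lam (k + 1) ≤ ‖w - ctr lam n x‖ ∧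
        ‖w - ctr lam n x‖ < side lam k := by
      have hP : ∃ m, side lam m ≤ ‖w - ctr lam n x‖ := ⟨n, hw x⟩
      classical
      have hm := Nat.find_spec hP
      have hmn : Nat.find hP ≤ n := Nat.find_min' hP (hw x)
      have hm0 : Nat.find hP ≠ 0 := by
        intro h0
        rw [h0] at hm
        have : side lam 0 = 1 := rfl
        linarith
      obtain ⟨k, hk⟩ := Nat.exists_eq_succ_of_ne_zero hm0
      refine ⟨k, by omega, ?_, ?_⟩
      · rw [hk] at hm
        exact hm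
      · have := Nat.find_min hP (m := k) (by omega)
        exact not_le.1 this
    obtain ⟨k, hkn, hk1, hk2⟩ := hex
    have hsplit : ∑ y, (h y : ℂ) / (w - ctr lam n y) =
        ∑ y ∈ Finset.univ.filter (fun y => lb n k y = lb n k x), (h y : ℂ) / (w - ctr lam n y) +
        ∑ y ∈ Finset.univ.filter (fun y => lb n k y ≠ lb n k x), (h y : ℂ) / (w - ctr lam n y) :=
      (Finset.sum_filter_add_sum_filter_not Finset.univ _ _).symm
    -- the points of the class
    have hin : ‖∑ y ∈ Finset.univ.filter (fun y => lb n k y = lb n k x),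
        (h y : ℂ) / (w - ctr lam n y)‖ ≤ 4 ^ n * 4 := by
      refine (norm_sum_le _ _).trans ?_
      have hkk := ts_side_quarter lam h4 k
      have hsk := hs k
      calc ∑ y ∈ Finset.univ.filter (fun y => lb n k y = lb n k x),
            ‖(h y : ℂ) / (w - ctr lam n y)‖ ≤
          ∑ _y ∈ Finset.univ.filter (fun y => lb n k y = lb n k x), 4 / side lam k := by
            refine Finset.sum_le_sum fun y _ => ?_
            by_cases hyX : y ∈ XX lam n
            · rw [norm_div, Complex.norm_real, Real.norm_of_nonneg (hh y).1]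
              have h5 : side lam k / 4 ≤ ‖w - ctr lam n y‖ := hkk.trans (hk1.trans (hx y hyX))
              have h6 : 0 < ‖w - ctr lam n y‖ := by linarith
              rw [div_le_div_iff₀ h6 hsk]
              have := (hh y).2
              have := (hh y).1
              nlinarith
            · rw [hX y hyX, Complex.ofReal_zero, zero_div, norm_zero]
              positivity
        _ = 4 ^ (n - k) * (4 / side lam k) := by
            rw [Finset.sum_const, (isTree_lb n).card k hkn.le x, nsmul_eq_mul]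
            push_cast
            ring
        _ ≤ 4 ^ n * 4 := by
            have h7 : (4 : ℝ) ^ n = 4 ^ (n - k) * 4 ^ k := by
              rw [← pow_add]
              congr 1
              omega
            have h10 : 1 / side lam k ≤ 4 ^ k := by
              rw [div_le_iff₀ hsk]
              exact ts_side_dens lam h4 k
            have h11 : (4 : ℝ) ^ (n - k) * (1 / side lam k) ≤ 4 ^ (n - k) * 4 ^ k :=
              mul_le_mul_of_nonneg_left h10 (by positivity)
            have h12 : (4 : ℝ) ^ (n - k) * (4 / side lam k) =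
                4 * (4 ^ (n - k) * (1 / side lam k)) := by ring
            rw [h7, h12]
            linarith
    -- the other points
    have hout : ‖∑ y ∈ Finset.univ.filter (fun y => lb n k y ≠ lb n k x),
        (h y : ℂ) / (w - ctr lam n y) - tsS lam n h k x‖ ≤ 4 ^ n * (32 + 8 * Cb) := by
      unfold tsS
      rw [← Finset.sum_sub_distrib]
      refine (norm_sum_le _ _).trans ?_
      refine t2_sum' Cb lam hl hb n k hkn.le x (fun y => ‖(h y : ℂ) / (w - ctr lam n y) -
        (h y : ℂ) / (ctr lam n x - ctr lam n y)‖) (fun y => norm_nonneg _) ?_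
      intro j hj y hy0 hy
      have hp := t2_pos lam h4 j
      by_cases hyX : y ∈ XX lam n
      · have hB := t2_sep lam hl n j (by omega) x y hxX hyX hy0.symm (fun h => hy h.symm)
        have h5 : ‖ctr lam n x - ctr lam n y‖ ≤ 2 * ‖w - ctr lam n y‖ := by
          have h6 : ctr lam n x - ctr lam n y = (w - ctr lam n y) - (w - ctr lam n x) := by ring
          rw [h6]
          have h7 := norm_sub_le (w - ctr lam n y) (w - ctr lam n x)
          have h8 := hx y hyX
          linarith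
        have hA : t2s lam j / 2 ≤ ‖w - ctr lam n y‖ := by linarith
        have h3 : ‖(ctr lam n x - ctr lam n y) - (w - ctr lam n y)‖ ≤ side lam k := by
          rw [sub_sub_sub_cancel_right, norm_sub_rev]
          exact hk2.le
        have h9 := ts_frac (h y) (hh y).1 (hh y).2 _ _ _ _ _ (by linarith) hp hA hB h3
        refine h9.trans (le_of_eq ?_)
        field_simp
      · have := hs k
        simp only [hX y hyX, Complex.ofReal_zero, zero_div, sub_zero, norm_zero]
        positivity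
    have htwo := t2_two Cb hCb.le lam hl hb n h hh hX B hR hI k hkn.le x hxX
    have hfin : ‖∑ y, (h y : ℂ) / (w - ctr lam n y)‖ ≤
        4 ^ n * 4 + 4 ^ n * (32 + 8 * Cb) + 4 ^ n * (2 * B + (32 + 8 * Cb)) := by
      rw [hsplit]
      have h5 : ∑ y ∈ Finset.univ.filter (fun y => lb n k y = lb n k x),
          (h y : ℂ) / (w - ctr lam n y) +
          ∑ y ∈ Finset.univ.filter (fun y => lb n k y ≠ lb n k x), (h y : ℂ) / (w - ctr lam n y) =
          ∑ y ∈ Finset.univ.filter (fun y => lb n k y = lb n k x),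
            (h y : ℂ) / (w - ctr lam n y) +
          (∑ y ∈ Finset.univ.filter (fun y => lb n k y ≠ lb n k x),
            (h y : ℂ) / (w - ctr lam n y) - tsS lam n h k x) + tsS lam n h k x := by ring
      rw [h5]
      exact (norm_add_le _ _).trans (add_le_add ((norm_add_le _ _).trans (add_le_add hin hout))
        htwo)
    refine hfin.trans ?_
    have h8 : 4 + (32 + 8 * Cb) + (2 * B + (32 + 8 * Cb)) ≤
        (4 + 2 * (32 + 8 * Cb)) * (1 + B) := by nlinarith
    nlinarith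

end Pool.Agent.VC
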