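import Pool.Agent.VC.TreeH2
import Pool.Agent.VC.TreeSup2
import Pool.Agent.VC.CapLim2
import Pool.Agent.VC.AngleA

set_option autoImplicit false

open MeasureTheory Set

namespace Pool.Agent.VC

/-- lower bound of the analytic capacity -/
theorem capLow2 : ∃ c : ℝ, 0 < c ∧ ∀ lam : ℕ → ℝ,
    (∀ k, 1 / 4 ≤ lam k ∧ lam k ≤ 1 / 2) → ∀ B : ℝ, (∀ N, SS lam N ≤ B) →
    ENNReal.ofReal (c / Real.sqrt B) ≤ H52F.anCap (corner lam) := by
  obtain ⟨C1, hC1, H1⟩ := exists_h2
  obtain ⟨C2, hC2, H2⟩ := treeSup2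
  refine ⟨1 / (4 * (C2 * (1 + 2 * C1))), by positivity, fun lam hl B hB => ?_⟩
  have hB1 : 1 ≤ B := by
    have h1 := hB 1
    unfold SS at h1
    rw [Finset.sum_range_one] at h1
    unfold dens side at h1
    norm_num at h1
    exact h1
  have hs1 : 1 ≤ Real.sqrt B := Real.one_le_sqrt.2 hB1
  have hs0 : 0 < Real.sqrt B := by linarith
  choose h h01 hz hav hR hI using H1 lam hl
  have hM : 0 < C2 * (1 + 2 * C1) * Real.sqrt B := by positivity
  have hle : ∀ n, C1 * (1 + Real.sqrt (SS lam n)) ≤ C1 * (1 + Real.sqrt B) := fun n =>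
    mul_le_mul_of_nonneg_left (by linarith [Real.sqrt_le_sqrt (hB n)]) hC1.le
  have hb : ∀ n (w : ℂ), (∀ y, side lam n ≤ ‖w - ctr lam n y‖) →
      ‖Cau lam n (h n) w‖ ≤ C2 * (1 + 2 * C1) * Real.sqrt B := by
    intro n w hw
    have h2 := H2 lam hl n (h n) (h01 n) (hz n) (C1 * (1 + Real.sqrt B)) (by positivity)
      (fun x hx => (hR n x hx).trans (hle n)) (fun x hx => (hI n x hx).trans (hle n)) w hw
    refine h2.trans ?_
    rw [mul_assoc]
    refine mul_le_mul_of_nonneg_left ?_ hC2.le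
    nlinarith
  have h3 := capLim2 lam hl (C2 * (1 + 2 * C1) * Real.sqrt B) hM h h01 hav hb
  refine le_trans (le_of_eq ?_) h3
  congr 1
  field_simp

private theorem f2_anCap_mono {E F : Set ℂ} (h : E ⊆ F) : H52F.anCap E ≤ H52F.anCap F := by
  refine sSup_le_sSup ?_
  rintro x ⟨f, c, a, h1, h2, h3, h4⟩
  exact ⟨f, c, a, h1.mono (compl_subset_compl.2 h), fun z hz => h2 z fun hz' => hz (h hz'), h3, h4⟩

/-- the modified sequence -/
private noncomputable def f2Lam (lam : ℕ → ℝ) (κ : ℝ) (n : ℕ) (k : ℕ) : ℝ := if k < n then lam k else κ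

private theorem f2_side (lam : ℕ → ℝ) (κ : ℝ) (n : ℕ) : ∀ k, k ≤ n →
    side (f2Lam lam κ n) k = side lam k
  | 0, _ => rfl
  | k + 1, h => by
      show f2Lam lam κ n k * side (f2Lam lam κ n) k = lam k * side lam k
      rw [f2_side lam κ n k (by omega), f2Lam, if_pos (by omega)]

private theorem f2_dens (lam : ℕ → ℝ) (κ : ℝ) (n k : ℕ) (h : k ≤ n) :
    dens (f2Lam lam κ n) k = dens lam k := by
  unfold dens
  rw [f2_side lam κ n k h]

private theorem f2_SS (lam : ℕ → ℝ) (κ : ℝ) (n : ℕ) :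
    SS (f2Lam lam κ n) (n + 1) = SS lam (n + 1) := by
  unfold SS
  refine Finset.sum_congr rfl fun k hk => ?_
  rw [f2_dens lam κ n k (by rw [Finset.mem_range] at hk; omega)]

private theorem f2_dens_tail (lam : ℕ → ℝ) (hl : ∀ k, 1 / 4 ≤ lam k) (κ : ℝ) (hκ : 3 / 8 ≤ κ) (n : ℕ) :
    ∀ j, dens (f2Lam lam κ n) (n + j) ≤ (2 / 3) ^ j * dens lam n
  | 0 => by
      rw [pow_zero, one_mul, Nat.add_zero, f2_dens lam κ n n le_rfl]
  | j + 1 => by
      have hpos : ∀ k, 1 / 4 ≤ f2Lam lam κ n k := fun k => by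
        unfold f2Lam
        split_ifs
        · exact hl k
        · linarith
      have h1 := f2_dens_tail lam hl κ hκ n j
      have h2 : dens (f2Lam lam κ n) (n + (j + 1)) =
          dens (f2Lam lam κ n) (n + j) * (1 / (4 * κ)) := by
        unfold dens
        rw [← Nat.add_assoc]
        show 1 / (4 ^ (n + j + 1) * (f2Lam lam κ n (n + j) * side (f2Lam lam κ n) (n + j))) = _
        rw [f2Lam, if_neg (by omega), pow_succ]
        have h3 : side (f2Lam lam κ n) (n + j) ≠ 0 :=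
          (side_pos _ (fun k => by linarith [hpos k]) _).ne'
        have h4 : κ ≠ 0 := by linarith
        change 1 / (4 ^ (n + j) * 4 * (κ * side (f2Lam lam κ n) (n + j))) = _
        field_simp
      have h5 : 1 / (4 * κ) ≤ 2 / 3 := by
        rw [div_le_div_iff₀ (by linarith) (by norm_num)]
        linarith
      have h6 : 0 < dens (f2Lam lam κ n) (n + j) := dens_pos _ hpos _
      calc dens (f2Lam lam κ n) (n + (j + 1)) =
            dens (f2Lam lam κ n) (n + j) * (1 / (4 * κ)) := h2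
        _ ≤ ((2 / 3) ^ j * dens lam n) * (2 / 3) := by
            have h7 : 0 ≤ 1 / (4 * κ) := by
              have : 0 < κ := by linarith
              positivity
            exact mul_le_mul h1 h5 h7 (h6.le.trans h1)
        _ = (2 / 3) ^ (j + 1) * dens lam n := by ring

private theorem f2_SS_tail (lam : ℕ → ℝ) (hl : ∀ k, 1 / 4 ≤ lam k) (κ : ℝ) (hκ : 3 / 8 ≤ κ) (n : ℕ) :
    ∀ j, SS (f2Lam lam κ n) (n + 1 + j) + 4 / 5 * ((4 / 9) ^ j * dens lam n ^ 2) ≤
      SS lam (n + 1) + 4 / 5 * dens lam n ^ 2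
  | 0 => by
      rw [Nat.add_zero, f2_SS, pow_zero, one_mul]
  | j + 1 => by
      have hpos : ∀ k, 1 / 4 ≤ f2Lam lam κ n k := fun k => by
        unfold f2Lam
        split_ifs
        · exact hl k
        · linarith
      have h1 := f2_SS_tail lam hl κ hκ n j
      have h2 : SS (f2Lam lam κ n) (n + 1 + (j + 1)) =
          SS (f2Lam lam κ n) (n + 1 + j) + dens (f2Lam lam κ n) (n + 1 + j) ^ 2 := by
        unfold SS
        rw [← Nat.add_assoc, Finset.sum_range_succ]
      have h3 := f2_dens_tail lam hl κ hκ n (j + 1)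
      have h4 : 0 < dens (f2Lam lam κ n) (n + 1 + j) := dens_pos _ hpos _
      have h5 : n + (j + 1) = n + 1 + j := by omega
      rw [h5] at h3
      have h6 : dens (f2Lam lam κ n) (n + 1 + j) ^ 2 ≤ (4 / 9) ^ (j + 1) * dens lam n ^ 2 := by
        have h7 : dens (f2Lam lam κ n) (n + 1 + j) ^ 2 ≤ ((2 / 3) ^ (j + 1) * dens lam n) ^ 2 :=
          pow_le_pow_left₀ h4.le h3 2
        have h8 : ((2 / 3 : ℝ) ^ (j + 1) * dens lam n) ^ 2 = (4 / 9) ^ (j + 1) * dens lam n ^ 2 := by
          rw [mul_pow, ← pow_mul, mul_comm (j + 1) 2, pow_mul]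
          norm_num
        rw [h8] at h7
        exact h7
      rw [h2]
      have h9 : (4 / 9 : ℝ) ^ (j + 1) = (4 / 9) ^ j * (4 / 9) := pow_succ _ _
      rw [h9] at h6 ⊢
      nlinarith

private theorem f2_SS_le (lam : ℕ → ℝ) (hl : ∀ k, 1 / 4 ≤ lam k) (κ : ℝ) (hκ : 3 / 8 ≤ κ) (n N : ℕ) :
    SS (f2Lam lam κ n) N ≤ 2 * SS lam (n + 1) := by
  have h1 : SS (f2Lam lam κ n) N ≤ SS (f2Lam lam κ n) (n + 1 + N) := SS_mono _ (by omega)
  have h2 := f2_SS_tail lam hl κ hκ n N
  have h3 : dens lam n ^ 2 ≤ SS lam (n + 1) := by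
    unfold SS
    exact Finset.single_le_sum (f := fun k => dens lam k ^ 2) (fun k _ => pow_two_nonneg _)
      (Finset.mem_range.2 (Nat.lt_succ_self n))
  have h4 : 0 ≤ (4 / 9 : ℝ) ^ N * dens lam n ^ 2 := by positivity
  nlinarith [pow_two_nonneg (dens lam n)]

/-- arithmetic of one direction -/
private theorem f2_arith {v : ENNReal} {C c c1 S B : ℝ} (hC : 0 < C) (hc : 0 < c) (hS : 0 < S) (hB : 0 < B)
    (h : v * ENNReal.ofReal (Real.sqrt S) ≤ ENNReal.ofReal C)
    (h2 : c * C * Real.sqrt B ≤ c1 * Real.sqrt S) :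
    ENNReal.ofReal c * v ≤ ENNReal.ofReal (c1 / Real.sqrt B) := by
  have hs : 0 < Real.sqrt S := Real.sqrt_pos.2 hS
  have hb : 0 < Real.sqrt B := Real.sqrt_pos.2 hB
  have h3 : v ≤ ENNReal.ofReal (C / Real.sqrt S) := by
    rw [ENNReal.ofReal_div_of_pos hs]
    exact (ENNReal.le_div_iff_mul_le (Or.inl (ENNReal.ofReal_pos.2 hs).ne')
      (Or.inl ENNReal.ofReal_ne_top)).2 h
  calc ENNReal.ofReal c * v ≤ ENNReal.ofReal c * ENNReal.ofReal (C / Real.sqrt S) := by gcongr
    _ = ENNReal.ofReal (c * (C / Real.sqrt S)) := (ENNReal.ofReal_mul hc.le).symm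
    _ ≤ ENNReal.ofReal (c1 / Real.sqrt B) := by
        refine ENNReal.ofReal_le_ofReal ?_
        rw [← mul_div_assoc, div_le_div_iff₀ hs hb]
        exact h2

/-- off a small set of directions the projection is at most a multiple of the capacity -/
theorem final2 (hS : SlopeStmt) (ε : ℝ) (hε : 0 < ε) : ∃ c : ℝ, 0 < c ∧
    ∀ lam : ℕ → ℝ, (∀ k, 1 / 4 ≤ lam k ∧ lam k ≤ 1 / 2) →
      volume {θ | θ ∈ Ioc 0 Real.pi ∧ H52F.anCap (corner lam) <
        ENNReal.ofReal c * volume (prj θ '' corner lam)} ≤ ENNReal.ofReal ε ∧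
      ∀ n : ℕ, volume {θ | θ ∈ Ioc 0 Real.pi ∧ H52F.anCap (stage lam n) <
        ENNReal.ofReal c * volume (prj θ '' stage lam n)} ≤ ENNReal.ofReal ε := by
  obtain ⟨c1, hc1, hcap⟩ := capLow2
  obtain ⟨C, hC, hang⟩ := angleA hS ε hε
  refine ⟨c1 / (4 * C), by positivity, fun lam hl => ?_⟩
  have hcc : c1 / (4 * C) * C = c1 / 4 := by
    field_simp
  have hc0 : 0 < c1 / (4 * C) := by positivity
  have hl2 : ∀ k, 1 / 4 ≤ lam k ∧ lam k ≤ 1 / 2 := hl
  have hl3 : ∀ k, 0 < lam k ∧ lam k ≤ 1 / 2 := fun k => ⟨by linarith [(hl k).1], (hl2 k).2⟩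
  have hl4 : ∀ k, 1 / 4 ≤ lam k := fun k => (hl k).1
  have hang' := hang lam hl2
  refine ⟨?_, fun n => ?_⟩
  · by_cases hbd : ∃ B : ℝ, ∀ N, SS lam N ≤ B
    · -- bounded sums
      have hbdd : BddAbove (range (SS lam)) := by
        obtain ⟨B, hB⟩ := hbd
        exact ⟨B, by rintro _ ⟨N, rfl⟩; exact hB N⟩
      set B : ℝ := ⨆ N, SS lam N with hBdef
      have hB : ∀ N, SS lam N ≤ B := fun N => le_ciSup hbdd N
      have hB1 : 1 ≤ B := (one_le_SS lam 0).trans (hB _)
      obtain ⟨N, hN⟩ : ∃ N, B / 4 < SS lam N :=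
        exists_lt_of_lt_ciSup (by rw [← hBdef]; linarith)
      have hN1 : B / 4 < SS lam (N + 1) := hN.trans_le (SS_mono lam (Nat.le_succ N))
      refine (measure_mono ?_).trans (hang' N)
      rintro θ ⟨h1, h2⟩
      refine ⟨h1, ?_⟩
      by_contra hcon
      rw [not_lt] at hcon
      refine absurd h2 (not_lt.2 ?_)
      refine le_trans ?_ (hcap lam hl B hB)
      refine f2_arith (S := SS lam (N + 1)) hC hc0 (by linarith) (by linarith) ?_ ?_
      · refine le_trans ?_ hcon
        gcongr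
        exact corner_subset_stage lam hl3 N
      · rw [hcc]
        have h5 : Real.sqrt B ≤ 2 * Real.sqrt (SS lam (N + 1)) := by
          rw [Real.sqrt_le_left (by positivity), mul_pow, Real.sq_sqrt (by linarith)]
          linarith
        nlinarith [Real.sqrt_nonneg (SS lam (N + 1))]
    · -- unbounded sums
      have hub : ∀ B : ℝ, ∃ N, B < SS lam N := by
        intro B
        by_contra hcon
        exact hbd ⟨B, fun N => not_lt.1 fun h => hcon ⟨N, h⟩⟩
      set T : ℕ → Set ℝ := fun N => {θ | θ ∈ Ioc 0 Real.pi ∧ ENNReal.ofReal C <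
        volume (prj θ '' stage lam N) * ENNReal.ofReal (Real.sqrt (SS lam (N + 1)))} with hT
      have hmono : Monotone fun M : ℕ => ⋂ N, ⋂ (_ : M ≤ N), T N := by
        intro M M' hMM θ hθ
        simp only [mem_iInter] at hθ ⊢
        exact fun N hN => hθ N (hMM.trans hN)
      have hsub : {θ | θ ∈ Ioc 0 Real.pi ∧ H52F.anCap (corner lam) <
          ENNReal.ofReal (c1 / (4 * C)) * volume (prj θ '' corner lam)} ⊆
          ⋃ M : ℕ, ⋂ N, ⋂ (_ : M ≤ N), T N := by
        rintro θ ⟨h1, h2⟩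
        have hv : volume (prj θ '' corner lam) ≠ 0 := by
          intro h0
          rw [h0, mul_zero] at h2
          exact not_lt_bot h2
        have htop : ENNReal.ofReal C / volume (prj θ '' corner lam) ≠ ⊤ :=
          ENNReal.div_ne_top ENNReal.ofReal_ne_top hv
        obtain ⟨M, hM⟩ := hub ((ENNReal.ofReal C / volume (prj θ '' corner lam)).toReal ^ 2)
        rw [mem_iUnion]
        refine ⟨M, ?_⟩
        simp only [mem_iInter]
        intro N hN
        refine ⟨h1, ?_⟩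
        have h3 : ENNReal.ofReal C / volume (prj θ '' corner lam) <
            ENNReal.ofReal (Real.sqrt (SS lam (N + 1))) := by
          rw [← ENNReal.ofReal_toReal htop]
          refine (ENNReal.ofReal_lt_ofReal_iff_of_nonneg ENNReal.toReal_nonneg).2 ?_
          refine Real.lt_sqrt_of_sq_lt (hM.trans_le ?_)
          exact SS_mono lam (by omega)
        rw [ENNReal.div_lt_iff (Or.inl hv) (Or.inr ENNReal.ofReal_ne_top)] at h3
        refine h3.trans_le ?_
        rw [mul_comm]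
        gcongr
        exact corner_subset_stage lam hl3 N
      refine (measure_mono hsub).trans ?_
      rw [hmono.measure_iUnion]
      refine iSup_le fun M => (measure_mono ?_).trans (hang' M)
      intro θ hθ
      simp only [mem_iInter] at hθ
      exact hθ M le_rfl
  · refine (measure_mono ?_).trans (hang' n)
    rintro θ ⟨h1, h2⟩
    refine ⟨h1, ?_⟩
    by_contra hcon
    rw [not_lt] at hcon
    refine absurd h2 (not_lt.2 ?_)
    have hS1 : 1 ≤ SS lam (n + 1) := one_le_SS lam n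
    have hfl : ∀ k, 1 / 4 ≤ f2Lam lam (3 / 8) n k ∧ f2Lam lam (3 / 8) n k ≤ 1 / 2 := fun k => by
      unfold f2Lam
      split_ifs
      · exact hl k
      · exact ⟨by norm_num, by norm_num⟩
    have h3 := hcap (f2Lam lam (3 / 8) n) hfl (2 * SS lam (n + 1))
      (f2_SS_le lam hl4 (3 / 8) le_rfl n)
    have h4 : corner (f2Lam lam (3 / 8) n) ⊆ stage lam n := by
      refine corner_subset_stage' lam _ n (fun k => ?_) (fun k hk => ?_)
      · exact ⟨by linarith [(hfl k).1], by linarith [(hfl k).2]⟩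
      · unfold f2Lam
        rw [if_pos hk]
    refine le_trans ?_ (h3.trans (f2_anCap_mono h4))
    refine f2_arith (S := SS lam (n + 1)) hC hc0 (by linarith) (by linarith) hcon ?_
    rw [hcc]
    have h5 : Real.sqrt (2 * SS lam (n + 1)) ≤ 2 * Real.sqrt (SS lam (n + 1)) := by
      rw [Real.sqrt_le_left (by positivity), mul_pow, Real.sq_sqrt (by linarith)]
      linarith
    nlinarith [Real.sqrt_nonneg (SS lam (n + 1))]

/-- Vitushkin's implication for these sets -/
theorem vitushkin2 (hS : SlopeStmt) (lam : ℕ → ℝ)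
    (hl : ∀ k, 1 / 4 ≤ lam k ∧ lam k ≤ 1 / 2)
    (hF : 0 < ∫⁻ θ in Ioc 0 Real.pi, volume (prj θ '' corner lam)) :
    0 < H52F.anCap (corner lam) := by
  by_contra hcon
  have h0 : H52F.anCap (corner lam) = 0 := by
    rw [not_lt] at hcon
    exact le_antisymm hcon bot_le
  have h1 : volume {θ | θ ∈ Ioc 0 Real.pi ∧ 0 < volume (prj θ '' corner lam)} = 0 := by
    refine le_antisymm ?_ bot_le
    refine ENNReal.le_of_forall_pos_le_add fun ε hε _ => ?_
    obtain ⟨c, hc, h⟩ := final2 hS ε hε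
    have h2 := (h lam hl).1
    rw [h0, ENNReal.ofReal_coe_nnreal] at h2
    rw [zero_add]
    refine (measure_mono ?_).trans h2
    rintro θ ⟨h3, h4⟩
    exact ⟨h3, ENNReal.mul_pos (ENNReal.ofReal_pos.2 hc).ne' h4.ne'⟩
  have h2 : ∫⁻ θ in Ioc 0 Real.pi, volume (prj θ '' corner lam) = 0 := by
    have h3 : (fun θ => volume (prj θ '' corner lam)) =ᵐ[volume.restrict (Ioc 0 Real.pi)]
        fun _ => 0 := by
      rw [Filter.EventuallyEq, ae_restrict_iff' measurableSet_Ioc, ae_iff]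
      refine measure_mono_null ?_ h1
      intro θ hθ
      rw [mem_ofPred_eq, Classical.not_imp] at hθ
      exact ⟨hθ.1, pos_iff_ne_zero.2 hθ.2⟩
    rw [lintegral_congr_ae h3, lintegral_zero]
  rw [h2] at hF
  exact lt_irrefl _ hF

end Pool.Agent.VC
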