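import Pool.Agent.VC.CubeDefs

/-!
# Even and odd positions: counting
-/

namespace Pool.Agent.VC

open Finset Classical

theorem ones_add {n : ℕ} (x y : Fin n → Bool) : ones x + ones y =
    hammingDist x y + 2 * (univ.filter (fun i => x i = true ∧ y i = true)).card := by
  simp only [ones, hammingDist, card_filter, mul_sum, ← sum_add_distrib]
  refine sum_congr rfl fun i _ => ?_
  cases x i <;> cases y i <;> simp

/-- Two positions at distance one have different parity. -/
theorem parity_of_dist_one {n : ℕ} (x y : Fin n → Bool) (h : hammingDist x y = 1) :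
    (Even (ones x) ↔ ¬ Even (ones y)) := by
  have h1 := ones_add x y
  rw [h] at h1
  rw [Nat.even_iff, Nat.even_iff]
  omega

/-- flip one coordinate -/
def flipAt {n : ℕ} (i : Fin n) (x : Fin n → Bool) : Fin n → Bool := Function.update x i (!x i)

theorem flipAt_flipAt {n : ℕ} (i : Fin n) (x : Fin n → Bool) : flipAt i (flipAt i x) = x := by
  funext j
  by_cases h : j = i
  · subst h
    simp [flipAt]
  · simp [flipAt, h]

theorem dist_flipAt {n : ℕ} (i : Fin n) (x : Fin n → Bool) :
    hammingDist x (flipAt i x) = 1 := by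
  unfold hammingDist
  rw [card_eq_one]
  refine ⟨i, ?_⟩
  ext j
  simp only [mem_filter, mem_univ, true_and, mem_singleton]
  by_cases h : j = i
  · subst h
    simp [flipAt]
  · simp [flipAt, h]

theorem eq_flipAt {n : ℕ} (x y : Fin n → Bool) (h : hammingDist x y = 1) :
    ∃ i, y = flipAt i x := by
  unfold hammingDist at h
  rw [card_eq_one] at h
  obtain ⟨i, hi⟩ := h
  refine ⟨i, ?_⟩
  have hm : ∀ j, x j ≠ y j ↔ j = i := by
    intro j
    have := congrArg (fun s => j ∈ s) hi
    simpa using this
  funext j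
  by_cases h : j = i
  · subst h
    have h1 := (hm j).2 rfl
    simp only [flipAt, Function.update_self]
    revert h1
    cases x j <;> cases y j <;> simp
  · have h1 : x j = y j := by
      by_contra h2
      exact h ((hm j).1 h2)
    simp [flipAt, h, h1]

/-- even and odd positions are in bijection -/
def flipEquiv {n : ℕ} (i : Fin n) : EPos n ≃ OPos n where
  toFun a := ⟨flipAt i a.1, (parity_of_dist_one _ _ (dist_flipAt i a.1)).1 a.2⟩
  invFun b := ⟨flipAt i b.1, by
    by_contra h
    exact b.2 ((parity_of_dist_one _ _ (dist_flipAt i b.1)).2 h)⟩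
  left_inv a := Subtype.ext (flipAt_flipAt i a.1)
  right_inv b := Subtype.ext (flipAt_flipAt i b.1)

theorem card_add (n : ℕ) : Fintype.card (EPos n) + Fintype.card (OPos n) = 2 ^ n := by
  have h := Fintype.card_congr (Equiv.sumCompl (fun x : Fin n → Bool => Even (ones x)))
  rw [Fintype.card_sum] at h
  have h2 : Fintype.card (Fin n → Bool) = 2 ^ n := by simp
  rw [h2] at h
  exact h

theorem card_EPos (n : ℕ) (hn : 1 ≤ n) : Fintype.card (EPos n) = 2 ^ (n - 1) := by
  have h1 := card_add n
  have h2 := Fintype.card_congr (flipEquiv (⟨0, hn⟩ : Fin n))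
  obtain ⟨m, rfl⟩ : ∃ m, n = m + 1 := ⟨n - 1, by omega⟩
  rw [Nat.add_sub_cancel]
  rw [pow_succ] at h1
  omega

theorem card_OPos (n : ℕ) (hn : 1 ≤ n) : Fintype.card (OPos n) = 2 ^ (n - 1) := by
  rw [← card_EPos n hn]
  exact (Fintype.card_congr (flipEquiv (⟨0, hn⟩ : Fin n))).symm

theorem card_adj_even {n : ℕ} (a : EPos n) : (univ.filter (fun b => Adj a b)).card ≤ n := by
  have hs : (univ.filter (fun b => Adj a b)) ⊆ univ.image (fun i : Fin n => flipEquiv i a) := by
    intro b hb
    obtain ⟨i, hi⟩ := eq_flipAt a.1 b.1 (mem_filter.1 hb).2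
    exact mem_image.2 ⟨i, mem_univ _, Subtype.ext hi.symm⟩
  calc (univ.filter (fun b => Adj a b)).card ≤ _ := card_le_card hs
    _ ≤ (univ : Finset (Fin n)).card := card_image_le
    _ = n := by simp

theorem card_adj_odd {n : ℕ} (b : OPos n) : (univ.filter (fun a => Adj a b)).card ≤ n := by
  have hs : (univ.filter (fun a => Adj a b)) ⊆
      univ.image (fun i : Fin n => (flipEquiv i).symm b) := by
    intro a ha
    have h1 : hammingDist b.1 a.1 = 1 := by
      rw [hammingDist_comm]
      exact (mem_filter.1 ha).2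
    obtain ⟨i, hi⟩ := eq_flipAt b.1 a.1 h1
    exact mem_image.2 ⟨i, mem_univ _, Subtype.ext hi.symm⟩
  calc (univ.filter (fun a => Adj a b)).card ≤ _ := card_le_card hs
    _ ≤ (univ : Finset (Fin n)).card := card_image_le
    _ = n := by simp

end Pool.Agent.VC
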