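import Pool.Agent.VC.HBasic

set_option autoImplicit false

open MeasureTheory Set

namespace Pool.Agent.VC
namespace Sys

/-- one digit of the expectation of a nonnegative function -/
theorem greedy_E_zero (S : Sys) (j b : ℕ) (G : ℝ → ℝ → ℝ) (hG : ∀ x y, 0 ≤ G x y) :
    1 / 4 * S.E j (b + 1) G ≤ S.E (j + 1) b G := by
  rw [E_succ]
  have h1 := S.E_nonneg j (b + 1) (fun x y => G (x + S.p (b + 1)) (y + S.q (b + 1)))
    fun x y => hG _ _
  have h2 := S.E_nonneg j (b + 1) (fun x y => G (x - S.p (b + 1)) (y - S.q (b + 1)))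
    fun x y => hG _ _
  have h3 := S.E_nonneg j (b + 1) G hG
  linarith

theorem greedy_E_pos (S : Sys) (j b : ℕ) (G : ℝ → ℝ → ℝ) (hG : ∀ x y, 0 ≤ G x y) :
    1 / 4 * S.E j (b + 1) (fun x y => G (x + S.p (b + 1)) (y + S.q (b + 1))) ≤
      S.E (j + 1) b G := by
  rw [E_succ]
  have h2 := S.E_nonneg j (b + 1) (fun x y => G (x - S.p (b + 1)) (y - S.q (b + 1)))
    fun x y => hG _ _
  have h3 := S.E_nonneg j (b + 1) G hG
  linarith

theorem greedy_E_neg (S : Sys) (j b : ℕ) (G : ℝ → ℝ → ℝ) (hG : ∀ x y, 0 ≤ G x y) :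
    1 / 4 * S.E j (b + 1) (fun x y => G (x - S.p (b + 1)) (y - S.q (b + 1))) ≤
      S.E (j + 1) b G := by
  rw [E_succ]
  have h2 := S.E_nonneg j (b + 1) (fun x y => G (x + S.p (b + 1)) (y + S.q (b + 1)))
    fun x y => hG _ _
  have h3 := S.E_nonneg j (b + 1) G hG
  linarith

theorem greedy (S : Sys) (m : ℕ) (t : ℝ) (h1 : 1 ≤ t) (h2 : t ≤ 2) (x0 : ℝ)
    (hx : |x0| ≤ S.L 0 t) :
    ∃ sx sy : ℝ, |sx| ≤ S.P 0 - S.P m ∧ |sy| ≤ S.Q 0 - S.Q m ∧ |x0 + (sx + t * sy)| ≤ S.L m t ∧
      ∀ F : ℝ → ℝ → ℝ, (∀ x y, 0 ≤ F x y) → ∀ j,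
        (1 / 4) ^ m * S.E j m (fun x y => F (sx + x) (sy + y)) ≤ S.E (m + j) 0 F := by
  induction m with
  | zero =>
    refine ⟨0, 0, by simp, by simp, by simpa using hx, fun F hF j => ?_⟩
    simp only [pow_zero, one_mul, zero_add, le_refl]
  | succ m ih =>
    obtain ⟨sx, sy, hsx, hsy, hs, hw⟩ := ih
    have hp := S.p_nonneg (m + 1)
    have hq := S.q_nonneg (m + 1)
    have hP := S.hP m
    have hQ := S.hQ m
    have hL := S.L_eq m t
    have ht := S.touch (m + 1) t h1 h2
    have hLd : S.L (m + 1) t = S.P (m + 1) + t * S.Q (m + 1) := rfl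
    have hvd : S.v (m + 1) t = S.p (m + 1) + t * S.q (m + 1) := rfl
    rw [← hLd, ← hvd] at ht
    have hpow : ((1 : ℝ) / 4) ^ (m + 1) = (1 / 4) ^ m * (1 / 4) := pow_succ _ _
    have hpow0 : (0 : ℝ) ≤ (1 / 4) ^ m := by positivity
    have key : ∀ (F : ℝ → ℝ → ℝ) (j : ℕ) (G : ℝ → ℝ → ℝ), (∀ x y, 0 ≤ F x y) →
        1 / 4 * S.E j (m + 1) G ≤ S.E (j + 1) m (fun x y => F (sx + x) (sy + y)) →
        (1 / 4) ^ (m + 1) * S.E j (m + 1) G ≤ S.E (m + 1 + j) 0 F := by
      intro F j G hF h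
      have h3 := hw F hF (j + 1)
      have e : m + (j + 1) = m + 1 + j := by ring
      rw [e] at h3
      rw [hpow, mul_assoc]
      exact (mul_le_mul_of_nonneg_left h hpow0).trans h3
    set x : ℝ := x0 + (sx + t * sy) with hxdef
    by_cases hc : |x| ≤ S.L (m + 1) t
    · refine ⟨sx, sy, by linarith, by linarith, hc, fun F hF j => ?_⟩
      exact key F j _ hF (S.greedy_E_zero j m _ fun x y => hF _ _)
    · push Not at hc
      rcases le_or_gt 0 x with h0 | h0
      · -- subtract the digit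
        rw [abs_of_nonneg h0] at hs hc
        refine ⟨sx - S.p (m + 1), sy - S.q (m + 1), ?_, ?_, ?_, fun F hF j => ?_⟩
        · rw [abs_le] at hsx ⊢
          constructor <;> linarith [hsx.1, hsx.2]
        · rw [abs_le] at hsy ⊢
          constructor <;> linarith [hsy.1, hsy.2]
        · have e : x0 + (sx - S.p (m + 1) + t * (sy - S.q (m + 1))) = x - S.v (m + 1) t := by
            rw [hxdef, hvd]; ring
          rw [e, abs_le]
          constructor <;> linarith
        · refine key F j _ hF ?_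
          have h4 := S.greedy_E_neg j m (fun x y => F (sx + x) (sy + y)) fun x y => hF _ _
          have e : (fun x y => F (sx - S.p (m + 1) + x) (sy - S.q (m + 1) + y)) =
              fun x y => (fun x y => F (sx + x) (sy + y)) (x - S.p (m + 1)) (y - S.q (m + 1)) := by
            funext x y
            simp only
            congr 1 <;> ring
          rw [e]
          exact h4
      · rw [abs_of_neg h0] at hs hc
        refine ⟨sx + S.p (m + 1), sy + S.q (m + 1), ?_, ?_, ?_, fun F hF j => ?_⟩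
        · rw [abs_le] at hsx ⊢
          constructor <;> linarith [hsx.1, hsx.2]
        · rw [abs_le] at hsy ⊢
          constructor <;> linarith [hsy.1, hsy.2]
        · have e : x0 + (sx + S.p (m + 1) + t * (sy + S.q (m + 1))) = x + S.v (m + 1) t := by
            rw [hxdef, hvd]; ring
          rw [e, abs_le]
          constructor <;> linarith
        · refine key F j _ hF ?_
          have h4 := S.greedy_E_pos j m (fun x y => F (sx + x) (sy + y)) fun x y => hF _ _
          have e : (fun x y => F (sx + S.p (m + 1) + x) (sy + S.q (m + 1) + y)) =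
              fun x y => (fun x y => F (sx + x) (sy + y)) (x + S.p (m + 1)) (y + S.q (m + 1)) := by
            funext x y
            simp only
            congr 1 <;> ring
          rw [e]
          exact h4

/-- the digit string for a slope for which `0` is good -/
theorem greedyY (S : Sys) (hr : S.r 0 = 1) (hs : S.sep 0) (m : ℕ) (hm : S.r m ≤ 1 / 30) (t : ℝ)
    (h1 : 1 ≤ t) (h2 : t ≤ 2) (hg : S.good 0 t) :
    ∃ Yx Yy : ℝ, |Yx + t * Yy| ≤ 2 * S.r m ∧ 1 / 10 ≤ |Yy| ∧ |Yy| ≤ 4 ∧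
      ∀ t' j, (1 / 4) ^ m * S.H m j t' (Yx + t' * Yy) ≤ S.z 0 (m + j) t' := by
  have hv0 := S.v_pos 0 t (by linarith)
  obtain ⟨sx, sy, hsx, hsy, hsl, hw⟩ := S.greedy m t h1 h2 (S.v 0 t)
    (by rw [abs_of_pos hv0]; exact hg)
  have hLr := S.L_le_r m t h1 h2
  have hvd : S.v 0 t = S.p 0 + t * S.q 0 := rfl
  have hP0 := S.Ppos 0
  have hQ0 := S.Qpos 0
  have hPm := S.Ppos m
  have hQm := S.Qpos m
  have hsum : S.P 0 + S.Q 0 = 1 := hr
  have hrat := S.ratio 0
  have e0 : S.p 0 + sx + t * (S.q 0 + sy) = S.v 0 t + (sx + t * sy) := by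
    rw [hvd]; ring
  have hY : |S.p 0 + sx + t * (S.q 0 + sy)| ≤ 2 * S.r m := by
    rw [e0]
    linarith
  refine ⟨S.p 0 + sx, S.q 0 + sy, hY, ?_, ?_, fun t' j => ?_⟩
  · rw [abs_le] at hsx hsy
    rcases S.dig 0 with ⟨h3, h4, h5⟩ | ⟨h3, h4, h5⟩
    · -- p-digit
      have h6 : 7 / 3 * S.P 0 ≤ S.p 0 := by
        rcases hs with h | h
        · exact h
        · rw [h3] at h
          linarith
      rw [h3, zero_add] at hY ⊢
      rw [abs_le] at hY
      have h7 : t * |sy| ≥ 1 / 5 := by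
        have h8 : -(t * |sy|) ≤ t * sy := by
          have := neg_abs_le sy
          nlinarith
        linarith [hsx.1, hsx.2, hY.2, hsum]
      have h8 : t * |sy| ≤ 2 * |sy| := mul_le_mul_of_nonneg_right h2 (abs_nonneg _)
      linarith
    · have h6 : 7 / 3 * S.Q 0 ≤ S.q 0 := by
        rcases hs with h | h
        · rw [h3] at h
          linarith
        · exact h
      have h7 : S.q 0 + sy ≤ |S.q 0 + sy| := le_abs_self _
      linarith [hsy.1]
  · rw [abs_le] at hsy ⊢
    rcases S.dig 0 with ⟨h3, h4, h5⟩ | ⟨h3, h4, h5⟩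
    · rw [h3]
      constructor <;> linarith [hsy.1, hsy.2]
    · constructor <;> linarith [hsy.1, hsy.2]
  · have h3 := hw (fun u w => phi (S.r (m + j)) (S.v 0 t' + (u + t' * w)))
      (fun x y => phi_nonneg (S.r_pos _) _) j
    have e1 : S.z 0 (m + j) t' =
        S.E (m + j) 0 (fun u w => phi (S.r (m + j)) (S.v 0 t' + (u + t' * w))) := by
      unfold z H
      rw [hr, one_mul, zero_add]
    have e2 : S.H m j t' (S.p 0 + sx + t' * (S.q 0 + sy)) =
        S.E j m (fun x y => (fun u w => phi (S.r (m + j)) (S.v 0 t' + (u + t' * w)))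
          (sx + x) (sy + y)) := by
      unfold H
      congr 1
      funext x y
      simp only
      congr 1
      have hvd' : S.v 0 t' = S.p 0 + t' * S.q 0 := rfl
      rw [hvd']
      ring
    rw [e1, e2]
    exact h3

end Sys
end Pool.Agent.VC
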