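import Mathlib

set_option autoImplicit false

open MeasureTheory Set

namespace Pool.Agent.VC

private def gcl (n a : ℕ) : Set ℝ := Ico (1 + (a : ℝ) / 2 ^ n) (1 + ((a : ℝ) + 1) / 2 ^ n)

private lemma gcl_one_le {n a : ℕ} {t : ℝ} (h : t ∈ gcl n a) : 1 ≤ t := by
  have h1 : 1 + (a : ℝ) / 2 ^ n ≤ t := h.1
  have h2 : (0 : ℝ) ≤ (a : ℝ) / 2 ^ n := by positivity
  linarith

private lemma mem_gcl {n a : ℕ} {t : ℝ} (ht : 1 ≤ t) : t ∈ gcl n a ↔ ⌊(t - 1) * 2 ^ n⌋₊ = a := by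
  have h2 : (0 : ℝ) < 2 ^ n := by positivity
  rw [Nat.floor_eq_iff (mul_nonneg (by linarith) h2.le)]
  unfold gcl
  rw [mem_Ico]
  constructor
  · rintro ⟨h3, h4⟩
    exact ⟨(div_le_iff₀ h2).1 (by linarith), (lt_div_iff₀ h2).1 (by linarith)⟩
  · rintro ⟨h3, h4⟩
    have h5 := (div_le_iff₀ h2).2 h3
    have h6 := (lt_div_iff₀ h2).2 h4
    constructor <;> linarith

private lemma gcl_nest {n m b : ℕ} (h : n ≤ m) : gcl m b ⊆ gcl n (b / 2 ^ (m - n)) := by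
  intro t ht
  have h1 := gcl_one_le ht
  rw [mem_gcl h1] at ht ⊢
  have h2 : (t - 1) * 2 ^ n = (t - 1) * 2 ^ m / ((2 ^ (m - n) : ℕ) : ℝ) := by
    push_cast
    rw [eq_div_iff (by positivity), mul_assoc, ← pow_add, Nat.add_sub_cancel' h]
  rw [h2, Nat.floor_div_natCast, ht]

private lemma gcl_vol (n a : ℕ) : volume (gcl n a) = ENNReal.ofReal (1 / 2 ^ n) := by
  unfold gcl
  rw [Real.volume_Ico]
  congr 1
  ring

private lemma gcl_disj {n a b : ℕ} (h : a ≠ b) : Disjoint (gcl n a) (gcl n b) := by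
  rw [Set.disjoint_left]
  intro t h1 h2
  have h3 := gcl_one_le h1
  rw [mem_gcl h3] at h1 h2
  exact h (h1.symm.trans h2)

private lemma gcl_sub {n a : ℕ} (h : a < 2 ^ n) : gcl n a ⊆ Ico 1 2 := by
  intro t ht
  refine ⟨gcl_one_le ht, ?_⟩
  have h2 : t < 1 + ((a : ℝ) + 1) / 2 ^ n := ht.2
  have h3 : (a : ℝ) + 1 ≤ 2 ^ n := by exact_mod_cast h
  have h4 : ((a : ℝ) + 1) / 2 ^ n ≤ 1 := (div_le_one (by positivity)).2 h3
  linarith

private lemma gcl_exists (n : ℕ) {t : ℝ} (ht : t ∈ Ico (1 : ℝ) 2) :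
    ∃ a < 2 ^ n, t ∈ gcl n a := by
  refine ⟨⌊(t - 1) * 2 ^ n⌋₊, ?_, (mem_gcl ht.1).2 rfl⟩
  have h2 : (0 : ℝ) < 2 ^ n := by positivity
  have h3 := ht.1
  have h4 := ht.2
  rw [Nat.floor_lt (mul_nonneg (by linarith) h2.le)]
  push_cast
  nlinarith

private lemma gcl_meas (n a : ℕ) : MeasurableSet (gcl n a) := measurableSet_Ico

private lemma gcl_union_vol (n : ℕ) (F : Finset ℕ) :
    volume (⋃ a ∈ F, gcl n a) = ENNReal.ofReal (F.card * (1 / 2 ^ n)) := by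
  rw [measure_biUnion_finset (fun a _ b _ h => gcl_disj h) (fun a _ => gcl_meas n a)]
  simp only [gcl_vol]
  rw [Finset.sum_const, nsmul_eq_mul, ENNReal.ofReal_mul (Nat.cast_nonneg _),
    ENNReal.ofReal_natCast]

open Classical in
private noncomputable def gF (e : ℕ → ℕ) (G0 : Set ℝ) (Suc : ℕ → Set ℝ) : ℕ → Finset ℕ
  | 0 => (Finset.range (2 ^ e 0)).filter (fun a => gcl (e 0) a ⊆ G0)
  | i + 1 => (Finset.range (2 ^ e (i + 1))).filter (fun b =>
      b / 2 ^ (e (i + 1) - e i) ∈ gF e G0 Suc i ∧ ¬ (Suc i ∩ gcl (e (i + 1)) b).Nonempty)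

private lemma gF_lt (e : ℕ → ℕ) (G0 : Set ℝ) (Suc : ℕ → Set ℝ) (i a : ℕ)
    (h : a ∈ gF e G0 Suc i) : a < 2 ^ e i := by
  classical
  cases i with
  | zero =>
    rw [gF, Finset.mem_filter, Finset.mem_range] at h
    exact h.1
  | succ i =>
    rw [gF, Finset.mem_filter, Finset.mem_range] at h
    exact h.1

private lemma gF_sub (R : ℕ) (e : ℕ → ℕ) (he : ∀ i < R, e i ≤ e (i + 1)) (G0 : Set ℝ)
    (Suc : ℕ → Set ℝ) (i : ℕ) (hi : i ≤ R) : ∀ a ∈ gF e G0 Suc i, gcl (e i) a ⊆ G0 := by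
  classical
  induction i with
  | zero =>
    intro a h
    rw [gF, Finset.mem_filter] at h
    exact h.2
  | succ i ih =>
    intro b h
    rw [gF, Finset.mem_filter] at h
    exact (gcl_nest (he i (by omega))).trans (ih (by omega) _ h.2.1)

/-- one step -/
private lemma grid_step (n m : ℕ) (hnm : n ≤ m) (F F' : Finset ℕ) (Su : Set ℝ)
    (hm : MeasurableSet Su) (h : ℝ → ℝ) (hh0 : ∀ t, 0 ≤ h t) (hhi : IntegrableOn h (Ico 1 2))
    (C0 δ η : ℝ) (hC : 0 < C0) (hδ : 0 < δ) (hη : 0 < η) (hh : ∫ t in Ico 1 2, h t ≤ C0)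
    (hF : ∀ a ∈ F, a < 2 ^ n)
    (hF' : ∀ b ∈ F', b / 2 ^ (m - n) ∈ F ∧ ¬ (Su ∩ gcl m b).Nonempty)
    (hsuc : ∀ a ∈ F, ∫ t in gcl n a, h t ≤ C0 / δ * (1 / 2 ^ n) →
      ENNReal.ofReal (η * (1 / 2 ^ n)) ≤ volume (Su ∩ gcl n a)) :
    (F'.card : ℝ) * (1 / 2 ^ m) ≤ (1 - η) * (F.card * (1 / 2 ^ n)) + η * δ := by
  classical
  set Good := F.filter (fun a => ∫ t in gcl n a, h t ≤ C0 / δ * (1 / 2 ^ n)) with hGood
  set Bad := F.filter (fun a => ¬ ∫ t in gcl n a, h t ≤ C0 / δ * (1 / 2 ^ n)) with hBad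
  have hcard : (Good.card : ℝ) + Bad.card = F.card := by
    rw [hGood, hBad]
    exact_mod_cast Finset.card_filter_add_card_filter_not _
  have hn : (0 : ℝ) < 1 / 2 ^ n := by positivity
  -- the bad ones
  have hbad : (Bad.card : ℝ) * (1 / 2 ^ n) ≤ δ := by
    have h1 : (Bad.card : ℝ) * (C0 / δ * (1 / 2 ^ n)) ≤ ∑ a ∈ Bad, ∫ t in gcl n a, h t := by
      rw [← nsmul_eq_mul, ← Finset.sum_const]
      refine Finset.sum_le_sum fun a ha => ?_
      exact (lt_of_not_ge (Finset.mem_filter.1 ha).2).le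
    have h2 : ∑ a ∈ Bad, ∫ t in gcl n a, h t = ∫ t in ⋃ a ∈ Bad, gcl n a, h t := by
      rw [integral_biUnion_finset Bad (fun a _ => gcl_meas n a)
        (fun a _ b _ hab => gcl_disj hab)]
      intro a ha
      exact hhi.mono_set (gcl_sub (hF a (Finset.mem_filter.1 ha).1))
    have h3 : ∫ t in ⋃ a ∈ Bad, gcl n a, h t ≤ ∫ t in Ico 1 2, h t := by
      refine setIntegral_mono_set hhi (Filter.Eventually.of_forall hh0) ?_
      refine Filter.Eventually.of_forall ?_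
      exact iUnion₂_subset fun a ha => gcl_sub (hF a (Finset.mem_filter.1 ha).1)
    have h4 : (Bad.card : ℝ) * (C0 / δ * (1 / 2 ^ n)) ≤ C0 := by
      linarith [h1, h2.le, h3, hh]
    have h5 : (Bad.card : ℝ) * (C0 / δ * (1 / 2 ^ n)) =
        C0 / δ * (Bad.card * (1 / 2 ^ n)) := by ring
    rw [h5, div_mul_eq_mul_div, div_le_iff₀ hδ] at h4
    exact le_of_mul_le_mul_left h4 hC
  -- the measure
  have hU : (⋃ b ∈ F', gcl m b) ⊆ (⋃ a ∈ F, gcl n a) \ Su := by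
    refine iUnion₂_subset fun b hb => ?_
    intro t ht
    obtain ⟨h1, h2⟩ := hF' b hb
    refine ⟨mem_iUnion₂.2 ⟨_, h1, gcl_nest hnm ht⟩, fun h3 => h2 ⟨t, h3, ht⟩⟩
  have h1 : volume (⋃ b ∈ F', gcl m b) + volume ((⋃ a ∈ F, gcl n a) ∩ Su) ≤
      volume (⋃ a ∈ F, gcl n a) := by
    rw [← measure_inter_add_sdiff (⋃ a ∈ F, gcl n a) hm, add_comm]
    exact add_le_add le_rfl (measure_mono hU)
  have h2 : ENNReal.ofReal (Good.card * (η * (1 / 2 ^ n))) ≤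
      volume ((⋃ a ∈ F, gcl n a) ∩ Su) := by
    have h3 : (⋃ a ∈ Good, (Su ∩ gcl n a)) ⊆ (⋃ a ∈ F, gcl n a) ∩ Su := by
      refine iUnion₂_subset fun a ha => ?_
      rintro t ⟨ht1, ht2⟩
      exact ⟨mem_iUnion₂.2 ⟨a, (Finset.mem_filter.1 ha).1, ht2⟩, ht1⟩
    refine le_trans ?_ (measure_mono h3)
    rw [measure_biUnion_finset
      (fun a _ b _ hab => (gcl_disj hab).mono inter_subset_right inter_subset_right)
      (fun a _ => hm.inter (gcl_meas n a)), ENNReal.ofReal_mul (Nat.cast_nonneg _),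
      ENNReal.ofReal_natCast, ← nsmul_eq_mul, ← Finset.sum_const]
    exact Finset.sum_le_sum fun a ha => hsuc a (Finset.mem_filter.1 ha).1 (Finset.mem_filter.1 ha).2
  have h3 : ENNReal.ofReal (F'.card * (1 / 2 ^ m)) + ENNReal.ofReal (Good.card * (η * (1 / 2 ^ n)))
      ≤ ENNReal.ofReal (F.card * (1 / 2 ^ n)) := by
    rw [← gcl_union_vol n F, ← gcl_union_vol m F']
    exact (add_le_add le_rfl h2).trans h1
  rw [← ENNReal.ofReal_add (by positivity) (by positivity),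
    ENNReal.ofReal_le_ofReal_iff (by positivity)] at h3
  have h4 : (Good.card : ℝ) = F.card - Bad.card := by linarith
  rw [h4] at h3
  have h5 : η * ((Bad.card : ℝ) * (1 / 2 ^ n)) ≤ η * δ := mul_le_mul_of_nonneg_left hbad hη.le
  nlinarith

/-- iteration over scales on the dyadic grid of `[1,2)` -/
theorem grid (R : ℕ) (e : ℕ → ℕ) (he : ∀ i < R, e i ≤ e (i + 1)) (G0 : Set ℝ)
    (hG : G0.OrdConnected)
    (Suc Suc' : ℕ → Set ℝ) (hm : ∀ i < R, MeasurableSet (Suc i))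
    (h : ℕ → ℝ → ℝ) (hh0 : ∀ i < R, ∀ t, 0 ≤ h i t)
    (hhi : ∀ i < R, IntegrableOn (h i) (Ico 1 2))
    (C0 δ η : ℝ) (hC : 0 < C0) (hδ : 0 < δ) (hη : 0 < η) (hη1 : η ≤ 1)
    (hh : ∀ i < R, ∫ t in Ico 1 2, h i t ≤ C0)
    (hsuc : ∀ i < R, ∀ a : ℕ, a < 2 ^ e i →
      Ico (1 + (a : ℝ) / 2 ^ e i) (1 + ((a : ℝ) + 1) / 2 ^ e i) ⊆ G0 →
      ∫ t in Ico (1 + (a : ℝ) / 2 ^ e i) (1 + ((a : ℝ) + 1) / 2 ^ e i), h i t
        ≤ C0 / δ * (1 / 2 ^ e i) →
      ENNReal.ofReal (η * (1 / 2 ^ e i)) ≤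
        volume (Suc i ∩ Ico (1 + (a : ℝ) / 2 ^ e i) (1 + ((a : ℝ) + 1) / 2 ^ e i)))
    (hsat : ∀ i < R, ∀ a : ℕ, a < 2 ^ e (i + 1) →
      (Suc i ∩ Ico (1 + (a : ℝ) / 2 ^ e (i + 1)) (1 + ((a : ℝ) + 1) / 2 ^ e (i + 1))).Nonempty →
      Ico (1 + (a : ℝ) / 2 ^ e (i + 1)) (1 + ((a : ℝ) + 1) / 2 ^ e (i + 1)) ⊆ Suc' i) :
    volume ((G0 ∩ Ico 1 2) \ ⋃ i < R, Suc' i) ≤
      ENNReal.ofReal ((1 - η) ^ R + δ + 2 / 2 ^ e 0) := by
  classical
  -- the measure of the remaining cells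
  have hf : ∀ i ≤ R, ((gF e G0 Suc i).card : ℝ) * (1 / 2 ^ e i) ≤ (1 - η) ^ i + δ := by
    intro i
    induction i with
    | zero =>
      intro _
      have h1 : ((gF e G0 Suc 0).card : ℝ) ≤ 2 ^ e 0 := by
        have h2 : (gF e G0 Suc 0).card ≤ (Finset.range (2 ^ e 0)).card :=
          Finset.card_le_card fun a ha => Finset.mem_range.2 (gF_lt e G0 Suc 0 a ha)
        rw [Finset.card_range] at h2
        exact_mod_cast h2
      have h3 : ((gF e G0 Suc 0).card : ℝ) * (1 / 2 ^ e 0) ≤ 1 := by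
        rw [mul_one_div, div_le_one (by positivity)]
        exact h1
      rw [pow_zero]
      linarith
    | succ i ih =>
      intro hi
      have hi' : i < R := by omega
      have h1 := grid_step (e i) (e (i + 1)) (he i hi') (gF e G0 Suc i) (gF e G0 Suc (i + 1))
        (Suc i) (hm i hi') (h i) (hh0 i hi') (hhi i hi') C0 δ η hC hδ hη (hh i hi')
        (gF_lt e G0 Suc i)
        (fun b hb => by
          rw [gF, Finset.mem_filter] at hb
          exact hb.2)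
        (fun a ha => hsuc i hi' a (gF_lt e G0 Suc i a ha) (gF_sub R e he G0 Suc i hi'.le a ha))
      have h2 := ih hi'.le
      have h3 : (1 - η) * (((gF e G0 Suc i).card : ℝ) * (1 / 2 ^ e i)) ≤
          (1 - η) * ((1 - η) ^ i + δ) := mul_le_mul_of_nonneg_left h2 (by linarith)
      calc ((gF e G0 Suc (i + 1)).card : ℝ) * (1 / 2 ^ e (i + 1))
          ≤ (1 - η) * (((gF e G0 Suc i).card : ℝ) * (1 / 2 ^ e i)) + η * δ := h1
        _ ≤ (1 - η) * ((1 - η) ^ i + δ) + η * δ := by linarith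
        _ = (1 - η) ^ (i + 1) + δ := by ring
  -- the boundary cells
  set B := (Finset.range (2 ^ e 0)).filter (fun a => (gcl (e 0) a ∩ G0).Nonempty ∧
    ¬ gcl (e 0) a ⊆ G0) with hB
  have hBcard : B.card ≤ 2 := by
    rcases B.eq_empty_or_nonempty with h0 | h0
    · rw [h0]; simp
    · have h1 : B ⊆ {B.min' h0, B.max' h0} := by
        intro b hb
        rw [Finset.mem_insert, Finset.mem_singleton]
        by_contra hne
        push Not at hne
        have h2 : B.min' h0 < b := lt_of_le_of_ne (B.min'_le b hb) (Ne.symm hne.1)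
        have h3 : b < B.max' h0 := lt_of_le_of_ne (B.le_max' b hb) hne.2
        have h4 := (Finset.mem_filter.1 (B.min'_mem h0)).2.1
        have h5 := (Finset.mem_filter.1 (B.max'_mem h0)).2.1
        obtain ⟨x, hx1, hx2⟩ := h4
        obtain ⟨z, hz1, hz2⟩ := h5
        apply (Finset.mem_filter.1 hb).2.2
        intro y hy
        have hp : (0 : ℝ) < 2 ^ e 0 := by positivity
        have hxy : x ≤ y := by
          have e1 : x < 1 + ((B.min' h0 : ℕ) + 1 : ℝ) / 2 ^ e 0 := hx1.2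
          have e2 : 1 + (b : ℝ) / 2 ^ e 0 ≤ y := hy.1
          have e3 : ((B.min' h0 : ℕ) + 1 : ℝ) ≤ b := by exact_mod_cast h2
          have e4 : ((B.min' h0 : ℕ) + 1 : ℝ) / 2 ^ e 0 ≤ (b : ℝ) / 2 ^ e 0 :=
            div_le_div_of_nonneg_right e3 hp.le
          linarith
        have hyz : y ≤ z := by
          have e1 : y < 1 + ((b : ℝ) + 1) / 2 ^ e 0 := hy.2
          have e2 : 1 + ((B.max' h0 : ℕ) : ℝ) / 2 ^ e 0 ≤ z := hz1.1
          have e3 : (b : ℝ) + 1 ≤ ((B.max' h0 : ℕ) : ℝ) := by exact_mod_cast h3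
          have e4 : ((b : ℝ) + 1) / 2 ^ e 0 ≤ ((B.max' h0 : ℕ) : ℝ) / 2 ^ e 0 :=
            div_le_div_of_nonneg_right e3 hp.le
          linarith
        exact hG.out hx2 hz2 ⟨hxy, hyz⟩
      exact (Finset.card_le_card h1).trans Finset.card_le_two
  -- the inclusion
  have hchain : ∀ t ∈ Ico (1 : ℝ) 2, (∀ i < R, t ∉ Suc' i) →
      (∃ a ∈ gF e G0 Suc 0, t ∈ gcl (e 0) a) → ∀ i ≤ R, ∃ a ∈ gF e G0 Suc i, t ∈ gcl (e i) a := by
    intro t ht hn h0 i
    induction i with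
    | zero => intro _; exact h0
    | succ i ih =>
      intro hi
      obtain ⟨a, ha, hta⟩ := ih (by omega)
      obtain ⟨b, hb, htb⟩ := gcl_exists (e (i + 1)) ht
      refine ⟨b, ?_, htb⟩
      rw [gF, Finset.mem_filter, Finset.mem_range]
      refine ⟨hb, ?_, ?_⟩
      · have h1 := gcl_nest (he i (by omega)) htb
        rw [mem_gcl ht.1] at h1 hta
        rw [← h1, hta]
        exact ha
      · intro hne
        exact hn i (by omega) (hsat i (by omega) b hb hne htb)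
  have hincl : (G0 ∩ Ico 1 2) \ ⋃ i < R, Suc' i ⊆
      (⋃ a ∈ gF e G0 Suc R, gcl (e R) a) ∪ ⋃ a ∈ B, gcl (e 0) a := by
    rintro t ⟨⟨htG, ht⟩, hn⟩
    have hn' : ∀ i < R, t ∉ Suc' i := fun i hi hti => hn (mem_iUnion₂.2 ⟨i, hi, hti⟩)
    obtain ⟨a, ha, hta⟩ := gcl_exists (e 0) ht
    by_cases hsub : gcl (e 0) a ⊆ G0
    · left
      obtain ⟨b, hb, htb⟩ := hchain t ht hn' ⟨a, by
        rw [gF, Finset.mem_filter, Finset.mem_range]
        exact ⟨ha, hsub⟩, hta⟩ R le_rfl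
      exact mem_iUnion₂.2 ⟨b, hb, htb⟩
    · right
      refine mem_iUnion₂.2 ⟨a, ?_, hta⟩
      rw [hB, Finset.mem_filter, Finset.mem_range]
      exact ⟨ha, ⟨t, hta, htG⟩, hsub⟩
  refine (measure_mono hincl).trans ((measure_union_le _ _).trans ?_)
  rw [gcl_union_vol, gcl_union_vol, ← ENNReal.ofReal_add (by positivity) (by positivity)]
  apply ENNReal.ofReal_le_ofReal
  have h1 := hf R le_rfl
  have h2 : (B.card : ℝ) * (1 / 2 ^ e 0) ≤ 2 / 2 ^ e 0 := by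
    rw [mul_one_div]
    exact div_le_div_of_nonneg_right (by exact_mod_cast hBcard) (by positivity)
  linarith

end Pool.Agent.VC
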