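import Mathlib

/-!
# Matchings: half degrees, distinct representatives, greedy scattering
-/

namespace Pool.Agent.VC

open Finset Classical

/-- Hall's theorem when every vertex rejects at most half of the other side. -/
theorem hall_half {A B : Type} [Fintype A] [Fintype B] (R : A → B → Prop)
    (hcard : Fintype.card A = Fintype.card B)
    (hrow : ∀ a, 2 * (univ.filter (fun b => ¬ R a b)).card ≤ Fintype.card A)
    (hcol : ∀ b, 2 * (univ.filter (fun a => ¬ R a b)).card ≤ Fintype.card A) :
    ∃ e : A ≃ B, ∀ a, R a (e a) := by
  have key : ∀ s : Finset A, s.card ≤ (s.biUnion (fun a => univ.filter (fun b => R a b))).card := by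
    intro s
    rcases s.eq_empty_or_nonempty with rfl | ⟨a, ha⟩
    · simp
    by_cases hN : s.biUnion (fun a => univ.filter (fun b => R a b)) = univ
    · rw [hN, card_univ, ← hcard]
      exact card_le_univ s
    · obtain ⟨b, hb⟩ : ∃ b, b ∉ s.biUnion (fun a => univ.filter (fun b => R a b)) := by
        by_contra hcon
        push Not at hcon
        exact hN (eq_univ_iff_forall.2 hcon)
      have h1 : s ⊆ univ.filter (fun a => ¬ R a b) := by
        intro x hx
        rw [mem_filter]
        refine ⟨mem_univ _, fun hR => hb ?_⟩
        rw [mem_biUnion]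
        exact ⟨x, hx, by simp [hR]⟩
      have h2 := card_le_card h1
      have h3 := hcol b
      have h4 := hrow a
      have h5 : (univ.filter (fun b => R a b)).card + (univ.filter (fun b => ¬ R a b)).card
          = Fintype.card B := by
        rw [card_filter_add_card_filter_not, card_univ]
      have h6 : univ.filter (fun b => R a b) ⊆
          s.biUnion (fun a => univ.filter (fun b => R a b)) :=
        subset_biUnion_of_mem (fun a => univ.filter (fun b => R a b)) ha
      have h7 := card_le_card h6
      omega
  obtain ⟨f, hf, hfR⟩ := (all_card_le_biUnion_card_iff_exists_injective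
    (fun a => univ.filter (fun b => R a b))).1 key
  have hbij : Function.Bijective f := (Fintype.bijective_iff_injective_and_card f).2 ⟨hf, hcard⟩
  refine ⟨Equiv.ofBijective f hbij, fun a => ?_⟩
  have := hfR a
  rw [mem_filter] at this
  exact this.2

/-- A bijection with prescribed lists on a small set `S`. -/
theorem exists_equiv_special {A B : Type} [Fintype A] [Fintype B]
    (hcard : Fintype.card A = Fintype.card B) (S : Finset A) (L : A → Finset B)
    (hL : ∀ a ∈ S, S.card ≤ (L a).card) :
    ∃ e : A ≃ B, ∀ a ∈ S, e a ∈ L a := by
  have key : ∀ s : Finset S, s.card ≤ (s.biUnion (fun a : S => L a)).card := by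
    intro s
    rcases s.eq_empty_or_nonempty with rfl | ⟨a, ha⟩
    · simp
    have h1 : s.card ≤ S.card := by
      have := card_le_univ s
      simpa using this
    have h2 := hL a a.2
    have h3 : L a ⊆ s.biUnion (fun a : S => L a) :=
      subset_biUnion_of_mem (fun a : S => L a) ha
    have h4 := card_le_card h3
    omega
  obtain ⟨f, hf, hfL⟩ := (all_card_le_biUnion_card_iff_exists_injective
    (fun a : S => L a)).1 key
  rcases S.eq_empty_or_nonempty with hS | ⟨a₀, ha₀⟩
  · subst hS
    exact ⟨Fintype.equivOfCardEq hcard, fun a ha => absurd ha (notMem_empty a)⟩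
  let g : A → B := fun a => if h : a ∈ S then f ⟨a, h⟩ else f ⟨a₀, ha₀⟩
  have hg : ∀ a (h : a ∈ S), g a = f ⟨a, h⟩ := fun a h => by simp [g, h]
  have hginj : Set.InjOn g S := by
    intro x hx y hy hxy
    rw [mem_coe] at hx hy
    rw [hg x hx, hg y hy] at hxy
    have := hf hxy
    simpa using this
  obtain ⟨e, he⟩ := exists_equiv_extend_of_card_eq (t := (univ : Finset B))
    (by rw [hcard, card_univ]) (s := S) (f := g) (subset_univ _) hginj
  refine ⟨e.trans (Equiv.subtypeUnivEquiv (fun b => mem_univ b)), fun a ha => ?_⟩
  have h1 := he a ha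
  have h2 := hfL ⟨a, ha⟩
  rw [hg a ha] at h1
  rw [← h1] at h2
  exact h2

/-- Greedy choice of pairwise non conflicting positions. -/
theorem exists_scatter {I Q : Type} [Fintype I] [Fintype Q] (conf : Q → Q → Prop)
    (hsymm : ∀ p q, conf p q → conf q p) (D : ℕ) (hD : 0 < D)
    (hconf : ∀ q, (univ.filter (fun p => conf q p)).card ≤ D)
    (L : I → Finset Q) (hL : ∀ i, Fintype.card I * D ≤ (L i).card) :
    ∃ f : I → Q, (∀ i, f i ∈ L i) ∧ ∀ i j, i ≠ j → ¬ conf (f i) (f j) := by
  have hne : ∀ i, (L i).Nonempty := by
    intro i
    rw [← card_pos]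
    have h1 : 0 < Fintype.card I := Fintype.card_pos_iff.2 ⟨i⟩
    exact lt_of_lt_of_le (Nat.mul_pos h1 hD) (hL i)
  have key : ∀ T : Finset I, ∃ f : I → Q, (∀ i, f i ∈ L i) ∧
      ∀ i ∈ T, ∀ j ∈ T, i ≠ j → ¬ conf (f i) (f j) := by
    intro T
    induction T using Finset.induction_on with
    | empty =>
      choose f hf using hne
      exact ⟨f, hf, fun i hi => absurd hi (notMem_empty i)⟩
    | insert a T ha ih =>
      obtain ⟨f, hf, hfc⟩ := ih
      have h1 : (T.biUnion (fun j => univ.filter (fun p => conf (f j) p))).card ≤ T.card * D :=
        card_biUnion_le_card_mul T _ D (fun j _ => hconf (f j))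
      have h2 : T.card < Fintype.card I := by
        have : (insert a T).card ≤ Fintype.card I := card_le_univ _
        rw [card_insert_of_notMem ha] at this
        omega
      have h3 : (T.biUnion (fun j => univ.filter (fun p => conf (f j) p))).card < (L a).card :=
        lt_of_le_of_lt h1 (lt_of_lt_of_le (Nat.mul_lt_mul_of_pos_right h2 hD) (hL a))
      obtain ⟨q, hq, hqn⟩ := exists_mem_notMem_of_card_lt_card h3
      have h4 : ∀ j ∈ T, ¬ conf (f j) q := by
        intro j hj hc
        apply hqn
        rw [mem_biUnion]
        exact ⟨j, hj, by simp [hc]⟩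
      refine ⟨Function.update f a q, ?_, ?_⟩
      · intro i
        by_cases hi : i = a
        · subst hi
          rw [Function.update_self]
          exact hq
        · rw [Function.update_of_ne hi]
          exact hf i
      · intro i hi j hj hij
        by_cases hia : i = a
        · subst hia
          have hja : j ≠ i := fun h => hij h.symm
          have hjT : j ∈ T := (mem_insert.1 hj).resolve_left hja
          rw [Function.update_self, Function.update_of_ne hja]
          exact fun hc => h4 j hjT (hsymm _ _ hc)
        · have hiT : i ∈ T := (mem_insert.1 hi).resolve_left hia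
          rw [Function.update_of_ne hia]
          by_cases hja : j = a
          · subst hja
            rw [Function.update_self]
            exact h4 i hiT
          · have hjT : j ∈ T := (mem_insert.1 hj).resolve_left hja
            rw [Function.update_of_ne hja]
            exact hfc i hiT j hjT hij
  obtain ⟨f, hf, hfc⟩ := key univ
  exact ⟨f, hf, fun i j hij => hfc i (mem_univ i) j (mem_univ j) hij⟩

end Pool.Agent.VC
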