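import Pool.Agent.VC.Auto

/-!
# Project VC: the interleaving of the two coordinates (helper63)
-/

set_option autoImplicit false

open MeasureTheory Set

namespace Pool.Agent.VC

/-- the interleaving of the refinements of the two coordinates, the second one scaled by
`2^{-d}`, after `k0` refinements of the first coordinate -/
structure Inter (lam : ℕ → ℝ) (d : ℕ) where
  S : Sys
  k0 : ℕ
  ix : ℕ → ℕ
  iy : ℕ → ℕ
  k0_le : k0 ≤ d
  ix0 : ix 0 = k0
  iy0 : iy 0 = 0
  step : ∀ n, (ix (n + 1) = ix n + 1 ∧ iy (n + 1) = iy n) ∨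
    (ix (n + 1) = ix n ∧ iy (n + 1) = iy n + 1)
  hP : ∀ n, S.P n = side lam (ix n)
  hQ : ∀ n, S.Q n = (1 / 2) ^ d * side lam (iy n)

open Classical in
/-- the states of the interleaving -/
private noncomputable def ist (lam : ℕ → ℝ) (d k0 : ℕ) : ℕ → ℕ × ℕ
  | 0 => (k0, 0)
  | n + 1 =>
    if (1 / 2) ^ d * side lam (ist lam d k0 n).2 ≤ side lam (ist lam d k0 n).1 then
      ((ist lam d k0 n).1 + 1, (ist lam d k0 n).2)
    else ((ist lam d k0 n).1, (ist lam d k0 n).2 + 1)

private theorem int_pos (lam : ℕ → ℝ) (h : ∀ k, 1 / 4 ≤ lam k ∧ lam k ≤ 1 / 2) (k : ℕ) :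
    0 < side lam k := by
  induction k with
  | zero => simp [side]
  | succ k ih =>
    have h1 : 0 < lam k := by linarith [(h k).1]
    simp only [side]
    exact mul_pos h1 ih

private theorem int_le (lam : ℕ → ℝ) (h : ∀ k, 1 / 4 ≤ lam k ∧ lam k ≤ 1 / 2) (k : ℕ) :
    side lam k ≤ (1 / 2) ^ k := by
  induction k with
  | zero => simp [side]
  | succ k ih =>
    have h1 : 0 < lam k := by linarith [(h k).1]
    simp only [side]
    rw [pow_succ, mul_comm ((1 / 2 : ℝ) ^ k)]
    exact mul_le_mul (h k).2 ih (int_pos lam h k).le (by norm_num)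

/-- one step of the interleaving -/
private theorem int_step (lam : ℕ → ℝ) (h : ∀ k, 1 / 4 ≤ lam k ∧ lam k ≤ 1 / 2) (d k0 n : ℕ) :
    ((1 / 2) ^ d * side lam (ist lam d k0 n).2 ≤ side lam (ist lam d k0 n).1 ∧
      ist lam d k0 (n + 1) = ((ist lam d k0 n).1 + 1, (ist lam d k0 n).2) ∧
      (1 / 2) ^ d * side lam (ist lam d k0 (n + 1)).2 = (1 / 2) ^ d * side lam (ist lam d k0 n).2 ∧
      1 / 4 * side lam (ist lam d k0 n).1 ≤ side lam (ist lam d k0 (n + 1)).1 ∧
      side lam (ist lam d k0 (n + 1)).1 ≤ 1 / 2 * side lam (ist lam d k0 n).1) ∨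
    (side lam (ist lam d k0 n).1 < (1 / 2) ^ d * side lam (ist lam d k0 n).2 ∧
      ist lam d k0 (n + 1) = ((ist lam d k0 n).1, (ist lam d k0 n).2 + 1) ∧
      side lam (ist lam d k0 (n + 1)).1 = side lam (ist lam d k0 n).1 ∧
      1 / 4 * ((1 / 2) ^ d * side lam (ist lam d k0 n).2) ≤
        (1 / 2) ^ d * side lam (ist lam d k0 (n + 1)).2 ∧
      (1 / 2) ^ d * side lam (ist lam d k0 (n + 1)).2 ≤
        1 / 2 * ((1 / 2) ^ d * side lam (ist lam d k0 n).2)) := by
  by_cases hc : (1 / 2) ^ d * side lam (ist lam d k0 n).2 ≤ side lam (ist lam d k0 n).1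
  · have e : ist lam d k0 (n + 1) = ((ist lam d k0 n).1 + 1, (ist lam d k0 n).2) := by
      rw [ist, if_pos hc]
    left
    refine ⟨hc, e, by rw [e], ?_, ?_⟩
    · rw [e]
      simp only [side]
      exact mul_le_mul_of_nonneg_right (h _).1 (int_pos lam h _).le
    · rw [e]
      simp only [side]
      exact mul_le_mul_of_nonneg_right (h _).2 (int_pos lam h _).le
  · have e : ist lam d k0 (n + 1) = ((ist lam d k0 n).1, (ist lam d k0 n).2 + 1) := by
      rw [ist, if_neg hc]
    right
    have hp : (0 : ℝ) < (1 / 2) ^ d := by positivity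
    refine ⟨not_le.1 hc, e, by rw [e], ?_, ?_⟩
    · rw [e]
      simp only [side]
      have := mul_le_mul_of_nonneg_right (h (ist lam d k0 n).2).1
        (mul_pos hp (int_pos lam h (ist lam d k0 n).2)).le
      linarith
    · rw [e]
      simp only [side]
      have := mul_le_mul_of_nonneg_right (h (ist lam d k0 n).2).2
        (mul_pos hp (int_pos lam h (ist lam d k0 n).2)).le
      linarith

theorem exists_inter (lam : ℕ → ℝ) (h : ∀ k, 1 / 4 ≤ lam k ∧ lam k ≤ 1 / 2) (d : ℕ) (hd : 1 ≤ d) :
    Nonempty (Inter lam d) := by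
  classical
  have hp : (0 : ℝ) < (1 / 2) ^ d := by positivity
  have hex : ∃ k, side lam k ≤ 4 * (1 / 2) ^ d := ⟨d, by linarith [int_le lam h d]⟩
  let k0 := Nat.find hex
  have hk0 : side lam k0 ≤ 4 * (1 / 2) ^ d := Nat.find_spec hex
  have hk0d : k0 ≤ d := Nat.find_min' hex (by linarith [int_le lam h d])
  have hk1 : (1 / 2) ^ d ≤ 4 * side lam k0 := by
    have hp1 : ((1 : ℝ) / 2) ^ d ≤ 1 := pow_le_one₀ (by norm_num) (by norm_num)
    rcases Nat.eq_zero_or_pos k0 with h0 | h0
    · rw [h0]
      simp only [side]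
      linarith
    · obtain ⟨m, hm⟩ := Nat.exists_eq_succ_of_ne_zero h0.ne'
      have h1 : ¬ side lam m ≤ 4 * (1 / 2) ^ d := Nat.find_min hex (by omega)
      rw [hm]
      simp only [side]
      have h2 := mul_le_mul_of_nonneg_right (h m).1 (int_pos lam h m).le
      linarith
  let P : ℕ → ℝ := fun n => side lam (ist lam d k0 n).1
  let Q : ℕ → ℝ := fun n => (1 / 2) ^ d * side lam (ist lam d k0 n).2
  have hPp : ∀ n, 0 < P n := fun n => int_pos lam h _
  have hQp : ∀ n, 0 < Q n := fun n => mul_pos hp (int_pos lam h _)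
  have hst : ∀ n, (Q n ≤ P n ∧ Q (n + 1) = Q n ∧ 1 / 4 * P n ≤ P (n + 1) ∧
      P (n + 1) ≤ 1 / 2 * P n) ∨ (P n < Q n ∧ P (n + 1) = P n ∧ 1 / 4 * Q n ≤ Q (n + 1) ∧
      Q (n + 1) ≤ 1 / 2 * Q n) := by
    intro n
    rcases int_step lam h d k0 n with ⟨a, _, c⟩ | ⟨a, _, c⟩
    · exact Or.inl ⟨a, c⟩
    · exact Or.inr ⟨a, c⟩
  have hr : ∀ n, P n ≤ 4 * Q n ∧ Q n ≤ 4 * P n := by
    intro n
    induction n with
    | zero =>
      constructor
      · have : P 0 = side lam k0 := rfl
        have h2 : Q 0 = (1 / 2) ^ d * side lam 0 := rfl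
        rw [this, h2]
        simp only [side]
        linarith
      · have : P 0 = side lam k0 := rfl
        have h2 : Q 0 = (1 / 2) ^ d * side lam 0 := rfl
        rw [this, h2]
        simp only [side]
        linarith
    | succ n ih =>
      have h3 := hPp n
      have h4 := hQp n
      rcases hst n with ⟨a, b, c, e⟩ | ⟨a, b, c, e⟩
      · rw [b]
        constructor <;> linarith [ih.1, ih.2]
      · rw [b]
        constructor <;> linarith [ih.1, ih.2]
  let p : ℕ → ℝ := fun n => if n = 0 then P 0 else P (n - 1) - P n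
  let q : ℕ → ℝ := fun n => if n = 0 then 0 else Q (n - 1) - Q n
  have hp0 : p 0 = P 0 := by simp [p]
  have hq0 : q 0 = 0 := by simp [q]
  have hp1 : ∀ n, p (n + 1) = P n - P (n + 1) := fun n => by simp [p]
  have hq1 : ∀ n, q (n + 1) = Q n - Q (n + 1) := fun n => by simp [q]
  let S : Sys := {
    p := p
    q := q
    P := P
    Q := Q
    hP := fun i => by rw [hp1]; ring
    hQ := fun i => by rw [hq1]; ring
    Ppos := hPp
    Qpos := hQp
    dig := by
      intro i
      cases i with
      | zero =>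
        left
        rw [hp0, hq0]
        have := hPp 0
        refine ⟨rfl, le_rfl, by linarith⟩
      | succ n =>
        rw [hp1, hq1]
        rcases hst n with ⟨a, b, c, e⟩ | ⟨a, b, c, e⟩
        · left
          refine ⟨by rw [b]; ring, by linarith, by linarith⟩
        · right
          refine ⟨by rw [b]; ring, by linarith, by linarith⟩
    ratio := hr
    touch := by
      intro i t h1 h2
      cases i with
      | zero =>
        rw [hp0, hq0]
        have := hPp 0
        have h3 : 0 < t * Q 0 := mul_pos (by linarith) (hQp 0)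
        linarith
      | succ n =>
        rw [hp1, hq1]
        have h3 := hPp n
        have h4 := hQp n
        have h5 := hr n
        rcases hst n with ⟨a, b, c, e⟩ | ⟨a, b, c, e⟩
        · rw [b]
          have h6 : Q n ≤ t * Q n := by nlinarith
          linarith
        · rw [b]
          have h6 : t * Q n ≤ 2 * Q n := by nlinarith
          have h7 : t * (1 / 4 * Q n) ≤ t * Q (n + 1) := mul_le_mul_of_nonneg_left c (by linarith)
          linarith
    good3 := by
      intro i t h1 h2
      -- criterion for a step to be good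
      have gx : ∀ n, Q n ≤ P n → P n ≤ 2 * (t * Q n) →
          p (n + 1) + t * q (n + 1) ≤ P (n + 1) + t * Q (n + 1) := by
        intro n hn1 hn2
        rw [hp1, hq1]
        rcases hst n with ⟨a, b, c, e⟩ | ⟨a, b, c, e⟩
        · rw [b]
          linarith
        · exact absurd a (not_lt.2 hn1)
      have gy : ∀ n, P n < Q n → t * Q n ≤ 2 * P n →
          p (n + 1) + t * q (n + 1) ≤ P (n + 1) + t * Q (n + 1) := by
        intro n hn1 hn2
        rw [hp1, hq1]
        rcases hst n with ⟨a, b, c, e⟩ | ⟨a, b, c, e⟩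
        · exact absurd hn1 (not_lt.2 a)
        · rw [b]
          have h7 : t * (1 / 4 * Q n) ≤ t * Q (n + 1) := mul_le_mul_of_nonneg_left c (by linarith)
          linarith
      have h3 := hPp i
      have h4 := hQp i
      have h5 := hr i
      have ht4 : Q i ≤ t * Q i := by nlinarith
      rcases hst i with ⟨a, b, c, e⟩ | ⟨a, b, c, e⟩
      · by_cases hg : P i ≤ 2 * (t * Q i)
        · exact ⟨i + 1, by omega, by omega, gx i a hg⟩
        · rw [not_le] at hg
          refine ⟨i + 1 + 1, by omega, by omega, ?_⟩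
          rcases hst (i + 1) with ⟨a', _⟩ | ⟨a', _⟩
          · refine gx (i + 1) a' ?_
            rw [b]
            linarith
          · refine gy (i + 1) a' ?_
            rw [b]
            linarith
      · by_cases hg : t * Q i ≤ 2 * P i
        · exact ⟨i + 1, by omega, by omega, gy i a hg⟩
        · rw [not_le] at hg
          have h7 : t * (1 / 4 * Q i) ≤ t * Q (i + 1) := mul_le_mul_of_nonneg_left c (by linarith)
          rcases hst (i + 1) with ⟨a', b', c', e'⟩ | ⟨a', b', c', e'⟩
          · refine ⟨i + 1 + 1, by omega, by omega, gx (i + 1) a' ?_⟩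
            rw [b]
            linarith
          · by_cases hg2 : t * Q (i + 1) ≤ 2 * P (i + 1)
            · exact ⟨i + 1 + 1, by omega, by omega, gy (i + 1) a' hg2⟩
            · rw [not_le] at hg2
              have h8 : t * (1 / 4 * Q (i + 1)) ≤ t * Q (i + 1 + 1) :=
                mul_le_mul_of_nonneg_left c' (by linarith)
              refine ⟨i + 1 + 1 + 1, by omega, by omega, gx (i + 1 + 1) ?_ ?_⟩
              · rw [b', b]
                linarith
              · rw [b']
                linarith }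
  refine ⟨⟨S, k0, fun n => (ist lam d k0 n).1, fun n => (ist lam d k0 n).2, hk0d, rfl, rfl, ?_,
    fun n => rfl, fun n => rfl⟩⟩
  intro n
  rcases int_step lam h d k0 n with ⟨_, e, _⟩ | ⟨_, e, _⟩
  · left
    rw [e]
    exact ⟨rfl, rfl⟩
  · right
    rw [e]
    exact ⟨rfl, rfl⟩

end Pool.Agent.VC
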