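import Pool.Agent.VC.Block
import Pool.Agent.VC.Auto

set_option autoImplicit false

open MeasureTheory Set

namespace Pool.Agent.VC
namespace Sys

lemma taL_upper (S : Sys) (n : ℕ) (t : ℝ) (h1 : 1 ≤ t) (h2 : t ≤ 2) :
    S.ta n * (2 ^ n * S.L n t) ≤ 5 := by
  have e1 := S.ta_r_upper n
  have e2 := S.L_le_r n t h1 h2
  have e3 := S.ta_pos n
  have e4 : (0:ℝ) < 2 ^ n := by positivity
  have : S.ta n * (2 ^ n * S.L n t) ≤ S.ta n * (2 ^ n * (2 * S.r n)) := by gcongr
  nlinarith

lemma taL_lower (S : Sys) (n : ℕ) (t : ℝ) (h1 : 1 ≤ t) :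
    2 ≤ S.ta n * (2 ^ n * S.L n t) := by
  have e1 := S.ta_r_lower n
  have e2 := S.r_le_L n t h1
  have e3 := S.ta_pos n
  have : S.ta n * (2 ^ n * S.r n) ≤ S.ta n * (2 ^ n * S.L n t) := by gcongr
  nlinarith

/-- cost of a block -/
lemma cost (S : Sys) (G : Finset ℕ) (j0 n m : ℕ) (X : ℝ)
    (hX : ∑ k ∈ G with (n < k ∧ k + j0 < m), S.ta k < X) :
    ∑ k ∈ G with (n < k ∧ k ≤ m), S.A k ≤ S.ta n * X + (j0 + 1) * S.ta n ^ 2 := by
  have h0 := S.ta_pos n
  have hsq : ∀ k, n < k → S.A k ≤ S.ta n * S.ta k := by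
    intro k hk
    rw [← S.ta_sq k, sq]
    exact mul_le_mul_of_nonneg_right (S.ta_anti hk.le) (S.ta_pos k).le
  have hsplit : ∑ k ∈ G with (n < k ∧ k ≤ m), S.A k ≤
      ∑ k ∈ G with (n < k ∧ k + j0 < m), S.A k +
      ∑ k ∈ Finset.Icc (m - j0) m with n < k, S.A k := by
    rw [← Finset.sum_filter_add_sum_filter_not (G.filter (fun k => n < k ∧ k ≤ m))
      (fun k => k + j0 < m)]
    apply add_le_add
    · apply Finset.sum_le_sum_of_subset_of_nonneg
      · intro k hk
        simp only [Finset.mem_filter] at hk ⊢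
        exact ⟨hk.1.1, hk.1.2.1, hk.2⟩
      · intro k _ _
        exact (S.A_pos k).le
    · apply Finset.sum_le_sum_of_subset_of_nonneg
      · intro k hk
        simp only [Finset.mem_filter, Finset.mem_Icc] at hk ⊢
        omega
      · intro k _ _
        exact (S.A_pos k).le
  have hA : ∑ k ∈ G with (n < k ∧ k + j0 < m), S.A k ≤ S.ta n * X := by
    calc ∑ k ∈ G with (n < k ∧ k + j0 < m), S.A k
        ≤ ∑ k ∈ G with (n < k ∧ k + j0 < m), S.ta n * S.ta k := by
          apply Finset.sum_le_sum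
          intro k hk
          exact hsq k (Finset.mem_filter.1 hk).2.1
      _ = S.ta n * ∑ k ∈ G with (n < k ∧ k + j0 < m), S.ta k := by rw [Finset.mul_sum]
      _ ≤ S.ta n * X := mul_le_mul_of_nonneg_left hX.le h0.le
  have hB : ∑ k ∈ Finset.Icc (m - j0) m with n < k, S.A k ≤ (j0 + 1) * S.ta n ^ 2 := by
    calc ∑ k ∈ Finset.Icc (m - j0) m with n < k, S.A k
        ≤ ∑ k ∈ Finset.Icc (m - j0) m with n < k, S.ta n ^ 2 := by
          apply Finset.sum_le_sum
          intro k hk
          have hk2 := (Finset.mem_filter.1 hk).2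
          rw [S.ta_sq]
          exact S.A_anti hk2.le
      _ = ((Finset.Icc (m - j0) m).filter (fun k => n < k)).card * S.ta n ^ 2 := by
          rw [Finset.sum_const, nsmul_eq_mul]
      _ ≤ (j0 + 1) * S.ta n ^ 2 := by
          apply mul_le_mul_of_nonneg_right _ (by positivity)
          have c1 := Finset.card_filter_le (Finset.Icc (m - j0) m) (fun k => n < k)
          have c2 : (Finset.Icc (m - j0) m).card ≤ j0 + 1 := by
            rw [Nat.card_Icc]; omega
          exact_mod_cast c1.trans c2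
  linarith

/-- the lower bound of the `L²` norm in a completed block -/
lemma hXof (S : Sys) (t : ℝ) (h1 : 1 ≤ t) (h2 : t ≤ 2) (c0 : ℝ) (hc0 : 0 < c0) (j0 : ℕ)
    (N : ℕ) (G : Finset ℕ)
    (hG : ∀ k ∈ G, 1 ≤ k ∧ k ≤ N ∧ ∀ g, j0 ≤ g → S.ta k ≤ 2 * S.ta (k + g) → c0 ≤ S.z k g t)
    (n j : ℕ) (H : ℝ) (hH : 0 < H) (hta : S.ta n ≤ 2 * S.ta (n + j))
    (hb : 32 / c0 * H * S.ta n ≤ ∑ k ∈ G with (n < k ∧ k + j0 ≤ n + j), S.ta k) :
    2 * H * (2 ^ j * S.Lt t (n + j)) <
      ∫ x, cnt (sh n (S.vt t)) (sh n (S.Lt t)) j x ^ 2 := by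
  refine lt_of_lt_of_le ?_ (S.xlow' n j t h1 h2)
  have h0 := S.ta_pos n
  have hm := S.ta_pos (n + j)
  have hsum : 32 * H * S.ta n ≤
      ∑ k ∈ Finset.Icc 1 j, S.ta (n + k) * S.z (n + k) (j - k) t := by
    have e1 : ∑ k ∈ Finset.Icc 1 j, S.ta (n + k) * S.z (n + k) (j - k) t =
        ∑ k ∈ Finset.Icc (n + 1) (n + j), S.ta k * S.z k (n + j - k) t := by
      rw [← Finset.image_add_left_Icc, Finset.sum_image]
      · apply Finset.sum_congr rfl
        intro k _
        rw [Nat.add_sub_add_left]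
      · intro a _ b _ hab
        exact Nat.add_left_cancel hab
    rw [e1]
    calc 32 * H * S.ta n = c0 * (32 / c0 * H * S.ta n) := by field_simp
      _ ≤ c0 * ∑ k ∈ G with (n < k ∧ k + j0 ≤ n + j), S.ta k :=
          mul_le_mul_of_nonneg_left hb hc0.le
      _ = ∑ k ∈ G with (n < k ∧ k + j0 ≤ n + j), c0 * S.ta k := by rw [Finset.mul_sum]
      _ ≤ ∑ k ∈ G with (n < k ∧ k + j0 ≤ n + j), S.ta k * S.z k (n + j - k) t := by
          apply Finset.sum_le_sum
          intro k hk
          rw [Finset.mem_filter] at hk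
          have hk1 := hG k hk.1
          have hz : c0 ≤ S.z k (n + j - k) t := by
            apply hk1.2.2 (n + j - k) (by omega)
            rw [Nat.add_sub_cancel' (by omega)]
            exact (S.ta_anti hk.2.1.le).trans hta
          rw [mul_comm]
          exact mul_le_mul_of_nonneg_left hz (S.ta_pos k).le
      _ ≤ ∑ k ∈ Finset.Icc (n + 1) (n + j), S.ta k * S.z k (n + j - k) t := by
          apply Finset.sum_le_sum_of_subset_of_nonneg
          · intro k hk
            rw [Finset.mem_filter] at hk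
            rw [Finset.mem_Icc]
            omega
          · intro k _ _
            exact mul_nonneg (S.ta_pos k).le (S.z_nonneg k _ t)
  have hL1 : 2 / (2 ^ n * S.ta n) ≤ S.L n t := by
    have := S.taL_lower n t h1
    rw [div_le_iff₀ (by positivity)]
    nlinarith
  have hL2 : 2 ^ j * S.Lt t (n + j) ≤ 10 / (2 ^ n * S.ta n) := by
    have := S.taL_upper (n + j) t h1 h2
    unfold Lt
    have hLp := S.L_pos (n + j) t (by linarith)
    rw [le_div_iff₀ (by positivity)]
    have e : 2 ^ j * S.L (n + j) t * (2 ^ n * S.ta n) =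
      S.ta n * (2 ^ (n + j) * S.L (n + j) t) := by rw [pow_add]; ring
    rw [e]
    calc S.ta n * (2 ^ (n + j) * S.L (n + j) t)
        ≤ (2 * S.ta (n + j)) * (2 ^ (n + j) * S.L (n + j) t) := by gcongr
      _ ≤ 10 := by nlinarith
  have hsn : 0 ≤ ∑ k ∈ Finset.Icc 1 j, S.ta (n + k) * S.z (n + k) (j - k) t :=
    le_trans (by positivity) hsum
  calc 2 * H * (2 ^ j * S.Lt t (n + j)) ≤ 2 * H * (10 / (2 ^ n * S.ta n)) := by gcongr
    _ < 8 / 25 * (2 / (2 ^ n * S.ta n) / S.ta n) * (32 * H * S.ta n) := by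
        have e : 8 / 25 * (2 / (2 ^ n * S.ta n) / S.ta n) * (32 * H * S.ta n) =
          512 / 25 * H / (2 ^ n * S.ta n) := by
          field_simp
          ring
        rw [e]
        have e' : 2 * H * (10 / (2 ^ n * S.ta n)) = 20 * H / (2 ^ n * S.ta n) := by ring
        rw [e']
        apply div_lt_div_of_pos_right _ (by positivity)
        nlinarith
    _ ≤ 8 / 25 * (S.L n t / S.ta n) * (32 * H * S.ta n) := by gcongr
    _ ≤ _ := by
        apply mul_le_mul_of_nonneg_left hsum
        have := S.L_pos n t (by linarith)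
        positivity

/-- the claim of the iteration -/
lemma iterClaim (S : Sys) (t : ℝ) (h1 : 1 ≤ t) (h2 : t ≤ 2) (c0 : ℝ) (hc0 : 0 < c0) (j0 : ℕ)
    (N : ℕ) (G : Finset ℕ)
    (hG : ∀ k ∈ G, 1 ≤ k ∧ k ≤ N ∧ ∀ g, j0 ≤ g → S.ta k ≤ 2 * S.ta (k + g) → c0 ≤ S.z k g t)
    (K : ℝ) (hK : S.ta 0 ≤ K) :
    ∀ d n : ℕ, n + d = N → ∀ F : Finset ℕ, (∀ w ∈ F, w < 2 ^ n) →
      16 * (32 / c0 + j0 + 2) * (K ^ 2 * (F.card / 2 ^ n) + K * S.ta n) ≤
        ∑ k ∈ G with n < k, S.A k →
      volume (fam (S.vt t) (S.Lt t) n F N) ≤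
        ENNReal.ofReal (300 / K * Real.sqrt (F.card / 2 ^ n)) := by
  intro d
  induction d using Nat.strong_induction_on with
  | _ d ih =>
  intro n hn F hF hsum
  have hK0 : 0 < K := lt_of_lt_of_le (S.ta_pos 0) hK
  have ha := S.ta_pos n
  have haK : S.ta n ≤ K := (S.ta_anti (Nat.zero_le n)).trans hK
  obtain ⟨C2, hC2⟩ : ∃ C2 : ℝ, C2 = 32 / c0 := ⟨_, rfl⟩
  rw [← hC2] at hsum
  have hC2p : 0 < C2 := by rw [hC2]; positivity
  obtain ⟨u, hu⟩ : ∃ u : ℝ, u = (F.card : ℝ) / 2 ^ n := ⟨_, rfl⟩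
  rw [← hu] at hsum ⊢
  have hu0 : 0 ≤ u := by rw [hu]; positivity
  have hu1 : u ≤ 1 := by
    rw [hu, div_le_one (by positivity)]
    have : F.card ≤ 2 ^ n := by
      have h3 : F ⊆ Finset.range (2 ^ n) := fun w hw => Finset.mem_range.2 (hF w hw)
      simpa using Finset.card_le_card h3
    exact_mod_cast this
  have h2n : (0:ℝ) < 2 ^ n := pow_pos (by norm_num) n
  have hFcu : (F.card : ℝ) = u * 2 ^ n := by
    rw [hu]; exact (div_mul_cancel₀ _ h2n.ne').symm
  have hv : ∀ i, 0 ≤ S.vt t i := fun i => (S.v_pos i t (by linarith)).le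
  have hL : ∀ i, S.Lt t i = S.vt t (i + 1) + S.Lt t (i + 1) := fun i => S.L_eq i t
  have hLp : ∀ i, 0 < S.Lt t i := fun i => S.L_pos i t (by linarith)
  have hsu := Real.sqrt_nonneg u
  have hsq : Real.sqrt u ^ 2 = u := Real.sq_sqrt hu0
  have hsu1 : Real.sqrt u ≤ 1 := by
    rw [show (1:ℝ) = Real.sqrt 1 by simp]; exact Real.sqrt_le_sqrt hu1
  obtain ⟨H, hH⟩ : ∃ H : ℝ, H = K * Real.sqrt u / S.ta n := ⟨_, rfl⟩
  have hHa : H * S.ta n = K * Real.sqrt u := by
    rw [hH]; field_simp
  have hH0 : 0 ≤ H := by rw [hH]; positivity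
  by_cases hH2 : H < 2
  · -- trivial bound
    refine (fam_triv (S.vt t) (S.Lt t) hv hL hLp n N (by omega) F).trans ?_
    apply ENNReal.ofReal_le_ofReal
    have e1 := S.taL_upper n t h1 h2
    have e2 : (F.card : ℝ) * S.Lt t n = u * (2 ^ n * S.L n t) := by
      rw [hFcu]; unfold Lt; ring
    rw [e2]
    have e3 : 2 ^ n * S.L n t ≤ 5 / S.ta n := by
      rw [le_div_iff₀ ha]; nlinarith
    calc u * (2 ^ n * S.L n t) ≤ u * (5 / S.ta n) := mul_le_mul_of_nonneg_left e3 hu0
      _ = 5 / K * Real.sqrt u * H := by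
          rw [hH]
          nth_rewrite 1 [← hsq]
          field_simp
      _ ≤ 5 / K * Real.sqrt u * 2 := by
          apply mul_le_mul_of_nonneg_left hH2.le
          positivity
      _ ≤ 300 / K * Real.sqrt u := by
          have : 0 ≤ Real.sqrt u / K := by positivity
          have e4 : 5 / K * Real.sqrt u * 2 = 10 * (Real.sqrt u / K) := by ring
          have e5 : 300 / K * Real.sqrt u = 300 * (Real.sqrt u / K) := by ring
          rw [e4, e5]
          nlinarith
  · push Not at hH2
    have hHp : 0 < H := by linarith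
    have hsp : 0 < Real.sqrt u := by
      by_contra hcon
      have : Real.sqrt u = 0 := le_antisymm (not_lt.1 hcon) hsu
      rw [hH, this] at hHp
      simp at hHp
    have hup : 0 < u := Real.sqrt_pos.1 hsp
    have hX0 : 0 < C2 * H * S.ta n := by positivity
    have hXe : C2 * H * S.ta n = C2 * (K * Real.sqrt u) := by rw [mul_assoc, hHa]
    -- cost bound in final form
    have hcost : ∀ m, ∑ k ∈ G with (n < k ∧ k + j0 < m), S.ta k < C2 * H * S.ta n →
        ∑ k ∈ G with (n < k ∧ k ≤ m), S.A k ≤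
          C2 * (K * Real.sqrt u) * S.ta n + (j0 + 1) * S.ta n ^ 2 := by
      intro m hm
      have := S.cost G j0 n m _ hm
      rw [hXe] at this
      linarith
    have hj0 : (0:ℝ) ≤ j0 := Nat.cast_nonneg j0
    have hcheap : C2 * (K * Real.sqrt u) * S.ta n + (j0 + 1) * S.ta n ^ 2 ≤
        (C2 + j0 + 1) * (K * S.ta n) := by
      have e1 : C2 * (K * Real.sqrt u) * S.ta n ≤ C2 * (K * 1) * S.ta n := by gcongr
      have e2 : S.ta n ^ 2 ≤ K * S.ta n := by rw [sq]; exact mul_le_mul_of_nonneg_right haK ha.le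
      have e3 : ((j0:ℝ) + 1) * S.ta n ^ 2 ≤ (j0 + 1) * (K * S.ta n) :=
        mul_le_mul_of_nonneg_left e2 (by positivity)
      nlinarith
    have hKa : 0 < K * S.ta n := by positivity
    have hex : ∃ m, n < m ∧ (S.ta m < S.ta n / 2 ∨
        C2 * H * S.ta n ≤ ∑ k ∈ G with (n < k ∧ k + j0 ≤ m), S.ta k) ∧ m ≤ N := by
      by_contra hno
      push Not at hno
      have hlt : ∑ k ∈ G with (n < k ∧ k + j0 < N + 1), S.ta k < C2 * H * S.ta n := by
        rcases Nat.lt_or_ge n N with hnN | hnN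
        · have h3 := hno N hnN
          by_contra h4
          push Not at h4
          have h5 := h3 (Or.inr (by
            simpa [Nat.lt_succ_iff] using h4))
          omega
        · have : (G.filter (fun k => n < k ∧ k + j0 < N + 1)) = ∅ := by
            apply Finset.filter_eq_empty_iff.2
            intro k hk
            have := (hG k hk).2.1
            omega
          rw [this]
          simpa using hX0
      have h3 := hcost (N + 1) hlt
      have h4 : ∑ k ∈ G with n < k, S.A k ≤ ∑ k ∈ G with (n < k ∧ k ≤ N + 1), S.A k := by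
        apply Finset.sum_le_sum_of_subset_of_nonneg
        · intro k hk
          rw [Finset.mem_filter] at hk ⊢
          exact ⟨hk.1, hk.2, by have := (hG k hk.1).2.1; omega⟩
        · intro k _ _
          exact (S.A_pos k).le
      have h5 : 0 ≤ K ^ 2 * u := by positivity
      nlinarith
    classical
    obtain ⟨hnm, hstop, hmN⟩ := Nat.find_spec hex
    obtain ⟨m, hm⟩ : ∃ m, m = Nat.find hex := ⟨_, rfl⟩
    rw [← hm] at hnm hstop hmN
    have hprev : ∑ k ∈ G with (n < k ∧ k + j0 < m), S.ta k < C2 * H * S.ta n := by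
      by_contra hcon
      push Not at hcon
      by_cases hnm1 : n < m - 1
      · have := Nat.find_min hex (m := m - 1) (by rw [← hm]; omega)
        apply this
        refine ⟨hnm1, Or.inr ?_, by omega⟩
        have e : (G.filter (fun k => n < k ∧ k + j0 ≤ m - 1)) =
          (G.filter (fun k => n < k ∧ k + j0 < m)) := by
          apply Finset.filter_congr
          intro k _
          omega
        rw [e]
        exact hcon
      · have : (G.filter (fun k => n < k ∧ k + j0 < m)) = ∅ := by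
          apply Finset.filter_eq_empty_iff.2
          intro k hk
          omega
        rw [this, Finset.sum_empty] at hcon
        linarith
    have hW := hcost m hprev
    have hsplit : ∑ k ∈ G with n < k, S.A k =
        ∑ k ∈ G with (n < k ∧ k ≤ m), S.A k + ∑ k ∈ G with m < k, S.A k := by
      rw [← Finset.sum_filter_add_sum_filter_not (G.filter (fun k => n < k)) (fun k => k ≤ m)]
      congr 1
      · rw [Finset.filter_filter]
      · apply Finset.sum_congr _ (fun _ _ => rfl)
        ext k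
        simp only [Finset.mem_filter, not_le]
        constructor
        · rintro ⟨⟨a, b⟩, c⟩; exact ⟨a, c⟩
        · rintro ⟨a, c⟩; exact ⟨⟨a, by omega⟩, c⟩
    obtain ⟨j, hj⟩ : ∃ j, m = n + j := ⟨m - n, by omega⟩
    have hjd : ∃ d', m + d' = N ∧ d' < d := ⟨N - m, by omega, by omega⟩
    obtain ⟨d', hd', hdd⟩ := hjd
    have h2j : (2:ℝ) ^ (n + j) = 2 ^ n * 2 ^ j := pow_add 2 n j
    by_cases hcase : S.ta m < S.ta n / 2
    · -- restart
      obtain ⟨F', hF', hcard, hfam⟩ := restart (S.vt t) (S.Lt t) n j N (by omega) F hF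
      rw [← hj] at hF' hfam
      have hu' : (F'.card : ℝ) / 2 ^ m = u := by
        rw [hj, hcard, h2j, hu]
        exact mul_div_mul_right _ _ (pow_ne_zero j (by norm_num))
      have := ih d' hdd m hd' F' hF' (by
        rw [hu', ← hC2]
        rw [hsplit] at hsum
        have h6 : S.ta n / 2 ≤ S.ta n - S.ta m := by linarith
        have h7 : K * (S.ta n / 2) ≤ K * (S.ta n - S.ta m) :=
          mul_le_mul_of_nonneg_left h6 hK0.le
        have h8 : 16 * (C2 + j0 + 2) * (K * (S.ta n / 2)) ≤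
          16 * (C2 + j0 + 2) * (K * (S.ta n - S.ta m)) :=
          mul_le_mul_of_nonneg_left h7 (by positivity)
        nlinarith)
      rw [hu', hfam] at this
      exact this
    · -- block
      push Not at hcase
      have hb : C2 * H * S.ta n ≤ ∑ k ∈ G with (n < k ∧ k + j0 ≤ n + j), S.ta k := by
        rcases hstop with h | h
        · exact absurd h (not_lt.2 hcase)
        · rw [← hj]; exact h
      have hta : S.ta n ≤ 2 * S.ta (n + j) := by rw [← hj]; linarith
      have hX := S.hXof t h1 h2 c0 hc0 j0 N G hG n j H hHp hta (by rw [← hC2]; exact hb)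
      obtain ⟨F', hF', hcard, hvol⟩ := block (S.vt t) (S.Lt t) hv hL hLp n j N (by omega) F hF
        H (S.ta n) 10 hH2 ha (by norm_num) (by
          intro i hi
          have e1 := S.taL_upper (n + i) t h1 h2
          have e2 : S.ta (n + j) ≤ S.ta (n + i) := S.ta_anti (by omega)
          have e3 := S.L_pos (n + i) t (by linarith)
          unfold Lt
          calc S.ta n * (2 ^ (n + i) * S.L (n + i) t)
              ≤ (2 * S.ta (n + i)) * (2 ^ (n + i) * S.L (n + i) t) := by
                gcongr; linarith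
            _ ≤ 10 := by nlinarith) hX
      rw [← hj] at hF' hvol
      obtain ⟨u', hu'⟩ : ∃ u' : ℝ, u' = (F'.card : ℝ) / 2 ^ m := ⟨_, rfl⟩
      have h2mp : (0:ℝ) < 2 ^ m := pow_pos (by norm_num) m
      have hu'0 : 0 ≤ u' := by rw [hu']; exact div_nonneg (Nat.cast_nonneg _) h2mp.le
      have hFc := hFcu
      have hF'c : (F'.card : ℝ) = u' * 2 ^ m := by
        rw [hu']; exact (div_mul_cancel₀ _ h2mp.ne').symm
      have h2m : (2:ℝ) ^ m = 2 ^ n * 2 ^ j := by rw [hj, h2j]
      have hu'u : u' ≤ (1 - 1 / (8 * H)) * u := by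
        rw [hFc, hF'c, h2m] at hcard
        have hp : (0:ℝ) < 2 ^ n * 2 ^ j := by positivity
        have e : (1 - 1 / (8 * H)) * (u * 2 ^ n * 2 ^ j) =
          ((1 - 1 / (8 * H)) * u) * (2 ^ n * 2 ^ j) := by ring
        rw [e] at hcard
        exact le_of_mul_le_mul_right hcard hp
      have hdiff : u / (8 * H) ≤ u - u' := by
        have e : (1 - 1 / (8 * H)) * u = u - u / (8 * H) := by ring
        rw [e] at hu'u
        linarith
      have huu : u' ≤ u := by
        have : 0 ≤ u / (8 * H) := by positivity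
        linarith
      have haH : S.ta n ≤ K * Real.sqrt u / 2 := by
        have : 2 * S.ta n ≤ H * S.ta n := mul_le_mul_of_nonneg_right hH2 ha.le
        rw [hHa] at this
        linarith
      have huH : u / (8 * H) * K = Real.sqrt u * S.ta n / 8 := by
        rw [hH]
        nth_rewrite 1 [← hsq]
        field_simp
      have := ih d' hdd m hd' F' hF' (by
        rw [← hu', ← hC2]
        rw [hsplit] at hsum
        have h6 : S.ta m ≤ S.ta n := S.ta_anti hnm.le
        have h7 : K * (u / (8 * H) * K) ≤ K * ((u - u') * K) := by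
          apply mul_le_mul_of_nonneg_left _ hK0.le
          exact mul_le_mul_of_nonneg_right hdiff hK0.le
        rw [huH] at h7
        have h8 : 16 * (C2 + j0 + 2) * (K * (Real.sqrt u * S.ta n / 8)) ≤
          16 * (C2 + j0 + 2) * (K * ((u - u') * K)) :=
          mul_le_mul_of_nonneg_left h7 (by positivity)
        have h9 : ((j0:ℝ) + 1) * S.ta n ^ 2 ≤ (j0 + 1) * (K * Real.sqrt u / 2 * S.ta n) := by
          apply mul_le_mul_of_nonneg_left _ (by positivity)
          rw [sq]
          exact mul_le_mul_of_nonneg_right haH ha.le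
        have h10 : 16 * (C2 + j0 + 2) * (K * S.ta m) ≤ 16 * (C2 + j0 + 2) * (K * S.ta n) := by
          gcongr
        have h11 : 0 < K * Real.sqrt u * S.ta n := by positivity
        have h12 : C2 * (K * Real.sqrt u) * S.ta n + (j0 + 1) * (K * Real.sqrt u / 2 * S.ta n) ≤
          16 * (C2 + j0 + 2) * (K * (Real.sqrt u * S.ta n / 8)) := by nlinarith
        have h13 : K ^ 2 * u - K ^ 2 * u' = K * ((u - u') * K) := by ring
        have h14 : 16 * (C2 + j0 + 2) * (K ^ 2 * u' + K * S.ta m) =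
          16 * (C2 + j0 + 2) * (K ^ 2 * u + K * S.ta m) -
          16 * (C2 + j0 + 2) * (K * ((u - u') * K)) := by rw [← h13]; ring
        rw [h14]
        have h15 : 16 * (C2 + j0 + 2) * (K ^ 2 * u + K * S.ta m) ≤
          16 * (C2 + j0 + 2) * (K ^ 2 * u + K * S.ta n) := by
          have : 16 * (C2 + ↑j0 + 2) * (K ^ 2 * u + K * S.ta m) =
            16 * (C2 + ↑j0 + 2) * (K ^ 2 * u) + 16 * (C2 + j0 + 2) * (K * S.ta m) := by ring
          rw [this]
          have : 16 * (C2 + ↑j0 + 2) * (K ^ 2 * u + K * S.ta n) =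
            16 * (C2 + ↑j0 + 2) * (K ^ 2 * u) + 16 * (C2 + j0 + 2) * (K * S.ta n) := by ring
          rw [this]
          linarith
        linarith)
      rw [← hu'] at this
      refine hvol.trans ?_
      refine (add_le_add le_rfl this).trans ?_
      have hnum : 15 * 10 * ((F.card : ℝ) * 2 ^ j - F'.card) / (2 ^ m * H * S.ta n) =
        150 * (u - u') / (K * Real.sqrt u) := by
        rw [hFc, hF'c, h2m, mul_assoc _ H (S.ta n), hHa]
        field_simp
        ring
      rw [hnum, ← ENNReal.ofReal_add]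
      · apply ENNReal.ofReal_le_ofReal
        have hamgm : 2 * (Real.sqrt u' * Real.sqrt u) ≤ u' + u := by
          have e1 : Real.sqrt u' ^ 2 = u' := Real.sq_sqrt hu'0
          nlinarith [sq_nonneg (Real.sqrt u' - Real.sqrt u)]
        rw [← sub_nonneg]
        have e : 300 / K * Real.sqrt u - (150 * (u - u') / (K * Real.sqrt u) +
            300 / K * Real.sqrt u') =
          (300 * (Real.sqrt u) ^ 2 - 150 * (u - u') - 300 * (Real.sqrt u' * Real.sqrt u)) /
            (K * Real.sqrt u) := by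
          field_simp
          ring
        rw [e]
        apply div_nonneg _ (by positivity)
        rw [hsq]
        nlinarith
      · apply div_nonneg _ (by positivity)
        linarith
      · positivity

/-- the iteration -/
theorem iter (c0 : ℝ) (hc0 : 0 < c0) (j0 : ℕ) : ∃ C : ℝ, 0 < C ∧ ∀ (S : Sys) (t : ℝ), 1 ≤ t →
    t ≤ 2 → ∀ (N : ℕ) (G : Finset ℕ),
    (∀ k ∈ G, 1 ≤ k ∧ k ≤ N ∧ ∀ g, j0 ≤ g → S.ta k ≤ 2 * S.ta (k + g) → c0 ≤ S.z k g t) →
    ∀ K : ℝ, S.ta 0 ≤ K → C * K ^ 2 ≤ ∑ k ∈ G, S.A k →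
    volume (fam (S.vt t) (S.Lt t) 0 {0} N) ≤ ENNReal.ofReal (C / K) := by
  refine ⟨32 * (32 / c0 + j0 + 2) + 300, by positivity, ?_⟩
  intro S t h1 h2 N G hG K hK hsum
  have hK0 : 0 < K := lt_of_lt_of_le (S.ta_pos 0) hK
  have hC : (0:ℝ) < 32 / c0 + j0 + 2 := by positivity
  have hG0 : G.filter (fun k => 0 < k) = G := by
    apply Finset.filter_true_of_mem
    intro k hk
    have := (hG k hk).1
    omega
  have h := S.iterClaim t h1 h2 c0 hc0 j0 N G hG K hK N 0 (by omega) {0} (by simp) (by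
    rw [hG0]
    refine le_trans ?_ hsum
    simp only [Finset.card_singleton, Nat.cast_one, pow_zero, div_one, mul_one]
    have e1 : K * S.ta 0 ≤ K ^ 2 := by rw [sq]; exact mul_le_mul_of_nonneg_left hK hK0.le
    have e2 : 16 * (32 / c0 + j0 + 2) * (K ^ 2 + K * S.ta 0) ≤
      16 * (32 / c0 + j0 + 2) * (K ^ 2 + K ^ 2) := by gcongr
    have e3 : 0 ≤ K ^ 2 := by positivity
    nlinarith)
  refine h.trans ?_
  apply ENNReal.ofReal_le_ofReal
  simp only [Finset.card_singleton, Nat.cast_one, pow_zero, div_one, Real.sqrt_one, mul_one]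
  apply div_le_div_of_nonneg_right _ hK0.le
  linarith

end Sys
end Pool.Agent.VC
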