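import Pool.Agent.VC.BadW

/-!
# The kernels at the refinements which are not bad, and the rest
-/

set_option autoImplicit false

open MeasureTheory Set

namespace Pool.Agent.VC

/-- the first difference of `x` and `y` is at a refinement which is not bad -/
def nbp (lam : ℕ → ℝ) (n : ℕ) (x y : Fin (4 ^ n)) : Prop :=
  ∃ k, k < n ∧ lam k ≤ 3 / 8 ∧ lb n k x = lb n k y ∧ lb n (k + 1) x ≠ lb n (k + 1) y

open Classical in
/-- restriction of a kernel to these pairs -/
noncomputable def Knb (lam : ℕ → ℝ) (n : ℕ) (K : Fin (4 ^ n) → Fin (4 ^ n) → ℝ)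
    (x y : Fin (4 ^ n)) : ℝ := if nbp lam n x y then K x y else 0

open Classical in
/-- the rest, on the remaining words -/
noncomputable def Kbd (lam : ℕ → ℝ) (n : ℕ) (K : Fin (4 ^ n) → Fin (4 ^ n) → ℝ)
    (x y : Fin (4 ^ n)) : ℝ :=
  if nbp lam n x y then 0 else if x ∈ XX lam n ∧ y ∈ XX lam n then K x y else 0

/-- the first difference decides -/
theorem kn_iff (lam : ℕ → ℝ) (n k : ℕ) (hk : k < n) (x y : Fin (4 ^ n))
    (h1 : lb n k x = lb n k y) (h2 : lb n (k + 1) x ≠ lb n (k + 1) y) :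
    nbp lam n x y ↔ lam k ≤ 3 / 8 := by
  constructor
  · rintro ⟨j, hj, hl, h3, h4⟩
    have hjk : j = k := by
      rcases lt_trichotomy j k with h | h | h
      · exact absurd (tk_lb_mono n h x y h1) h4
      · exact h
      · exact absurd (tk_lb_mono n h x y h3) h2
    rwa [hjk] at hl
  · intro hl
    exact ⟨k, hk, hl, h1, h2⟩

theorem kn_symm (lam : ℕ → ℝ) (n : ℕ) (x y : Fin (4 ^ n)) :
    nbp lam n y x ↔ nbp lam n x y := by
  constructor
  · rintro ⟨j, hj, hl, h3, h4⟩
    exact ⟨j, hj, hl, h3.symm, Ne.symm h4⟩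
  · rintro ⟨j, hj, hl, h3, h4⟩
    exact ⟨j, hj, hl, h3.symm, Ne.symm h4⟩

/-- the generic kernel -/
noncomputable def kn_K (L : ℂ → ℝ) (lam : ℕ → ℝ) (n : ℕ) (x y : Fin (4 ^ n)) : ℝ :=
  L (1 / (ctr lam n x - ctr lam n y))

theorem kn_cz (L : ℂ → ℝ) (hL1 : ∀ z, |L z| ≤ ‖z‖) (hL2 : ∀ z w, L (z - w) = L z - L w)
    (hL3 : ∀ z w, L (z + w) = L z + L w) (hL4 : ∀ z, L (-z) = - L z)
    (lam : ℕ → ℝ) (hl : ∀ k, 1 / 4 ≤ lam k ∧ lam k ≤ 1 / 2) (n : ℕ) :
    IsCZ n (lb n) (side lam) 1024 (Knb lam n (kn_K L lam n)) := by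
  have h' : ∀ k, 0 < lam k ∧ lam k ≤ 1 / 2 := fun k => ⟨by linarith [(hl k).1], (hl k).2⟩
  have hs : ∀ k, 0 < side lam k := tk_side_pos lam fun k => (h' k).1
  have hpos : ∀ x y : Fin (4 ^ n), nbp lam n x y → Knb lam n (kn_K L lam n) x y =
      L (1 / (ctr lam n x - ctr lam n y)) := fun x y h => if_pos h
  have hneg : ∀ x y : Fin (4 ^ n), ¬ nbp lam n x y → Knb lam n (kn_K L lam n) x y = 0 :=
    fun x y h => if_neg h
  refine ⟨fun x y => ?_, fun k hk x y h1 h2 => ?_, fun k j hkj hj x y y' h1 h2 hy => ?_,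
      fun k i j hki hkj hi hj x y x' y' h1 h2 hx hy => ?_⟩
  · by_cases h : nbp lam n x y
    · rw [hpos x y h, hpos y x ((kn_symm lam n x y).2 h), ← hL4, ← div_neg, neg_sub]
    · rw [hneg x y h, hneg y x (fun h3 => h ((kn_symm lam n x y).1 h3)), neg_zero]
  · have hb0 : (0 : ℝ) ≤ 1024 / side lam k := by have := hs k; positivity
    by_cases hb : lam k ≤ 3 / 8
    · rw [hpos x y ((kn_iff lam n k hk x y h1 h2).2 hb)]
      refine (hL1 _).trans ((tk_inv_size (mul_pos (by norm_num) (hs k))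
        (sep_nb lam hl n k hk x y h1 h2 hb)).trans ?_)
      have := hs k
      rw [div_le_div_iff₀ (by positivity) this]
      nlinarith
    · rw [hneg x y (fun h => hb ((kn_iff lam n k hk x y h1 h2).1 h)), abs_zero]
      exact hb0
  · have hk : k < n := by omega
    have hs1 := hs k
    have hs2 := hs j
    have hy1 : lb n (k + 1) y' = lb n (k + 1) y := tk_lb_mono n hkj y' y hy
    have hy0 : lb n k y' = lb n k y := tk_lb_mono n hkj.le y' y hy
    have h1' : lb n k x = lb n k y' := by rw [hy0]; exact h1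
    have h2' : lb n (k + 1) x ≠ lb n (k + 1) y' := by rw [hy1]; exact h2
    by_cases hb : lam k ≤ 3 / 8
    · rw [hpos x y ((kn_iff lam n k hk x y h1 h2).2 hb),
        hpos x y' ((kn_iff lam n k hk x y' h1' h2').2 hb), ← hL2]
      refine (hL1 _).trans ((tk_inv_diff (mul_pos (by norm_num) (hs k))
        (sep_nb lam hl n k hk x y h1 h2 hb) (sep_nb lam hl n k hk x y' h1' h2' hb)
        (ctr_close lam h' n j hj y' y hy)).trans ?_)
      have e1 : 2 * side lam j / (1 / 4 * side lam k) ^ 2 =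
          32 * side lam j / side lam k ^ 2 := by
        field_simp
        ring
      rw [e1]
      apply div_le_div_of_nonneg_right _ (by positivity)
      nlinarith
    · rw [hneg x y (fun h => hb ((kn_iff lam n k hk x y h1 h2).1 h)),
        hneg x y' (fun h => hb ((kn_iff lam n k hk x y' h1' h2').1 h)), sub_zero, abs_zero]
      positivity
  · have hk : k < n := by omega
    have hs1 := hs k
    have hs2 := hs j
    have hs3 := hs i
    have hx1 : lb n (k + 1) x' = lb n (k + 1) x := tk_lb_mono n hki x' x hx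
    have hx0 : lb n k x' = lb n k x := tk_lb_mono n hki.le x' x hx
    have hy1 : lb n (k + 1) y' = lb n (k + 1) y := tk_lb_mono n hkj y' y hy
    have hy0 : lb n k y' = lb n k y := tk_lb_mono n hkj.le y' y hy
    have a1 : lb n k x = lb n k y' := by rw [hy0]; exact h1
    have a2 : lb n (k + 1) x ≠ lb n (k + 1) y' := by rw [hy1]; exact h2
    have b1 : lb n k x' = lb n k y := by rw [hx0]; exact h1
    have b2 : lb n (k + 1) x' ≠ lb n (k + 1) y := by rw [hx1]; exact h2
    have c1 : lb n k x' = lb n k y' := by rw [hx0, hy0]; exact h1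
    have c2 : lb n (k + 1) x' ≠ lb n (k + 1) y' := by rw [hx1, hy1]; exact h2
    by_cases hb : lam k ≤ 3 / 8
    · rw [hpos x y ((kn_iff lam n k hk x y h1 h2).2 hb),
        hpos x y' ((kn_iff lam n k hk x y' a1 a2).2 hb),
        hpos x' y ((kn_iff lam n k hk x' y b1 b2).2 hb),
        hpos x' y' ((kn_iff lam n k hk x' y' c1 c2).2 hb), ← hL2, ← hL2, ← hL3]
      refine (hL1 _).trans ((tk_inv_diff2 (mul_pos (by norm_num) (hs k))
        (sep_nb lam hl n k hk x y h1 h2 hb) (sep_nb lam hl n k hk x' y b1 b2 hb)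
        (sep_nb lam hl n k hk x y' a1 a2 hb) (sep_nb lam hl n k hk x' y' c1 c2 hb)
        (ctr_close lam h' n i hi x' x hx) (ctr_close lam h' n j hj y' y hy)).trans ?_)
      have e1 : 2 * (2 * side lam i * (2 * side lam j)) / (1 / 4 * side lam k) ^ 3 =
          512 * side lam i * side lam j / side lam k ^ 3 := by
        field_simp
        ring
      rw [e1]
      apply div_le_div_of_nonneg_right _ (by positivity)
      have := mul_pos hs3 hs2
      nlinarith
    · rw [hneg x y (fun h => hb ((kn_iff lam n k hk x y h1 h2).1 h)),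
        hneg x y' (fun h => hb ((kn_iff lam n k hk x y' a1 a2).1 h)),
        hneg x' y (fun h => hb ((kn_iff lam n k hk x' y b1 b2).1 h)),
        hneg x' y' (fun h => hb ((kn_iff lam n k hk x' y' c1 c2).1 h)), sub_zero, sub_zero,
        add_zero, abs_zero]
      positivity

theorem isCZ_Knb : ∃ C : ℝ, 0 < C ∧ ∀ lam : ℕ → ℝ,
    (∀ k, 1 / 4 ≤ lam k ∧ lam k ≤ 1 / 2) → ∀ n : ℕ,
    IsCZ n (lb n) (side lam) C (Knb lam n (KR lam n)) ∧
    IsCZ n (lb n) (side lam) C (Knb lam n (KI lam n)) := by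
  refine ⟨1024, by norm_num, fun lam hl n => ⟨?_, ?_⟩⟩
  · exact kn_cz Complex.re Complex.abs_re_le_norm Complex.sub_re Complex.add_re Complex.neg_re
      lam hl n
  · exact kn_cz Complex.im Complex.abs_im_le_norm Complex.sub_im Complex.add_im Complex.neg_im
      lam hl n

/-- existence of the first difference -/
theorem kn_first (n : ℕ) (x y : Fin (4 ^ n)) (hxy : x ≠ y) :
    ∃ k, k < n ∧ lb n k x = lb n k y ∧ lb n (k + 1) x ≠ lb n (k + 1) y := by
  classical
  have hex : ∃ j, lb n j x ≠ lb n j y := ⟨n, fun h => hxy ((isTree_lb n).top x y h)⟩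
  have h1 : Nat.find hex ≠ 0 := by
    intro h0
    have := Nat.find_spec hex
    rw [h0] at this
    exact this ((isTree_lb n).zero x y)
  obtain ⟨k, hk⟩ := Nat.exists_eq_succ_of_ne_zero h1
  have h2 : lb n (k + 1) x ≠ lb n (k + 1) y := by
    have := Nat.find_spec hex
    rwa [hk] at this
  have h3 : lb n k x = lb n k y := by
    have := Nat.find_min hex (m := k) (by omega)
    push Not at this
    exact this
  have h4 : Nat.find hex ≤ n := Nat.find_min' hex fun h => hxy ((isTree_lb n).top x y h)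
  exact ⟨k, by omega, h3, h2⟩

open Classical in
/-- pointwise bound of the bad part -/
theorem kn_pt (L : ℂ → ℝ) (hL1 : ∀ z, |L z| ≤ ‖z‖)
    (lam : ℕ → ℝ) (hl : ∀ k, 1 / 4 ≤ lam k ∧ lam k ≤ 1 / 2) (n : ℕ) (x y : Fin (4 ^ n)) :
    |Kbd lam n (kn_K L lam n) x y| ≤
      ∑ k ∈ (Finset.range n).filter (fun k => 3 / 8 < lam k),
        if lb n k x = lb n k y then 2 * 4 ^ mg lam k / side lam k else 0 := by
  have hs : ∀ k, 0 < side lam k := tk_side_pos lam fun k => by linarith [(hl k).1]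
  have h0 : ∀ k ∈ (Finset.range n).filter (fun k => 3 / 8 < lam k),
      0 ≤ (if lb n k x = lb n k y then 2 * 4 ^ mg lam k / side lam k else (0 : ℝ)) := by
    intro k _
    have := hs k
    split_ifs
    · positivity
    · exact le_rfl
  have hS := Finset.sum_nonneg h0
  unfold Kbd
  split_ifs with hn hX
  · rw [abs_zero]
    exact hS
  · by_cases hxy : x = y
    · have : kn_K L lam n x y = 0 := by
        unfold kn_K
        rw [hxy, sub_self, div_zero]
        have h1 := hL1 0
        rw [norm_zero] at h1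
        exact abs_eq_zero.1 (le_antisymm h1 (abs_nonneg _))
      rw [this, abs_zero]
      exact hS
    · obtain ⟨k, hk, h1, h2⟩ := kn_first n x y hxy
      have hb : 3 / 8 < lam k := by
        by_contra hb
        exact hn ((kn_iff lam n k hk x y h1 h2).2 (not_lt.1 hb))
      have hmem : k ∈ (Finset.range n).filter (fun k => 3 / 8 < lam k) :=
        Finset.mem_filter.2 ⟨Finset.mem_range.2 hk, hb⟩
      refine le_trans ?_ (Finset.single_le_sum h0 hmem)
      rw [if_pos h1]
      have hsk := hs k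
      refine (hL1 _).trans ((tk_inv_size (by positivity)
        (sep_bad lam hl n k hk x y hX.1 hX.2 h1 h2 hb)).trans (le_of_eq ?_))
      rw [one_div_pow]
      field_simp
  · rw [abs_zero]
    exact hS

open Classical in
theorem kn_row (L : ℂ → ℝ) (hL1 : ∀ z, |L z| ≤ ‖z‖)
    (lam : ℕ → ℝ) (hl : ∀ k, 1 / 4 ≤ lam k ∧ lam k ≤ 1 / 2) (n : ℕ) (C : ℝ)
    (hC : ∑ k ∈ (Finset.range n).filter (fun k => 3 / 8 < lam k),
      16 ^ mg lam k * dens lam k ≤ C) (y : Fin (4 ^ n)) :
    ∑ x, |Kbd lam n (kn_K L lam n) x y| ≤ 2 * C * 4 ^ n := by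
  have hs : ∀ k, 0 < side lam k := tk_side_pos lam fun k => by linarith [(hl k).1]
  calc ∑ x, |Kbd lam n (kn_K L lam n) x y|
      ≤ ∑ x, ∑ k ∈ (Finset.range n).filter (fun k => 3 / 8 < lam k),
        (if lb n k x = lb n k y then 2 * 4 ^ mg lam k / side lam k else 0) :=
        Finset.sum_le_sum fun x _ => kn_pt L hL1 lam hl n x y
    _ = ∑ k ∈ (Finset.range n).filter (fun k => 3 / 8 < lam k),
        4 ^ (n - k) * (2 * 4 ^ mg lam k / side lam k) := by
        rw [Finset.sum_comm]
        refine Finset.sum_congr rfl fun k hk => ?_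
        have hkn : k ≤ n := (Finset.mem_range.1 (Finset.mem_filter.1 hk).1).le
        rw [← Finset.sum_filter, Finset.sum_const, nsmul_eq_mul, (isTree_lb n).card k hkn y]
        push_cast
        rfl
    _ ≤ ∑ k ∈ (Finset.range n).filter (fun k => 3 / 8 < lam k),
        (2 * 4 ^ n) * (16 ^ mg lam k * dens lam k) := by
        refine Finset.sum_le_sum fun k hk => ?_
        have hkn : k ≤ n := (Finset.mem_range.1 (Finset.mem_filter.1 hk).1).le
        have hsk := hs k
        have h1 : (4 : ℝ) ^ n = 4 ^ (n - k) * 4 ^ k := by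
          rw [← pow_add, Nat.sub_add_cancel hkn]
        have h2 : (4 : ℝ) ^ mg lam k ≤ 16 ^ mg lam k :=
          pow_le_pow_left₀ (by norm_num) (by norm_num) _
        have h3 : (2 * (4 : ℝ) ^ n) * (16 ^ mg lam k * dens lam k) =
            4 ^ (n - k) * (2 * 16 ^ mg lam k / side lam k) := by
          rw [h1]
          unfold dens
          field_simp
        rw [h3]
        refine mul_le_mul_of_nonneg_left ?_ (by positivity)
        exact div_le_div_of_nonneg_right (by linarith) hsk.le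
    _ = (2 * 4 ^ n) * ∑ k ∈ (Finset.range n).filter (fun k => 3 / 8 < lam k),
        (16 ^ mg lam k * dens lam k) := by rw [Finset.mul_sum]
    _ ≤ (2 * 4 ^ n) * C := mul_le_mul_of_nonneg_left hC (by positivity)
    _ = 2 * C * 4 ^ n := by ring

/-- Schur's test on `L¹` -/
theorem kn_schur (n : ℕ) (K : Fin (4 ^ n) → Fin (4 ^ n) → ℝ) (C : ℝ)
    (hK : ∀ y, ∑ x, |K x y| ≤ C * 4 ^ n) (f : Fin (4 ^ n) → ℝ) :
    av (fun x => |op K f x|) ≤ C * av (fun x => |f x|) := by
  have hN : ((Fintype.card (Fin (4 ^ n)) : ℕ) : ℝ) = 4 ^ n := by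
    rw [Fintype.card_fin]
    push_cast
    rfl
  have hp : (0 : ℝ) < 4 ^ n := by positivity
  unfold av
  rw [hN, ← mul_div_assoc]
  apply div_le_div_of_nonneg_right _ hp.le
  calc ∑ x, |op K f x| ≤ ∑ x, (∑ y, |K x y| * |f y|) / 4 ^ n := by
        refine Finset.sum_le_sum fun x _ => ?_
        unfold op
        rw [hN, abs_div, abs_of_pos hp]
        apply div_le_div_of_nonneg_right _ hp.le
        refine (Finset.abs_sum_le_sum_abs _ _).trans (le_of_eq ?_)
        exact Finset.sum_congr rfl fun y _ => abs_mul _ _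
    _ = (∑ y, |f y| * ∑ x, |K x y|) / 4 ^ n := by
        rw [← Finset.sum_div, Finset.sum_comm]
        congr 1
        refine Finset.sum_congr rfl fun y _ => ?_
        rw [Finset.mul_sum]
        exact Finset.sum_congr rfl fun x _ => mul_comm _ _
    _ ≤ (∑ y, |f y| * (C * 4 ^ n)) / 4 ^ n := by
        apply div_le_div_of_nonneg_right _ hp.le
        exact Finset.sum_le_sum fun y _ => mul_le_mul_of_nonneg_left (hK y) (abs_nonneg _)
    _ = C * ∑ y, |f y| := by
        rw [← Finset.sum_mul]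
        field_simp

/-- the bad part is bounded on `L¹` -/
theorem l1_bad : ∃ C : ℝ, 0 < C ∧ ∀ lam : ℕ → ℝ,
    (∀ k, 1 / 4 ≤ lam k ∧ lam k ≤ 1 / 2) → ∀ (n : ℕ) (f : Fin (4 ^ n) → ℝ),
    av (fun x => |op (Kbd lam n (KR lam n)) f x|) ≤ C * av (fun x => |f x|) ∧
    av (fun x => |op (Kbd lam n (KI lam n)) f x|) ≤ C * av (fun x => |f x|) := by
  obtain ⟨C, hC, hsum⟩ := sum_bad
  refine ⟨2 * C, by positivity, fun lam hl n f => ⟨?_, ?_⟩⟩
  · exact kn_schur n _ (2 * C) (kn_row Complex.re Complex.abs_re_le_norm lam hl n C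
      (hsum lam hl n)) f
  · exact kn_schur n _ (2 * C) (kn_row Complex.im Complex.abs_im_le_norm lam hl n C
      (hsum lam hl n)) f

end Pool.Agent.VC
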