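import Pool.Agent.VC.Param
import Pool.Agent.VC.Grid

set_option autoImplicit false

open MeasureTheory Set

namespace Pool.Agent.VC
namespace Sys

/-- the normalised energy at one slope -/
private noncomputable def hh (S : Sys) (g : ℕ) (t : ℝ) : ℝ :=
  S.r (g - g / 8) * ∫ x, S.H (g - g / 8) (g / 8) t x ^ 2

private theorem hh_cont (S : Sys) (g : ℕ) : Continuous (S.hh g) :=
  continuous_const.mul (S.H_sq_cont (g - g / 8) (g / 8))

private theorem hh_nonneg (S : Sys) (g : ℕ) (t : ℝ) : 0 ≤ S.hh g t :=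
  mul_nonneg (S.r_pos _).le (integral_nonneg fun _ => sq_nonneg _)

private theorem hh_int (S : Sys) (g : ℕ) (C : ℝ)
    (hC : ∫ t, chi t * (∫ x, S.H (g - g / 8) (g / 8) t x ^ 2) ≤ C / S.r (g - g / 8)) :
    ∫ t in Ico 1 2, S.hh g t ≤ C := by
  have hr := S.r_pos (g - g / 8)
  have h1 : ∫ t in Ico 1 2, S.hh g t ≤ ∫ t in Ico 1 2, chi t * S.hh g t := by
    apply setIntegral_mono_on
    · exact ((S.hh_cont g).integrableOn_Icc (a := 1) (b := 2)).mono_set Ico_subset_Icc_self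
    · exact (chi_mul_integrable (S.hh_cont g)).integrableOn
    · exact measurableSet_Ico
    · intro t ht
      have h2 := one_le_chi ht.1 ht.2.le
      have h3 := S.hh_nonneg g t
      nlinarith
  have h2 : ∫ t in Ico 1 2, chi t * S.hh g t ≤ ∫ t, chi t * S.hh g t := by
    apply setIntegral_le_integral (chi_mul_integrable (S.hh_cont g))
    exact Filter.Eventually.of_forall fun t => mul_nonneg (chi_nonneg t) (S.hh_nonneg g t)
  have h3 : ∫ t, chi t * S.hh g t =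
      S.r (g - g / 8) * ∫ t, chi t * (∫ x, S.H (g - g / 8) (g / 8) t x ^ 2) := by
    rw [← integral_const_mul]
    congr 1
    funext t
    unfold hh
    ring
  calc ∫ t in Ico 1 2, S.hh g t ≤ ∫ t, chi t * S.hh g t := h1.trans h2
    _ ≤ S.r (g - g / 8) * (C / S.r (g - g / 8)) := by
        rw [h3]
        exact mul_le_mul_of_nonneg_left hC hr.le
    _ = C := by field_simp

private theorem good_ordConnected (S : Sys) : OrdConnected {t : ℝ | S.good 0 t} := by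
  constructor
  intro a ha b hb t ht
  have h1 : S.p 0 + a * S.q 0 ≤ S.P 0 + a * S.Q 0 := ha
  have h2 : S.p 0 + b * S.q 0 ≤ S.P 0 + b * S.Q 0 := hb
  change S.p 0 + t * S.q 0 ≤ S.P 0 + t * S.Q 0
  rcases le_total (S.q 0) (S.Q 0) with h | h
  · nlinarith [mul_le_mul_of_nonneg_right ht.1 (sub_nonneg.2 h)]
  · nlinarith [mul_le_mul_of_nonneg_right ht.2 (sub_nonneg.2 h)]

private theorem Bad_anti (S : Sys) {g g' : ℕ} (h : g ≤ g') (G : ℕ) : S.Bad g' G ⊆ S.Bad g G := by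
  unfold Bad
  intro t ht
  simp only [Set.mem_iUnion, Finset.mem_Ico] at ht ⊢
  obtain ⟨k, ⟨h1, h2⟩, h3⟩ := ht
  exact ⟨k, ⟨h.trans h1, h2⟩, h3⟩

theorem LprimeZ (ε : ℝ) (hε : 0 < ε) : ∃ c : ℝ, 0 < c ∧ ∃ j0 : ℕ, ∀ (S : Sys), S.r 0 = 1 →
    S.sep 0 → ∀ G, S.nb 0 G ≤ 7 →
    volume {t | t ∈ Icc 1 2 ∧ S.good 0 t ∧ ∃ g, j0 ≤ g ∧ g ≤ G ∧ S.z 0 g t < c} ≤
      ENNReal.ofReal ε := by
  -- constants
  obtain ⟨Ce, hCe0, hCe⟩ := energy
  set ε₁ : ℝ := min ε 1 with hε₁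
  have hε₁0 : 0 < ε₁ := lt_min hε one_pos
  have hε₁1 : ε₁ ≤ 1 := min_le_right _ _
  set C0 : ℝ := max Ce 1 with hC0
  have hC01 : 1 ≤ C0 := le_max_right _ _
  have hC0p : 0 < C0 := by linarith
  set δ : ℝ := ε₁ / 8 with hδ
  have hδ0 : 0 < δ := by positivity
  set η : ℝ := δ / (2560 * C0) with hη
  have hη0 : 0 < η := by positivity
  have hη1 : η ≤ 1 := by
    rw [hη, div_le_one (by positivity)]
    nlinarith
  obtain ⟨R, hR⟩ : ∃ R : ℕ, (1 - η) ^ R ≤ ε₁ / 8 := by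
    obtain ⟨R, hR⟩ := exists_pow_lt_of_lt_one (show 0 < ε₁ / 8 by positivity)
      (show 1 - η < 1 by linarith)
    exact ⟨R, hR.le⟩
  set ε₂ : ℝ := min (ε₁ / (8 * (R + 1))) (min (ε₁ / 2560) (1 / 160)) with hε₂
  have hε₂0 : 0 < ε₂ := by positivity
  have hε₂a : ε₂ ≤ ε₁ / (8 * (R + 1)) := min_le_left _ _
  have hε₂b : ε₂ ≤ ε₁ / 2560 := (min_le_right _ _).trans (min_le_left _ _)
  have hε₂c : ε₂ ≤ 1 / 160 := (min_le_right _ _).trans (min_le_right _ _)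
  obtain ⟨ga, hga⟩ := err_small ε₂ hε₂0
  obtain ⟨gb, hgb⟩ := bad_small (ε₁ / 8) (by positivity)
  choose G1 hG1 using next_scale
  let g : ℕ → ℕ := fun i => Nat.rec (max ga gb) (fun _ x => max (x + 1) (G1 x)) i
  have hg0 : g 0 = max ga gb := rfl
  have hgs : ∀ i, g (i + 1) = max (g i + 1) (G1 (g i)) := fun i => rfl
  have hgm : StrictMono g := by
    apply strictMono_nat_of_lt_succ
    intro i
    rw [hgs i]
    exact lt_of_lt_of_le (Nat.lt_succ_self _) (le_max_left _ _)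
  have hga' : ∀ i, ga ≤ g i := fun i =>
    (le_max_left ga gb).trans (hgm.monotone (Nat.zero_le i))
  refine ⟨(1 / 4) ^ (g R) / 64, by positivity, g R + 1, ?_⟩
  intro S hr hs G hnb
  rcases Nat.lt_or_ge G (g R + 1) with hG | hG
  · have hemp : {t | t ∈ Icc 1 2 ∧ S.good 0 t ∧ ∃ g', g R + 1 ≤ g' ∧ g' ≤ G ∧
        S.z 0 g' t < (1 / 4) ^ (g R) / 64} = ∅ := by
      ext t
      simp only [mem_ofPred_eq, mem_empty_iff_false, iff_false]
      rintro ⟨-, -, g', h1, h2, -⟩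
      omega
    rw [hemp, measure_empty]
    exact bot_le
  -- the scales
  have hgG : ∀ i, i ≤ R → g i ≤ G := fun i hi => by
    have := hgm.monotone hi
    omega
  have hnbi : ∀ i, i ≤ R → S.nb 0 (g i) ≤ 7 := fun i hi =>
    (S.nb_mono_right 0 _ _ (hgG i hi)).trans hnb
  have hsm : ∀ i, i ≤ R → S.r (g i - g i / 8) ≤ 1 / 30 ∧
      2560 * S.r (g i - g i / 8) ^ 3 ≤ S.r (g i) ^ 2 ∧ S.r (g i - g i / 8) ≤ ε₂ ∧
      ∑ g' ∈ Finset.Ico (g i) G, err S g' ≤ ε₂ := fun i hi =>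
    hga S hr (g i) G (hga' i) (hgG i hi) hnb
  have hex : ∀ i, ∃ e : ℕ, i ≤ R → 80 * S.r (g i - g i / 8) ≤ 1 / 2 ^ e ∧
      (1 : ℝ) / 2 ^ e ≤ 160 * S.r (g i - g i / 8) := by
    intro i
    by_cases hi : i ≤ R
    · obtain ⟨e, he⟩ := exists_dyadic (S.r (g i - g i / 8)) (S.r_pos _)
        (((hsm i hi).2.2.1).trans hε₂c)
      exact ⟨e, fun _ => he⟩
    · exact ⟨0, fun h => absurd h hi⟩
  choose e he using hex
  have hnext : ∀ i, i < R → 160 * S.r (g i - g i / 8) * (1 / 2 ^ e (i + 1)) ≤ S.r (g i) ^ 2 := by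
    intro i hi
    apply hG1 (g i) S hr (g (i + 1)) _ (hnbi (i + 1) hi) (e (i + 1)) (he (i + 1) hi).2
    rw [hgs i]
    exact le_max_right _ _
  have hee : ∀ i < R, e i ≤ e (i + 1) := by
    intro i hi
    have h1 := hnext i hi
    have hρ := S.r_pos (g i - g i / 8)
    have hrg := S.r_pos (g i)
    have h2 : S.r (g i) ≤ S.r (g i - g i / 8) := S.r_anti (Nat.sub_le _ _)
    have h3 : (1 : ℝ) / 2 ^ e (i + 1) ≤ 1 / 2 ^ e i := by
      have h4 : 160 * S.r (g i - g i / 8) * (1 / 2 ^ e (i + 1)) ≤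
          160 * S.r (g i - g i / 8) * (S.r (g i - g i / 8) / 160) := by
        calc _ ≤ S.r (g i) ^ 2 := h1
          _ ≤ S.r (g i - g i / 8) ^ 2 := by gcongr
          _ = _ := by ring
      have h5 := le_of_mul_le_mul_left h4 (by positivity)
      linarith [(he i hi.le).1]
    by_contra hcon
    push Not at hcon
    have h6 : (2 : ℝ) ^ e (i + 1) < 2 ^ e i := pow_lt_pow_right₀ (by norm_num) hcon
    have h7 : (1 : ℝ) / 2 ^ e i < 1 / 2 ^ e (i + 1) :=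
      one_div_lt_one_div_of_lt (by positivity) h6
    linarith
  -- one scale
  have hsc : ∀ i, ∃ Suc Suc' Fl : Set ℝ, i < R → (MeasurableSet Suc ∧
      (∀ a < 2 ^ e i, (∀ t ∈ dy (e i) a, S.good 0 t) → ∀ Λ : ℝ, 0 < Λ →
        ∫ t in dy (e i) a, S.hh (g i) t ≤ Λ * (1 / 2 ^ e i) →
        ENNReal.ofReal (1 / 2 ^ e i / (2560 * Λ)) ≤ volume (Suc ∩ dy (e i) a)) ∧
      (∀ a < 2 ^ e (i + 1), (Suc ∩ dy (e (i + 1)) a).Nonempty → dy (e (i + 1)) a ⊆ Suc') ∧
      volume Fl ≤ ENNReal.ofReal (∑ g' ∈ Finset.Ico (g i) G, VC.err S g') ∧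
      ∀ t ∈ Suc', t ∉ Fl → t ∉ S.Bad (g i) G → ∀ g', g i ≤ g' → g' ≤ G →
        (1 / 4) ^ (g i - g i / 8) / 64 ≤ S.z 0 g' t) := by
    intro i
    by_cases hi : i < R
    · obtain ⟨Suc, Suc', Fl, h1, -, h3, h4, h5, h6⟩ := S.scaleLemma hr hs (g i) G (e i) (e (i + 1))
        (hgG i hi.le) (he i hi.le).1 (he i hi.le).2 (hsm i hi.le).1 (hsm i hi.le).2.1 (hee i hi)
        (hnext i hi)
      exact ⟨Suc, Suc', Fl, fun _ => ⟨h1, h3, h4, h5, h6⟩⟩
    · exact ⟨∅, ∅, ∅, fun h => absurd h hi⟩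
  choose Suc Suc' Fl hS using hsc
  -- the grid
  have hgrid := grid R e hee {t : ℝ | S.good 0 t} S.good_ordConnected Suc Suc'
    (fun i hi => (hS i hi).1) (fun i => S.hh (g i)) (fun i _ t => S.hh_nonneg (g i) t)
    (fun i _ => ((S.hh_cont (g i)).integrableOn_Icc (a := 1) (b := 2)).mono_set
      Ico_subset_Icc_self) C0 δ η hC0p hδ0 hη0 hη1
    (fun i hi => by
      apply (S.hh_int (g i) Ce _).trans (le_max_left _ _)
      apply hCe
      have h1 : S.nb 0 (g i - g i / 8 + g i / 8) ≤ 7 := by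
        rw [Nat.sub_add_cancel (Nat.div_le_self _ _)]
        exact hnbi i hi.le
      rw [S.nb_add, zero_add] at h1
      omega)
    (fun i hi a ha hsub hint => by
      have h1 := (hS i hi).2.1 a ha (fun t ht => hsub ht) (C0 / δ) (by positivity) hint
      have h2 : (1 : ℝ) / 2 ^ e i / (2560 * (C0 / δ)) = η * (1 / 2 ^ e i) := by
        rw [hη]
        field_simp
      rw [h2] at h1
      exact h1)
    (fun i hi a ha hne => (hS i hi).2.2.1 a ha hne)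
  -- the covering
  have hcov : {t | t ∈ Icc 1 2 ∧ S.good 0 t ∧ ∃ g', g R + 1 ≤ g' ∧ g' ≤ G ∧
      S.z 0 g' t < (1 / 4) ^ (g R) / 64} ⊆
      ({2} ∪ (({t : ℝ | S.good 0 t} ∩ Ico 1 2) \ ⋃ i < R, Suc' i)) ∪
        ((⋃ i ∈ Finset.range R, Fl i) ∪ S.Bad (g 0) G) := by
    rintro t ⟨ht, hgood, g', hg1, hg2, hz⟩
    by_contra hcon
    simp only [mem_union, mem_singleton_iff, mem_sdiff, mem_inter_iff, mem_ofPred_eq, mem_iUnion,
      Finset.mem_range, exists_prop, not_or, not_and, not_exists] at hcon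
    obtain ⟨⟨ht2, h1⟩, h2, h3⟩ := hcon
    have ht' : t ∈ Ico (1 : ℝ) 2 := ⟨ht.1, lt_of_le_of_ne ht.2 ht2⟩
    have h4 : ∃ i, i < R ∧ t ∈ Suc' i := by
      by_contra hc
      push Not at hc
      exact h1 ⟨hgood, ht'⟩ (fun i hi => hc i hi)
    obtain ⟨i, hi, hti⟩ := h4
    have h5 := (hS i hi).2.2.2.2 t hti (h2 i hi)
      (fun h => h3 (S.Bad_anti (hgm.monotone (Nat.zero_le i)) G h)) g' (by
        have := hgm.monotone hi.le
        omega) hg2
    have h6 : (1 / 4 : ℝ) ^ (g R) ≤ (1 / 4) ^ (g i - g i / 8) := by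
      apply pow_le_pow_of_le_one (by norm_num) (by norm_num)
      exact (Nat.sub_le _ _).trans (hgm.monotone hi.le)
    linarith
  have hρ0 : S.r (g 0 - g 0 / 8) ≤ ε₁ / 2560 := ((hsm 0 (Nat.zero_le _)).2.2.1).trans hε₂b
  have m1 : volume (({t : ℝ | S.good 0 t} ∩ Ico 1 2) \ ⋃ i < R, Suc' i) ≤
      ENNReal.ofReal (3 * ε₁ / 8) := by
    refine hgrid.trans (ENNReal.ofReal_le_ofReal ?_)
    have h1 := (he 0 (Nat.zero_le _)).2
    have h2 : (2 : ℝ) / 2 ^ e 0 = 2 * (1 / 2 ^ e 0) := by ring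
    rw [h2]
    linarith
  have m2 : volume (⋃ i ∈ Finset.range R, Fl i) ≤ ENNReal.ofReal (ε₁ / 8) := by
    refine (measure_biUnion_finset_le _ _).trans ?_
    have h1 : ∀ i ∈ Finset.range R, volume (Fl i) ≤ ENNReal.ofReal (ε₁ / (8 * (R + 1))) := by
      intro i hi
      have hi' := Finset.mem_range.1 hi
      refine ((hS i hi').2.2.2.1).trans (ENNReal.ofReal_le_ofReal ?_)
      exact ((hsm i hi'.le).2.2.2).trans hε₂a
    refine (Finset.sum_le_sum h1).trans ?_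
    rw [Finset.sum_const, Finset.card_range, ← ENNReal.ofReal_nsmul]
    apply ENNReal.ofReal_le_ofReal
    rw [nsmul_eq_mul, mul_div_assoc', div_le_div_iff₀ (by positivity) (by norm_num)]
    nlinarith
  have m3 : volume (S.Bad (g 0) G) ≤ ENNReal.ofReal (ε₁ / 8) :=
    hgb S hr (g 0) G (le_max_right _ _) (hgG 0 (Nat.zero_le _)) hnb
  calc volume {t | t ∈ Icc 1 2 ∧ S.good 0 t ∧ ∃ g', g R + 1 ≤ g' ∧ g' ≤ G ∧
      S.z 0 g' t < (1 / 4) ^ (g R) / 64}
      ≤ volume (({2} ∪ (({t : ℝ | S.good 0 t} ∩ Ico 1 2) \ ⋃ i < R, Suc' i)) ∪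
        ((⋃ i ∈ Finset.range R, Fl i) ∪ S.Bad (g 0) G)) := measure_mono hcov
    _ ≤ (volume ({2} : Set ℝ) + volume (({t : ℝ | S.good 0 t} ∩ Ico 1 2) \ ⋃ i < R, Suc' i)) +
        (volume (⋃ i ∈ Finset.range R, Fl i) + volume (S.Bad (g 0) G)) :=
        (measure_union_le _ _).trans (add_le_add (measure_union_le _ _) (measure_union_le _ _))
    _ ≤ (0 + ENNReal.ofReal (3 * ε₁ / 8)) + (ENNReal.ofReal (ε₁ / 8) + ENNReal.ofReal (ε₁ / 8)) := by
        gcongr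
        rw [Real.volume_singleton]
    _ = ENNReal.ofReal (3 * ε₁ / 8 + (ε₁ / 8 + ε₁ / 8)) := by
        rw [zero_add, ← ENNReal.ofReal_add (by positivity) (by positivity),
          ← ENNReal.ofReal_add (by positivity) (by positivity)]
    _ ≤ ENNReal.ofReal ε := by
        apply ENNReal.ofReal_le_ofReal
        have : ε₁ ≤ ε := min_le_left _ _
        linarith

end Sys
end Pool.Agent.VC
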