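import Pool.Agent.VC.Energy

set_option autoImplicit false

open MeasureTheory Set

namespace Pool.Agent.VC
namespace Sys

/-- the slopes with a large `L¹` increment -/
def BB (S : Sys) (b j : ℕ) (ω : ℝ) : Set ℝ := {t | t ∈ Icc 1 2 ∧ ω < ∫ x, |S.D b j t x|}

theorem measurableSet_BB (S : Sys) (b j : ℕ) (ω : ℝ) : MeasurableSet (S.BB b j ω) :=
  measurableSet_Icc.inter (measurableSet_lt measurable_const (S.D_abs_cont b j).measurable)

private theorem mv_sq_cont (S : Sys) (b j : ℕ) : Continuous (fun t => ∫ x, S.D b j t x ^ 2) := by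
  have h := S.D_corr_cont b j (fun _ => 0) continuous_const
  have e : (fun t => ∫ x, S.D b j t x ^ 2) =
      fun t => ∫ x, S.D b j t x * S.D b j t (x + (fun _ => (0 : ℝ)) t) := by
    funext t
    congr 1
    funext x
    simp only [add_zero]
    ring
  rw [e]
  exact h

theorem vol_BB : ∃ C : ℝ, 0 < C ∧ ∀ (S : Sys) (b j : ℕ) (ω : ℝ), 0 < ω → S.nb b (j + 1) ≤ 7 →
    volume (S.BB b j ω) ≤ ENNReal.ofReal (C * (3 / 4) ^ j / ω ^ 2) := by
  obtain ⟨C, hC, h⟩ := dEnergy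
  refine ⟨4 * C, by positivity, ?_⟩
  intro S b j ω hω hnb
  have hE := h S b j hnb
  have hr := S.r_pos b
  have hfc := mv_sq_cont S b j
  have hf0 : ∀ t, 0 ≤ ∫ x, S.D b j t x ^ 2 := fun t => integral_nonneg fun x => sq_nonneg _
  have hci : Integrable (fun t => chi t * ∫ x, S.D b j t x ^ 2) := chi_mul_integrable hfc
  have hci' : Integrable (fun t => 4 * S.r b * (chi t * ∫ x, S.D b j t x ^ 2)) :=
    hci.const_mul _
  have hsub : S.BB b j ω ⊆ Icc 1 2 := fun t ht => ht.1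
  have hfin : volume (S.BB b j ω) ≠ ⊤ :=
    ne_top_of_le_ne_top (by simp [Real.volume_Icc]) (measure_mono hsub)
  have hpt : ∀ t ∈ S.BB b j ω, ω ^ 2 ≤ 4 * S.r b * (chi t * ∫ x, S.D b j t x ^ 2) := by
    intro t ht
    have h1 : (∫ x, |S.D b j t x|) ^ 2 ≤ 4 * S.r b * ∫ x, S.D b j t x ^ 2 :=
      l1_sq_le (S.r b) hr _ (S.D_cont_right b j t)
        (fun x hx => S.D_zero_of b j t x ht.1.1 ht.1.2 hx)
    have h2 : ω ^ 2 ≤ (∫ x, |S.D b j t x|) ^ 2 := pow_le_pow_left₀ hω.le ht.2.le 2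
    have h3 : 1 ≤ chi t := one_le_chi ht.1.1 ht.1.2
    have h4 : ∫ x, S.D b j t x ^ 2 ≤ chi t * ∫ x, S.D b j t x ^ 2 :=
      le_mul_of_one_le_left (hf0 t) h3
    have h5 := mul_le_mul_of_nonneg_left h4 (by positivity : (0 : ℝ) ≤ 4 * S.r b)
    linarith
  have h6 : volume.real (S.BB b j ω) * ω ^ 2 ≤ 4 * C * (3 / 4) ^ j := by
    have h7 : ∫ t in S.BB b j ω, ω ^ 2 = volume.real (S.BB b j ω) * ω ^ 2 := by
      rw [setIntegral_const, smul_eq_mul]
    have h8 : ∫ t in S.BB b j ω, ω ^ 2 ≤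
        ∫ t in S.BB b j ω, 4 * S.r b * (chi t * ∫ x, S.D b j t x ^ 2) :=
      setIntegral_mono_on (integrableOn_const hfin) hci'.integrableOn
        (S.measurableSet_BB b j ω) hpt
    have h9 : ∫ t in S.BB b j ω, 4 * S.r b * (chi t * ∫ x, S.D b j t x ^ 2) ≤
        ∫ t, 4 * S.r b * (chi t * ∫ x, S.D b j t x ^ 2) := by
      refine setIntegral_le_integral hci' (Filter.Eventually.of_forall fun t => ?_)
      have := mul_nonneg (chi_nonneg t) (hf0 t)
      show (0 : ℝ) ≤ 4 * S.r b * (chi t * ∫ x, S.D b j t x ^ 2)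
      positivity
    have h9' : ∫ t, 4 * S.r b * (chi t * ∫ x, S.D b j t x ^ 2) =
        4 * S.r b * ∫ t, chi t * ∫ x, S.D b j t x ^ 2 := integral_const_mul _ _
    rw [h9'] at h9
    have h10 := mul_le_mul_of_nonneg_left hE (by positivity : (0 : ℝ) ≤ 4 * S.r b)
    have h11 : 4 * S.r b * (C / S.r b * (3 / 4) ^ j) = 4 * C * (3 / 4) ^ j := by
      field_simp
    linarith
  have h12 : volume (S.BB b j ω) = ENNReal.ofReal (volume.real (S.BB b j ω)) := by
    rw [Measure.real, ENNReal.ofReal_toReal hfin]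
  rw [h12]
  refine ENNReal.ofReal_le_ofReal ?_
  rw [le_div_iff₀ (by positivity)]
  exact h6

private theorem mv_cont (S : Sys) (b j : ℕ) (Zx Zy : ℝ) :
    Continuous (fun t => |S.D b j t (Zx + t * Zy)|) := by
  have h := (S.D_cont b j).comp (f := fun t : ℝ => ((t, Zx + t * Zy) : ℝ × ℝ)) (by fun_prop)
  exact h.abs

private theorem mv_intOn (S : Sys) (b j : ℕ) (ω Zx Zy : ℝ) (b' j' : ℕ) :
    IntegrableOn (fun t => |S.D b j t (Zx + t * Zy)|) (Icc 1 2 \ S.BB b' j' ω) :=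
  ((mv_cont S b j Zx Zy).continuousOn.integrableOn_compact isCompact_Icc).mono_set diff_subset

/-- a moving point, base `b` -/
theorem moving (S : Sys) (b j : ℕ) (ω Zx Zy : ℝ) (hω : 0 ≤ ω) (hZ : 1 / 15 ≤ |Zy|) :
    ∫ t in Icc 1 2 \ S.BB b j ω, |S.D b j t (Zx + t * Zy)| ≤
      15 * ω + 7200 * S.r b ^ 3 / S.r (b + j + 1) ^ 2 := by
  have hR := S.r_pos b
  have hρ := S.r_pos (b + j + 1)
  have hZp : 0 < |Zy| := by linarith
  have hZ0 : Zy ≠ 0 := abs_pos.mp hZp
  have hmA : MeasurableSet (Icc (1 : ℝ) 2 \ S.BB b j ω) :=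
    measurableSet_Icc.diff (S.measurableSet_BB b j ω)
  by_cases hT : ∃ t ∈ Icc (1 : ℝ) 2 \ S.BB b j ω, |Zx + t * Zy| < 2 * S.r b
  swap
  · have h0 : ∀ t ∈ Icc (1 : ℝ) 2 \ S.BB b j ω, |S.D b j t (Zx + t * Zy)| = 0 := by
      intro t ht
      rw [abs_eq_zero]
      refine S.D_zero_of b j t _ ht.1.1 ht.1.2 ?_
      by_contra hc
      exact hT ⟨t, ht, not_le.mp hc⟩
    rw [setIntegral_congr_fun hmA h0]
    simp only [integral_zero]
    positivity
  obtain ⟨s, hs, hsZ⟩ := hT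
  have hsω : ∫ x, |S.D b j s x| ≤ ω := by
    by_contra hc
    exact hs.2 ⟨hs.1, not_le.mp hc⟩
  have hDi : Integrable (fun x => |S.D b j s x|) :=
    ((S.D_cont_right b j s).integrable_of_hasCompactSupport (S.D_compact b j s)).abs
  have hDi1 : Integrable (fun x => |S.D b j s (Zx + x)|) := hDi.comp_add_left Zx
  have hDi2 : Integrable (fun t => |S.D b j s (Zx + t * Zy)|) := hDi1.comp_mul_right' hZ0
  have hDe : ∫ t, |S.D b j s (Zx + t * Zy)| = |Zy⁻¹| * ∫ x, |S.D b j s x| := by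
    have h1 := Measure.integral_comp_mul_right (fun x => |S.D b j s (Zx + x)|) Zy
    rw [smul_eq_mul, integral_add_left_eq_self (fun x => |S.D b j s x|) Zx] at h1
    exact h1
  have hinv : |Zy⁻¹| ≤ 15 := by
    rw [abs_inv]
    have := inv_anti₀ (by norm_num : (0 : ℝ) < 1 / 15) hZ
    linarith
  -- the interval of interesting slopes
  set J : Set ℝ := Metric.ball (-Zx / Zy) (2 * S.r b / |Zy|) with hJ
  have hJm : ∀ t, |Zx + t * Zy| < 2 * S.r b → t ∈ J := by
    intro t ht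
    rw [hJ, Metric.mem_ball, Real.dist_eq, lt_div_iff₀ hZp, ← abs_mul]
    have : (t - -Zx / Zy) * Zy = Zx + t * Zy := by
      field_simp
      ring
    rw [this]
    exact ht
  have hJv : volume.real J = 2 * (2 * S.r b / |Zy|) := by
    rw [hJ, Measure.real, Real.volume_ball, ENNReal.toReal_ofReal (by positivity)]
  have hJfin : volume J ≠ ⊤ := by
    rw [hJ, Real.volume_ball]
    exact ENNReal.ofReal_ne_top
  have hJi : Integrable (J.indicator (fun _ => 120 * S.r b ^ 2 / S.r (b + j + 1) ^ 2)) :=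
    (integrable_indicator_iff Metric.isOpen_ball.measurableSet).mpr (integrableOn_const hJfin)
  have hdiv : S.r b / |Zy| ≤ 15 * S.r b := by
    rw [div_le_iff₀ hZp]
    nlinarith
  have hpt : ∀ t ∈ Icc (1 : ℝ) 2 \ S.BB b j ω, |S.D b j t (Zx + t * Zy)| ≤
      |S.D b j s (Zx + t * Zy)| +
        J.indicator (fun _ => 120 * S.r b ^ 2 / S.r (b + j + 1) ^ 2) t := by
    intro t ht
    by_cases hc : |Zx + t * Zy| < 2 * S.r b
    · rw [indicator_of_mem (hJm t hc)]
      have h1 := S.D_lip b j t s (Zx + t * Zy) (Zx + t * Zy)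
      rw [sub_self, abs_zero, zero_add] at h1
      have h2 : |t - s| * |Zy| ≤ 4 * S.r b := by
        rw [← abs_mul]
        have h3 : (t - s) * Zy = (Zx + t * Zy) - (Zx + s * Zy) := by ring
        rw [h3]
        refine (abs_sub _ _).trans ?_
        linarith
      have h4 : |t - s| ≤ 60 * S.r b := by
        have h5 : |t - s| ≤ 4 * S.r b / |Zy| := by rwa [le_div_iff₀ hZp]
        have h6 : 4 * S.r b / |Zy| = 4 * (S.r b / |Zy|) := by ring
        rw [h6] at h5
        linarith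
      have h7 : 2 * (|t - s| * S.r b) / S.r (b + j + 1) ^ 2 ≤
          120 * S.r b ^ 2 / S.r (b + j + 1) ^ 2 := by
        refine div_le_div_of_nonneg_right ?_ (by positivity)
        nlinarith
      have h8 : |S.D b j t (Zx + t * Zy)| ≤ |S.D b j s (Zx + t * Zy)| +
          |S.D b j t (Zx + t * Zy) - S.D b j s (Zx + t * Zy)| := by
        have := abs_add_le (S.D b j s (Zx + t * Zy))
          (S.D b j t (Zx + t * Zy) - S.D b j s (Zx + t * Zy))
        rw [add_sub_cancel] at this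
        exact this
      linarith
    · rw [S.D_zero_of b j t _ ht.1.1 ht.1.2 (not_lt.mp hc), abs_zero]
      refine add_nonneg (abs_nonneg _) (indicator_nonneg (fun _ _ => by positivity) _)
  have h1 : ∫ t in Icc 1 2 \ S.BB b j ω, |S.D b j t (Zx + t * Zy)| ≤
      ∫ t in Icc 1 2 \ S.BB b j ω, (|S.D b j s (Zx + t * Zy)| +
        J.indicator (fun _ => 120 * S.r b ^ 2 / S.r (b + j + 1) ^ 2) t) :=
    setIntegral_mono_on (mv_intOn S b j ω Zx Zy b j) (hDi2.add hJi).integrableOn hmA hpt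
  have h2 : ∫ t in Icc 1 2 \ S.BB b j ω, (|S.D b j s (Zx + t * Zy)| +
        J.indicator (fun _ => 120 * S.r b ^ 2 / S.r (b + j + 1) ^ 2) t) ≤
      ∫ t, (|S.D b j s (Zx + t * Zy)| +
        J.indicator (fun _ => 120 * S.r b ^ 2 / S.r (b + j + 1) ^ 2) t) := by
    refine setIntegral_le_integral (hDi2.add hJi) (Filter.Eventually.of_forall fun t => ?_)
    exact add_nonneg (abs_nonneg _) (indicator_nonneg (fun _ _ => by positivity) _)
  rw [integral_add hDi2 hJi, hDe, integral_indicator Metric.isOpen_ball.measurableSet,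
    setIntegral_const, smul_eq_mul, hJv] at h2
  have h3 : |Zy⁻¹| * ∫ x, |S.D b j s x| ≤ 15 * ω := by
    have h4 : 0 ≤ ∫ x, |S.D b j s x| := integral_nonneg fun x => abs_nonneg _
    calc |Zy⁻¹| * ∫ x, |S.D b j s x| ≤ 15 * ∫ x, |S.D b j s x| :=
          mul_le_mul_of_nonneg_right hinv h4
      _ ≤ 15 * ω := by linarith
  have h5 : 2 * (2 * S.r b / |Zy|) * (120 * S.r b ^ 2 / S.r (b + j + 1) ^ 2) ≤
      7200 * S.r b ^ 3 / S.r (b + j + 1) ^ 2 := by
    have h6 : 2 * (2 * S.r b / |Zy|) ≤ 60 * S.r b := by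
      have h7 : 2 * (2 * S.r b / |Zy|) = 4 * (S.r b / |Zy|) := by ring
      rw [h7]
      linarith
    have h8 : (0 : ℝ) ≤ 120 * S.r b ^ 2 / S.r (b + j + 1) ^ 2 := by positivity
    refine (mul_le_mul_of_nonneg_right h6 h8).trans (le_of_eq ?_)
    ring
  linarith

/-- a moving point, seen from the generation `m ≤ b = m + i` -/
theorem moving' (S : Sys) (m i j : ℕ) (hm : S.r m ≤ 1 / 30) (ω Yx Yy : ℝ) (hω : 0 ≤ ω)
    (hY : 1 / 10 ≤ |Yy|) :
    ∫ t in Icc 1 2 \ S.BB (m + i) j ω, |S.D m (i + j) t (Yx + t * Yy)| ≤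
      15 * ω + 7200 * S.r (m + i) ^ 3 / S.r (m + i + j + 1) ^ 2 := by
  have hmA : MeasurableSet (Icc (1 : ℝ) 2 \ S.BB (m + i) j ω) :=
    measurableSet_Icc.diff (S.measurableSet_BB (m + i) j ω)
  have hE := S.E_integral (volume.restrict (Icc (1 : ℝ) 2 \ S.BB (m + i) j ω)) i m
    (fun t u w => |S.D (m + i) j t ((Yx + u) + t * (Yy + w))|)
    (fun u w => mv_intOn S (m + i) j ω (Yx + u) (Yy + w) (m + i) j)
  have hpt : ∀ t ∈ Icc (1 : ℝ) 2 \ S.BB (m + i) j ω, |S.D m (i + j) t (Yx + t * Yy)| ≤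
      S.E i m (fun u w => |S.D (m + i) j t ((Yx + u) + t * (Yy + w))|) := by
    intro t _
    rw [S.D_comp m i j t]
    have e : (fun u w => S.D (m + i) j t (Yx + t * Yy + (u + t * w))) =
        fun u w => S.D (m + i) j t ((Yx + u) + t * (Yy + w)) := by
      funext u w
      congr 1
      ring
    rw [e]
    exact S.abs_E_le i m _
  refine (setIntegral_mono_on (mv_intOn S m (i + j) ω Yx Yy (m + i) j) hE.1 hmA hpt).trans ?_
  rw [hE.2]
  have hc := S.E_const i m (15 * ω + 7200 * S.r (m + i) ^ 3 / S.r (m + i + j + 1) ^ 2)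
  rw [← hc]
  refine S.E_mono_supp i m _ _ fun u w _ hw => ?_
  refine S.moving (m + i) j ω (Yx + u) (Yy + w) hω ?_
  have h1 : |w| ≤ 1 / 30 := by
    have h2 := (S.Qpos (m + i)).le
    have h3 := S.Q_le_r m
    linarith
  have h4 : |Yy| ≤ |Yy + w| + |w| := by
    have := abs_sub (Yy + w) w
    rwa [add_sub_cancel_right] at this
  linarith

end Sys
end Pool.Agent.VC
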