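import Pool.Agent.VC.HBasic
import Pool.Agent.VC.L2id

/-! # Project VC (MP_0b5e13_an), row OneInt: success in one interval of slopes -/

set_option autoImplicit false

open MeasureTheory Set

namespace Pool.Agent.VC
namespace Sys

/-- a slope in the interval with small energy -/
private theorem oi_exists (S : Sys) (m j : ℕ) (a l Λ : ℝ) (hl : 0 < l)
    (hh : ∫ t in Ico a (a + l), S.r m * (∫ x, S.H m j t x ^ 2) ≤ Λ * l) :
    ∃ t ∈ Ico a (a + l), S.r m * (∫ x, S.H m j t x ^ 2) ≤ Λ := by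
  have hc : Continuous (fun t => S.r m * (∫ x, S.H m j t x ^ 2)) := by
    have h := S.H_corr_cont m j (fun _ => 0) continuous_const
    have h2 : (fun t => ∫ x, S.H m j t x * S.H m j t (x + 0)) =
        fun t => ∫ x, S.H m j t x ^ 2 := by
      funext t
      refine integral_congr_ae (Filter.Eventually.of_forall fun x => ?_)
      show S.H m j t x * S.H m j t (x + 0) = S.H m j t x ^ 2
      rw [add_zero, pow_two]
    rw [h2] at h
    exact continuous_const.mul h
  have hv : volume (Ico a (a + l)) = ENNReal.ofReal l := by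
    rw [Real.volume_Ico]
    congr 1
    ring
  have hI : IntegrableOn (fun t => S.r m * (∫ x, S.H m j t x ^ 2)) (Ico a (a + l)) :=
    (hc.integrableOn_Icc (a := a) (b := a + l)).mono_set Ico_subset_Icc_self
  obtain ⟨t, ht, hle⟩ := exists_le_setAverage (μ := volume) (s := Ico a (a + l))
    (f := fun t => S.r m * (∫ x, S.H m j t x ^ 2))
    (by rw [hv]; exact (ENNReal.ofReal_pos.2 hl).ne') (by rw [hv]; exact ENNReal.ofReal_ne_top) hI
  refine ⟨t, ht, hle.trans ?_⟩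
  rw [setAverage_eq, Measure.real, hv, ENNReal.toReal_ofReal hl.le, smul_eq_mul,
    inv_mul_le_iff₀ hl]
  linarith

/-- success at a finite level in one interval of slopes -/
theorem oneInt (S : Sys) (hr : S.r 0 = 1) (m j : ℕ) (a l Λ Yx Yy : ℝ) (h1 : 1 ≤ a) (h2 : a + l ≤ 2)
    (hl1 : 80 * S.r m ≤ l) (hl2 : l ≤ 160 * S.r m) (hfr : 16 * S.r m ^ 2 * l ≤ S.r (m + j) ^ 2)
    (hY : |Yx + (a + l / 2) * Yy| ≤ 2 * S.r m) (hY1 : 1 / 10 ≤ |Yy|) (hY2 : |Yy| ≤ 4)
    (hΛ : 0 < Λ) (hh : ∫ t in Ico a (a + l), S.r m * (∫ x, S.H m j t x ^ 2) ≤ Λ * l) :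
    ENNReal.ofReal (l / (2560 * Λ)) ≤
      volume {t | t ∈ Ico a (a + l) ∧ 1 / 16 ≤ S.r m * S.H m j t (Yx + t * Yy)} := by
  have hρ := S.r_pos m
  have hR := S.r_pos (m + j)
  have hl : 0 < l := by linarith
  obtain ⟨tJ, htJ, hE⟩ := oi_exists S m j a l Λ hl hh
  have ht1 : 1 ≤ tJ := h1.trans htJ.1
  have ht2 : tJ ≤ 2 := htJ.2.le.trans h2
  set f : ℝ → ℝ := S.H m j tJ with hf
  have hfc : Continuous f := S.H_cont_right m j tJ
  have hs : ∀ x, 2 * S.r m ≤ |x| → f x = 0 := fun x hx => S.H_zero_of m j tJ x ht1 ht2 hx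
  have hI : ∫ x, f x = 1 := S.H_integral m j tJ
  have hpz := pz (S.r m) hρ f hfc (fun x => S.H_nonneg m j tJ x) hs hI
  have hpos : 0 < ∫ x, f x ^ 2 := by
    have h3 := l1_sq_le (S.r m) hρ f hfc hs
    have h4 : ∫ x, |f x| = 1 := by
      rw [← hI]
      refine integral_congr_ae (Filter.Eventually.of_forall fun x => ?_)
      exact abs_of_nonneg (S.H_nonneg m j tJ x)
    rw [h4, one_pow] at h3
    by_contra h5
    push Not at h5
    nlinarith
  set T : Set ℝ := {x | x ∈ Icc (-(2 * S.r m)) (2 * S.r m) ∧ 1 / 8 ≤ S.r m * f x} with hT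
  have hy0 : Yy ≠ 0 := by
    rintro rfl
    rw [abs_zero] at hY1
    linarith
  have hvol : volume ((fun t => Yx + t * Yy) ⁻¹' T) = ENNReal.ofReal |Yy⁻¹| * volume T := by
    have h3 : (fun t => Yx + t * Yy) ⁻¹' T = (fun t => t * Yy) ⁻¹' ((fun x => Yx + x) ⁻¹' T) := rfl
    rw [h3, Real.volume_preimage_mul_right hy0, measure_preimage_add]
  have hsub : (fun t => Yx + t * Yy) ⁻¹' T \ {a + l} ⊆
      {t | t ∈ Ico a (a + l) ∧ 1 / 16 ≤ S.r m * S.H m j t (Yx + t * Yy)} := by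
    rintro t ⟨⟨hx, h8⟩, hne⟩
    rw [mem_singleton_iff] at hne
    have hx' : |Yx + t * Yy| ≤ 2 * S.r m := abs_le.2 ⟨hx.1, hx.2⟩
    have h3 : |t - (a + l / 2)| * |Yy| ≤ 4 * S.r m := by
      rw [← abs_mul]
      have h4 : (t - (a + l / 2)) * Yy = (Yx + t * Yy) - (Yx + (a + l / 2) * Yy) := by ring
      rw [h4]
      refine (abs_sub _ _).trans ?_
      linarith
    have h5 : |t - (a + l / 2)| ≤ l / 2 := by
      have h6 := abs_nonneg (t - (a + l / 2))
      nlinarith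
    rw [abs_le] at h5
    have htI : t ∈ Ico a (a + l) := ⟨by linarith [h5.1], lt_of_le_of_ne (by linarith [h5.2]) hne⟩
    refine ⟨htI, ?_⟩
    have h7 := S.H_lip m j t tJ (Yx + t * Yy) (Yx + t * Yy)
    rw [sub_self, abs_zero, zero_add] at h7
    have h9 : |t - tJ| ≤ l := by
      rw [abs_le]
      constructor
      · linarith [htI.1, htJ.2]
      · linarith [htI.2, htJ.1]
    have h10 : S.r m * (|t - tJ| * S.r m / S.r (m + j) ^ 2) ≤ 1 / 16 := by
      rw [← mul_div_assoc, div_le_iff₀ (by positivity)]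
      nlinarith [mul_le_mul_of_nonneg_right h9 (by positivity : 0 ≤ S.r m ^ 2)]
    have h11 : S.r m * |S.H m j t (Yx + t * Yy) - S.H m j tJ (Yx + t * Yy)| ≤ 1 / 16 :=
      (mul_le_mul_of_nonneg_left h7 hρ.le).trans h10
    have h12 := neg_abs_le (S.H m j t (Yx + t * Yy) - S.H m j tJ (Yx + t * Yy))
    have h13 : 1 / 8 ≤ S.r m * S.H m j tJ (Yx + t * Yy) := h8
    nlinarith
  refine le_trans ?_ (measure_mono hsub)
  rw [measure_sdiff_null (measure_singleton _), hvol]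
  refine le_trans ?_ (mul_le_mul_right hpz (ENNReal.ofReal |Yy⁻¹|))
  rw [← ENNReal.ofReal_mul (abs_nonneg _)]
  refine ENNReal.ofReal_le_ofReal ?_
  have h3 : 1 / 4 ≤ |Yy⁻¹| := by
    rw [abs_inv, le_inv_comm₀ (by norm_num) (by linarith)]
    norm_num
    exact hY2
  have h4 : S.r m / (4 * Λ) ≤ 1 / (4 * ∫ x, f x ^ 2) := by
    rw [div_le_div_iff₀ (by positivity) (by positivity)]
    nlinarith
  have h5 : l / (2560 * Λ) ≤ 1 / 4 * (S.r m / (4 * Λ)) := by
    rw [← mul_div_assoc, div_le_div_iff₀ (by positivity) (by positivity)]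
    nlinarith
  refine h5.trans (mul_le_mul h3 h4 (by positivity) (abs_nonneg _))

end Sys
end Pool.Agent.VC
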