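import Mathlib

/-!
# Ordering with bounded prefix sums
-/

namespace Pool.Agent.VC

open Finset Classical

/-- partial orderings with bounded prefix sums -/
theorem order_aux {W : Type} [Fintype W] (u : W → ℝ) (B : ℝ) (hB0 : 0 ≤ B)
    (hB : ∀ w, |u w| ≤ B) (hu : ∑ w, u w = 0) (l : ℕ) (hl : l ≤ Fintype.card W) :
    ∃ f : Fin l → W, Function.Injective f ∧
      ∀ k : ℕ, |∑ i ∈ univ.filter (fun i : Fin l => (i : ℕ) < k), u (f i)| ≤ B := by
  induction l with
  | zero => exact ⟨Fin.elim0, fun i => i.elim0, fun k => by simpa using hB0⟩
  | succ l ih =>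
    obtain ⟨f, hf, hk⟩ := ih (by omega)
    have hs : |∑ i : Fin l, u (f i)| ≤ B := by
      have h := hk l
      rwa [Finset.filter_true_of_mem (fun i _ => i.2)] at h
    -- an unused element with the right sign
    have hun : ∃ w, w ∉ Set.range f ∧ |∑ i : Fin l, u (f i) + u w| ≤ B := by
      have hsum : ∑ w ∈ univ.filter (fun w => w ∉ Set.range f), u w = - ∑ i : Fin l, u (f i) := by
        have h1 : ∑ w ∈ univ.filter (fun w => w ∈ Set.range f), u w = ∑ i : Fin l, u (f i) := by
          rw [← Finset.sum_image (f := u) (g := f) (s := univ) (fun a _ b _ h => hf h)]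
          congr 1
          ext w
          simp
        have h2 := Finset.sum_filter_add_sum_filter_not univ (fun w => w ∈ Set.range f) u
        rw [hu, h1] at h2
        linarith
      have hne : (univ.filter (fun w => w ∉ Set.range f)).Nonempty := by
        by_contra hc
        rw [Finset.not_nonempty_iff_eq_empty, Finset.filter_eq_empty_iff] at hc
        have hsurj : Function.Surjective f := fun w => by
          have := hc (mem_univ w)
          simpa using this
        have := Fintype.card_le_of_surjective f hsurj
        rw [Fintype.card_fin] at this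
        omega
      rcases le_total 0 (∑ i : Fin l, u (f i)) with h0 | h0
      · obtain ⟨w, hw, hw2⟩ := Finset.exists_le_of_sum_le (f := u) (g := fun _ => (0 : ℝ)) hne
          (by rw [hsum]; simpa using h0)
        rw [Finset.mem_filter] at hw
        refine ⟨w, hw.2, ?_⟩
        have h3 := abs_le.mp hs
        have h4 := abs_le.mp (hB w)
        exact abs_le.mpr ⟨by linarith, by linarith⟩
      · obtain ⟨w, hw, hw2⟩ := Finset.exists_le_of_sum_le (f := fun _ => (0 : ℝ)) (g := u) hne
          (by rw [hsum]; simpa using h0)
        rw [Finset.mem_filter] at hw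
        refine ⟨w, hw.2, ?_⟩
        have h3 := abs_le.mp hs
        have h4 := abs_le.mp (hB w)
        exact abs_le.mpr ⟨by linarith, by linarith⟩
    obtain ⟨w, hw, hwB⟩ := hun
    refine ⟨Fin.snoc f w, ?_, ?_⟩
    · intro i j hij
      induction i using Fin.lastCases with
      | last =>
        induction j using Fin.lastCases with
        | last => rfl
        | cast j =>
          rw [Fin.snoc_last, Fin.snoc_castSucc] at hij
          exact absurd ⟨j, hij.symm⟩ hw
      | cast i =>
        induction j using Fin.lastCases with
        | last =>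
          rw [Fin.snoc_last, Fin.snoc_castSucc] at hij
          exact absurd ⟨i, hij⟩ hw
        | cast j =>
          rw [Fin.snoc_castSucc, Fin.snoc_castSucc] at hij
          rw [hf hij]
    · intro k
      rw [Finset.sum_filter, Fin.sum_univ_castSucc]
      simp only [Fin.val_castSucc, Fin.snoc_castSucc, Fin.val_last, Fin.snoc_last]
      rw [← Finset.sum_filter]
      by_cases hkl : l < k
      · rw [if_pos hkl, Finset.filter_true_of_mem (fun i _ => by have := i.2; omega)]
        exact hwB
      · rw [if_neg hkl, add_zero]
        exact hk k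

/-- Reals of absolute value at most `B` with sum `0` can be ordered with all prefix sums in
`[-B, B]`. -/
theorem exists_order {W : Type} [Fintype W] (u : W → ℝ) (B : ℝ) (hB0 : 0 ≤ B)
    (hB : ∀ w, |u w| ≤ B) (hu : ∑ w, u w = 0) :
    ∃ idx : W → ℕ, Function.Injective idx ∧
      ∀ k : ℕ, |∑ w ∈ univ.filter (fun w => idx w < k), u w| ≤ B := by
  obtain ⟨f, hf, hk⟩ := order_aux u B hB0 hB hu (Fintype.card W) le_rfl
  have hbij : Function.Bijective f := by
    rw [Fintype.bijective_iff_injective_and_card]
    exact ⟨hf, Fintype.card_fin _⟩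
  let e := Equiv.ofBijective f hbij
  refine ⟨fun w => (e.symm w : ℕ), fun a b h => e.symm.injective (Fin.ext h), fun k => ?_⟩
  have h := hk k
  have h2 : ∑ w ∈ univ.filter (fun w => (e.symm w : ℕ) < k), u w =
      ∑ i ∈ univ.filter (fun i : Fin (Fintype.card W) => (i : ℕ) < k), u (f i) := by
    rw [Finset.sum_filter, Finset.sum_filter, ← Equiv.sum_comp e]
    refine Finset.sum_congr rfl fun i _ => ?_
    rw [Equiv.symm_apply_apply]
    rfl
  rw [h2]
  exact h

end Pool.Agent.VC
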