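import Pool.Agent.VC.TreeBasic

set_option autoImplicit false

open MeasureTheory Set

namespace Pool.Agent.VC

/-- part of the kernel: common prefix of length exactly `k` -/
noncomputable def Kk {X : Type} (lab : ℕ → X → ℕ) (K : X → X → ℝ) (k : ℕ) (x y : X) : ℝ :=
  if lab k x = lab k y ∧ lab (k + 1) x ≠ lab (k + 1) y then K x y else 0

/-- the hypotheses on the sides: `s (k+1) ≤ q s k`, density `4^{-k}/s k ≤ 1` -/
structure Sides (n : ℕ) (s : ℕ → ℝ) (q : ℝ) : Prop where
  q0 : 0 < q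
  q1 : q < 1
  pos : ∀ k, 0 < s k
  dec : ∀ k, s (k + 1) ≤ q * s k
  den : ∀ k, 1 ≤ 4 ^ k * s k

section

variable {X : Type} [Fintype X] {n : ℕ} {lab : ℕ → X → ℕ}

/-- the distance of a function to its mean over a class -/
theorem pl_sub_ce (lab : ℕ → X → ℕ) (i : ℕ) (F : X → ℝ) (x : X) {B : ℝ}
    (h : ∀ x', lab i x' = lab i x → |F x - F x'| ≤ B) : |F x - ce lab i F x| ≤ B := by
  unfold ce
  set s := Finset.univ.filter (fun y => lab i y = lab i x) with hs
  have hx : x ∈ s := by rw [hs]; simp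
  have hc : (0 : ℝ) < s.card := Nat.cast_pos.2 (Finset.card_pos.2 ⟨x, hx⟩)
  have e : F x - (∑ y ∈ s, F y) / s.card = (∑ y ∈ s, (F x - F y)) / s.card := by
    rw [Finset.sum_sub_distrib, Finset.sum_const, nsmul_eq_mul]
    field_simp
  rw [e, abs_div, abs_of_pos hc, div_le_iff₀ hc]
  refine (Finset.abs_sum_le_sum_abs _ _).trans ?_
  calc ∑ y ∈ s, |F x - F y| ≤ ∑ y ∈ s, B := Finset.sum_le_sum fun y hy => by
        refine h y ?_
        rw [hs, Finset.mem_filter] at hy
        exact hy.2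
    _ = B * s.card := by rw [Finset.sum_const, nsmul_eq_mul, mul_comm]

theorem pl_ce_sub (lab : ℕ → X → ℕ) (i : ℕ) (F G : X → ℝ) (x : X) :
    ce lab i (fun y => F y - G y) x = ce lab i F x - ce lab i G x := by
  unfold ce
  rw [Finset.sum_sub_distrib, sub_div]

/-- a difference has mean zero -/
theorem pl_ce_md (T : IsTree n lab) {i : ℕ} (hi : i < n) (f : X → ℝ) (x : X) :
    ce lab i (md lab i f) x = 0 := by
  unfold ce
  rw [T.sum_class_md hi f x, zero_div]

/-- insert the difference in `x` -/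
theorem pl_diff_x (T : IsTree n lab) {i : ℕ} (hi : i ≤ n) (a b : X → ℝ)
    (ha : ∀ x, ce lab i a x = 0) (N : X → X → ℝ) :
    ∑ x, ∑ y, a x * N x y * b y =
      ∑ x, ∑ y, a x * (N x y - ce lab i (fun x' => N x' y) x) * b y := by
  have h : ∀ y, ∑ x, a x * ce lab i (fun x' => N x' y) x = 0 := by
    intro y
    rw [← T.sum_ce hi a (fun x' => N x' y)]
    exact Finset.sum_eq_zero fun x _ => by rw [ha x, zero_mul]
  rw [Finset.sum_comm, Finset.sum_comm (f := fun x y => a x *
    (N x y - ce lab i (fun x' => N x' y) x) * b y)]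
  refine Finset.sum_congr rfl fun y _ => ?_
  have e : ∀ x, a x * (N x y - ce lab i (fun x' => N x' y) x) * b y =
      a x * N x y * b y - (a x * ce lab i (fun x' => N x' y) x) * b y := fun x => by ring
  simp only [e]
  rw [Finset.sum_sub_distrib, ← Finset.sum_mul Finset.univ (fun x =>
    a x * ce lab i (fun x' => N x' y) x), h y, zero_mul, sub_zero]

/-- insert the difference in `y` -/
theorem pl_diff_y (T : IsTree n lab) {j : ℕ} (hj : j ≤ n) (a b : X → ℝ)
    (hb : ∀ x, ce lab j b x = 0) (N : X → X → ℝ) :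
    ∑ x, ∑ y, a x * N x y * b y =
      ∑ x, ∑ y, a x * (N x y - ce lab j (fun y' => N x y') y) * b y := by
  have h := pl_diff_x T hj b a hb (fun y x => N x y)
  rw [Finset.sum_comm, Finset.sum_comm (f := fun x y => a x *
    (N x y - ce lab j (fun y' => N x y') y) * b y)]
  have e1 : ∀ x y, b y * N x y * a x = a x * N x y * b y := fun x y => by ring
  have e2 : ∀ x y, b y * (N x y - ce lab j (fun y' => N x y') y) * a x =
      a x * (N x y - ce lab j (fun y' => N x y') y) * b y := fun x y => by ring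
  calc ∑ y, ∑ x, a x * N x y * b y = ∑ y, ∑ x, b y * N x y * a x :=
        Finset.sum_congr rfl fun y _ => Finset.sum_congr rfl fun x _ => (e1 x y).symm
    _ = _ := h
    _ = _ := Finset.sum_congr rfl fun y _ => Finset.sum_congr rfl fun x _ => e2 x y

/-- the bound for kernels supported on the classes of generation `k` -/
theorem pl_schur (T : IsTree n lab) {k : ℕ} (hk : k ≤ n) {B : ℝ} (hB : 0 ≤ B)
    (M : X → X → ℝ) (hM : ∀ x y, |M x y| ≤ if lab k x = lab k y then B else 0) (a b : X → ℝ) :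
    |∑ x, ∑ y, a x * M x y * b y| ≤
      B * 4 ^ (n - k) * (Real.sqrt (∑ x, a x ^ 2) * Real.sqrt (∑ x, b x ^ 2)) := by
  have h1 : ∀ x, |∑ y, a x * M x y * b y| ≤
      |a x| * (B * 4 ^ (n - k) * ce lab k (fun y => |b y|) x) := by
    intro x
    have hc : ((Finset.univ.filter (fun y => lab k y = lab k x)).card : ℝ) = 4 ^ (n - k) := by
      rw [T.card k hk x]
      push_cast
      rfl
    have h2 : (4 : ℝ) ^ (n - k) * ce lab k (fun y => |b y|) x =
        ∑ y ∈ Finset.univ.filter (fun y => lab k y = lab k x), |b y| := by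
      unfold ce
      rw [hc]
      field_simp
    rw [mul_assoc, h2]
    calc |∑ y, a x * M x y * b y| ≤ ∑ y, |a x * M x y * b y| := Finset.abs_sum_le_sum_abs _ _
      _ ≤ ∑ y, |a x| * (if lab k y = lab k x then B * |b y| else 0) := by
          refine Finset.sum_le_sum fun y _ => ?_
          rw [abs_mul, abs_mul, mul_assoc]
          refine mul_le_mul_of_nonneg_left ?_ (abs_nonneg _)
          have h3 := hM x y
          by_cases h4 : lab k y = lab k x
          · rw [if_pos h4]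
            rw [if_pos h4.symm] at h3
            exact mul_le_mul_of_nonneg_right h3 (abs_nonneg _)
          · rw [if_neg h4]
            rw [if_neg (fun h => h4 h.symm)] at h3
            have h5 : |M x y| = 0 := le_antisymm h3 (abs_nonneg _)
            rw [h5, zero_mul]
      _ = _ := by
          rw [← Finset.mul_sum, Finset.mul_sum (Finset.univ.filter (fun y => lab k y = lab k x)),
            Finset.sum_filter]
  calc |∑ x, ∑ y, a x * M x y * b y| ≤ ∑ x, |∑ y, a x * M x y * b y| :=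
        Finset.abs_sum_le_sum_abs _ _
    _ ≤ ∑ x, |a x| * (B * 4 ^ (n - k) * ce lab k (fun y => |b y|) x) :=
        Finset.sum_le_sum fun x _ => h1 x
    _ = B * 4 ^ (n - k) * ∑ x, |a x| * ce lab k (fun y => |b y|) x := by
        rw [Finset.mul_sum]
        exact Finset.sum_congr rfl fun x _ => by ring
    _ ≤ _ := by
        refine mul_le_mul_of_nonneg_left ?_ (by positivity)
        refine (Real.sum_mul_le_sqrt_mul_sqrt _ _ _).trans ?_
        have h2 : ∑ x, |a x| ^ 2 = ∑ x, a x ^ 2 := Finset.sum_congr rfl fun x _ => sq_abs _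
        have h3 : ∑ x, ce lab k (fun y => |b y|) x ^ 2 ≤ ∑ x, b x ^ 2 := by
          refine (T.sum_ce_sq hk _).trans (le_of_eq ?_)
          exact Finset.sum_congr rfl fun x _ => sq_abs _
        rw [h2]
        exact mul_le_mul_of_nonneg_left (Real.sqrt_le_sqrt h3) (Real.sqrt_nonneg _)

theorem pl_kk_ne (K : X → X → ℝ) {k : ℕ} {x y : X} (h : lab k x ≠ lab k y) :
    Kk lab K k x y = 0 := by
  unfold Kk
  rw [if_neg (fun h1 => h h1.1)]

theorem pl_kk_eq (K : X → X → ℝ) {k : ℕ} {x y : X} (h : lab (k + 1) x = lab (k + 1) y) :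
    Kk lab K k x y = 0 := by
  unfold Kk
  rw [if_neg (fun h1 => h1.2 h)]

theorem pl_kk_pos (K : X → X → ℝ) {k : ℕ} {x y : X} (h : lab k x = lab k y)
    (h' : lab (k + 1) x ≠ lab (k + 1) y) : Kk lab K k x y = K x y := by
  unfold Kk
  rw [if_pos ⟨h, h'⟩]

/-- size of the kernel -/
theorem pl_size (s : ℕ → ℝ) {C : ℝ} (hC : 0 ≤ C) (hs : ∀ k, 0 < s k) {K : X → X → ℝ}
    (hK : IsCZ n lab s C K) {k : ℕ} (hk : k < n) (x y : X) :
    |Kk lab K k x y| ≤ if lab k x = lab k y then C / s k else 0 := by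
  have h0 : 0 ≤ C / s k := div_nonneg hC (hs k).le
  by_cases h1 : lab k x = lab k y
  · rw [if_pos h1]
    by_cases h2 : lab (k + 1) x = lab (k + 1) y
    · rw [pl_kk_eq K h2, abs_zero]; exact h0
    · rw [pl_kk_pos K h1 h2]
      exact hK.size k hk x y h1 h2
  · rw [if_neg h1, pl_kk_ne K h1, abs_zero]

/-- differences in `y` -/
theorem pl_dy (T : IsTree n lab) (s : ℕ → ℝ) {C : ℝ} (hC : 0 ≤ C) (hs : ∀ k, 0 < s k)
    {K : X → X → ℝ} (hK : IsCZ n lab s C K) {k j : ℕ} (hk : k < j) (hj : j ≤ n) (x y y' : X)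
    (h : lab j y' = lab j y) : |Kk lab K k x y - Kk lab K k x y'| ≤
      if lab k x = lab k y then C * s j / s k ^ 2 else 0 := by
  have h0 : 0 ≤ C * s j / s k ^ 2 := div_nonneg (mul_nonneg hC (hs j).le) (sq_nonneg _)
  have hy : lab k y' = lab k y := T.mono hk.le y' y h
  have hy1 : lab (k + 1) y' = lab (k + 1) y := T.mono hk y' y h
  by_cases h1 : lab k x = lab k y
  · rw [if_pos h1]
    by_cases h2 : lab (k + 1) x = lab (k + 1) y
    · rw [pl_kk_eq K h2, pl_kk_eq K (h2.trans hy1.symm), sub_zero, abs_zero]; exact h0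
    · rw [pl_kk_pos K h1 h2, pl_kk_pos K (h1.trans hy.symm) (by rw [hy1]; exact h2)]
      exact hK.diff k j hk hj x y y' h1 h2 h
  · rw [if_neg h1, pl_kk_ne K h1, pl_kk_ne K (by rw [hy]; exact h1), sub_zero, abs_zero]

theorem pl_anti (s : ℕ → ℝ) {C : ℝ} {K : X → X → ℝ} (hK : IsCZ n lab s C K) (k : ℕ) (x y : X) :
    Kk lab K k y x = - Kk lab K k x y := by
  by_cases h1 : lab k x = lab k y
  · by_cases h2 : lab (k + 1) x = lab (k + 1) y
    · rw [pl_kk_eq K h2, pl_kk_eq K h2.symm, neg_zero]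
    · rw [pl_kk_pos K h1 h2, pl_kk_pos K h1.symm (fun h => h2 h.symm), hK.anti]
  · rw [pl_kk_ne K h1, pl_kk_ne K (fun h => h1 h.symm), neg_zero]

/-- differences in `x` -/
theorem pl_dx (T : IsTree n lab) (s : ℕ → ℝ) {C : ℝ} (hC : 0 ≤ C) (hs : ∀ k, 0 < s k)
    {K : X → X → ℝ} (hK : IsCZ n lab s C K) {k i : ℕ} (hk : k < i) (hi : i ≤ n) (x x' y : X)
    (h : lab i x' = lab i x) : |Kk lab K k x y - Kk lab K k x' y| ≤
      if lab k x = lab k y then C * s i / s k ^ 2 else 0 := by
  have h1 := pl_dy T s hC hs hK hk hi y x x' h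
  rw [pl_anti s hK k x y, pl_anti s hK k x' y] at h1
  have e : -Kk lab K k x y - -Kk lab K k x' y = -(Kk lab K k x y - Kk lab K k x' y) := by ring
  rw [e, abs_neg] at h1
  refine h1.trans (le_of_eq ?_)
  by_cases h2 : lab k x = lab k y
  · rw [if_pos h2, if_pos h2.symm]
  · rw [if_neg h2, if_neg (fun h => h2 h.symm)]

/-- double differences -/
theorem pl_dxy (T : IsTree n lab) (s : ℕ → ℝ) {C : ℝ} (hC : 0 ≤ C) (hs : ∀ k, 0 < s k)
    {K : X → X → ℝ} (hK : IsCZ n lab s C K) {k i j : ℕ} (hki : k < i) (hkj : k < j) (hi : i ≤ n)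
    (hj : j ≤ n) (x x' y y' : X) (hx : lab i x' = lab i x) (hy : lab j y' = lab j y) :
    |(Kk lab K k x y - Kk lab K k x y') - (Kk lab K k x' y - Kk lab K k x' y')| ≤
      if lab k x = lab k y then C * s i * s j / s k ^ 3 else 0 := by
  have h0 : 0 ≤ C * s i * s j / s k ^ 3 :=
    div_nonneg (mul_nonneg (mul_nonneg hC (hs i).le) (hs j).le) (pow_nonneg (hs k).le 3)
  have hy0 : lab k y' = lab k y := T.mono hkj.le y' y hy
  have hy1 : lab (k + 1) y' = lab (k + 1) y := T.mono hkj y' y hy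
  have hx0 : lab k x' = lab k x := T.mono hki.le x' x hx
  have hx1 : lab (k + 1) x' = lab (k + 1) x := T.mono hki x' x hx
  by_cases h1 : lab k x = lab k y
  · rw [if_pos h1]
    by_cases h2 : lab (k + 1) x = lab (k + 1) y
    · rw [pl_kk_eq K h2, pl_kk_eq K (h2.trans hy1.symm), pl_kk_eq K (hx1.trans h2),
        pl_kk_eq K ((hx1.trans h2).trans hy1.symm), sub_zero, sub_zero, abs_zero]
      exact h0
    · rw [pl_kk_pos K h1 h2, pl_kk_pos K (h1.trans hy0.symm) (by rw [hy1]; exact h2),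
        pl_kk_pos K (hx0.trans h1) (by rw [hx1]; exact h2),
        pl_kk_pos K ((hx0.trans h1).trans hy0.symm) (by rw [hx1, hy1]; exact h2)]
      have h3 := hK.diff2 k i j hki hkj hi hj x y x' y' h1 h2 hx hy
      have e : K x y - K x y' - (K x' y - K x' y') = K x y - K x' y - K x y' + K x' y' := by ring
      rw [e]
      exact h3
  · rw [if_neg h1, pl_kk_ne K h1, pl_kk_ne K (by rw [hy0]; exact h1),
      pl_kk_ne K (by rw [hx0]; exact h1), pl_kk_ne K (by rw [hx0, hy0]; exact h1), sub_zero,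
      sub_zero, abs_zero]

end

/-- two differences -/
theorem pair_md {X : Type} [Fintype X] {n : ℕ} {lab : ℕ → X → ℕ} (T : IsTree n lab) {s : ℕ → ℝ}
    {q C : ℝ} (hs : Sides n s q) (hC : 0 ≤ C) {K : X → X → ℝ} (hK : IsCZ n lab s C K) (k i j : ℕ)
    (hi : k ≤ i) (hj : k ≤ j) (hin : i < n) (hjn : j < n) (f g : X → ℝ) :
    |∑ x, ∑ y, md lab i g x * Kk lab K k x y * md lab j f y| ≤
      4 ^ n * (C * (s i * s j / s k ^ 3) / 4 ^ k) *
        (Real.sqrt (∑ x, md lab i g x ^ 2) * Real.sqrt (∑ x, md lab j f x ^ 2)) := by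
  have hkn : k < n := lt_of_le_of_lt hi hin
  have hp : (4 : ℝ) ^ n = 4 ^ (n - k) * 4 ^ k := by
    rw [← pow_add, Nat.sub_add_cancel hkn.le]
  have hk0 : 0 < s k := hs.pos k
  have hB0 : 0 ≤ C * (s i * s j / s k ^ 3) :=
    mul_nonneg hC (div_nonneg (mul_nonneg (hs.pos i).le (hs.pos j).le) (pow_nonneg hk0.le 3))
  have e : (4 : ℝ) ^ n * (C * (s i * s j / s k ^ 3) / 4 ^ k) =
      (C * (s i * s j / s k ^ 3)) * 4 ^ (n - k) := by
    rw [hp]
    field_simp
  rw [e]
  have ha := pl_ce_md T hin g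
  have hb := pl_ce_md T hjn f
  rcases hi.eq_or_lt with rfl | hi'
  · rcases hj.eq_or_lt with rfl | hj'
    · refine pl_schur T hkn.le hB0 _ (fun x y => ?_) _ _
      refine (pl_size s hC hs.pos hK hkn x y).trans (le_of_eq ?_)
      have e1 : C / s k = C * (s k * s k / s k ^ 3) := by field_simp
      rw [e1]
    · rw [pl_diff_y T hjn.le _ _ hb]
      refine pl_schur T hkn.le hB0 _ (fun x y => ?_) _ _
      refine pl_sub_ce lab j (fun y' => Kk lab K k x y') y fun y' hy' => ?_
      refine (pl_dy T s hC hs.pos hK hj' hjn.le x y y' hy').trans (le_of_eq ?_)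
      have e1 : C * s j / s k ^ 2 = C * (s k * s j / s k ^ 3) := by field_simp
      rw [e1]
  · rcases hj.eq_or_lt with rfl | hj'
    · rw [pl_diff_x T hin.le _ _ ha]
      refine pl_schur T hkn.le hB0 _ (fun x y => ?_) _ _
      refine pl_sub_ce lab i (fun x' => Kk lab K k x' y) x fun x' hx' => ?_
      refine (pl_dx T s hC hs.pos hK hi' hin.le x x' y hx').trans (le_of_eq ?_)
      have e1 : C * s i / s k ^ 2 = C * (s i * s k / s k ^ 3) := by field_simp
      rw [e1]
    · rw [pl_diff_x T hin.le _ _ ha, pl_diff_y T hjn.le _ _ hb]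
      refine pl_schur T hkn.le hB0 _ (fun x y => ?_) _ _
      refine pl_sub_ce lab j (fun y' => Kk lab K k x y' - ce lab i (fun x' => Kk lab K k x' y') x)
        y fun y' hy' => ?_
      have e2 : Kk lab K k x y - ce lab i (fun x' => Kk lab K k x' y) x -
          (Kk lab K k x y' - ce lab i (fun x' => Kk lab K k x' y') x) =
          (fun x' => Kk lab K k x' y - Kk lab K k x' y') x -
            ce lab i (fun x' => Kk lab K k x' y - Kk lab K k x' y') x := by
        rw [pl_ce_sub]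
        ring
      change |Kk lab K k x y - ce lab i (fun x' => Kk lab K k x' y) x -
          (Kk lab K k x y' - ce lab i (fun x' => Kk lab K k x' y') x)| ≤ _
      rw [e2]
      refine pl_sub_ce lab i (fun x' => Kk lab K k x' y - Kk lab K k x' y') x fun x' hx' => ?_
      refine (pl_dxy T s hC hs.pos hK hi' hj' hin.le hjn.le x x' y y' hx' hy').trans
        (le_of_eq ?_)
      have e1 : C * s i * s j / s k ^ 3 = C * (s i * s j / s k ^ 3) := by ring
      rw [e1]

/-- one difference and one mean -/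
theorem pair_ce {X : Type} [Fintype X] {n : ℕ} {lab : ℕ → X → ℕ} (T : IsTree n lab) {s : ℕ → ℝ}
    {q C : ℝ} (hs : Sides n s q) (hC : 0 ≤ C) {K : X → X → ℝ} (hK : IsCZ n lab s C K) (k i : ℕ)
    (hi : k ≤ i) (hin : i < n) (f g : X → ℝ) :
    |∑ x, ∑ y, md lab i g x * Kk lab K k x y * ce lab k f y| ≤
      4 ^ n * (C * (s i / s k ^ 2) / 4 ^ k) *
        (Real.sqrt (∑ x, md lab i g x ^ 2) * Real.sqrt (∑ x, f x ^ 2)) := by
  have hkn : k < n := lt_of_le_of_lt hi hin
  have hp : (4 : ℝ) ^ n = 4 ^ (n - k) * 4 ^ k := by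
    rw [← pow_add, Nat.sub_add_cancel hkn.le]
  have hk0 : 0 < s k := hs.pos k
  have hB0 : 0 ≤ C * (s i / s k ^ 2) :=
    mul_nonneg hC (div_nonneg (hs.pos i).le (sq_nonneg _))
  have e : (4 : ℝ) ^ n * (C * (s i / s k ^ 2) / 4 ^ k) =
      (C * (s i / s k ^ 2)) * 4 ^ (n - k) := by
    rw [hp]
    field_simp
  rw [e]
  have key : |∑ x, ∑ y, md lab i g x * Kk lab K k x y * ce lab k f y| ≤
      (C * (s i / s k ^ 2)) * 4 ^ (n - k) *
        (Real.sqrt (∑ x, md lab i g x ^ 2) * Real.sqrt (∑ x, ce lab k f x ^ 2)) := by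
    have ha := pl_ce_md T hin g
    rcases hi.eq_or_lt with rfl | hi'
    · refine pl_schur T hkn.le hB0 _ (fun x y => ?_) _ _
      refine (pl_size s hC hs.pos hK hkn x y).trans (le_of_eq ?_)
      have e1 : C / s k = C * (s k / s k ^ 2) := by field_simp
      rw [e1]
    · rw [pl_diff_x T hin.le _ _ ha]
      refine pl_schur T hkn.le hB0 _ (fun x y => ?_) _ _
      refine pl_sub_ce lab i (fun x' => Kk lab K k x' y) x fun x' hx' => ?_
      refine (pl_dx T s hC hs.pos hK hi' hin.le x x' y hx').trans (le_of_eq ?_)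
      have e1 : C * s i / s k ^ 2 = C * (s i / s k ^ 2) := by ring
      rw [e1]
  refine key.trans (mul_le_mul_of_nonneg_left ?_ (by positivity))
  exact mul_le_mul_of_nonneg_left (Real.sqrt_le_sqrt (T.sum_ce_sq hkn.le f)) (Real.sqrt_nonneg _)

/-- antisymmetry -/
theorem pair_zero {X : Type} [Fintype X] {n : ℕ} {lab : ℕ → X → ℕ} (T : IsTree n lab) {s : ℕ → ℝ}
    {C : ℝ} {K : X → X → ℝ} (hK : IsCZ n lab s C K) (k : ℕ) (hk : k < n) (f g : X → ℝ) :
    ∑ x, ∑ y, ce lab k g x * Kk lab K k x y * ce lab k f y = 0 := by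
  have h : ∀ x y, ce lab k g x * Kk lab K k x y * ce lab k f y =
      -(ce lab k g y * Kk lab K k y x * ce lab k f x) := by
    intro x y
    rw [pl_anti s hK k x y]
    by_cases h1 : lab k x = lab k y
    · rw [ce_congr lab k g x y h1, ce_congr lab k f x y h1]
      ring
    · rw [pl_kk_ne K h1]
      ring
  have h2 : ∑ x, ∑ y, ce lab k g x * Kk lab K k x y * ce lab k f y =
      -∑ x, ∑ y, ce lab k g x * Kk lab K k x y * ce lab k f y := by
    conv_lhs => rw [Finset.sum_comm]
    rw [← Finset.sum_neg_distrib]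
    refine Finset.sum_congr rfl fun y _ => ?_
    rw [← Finset.sum_neg_distrib]
    exact Finset.sum_congr rfl fun x _ => h x y
  linarith

end Pool.Agent.VC
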