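import Pool.Agent.VC.Scale

set_option autoImplicit false

open MeasureTheory Set

namespace Pool.Agent.VC

private theorem par_split (g : ℕ) : g = 8 * (g / 8) + g % 8 := (Nat.div_add_mod g 8).symm

/-- a geometric comparison by groups of eight -/
private theorem par_geo (x : ℝ) (h0 : 0 ≤ x) (h1 : x ≤ 25 / 27) (g : ℕ) :
    x ^ (g / 8) ≤ 10 / 9 * (199 / 200) ^ g := by
  have h2 : x ^ (g / 8) ≤ (25 / 27) ^ (g / 8) := pow_le_pow_left₀ h0 h1 _
  refine h2.trans ?_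
  have h3 : ((25 : ℝ) / 27) ^ (g / 8) ≤ ((199 / 200) ^ 8) ^ (g / 8) :=
    pow_le_pow_left₀ (by norm_num) (by norm_num) _
  have h4 : (9 / 10 : ℝ) ≤ (199 / 200) ^ (g % 8) := by
    have h5 : ((199 : ℝ) / 200) ^ 7 ≤ (199 / 200) ^ (g % 8) :=
      pow_le_pow_of_le_one (by norm_num) (by norm_num)
        (by have := Nat.mod_lt g (by norm_num : 0 < 8); omega)
    refine le_trans ?_ h5
    norm_num
  have h6 : ((199 : ℝ) / 200) ^ g = ((199 / 200) ^ 8) ^ (g / 8) * (199 / 200) ^ (g % 8) := by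
    rw [← pow_mul, ← pow_add]
    congr 1
    exact par_split g
  rw [h6]
  have h7 : (0 : ℝ) ≤ ((199 / 200) ^ 8) ^ (g / 8) := by positivity
  nlinarith

private theorem par_b (g : ℕ) : (11 / 20 : ℝ) ^ (g - g / 8) ≤ (199 / 200) ^ g := by
  have h1 : g - g / 8 = 7 * (g / 8) + g % 8 := by have := par_split g; omega
  have h6 : ((199 : ℝ) / 200) ^ g = ((199 / 200) ^ 8) ^ (g / 8) * (199 / 200) ^ (g % 8) := by
    rw [← pow_mul, ← pow_add]
    congr 1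
    exact par_split g
  rw [h1, h6, pow_add, pow_mul]
  refine mul_le_mul (pow_le_pow_left₀ (by positivity) (by norm_num) _)
    (pow_le_pow_left₀ (by positivity) (by norm_num) _) (by positivity) (by positivity)

private theorem par_cube (g : ℕ) :
    ((11 / 20 : ℝ) ^ (g - g / 8)) ^ 3 * 4 ^ g ≤ 10 / 9 * (199 / 200) ^ g := by
  refine le_trans ?_ (par_geo (1 / 4) (by norm_num) (by norm_num) g)
  have h1 : g - g / 8 = 7 * (g / 8) + g % 8 := by have := par_split g; omega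
  have h2 : (4 : ℝ) ^ g = (4 ^ 8) ^ (g / 8) * 4 ^ (g % 8) := by
    rw [← pow_mul, ← pow_add]
    congr 1
    exact par_split g
  have h3 : ((11 / 20 : ℝ) ^ (g - g / 8)) ^ 3 * 4 ^ g =
      ((11 / 20) ^ 21 * 4 ^ 8) ^ (g / 8) * ((11 / 20) ^ 3 * 4) ^ (g % 8) := by
    rw [h1, h2, ← pow_mul, mul_pow, mul_pow]
    have h9 : (7 * (g / 8) + g % 8) * 3 = 21 * (g / 8) + 3 * (g % 8) := by ring
    rw [h9, pow_add, pow_mul (11 / 20 : ℝ) 21, pow_mul (11 / 20 : ℝ) 3, mul_mul_mul_comm]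
  rw [h3]
  have h4 : ((11 / 20 : ℝ) ^ 21 * 4 ^ 8) ^ (g / 8) ≤ (1 / 4) ^ (g / 8) :=
    pow_le_pow_left₀ (by positivity) (by norm_num) _
  have h5 : ((11 / 20 : ℝ) ^ 3 * 4) ^ (g % 8) ≤ 1 :=
    pow_le_one₀ (by positivity) (by norm_num)
  calc _ ≤ (1 / 4 : ℝ) ^ (g / 8) * 1 := mul_le_mul h4 h5 (by positivity) (by positivity)
    _ = _ := mul_one _

private theorem par_r_up (S : Sys) (hr : S.r 0 = 1) (G b : ℕ) (hb : b ≤ G) (hnb : S.nb 0 G ≤ 7) :
    S.r b ≤ 8 * (11 / 20) ^ b := by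
  have h := S.r_upper 0 b ((S.nb_mono_right 0 b G hb).trans hnb)
  rw [zero_add, hr, mul_one] at h
  exact h

private theorem par_r_low (S : Sys) (hr : S.r 0 = 1) (g : ℕ) : 16 / 25 ≤ 4 ^ g * S.r g ^ 2 := by
  have h := S.r_lower 0 g
  rw [zero_add, hr, mul_one] at h
  have h2 : (4 : ℝ) ^ g * S.r g ^ 2 = (2 ^ g * S.r g) ^ 2 := by
    rw [mul_pow, ← pow_mul, mul_comm g 2, pow_mul]; norm_num
  rw [h2]
  have h3 : (4 / 5 : ℝ) ^ 2 ≤ (2 ^ g * S.r g) ^ 2 := pow_le_pow_left₀ (by norm_num) h 2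
  refine le_trans ?_ h3
  norm_num

private theorem par_ratio (S : Sys) (hr : S.r 0 = 1) (g G : ℕ) (hg : g - g / 8 ≤ G)
    (hnb : S.nb 0 G ≤ 7) :
    S.r (g - g / 8) ^ 3 * 4 ^ g ≤ 512 * (10 / 9 * (199 / 200) ^ g) := by
  have h1 := par_r_up S hr G (g - g / 8) hg hnb
  have h2 : S.r (g - g / 8) ^ 3 ≤ (8 * (11 / 20) ^ (g - g / 8)) ^ 3 :=
    pow_le_pow_left₀ (S.r_pos _).le h1 3
  have h3 := par_cube g
  calc S.r (g - g / 8) ^ 3 * 4 ^ g ≤ (8 * (11 / 20) ^ (g - g / 8)) ^ 3 * 4 ^ g :=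
        mul_le_mul_of_nonneg_right h2 (by positivity)
    _ = 512 * (((11 / 20) ^ (g - g / 8)) ^ 3 * 4 ^ g) := by ring
    _ ≤ _ := mul_le_mul_of_nonneg_left h3 (by norm_num)

private theorem par_err (S : Sys) (hr : S.r 0 = 1) (g G : ℕ) (hg : g - g / 8 ≤ G)
    (hnb : S.nb 0 G ≤ 7) : err S g ≤ 30000000 * (199 / 200) ^ g := by
  unfold err
  have h1 : (9 / 10 : ℝ) ^ (g / 8) ≤ 10 / 9 * (199 / 200) ^ g :=
    par_geo (9 / 10) (by norm_num) (by norm_num) g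
  have h2 := par_ratio S hr g G hg hnb
  have h3 := par_r_low S hr (g + 1)
  have h4 := S.r_pos (g + 1)
  have h5 : 7200 * S.r (g - g / 8) ^ 3 / S.r (g + 1) ^ 2 ≤
      7200 * (25 / 16 * 4) * (512 * (10 / 9 * (199 / 200) ^ g)) := by
    rw [div_le_iff₀ (by positivity)]
    have h6 : S.r (g - g / 8) ^ 3 * (16 / 25) ≤
        S.r (g - g / 8) ^ 3 * (4 ^ (g + 1) * S.r (g + 1) ^ 2) :=
      mul_le_mul_of_nonneg_left h3 (pow_nonneg (S.r_pos _).le 3)
    have h7 : S.r (g - g / 8) ^ 3 * (4 ^ (g + 1) * S.r (g + 1) ^ 2) =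
        4 * (S.r (g - g / 8) ^ 3 * 4 ^ g) * S.r (g + 1) ^ 2 := by rw [pow_succ]; ring
    have h8 : 4 * (S.r (g - g / 8) ^ 3 * 4 ^ g) * S.r (g + 1) ^ 2 ≤
        4 * (512 * (10 / 9 * (199 / 200) ^ g)) * S.r (g + 1) ^ 2 :=
      mul_le_mul_of_nonneg_right (mul_le_mul_of_nonneg_left h2 (by norm_num)) (by positivity)
    nlinarith
  have h9 : (0 : ℝ) ≤ (199 / 200) ^ g := by positivity
  calc _ ≤ 15 * (10 / 9 * (199 / 200) ^ g) +
        7200 * (25 / 16 * 4) * (512 * (10 / 9 * (199 / 200) ^ g)) :=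
        add_le_add (mul_le_mul_of_nonneg_left h1 (by norm_num)) h5
    _ ≤ _ := by nlinarith

private theorem par_sum (g G : ℕ) :
    ∑ k ∈ Finset.Ico g G, (199 / 200 : ℝ) ^ k ≤ 200 * (199 / 200) ^ g := by
  rcases Nat.lt_or_ge G g with h | h
  · rw [Finset.Ico_eq_empty (by omega), Finset.sum_empty]
    positivity
  · have key : ∑ k ∈ Finset.Ico g G, (199 / 200 : ℝ) ^ k =
        200 * (199 / 200) ^ g - 200 * (199 / 200) ^ G := by
      induction G, h using Nat.le_induction with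
      | base => simp
      | succ n hn ih =>
        rw [Finset.sum_Ico_succ_top hn, ih, pow_succ]
        ring
    rw [key]
    have : (0 : ℝ) ≤ 200 * (199 / 200) ^ G := by positivity
    linarith

private theorem par_large (ε : ℝ) (hε : 0 < ε) :
    ∃ g0 : ℕ, ∀ g, g0 ≤ g → (199 / 200 : ℝ) ^ g ≤ ε := by
  obtain ⟨n, hn⟩ := exists_pow_lt_of_lt_one hε (by norm_num : (199 / 200 : ℝ) < 1)
  exact ⟨n, fun g hg => (pow_le_pow_of_le_one (by norm_num) (by norm_num) hg).trans hn.le⟩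

/-- numerical facts for one scale: for `g` large all the conditions of `scaleLemma` hold, the
errors are small -/
theorem err_small (ε : ℝ) (hε : 0 < ε) : ∃ g0 : ℕ, ∀ (S : Sys), S.r 0 = 1 → ∀ g G, g0 ≤ g →
    g ≤ G → S.nb 0 G ≤ 7 →
    S.r (g - g / 8) ≤ 1 / 30 ∧ 2560 * S.r (g - g / 8) ^ 3 ≤ S.r g ^ 2 ∧
    S.r (g - g / 8) ≤ ε ∧
    ∑ g' ∈ Finset.Ico g G, err S g' ≤ ε := by
  obtain ⟨g0, hg0⟩ := par_large (min ε 1 / 10 ^ 10)
    (div_pos (lt_min hε one_pos) (by positivity))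
  refine ⟨g0, fun S hr g G hg hgG hnb => ?_⟩
  have h1 := hg0 g hg
  have h2 : (199 / 200 : ℝ) ^ g * 10 ^ 10 ≤ ε :=
    ((le_div_iff₀ (by positivity)).mp h1).trans (min_le_left _ _)
  have h3 : (199 / 200 : ℝ) ^ g * 10 ^ 10 ≤ 1 :=
    ((le_div_iff₀ (by positivity)).mp h1).trans (min_le_right _ _)
  have h4 : (0 : ℝ) ≤ (199 / 200) ^ g := by positivity
  have hb : g - g / 8 ≤ G := by omega
  have h5 : S.r (g - g / 8) ≤ 8 * (199 / 200) ^ g :=
    (par_r_up S hr G _ hb hnb).trans (mul_le_mul_of_nonneg_left (par_b g) (by norm_num))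
  have h6 := par_ratio S hr g G hb hnb
  have h7 := par_r_low S hr g
  have h8 := S.r_pos g
  refine ⟨?_, ?_, ?_, ?_⟩
  · norm_num at h3 ⊢
    linarith
  · have h9 : (0 : ℝ) < 4 ^ g := by positivity
    have h10 : 2560 * (S.r (g - g / 8) ^ 3 * 4 ^ g) ≤ 16 / 25 := by
      norm_num at h3 h6 ⊢
      linarith
    have h11 : 2560 * S.r (g - g / 8) ^ 3 * 4 ^ g ≤ S.r g ^ 2 * 4 ^ g := by linarith
    exact le_of_mul_le_mul_right h11 h9
  · norm_num at h2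
    linarith
  · calc ∑ g' ∈ Finset.Ico g G, err S g' ≤
        ∑ g' ∈ Finset.Ico g G, 30000000 * (199 / 200 : ℝ) ^ g' := by
          refine Finset.sum_le_sum fun k hk => ?_
          rw [Finset.mem_Ico] at hk
          exact par_err S hr k G (by omega) hnb
      _ = 30000000 * ∑ g' ∈ Finset.Ico g G, (199 / 200 : ℝ) ^ g' := by rw [Finset.mul_sum]
      _ ≤ 30000000 * (200 * (199 / 200) ^ g) :=
          mul_le_mul_of_nonneg_left (par_sum g G) (by norm_num)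
      _ ≤ ε := by norm_num at h2; linarith

theorem bad_small (ε : ℝ) (hε : 0 < ε) : ∃ g0 : ℕ, ∀ (S : Sys), S.r 0 = 1 → ∀ g G, g0 ≤ g →
    g ≤ G → S.nb 0 G ≤ 7 → volume (S.Bad g G) ≤ ENNReal.ofReal ε := by
  obtain ⟨C, hC, hBB⟩ := Sys.vol_BB
  obtain ⟨g0, hg0⟩ := par_large (ε / (1000 * C)) (div_pos hε (by positivity))
  refine ⟨g0, fun S hr g G hg hgG hnb => ?_⟩
  have h1 := hg0 g hg
  have h2 : (199 / 200 : ℝ) ^ g * (1000 * C) ≤ ε := (le_div_iff₀ (by positivity)).mp h1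
  have h3 : ∀ k ∈ Finset.Ico g G, volume (S.BB (k - k / 8) (k / 8) ((9 / 10) ^ (k / 8))) ≤
      ENNReal.ofReal (C * (10 / 9 * (199 / 200) ^ k)) := by
    intro k hk
    rw [Finset.mem_Ico] at hk
    have hn : S.nb (k - k / 8) (k / 8 + 1) ≤ 7 := by
      have h4 := S.nb_add 0 (k - k / 8) (k / 8 + 1)
      rw [zero_add] at h4
      have h5 := S.nb_mono_right 0 (k - k / 8 + (k / 8 + 1)) G (by omega)
      omega
    refine (hBB S _ _ _ (by positivity) hn).trans (ENNReal.ofReal_le_ofReal ?_)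
    have h6 : C * (3 / 4 : ℝ) ^ (k / 8) / ((9 / 10) ^ (k / 8)) ^ 2 = C * (25 / 27) ^ (k / 8) := by
      rw [← pow_mul, mul_comm (k / 8) 2, pow_mul, mul_div_assoc, ← div_pow]
      norm_num
    rw [h6]
    exact mul_le_mul_of_nonneg_left (par_geo (25 / 27) (by norm_num) le_rfl k) hC.le
  unfold Sys.Bad
  refine (measure_biUnion_finset_le _ _).trans ?_
  refine (Finset.sum_le_sum h3).trans ?_
  rw [← ENNReal.ofReal_sum_of_nonneg fun k _ => by positivity]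
  refine ENNReal.ofReal_le_ofReal ?_
  have h7 : ∑ k ∈ Finset.Ico g G, C * (10 / 9 * (199 / 200 : ℝ) ^ k) =
      C * (10 / 9) * ∑ k ∈ Finset.Ico g G, (199 / 200 : ℝ) ^ k := by
    rw [Finset.mul_sum]
    exact Finset.sum_congr rfl fun k _ => by ring
  rw [h7]
  have h8 : C * (10 / 9) * ∑ k ∈ Finset.Ico g G, (199 / 200 : ℝ) ^ k ≤
      C * (10 / 9) * (200 * (199 / 200) ^ g) :=
    mul_le_mul_of_nonneg_left (par_sum g G) (by positivity)
  refine h8.trans (le_trans ?_ h2)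
  have h9 : (0 : ℝ) ≤ C * (199 / 200) ^ g := by positivity
  nlinarith

/-- the next scale: if `g'` is large with respect to `g` -/
theorem next_scale (g : ℕ) : ∃ g1 : ℕ, ∀ (S : Sys), S.r 0 = 1 → ∀ g', g1 ≤ g' →
    S.nb 0 g' ≤ 7 → ∀ e' : ℕ, (1 : ℝ) / 2 ^ e' ≤ 160 * S.r (g' - g' / 8) →
    160 * S.r (g - g / 8) * (1 / 2 ^ e') ≤ S.r g ^ 2 := by
  obtain ⟨g1, hg1⟩ := par_large (1 / (1000000 * 4 ^ g)) (by positivity)
  refine ⟨g1, fun S hr g' hg' hnb e' he' => ?_⟩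
  have h1 := hg1 g' hg'
  have h2 : (199 / 200 : ℝ) ^ g' * (1000000 * 4 ^ g) ≤ 1 := by
    rwa [le_div_iff₀ (by positivity)] at h1
  have h3 : S.r (g' - g' / 8) ≤ 8 * (199 / 200) ^ g' :=
    (par_r_up S hr g' _ (by omega) hnb).trans (mul_le_mul_of_nonneg_left (par_b g') (by norm_num))
  have h4 : S.r (g - g / 8) ≤ 1 := by
    have := S.r_anti (Nat.zero_le (g - g / 8))
    rwa [hr] at this
  have h5 := par_r_low S hr g
  have h6 : (0 : ℝ) ≤ 1 / 2 ^ e' := by positivity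
  have h7 : 160 * S.r (g - g / 8) * (1 / 2 ^ e') ≤ 160 * 1 * (1 / 2 ^ e') :=
    mul_le_mul_of_nonneg_right (mul_le_mul_of_nonneg_left h4 (by norm_num)) h6
  refine h7.trans ?_
  have h9 : (0 : ℝ) < 4 ^ g := by positivity
  refine le_of_mul_le_mul_right ?_ h9
  have h10 : 160 * 1 * (1 / 2 ^ e') * (4 : ℝ) ^ g ≤ 160 * (160 * (8 * (199 / 200) ^ g')) * 4 ^ g := by
    refine mul_le_mul_of_nonneg_right ?_ h9.le
    linarith
  refine h10.trans (le_trans ?_ (by linarith : (16 / 25 : ℝ) ≤ S.r g ^ 2 * 4 ^ g))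
  have h11 : 160 * (160 * (8 * (199 / 200 : ℝ) ^ g')) * 4 ^ g =
      204800 / 1000000 * ((199 / 200 : ℝ) ^ g' * (1000000 * 4 ^ g)) := by ring
  rw [h11]
  linarith

/-- a dyadic length between `80 ρ` and `160 ρ` -/
theorem exists_dyadic (ρ : ℝ) (h0 : 0 < ρ) (h1 : ρ ≤ 1 / 160) :
    ∃ e : ℕ, 80 * ρ ≤ 1 / 2 ^ e ∧ (1 : ℝ) / 2 ^ e ≤ 160 * ρ := by
  obtain ⟨n, hn1, hn2⟩ := exists_nat_pow_near_of_lt_one (x := 160 * ρ) (y := 1 / 2)
    (by positivity) (by linarith) (by norm_num) (by norm_num)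
  refine ⟨n + 1, ?_, ?_⟩
  · rw [one_div_pow] at hn2
    rw [pow_succ]
    have : (1 : ℝ) / (2 ^ n * 2) = 1 / 2 ^ n / 2 := by rw [div_div]
    rw [this]
    linarith
  · rw [one_div_pow] at hn1
    exact hn1.le

end Pool.Agent.VC
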