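import Pool.Agent.VC.Defs

/-!
# Project VC (MP_0b5e13_an): positions and counting functions of binary systems
-/

set_option autoImplicit false

open MeasureTheory Set

namespace Pool.Agent.VC

/-- shifted sequence -/
def sh (n : ℕ) (v : ℕ → ℝ) : ℕ → ℝ := fun i => v (n + i)

theorem sh_zero (v : ℕ → ℝ) : sh 0 v = v := by
  funext i
  simp [sh]

theorem sh_sh (n m : ℕ) (v : ℕ → ℝ) : sh m (sh n v) = sh (n + m) v := by
  funext i
  simp [sh, Nat.add_assoc]

/-- splitting a position -/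
theorem pos_split (v : ℕ → ℝ) (n j w s : ℕ) (hs : s < 2 ^ j) :
    pos v (n + j) (w * 2 ^ j + s) = pos v n w + pos (sh n v) j s := by
  induction j generalizing s with
  | zero =>
    have h : s = 0 := by simpa using hs
    subst h
    simp [pos]
  | succ j ih =>
    have h1 : (w * 2 ^ (j + 1) + s) / 2 = w * 2 ^ j + s / 2 := by
      rw [pow_succ, ← mul_assoc]
      omega
    have h2 : (w * 2 ^ (j + 1) + s) % 2 = s % 2 := by
      rw [pow_succ, ← mul_assoc]
      omega
    have h3 : s / 2 < 2 ^ j := by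
      rw [pow_succ] at hs
      omega
    show pos v (n + j) ((w * 2 ^ (j + 1) + s) / 2) +
      (((w * 2 ^ (j + 1) + s) % 2 : ℕ) : ℝ) * v (n + j + 1) =
      pos v n w + (pos (sh n v) j (s / 2) + ((s % 2 : ℕ) : ℝ) * sh n v (j + 1))
    rw [h1, h2, ih _ h3]
    simp only [sh, ← Nat.add_assoc]
    ring

theorem pos_div (v : ℕ → ℝ) (n j i : ℕ) :
    pos v (n + j) i = pos v n (i / 2 ^ j) + pos (sh n v) j (i % 2 ^ j) := by
  rw [← pos_split v n j (i / 2 ^ j) (i % 2 ^ j) (Nat.mod_lt _ (by positivity)),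
    Nat.div_add_mod']

/-- top digit -/
theorem pos_top (v : ℕ → ℝ) (j i : ℕ) (hi : i < 2 ^ j) :
    pos v (j + 1) i = pos (sh 1 v) j i ∧ pos v (j + 1) (i + 2 ^ j) = v 1 + pos (sh 1 v) j i := by
  have h0 := pos_split v 1 j 0 i hi
  have h1 := pos_split v 1 j 1 i hi
  rw [Nat.add_comm 1 j] at h0 h1
  rw [zero_mul, zero_add] at h0
  rw [one_mul, Nat.add_comm (2 ^ j) i] at h1
  rw [h0, h1]
  simp [pos]

theorem pos_nonneg (v : ℕ → ℝ) (hv : ∀ i, 0 ≤ v i) (m i : ℕ) : 0 ≤ pos v m i := by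
  induction m generalizing i with
  | zero => exact le_rfl
  | succ m ih => exact add_nonneg (ih _) (mul_nonneg (Nat.cast_nonneg _) (hv _))

theorem pos_add_le (v L : ℕ → ℝ) (hv : ∀ i, 0 ≤ v i) (hL : ∀ i, L i = v (i + 1) + L (i + 1))
    (n j s : ℕ) : pos (sh n v) j s + L (n + j) ≤ L n := by
  induction j generalizing s with
  | zero => simp [pos]
  | succ j ih =>
    have h1 := ih (s / 2)
    have h2 := hL (n + j)
    have h3 : ((s % 2 : ℕ) : ℝ) ≤ 1 := by
      have : s % 2 ≤ 1 := by omega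
      exact_mod_cast this
    have h4 : ((s % 2 : ℕ) : ℝ) * v (n + j + 1) ≤ v (n + j + 1) := by
      have := mul_le_mul_of_nonneg_right h3 (hv (n + j + 1))
      linarith
    show pos (sh n v) j (s / 2) + ((s % 2 : ℕ) : ℝ) * v (n + (j + 1)) + L (n + (j + 1)) ≤ L n
    rw [← Nat.add_assoc]
    linarith

/-- nested cells -/
theorem cell_anc (v L : ℕ → ℝ) (hv : ∀ i, 0 ≤ v i) (hL : ∀ i, L i = v (i + 1) + L (i + 1))
    (n j i : ℕ) : cell v L (n + j) i ⊆ cell v L n (i / 2 ^ j) := by
  intro x hx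
  unfold cell at hx ⊢
  rw [pos_div] at hx
  have h1 := pos_nonneg (sh n v) (fun i => hv _) j (i % 2 ^ j)
  have h2 := pos_add_le v L hv hL n j (i % 2 ^ j)
  exact ⟨by linarith [hx.1], by linarith [hx.2]⟩

theorem cell_split (v L : ℕ → ℝ) (n j w s : ℕ) (hs : s < 2 ^ j) :
    cell v L (n + j) (w * 2 ^ j + s) = (fun x => pos v n w + x) '' cell (sh n v) (sh n L) j s := by
  unfold cell
  rw [pos_split v n j w s hs, Set.image_const_add_Icc]
  simp only [sh, add_assoc]

theorem cnt_nonneg (v L : ℕ → ℝ) (m : ℕ) (x : ℝ) : 0 ≤ cnt v L m x :=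
  Finset.sum_nonneg fun _ _ => Set.indicator_nonneg (fun _ _ => zero_le_one) _

theorem cnt_eq_card (v L : ℕ → ℝ) (m : ℕ) (x : ℝ) :
    cnt v L m x = ({i ∈ Finset.range (2 ^ m) | pos v m i ≤ x ∧ x ≤ pos v m i + L m}).card := by
  classical
  rw [Finset.card_filter]
  push_cast
  unfold cnt
  refine Finset.sum_congr rfl fun i _ => ?_
  rw [Set.indicator_apply]
  unfold cell
  simp only [Set.mem_Icc]

theorem cnt_measurable (v L : ℕ → ℝ) (m : ℕ) : Measurable (cnt v L m) := by
  unfold cnt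
  exact Finset.measurable_sum _ fun i _ => measurable_const.indicator measurableSet_Icc

theorem cnt_integrable (v L : ℕ → ℝ) (m : ℕ) : Integrable (cnt v L m) := by
  unfold cnt
  refine integrable_finsetSum _ fun i _ => ?_
  refine (integrable_indicator_iff measurableSet_Icc).2 ?_
  exact integrableOn_const (by simp)

theorem cnt_le (v L : ℕ → ℝ) (m : ℕ) (x : ℝ) : cnt v L m x ≤ 2 ^ m := by
  unfold cnt
  have h : ∀ i ∈ Finset.range (2 ^ m),
      (cell v L m i).indicator (fun _ => (1 : ℝ)) x ≤ 1 := fun i _ =>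
    Set.indicator_le_self' (fun _ _ => zero_le_one) x
  refine (Finset.sum_le_sum h).trans ?_
  simp

theorem cnt_mul_integrable (v L v' L' : ℕ → ℝ) (m m' : ℕ) (a : ℝ) :
    Integrable (fun x => cnt v L m x * cnt v' L' m' (x + a)) := by
  refine ((cnt_integrable v L m).mul_const (2 ^ m')).mono
    ((cnt_measurable v L m).mul ((cnt_measurable v' L' m').comp
      (measurable_id.add_const a))).aestronglyMeasurable
    (Filter.Eventually.of_forall fun x => ?_)
  rw [norm_mul, norm_mul]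
  refine mul_le_mul_of_nonneg_left ?_ (norm_nonneg _)
  rw [Real.norm_of_nonneg (cnt_nonneg _ _ _ _), Real.norm_of_nonneg (by positivity)]
  exact cnt_le _ _ _ _

theorem cnt_integral (v L : ℕ → ℝ) (m : ℕ) (h : 0 ≤ L m) : ∫ x, cnt v L m x = 2 ^ m * L m := by
  unfold cnt
  rw [integral_finsetSum]
  · have h1 : ∀ i ∈ Finset.range (2 ^ m),
        ∫ x, (cell v L m i).indicator (fun _ => (1 : ℝ)) x = L m := by
      intro i _
      unfold cell
      rw [integral_indicator measurableSet_Icc]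
      simp [h]
    rw [Finset.sum_congr rfl h1]
    simp
  · intro i _
    exact (integrable_indicator_iff measurableSet_Icc).2 (integrableOn_const (by simp))

theorem cnt_zero (v L : ℕ → ℝ) (x : ℝ) : cnt v L 0 x = (Icc 0 (L 0)).indicator (fun _ => 1) x := by
  unfold cnt cell
  simp [pos]

theorem sum_range_mul_aux (f : ℕ → ℝ) (a b : ℕ) :
    ∑ i ∈ Finset.range (a * b), f i =
      ∑ s ∈ Finset.range a, ∑ t ∈ Finset.range b, f (s * b + t) := by
  induction a with
  | zero => simp
  | succ a ih =>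
    rw [Finset.sum_range_succ, ← ih, Nat.add_mul, one_mul, Finset.sum_range_add]

/-- first `k` digits -/
theorem cnt_add (v L : ℕ → ℝ) (k j : ℕ) (x : ℝ) : cnt v L (k + j) x =
    ∑ s ∈ Finset.range (2 ^ k), cnt (sh k v) (sh k L) j (x - pos v k s) := by
  unfold cnt
  rw [pow_add, sum_range_mul_aux]
  refine Finset.sum_congr rfl fun s _ => Finset.sum_congr rfl fun t ht => ?_
  rw [cell_split v L k j s t (Finset.mem_range.1 ht)]
  have h1 : x ∈ (fun x => pos v k s + x) '' cell (sh k v) (sh k L) j t ↔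
      x - pos v k s ∈ cell (sh k v) (sh k L) j t := by
    constructor
    · rintro ⟨y, hy, rfl⟩
      simpa using hy
    · intro h
      exact ⟨_, h, by simp⟩
  classical
  rw [Set.indicator_apply, Set.indicator_apply]
  simp only [h1]

/-- first digit -/
theorem cnt_succ (v L : ℕ → ℝ) (j : ℕ) (x : ℝ) : cnt v L (j + 1) x =
    cnt (sh 1 v) (sh 1 L) j x + cnt (sh 1 v) (sh 1 L) j (x - v 1) := by
  rw [Nat.add_comm j 1, cnt_add v L 1 j x, pow_one, Finset.sum_range_succ, Finset.sum_range_one]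
  simp [pos]

theorem fam_measurable (v L : ℕ → ℝ) (n : ℕ) (F : Finset ℕ) (N : ℕ) :
    MeasurableSet (fam v L n F N) := by
  unfold fam
  exact Finset.measurableSet_biUnion _ fun i _ => measurableSet_Icc

end Pool.Agent.VC
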