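import Pool.Agent.VC.Defs

set_option autoImplicit false

open MeasureTheory Set

namespace Pool.Agent.VC

theorem side_pos (lam : ℕ → ℝ) (h : ∀ k, 0 < lam k) (k : ℕ) : 0 < side lam k := by
  induction k with
  | zero => exact one_pos
  | succ k ih => exact mul_pos (h k) ih

theorem side_le (lam : ℕ → ℝ) (h : ∀ k, 0 < lam k ∧ lam k ≤ 1 / 2) (k : ℕ) :
    side lam k ≤ (1 / 2) ^ k := by
  induction k with
  | zero => exact le_of_eq (by simp [side])
  | succ k ih =>
    rw [pow_succ']
    exact mul_le_mul (h k).2 ih (side_pos lam (fun k => (h k).1) k).le (by norm_num)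

theorem stg_side_succ_le (lam : ℕ → ℝ) (h : ∀ k, 0 < lam k ∧ lam k ≤ 1 / 2) (k : ℕ) :
    side lam (k + 1) ≤ side lam k := by
  have h1 := side_pos lam (fun k => (h k).1) k
  have h2 : lam k * side lam k ≤ 1 * side lam k :=
    mul_le_mul_of_nonneg_right (by linarith [(h k).2]) h1.le
  rw [one_mul] at h2
  exact h2

theorem side_anti (lam : ℕ → ℝ) (h : ∀ k, 0 < lam k ∧ lam k ≤ 1 / 2) : Antitone (side lam) :=
  antitone_nat_of_succ_le (stg_side_succ_le lam h)

theorem dens_pos (lam : ℕ → ℝ) (h : ∀ k, 1 / 4 ≤ lam k) (k : ℕ) : 0 < dens lam k := by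
  unfold dens
  have h1 := side_pos lam (fun k => lt_of_lt_of_le (by norm_num) (h k)) k
  positivity

theorem dens_anti (lam : ℕ → ℝ) (h : ∀ k, 1 / 4 ≤ lam k) : Antitone (dens lam) := by
  refine antitone_nat_of_succ_le fun k => ?_
  unfold dens
  have h1 := side_pos lam (fun k => lt_of_lt_of_le (by norm_num) (h k)) k
  refine one_div_le_one_div_of_le (by positivity) ?_
  have h2 : (4 : ℝ) ^ (k + 1) * side lam (k + 1) = 4 ^ k * side lam k * (4 * lam k) := by
    show (4 : ℝ) ^ (k + 1) * (lam k * side lam k) = _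
    ring
  rw [h2]
  refine le_mul_of_one_le_right (by positivity) ?_
  linarith [h k]

theorem dens_le_one (lam : ℕ → ℝ) (h : ∀ k, 1 / 4 ≤ lam k) (k : ℕ) : dens lam k ≤ 1 := by
  have h1 := dens_anti lam h (Nat.zero_le k)
  have h2 : dens lam 0 = 1 := by simp [dens, side]
  rwa [h2] at h1

theorem SS_mono (lam : ℕ → ℝ) : Monotone (SS lam) := by
  refine monotone_nat_of_le_succ fun n => ?_
  unfold SS
  rw [Finset.sum_range_succ]
  linarith [sq_nonneg (dens lam n)]

theorem one_le_SS (lam : ℕ → ℝ) (N : ℕ) : 1 ≤ SS lam (N + 1) := by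
  have h1 := SS_mono lam (Nat.succ_le_succ (Nat.zero_le N))
  have h2 : SS lam (Nat.succ 0) = 1 := by simp [SS, dens, side]
  rw [h2] at h1
  exact h1

/-- points of the stages -/
theorem mem_linStage (lam : ℕ → ℝ) (n : ℕ) (x : ℝ) : x ∈ linStage lam n ↔
    ∃ e : ℕ → ℝ, (∀ k, e k = 0 ∨ e k = 1) ∧ ∃ u ∈ Icc 0 (side lam n),
      x = ∑ k ∈ Finset.range n, e k * (side lam k - side lam (k + 1)) + u := by
  constructor
  · rintro ⟨e, he, hx⟩
    exact ⟨e, he, _, hx, by ring⟩
  · rintro ⟨e, he, u, hu, rfl⟩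
    refine ⟨e, he, ?_⟩
    rw [add_sub_cancel_left]
    exact hu

theorem linStage_anti (lam : ℕ → ℝ) (h : ∀ k, 0 < lam k ∧ lam k ≤ 1 / 2) :
    Antitone (linStage lam) := by
  refine antitone_nat_of_succ_le fun n => ?_
  rintro x ⟨e, he, hx⟩
  refine ⟨e, he, ?_⟩
  rw [Finset.sum_range_succ] at hx
  have h1 := stg_side_succ_le lam h n
  rcases he n with h0 | h0
  · rw [h0, zero_mul, add_zero] at hx
    exact ⟨hx.1, hx.2.trans h1⟩
  · rw [h0, one_mul] at hx
    exact ⟨by linarith [hx.1], by linarith [hx.2]⟩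

theorem linStage_subset (lam : ℕ → ℝ) (h : ∀ k, 0 < lam k ∧ lam k ≤ 1 / 2) (n : ℕ) :
    linStage lam n ⊆ Icc 0 1 := by
  refine (linStage_anti lam h (Nat.zero_le n)).trans ?_
  rintro x ⟨e, he, hx⟩
  rw [Finset.sum_range_zero, sub_zero] at hx
  exact hx

theorem stg_sum_digits (lam : ℕ → ℝ) (n : ℕ) :
    ∑ k ∈ Finset.range n, (side lam k - side lam (k + 1)) = 1 - side lam n := by
  rw [Finset.sum_range_sub']
  rfl

theorem linStage_symm (lam : ℕ → ℝ) (n : ℕ) (x : ℝ) (hx : x ∈ linStage lam n) :
    1 - x ∈ linStage lam n := by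
  obtain ⟨e, he, hx⟩ := hx
  refine ⟨fun k => 1 - e k, fun k => ?_, ?_⟩
  · rcases he k with h | h
    · right
      simp [h]
    · left
      simp [h]
  · have h1 : ∑ k ∈ Finset.range n, (1 - e k) * (side lam k - side lam (k + 1)) =
        (1 - side lam n) - ∑ k ∈ Finset.range n, e k * (side lam k - side lam (k + 1)) := by
      rw [← stg_sum_digits lam n, ← Finset.sum_sub_distrib]
      exact Finset.sum_congr rfl fun k _ => by ring
    show 1 - x - ∑ k ∈ Finset.range n, (1 - e k) * (side lam k - side lam (k + 1)) ∈ _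
    rw [h1]
    exact ⟨by linarith [hx.2], by linarith [hx.1]⟩

theorem stg_side_tendsto (lam : ℕ → ℝ) (h : ∀ k, 0 < lam k ∧ lam k ≤ 1 / 2) :
    Filter.Tendsto (side lam) Filter.atTop (nhds 0) :=
  squeeze_zero (fun k => (side_pos lam (fun k => (h k).1) k).le) (side_le lam h)
    (tendsto_pow_atTop_nhds_zero_of_lt_one (by norm_num) (by norm_num))

theorem stg_digit_nonneg (lam : ℕ → ℝ) (h : ∀ k, 0 < lam k ∧ lam k ≤ 1 / 2) (k : ℕ) :
    0 ≤ side lam k - side lam (k + 1) := sub_nonneg.2 (stg_side_succ_le lam h k)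

theorem stg_hasSum_digits (lam : ℕ → ℝ) (h : ∀ k, 0 < lam k ∧ lam k ≤ 1 / 2) :
    HasSum (fun k => side lam k - side lam (k + 1)) 1 := by
  rw [hasSum_iff_tendsto_nat_of_nonneg (stg_digit_nonneg lam h)]
  simp only [stg_sum_digits]
  have := (tendsto_const_nhds (x := (1 : ℝ))).sub (stg_side_tendsto lam h)
  rwa [sub_zero] at this

theorem lin_subset_linStage (lam : ℕ → ℝ) (h : ∀ k, 0 < lam k ∧ lam k ≤ 1 / 2) (n : ℕ) :
    lin lam ⊆ linStage lam n := by
  rintro x ⟨e, he, hx⟩
  refine ⟨e, he, ?_⟩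
  have h0 : ∀ k, 0 ≤ e k * (side lam k - side lam (k + 1)) := fun k => by
    rcases he k with h1 | h1
    · rw [h1, zero_mul]
    · rw [h1, one_mul]
      exact stg_digit_nonneg lam h k
  have h1 : ∀ k, e k * (side lam k - side lam (k + 1)) ≤ side lam k - side lam (k + 1) :=
    fun k => by
      rcases he k with h2 | h2
      · rw [h2, zero_mul]
        exact stg_digit_nonneg lam h k
      · rw [h2, one_mul]
  have h2 : HasSum (fun k => e (k + n) * (side lam (k + n) - side lam (k + n + 1)))
      (x - ∑ k ∈ Finset.range n, e k * (side lam k - side lam (k + 1))) := by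
    have := (hasSum_nat_add_iff' (f := fun k => e k * (side lam k - side lam (k + 1))) n).2 hx
    exact this
  have h3 : HasSum (fun k => side lam (k + n) - side lam (k + n + 1)) (side lam n) := by
    have := (hasSum_nat_add_iff' (f := fun k => side lam k - side lam (k + 1)) n).2
      (stg_hasSum_digits lam h)
    rw [stg_sum_digits, sub_sub_cancel] at this
    exact this
  exact ⟨h2.nonneg fun k => h0 _, hasSum_le (fun k => h1 _) h2 h3⟩

theorem stg_finite_sums (lam : ℕ → ℝ) (n : ℕ) : {s : ℝ | ∃ e : ℕ → ℝ, (∀ k, e k = 0 ∨ e k = 1) ∧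
    s = ∑ k ∈ Finset.range n, e k * (side lam k - side lam (k + 1))}.Finite := by
  induction n with
  | zero =>
    refine Set.Finite.subset (Set.finite_singleton (0 : ℝ)) ?_
    rintro s ⟨e, _, rfl⟩
    simp
  | succ n ih =>
    refine Set.Finite.subset (ih.union (ih.image (fun s => s + (side lam n - side lam (n + 1))))) ?_
    rintro s ⟨e, he, rfl⟩
    rw [Finset.sum_range_succ]
    rcases he n with h0 | h0
    · left
      exact ⟨e, he, by rw [h0, zero_mul, add_zero]⟩
    · right
      exact ⟨_, ⟨e, he, rfl⟩, by rw [h0, one_mul]⟩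

theorem isCompact_linStage (lam : ℕ → ℝ) (n : ℕ) : IsCompact (linStage lam n) := by
  have h1 : linStage lam n = image2 (fun s u => s + u)
      {s : ℝ | ∃ e : ℕ → ℝ, (∀ k, e k = 0 ∨ e k = 1) ∧
        s = ∑ k ∈ Finset.range n, e k * (side lam k - side lam (k + 1))}
      (Icc 0 (side lam n)) := by
    ext x
    rw [mem_linStage]
    constructor
    · rintro ⟨e, he, u, hu, rfl⟩
      exact ⟨_, ⟨e, he, rfl⟩, u, hu, rfl⟩
    · rintro ⟨s, ⟨e, he, rfl⟩, u, hu, rfl⟩
      exact ⟨e, he, u, hu, rfl⟩
  rw [h1]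
  exact (stg_finite_sums lam n).isCompact.add isCompact_Icc

theorem stg_isCompact_lin (lam : ℕ → ℝ) (h : ∀ k, 0 < lam k ∧ lam k ≤ 1 / 2) :
    IsCompact (lin lam) := by
  classical
  let g : (ℕ → Bool) → ℕ → ℝ := fun b k =>
    (if b k = true then 1 else 0) * (side lam k - side lam (k + 1))
  have hle : ∀ k (b : ℕ → Bool), ‖g b k‖ ≤ side lam k - side lam (k + 1) := by
    intro k b
    have h0 := stg_digit_nonneg lam h k
    show ‖(if b k = true then (1 : ℝ) else 0) * (side lam k - side lam (k + 1))‖ ≤ _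
    split_ifs
    · rw [one_mul, Real.norm_eq_abs, abs_of_nonneg h0]
    · rw [zero_mul, norm_zero]
      exact h0
  have hc : Continuous fun b : ℕ → Bool => ∑' k, g b k := by
    refine continuous_tsum (fun k => ?_) (stg_hasSum_digits lam h).summable (fun k b => hle k b)
    refine Continuous.mul ?_ continuous_const
    exact (continuous_of_discreteTopology (f := fun t : Bool => if t = true then (1 : ℝ) else 0)).comp
      (continuous_apply k)
  have hr : lin lam = range fun b : ℕ → Bool => ∑' k, g b k := by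
    ext x
    constructor
    · rintro ⟨e, he, hx⟩
      refine ⟨fun k => decide (e k = 1), ?_⟩
      have : g (fun k => decide (e k = 1)) = fun k => e k * (side lam k - side lam (k + 1)) := by
        funext k
        show (if decide (e k = 1) = true then (1 : ℝ) else 0) * _ = _
        rcases he k with h0 | h0 <;> simp [h0]
      show ∑' k, g (fun k => decide (e k = 1)) k = x
      rw [this]
      exact hx.tsum_eq
    · rintro ⟨b, rfl⟩
      refine ⟨fun k => if b k = true then 1 else 0, fun k => ?_, ?_⟩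
      · by_cases hb : b k = true <;> simp [hb]
      · exact (Summable.of_norm_bounded (stg_hasSum_digits lam h).summable
          (fun k => hle k b)).hasSum
  rw [hr]
  exact isCompact_range hc

theorem iInter_linStage (lam : ℕ → ℝ) (h : ∀ k, 0 < lam k ∧ lam k ≤ 1 / 2) :
    ⋂ n, linStage lam n = lin lam := by
  apply Set.Subset.antisymm
  · intro x hx
    rw [Set.mem_iInter] at hx
    rw [← (stg_isCompact_lin lam h).isClosed.closure_eq, Metric.mem_closure_iff]
    intro ε hε
    obtain ⟨n, hn⟩ := ((stg_side_tendsto lam h).eventually (gt_mem_nhds hε)).exists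
    obtain ⟨e, he, hx1⟩ := hx n
    refine ⟨∑ k ∈ Finset.range n, e k * (side lam k - side lam (k + 1)),
      ⟨fun k => if k < n then e k else 0, fun k => ?_, ?_⟩, ?_⟩
    · by_cases hk : k < n
      · simpa [hk] using he k
      · simp [hk]
    · have h1 : ∑ k ∈ Finset.range n, e k * (side lam k - side lam (k + 1)) =
          ∑ k ∈ Finset.range n, (if k < n then e k else 0) * (side lam k - side lam (k + 1)) :=
        Finset.sum_congr rfl fun k hk => by rw [if_pos (Finset.mem_range.1 hk)]
      rw [h1]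
      refine hasSum_sum_of_ne_finset_zero fun k hk => ?_
      show (if k < n then e k else 0) * (side lam k - side lam (k + 1)) = 0
      rw [if_neg (fun h2 => hk (Finset.mem_range.2 h2)), zero_mul]
    · rw [Real.dist_eq, abs_of_nonneg hx1.1]
      exact lt_of_le_of_lt hx1.2 hn
  · exact Set.subset_iInter fun n => lin_subset_linStage lam h n

theorem corner_subset_stage (lam : ℕ → ℝ) (h : ∀ k, 0 < lam k ∧ lam k ≤ 1 / 2) (n : ℕ) :
    corner lam ⊆ stage lam n := fun _ hw =>
  ⟨lin_subset_linStage lam h n hw.1, lin_subset_linStage lam h n hw.2⟩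

theorem isCompact_stage (lam : ℕ → ℝ) (n : ℕ) : IsCompact (stage lam n) :=
  (isCompact_linStage lam n).reProdIm (isCompact_linStage lam n)

theorem isCompact_corner (lam : ℕ → ℝ) (h : ∀ k, 0 < lam k ∧ lam k ≤ 1 / 2) :
    IsCompact (corner lam) :=
  (stg_isCompact_lin lam h).reProdIm (stg_isCompact_lin lam h)

theorem stg_side_congr (lam lam' : ℕ → ℝ) (n : ℕ) (hl : ∀ k < n, lam' k = lam k) :
    ∀ k ≤ n, side lam' k = side lam k := by
  intro k
  induction k with
  | zero => intro _; rfl
  | succ k ih =>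
    intro hk
    show lam' k * side lam' k = lam k * side lam k
    rw [ih (by omega), hl k (by omega)]

theorem stg_linStage_congr (lam lam' : ℕ → ℝ) (n : ℕ) (hl : ∀ k < n, lam' k = lam k) :
    linStage lam' n = linStage lam n := by
  have hs := stg_side_congr lam lam' n hl
  have h1 : ∀ e : ℕ → ℝ, ∑ k ∈ Finset.range n, e k * (side lam' k - side lam' (k + 1)) =
      ∑ k ∈ Finset.range n, e k * (side lam k - side lam (k + 1)) := fun e =>
    Finset.sum_congr rfl fun k hk => by
      have := Finset.mem_range.1 hk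
      rw [hs k (by omega), hs (k + 1) (by omega)]
  unfold linStage
  simp only [h1, hs n le_rfl]

/-- the finite stage contains the infinite set of a modified sequence -/
theorem corner_subset_stage' (lam lam' : ℕ → ℝ) (n : ℕ)
    (h : ∀ k, 0 < lam' k ∧ lam' k ≤ 1 / 2) (hl : ∀ k < n, lam' k = lam k) :
    corner lam' ⊆ stage lam n := by
  have h1 := corner_subset_stage lam' h n
  have h2 : stage lam' n = stage lam n := by
    unfold stage
    rw [stg_linStage_congr lam lam' n hl]
  rwa [h2] at h1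

end Pool.Agent.VC
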