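import Pool.Agent.VC.Inter
import Pool.Agent.VC.Stage

set_option autoImplicit false

open MeasureTheory Set

namespace Pool.Agent.VC

private theorem ps_digit (v : ℕ → ℝ) (n i : ℕ) (ε : ℝ) (hε : ε = 0 ∨ ε = 1) (hi : i < 2 ^ n) :
    ∃ i', i' < 2 ^ (n + 1) ∧ pos v (n + 1) i' = pos v n i + ε * v (n + 1) := by
  have h2 : 2 ^ (n + 1) = 2 * 2 ^ n := by ring
  rcases hε with rfl | rfl
  · refine ⟨2 * i, by omega, ?_⟩
    show pos v n (2 * i / 2) + ((2 * i % 2 : ℕ) : ℝ) * v (n + 1) = _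
    have e1 : 2 * i / 2 = i := by omega
    have e2 : 2 * i % 2 = 0 := by omega
    rw [e1, e2, Nat.cast_zero]
  · refine ⟨2 * i + 1, by omega, ?_⟩
    show pos v n ((2 * i + 1) / 2) + (((2 * i + 1) % 2 : ℕ) : ℝ) * v (n + 1) = _
    have e1 : (2 * i + 1) / 2 = i := by omega
    have e2 : (2 * i + 1) % 2 = 1 := by omega
    rw [e1, e2, Nat.cast_one]

/-- a sequence that moves by one digit at each step -/
private theorem ps_walk (v g : ℕ → ℝ)
    (hg : ∀ n, ∃ ε : ℝ, (ε = 0 ∨ ε = 1) ∧ g (n + 1) = g n + ε * v (n + 1)) (n : ℕ) :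
    ∃ i, i < 2 ^ n ∧ g n = g 0 + pos v n i := by
  induction n with
  | zero => exact ⟨0, by norm_num, by simp [pos]⟩
  | succ n ih =>
    obtain ⟨i, hi, hgi⟩ := ih
    obtain ⟨ε, hε, hs⟩ := hg n
    obtain ⟨i', hi', hp⟩ := ps_digit v n i ε hε hi
    refine ⟨i', hi', ?_⟩
    rw [hs, hgi, hp]
    ring

private theorem ps_sum (l e : ℕ → ℝ) (he : ∀ k, e k = 0 ∨ e k = 1) (n : ℕ) :
    ∃ i, i < 2 ^ n ∧ ∑ k ∈ Finset.range n, e k * l k = pos (fun m => l (m - 1)) n i := by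
  obtain ⟨i, hi, h⟩ := ps_walk (fun m => l (m - 1)) (fun n => ∑ k ∈ Finset.range n, e k * l k)
    (fun n => ⟨e n, he n, by
      show ∑ k ∈ Finset.range (n + 1), e k * l k = _
      rw [Finset.sum_range_succ]
      rfl⟩) n
  refine ⟨i, hi, ?_⟩
  have h2 : ∑ k ∈ Finset.range n, e k * l k =
      ∑ k ∈ Finset.range 0, e k * l k + pos (fun m => l (m - 1)) n i := h
  rw [h2]
  simp

private theorem ps_ix_iy (lam : ℕ → ℝ) (d : ℕ) (I : Inter lam d) (n : ℕ) :
    I.ix n + I.iy n = I.k0 + n := by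
  induction n with
  | zero => rw [I.ix0, I.iy0]
  | succ n ih =>
    rcases I.step n with ⟨h1, h2⟩ | ⟨h1, h2⟩ <;> omega

private theorem ps_fam (v L : ℕ → ℝ) (n i : ℕ) (hi : i < 2 ^ n) :
    cell v L n i ⊆ fam v L 0 {0} n := by
  intro x hx
  unfold fam
  rw [mem_iUnion₂]
  refine ⟨i, ?_, hx⟩
  rw [Finset.mem_filter]
  refine ⟨Finset.mem_range.mpr hi, ?_⟩
  rw [Nat.sub_zero, Nat.div_eq_of_lt hi]
  exact Finset.mem_singleton_self 0

theorem slope_stage (lam : ℕ → ℝ) (h : ∀ k, 1 / 4 ≤ lam k ∧ lam k ≤ 1 / 2) (d : ℕ)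
    (I : Inter lam d) (n : ℕ) (t : ℝ) (ht : 0 ≤ t) :
    volume (slope (t * (1 / 2) ^ d) '' stage lam (I.k0 + n)) ≤
      2 ^ I.k0 * volume (fam (I.S.vt t) (I.S.Lt t) 0 {0} n) := by
  have h' : ∀ k, 0 < lam k ∧ lam k ≤ 1 / 2 := fun k => ⟨by linarith [(h k).1], (h k).2⟩
  have hs := ps_ix_iy lam d I n
  set l : ℕ → ℝ := fun k => side lam k - side lam (k + 1) with hl
  have hd0 : (0 : ℝ) < (1 / 2) ^ d := by positivity
  have hcov : slope (t * (1 / 2) ^ d) '' stage lam (I.k0 + n) ⊆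
      ⋃ i ∈ Finset.range (2 ^ I.k0), (fun x => pos (fun m => l (m - 1)) I.k0 i + x) ''
        fam (I.S.vt t) (I.S.Lt t) 0 {0} n := by
    rintro _ ⟨w, hw, rfl⟩
    have hre : w.re ∈ linStage lam (I.ix n) :=
      linStage_anti lam h' (by omega : I.ix n ≤ I.k0 + n) hw.1
    have him : w.im ∈ linStage lam (I.iy n) :=
      linStage_anti lam h' (by omega : I.iy n ≤ I.k0 + n) hw.2
    rw [mem_linStage] at hre him
    obtain ⟨e, he, u, hu, hre⟩ := hre
    obtain ⟨e', he', u', hu', him⟩ := him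
    let g : ℕ → ℝ := fun m => ∑ k ∈ Finset.range (I.ix m), e k * l k +
      t * (1 / 2) ^ d * ∑ k ∈ Finset.range (I.iy m), e' k * l k
    have hstep : ∀ m, ∃ ε : ℝ, (ε = 0 ∨ ε = 1) ∧ g (m + 1) = g m + ε * I.S.vt t (m + 1) := by
      intro m
      have hP := I.S.hP m
      have hQ := I.S.hQ m
      rw [I.hP, I.hP] at hP
      rw [I.hQ, I.hQ] at hQ
      rcases I.step m with ⟨h1, h2⟩ | ⟨h1, h2⟩
      · refine ⟨e (I.ix m), he _, ?_⟩
        rw [h1] at hP
        rw [h2] at hQ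
        have hp : I.S.p (m + 1) = l (I.ix m) := by rw [hl]; simp only; linarith
        have hq : I.S.q (m + 1) = 0 := by linarith
        show ∑ k ∈ Finset.range (I.ix (m + 1)), e k * l k +
          t * (1 / 2) ^ d * ∑ k ∈ Finset.range (I.iy (m + 1)), e' k * l k =
          ∑ k ∈ Finset.range (I.ix m), e k * l k +
          t * (1 / 2) ^ d * ∑ k ∈ Finset.range (I.iy m), e' k * l k +
          e (I.ix m) * (I.S.p (m + 1) + t * I.S.q (m + 1))
        rw [h1, h2, Finset.sum_range_succ, hp, hq]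
        ring
      · refine ⟨e' (I.iy m), he' _, ?_⟩
        rw [h1] at hP
        rw [h2] at hQ
        have hp : I.S.p (m + 1) = 0 := by linarith
        have hq : I.S.q (m + 1) = (1 / 2) ^ d * l (I.iy m) := by
          rw [hl]; simp only; linarith
        show ∑ k ∈ Finset.range (I.ix (m + 1)), e k * l k +
          t * (1 / 2) ^ d * ∑ k ∈ Finset.range (I.iy (m + 1)), e' k * l k =
          ∑ k ∈ Finset.range (I.ix m), e k * l k +
          t * (1 / 2) ^ d * ∑ k ∈ Finset.range (I.iy m), e' k * l k +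
          e' (I.iy m) * (I.S.p (m + 1) + t * I.S.q (m + 1))
        rw [h1, h2, Finset.sum_range_succ, hp, hq]
        ring
    obtain ⟨i, hi, hgi⟩ := ps_walk (I.S.vt t) g hstep n
    obtain ⟨i0, hi0, hg0⟩ := ps_sum l e he I.k0
    have hg00 : g 0 = pos (fun m => l (m - 1)) I.k0 i0 := by
      show ∑ k ∈ Finset.range (I.ix 0), e k * l k +
          t * (1 / 2) ^ d * ∑ k ∈ Finset.range (I.iy 0), e' k * l k = _
      rw [I.ix0, I.iy0, hg0]
      simp
    rw [mem_iUnion₂]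
    refine ⟨i0, Finset.mem_range.mpr hi0, pos (I.S.vt t) n i + (u + t * (1 / 2) ^ d * u'),
      ps_fam _ _ n i hi ?_, ?_⟩
    · show pos (I.S.vt t) n i + (u + t * (1 / 2) ^ d * u') ∈
        Icc (pos (I.S.vt t) n i) (pos (I.S.vt t) n i + I.S.L n t)
      have hLn : I.S.L n t = side lam (I.ix n) + t * ((1 / 2) ^ d * side lam (I.iy n)) := by
        show I.S.P n + t * I.S.Q n = _
        rw [I.hP, I.hQ]
      rw [hLn]
      have h3 : 0 ≤ t * (1 / 2) ^ d * u' := mul_nonneg (mul_nonneg ht hd0.le) hu'.1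
      have h4 : t * (1 / 2) ^ d * u' ≤ t * (1 / 2) ^ d * side lam (I.iy n) :=
        mul_le_mul_of_nonneg_left hu'.2 (mul_nonneg ht hd0.le)
      constructor
      · linarith [hu.1]
      · linarith [hu.2]
    · show pos (fun m => l (m - 1)) I.k0 i0 + (pos (I.S.vt t) n i + (u + t * (1 / 2) ^ d * u')) =
        w.re + t * (1 / 2) ^ d * w.im
      have h5 : g n = ∑ k ∈ Finset.range (I.ix n), e k * l k +
          t * (1 / 2) ^ d * ∑ k ∈ Finset.range (I.iy n), e' k * l k := rfl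
      rw [hg00, h5] at hgi
      rw [hre, him]
      linarith
  refine (measure_mono hcov).trans ((measure_biUnion_finset_le _ _).trans (le_of_eq ?_))
  have h6 : ∀ i ∈ Finset.range (2 ^ I.k0),
      volume ((fun x => pos (fun m => l (m - 1)) I.k0 i + x) ''
        fam (I.S.vt t) (I.S.Lt t) 0 {0} n) = volume (fam (I.S.vt t) (I.S.Lt t) 0 {0} n) := by
    intro i _
    rw [image_add_left, measure_preimage_add]
  rw [Finset.sum_congr rfl h6, Finset.sum_const, Finset.card_range, nsmul_eq_mul]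
  push_cast
  rfl

theorem SS_le_inter (lam : ℕ → ℝ) (h : ∀ k, 1 / 4 ≤ lam k ∧ lam k ≤ 1 / 2) (d : ℕ)
    (I : Inter lam d) (n : ℕ) :
    SS lam (I.k0 + n + 1) ≤ ∑ k ∈ Finset.range (n + 1), I.S.A k + d := by
  have h' : ∀ k, 0 < lam k := fun k => by linarith [(h k).1]
  have h4 : ∀ k, 1 / 4 ≤ lam k := fun k => (h k).1
  have h1 : SS lam (I.k0 + n + 1) = ∑ k ∈ Finset.range I.k0, dens lam k ^ 2 +
      ∑ m ∈ Finset.range (n + 1), dens lam (I.k0 + m) ^ 2 := by
    unfold SS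
    rw [add_assoc, Finset.sum_range_add]
  have h2 : ∑ k ∈ Finset.range I.k0, dens lam k ^ 2 ≤ d := by
    have h3 : ∑ k ∈ Finset.range I.k0, dens lam k ^ 2 ≤ ∑ k ∈ Finset.range I.k0, (1 : ℝ) := by
      refine Finset.sum_le_sum fun k _ => ?_
      have h5 := (dens_pos lam h4 k).le
      have h6 := dens_le_one lam h4 k
      nlinarith
    have h7 : (I.k0 : ℝ) ≤ d := by exact_mod_cast I.k0_le
    simp only [Finset.sum_const, Finset.card_range, nsmul_eq_mul, mul_one] at h3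
    linarith
  have h8 : ∑ m ∈ Finset.range (n + 1), dens lam (I.k0 + m) ^ 2 ≤
      ∑ k ∈ Finset.range (n + 1), I.S.A k := by
    refine Finset.sum_le_sum fun m _ => ?_
    have hs := ps_ix_iy lam d I m
    have hx := dens_anti lam h4 (by omega : I.ix m ≤ I.k0 + m)
    have hy := dens_anti lam h4 (by omega : I.iy m ≤ I.k0 + m)
    have hp := dens_pos lam h4 (I.k0 + m)
    have e1 : I.S.A m = 4 ^ I.k0 * 2 ^ d * (dens lam (I.ix m) * dens lam (I.iy m)) := by
      unfold Sys.A dens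
      rw [I.hP, I.hQ]
      have hsx := (side_pos lam h' (I.ix m)).ne'
      have hsy := (side_pos lam h' (I.iy m)).ne'
      have e2 : (4 : ℝ) ^ I.ix m * 4 ^ I.iy m = 4 ^ I.k0 * 4 ^ m := by
        rw [← pow_add, ← pow_add, hs]
      have e3 : ((1 : ℝ) / 2) ^ d * 2 ^ d = 1 := by
        rw [← mul_pow]; norm_num
      have e4 : (0 : ℝ) < (1 / 2) ^ d := by positivity
      have e5 : (2 : ℝ) ^ d = 1 / (1 / 2) ^ d := by
        rw [eq_div_iff e4.ne']; linarith
      rw [e5]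
      have e6 : (4 : ℝ) ^ I.k0 = 4 ^ I.ix m * 4 ^ I.iy m / 4 ^ m := by
        rw [e2]; field_simp
      rw [e6]
      field_simp
    rw [e1]
    have h9 : dens lam (I.k0 + m) ^ 2 ≤ dens lam (I.ix m) * dens lam (I.iy m) := by
      rw [sq]
      exact mul_le_mul hx hy hp.le (hp.le.trans hx)
    have h10 : (1 : ℝ) ≤ 4 ^ I.k0 * 2 ^ d := by
      have a1 : (1 : ℝ) ≤ 4 ^ I.k0 := one_le_pow₀ (by norm_num)
      have a2 : (1 : ℝ) ≤ 2 ^ d := one_le_pow₀ (by norm_num)
      nlinarith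
    have h11 : 0 ≤ dens lam (I.ix m) * dens lam (I.iy m) :=
      (sq_nonneg _).trans h9
    nlinarith
  rw [h1]
  linarith

end Pool.Agent.VC
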