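import Pool.Agent.VC.OneInt
import Pool.Agent.VC.Moving
import Pool.Agent.VC.Greedy

set_option autoImplicit false

open MeasureTheory Set

namespace Pool.Agent.VC

/-- dyadic subintervals of `[1,2)` -/
noncomputable def dy (e a : ℕ) : Set ℝ := Ico (1 + (a : ℝ) / 2 ^ e) (1 + ((a : ℝ) + 1) / 2 ^ e)

/-- the error term of generation `g` -/
noncomputable def err (S : Sys) (g : ℕ) : ℝ :=
  15 * (9 / 10) ^ (g / 8) + 7200 * S.r (g - g / 8) ^ 3 / S.r (g + 1) ^ 2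

theorem err_nonneg (S : Sys) (g : ℕ) : 0 ≤ err S g := by
  unfold err
  have h1 := S.r_pos (g - g / 8)
  have h2 := S.r_pos (g + 1)
  positivity

theorem dy_sub {e a : ℕ} (ha : a < 2 ^ e) : dy e a ⊆ Icc 1 2 := by
  intro t ht
  unfold dy at ht
  have h2 : (0 : ℝ) < 2 ^ e := by positivity
  have ha' : (a : ℝ) + 1 ≤ 2 ^ e := by exact_mod_cast ha
  refine ⟨?_, ?_⟩
  · have : (0 : ℝ) ≤ (a : ℝ) / 2 ^ e := by positivity
    linarith [ht.1]
  · have : ((a : ℝ) + 1) / 2 ^ e ≤ 1 := by rw [div_le_one h2]; exact ha'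
    linarith [ht.2]

theorem dy_meas (e a : ℕ) : MeasurableSet (dy e a) := measurableSet_Ico

/-- nested dyadic intervals -/
theorem dy_nest {e e' a a' : ℕ} (he : e ≤ e') {t : ℝ} (h1 : t ∈ dy e a) (h2 : t ∈ dy e' a') :
    dy e' a' ⊆ dy e a := by
  obtain ⟨d, rfl⟩ := Nat.exists_eq_add_of_le he
  unfold dy at *
  have p1 : (0 : ℝ) < 2 ^ e := by positivity
  have p2 : (0 : ℝ) < 2 ^ (e + d) := by positivity
  have key1 : a * 2 ^ d ≤ a' := by
    have h3 : (a : ℝ) / 2 ^ e < ((a' : ℝ) + 1) / 2 ^ (e + d) := by linarith [h1.1, h2.2]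
    rw [div_lt_div_iff₀ p1 p2, pow_add] at h3
    have h4 : (a : ℝ) * 2 ^ d < (a' : ℝ) + 1 := by
      have h5 : ((a : ℝ) * 2 ^ d) * 2 ^ e < ((a' : ℝ) + 1) * 2 ^ e := by linarith [h3]
      exact lt_of_mul_lt_mul_right h5 p1.le
    have h6 : a * 2 ^ d < a' + 1 := by exact_mod_cast h4
    omega
  have key2 : a' + 1 ≤ (a + 1) * 2 ^ d := by
    have h3 : (a' : ℝ) / 2 ^ (e + d) < ((a : ℝ) + 1) / 2 ^ e := by linarith [h1.2, h2.1]
    rw [div_lt_div_iff₀ p2 p1, pow_add] at h3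
    have h4 : (a' : ℝ) < ((a : ℝ) + 1) * 2 ^ d := by
      have h5 : (a' : ℝ) * 2 ^ e < (((a : ℝ) + 1) * 2 ^ d) * 2 ^ e := by linarith [h3]
      exact lt_of_mul_lt_mul_right h5 p1.le
    have h6 : a' < (a + 1) * 2 ^ d := by exact_mod_cast h4
    omega
  have k1 : (a : ℝ) / 2 ^ e ≤ (a' : ℝ) / 2 ^ (e + d) := by
    rw [div_le_div_iff₀ p1 p2, pow_add]
    have : (a : ℝ) * 2 ^ d ≤ a' := by exact_mod_cast key1
    calc (a : ℝ) * (2 ^ e * 2 ^ d) = (a * 2 ^ d) * 2 ^ e := by ring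
      _ ≤ a' * 2 ^ e := mul_le_mul_of_nonneg_right this p1.le
  have k2 : ((a' : ℝ) + 1) / 2 ^ (e + d) ≤ ((a : ℝ) + 1) / 2 ^ e := by
    rw [div_le_div_iff₀ p2 p1, pow_add]
    have : (a' : ℝ) + 1 ≤ (a + 1) * 2 ^ d := by exact_mod_cast key2
    calc ((a' : ℝ) + 1) * 2 ^ e ≤ ((a + 1) * 2 ^ d) * 2 ^ e :=
          mul_le_mul_of_nonneg_right this p1.le
      _ = (a + 1) * (2 ^ e * 2 ^ d) := by ring
  intro s hs
  exact ⟨by linarith [hs.1], by linarith [hs.2]⟩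

theorem dy_dist {e a : ℕ} {s t : ℝ} (hs : s ∈ dy e a) (ht : t ∈ dy e a) :
    |s - t| ≤ 1 / 2 ^ e := by
  unfold dy at *
  have : ((a : ℝ) + 1) / 2 ^ e = (a : ℝ) / 2 ^ e + 1 / 2 ^ e := by ring
  rw [this] at hs ht
  rw [abs_le]
  constructor <;> linarith [hs.1, hs.2, ht.1, ht.2]

namespace Sys

/-- the bad slopes between the generations `g` and `G` -/
noncomputable def Bad (S : Sys) (g G : ℕ) : Set ℝ :=
  ⋃ g' ∈ Finset.Ico g G, S.BB (g' - g' / 8) (g' / 8) ((9 / 10) ^ (g' / 8))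

theorem Bad_meas (S : Sys) (g G : ℕ) : MeasurableSet (S.Bad g G) :=
  Finset.measurableSet_biUnion _ fun g' _ => S.measurableSet_BB _ _ _

theorem cont_H (S : Sys) (m j : ℕ) (Yx Yy : ℝ) :
    Continuous (fun t => S.H m j t (Yx + t * Yy)) :=
  (S.H_cont m j).comp (f := fun t : ℝ => (t, Yx + t * Yy)) (by fun_prop)

theorem cont_D (S : Sys) (m j : ℕ) (Yx Yy : ℝ) :
    Continuous (fun t => S.D m j t (Yx + t * Yy)) :=
  (S.D_cont m j).comp (f := fun t : ℝ => (t, Yx + t * Yy)) (by fun_prop)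

/-- telescoping -/
theorem tele (S : Sys) (m g G : ℕ) (hm : m ≤ g) (t x : ℝ) (g' : ℕ) (h1 : g ≤ g') (h2 : g' ≤ G) :
    |S.H m (g' - m) t x - S.H m (g - m) t x| ≤
      ∑ k ∈ Finset.Ico g G, |S.D m (k - m) t x| := by
  have h3 : |S.H m (g' - m) t x - S.H m (g - m) t x| ≤
      ∑ k ∈ Finset.Ico g g', |S.D m (k - m) t x| := by
    induction g', h1 using Nat.le_induction with
    | base => simp
    | succ n hn ih =>
      rw [Finset.sum_Ico_succ_top hn]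
      have h4 : S.D m (n - m) t x = S.H m (n + 1 - m) t x - S.H m (n - m) t x := by
        have : n + 1 - m = n - m + 1 := by omega
        rw [this]
        rfl
      calc |S.H m (n + 1 - m) t x - S.H m (g - m) t x|
          = |(S.H m (n - m) t x - S.H m (g - m) t x) + S.D m (n - m) t x| := by
            rw [h4]; congr 1; ring
        _ ≤ |S.H m (n - m) t x - S.H m (g - m) t x| + |S.D m (n - m) t x| := abs_add_le _ _
        _ ≤ _ := by
            have := ih (by omega)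
            linarith
  refine h3.trans (Finset.sum_le_sum_of_subset_of_nonneg ?_ fun _ _ _ => abs_nonneg _)
  intro k hk
  rw [Finset.mem_Ico] at hk ⊢
  omega

/-- the measure of the flow set of one interval -/
theorem flow_one (S : Sys) (g G e a : ℕ) (ha : a < 2 ^ e)
    (hm : S.r (g - g / 8) ≤ 1 / 30) (Yx Yy : ℝ) (hY : 1 / 10 ≤ |Yy|) :
    volume {t | t ∈ dy e a ∧ t ∉ S.Bad g G ∧ ∃ g', g ≤ g' ∧ g' ≤ G ∧
      1 / 64 < S.r (g - g / 8) * |S.H (g - g / 8) (g' - (g - g / 8)) t (Yx + t * Yy) -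
        S.H (g - g / 8) (g - (g - g / 8)) t (Yx + t * Yy)|} ≤
    ENNReal.ofReal (64 * S.r (g - g / 8) * ∑ g' ∈ Finset.Ico g G, VC.err S g') := by
  set m := g - g / 8 with hmdef
  have hmg : m ≤ g := by omega
  set ρ := S.r m with hρ
  have hρ0 : 0 < ρ := S.r_pos m
  set T : Set ℝ := dy e a \ S.Bad g G with hT
  have hTm : MeasurableSet T := (dy_meas e a).diff (S.Bad_meas g G)
  set F : ℝ → ℝ := fun t => ∑ k ∈ Finset.Ico g G, ρ * |S.D m (k - m) t (Yx + t * Yy)| with hF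
  have hF0 : ∀ t, 0 ≤ F t := fun t => Finset.sum_nonneg fun k _ =>
    mul_nonneg hρ0.le (abs_nonneg _)
  have hTsub : T ⊆ Icc 1 2 := fun t ht => dy_sub ha ht.1
  have hcont : ∀ k, Continuous (fun t => ρ * |S.D m (k - m) t (Yx + t * Yy)|) := fun k =>
    ((S.cont_D m (k - m) Yx Yy).abs).const_mul ρ
  have hint : ∀ k, IntegrableOn (fun t => ρ * |S.D m (k - m) t (Yx + t * Yy)|) (Icc 1 2) volume :=
    fun k => (hcont k).continuousOn.integrableOn_compact isCompact_Icc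
  have hFint : IntegrableOn F T volume :=
    integrable_finsetSum _ fun k _ => (hint k).mono_set hTsub
  -- the integral of F
  have hFI : ∫ t in T, F t ≤ ρ * ∑ g' ∈ Finset.Ico g G, VC.err S g' := by
    rw [hF, integral_finset_sum _ fun k _ => (hint k).mono_set hTsub, Finset.mul_sum]
    refine Finset.sum_le_sum fun k hk => ?_
    rw [Finset.mem_Ico] at hk
    have hsub : T ⊆ Icc 1 2 \ S.BB (k - k / 8) (k / 8) ((9 / 10) ^ (k / 8)) := by
      intro t ht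
      refine ⟨hTsub ht, fun hb => ht.2 ?_⟩
      exact mem_iUnion₂.mpr ⟨k, Finset.mem_Ico.mpr hk, hb⟩
    have h1 : ∫ t in T, ρ * |S.D m (k - m) t (Yx + t * Yy)| ≤
        ∫ t in Icc 1 2 \ S.BB (k - k / 8) (k / 8) ((9 / 10) ^ (k / 8)),
          ρ * |S.D m (k - m) t (Yx + t * Yy)| := by
      refine setIntegral_mono_set ((hint k).mono_set sdiff_subset) ?_ hsub.eventuallyLE
      exact Filter.Eventually.of_forall fun t => mul_nonneg hρ0.le (abs_nonneg _)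
    refine h1.trans ?_
    rw [integral_const_mul]
    refine mul_le_mul_of_nonneg_left ?_ hρ0.le
    have h2 := S.moving' m (k - k / 8 - m) (k / 8) hm ((9 / 10) ^ (k / 8)) Yx Yy (by positivity) hY
    have e1 : m + (k - k / 8 - m) = k - k / 8 := by omega
    have e2 : k - k / 8 - m + k / 8 = k - m := by omega
    have e3 : k - k / 8 + k / 8 + 1 = k + 1 := by omega
    rw [e1, e2, e3] at h2
    exact h2
  -- Chebyshev
  have hsub : {t | t ∈ dy e a ∧ t ∉ S.Bad g G ∧ ∃ g', g ≤ g' ∧ g' ≤ G ∧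
      1 / 64 < ρ * |S.H m (g' - m) t (Yx + t * Yy) - S.H m (g - m) t (Yx + t * Yy)|} ⊆
      {t | 1 / 64 ≤ F t} ∩ T := by
    rintro t ⟨h1, h2, g', h3, h4, h5⟩
    refine ⟨?_, h1, h2⟩
    have h6 := S.tele m g G hmg t (Yx + t * Yy) g' h3 h4
    show 1 / 64 ≤ F t
    have h7 : F t = ρ * ∑ k ∈ Finset.Ico g G, |S.D m (k - m) t (Yx + t * Yy)| := by
      rw [hF, Finset.mul_sum]
    rw [h7]
    exact h5.le.trans (mul_le_mul_of_nonneg_left h6 hρ0.le)
  refine (measure_mono hsub).trans ?_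
  have hch := mul_meas_ge_le_integral_of_nonneg (μ := volume.restrict T)
    (Filter.Eventually.of_forall hF0) hFint (1 / 64)
  have hset : MeasurableSet {t | 1 / 64 ≤ F t} := by
    have : Continuous F := continuous_finset_sum _ fun k _ => hcont k
    exact (isClosed_le continuous_const this).measurableSet
  have hTfin : volume T ≠ ⊤ := by
    refine ((measure_mono hTsub).trans_lt ?_).ne
    rw [Real.volume_Icc]
    exact ENNReal.ofReal_lt_top
  have hfin : volume ({t | 1 / 64 ≤ F t} ∩ T) ≠ ⊤ :=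
    ((measure_mono inter_subset_right).trans_lt hTfin.lt_top).ne
  rw [measureReal_restrict_apply hset] at hch
  have h8 : (volume ({t | 1 / 64 ≤ F t} ∩ T)).toReal ≤
      64 * ρ * ∑ g' ∈ Finset.Ico g G, VC.err S g' := by
    have h9 : 1 / 64 * (volume ({t | 1 / 64 ≤ F t} ∩ T)).toReal ≤ ∫ t in T, F t := hch
    linarith
  rw [← ENNReal.ofReal_toReal hfin]
  exact ENNReal.ofReal_le_ofReal h8

/-- everything about one scale; here `m = g - g/8` -/
theorem scaleLemma (S : Sys) (hr : S.r 0 = 1) (hs : S.sep 0) (g G e e' : ℕ) (hgG : g ≤ G)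
    (he : 80 * S.r (g - g / 8) ≤ 1 / 2 ^ e) (he2 : (1 : ℝ) / 2 ^ e ≤ 160 * S.r (g - g / 8))
    (hm : S.r (g - g / 8) ≤ 1 / 30) (hN1 : 2560 * S.r (g - g / 8) ^ 3 ≤ S.r g ^ 2)
    (hee : e ≤ e') (hN2 : 160 * S.r (g - g / 8) * (1 / 2 ^ e') ≤ S.r g ^ 2) :
    ∃ Suc Suc' Fl : Set ℝ, MeasurableSet Suc ∧ MeasurableSet Suc' ∧
      (∀ a < 2 ^ e, (∀ t ∈ dy e a, S.good 0 t) → ∀ Λ : ℝ, 0 < Λ →
        ∫ t in dy e a, S.r (g - g / 8) * (∫ x, S.H (g - g / 8) (g / 8) t x ^ 2) ≤ Λ * (1 / 2 ^ e) →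
        ENNReal.ofReal (1 / 2 ^ e / (2560 * Λ)) ≤ volume (Suc ∩ dy e a)) ∧
      (∀ a < 2 ^ e', (Suc ∩ dy e' a).Nonempty → dy e' a ⊆ Suc') ∧
      volume Fl ≤ ENNReal.ofReal (∑ g' ∈ Finset.Ico g G, VC.err S g') ∧
      ∀ t ∈ Suc', t ∉ Fl → t ∉ S.Bad g G → ∀ g', g ≤ g' → g' ≤ G →
        (1 / 4) ^ (g - g / 8) / 64 ≤ S.z 0 g' t := by
  classical
  set m := g - g / 8 with hmdef
  have hmg : m ≤ g := by omega
  have hgm : g / 8 = g - m := by omega
  have hmg' : m + g / 8 = g := by omega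
  set ρ := S.r m with hρ
  have hρ0 : 0 < ρ := S.r_pos m
  have hrg := S.r_pos g
  -- choice of the strings
  have hex : ∀ a : ℕ, a < 2 ^ e → (∀ t ∈ dy e a, S.good 0 t) → ∃ Yx Yy : ℝ,
      |Yx + ((1 + (a : ℝ) / 2 ^ e) + (1 / 2 ^ e) / 2) * Yy| ≤ 2 * ρ ∧ 1 / 10 ≤ |Yy| ∧ |Yy| ≤ 4 ∧
      ∀ t' j, (1 / 4) ^ m * S.H m j t' (Yx + t' * Yy) ≤ S.z 0 (m + j) t' := by
    intro a ha hg
    have hl : (0 : ℝ) < 1 / 2 ^ e := by positivity
    have hmem : (1 + (a : ℝ) / 2 ^ e) + (1 / 2 ^ e) / 2 ∈ dy e a := by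
      unfold dy
      have : ((a : ℝ) + 1) / 2 ^ e = (a : ℝ) / 2 ^ e + 1 / 2 ^ e := by ring
      rw [this]
      exact ⟨by linarith, by linarith⟩
    have h12 := dy_sub ha hmem
    exact S.greedyY hr hs m hm _ h12.1 h12.2 (hg _ hmem)
  choose! Yx Yy hY1 hY2 hY3 hY4 using hex
  set A : Finset ℕ := (Finset.range (2 ^ e)).filter (fun a => ∀ t ∈ dy e a, S.good 0 t) with hA
  have hAmem : ∀ a, a ∈ A ↔ a < 2 ^ e ∧ ∀ t ∈ dy e a, S.good 0 t := by
    intro a; rw [hA, Finset.mem_filter, Finset.mem_range]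
  have hcl : ∀ (c : ℝ) (a : ℕ), MeasurableSet
      {t | c ≤ ρ * S.H m (g / 8) t (Yx a + t * Yy a)} := by
    intro c a
    exact (isClosed_le continuous_const ((S.cont_H m (g / 8) (Yx a) (Yy a)).const_mul ρ)).measurableSet
  refine ⟨⋃ a ∈ A, dy e a ∩ {t | 1 / 16 ≤ ρ * S.H m (g / 8) t (Yx a + t * Yy a)},
    ⋃ a ∈ A, dy e a ∩ {t | 1 / 32 ≤ ρ * S.H m (g / 8) t (Yx a + t * Yy a)},
    ⋃ a ∈ A, {t | t ∈ dy e a ∧ t ∉ S.Bad g G ∧ ∃ g', g ≤ g' ∧ g' ≤ G ∧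
      1 / 64 < ρ * |S.H m (g' - m) t (Yx a + t * Yy a) - S.H m (g - m) t (Yx a + t * Yy a)|},
    ?_, ?_, ?_, ?_, ?_, ?_⟩
  · exact Finset.measurableSet_biUnion _ fun a _ => (dy_meas e a).inter (hcl _ a)
  · exact Finset.measurableSet_biUnion _ fun a _ => (dy_meas e a).inter (hcl _ a)
  · -- success in one interval
    intro a ha hg Λ hΛ hh
    have hl : (0 : ℝ) < 1 / 2 ^ e := by positivity
    have hdy : dy e a = Ico (1 + (a : ℝ) / 2 ^ e) ((1 + (a : ℝ) / 2 ^ e) + 1 / 2 ^ e) := by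
      unfold dy
      congr 1
      ring
    have h12 : (1 : ℝ) ≤ 1 + (a : ℝ) / 2 ^ e := by
      have : (0 : ℝ) ≤ (a : ℝ) / 2 ^ e := by positivity
      linarith
    have h2 : (1 + (a : ℝ) / 2 ^ e) + 1 / 2 ^ e ≤ 2 := by
      have h3 : (a : ℝ) + 1 ≤ 2 ^ e := by exact_mod_cast ha
      have h4 : ((a : ℝ) + 1) / 2 ^ e ≤ 1 := by rw [div_le_one (by positivity)]; exact h3
      have : ((a : ℝ) + 1) / 2 ^ e = (a : ℝ) / 2 ^ e + 1 / 2 ^ e := by ring
      linarith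
    have hfr : 16 * S.r m ^ 2 * (1 / 2 ^ e) ≤ S.r (m + g / 8) ^ 2 := by
      rw [hmg']
      refine le_trans ?_ hN1
      have : 16 * ρ ^ 2 * (1 / 2 ^ e) ≤ 16 * ρ ^ 2 * (160 * ρ) :=
        mul_le_mul_of_nonneg_left he2 (by positivity)
      calc 16 * S.r m ^ 2 * (1 / 2 ^ e) ≤ 16 * ρ ^ 2 * (160 * ρ) := this
        _ = 2560 * ρ ^ 3 := by ring
    rw [hdy] at hh
    have h5 := oneInt S hr m (g / 8) (1 + (a : ℝ) / 2 ^ e) (1 / 2 ^ e) Λ (Yx a) (Yy a) h12 h2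
      he he2 hfr (hY1 a ha hg) (hY2 a ha hg) (hY3 a ha hg) hΛ hh
    refine h5.trans (measure_mono ?_)
    rintro t ⟨ht1, ht2⟩
    rw [← hdy] at ht1
    exact ⟨mem_iUnion₂.mpr ⟨a, (hAmem a).mpr ⟨ha, hg⟩, ht1, ht2⟩, ht1⟩
  · -- saturation
    rintro a' ha' ⟨t0, ht0, ht0'⟩
    obtain ⟨a, haA, hta, htb⟩ := mem_iUnion₂.mp ht0
    obtain ⟨ha, hg⟩ := (hAmem a).mp haA
    have hn := dy_nest hee hta ht0'
    intro t ht
    refine mem_iUnion₂.mpr ⟨a, haA, hn ht, ?_⟩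
    show 1 / 32 ≤ ρ * S.H m (g / 8) t (Yx a + t * Yy a)
    have htb' : 1 / 16 ≤ ρ * S.H m (g / 8) t0 (Yx a + t0 * Yy a) := htb
    have h1 := S.H_lip m (g / 8) t0 t (Yx a + t0 * Yy a) (Yx a + t * Yy a)
    rw [hmg'] at h1
    have h2 := dy_dist ht0' ht
    have h3 : |Yx a + t0 * Yy a - (Yx a + t * Yy a)| ≤ 4 * |t0 - t| := by
      have : Yx a + t0 * Yy a - (Yx a + t * Yy a) = (t0 - t) * Yy a := by ring
      rw [this, abs_mul, mul_comm]
      exact mul_le_mul_of_nonneg_right (hY3 a ha hg) (abs_nonneg _)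
    have h4 : |Yx a + t0 * Yy a - (Yx a + t * Yy a)| + |t0 - t| * S.r m ≤ 5 * (1 / 2 ^ e') := by
      have h6 : |t0 - t| * S.r m ≤ |t0 - t| * 1 :=
        mul_le_mul_of_nonneg_left (hm.trans (by norm_num)) (abs_nonneg _)
      linarith
    have h5 : S.H m (g / 8) t0 (Yx a + t0 * Yy a) - S.H m (g / 8) t (Yx a + t * Yy a) ≤
        5 * (1 / 2 ^ e') / S.r g ^ 2 :=
      (le_abs_self _).trans (h1.trans (div_le_div_of_nonneg_right h4 (by positivity)))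
    have h6 : ρ * (5 * (1 / 2 ^ e') / S.r g ^ 2) ≤ 1 / 32 := by
      rw [mul_div_assoc', div_le_iff₀ (by positivity)]
      linarith
    have h7 : ρ * (S.H m (g / 8) t0 (Yx a + t0 * Yy a) - S.H m (g / 8) t (Yx a + t * Yy a)) ≤
        ρ * (5 * (1 / 2 ^ e') / S.r g ^ 2) := mul_le_mul_of_nonneg_left h5 hρ0.le
    rw [mul_sub] at h7
    linarith
  · -- flow
    have herr : 0 ≤ ∑ g' ∈ Finset.Ico g G, VC.err S g' :=
      Finset.sum_nonneg fun g' _ => err_nonneg S g'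
    refine (measure_biUnion_finset_le A _).trans ?_
    have h1 : ∀ a ∈ A, volume {t | t ∈ dy e a ∧ t ∉ S.Bad g G ∧ ∃ g', g ≤ g' ∧ g' ≤ G ∧
        1 / 64 < ρ * |S.H m (g' - m) t (Yx a + t * Yy a) -
          S.H m (g - m) t (Yx a + t * Yy a)|} ≤
        ENNReal.ofReal (64 * ρ * ∑ g' ∈ Finset.Ico g G, VC.err S g') := by
      intro a haA
      obtain ⟨ha, hg⟩ := (hAmem a).mp haA
      exact S.flow_one g G e a ha hm (Yx a) (Yy a) (hY2 a ha hg)
    refine (Finset.sum_le_sum h1).trans ?_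
    rw [Finset.sum_const, nsmul_eq_mul]
    have h2 : (A.card : ℝ) ≤ 2 ^ e := by
      have : A.card ≤ (Finset.range (2 ^ e)).card := Finset.card_filter_le _ _
      rw [Finset.card_range] at this
      exact_mod_cast this
    rw [← ENNReal.ofReal_natCast, ← ENNReal.ofReal_mul (Nat.cast_nonneg A.card)]
    refine ENNReal.ofReal_le_ofReal ?_
    have h3 : (2 : ℝ) ^ e * (80 * ρ) ≤ 1 := by
      have h2e' : (0 : ℝ) ≤ 2 ^ e := by positivity
      have := mul_le_mul_of_nonneg_left he h2e'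
      have h2e : (2 : ℝ) ^ e ≠ 0 := pow_ne_zero e two_ne_zero
      rwa [mul_one_div_cancel h2e] at this
    have h4 : (A.card : ℝ) * (64 * ρ) ≤ 1 := by
      have h5 : (A.card : ℝ) * (64 * ρ) ≤ 2 ^ e * (64 * ρ) :=
        mul_le_mul_of_nonneg_right h2 (by positivity)
      have h6 : (2 : ℝ) ^ e * (64 * ρ) ≤ 2 ^ e * (80 * ρ) :=
        mul_le_mul_of_nonneg_left (by linarith) (by positivity)
      linarith
    calc (A.card : ℝ) * (64 * ρ * ∑ g' ∈ Finset.Ico g G, VC.err S g')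
        = ((A.card : ℝ) * (64 * ρ)) * ∑ g' ∈ Finset.Ico g G, VC.err S g' := by ring
      _ ≤ 1 * ∑ g' ∈ Finset.Ico g G, VC.err S g' := mul_le_mul_of_nonneg_right h4 herr
      _ = _ := one_mul _
  · -- conclusion
    intro t ht hFl hBad g' h1 h2
    obtain ⟨a, haA, hta, htb⟩ := mem_iUnion₂.mp ht
    obtain ⟨ha, hg⟩ := (hAmem a).mp haA
    have htb' : 1 / 32 ≤ ρ * S.H m (g / 8) t (Yx a + t * Yy a) := htb
    have h3 : ρ * |S.H m (g' - m) t (Yx a + t * Yy a) - S.H m (g - m) t (Yx a + t * Yy a)| ≤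
        1 / 64 := by
      by_contra hcon
      push Not at hcon
      exact hFl (mem_iUnion₂.mpr ⟨a, haA, hta, hBad, g', h1, h2, hcon⟩)
    rw [hgm] at htb'
    have h4 : ρ * (S.H m (g - m) t (Yx a + t * Yy a) - S.H m (g' - m) t (Yx a + t * Yy a)) ≤
        1 / 64 := by
      refine le_trans (mul_le_mul_of_nonneg_left ?_ hρ0.le) h3
      rw [abs_sub_comm]
      exact le_abs_self _
    rw [mul_sub] at h4
    have h5 : 1 / 64 ≤ ρ * S.H m (g' - m) t (Yx a + t * Yy a) := by linarith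
    have h6 := hY4 a ha hg t (g' - m)
    rw [show m + (g' - m) = g' by omega] at h6
    have h7 : ρ * S.H m (g' - m) t (Yx a + t * Yy a) ≤ 1 * S.H m (g' - m) t (Yx a + t * Yy a) :=
      mul_le_mul_of_nonneg_right (hm.trans (by norm_num)) (S.H_nonneg _ _ _ _)
    have h8 : (1 / 4 : ℝ) ^ m * (1 / 64) ≤
        (1 / 4) ^ m * S.H m (g' - m) t (Yx a + t * Yy a) :=
      mul_le_mul_of_nonneg_left (by linarith) (by positivity)
    calc (1 / 4 : ℝ) ^ m / 64 = (1 / 4) ^ m * (1 / 64) := by ring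
      _ ≤ _ := h8.trans h6

end Sys
end Pool.Agent.VC
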