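import Pool.Agent.VC.Pos

set_option autoImplicit false

open MeasureTheory Set

namespace Pool.Agent.VC

/-- a high cell -/
def high (v L : ℕ → ℝ) (H : ℝ) (k s : ℕ) : Prop := ∃ x ∈ cell v L k s, H ≤ cnt v L k x

open Classical in
/-- the cells of generation `j` with a high ancestor (or high) -/
noncomputable def DD (v L : ℕ → ℝ) (H : ℝ) (j : ℕ) : Finset ℕ :=
  (Finset.range (2 ^ j)).filter (fun s => ∃ k ≤ j, high v L H k (s / 2 ^ (j - k)))

namespace StackS

/-- minimal high cells -/
def mh (v L : ℕ → ℝ) (H : ℝ) (k s : ℕ) : Prop :=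
  high v L H k s ∧ ∀ i < k, ¬ high v L H i (s / 2 ^ (k - i))

/-- the part of the counting function below a cell of generation `k` -/
noncomputable def hq (v L : ℕ → ℝ) (k n w : ℕ) (x : ℝ) : ℝ :=
  cnt (sh k v) (sh k L) n (x - pos v k w)

theorem hq_nonneg (v L : ℕ → ℝ) (k n w : ℕ) (x : ℝ) : 0 ≤ hq v L k n w x := cnt_nonneg _ _ _ _

theorem cnt_eq_hq (v L : ℕ → ℝ) (k n : ℕ) (x : ℝ) :
    cnt v L (k + n) x = ∑ w ∈ Finset.range (2 ^ k), hq v L k n w x := cnt_add v L k n x

theorem hq_eq_sum (v L : ℕ → ℝ) (k n w : ℕ) (x : ℝ) :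
    hq v L k n w x = ∑ i ∈ Finset.range (2 ^ n),
      (cell v L (k + n) (w * 2 ^ n + i)).indicator (fun _ => (1 : ℝ)) x := by
  unfold hq cnt
  refine Finset.sum_congr rfl fun i hi => ?_
  have h1 := pos_split v k n w i (Finset.mem_range.1 hi)
  unfold cell
  rw [h1]
  have h2 : sh k L n = L (k + n) := rfl
  rw [h2]
  simp only [Set.indicator_apply, Set.mem_Icc]
  have h3 : (pos (sh k v) n i ≤ x - pos v k w ∧ x - pos v k w ≤ pos (sh k v) n i + L (k + n)) ↔
      (pos v k w + pos (sh k v) n i ≤ x ∧ x ≤ pos v k w + pos (sh k v) n i + L (k + n)) := by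
    constructor
    · rintro ⟨h4, h5⟩
      exact ⟨by linarith, by linarith⟩
    · rintro ⟨h4, h5⟩
      exact ⟨by linarith, by linarith⟩
  simp only [h3]

/-- splitting a range by quotients -/
theorem sum_fib (k n w : ℕ) (hw : w < 2 ^ k) (f : ℕ → ℝ) :
    ∑ s ∈ (Finset.range (2 ^ (k + n))).filter (fun s => s / 2 ^ n = w), f s =
      ∑ i ∈ Finset.range (2 ^ n), f (w * 2 ^ n + i) := by
  symm
  have h0 : 0 < 2 ^ n := by positivity
  refine Finset.sum_bij (fun i _ => w * 2 ^ n + i) ?_ ?_ ?_ ?_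
  · intro i hi
    rw [Finset.mem_range] at hi
    rw [Finset.mem_filter, Finset.mem_range, pow_add]
    constructor
    · calc w * 2 ^ n + i < w * 2 ^ n + 2 ^ n := by omega
        _ = (w + 1) * 2 ^ n := by ring
        _ ≤ 2 ^ k * 2 ^ n := Nat.mul_le_mul_right _ hw
    · rw [mul_comm, Nat.mul_add_div h0, Nat.div_eq_of_lt hi, add_zero]
  · intro i _ i' _ h
    exact Nat.add_left_cancel h
  · intro s hs
    rw [Finset.mem_filter, Finset.mem_range] at hs
    refine ⟨s % 2 ^ n, Finset.mem_range.2 (Nat.mod_lt _ h0), ?_⟩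
    rw [← hs.2, mul_comm]
    exact Nat.div_add_mod s (2 ^ n)
  · intro i _
    rfl

theorem hq_eq_fib (v L : ℕ → ℝ) (k n w : ℕ) (hw : w < 2 ^ k) (x : ℝ) :
    hq v L k n w x = ∑ s ∈ (Finset.range (2 ^ (k + n))).filter (fun s => s / 2 ^ n = w),
      (cell v L (k + n) s).indicator (fun _ => (1 : ℝ)) x := by
  rw [hq_eq_sum, sum_fib k n w hw]

/-- the support of `hq` -/
theorem hq_supp (v L : ℕ → ℝ) (hv : ∀ i, 0 ≤ v i) (hL : ∀ i, L i = v (i + 1) + L (i + 1))
    (k n w : ℕ) (x : ℝ) (h : hq v L k n w x ≠ 0) : x ∈ cell v L k w := by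
  rw [hq_eq_sum] at h
  obtain ⟨i, hi, h1⟩ := Finset.exists_ne_zero_of_sum_ne_zero h
  have h2 : x ∈ cell v L (k + n) (w * 2 ^ n + i) := by
    by_contra h3
    exact h1 (Set.indicator_of_notMem h3 _)
  have h3 := cell_anc v L hv hL k n (w * 2 ^ n + i) h2
  have h0 : 0 < 2 ^ n := by positivity
  rwa [mul_comm, Nat.mul_add_div h0, Nat.div_eq_of_lt (Finset.mem_range.1 hi), add_zero] at h3

theorem int_cc (v L : ℕ → ℝ) (m : ℕ) : Integrable (fun x => cnt v L m x ^ 2) := by
  have h := cnt_mul_integrable v L v L m m 0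
  refine h.congr (Filter.Eventually.of_forall fun x => ?_)
  show cnt v L m x * cnt v L m (x + 0) = cnt v L m x ^ 2
  rw [add_zero, sq]

theorem int_hc (v L : ℕ → ℝ) (k n w m : ℕ) :
    Integrable (fun x => hq v L k n w x * cnt v L m x) := by
  have h := cnt_mul_integrable v L (sh k v) (sh k L) m n (- pos v k w)
  refine h.congr (Filter.Eventually.of_forall fun x => ?_)
  show cnt v L m x * cnt (sh k v) (sh k L) n (x + - pos v k w) = hq v L k n w x * cnt v L m x
  unfold hq
  rw [← sub_eq_add_neg, mul_comm]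

theorem int_hh (v L : ℕ → ℝ) (k n w w' : ℕ) :
    Integrable (fun x => hq v L k n w x * hq v L k n w' x) := by
  have h := (cnt_mul_integrable (sh k v) (sh k L) (sh k v) (sh k L) n n
    (pos v k w - pos v k w')).comp_sub_right (pos v k w)
  refine h.congr (Filter.Eventually.of_forall fun x => ?_)
  show cnt (sh k v) (sh k L) n (x - pos v k w) *
    cnt (sh k v) (sh k L) n (x - pos v k w + (pos v k w - pos v k w')) = _
  unfold hq
  congr 2
  ring

/-- the energy of one part -/
noncomputable def qq (v L : ℕ → ℝ) (k n : ℕ) : ℝ := ∫ x, cnt (sh k v) (sh k L) n x ^ 2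

theorem int_sq (v L : ℕ → ℝ) (k n w : ℕ) : ∫ x, hq v L k n w x ^ 2 = qq v L k n := by
  unfold qq hq
  exact integral_sub_right_eq_self (fun x => cnt (sh k v) (sh k L) n x ^ 2) (pos v k w)

theorem qq_nonneg (v L : ℕ → ℝ) (k n : ℕ) : 0 ≤ qq v L k n :=
  integral_nonneg fun _ => sq_nonneg _

theorem int_h2 (v L : ℕ → ℝ) (k n w : ℕ) : Integrable (fun x => hq v L k n w x ^ 2) := by
  refine (int_hh v L k n w w).congr (Filter.Eventually.of_forall fun x => ?_)
  show hq v L k n w x * hq v L k n w x = hq v L k n w x ^ 2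
  rw [sq]

/-- the energy of the parts is at most the energy -/
theorem qq_le (v L : ℕ → ℝ) (k n : ℕ) :
    2 ^ k * qq v L k n ≤ ∫ x, cnt v L (k + n) x ^ 2 := by
  have h1 : ∫ x, ∑ w ∈ Finset.range (2 ^ k), hq v L k n w x ^ 2 = 2 ^ k * qq v L k n := by
    rw [integral_finsetSum _ fun w _ => int_h2 v L k n w]
    simp only [int_sq]
    rw [Finset.sum_const, Finset.card_range, nsmul_eq_mul]
    push_cast
    ring
  rw [← h1]
  refine integral_mono (integrable_finsetSum _ fun w _ => int_h2 v L k n w) (int_cc v L _) ?_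
  intro x
  show ∑ w ∈ Finset.range (2 ^ k), hq v L k n w x ^ 2 ≤ cnt v L (k + n) x ^ 2
  rw [cnt_eq_hq, sq (∑ w ∈ Finset.range (2 ^ k), hq v L k n w x), Finset.sum_mul]
  refine Finset.sum_le_sum fun w hw => ?_
  rw [sq]
  refine mul_le_mul_of_nonneg_left ?_ (hq_nonneg v L k n w x)
  exact Finset.single_le_sum (f := fun w => hq v L k n w x)
    (fun w' _ => hq_nonneg v L k n w' x) hw

open Classical in
/-- the number of cells meeting a cell whose parent is not high -/
theorem near_le (v L : ℕ → ℝ) (hv : ∀ i, 0 ≤ v i) (hL : ∀ i, L i = v (i + 1) + L (i + 1))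
    (hLp : ∀ i, 0 < L i) (H : ℝ) (k w : ℕ) (hw : ¬ high v L H k (w / 2)) :
    (((Finset.range (2 ^ (k + 1))).filter fun w' =>
      (cell v L (k + 1) w' ∩ cell v L (k + 1) w).Nonempty).card : ℝ) ≤ 4 * H := by
  set a := pos v k (w / 2) with ha
  set T := ((Finset.range (2 ^ k)).filter fun i => pos v k i ≤ a ∧ a ≤ pos v k i + L k) ∪
    ((Finset.range (2 ^ k)).filter fun i => pos v k i ≤ a + L k ∧ a + L k ≤ pos v k i + L k) with hT
  have h1 : ∀ w' ∈ (Finset.range (2 ^ (k + 1))).filter fun w' =>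
      (cell v L (k + 1) w' ∩ cell v L (k + 1) w).Nonempty, w' / 2 ∈ T := by
    intro w' hw'
    rw [Finset.mem_filter, Finset.mem_range] at hw'
    obtain ⟨h2, x, hx1, hx2⟩ := hw'
    have h3 := cell_anc v L hv hL k 1 w' hx1
    have h4 := cell_anc v L hv hL k 1 w hx2
    rw [pow_one] at h3 h4
    unfold cell at h3 h4
    rw [Set.mem_Icc] at h3 h4
    have h5 : w' / 2 ∈ Finset.range (2 ^ k) := by
      rw [Finset.mem_range]
      rw [pow_succ] at h2
      omega
    rw [hT, Finset.mem_union, Finset.mem_filter, Finset.mem_filter]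
    rcases le_or_gt (pos v k (w' / 2)) a with h6 | h6
    · exact Or.inl ⟨h5, h6, by linarith⟩
    · exact Or.inr ⟨h5, by linarith, by linarith⟩
  have h2 : ((Finset.range (2 ^ (k + 1))).filter fun w' =>
      (cell v L (k + 1) w' ∩ cell v L (k + 1) w).Nonempty).card ≤ 2 * T.card := by
    refine Finset.card_le_mul_card_image_of_maps_to h1 2 fun b _ => ?_
    have h3 : ((Finset.range (2 ^ (k + 1))).filter fun w' =>
        (cell v L (k + 1) w' ∩ cell v L (k + 1) w).Nonempty).filter (fun x => x / 2 = b) ⊆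
        {2 * b, 2 * b + 1} := by
      intro x hx
      rw [Finset.mem_filter] at hx
      rw [Finset.mem_insert, Finset.mem_singleton]
      omega
    exact (Finset.card_le_card h3).trans (Finset.card_le_two)
  have h3 : (T.card : ℝ) ≤ cnt v L k a + cnt v L k (a + L k) := by
    rw [cnt_eq_card, cnt_eq_card, hT]
    exact_mod_cast Finset.card_union_le _ _
  have h4 : ∀ x ∈ cell v L k (w / 2), cnt v L k x < H := by
    intro x hx
    by_contra h5
    exact hw ⟨x, hx, not_lt.1 h5⟩
  have h5 := h4 a ⟨le_refl _, by linarith [hLp k]⟩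
  have h6 := h4 (a + L k) ⟨by linarith [hLp k], le_refl _⟩
  have h7 : (((Finset.range (2 ^ (k + 1))).filter fun w' =>
      (cell v L (k + 1) w' ∩ cell v L (k + 1) w).Nonempty).card : ℝ) ≤ 2 * (T.card : ℝ) := by
    exact_mod_cast h2
  linarith

/-- the interaction of one part with everything -/
theorem int_hc_le (v L : ℕ → ℝ) (hv : ∀ i, 0 ≤ v i) (hL : ∀ i, L i = v (i + 1) + L (i + 1))
    (hLp : ∀ i, 0 < L i) (H : ℝ) (k n w : ℕ) (hw : ¬ high v L H k (w / 2)) :
    2 ^ (k + 1) * ∫ x, hq v L (k + 1) n w x * cnt v L (k + 1 + n) x ≤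
      4 * H * ∫ x, cnt v L (k + 1 + n) x ^ 2 := by
  classical
  have h1 : ∫ x, hq v L (k + 1) n w x * cnt v L (k + 1 + n) x =
      ∑ w' ∈ Finset.range (2 ^ (k + 1)), ∫ x, hq v L (k + 1) n w x * hq v L (k + 1) n w' x := by
    rw [← integral_finsetSum _ fun w' _ => int_hh v L (k + 1) n w w']
    refine integral_congr_ae (Filter.Eventually.of_forall fun x => ?_)
    show hq v L (k + 1) n w x * cnt v L (k + 1 + n) x = _
    rw [cnt_eq_hq, Finset.mul_sum]
  have h2 : ∀ w' ∈ Finset.range (2 ^ (k + 1)),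
      ∫ x, hq v L (k + 1) n w x * hq v L (k + 1) n w' x ≤
        if (cell v L (k + 1) w' ∩ cell v L (k + 1) w).Nonempty then qq v L (k + 1) n else 0 := by
    intro w' _
    split_ifs with h
    · have h3 : ∫ x, hq v L (k + 1) n w x * hq v L (k + 1) n w' x ≤
          ∫ x, (1 / 2 * hq v L (k + 1) n w x ^ 2 + 1 / 2 * hq v L (k + 1) n w' x ^ 2) := by
        refine integral_mono (int_hh v L (k + 1) n w w')
          (((int_h2 v L (k + 1) n w).const_mul _).add ((int_h2 v L (k + 1) n w').const_mul _)) ?_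
        intro x
        show hq v L (k + 1) n w x * hq v L (k + 1) n w' x ≤ _
        nlinarith [sq_nonneg (hq v L (k + 1) n w x - hq v L (k + 1) n w' x)]
      rw [integral_add ((int_h2 v L (k + 1) n w).const_mul _)
        ((int_h2 v L (k + 1) n w').const_mul _), integral_const_mul, integral_const_mul,
        int_sq, int_sq] at h3
      linarith
    · refine le_of_eq ?_
      have h3 : ∀ x, hq v L (k + 1) n w x * hq v L (k + 1) n w' x = 0 := by
        intro x
        by_contra h4
        have h5 := hq_supp v L hv hL _ n w x (left_ne_zero_of_mul h4)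
        have h6 := hq_supp v L hv hL _ n w' x (right_ne_zero_of_mul h4)
        exact h ⟨x, h6, h5⟩
      simp only [h3, integral_zero]
  have h3 := Finset.sum_le_sum h2
  rw [← h1, ← Finset.sum_filter, Finset.sum_const, nsmul_eq_mul] at h3
  have h4 := near_le v L hv hL hLp H k w hw
  have h5 := qq_le v L (k + 1) n
  have h6 := qq_nonneg v L (k + 1) n
  have h7 : (0 : ℝ) ≤ 4 * H := le_trans (Nat.cast_nonneg _) h4
  calc 2 ^ (k + 1) * ∫ x, hq v L (k + 1) n w x * cnt v L (k + 1 + n) x
      ≤ 2 ^ (k + 1) * (4 * H * qq v L (k + 1) n) :=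
        mul_le_mul_of_nonneg_left (h3.trans (mul_le_mul_of_nonneg_right h4 h6)) (by positivity)
    _ = 4 * H * (2 ^ (k + 1) * qq v L (k + 1) n) := by ring
    _ ≤ _ := mul_le_mul_of_nonneg_left h5 h7

theorem not_high_zero (v L : ℕ → ℝ) (H : ℝ) (hH : 2 ≤ H) (s : ℕ) : ¬ high v L H 0 s := by
  rintro ⟨x, -, hx⟩
  rw [cnt_zero] at hx
  have h1 : (Icc 0 (L 0)).indicator (fun _ => (1 : ℝ)) x ≤ 1 :=
    Set.indicator_le_self' (fun _ _ => zero_le_one) x
  linarith

/-- the interaction for all generations -/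
theorem int_mh_le (v L : ℕ → ℝ) (hv : ∀ i, 0 ≤ v i) (hL : ∀ i, L i = v (i + 1) + L (i + 1))
    (hLp : ∀ i, 0 < L i) (H : ℝ) (hH : 2 ≤ H) (k j w : ℕ) (hk : k ≤ j) (hw : mh v L H k w) :
    ∫ x, hq v L k (j - k) w x * cnt v L j x ≤
      4 * H * (∫ x, cnt v L j x ^ 2) / 2 ^ j * 2 ^ (j - k) := by
  rcases Nat.eq_zero_or_pos k with h0 | h0
  · exact absurd (h0 ▸ hw.1) (not_high_zero v L H hH w)
  · obtain ⟨k', rfl⟩ : ∃ k', k = k' + 1 := ⟨k - 1, by omega⟩
    obtain ⟨n, rfl⟩ : ∃ n, j = k' + 1 + n := ⟨j - (k' + 1), by omega⟩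
    have h1 : ¬ high v L H k' (w / 2) := by
      have h2 := hw.2 k' (by omega)
      rwa [Nat.add_sub_cancel_left, pow_one] at h2
    have h2 := int_hc_le v L hv hL hLp H k' n w h1
    rw [Nat.add_sub_cancel_left]
    have h3 : (0 : ℝ) < 2 ^ (k' + 1) := by positivity
    have h4 : (0 : ℝ) < 2 ^ n := by positivity
    have h5 : 4 * H * (∫ x, cnt v L (k' + 1 + n) x ^ 2) / 2 ^ (k' + 1 + n) * 2 ^ n =
        4 * H * (∫ x, cnt v L (k' + 1 + n) x ^ 2) / 2 ^ (k' + 1) := by
      rw [pow_add]
      field_simp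
    rw [h5, le_div_iff₀ h3]
    linarith

theorem div_div_pow (s j k i : ℕ) (h1 : i ≤ k) (h2 : k ≤ j) :
    s / 2 ^ (j - k) / 2 ^ (k - i) = s / 2 ^ (j - i) := by
  rw [Nat.div_div_eq_div_mul, ← pow_add]
  congr 2
  omega

/-- every marked cell lies below a minimal high cell -/
theorem exists_mh (v L : ℕ → ℝ) (H : ℝ) (j s : ℕ) (hs : ∃ k ≤ j, high v L H k (s / 2 ^ (j - k))) :
    ∃ k ≤ j, mh v L H k (s / 2 ^ (j - k)) := by
  classical
  have h1 := Nat.find_spec hs
  refine ⟨Nat.find hs, h1.1, h1.2, fun i hi => ?_⟩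
  rw [div_div_pow s j _ i hi.le h1.1]
  intro h
  exact Nat.find_min hs hi ⟨hi.le.trans h1.1, h⟩

/-- minimal high cells above a given cell are unique -/
theorem mh_unique (v L : ℕ → ℝ) (H : ℝ) (j s k k' : ℕ) (hk : k ≤ j) (hk' : k' ≤ j)
    (h : mh v L H k (s / 2 ^ (j - k))) (h' : mh v L H k' (s / 2 ^ (j - k'))) : k = k' := by
  rcases lt_trichotomy k k' with h1 | h1 | h1
  · have h2 := h'.2 k h1
    rw [div_div_pow s j k' k h1.le hk'] at h2
    exact absurd h.1 h2
  · exact h1
  · have h2 := h.2 k' h1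
    rw [div_div_pow s j k k' h1.le hk] at h2
    exact absurd h'.1 h2

open Classical in
/-- the number of marked cells -/
theorem card_DD (v L : ℕ → ℝ) (H : ℝ) (j : ℕ) :
    ∑ k ∈ Finset.range (j + 1), ∑ w ∈ (Finset.range (2 ^ k)).filter (fun w => mh v L H k w),
      (2 : ℝ) ^ (j - k) ≤ (DD v L H j).card := by
  have h1 : ∀ k ∈ Finset.range (j + 1),
      ∑ w ∈ (Finset.range (2 ^ k)).filter (fun w => mh v L H k w), (2 : ℝ) ^ (j - k) =
      ∑ s ∈ Finset.range (2 ^ j), if mh v L H k (s / 2 ^ (j - k)) then (1 : ℝ) else 0 := by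
    intro k hk
    rw [Finset.mem_range] at hk
    obtain ⟨n, rfl⟩ : ∃ n, j = k + n := ⟨j - k, by omega⟩
    rw [Nat.add_sub_cancel_left]
    have h2 : ∀ s ∈ Finset.range (2 ^ (k + n)), s / 2 ^ n ∈ Finset.range (2 ^ k) := by
      intro s hs
      rw [Finset.mem_range] at hs ⊢
      rw [pow_add] at hs
      exact Nat.div_lt_of_lt_mul (by rwa [mul_comm])
    rw [← Finset.sum_fiberwise_of_maps_to h2, Finset.sum_filter]
    refine Finset.sum_congr rfl fun w hw => ?_
    rw [sum_fib k n w (Finset.mem_range.1 hw) fun s => if mh v L H k (s / 2 ^ n) then (1 : ℝ) else 0]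
    have h3 : ∀ i ∈ Finset.range (2 ^ n),
        (if mh v L H k ((w * 2 ^ n + i) / 2 ^ n) then (1 : ℝ) else 0) =
          if mh v L H k w then 1 else 0 := by
      intro i hi
      have h0 : 0 < 2 ^ n := by positivity
      rw [mul_comm, Nat.mul_add_div h0, Nat.div_eq_of_lt (Finset.mem_range.1 hi), add_zero]
    rw [Finset.sum_congr rfl h3, Finset.sum_const, Finset.card_range, nsmul_eq_mul]
    split_ifs
    · push_cast
      ring
    · ring
  rw [Finset.sum_congr rfl h1, Finset.sum_comm]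
  have h2 : ((DD v L H j).card : ℝ) = ∑ s ∈ Finset.range (2 ^ j),
      if ∃ k ≤ j, high v L H k (s / 2 ^ (j - k)) then (1 : ℝ) else 0 := by
    unfold DD
    rw [Finset.card_filter]
    push_cast
    rfl
  rw [h2]
  refine Finset.sum_le_sum fun s _ => ?_
  rw [← Finset.sum_filter, Finset.sum_const, nsmul_eq_mul, mul_one]
  split_ifs with h
  · have h3 : ((Finset.range (j + 1)).filter fun k => mh v L H k (s / 2 ^ (j - k))).card ≤ 1 := by
      rw [Finset.card_le_one]
      intro k hk k' hk'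
      rw [Finset.mem_filter, Finset.mem_range] at hk hk'
      exact mh_unique v L H j s k k' (by omega) (by omega) hk.2 hk'.2
    exact_mod_cast h3
  · have h3 : ((Finset.range (j + 1)).filter fun k => mh v L H k (s / 2 ^ (j - k))) = ∅ := by
      rw [Finset.filter_eq_empty_iff]
      intro k hk hc
      rw [Finset.mem_range] at hk
      exact h ⟨k, by omega, hc.1⟩
    rw [h3, Finset.card_empty, Nat.cast_zero]

open Classical in
/-- pointwise bound -/
theorem ptw (v L : ℕ → ℝ) (H : ℝ) (hH : 2 ≤ H) (j : ℕ) (x : ℝ) :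
    cnt v L j x ^ 2 ≤ H * cnt v L j x +
      ∑ k ∈ Finset.range (j + 1), ∑ w ∈ (Finset.range (2 ^ k)).filter (fun w => mh v L H k w),
        hq v L k (j - k) w x * cnt v L j x := by
  have hc := cnt_nonneg v L j x
  -- all marked cells are covered
  have h1 : ∑ s ∈ DD v L H j, (cell v L j s).indicator (fun _ => (1 : ℝ)) x ≤
      ∑ k ∈ Finset.range (j + 1), ∑ w ∈ (Finset.range (2 ^ k)).filter (fun w => mh v L H k w),
        hq v L k (j - k) w x := by
    have h2 : ∀ k ∈ Finset.range (j + 1),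
        ∑ w ∈ (Finset.range (2 ^ k)).filter (fun w => mh v L H k w), hq v L k (j - k) w x =
        ∑ s ∈ Finset.range (2 ^ j), if mh v L H k (s / 2 ^ (j - k))
          then (cell v L j s).indicator (fun _ => (1 : ℝ)) x else 0 := by
      intro k hk
      rw [Finset.mem_range] at hk
      obtain ⟨n, rfl⟩ : ∃ n, j = k + n := ⟨j - k, by omega⟩
      rw [Nat.add_sub_cancel_left]
      have h2 : ∀ s ∈ Finset.range (2 ^ (k + n)), s / 2 ^ n ∈ Finset.range (2 ^ k) := by
        intro s hs
        rw [Finset.mem_range] at hs ⊢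
        rw [pow_add] at hs
        exact Nat.div_lt_of_lt_mul (by rwa [mul_comm])
      rw [← Finset.sum_fiberwise_of_maps_to h2, Finset.sum_filter]
      refine Finset.sum_congr rfl fun w hw => ?_
      rw [hq_eq_fib v L k n w (Finset.mem_range.1 hw)]
      split_ifs with h
      · refine Finset.sum_congr rfl fun s hs => ?_
        rw [(Finset.mem_filter.1 hs).2, if_pos h]
      · refine (Finset.sum_eq_zero fun s hs => ?_).symm
        rw [(Finset.mem_filter.1 hs).2, if_neg h]
    rw [Finset.sum_congr rfl h2, Finset.sum_comm]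
    unfold DD
    rw [Finset.sum_filter]
    refine Finset.sum_le_sum fun s _ => ?_
    have h3 : ∀ k ∈ Finset.range (j + 1), (0 : ℝ) ≤ if mh v L H k (s / 2 ^ (j - k))
          then (cell v L j s).indicator (fun _ => (1 : ℝ)) x else 0 := by
      intro k _
      split_ifs
      · exact Set.indicator_nonneg (fun _ _ => zero_le_one) x
      · exact le_refl 0
    split_ifs with h
    · obtain ⟨k, hk, hm⟩ := exists_mh v L H j s h
      refine le_trans (le_of_eq ?_) (Finset.single_le_sum h3 (Finset.mem_range.2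
        (Nat.lt_succ_of_le hk)))
      rw [if_pos hm]
    · exact Finset.sum_nonneg h3
  -- the other cells
  have h2 : cnt v L j x ^ 2 ≤ H * cnt v L j x +
      (∑ s ∈ DD v L H j, (cell v L j s).indicator (fun _ => (1 : ℝ)) x) * cnt v L j x := by
    have h3 : (∑ s ∈ Finset.range (2 ^ j), (cell v L j s).indicator (fun _ => (1 : ℝ)) x) *
        cnt v L j x = cnt v L j x ^ 2 := by
      rw [sq]
      rfl
    have h4 : H * cnt v L j x =
        ∑ s ∈ Finset.range (2 ^ j), H * (cell v L j s).indicator (fun _ => (1 : ℝ)) x := by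
      rw [← Finset.mul_sum]
      rfl
    rw [← h3, h4]
    unfold DD
    rw [Finset.sum_mul, Finset.sum_filter, Finset.sum_mul, ← Finset.sum_add_distrib]
    refine Finset.sum_le_sum fun s _ => ?_
    have h5 : (0 : ℝ) ≤ (cell v L j s).indicator (fun _ => (1 : ℝ)) x :=
      Set.indicator_nonneg (fun _ _ => zero_le_one) x
    split_ifs with h
    · have h6 : 0 ≤ H * (cell v L j s).indicator (fun _ => (1 : ℝ)) x :=
        mul_nonneg (by linarith) h5
      linarith
    · rw [zero_mul, add_zero]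
      by_cases h6 : x ∈ cell v L j s
      · have h7 : cnt v L j x < H := by
          by_contra h8
          refine h ⟨j, le_refl j, x, ?_, not_lt.1 h8⟩
          rwa [Nat.sub_self, pow_zero, Nat.div_one]
        rw [mul_comm]
        exact mul_le_mul_of_nonneg_right h7.le h5
      · rw [Set.indicator_of_notMem h6, zero_mul, mul_zero]
  refine h2.trans ?_
  have h3 : ∑ k ∈ Finset.range (j + 1), ∑ w ∈ (Finset.range (2 ^ k)).filter (fun w => mh v L H k w),
        hq v L k (j - k) w x * cnt v L j x =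
      (∑ k ∈ Finset.range (j + 1), ∑ w ∈ (Finset.range (2 ^ k)).filter (fun w => mh v L H k w),
        hq v L k (j - k) w x) * cnt v L j x := by
    rw [Finset.sum_mul]
    exact Finset.sum_congr rfl fun k _ => (Finset.sum_mul _ _ _).symm
  rw [h3]
  have h4 := mul_le_mul_of_nonneg_right h1 hc
  linarith

end StackS

open StackS in
theorem stackS (v L : ℕ → ℝ) (hv : ∀ i, 0 ≤ v i) (hL : ∀ i, L i = v (i + 1) + L (i + 1))
    (hLp : ∀ i, 0 < L i) (j : ℕ) (H : ℝ) (hH : 2 ≤ H)
    (hX : 2 * H * (2 ^ j * L j) < ∫ x, cnt v L j x ^ 2) :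
    (2 : ℝ) ^ j ≤ 8 * H * (DD v L H j).card := by
  classical
  by_contra hcon
  rw [not_le] at hcon
  set X := ∫ x, cnt v L j x ^ 2 with hXd
  have hX0 : 0 ≤ X := integral_nonneg fun _ => sq_nonneg _
  have h2j : (0 : ℝ) < 2 ^ j := by positivity
  have h1 : X ≤ H * (2 ^ j * L j) +
      ∑ k ∈ Finset.range (j + 1), ∑ w ∈ (Finset.range (2 ^ k)).filter (fun w => mh v L H k w),
        ∫ x, hq v L k (j - k) w x * cnt v L j x := by
    have h2 : ∫ x, cnt v L j x ^ 2 ≤ ∫ x, (H * cnt v L j x +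
        ∑ k ∈ Finset.range (j + 1), ∑ w ∈ (Finset.range (2 ^ k)).filter (fun w => mh v L H k w),
          hq v L k (j - k) w x * cnt v L j x) := integral_mono (int_cc v L j)
      (((cnt_integrable v L j).const_mul H).add (integrable_finsetSum _ fun k _ =>
        integrable_finsetSum _ fun w _ => int_hc v L k (j - k) w j))
      (ptw v L H hH j)
    rw [integral_add ((cnt_integrable v L j).const_mul H) (integrable_finsetSum _ fun k _ =>
        integrable_finsetSum _ fun w _ => int_hc v L k (j - k) w j), integral_const_mul,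
      cnt_integral v L j (hLp j).le, integral_finsetSum _ fun k _ =>
        integrable_finsetSum _ fun w _ => int_hc v L k (j - k) w j] at h2
    refine h2.trans (le_of_eq ?_)
    congr 1
    refine Finset.sum_congr rfl fun k _ => ?_
    rw [integral_finsetSum _ fun w _ => int_hc v L k (j - k) w j]
  have h2 : ∑ k ∈ Finset.range (j + 1), ∑ w ∈ (Finset.range (2 ^ k)).filter (fun w => mh v L H k w),
        ∫ x, hq v L k (j - k) w x * cnt v L j x ≤
      4 * H * X / 2 ^ j * (DD v L H j).card := by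
    calc _ ≤ ∑ k ∈ Finset.range (j + 1),
          ∑ w ∈ (Finset.range (2 ^ k)).filter (fun w => mh v L H k w),
            4 * H * X / 2 ^ j * 2 ^ (j - k) := by
          refine Finset.sum_le_sum fun k hk => Finset.sum_le_sum fun w hw => ?_
          rw [Finset.mem_range] at hk
          exact int_mh_le v L hv hL hLp H hH k j w (by omega) (Finset.mem_filter.1 hw).2
      _ = 4 * H * X / 2 ^ j * ∑ k ∈ Finset.range (j + 1),
          ∑ w ∈ (Finset.range (2 ^ k)).filter (fun w => mh v L H k w), (2 : ℝ) ^ (j - k) := by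
          rw [Finset.mul_sum]
          exact Finset.sum_congr rfl fun k _ => (Finset.mul_sum _ _ _).symm
      _ ≤ _ := mul_le_mul_of_nonneg_left (card_DD v L H j) (by positivity)
  have h3 : 4 * H * X / 2 ^ j * (DD v L H j).card ≤ X / 2 := by
    have h4 : 4 * H * X / 2 ^ j * (DD v L H j).card =
        X / 2 * (8 * H * (DD v L H j).card / 2 ^ j) := by ring
    rw [h4]
    have h5 : 8 * H * (DD v L H j).card / 2 ^ j ≤ 1 := by
      rw [div_le_one h2j]
      exact hcon.le
    calc X / 2 * (8 * H * (DD v L H j).card / 2 ^ j) ≤ X / 2 * 1 :=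
          mul_le_mul_of_nonneg_left h5 (by linarith)
      _ = X / 2 := mul_one _
  linarith

end Pool.Agent.VC
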