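import Pool.Agent.VC.Defs

set_option autoImplicit false

open MeasureTheory Set

namespace Pool.Agent.VC

variable {X : Type} [Fintype X]

/-- conditional expectation on generation `k` -/
noncomputable def ce (lab : ℕ → X → ℕ) (k : ℕ) (f : X → ℝ) (x : X) : ℝ :=
  (∑ y ∈ Finset.univ.filter (fun y => lab k y = lab k x), f y) /
    (Finset.univ.filter (fun y => lab k y = lab k x)).card

/-- martingale difference -/
noncomputable def md (lab : ℕ → X → ℕ) (k : ℕ) (f : X → ℝ) (x : X) : ℝ :=
  ce lab (k + 1) f x - ce lab k f x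

theorem IsTree.mono {n : ℕ} {lab : ℕ → X → ℕ} (T : IsTree n lab) {j k : ℕ} (h : j ≤ k) (x y : X)
    (hxy : lab k x = lab k y) : lab j x = lab j y := by
  induction k, h using Nat.le_induction with
  | base => exact hxy
  | succ m _ ih => exact ih (T.nest m x y hxy)

theorem IsTree.card_univ {n : ℕ} {lab : ℕ → X → ℕ} (T : IsTree n lab) (x0 : X) :
    Fintype.card X = 4 ^ n := by
  have h := T.card 0 (Nat.zero_le n) x0
  rw [Nat.sub_zero, Finset.filter_true_of_mem fun y _ => T.zero y x0, Finset.card_univ] at h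
  exact h

theorem IsTree.ce_top {n : ℕ} {lab : ℕ → X → ℕ} (T : IsTree n lab) (f : X → ℝ) (x : X) :
    ce lab n f x = f x := by
  have h : Finset.univ.filter (fun y => lab n y = lab n x) = {x} := by
    ext y
    rw [Finset.mem_filter, Finset.mem_singleton]
    exact ⟨fun h => T.top y x h.2, fun h => ⟨Finset.mem_univ _, by rw [h]⟩⟩
  unfold ce
  rw [h, Finset.sum_singleton, Finset.card_singleton, Nat.cast_one, div_one]

theorem IsTree.ce_zero {n : ℕ} {lab : ℕ → X → ℕ} (T : IsTree n lab) (f : X → ℝ) (x : X) :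
    ce lab 0 f x = av f := by
  unfold ce av
  rw [Finset.filter_true_of_mem fun y _ => T.zero y x, Finset.card_univ]

/-- constant on the classes -/
theorem ce_congr (lab : ℕ → X → ℕ) (k : ℕ) (f : X → ℝ) (x y : X) (h : lab k x = lab k y) :
    ce lab k f x = ce lab k f y := by
  unfold ce
  rw [h]

theorem ce_add (lab : ℕ → X → ℕ) (k : ℕ) (f g : X → ℝ) :
    ce lab k (fun x => f x + g x) = fun x => ce lab k f x + ce lab k g x := by
  funext x
  unfold ce
  rw [Finset.sum_add_distrib, add_div]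

theorem ce_mul (lab : ℕ → X → ℕ) (k : ℕ) (c : ℝ) (f : X → ℝ) :
    ce lab k (fun x => c * f x) = fun x => c * ce lab k f x := by
  funext x
  unfold ce
  rw [← Finset.mul_sum, mul_div_assoc]

/-- the average with the size of the class -/
theorem IsTree.ce_eq {n : ℕ} {lab : ℕ → X → ℕ} (T : IsTree n lab) {k : ℕ} (hk : k ≤ n)
    (f : X → ℝ) (x : X) :
    ce lab k f x = (∑ y, if lab k y = lab k x then f y else 0) / 4 ^ (n - k) := by
  unfold ce
  rw [T.card k hk x, Finset.sum_filter]
  push_cast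
  rfl

/-- the average of a function that is constant on the classes -/
theorem IsTree.ce_const {n : ℕ} {lab : ℕ → X → ℕ} (T : IsTree n lab) {k : ℕ} (hk : k ≤ n)
    (f : X → ℝ) (x : X) (h : ∀ y, lab k y = lab k x → f y = f x) : ce lab k f x = f x := by
  unfold ce
  rw [Finset.sum_congr rfl fun y hy => h y (Finset.mem_filter.1 hy).2, Finset.sum_const,
    nsmul_eq_mul, T.card k hk x]
  have : ((4 ^ (n - k) : ℕ) : ℝ) ≠ 0 := by positivity
  field_simp

theorem IsTree.ce_ce {n : ℕ} {lab : ℕ → X → ℕ} (T : IsTree n lab) {j k : ℕ} (h : j ≤ k)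
    (hk : k ≤ n) (f : X → ℝ) (x : X) : ce lab j (ce lab k f) x = ce lab j f x := by
  rw [T.ce_eq (h.trans hk), T.ce_eq (h.trans hk)]
  congr 1
  have h1 : ∀ y, (if lab j y = lab j x then ce lab k f y else 0) =
      ∑ z, if lab k z = lab k y then (if lab j z = lab j x then f z / 4 ^ (n - k) else 0)
        else 0 := by
    intro y
    by_cases hy : lab j y = lab j x
    · rw [if_pos hy, T.ce_eq hk, Finset.sum_div]
      refine Finset.sum_congr rfl fun z _ => ?_
      by_cases hz : lab k z = lab k y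
      · rw [if_pos hz, if_pos hz, if_pos ((T.mono h z y hz).trans hy)]
      · rw [if_neg hz, if_neg hz, zero_div]
    · rw [if_neg hy]
      symm
      refine Finset.sum_eq_zero fun z _ => ?_
      by_cases hz : lab k z = lab k y
      · rw [if_pos hz, if_neg fun h2 => hy ((T.mono h z y hz).symm.trans h2)]
      · rw [if_neg hz]
  rw [Finset.sum_congr rfl fun y _ => h1 y, Finset.sum_comm]
  refine Finset.sum_congr rfl fun z _ => ?_
  rw [← Finset.sum_filter, Finset.sum_const, nsmul_eq_mul]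
  have h2 : (Finset.univ.filter fun y => lab k z = lab k y).card = 4 ^ (n - k) := by
    rw [← T.card k hk z]
    congr 1
    ext y
    rw [Finset.mem_filter, Finset.mem_filter, eq_comm]
  rw [h2]
  push_cast
  split_ifs
  · have : (4 : ℝ) ^ (n - k) ≠ 0 := by positivity
    field_simp
  · rw [mul_zero]

theorem IsTree.ce_ce' {n : ℕ} {lab : ℕ → X → ℕ} (T : IsTree n lab) {j k : ℕ} (h : j ≤ k)
    (hk : k ≤ n) (f : X → ℝ) (x : X) : ce lab k (ce lab j f) x = ce lab j f x :=
  T.ce_const hk _ x fun y hy => ce_congr lab j f y x (T.mono h y x hy)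

/-- self-adjointness -/
theorem IsTree.sum_ce {n : ℕ} {lab : ℕ → X → ℕ} (T : IsTree n lab) {k : ℕ} (hk : k ≤ n)
    (f g : X → ℝ) : ∑ x, ce lab k f x * g x = ∑ x, f x * ce lab k g x := by
  have h1 : ∀ x, ce lab k f x * g x =
      ∑ y, (if lab k y = lab k x then f y * g x / 4 ^ (n - k) else 0) := by
    intro x
    rw [T.ce_eq hk, Finset.sum_div, Finset.sum_mul]
    refine Finset.sum_congr rfl fun y _ => ?_
    split_ifs
    · ring
    · ring
  have h2 : ∀ x, f x * ce lab k g x =
      ∑ y, (if lab k x = lab k y then f x * g y / 4 ^ (n - k) else 0) := by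
    intro x
    rw [T.ce_eq hk, Finset.sum_div, Finset.mul_sum]
    refine Finset.sum_congr rfl fun y _ => ?_
    by_cases h : lab k y = lab k x
    · rw [if_pos h, if_pos h.symm]
      ring
    · rw [if_neg h, if_neg fun h' => h h'.symm]
      ring
  rw [Finset.sum_congr rfl fun x _ => h1 x, Finset.sum_congr rfl fun x _ => h2 x,
    Finset.sum_comm]

theorem IsTree.sum_ce_mul_ce {n : ℕ} {lab : ℕ → X → ℕ} (T : IsTree n lab) {j k : ℕ} (h : j ≤ k)
    (hk : k ≤ n) (f : X → ℝ) :
    ∑ x, ce lab j f x * ce lab k f x = ∑ x, ce lab j f x ^ 2 := by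
  have h1 : ∀ x, ce lab j f x ^ 2 = ce lab j f x * ce lab j f x := fun x => sq _
  rw [Finset.sum_congr rfl fun x _ => h1 x, T.sum_ce (h.trans hk), T.sum_ce (h.trans hk)]
  refine Finset.sum_congr rfl fun x _ => ?_
  rw [T.ce_ce h hk, T.ce_ce le_rfl (h.trans hk)]

theorem IsTree.sum_ce_sq {n : ℕ} {lab : ℕ → X → ℕ} (T : IsTree n lab) {k : ℕ} (hk : k ≤ n)
    (f : X → ℝ) : ∑ x, ce lab k f x ^ 2 ≤ ∑ x, f x ^ 2 := by
  have h1 := T.sum_ce_mul_ce hk le_rfl f
  rw [Finset.sum_congr rfl fun x _ => by rw [T.ce_top f x]] at h1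
  have h2 : 0 ≤ ∑ x, (f x - ce lab k f x) ^ 2 := Finset.sum_nonneg fun x _ => sq_nonneg _
  have h3 : ∑ x, (f x - ce lab k f x) ^ 2 =
      ∑ x, f x ^ 2 - 2 * ∑ x, ce lab k f x * f x + ∑ x, ce lab k f x ^ 2 := by
    rw [Finset.mul_sum, ← Finset.sum_sub_distrib, ← Finset.sum_add_distrib]
    refine Finset.sum_congr rfl fun x _ => ?_
    ring
  rw [h1] at h3
  linarith

theorem sum_Ico_md (lab : ℕ → X → ℕ) (f : X → ℝ) (k m : ℕ) (h : k ≤ m) (x : X) :
    ∑ i ∈ Finset.Ico k m, md lab i f x = ce lab m f x - ce lab k f x := by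
  induction m, h using Nat.le_induction with
  | base => rw [Finset.Ico_self, Finset.sum_empty, sub_self]
  | succ m hm ih =>
    rw [Finset.sum_Ico_succ_top hm, ih]
    unfold md
    ring

/-- decomposition -/
theorem IsTree.sum_md {n : ℕ} {lab : ℕ → X → ℕ} (T : IsTree n lab) (f : X → ℝ) {k : ℕ}
    (hk : k ≤ n) (x : X) : f x = ce lab k f x + ∑ i ∈ Finset.Ico k n, md lab i f x := by
  rw [sum_Ico_md lab f k n hk x, T.ce_top]
  ring

/-- orthogonality -/
theorem IsTree.sum_md_sq {n : ℕ} {lab : ℕ → X → ℕ} (T : IsTree n lab) (f : X → ℝ) :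
    ∑ x, f x ^ 2 = ∑ x, ce lab 0 f x ^ 2 + ∑ i ∈ Finset.range n, ∑ x, md lab i f x ^ 2 := by
  have h1 : ∀ m ≤ n, ∑ x, ce lab m f x ^ 2 =
      ∑ x, ce lab 0 f x ^ 2 + ∑ i ∈ Finset.range m, ∑ x, md lab i f x ^ 2 := by
    intro m
    induction m with
    | zero =>
      intro _
      rw [Finset.range_zero, Finset.sum_empty, add_zero]
    | succ m ih =>
      intro hm
      rw [Finset.sum_range_succ, ← add_assoc, ← ih (by omega)]
      have h2 := T.sum_ce_mul_ce (Nat.le_succ m) hm f
      have h3 : ∑ x, md lab m f x ^ 2 = ∑ x, ce lab (m + 1) f x ^ 2 -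
          2 * ∑ x, ce lab m f x * ce lab (m + 1) f x + ∑ x, ce lab m f x ^ 2 := by
        rw [Finset.mul_sum, ← Finset.sum_sub_distrib, ← Finset.sum_add_distrib]
        refine Finset.sum_congr rfl fun x _ => ?_
        unfold md
        ring
      have h4 : ∑ x, ce lab m f x * ce lab (m + 1) f x = ∑ x, ce lab m f x ^ 2 := h2
      rw [h3, h4]
      ring
  rw [← h1 n le_rfl]
  exact Finset.sum_congr rfl fun x _ => by rw [T.ce_top f x]

/-- mean zero of the differences on the classes of generation `i` -/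
theorem IsTree.sum_class_md {n : ℕ} {lab : ℕ → X → ℕ} (T : IsTree n lab) {i : ℕ} (hi : i < n)
    (f : X → ℝ) (x : X) :
    ∑ y ∈ Finset.univ.filter (fun y => lab i y = lab i x), md lab i f y = 0 := by
  have hc : ((Finset.univ.filter (fun y => lab i y = lab i x)).card : ℝ) ≠ 0 := by
    rw [T.card i hi.le x]
    positivity
  have h1 : ce lab i (md lab i f) x = 0 := by
    have h2 : md lab i f = fun y => ce lab (i + 1) f y + (-1) * ce lab i f y := by
      funext y
      unfold md
      ring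
    rw [h2, ce_add, ce_mul]
    simp only
    rw [T.ce_ce (Nat.le_succ i) hi, T.ce_ce le_rfl hi.le]
    ring
  unfold ce at h1
  rcases div_eq_zero_iff.1 h1 with h | h
  · exact h
  · exact absurd h hc

end Pool.Agent.VC
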