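import Pool.Agent.VC.KerNB
import Pool.Agent.VC.TreeWeak
import Pool.Agent.VC.TreeDual

set_option autoImplicit false

open MeasureTheory Set

namespace Pool.Agent.VC

open Classical in
/-- the kernel restricted to a set of words -/
private noncomputable def th2K {N : ℕ} (XS : Set (Fin N)) (K : Fin N → Fin N → ℝ)
    (x y : Fin N) : ℝ := if x ∈ XS ∧ y ∈ XS then K x y else 0

open Classical in
private noncomputable def th2w {N : ℕ} (XS : Set (Fin N)) (x : Fin N) : ℝ :=
  if x ∈ XS then 1 else 0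

private theorem th2w_nonneg {N : ℕ} (XS : Set (Fin N)) (x : Fin N) : 0 ≤ th2w XS x := by
  unfold th2w
  split_ifs <;> norm_num

private theorem th2w_le {N : ℕ} (XS : Set (Fin N)) (x : Fin N) : th2w XS x ≤ 1 := by
  unfold th2w
  split_ifs <;> norm_num

private theorem th2_split (lam : ℕ → ℝ) (n : ℕ) (K : Fin (4 ^ n) → Fin (4 ^ n) → ℝ)
    (f : Fin (4 ^ n) → ℝ) (x : Fin (4 ^ n)) :
    op (th2K (XX lam n) K) f x =
      th2w (XX lam n) x * op (Knb lam n K) (fun y => th2w (XX lam n) y * f y) x +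
        op (Kbd lam n K) f x := by
  unfold op
  rw [← mul_div_assoc, ← add_div, Finset.mul_sum, ← Finset.sum_add_distrib]
  congr 1
  refine Finset.sum_congr rfl fun y _ => ?_
  unfold th2K th2w Knb Kbd
  by_cases h1 : x ∈ XX lam n
  · by_cases h2 : y ∈ XX lam n
    · by_cases h3 : nbp lam n x y
      · simp [h1, h2, h3]
      · simp [h1, h2, h3]
    · simp [h1, h2]
  · simp [h1]

private theorem th2_cheb {X : Type} [Fintype X] [Nonempty X] (g : X → ℝ) (l : ℝ) :
    l * ((Finset.univ.filter (fun x => l < |g x|)).card / Fintype.card X) ≤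
      av (fun x => |g x|) := by
  classical
  have hN : (0 : ℝ) < Fintype.card X := by exact_mod_cast Fintype.card_pos
  unfold av
  rw [← mul_div_assoc]
  refine div_le_div_of_nonneg_right ?_ hN.le
  calc l * ((Finset.univ.filter (fun x => l < |g x|)).card : ℝ)
      = ∑ x ∈ Finset.univ.filter (fun x => l < |g x|), l := by
        rw [Finset.sum_const, nsmul_eq_mul, mul_comm]
    _ ≤ ∑ x ∈ Finset.univ.filter (fun x => l < |g x|), |g x| :=
        Finset.sum_le_sum fun x hx => (Finset.mem_filter.1 hx).2.le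
    _ ≤ ∑ x, |g x| := Finset.sum_le_sum_of_subset_of_nonneg (Finset.filter_subset _ _)
        fun x _ _ => abs_nonneg _

/-- the weak type bound for the restricted kernel -/
private theorem th2_weak (lam : ℕ → ℝ) (n : ℕ) (K : Fin (4 ^ n) → Fin (4 ^ n) → ℝ)
    (A B : ℝ) (hA : 0 ≤ A)
    (hw : ∀ (f : Fin (4 ^ n) → ℝ) (l : ℝ), 0 < l →
      l * ((Finset.univ.filter (fun x => l < |op (Knb lam n K) f x|)).card /
        Fintype.card (Fin (4 ^ n))) ≤ A * av (fun x => |f x|))
    (hb : ∀ f : Fin (4 ^ n) → ℝ, av (fun x => |op (Kbd lam n K) f x|) ≤ B * av (fun x => |f x|))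
    (f : Fin (4 ^ n) → ℝ) (l : ℝ) (hl : 0 < l) :
    l * ((Finset.univ.filter (fun x => l < |op (th2K (XX lam n) K) f x|)).card /
        Fintype.card (Fin (4 ^ n))) ≤ (2 * A + 2 * B) * av (fun x => |f x|) := by
  classical
  have hne : Nonempty (Fin (4 ^ n)) := ⟨⟨0, by positivity⟩⟩
  have hN : (0 : ℝ) < Fintype.card (Fin (4 ^ n)) := by exact_mod_cast Fintype.card_pos
  set g : Fin (4 ^ n) → ℝ := fun y => th2w (XX lam n) y * f y with hg
  have h1 := hw g (l / 2) (by linarith)
  have h2 := th2_cheb (op (Kbd lam n K) f) (l / 2)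
  have h3 := hb f
  have h4 : av (fun x => |g x|) ≤ av (fun x => |f x|) := by
    unfold av
    refine div_le_div_of_nonneg_right (Finset.sum_le_sum fun x _ => ?_) hN.le
    rw [hg]
    show |th2w (XX lam n) x * f x| ≤ |f x|
    rw [abs_mul, abs_of_nonneg (th2w_nonneg _ x)]
    exact mul_le_of_le_one_left (abs_nonneg _) (th2w_le _ x)
  have hsub : Finset.univ.filter (fun x => l < |op (th2K (XX lam n) K) f x|) ⊆
      Finset.univ.filter (fun x => l / 2 < |op (Knb lam n K) g x|) ∪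
        Finset.univ.filter (fun x => l / 2 < |op (Kbd lam n K) f x|) := by
    intro x hx
    have h5 := (Finset.mem_filter.1 hx).2
    rw [th2_split] at h5
    rw [Finset.mem_union, Finset.mem_filter, Finset.mem_filter]
    by_contra hc
    push Not at hc
    have h6 := hc.1 (Finset.mem_univ _)
    have h7 := hc.2 (Finset.mem_univ _)
    have h8 := abs_add_le (th2w (XX lam n) x * op (Knb lam n K) g x) (op (Kbd lam n K) f x)
    have h9 : |th2w (XX lam n) x * op (Knb lam n K) g x| ≤ |op (Knb lam n K) g x| := by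
      rw [abs_mul, abs_of_nonneg (th2w_nonneg _ x)]
      exact mul_le_of_le_one_left (abs_nonneg _) (th2w_le _ x)
    linarith
  have hcard : ((Finset.univ.filter (fun x => l < |op (th2K (XX lam n) K) f x|)).card : ℝ) ≤
      (Finset.univ.filter (fun x => l / 2 < |op (Knb lam n K) g x|)).card +
        (Finset.univ.filter (fun x => l / 2 < |op (Kbd lam n K) f x|)).card := by
    exact_mod_cast (Finset.card_le_card hsub).trans (Finset.card_union_le _ _)
  have h5 : l * (((Finset.univ.filter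
      (fun x => l < |op (th2K (XX lam n) K) f x|)).card : ℝ) / Fintype.card (Fin (4 ^ n))) ≤
      2 * (l / 2 * (((Finset.univ.filter (fun x => l / 2 < |op (Knb lam n K) g x|)).card : ℝ) /
        Fintype.card (Fin (4 ^ n)))) +
      2 * (l / 2 * (((Finset.univ.filter (fun x => l / 2 < |op (Kbd lam n K) f x|)).card : ℝ) /
        Fintype.card (Fin (4 ^ n)))) := by
    have e : 2 * (l / 2 * (((Finset.univ.filter
        (fun x => l / 2 < |op (Knb lam n K) g x|)).card : ℝ) / Fintype.card (Fin (4 ^ n)))) +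
      2 * (l / 2 * (((Finset.univ.filter (fun x => l / 2 < |op (Kbd lam n K) f x|)).card : ℝ) /
        Fintype.card (Fin (4 ^ n)))) =
        l * ((((Finset.univ.filter (fun x => l / 2 < |op (Knb lam n K) g x|)).card : ℝ) +
          ((Finset.univ.filter (fun x => l / 2 < |op (Kbd lam n K) f x|)).card : ℝ)) /
          Fintype.card (Fin (4 ^ n))) := by ring
    rw [e]
    exact mul_le_mul_of_nonneg_left (div_le_div_of_nonneg_right hcard hN.le) hl.le
  have h6 : A * av (fun x => |g x|) ≤ A * av (fun x => |f x|) :=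
    mul_le_mul_of_nonneg_left h4 hA
  calc _ ≤ _ := h5
    _ ≤ 2 * (A * av (fun x => |f x|)) + 2 * (B * av (fun x => |f x|)) := by linarith
    _ = _ := by ring

private theorem th2_anti {N : ℕ} (XS : Set (Fin N)) (K : Fin N → Fin N → ℝ)
    (h : ∀ x y, K y x = - K x y) (x y : Fin N) : th2K XS K y x = - th2K XS K x y := by
  unfold th2K
  by_cases h1 : x ∈ XS ∧ y ∈ XS
  · rw [if_pos h1, if_pos h1.symm, h]
  · rw [if_neg h1, if_neg (fun h2 => h1 h2.symm), neg_zero]

private theorem th2_inv (a b : ℂ) : 1 / (b - a) = -(1 / (a - b)) := by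
  rw [← neg_sub a b, div_neg]

private theorem th2_res {N : ℕ} (XS : Set (Fin N)) (K : Fin N → Fin N → ℝ) (h0 : Fin N → ℝ)
    (x : Fin N) (hx : x ∈ XS) :
    op K (fun y => th2w XS y * h0 y) x = op (th2K XS K) h0 x := by
  unfold op
  congr 1
  refine Finset.sum_congr rfl fun y _ => ?_
  unfold th2K th2w
  by_cases h2 : y ∈ XS
  · simp [hx, h2]
  · simp [h2]

theorem exists_h2 : ∃ C : ℝ, 0 < C ∧ ∀ lam : ℕ → ℝ,
    (∀ k, 1 / 4 ≤ lam k ∧ lam k ≤ 1 / 2) → ∀ n : ℕ,
    ∃ h : Fin (4 ^ n) → ℝ, (∀ x, 0 ≤ h x ∧ h x ≤ 1) ∧ (∀ x, x ∉ XX lam n → h x = 0) ∧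
      1 / 4 ≤ av h ∧
      (∀ x ∈ XX lam n, |op (KR lam n) h x| ≤ C * (1 + Real.sqrt (SS lam n))) ∧
      ∀ x ∈ XX lam n, |op (KI lam n) h x| ≤ C * (1 + Real.sqrt (SS lam n)) := by
  classical
  obtain ⟨C, hC, hCZ⟩ := isCZ_Knb
  obtain ⟨B, hB, hBd⟩ := l1_bad
  obtain ⟨C1, hC1, hL2⟩ := treeL2 (1 / 2) C (by norm_num) (by norm_num) hC.le
  obtain ⟨C2, hC2, hW⟩ := treeWeak (1 / 2) C (by norm_num) (by norm_num) hC.le
  refine ⟨16 * ((2 * C2 + 2 * B) * (C1 + 1)), by positivity, fun lam hlam n => ?_⟩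
  obtain ⟨hR, hI⟩ := hCZ lam hlam n
  have hT := isTree_lb n
  have hS := sides_side lam hlam n
  have hsq : 0 ≤ Real.sqrt (SS lam n) := Real.sqrt_nonneg _
  have hne : Nonempty (Fin (4 ^ n)) := ⟨⟨0, by positivity⟩⟩
  have hN : (0 : ℝ) < Fintype.card (Fin (4 ^ n)) := by exact_mod_cast Fintype.card_pos
  set M : ℝ := (C1 + 1) * (1 + Real.sqrt (SS lam n)) with hM
  have hM1 : 1 ≤ M := by
    rw [hM]
    nlinarith
  have hL : ∀ K : Fin (4 ^ n) → Fin (4 ^ n) → ℝ, IsCZ n (lb n) (side lam) C K →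
      ∀ f g : Fin (4 ^ n) → ℝ, |av (fun x => g x * op K f x)| ≤
        M * (Real.sqrt (av (fun x => g x ^ 2)) * Real.sqrt (av (fun x => f x ^ 2))) := by
    intro K hK f g
    refine (hL2 n (lb n) hT (side lam) hS K hK f g).trans ?_
    refine mul_le_mul_of_nonneg_right ?_ (mul_nonneg (Real.sqrt_nonneg _) (Real.sqrt_nonneg _))
    have h1 : ∑ k ∈ Finset.range n, (1 / (4 ^ k * side lam k)) ^ 2 = SS lam n := rfl
    rw [h1, hM]
    nlinarith
  have hM0 : 0 ≤ C2 * M := by positivity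
  have hwR := th2_weak lam n (KR lam n) (C2 * M) B hM0
    (fun f l hl => hW n (lb n) hT (side lam) hS _ hR M hM1 (hL _ hR) f l hl)
    (fun f => (hBd lam hlam n f).1)
  have hwI := th2_weak lam n (KI lam n) (C2 * M) B hM0
    (fun f l hl => hW n (lb n) hT (side lam) hS _ hI M hM1 (hL _ hI) f l hl)
    (fun f => (hBd lam hlam n f).2)
  have hKR : ∀ x y, KR lam n y x = - KR lam n x y := fun x y => by
    unfold KR
    rw [th2_inv, Complex.neg_re]
  have hKI : ∀ x y, KI lam n y x = - KI lam n x y := fun x y => by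
    unfold KI
    rw [th2_inv, Complex.neg_im]
  obtain ⟨h0, h1, h2, h3, h4⟩ := treeDual (th2K (XX lam n) (KR lam n))
    (th2K (XX lam n) (KI lam n)) (th2_anti _ _ hKR) (th2_anti _ _ hKI)
    (2 * (C2 * M) + 2 * B) (by positivity) hwR hwI
  have hfin : 16 * (2 * (C2 * M) + 2 * B) ≤
      16 * ((2 * C2 + 2 * B) * (C1 + 1)) * (1 + Real.sqrt (SS lam n)) := by
    have e : 16 * ((2 * C2 + 2 * B) * (C1 + 1)) * (1 + Real.sqrt (SS lam n)) =
        16 * ((2 * C2 + 2 * B) * M) := by
      rw [hM]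
      ring
    rw [e]
    nlinarith
  refine ⟨fun x => th2w (XX lam n) x * h0 x, fun x => ?_, fun x hx => ?_, ?_, ?_, ?_⟩
  · exact ⟨mul_nonneg (th2w_nonneg _ x) (h1 x).1,
      mul_le_one₀ (th2w_le _ x) (h1 x).1 (h1 x).2⟩
  · show th2w (XX lam n) x * h0 x = 0
    unfold th2w
    rw [if_neg hx, zero_mul]
  · have hc := card_XX lam hlam n
    have h5 : ∑ x, h0 x ≤ ∑ x, th2w (XX lam n) x * h0 x +
        ((Finset.univ.filter (fun x => x ∉ XX lam n)).card : ℝ) := by
      have h6 : ((Finset.univ.filter (fun x => x ∉ XX lam n)).card : ℝ) =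
          ∑ x : Fin (4 ^ n), (if x ∉ XX lam n then (1 : ℝ) else 0) := by
        rw [Finset.sum_ite, Finset.sum_const_zero, add_zero, Finset.sum_const, nsmul_eq_mul,
          mul_one]
      rw [h6, ← Finset.sum_add_distrib]
      refine Finset.sum_le_sum fun x _ => ?_
      unfold th2w
      by_cases h7 : x ∈ XX lam n
      · simp [h7]
      · simp [h7, (h1 x).2]
    have hcN : (Fintype.card (Fin (4 ^ n)) : ℝ) = 4 ^ n := by
      rw [Fintype.card_fin]
      push_cast
      rfl
    unfold av at h2 ⊢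
    rw [le_div_iff₀ hN] at h2 ⊢
    rw [hcN] at h2 ⊢
    linarith
  · intro x hx
    rw [th2_res _ _ _ _ hx]
    exact (h3 x).trans hfin
  · intro x hx
    rw [th2_res _ _ _ _ hx]
    exact (h4 x).trans hfin

end Pool.Agent.VC
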