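import Pool.Agent.VC.TreeL2
import Pool.Agent.VC.Stage

/-!
# The kernels of the corner sets on the tree of words
-/

set_option autoImplicit false

open MeasureTheory Set

namespace Pool.Agent.VC

/-- labels of the words of length `n` over four letters, coded by `x < 4^n` -/
def lb (n : ℕ) (k : ℕ) (x : Fin (4 ^ n)) : ℕ := (x : ℕ) / 4 ^ (n - k)

/-- the lower left corner of the `i`-th square of generation `n` -/
noncomputable def ctr (lam : ℕ → ℝ) : ℕ → ℕ → ℂ
  | 0, _ => 0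
  | n + 1, i => ctr lam n (i / 4) +
      ((side lam n - side lam (n + 1) : ℝ) : ℂ) *
        ((((i % 4) % 2 : ℕ) : ℂ) + (((i % 4) / 2 : ℕ) : ℂ) * Complex.I)

theorem tk_lb_succ (n k : ℕ) (hk : k < n) (x : Fin (4 ^ n)) : lb n k x = lb n (k + 1) x / 4 := by
  unfold lb
  have h : n - k = (n - (k + 1)) + 1 := by omega
  rw [h, pow_succ, Nat.div_div_eq_div_mul]

theorem tk_lb_mono (n : ℕ) {j k : ℕ} (h : j ≤ k) (x y : Fin (4 ^ n)) (hxy : lb n k x = lb n k y) :
    lb n j x = lb n j y := by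
  induction k, h using Nat.le_induction with
  | base => exact hxy
  | succ k hk ih =>
    apply ih
    rcases lt_or_ge k n with h1 | h1
    · rw [tk_lb_succ n k h1, tk_lb_succ n k h1, hxy]
    · have e1 : n - k = 0 := by omega
      have e2 : n - (k + 1) = 0 := by omega
      unfold lb at hxy ⊢
      rw [e1]
      rw [e2] at hxy
      exact hxy

theorem tk_lb_lt (n k : ℕ) (hk : k ≤ n) (x : Fin (4 ^ n)) : lb n k x < 4 ^ k := by
  unfold lb
  rw [Nat.div_lt_iff_lt_mul (by positivity), ← pow_add, Nat.add_sub_cancel' hk]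
  exact x.2

theorem isTree_lb (n : ℕ) : IsTree n (lb n) where
  zero x y := by
    have h1 := tk_lb_lt n 0 (Nat.zero_le n) x
    have h2 := tk_lb_lt n 0 (Nat.zero_le n) y
    rw [pow_zero] at h1 h2
    omega
  top x y h := by
    unfold lb at h
    rw [Nat.sub_self, pow_zero, Nat.div_one, Nat.div_one] at h
    exact Fin.ext h
  nest k x y h := tk_lb_mono n (Nat.le_succ k) x y h
  card k hk x := by
    have hq := tk_lb_lt n k hk x
    set q := lb n k x with hqd
    have hm : 0 < 4 ^ (n - k) := by positivity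
    have h1 : ((Finset.univ.filter (fun y : Fin (4 ^ n) => lb n k y = q)).map
        Fin.valEmbedding) = Finset.Ico (q * 4 ^ (n - k)) ((q + 1) * 4 ^ (n - k)) := by
      ext z
      rw [Finset.mem_map, Finset.mem_Ico]
      constructor
      · rintro ⟨y, hy, rfl⟩
        rw [Finset.mem_filter] at hy
        have h2 : (y : ℕ) / 4 ^ (n - k) = q := hy.2
        change q * 4 ^ (n - k) ≤ (y : ℕ) ∧ (y : ℕ) < (q + 1) * 4 ^ (n - k)
        exact ⟨(Nat.le_div_iff_mul_le hm).1 h2.ge, (Nat.div_lt_iff_lt_mul hm).1 (by omega)⟩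
      · rintro ⟨h2, h3⟩
        have h4 : (q + 1) * 4 ^ (n - k) ≤ 4 ^ n := by
          calc (q + 1) * 4 ^ (n - k) ≤ 4 ^ k * 4 ^ (n - k) := Nat.mul_le_mul_right _ hq
            _ = 4 ^ n := by rw [← pow_add, Nat.add_sub_cancel' hk]
        refine ⟨⟨z, lt_of_lt_of_le h3 h4⟩, ?_, rfl⟩
        rw [Finset.mem_filter]
        refine ⟨Finset.mem_univ _, ?_⟩
        change z / 4 ^ (n - k) = q
        have h5 := (Nat.le_div_iff_mul_le hm).2 h2
        have h6 := (Nat.div_lt_iff_lt_mul hm).2 h3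
        omega
    rw [← Finset.card_map Fin.valEmbedding, h1, Nat.card_Ico, add_mul, one_mul]
    omega

theorem tk_side_succ (lam : ℕ → ℝ) (k : ℕ) : side lam (k + 1) = lam k * side lam k := rfl

theorem tk_ctr_succ_re (lam : ℕ → ℝ) (n i : ℕ) : (ctr lam (n + 1) i).re =
    (ctr lam n (i / 4)).re + (side lam n - side lam (n + 1)) * (((i % 4) % 2 : ℕ) : ℝ) := by
  rw [ctr]
  simp [Complex.add_re, Complex.mul_re]

theorem tk_ctr_succ_im (lam : ℕ → ℝ) (n i : ℕ) : (ctr lam (n + 1) i).im =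
    (ctr lam n (i / 4)).im + (side lam n - side lam (n + 1)) * (((i % 4) / 2 : ℕ) : ℝ) := by
  rw [ctr]
  simp [Complex.add_im, Complex.mul_im]

theorem tk_side_pos (lam : ℕ → ℝ) (h : ∀ k, 0 < lam k) (k : ℕ) : 0 < side lam k := by
  induction k with
  | zero => exact one_pos
  | succ k ih => exact mul_pos (h k) ih

theorem tk_side_gap (lam : ℕ → ℝ) (h : ∀ k, 0 < lam k ∧ lam k ≤ 1 / 2) (k : ℕ) :
    0 ≤ side lam k - side lam (k + 1) := by
  have h1 := tk_side_pos lam (fun k => (h k).1) k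
  rw [tk_side_succ]
  nlinarith [(h k).2]

theorem tk_digit_bd (m : ℕ) (hm : m ≤ 1) (l : ℝ) (hl : 0 ≤ l) : 0 ≤ l * (m : ℝ) ∧ l * (m : ℝ) ≤ l := by
  have h1 : (m : ℝ) ≤ 1 := by exact_mod_cast hm
  exact ⟨by positivity, by nlinarith⟩

/-- the corner of an ancestor -/
theorem ctr_anc (lam : ℕ → ℝ) (h : ∀ k, 0 < lam k ∧ lam k ≤ 1 / 2) (n j i : ℕ) :
    (ctr lam n (i / 4 ^ j)).re ≤ (ctr lam (n + j) i).re ∧
    (ctr lam (n + j) i).re ≤ (ctr lam n (i / 4 ^ j)).re + (side lam n - side lam (n + j)) ∧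
    (ctr lam n (i / 4 ^ j)).im ≤ (ctr lam (n + j) i).im ∧
    (ctr lam (n + j) i).im ≤ (ctr lam n (i / 4 ^ j)).im + (side lam n - side lam (n + j)) := by
  induction j generalizing i with
  | zero => simp
  | succ j ih =>
    obtain ⟨h1, h2, h3, h4⟩ := ih (i / 4)
    have e1 : i / 4 / 4 ^ j = i / 4 ^ (j + 1) := by
      rw [Nat.div_div_eq_div_mul, pow_succ, mul_comm]
    rw [e1] at h1 h2 h3 h4
    have hg := tk_side_gap lam h (n + j)
    have d1 := tk_digit_bd ((i % 4) % 2) (by omega) _ hg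
    have d2 := tk_digit_bd ((i % 4) / 2) (by omega) _ hg
    have e2 : n + (j + 1) = n + j + 1 := rfl
    rw [e2, tk_ctr_succ_re, tk_ctr_succ_im]
    refine ⟨by linarith [d1.1], by linarith [d1.2], by linarith [d2.1], by linarith [d2.2]⟩

/-- points in the same square of generation `k` -/
theorem ctr_close (lam : ℕ → ℝ) (h : ∀ k, 0 < lam k ∧ lam k ≤ 1 / 2) (n k : ℕ) (hk : k ≤ n)
    (x y : Fin (4 ^ n)) (hxy : lb n k x = lb n k y) :
    ‖ctr lam n x - ctr lam n y‖ ≤ 2 * side lam k := by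
  have hx := ctr_anc lam h k (n - k) x
  have hy := ctr_anc lam h k (n - k) y
  rw [Nat.add_sub_cancel' hk] at hx hy
  have e : (x : ℕ) / 4 ^ (n - k) = (y : ℕ) / 4 ^ (n - k) := hxy
  rw [e] at hx
  have hs := tk_side_pos lam (fun k => (h k).1) n
  have h1 : |(ctr lam n x - ctr lam n y).re| ≤ side lam k := by
    rw [Complex.sub_re, abs_le]
    constructor <;> linarith [hx.1, hx.2.1, hy.1, hy.2.1]
  have h2 : |(ctr lam n x - ctr lam n y).im| ≤ side lam k := by
    rw [Complex.sub_im, abs_le]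
    constructor <;> linarith [hx.2.2.1, hx.2.2.2, hy.2.2.1, hy.2.2.2]
  have h3 := Complex.norm_le_abs_re_add_abs_im (ctr lam n x - ctr lam n y)
  linarith

theorem tk_digit_ne (m m' : ℕ) (hm : m ≤ 1) (hm' : m' ≤ 1) (hne : m ≠ m') :
    |(m : ℝ) - (m' : ℝ)| = 1 := by
  have h1 : (m = 0 ∧ m' = 1) ∨ (m = 1 ∧ m' = 0) := by omega
  rcases h1 with ⟨rfl, rfl⟩ | ⟨rfl, rfl⟩ <;> simp

theorem tk_sep_real {l A A' B B' d : ℝ} (hl : |A - A'| = l) (h1 : A ≤ B) (h2 : B ≤ A + d)
    (h3 : A' ≤ B') (h4 : B' ≤ A' + d) : l - d ≤ |B - B'| := by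
  rw [← hl]
  rcases le_total A A' with h | h
  · rw [abs_of_nonpos (by linarith)]
    have := neg_le_abs (B - B')
    linarith
  · rw [abs_of_nonneg (by linarith)]
    have := le_abs_self (B - B')
    linarith

theorem tk_ctr_sep_core (κ : ℝ) (lam : ℕ → ℝ) (h : ∀ k, 0 < lam k ∧ lam k ≤ κ) (hκ : κ < 1 / 2)
    (n k : ℕ) (hk : k < n) (x y : Fin (4 ^ n)) (heq : lb n k x = lb n k y)
    (hxy : lb n (k + 1) x ≠ lb n (k + 1) y) :
    (1 - 2 * κ) * side lam k ≤ ‖ctr lam n x - ctr lam n y‖ := by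
  have h' : ∀ k, 0 < lam k ∧ lam k ≤ 1 / 2 := fun k => ⟨(h k).1, (h k).2.trans hκ.le⟩
  have hg := tk_side_gap lam h' k
  have hsk := tk_side_pos lam (fun k => (h k).1) k
  have hsn := tk_side_pos lam (fun k => (h k).1) n
  have hs1 : side lam (k + 1) ≤ κ * side lam k := by
    rw [tk_side_succ]
    exact mul_le_mul_of_nonneg_right (h k).2 hsk.le
  have hx := ctr_anc lam h' (k + 1) (n - (k + 1)) x
  have hy := ctr_anc lam h' (k + 1) (n - (k + 1)) y
  rw [Nat.add_sub_cancel' (by omega)] at hx hy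
  have ex : (x : ℕ) / 4 ^ (n - (k + 1)) = lb n (k + 1) x := rfl
  have ey : (y : ℕ) / 4 ^ (n - (k + 1)) = lb n (k + 1) y := rfl
  rw [ex, tk_ctr_succ_re, tk_ctr_succ_im] at hx
  rw [ey, tk_ctr_succ_re, tk_ctr_succ_im] at hy
  rw [tk_lb_succ n k hk, tk_lb_succ n k hk] at heq
  rw [heq] at hx
  set x' := lb n (k + 1) x with hx'
  set y' := lb n (k + 1) y with hy'
  have hcase : x' % 4 % 2 ≠ y' % 4 % 2 ∨ x' % 4 / 2 ≠ y' % 4 / 2 := by
    by_contra hcon
    push Not at hcon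
    apply hxy
    omega
  have hfin : (1 - 2 * κ) * side lam k ≤
      (side lam k - side lam (k + 1)) - (side lam (k + 1) - side lam n) := by linarith
  refine hfin.trans ?_
  rcases hcase with hne | hne
  · have hd := tk_digit_ne _ _ (by omega) (by omega) hne
    have hA : |((ctr lam k (y' / 4)).re +
        (side lam k - side lam (k + 1)) * ((x' % 4 % 2 : ℕ) : ℝ)) -
        ((ctr lam k (y' / 4)).re + (side lam k - side lam (k + 1)) * ((y' % 4 % 2 : ℕ) : ℝ))| =
        side lam k - side lam (k + 1) := by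
      rw [add_sub_add_left_eq_sub, ← mul_sub, abs_mul, hd, mul_one, abs_of_nonneg hg]
    have h1 := tk_sep_real hA hx.1 hx.2.1 hy.1 hy.2.1
    refine h1.trans ?_
    rw [← Complex.sub_re]
    exact Complex.abs_re_le_norm _
  · have hd := tk_digit_ne _ _ (by omega) (by omega) hne
    have hA : |((ctr lam k (y' / 4)).im +
        (side lam k - side lam (k + 1)) * ((x' % 4 / 2 : ℕ) : ℝ)) -
        ((ctr lam k (y' / 4)).im + (side lam k - side lam (k + 1)) * ((y' % 4 / 2 : ℕ) : ℝ))| =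
        side lam k - side lam (k + 1) := by
      rw [add_sub_add_left_eq_sub, ← mul_sub, abs_mul, hd, mul_one, abs_of_nonneg hg]
    have h1 := tk_sep_real hA hx.2.2.1 hx.2.2.2 hy.2.2.1 hy.2.2.2
    refine h1.trans ?_
    rw [← Complex.sub_im]
    exact Complex.abs_im_le_norm _

/-- separation -/
theorem ctr_sep (κ : ℝ) (lam : ℕ → ℝ) (h : ∀ k, 0 < lam k ∧ lam k ≤ κ) (hκ : κ < 1 / 2)
    (n k : ℕ) (hk : k < n) (x y : Fin (4 ^ n)) (hxy : lb n (k + 1) x ≠ lb n (k + 1) y) :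
    (1 - 2 * κ) * side lam k ≤ ‖ctr lam n x - ctr lam n y‖ := by
  have h' : ∀ k, 0 < lam k ∧ lam k ≤ 1 / 2 := fun k => ⟨(h k).1, (h k).2.trans hκ.le⟩
  induction k with
  | zero =>
    -- the first digits differ
    have key := tk_ctr_sep_core κ lam h hκ n 0 hk x y ((isTree_lb n).zero x y) hxy
    exact key
  | succ k ih =>
    by_cases hk' : lb n (k + 1) x = lb n (k + 1) y
    · exact tk_ctr_sep_core κ lam h hκ n (k + 1) hk x y hk' hxy
    · refine le_trans ?_ (ih (by omega) hk')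
      have h1 : side lam (k + 1) ≤ side lam k := by linarith [tk_side_gap lam h' k]
      exact mul_le_mul_of_nonneg_left h1 (by linarith)

/-- the two kernels -/
noncomputable def KR (lam : ℕ → ℝ) (n : ℕ) (x y : Fin (4 ^ n)) : ℝ :=
  (1 / (ctr lam n x - ctr lam n y)).re

noncomputable def KI (lam : ℕ → ℝ) (n : ℕ) (x y : Fin (4 ^ n)) : ℝ :=
  (1 / (ctr lam n x - ctr lam n y)).im

theorem tk_inv_size {a : ℂ} {m : ℝ} (hm : 0 < m) (h : m ≤ ‖a‖) : ‖1 / a‖ ≤ 1 / m := by
  rw [norm_div, norm_one]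
  exact one_div_le_one_div_of_le hm h

theorem tk_inv_diff {x y y' : ℂ} {m r : ℝ} (hm : 0 < m) (h1 : m ≤ ‖x - y‖) (h2 : m ≤ ‖x - y'‖)
    (h3 : ‖y' - y‖ ≤ r) : ‖1 / (x - y) - 1 / (x - y')‖ ≤ r / m ^ 2 := by
  have e1 : x - y ≠ 0 := norm_pos_iff.1 (lt_of_lt_of_le hm h1)
  have e2 : x - y' ≠ 0 := norm_pos_iff.1 (lt_of_lt_of_le hm h2)
  have e3 : 1 / (x - y) - 1 / (x - y') = (y - y') * (1 / (x - y)) * (1 / (x - y')) := by
    field_simp
    ring
  rw [e3, norm_mul, norm_mul]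
  have h4 := tk_inv_size hm h1
  have h5 := tk_inv_size hm h2
  have h6 : ‖y - y'‖ ≤ r := by rwa [norm_sub_rev]
  have hr : 0 ≤ r := (norm_nonneg _).trans h3
  calc ‖y - y'‖ * ‖1 / (x - y)‖ * ‖1 / (x - y')‖ ≤ r * (1 / m) * (1 / m) := by
        apply mul_le_mul (mul_le_mul h6 h4 (norm_nonneg _) hr) h5 (norm_nonneg _)
        positivity
    _ = r / m ^ 2 := by field_simp

theorem tk_inv_diff2 {x y x' y' : ℂ} {m r r' : ℝ} (hm : 0 < m) (h1 : m ≤ ‖x - y‖)
    (h2 : m ≤ ‖x' - y‖) (h3 : m ≤ ‖x - y'‖) (h4 : m ≤ ‖x' - y'‖) (h5 : ‖x' - x‖ ≤ r)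
    (h6 : ‖y' - y‖ ≤ r') :
    ‖1 / (x - y) - 1 / (x' - y) - 1 / (x - y') + 1 / (x' - y')‖ ≤ 2 * (r * r') / m ^ 3 := by
  have e1 : x - y ≠ 0 := norm_pos_iff.1 (lt_of_lt_of_le hm h1)
  have e2 : x' - y ≠ 0 := norm_pos_iff.1 (lt_of_lt_of_le hm h2)
  have e3 : x - y' ≠ 0 := norm_pos_iff.1 (lt_of_lt_of_le hm h3)
  have e4 : x' - y' ≠ 0 := norm_pos_iff.1 (lt_of_lt_of_le hm h4)
  have key : 1 / (x - y) - 1 / (x' - y) - 1 / (x - y') + 1 / (x' - y') =
      (x' - x) * (y - y') * (1 / (x' - y)) * (1 / (x - y')) * (1 / (x' - y')) +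
      (x' - x) * (y - y') * (1 / (x - y)) * (1 / (x' - y)) * (1 / (x - y')) := by
    field_simp
    ring
  have hr : 0 ≤ r := (norm_nonneg _).trans h5
  have hr' : 0 ≤ r' := (norm_nonneg _).trans h6
  have h6' : ‖y - y'‖ ≤ r' := by rwa [norm_sub_rev]
  have hgen : ∀ a b c : ℂ, m ≤ ‖a‖ → m ≤ ‖b‖ → m ≤ ‖c‖ →
      ‖(x' - x) * (y - y') * (1 / a) * (1 / b) * (1 / c)‖ ≤ r * r' / m ^ 3 := by
    intro a b c ha hb hc
    rw [norm_mul, norm_mul, norm_mul, norm_mul]
    calc ‖x' - x‖ * ‖y - y'‖ * ‖1 / a‖ * ‖1 / b‖ * ‖1 / c‖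
        ≤ r * r' * (1 / m) * (1 / m) * (1 / m) := by
          apply mul_le_mul (mul_le_mul (mul_le_mul (mul_le_mul h5 h6' (norm_nonneg _) hr)
            (tk_inv_size hm ha) (norm_nonneg _) (by positivity)) (tk_inv_size hm hb) (norm_nonneg _)
            (by positivity)) (tk_inv_size hm hc) (norm_nonneg _)
          positivity
      _ = r * r' / m ^ 3 := by field_simp
  rw [key]
  refine (norm_add_le _ _).trans ?_
  have a1 := hgen _ _ _ h2 h3 h4
  have a2 := hgen _ _ _ h1 h2 h3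
  calc _ ≤ r * r' / m ^ 3 + r * r' / m ^ 3 := add_le_add a1 a2
    _ = 2 * (r * r') / m ^ 3 := by ring

theorem isCZ_K (κ : ℝ) (hκ : κ < 1 / 2) : ∃ C : ℝ, 0 < C ∧ ∀ lam : ℕ → ℝ,
    (∀ k, 1 / 4 ≤ lam k ∧ lam k ≤ κ) → ∀ n : ℕ,
    IsCZ n (lb n) (side lam) C (KR lam n) ∧ IsCZ n (lb n) (side lam) C (KI lam n) := by
  set δ : ℝ := 1 - 2 * κ with hδ
  have hδ0 : 0 < δ := by rw [hδ]; linarith
  refine ⟨1 / δ + 2 / δ ^ 2 + 8 / δ ^ 3, by positivity, fun lam hl n => ?_⟩
  have hc1 : 0 < 1 / δ := by positivity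
  have hc2 : 0 < 2 / δ ^ 2 := by positivity
  have hc3 : 0 < 8 / δ ^ 3 := by positivity
  have h : ∀ k, 0 < lam k ∧ lam k ≤ κ := fun k => ⟨by linarith [(hl k).1], (hl k).2⟩
  have h' : ∀ k, 0 < lam k ∧ lam k ≤ 1 / 2 := fun k => ⟨(h k).1, (h k).2.trans hκ.le⟩
  have hs : ∀ k, 0 < side lam k := tk_side_pos lam fun k => (h k).1
  have hsep : ∀ k, k < n → ∀ x y : Fin (4 ^ n), lb n (k + 1) x ≠ lb n (k + 1) y →
      δ * side lam k ≤ ‖ctr lam n x - ctr lam n y‖ := fun k hk x y hxy =>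
    ctr_sep κ lam h hκ n k hk x y hxy
  have hsize : ∀ k, k < n → ∀ x y : Fin (4 ^ n), lb n (k + 1) x ≠ lb n (k + 1) y →
      ‖1 / (ctr lam n x - ctr lam n y)‖ ≤ (1 / δ + 2 / δ ^ 2 + 8 / δ ^ 3) / side lam k := by
    intro k hk x y hxy
    refine (tk_inv_size (mul_pos hδ0 (hs k)) (hsep k hk x y hxy)).trans ?_
    rw [← div_div]
    exact div_le_div_of_nonneg_right (by linarith) (hs k).le
  have hdiff : ∀ k j, k < j → j ≤ n → ∀ x y y' : Fin (4 ^ n), lb n (k + 1) x ≠ lb n (k + 1) y →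
      lb n j y' = lb n j y →
      ‖1 / (ctr lam n x - ctr lam n y) - 1 / (ctr lam n x - ctr lam n y')‖ ≤
        (1 / δ + 2 / δ ^ 2 + 8 / δ ^ 3) * side lam j / side lam k ^ 2 := by
    intro k j hkj hj x y y' hxy hy
    have hk : k < n := by omega
    have hy1 : lb n (k + 1) y' = lb n (k + 1) y := tk_lb_mono n hkj y' y hy
    have hxy' : lb n (k + 1) x ≠ lb n (k + 1) y' := by rw [hy1]; exact hxy
    refine (tk_inv_diff (mul_pos hδ0 (hs k)) (hsep k hk x y hxy) (hsep k hk x y' hxy')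
      (ctr_close lam h' n j hj y' y hy)).trans ?_
    have e1 : 2 * side lam j / (δ * side lam k) ^ 2 =
        2 / δ ^ 2 * side lam j / side lam k ^ 2 := by
      have := (hs k).ne'
      field_simp
    rw [e1]
    apply div_le_div_of_nonneg_right _ (by positivity)
    exact mul_le_mul_of_nonneg_right (by linarith) (hs j).le
  have hdiff2 : ∀ k i j, k < i → k < j → i ≤ n → j ≤ n → ∀ x y x' y' : Fin (4 ^ n),
      lb n (k + 1) x ≠ lb n (k + 1) y → lb n i x' = lb n i x → lb n j y' = lb n j y →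
      ‖1 / (ctr lam n x - ctr lam n y) - 1 / (ctr lam n x' - ctr lam n y) -
        1 / (ctr lam n x - ctr lam n y') + 1 / (ctr lam n x' - ctr lam n y')‖ ≤
        (1 / δ + 2 / δ ^ 2 + 8 / δ ^ 3) * side lam i * side lam j / side lam k ^ 3 := by
    intro k i j hki hkj hi hj x y x' y' hxy hx hy
    have hk : k < n := by omega
    have hx1 : lb n (k + 1) x' = lb n (k + 1) x := tk_lb_mono n hki x' x hx
    have hy1 : lb n (k + 1) y' = lb n (k + 1) y := tk_lb_mono n hkj y' y hy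
    refine (tk_inv_diff2 (mul_pos hδ0 (hs k)) (hsep k hk x y hxy)
      (hsep k hk x' y (by rw [hx1]; exact hxy)) (hsep k hk x y' (by rw [hy1]; exact hxy))
      (hsep k hk x' y' (by rw [hx1, hy1]; exact hxy))
      (ctr_close lam h' n i hi x' x hx) (ctr_close lam h' n j hj y' y hy)).trans ?_
    have e1 : 2 * (2 * side lam i * (2 * side lam j)) / (δ * side lam k) ^ 3 =
        8 / δ ^ 3 * side lam i * side lam j / side lam k ^ 3 := by
      have := (hs k).ne'
      field_simp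
      ring
    rw [e1]
    apply div_le_div_of_nonneg_right _ (by have := hs k; positivity)
    apply mul_le_mul_of_nonneg_right _ (hs j).le
    exact mul_le_mul_of_nonneg_right (by linarith) (hs i).le
  constructor
  · refine ⟨fun x y => ?_, fun k hk x y _ hxy => ?_, fun k j hkj hj x y y' _ hxy hy => ?_,
      fun k i j hki hkj hi hj x y x' y' _ hxy hx hy => ?_⟩
    · unfold KR
      rw [← Complex.neg_re, ← div_neg, neg_sub]
    · exact (Complex.abs_re_le_norm _).trans (hsize k hk x y hxy)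
    · unfold KR
      rw [← Complex.sub_re]
      exact (Complex.abs_re_le_norm _).trans (hdiff k j hkj hj x y y' hxy hy)
    · unfold KR
      rw [← Complex.sub_re, ← Complex.sub_re, ← Complex.add_re]
      exact (Complex.abs_re_le_norm _).trans (hdiff2 k i j hki hkj hi hj x y x' y' hxy hx hy)
  · refine ⟨fun x y => ?_, fun k hk x y _ hxy => ?_, fun k j hkj hj x y y' _ hxy hy => ?_,
      fun k i j hki hkj hi hj x y x' y' _ hxy hx hy => ?_⟩
    · unfold KI
      rw [← Complex.neg_im, ← div_neg, neg_sub]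
    · exact (Complex.abs_im_le_norm _).trans (hsize k hk x y hxy)
    · unfold KI
      rw [← Complex.sub_im]
      exact (Complex.abs_im_le_norm _).trans (hdiff k j hkj hj x y y' hxy hy)
    · unfold KI
      rw [← Complex.sub_im, ← Complex.sub_im, ← Complex.add_im]
      exact (Complex.abs_im_le_norm _).trans (hdiff2 k i j hki hkj hi hj x y x' y' hxy hx hy)

theorem sides_side (lam : ℕ → ℝ) (h : ∀ k, 1 / 4 ≤ lam k ∧ lam k ≤ 1 / 2) (n : ℕ) :
    Sides n (side lam) (1 / 2) where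
  q0 := by norm_num
  q1 := by norm_num
  pos := tk_side_pos lam fun k => by linarith [(h k).1]
  dec k := by
    rw [tk_side_succ]
    exact mul_le_mul_of_nonneg_right (h k).2
      (tk_side_pos lam (fun k => by linarith [(h k).1]) k).le
  den k := by
    induction k with
    | zero =>
      rw [pow_zero, one_mul]
      exact le_rfl
    | succ k ih =>
      have h1 := tk_side_pos lam (fun k => by linarith [(h k).1]) k
      have h2 := (h k).1
      rw [tk_side_succ, pow_succ]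
      have h3 : (4 : ℝ) ^ k * 4 * (lam k * side lam k) = (4 ^ k * side lam k) * (4 * lam k) := by
        ring
      rw [h3]
      have h4 : 1 ≤ 4 * lam k := by linarith
      calc (1 : ℝ) = 1 * 1 := by ring
        _ ≤ (4 ^ k * side lam k) * (4 * lam k) :=
          mul_le_mul ih h4 zero_le_one (by positivity)

end Pool.Agent.VC
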