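import Pool.Agent.VC.PairL

set_option autoImplicit false

open MeasureTheory Set

namespace Pool.Agent.VC

private def Bf {X : Type} [Fintype X] (M : X → X → ℝ) (u v : X → ℝ) : ℝ :=
  ∑ x, ∑ y, u x * M x y * v y

private theorem Bf_add_left {X : Type} [Fintype X] (M : X → X → ℝ) (u u' v : X → ℝ) :
    Bf M (fun x => u x + u' x) v = Bf M u v + Bf M u' v := by
  unfold Bf
  rw [← Finset.sum_add_distrib]
  refine Finset.sum_congr rfl fun x _ => ?_
  rw [← Finset.sum_add_distrib]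
  refine Finset.sum_congr rfl fun y _ => ?_
  ring

private theorem Bf_add_right {X : Type} [Fintype X] (M : X → X → ℝ) (u v v' : X → ℝ) :
    Bf M u (fun y => v y + v' y) = Bf M u v + Bf M u v' := by
  unfold Bf
  rw [← Finset.sum_add_distrib]
  refine Finset.sum_congr rfl fun x _ => ?_
  rw [← Finset.sum_add_distrib]
  refine Finset.sum_congr rfl fun y _ => ?_
  ring

private theorem Bf_sum_left {X : Type} [Fintype X] (M : X → X → ℝ) (s : Finset ℕ)
    (u : ℕ → X → ℝ) (v : X → ℝ) :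
    Bf M (fun x => ∑ i ∈ s, u i x) v = ∑ i ∈ s, Bf M (u i) v := by
  classical
  induction s using Finset.induction_on with
  | empty => simp [Bf]
  | insert a s ha ih =>
    rw [Finset.sum_insert ha, ← ih, ← Bf_add_left]
    congr 1
    funext x
    rw [Finset.sum_insert ha]

private theorem Bf_sum_right {X : Type} [Fintype X] (M : X → X → ℝ) (s : Finset ℕ)
    (u : X → ℝ) (v : ℕ → X → ℝ) :
    Bf M u (fun y => ∑ i ∈ s, v i y) = ∑ i ∈ s, Bf M u (v i) := by
  classical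
  induction s using Finset.induction_on with
  | empty => simp [Bf]
  | insert a s ha ih =>
    rw [Finset.sum_insert ha, ← ih, ← Bf_add_right]
    congr 1
    funext x
    rw [Finset.sum_insert ha]

private theorem t2_geom (q : ℝ) (hq0 : 0 < q) (hq1 : q < 1) (m : ℕ) :
    ∑ i ∈ Finset.range m, q ^ i ≤ 1 / (1 - q) := by
  have h1 : 0 < 1 - q := by linarith
  rw [le_div_iff₀ h1, mul_comm, mul_neg_geom_sum]
  have := pow_pos hq0 m
  linarith

/-- the convolution inequality -/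
private theorem t2_conv (q : ℝ) (hq0 : 0 < q) (hq1 : q < 1) (n : ℕ) (G : ℕ → ℝ) :
    ∑ k ∈ Finset.range n, (∑ i ∈ Finset.Ico k n, q ^ (i - k) * G i) ^ 2 ≤
      (1 / (1 - q)) ^ 2 * ∑ i ∈ Finset.range n, G i ^ 2 := by
  have hR : 0 ≤ 1 / (1 - q) := by
    have : 0 < 1 - q := by linarith
    positivity
  have h1 : ∀ k ∈ Finset.range n, (∑ i ∈ Finset.Ico k n, q ^ (i - k) * G i) ^ 2 ≤
      1 / (1 - q) * ∑ i ∈ Finset.Ico k n, q ^ (i - k) * G i ^ 2 := by
    intro k _
    have h2 : (∑ i ∈ Finset.Ico k n, q ^ (i - k) * G i) ^ 2 ≤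
        (∑ i ∈ Finset.Ico k n, q ^ (i - k)) * ∑ i ∈ Finset.Ico k n, q ^ (i - k) * G i ^ 2 :=
      Finset.sum_sq_le_sum_mul_sum_of_sq_eq_mul _ (fun i _ => by positivity)
        (fun i _ => by positivity) (fun i _ => by ring)
    refine h2.trans (mul_le_mul_of_nonneg_right ?_
      (Finset.sum_nonneg fun i _ => by positivity))
    rw [Finset.sum_Ico_eq_sum_range]
    refine le_trans (le_of_eq (Finset.sum_congr rfl fun i _ => ?_)) (t2_geom q hq0 hq1 (n - k))
    rw [Nat.add_sub_cancel_left]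
  refine (Finset.sum_le_sum h1).trans ?_
  rw [← Finset.mul_sum]
  have h3 : ∑ k ∈ Finset.range n, ∑ i ∈ Finset.Ico k n, q ^ (i - k) * G i ^ 2 =
      ∑ i ∈ Finset.range n, ∑ k ∈ Finset.range (i + 1), q ^ (i - k) * G i ^ 2 := by
    refine Finset.sum_comm' fun k i => ?_
    simp only [Finset.mem_range, Finset.mem_Ico]
    omega
  suffices h5 : ∑ i ∈ Finset.range n, ∑ k ∈ Finset.range (i + 1), q ^ (i - k) * G i ^ 2 ≤
      1 / (1 - q) * ∑ i ∈ Finset.range n, G i ^ 2 by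
    rw [h3, sq, mul_assoc]
    exact mul_le_mul_of_nonneg_left h5 hR
  rw [Finset.mul_sum]
  refine Finset.sum_le_sum fun i _ => ?_
  rw [← Finset.sum_mul]
  refine mul_le_mul_of_nonneg_right ?_ (sq_nonneg _)
  have h4 : ∑ k ∈ Finset.range (i + 1), q ^ (i - k) = ∑ k ∈ Finset.range (i + 1), q ^ k := by
    have := Finset.sum_range_reflect (fun k => q ^ k) (i + 1)
    rw [← this]
    refine Finset.sum_congr rfl fun k _ => ?_
    congr 1
  rw [h4]
  exact t2_geom q hq0 hq1 (i + 1)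

private theorem t2_side {n : ℕ} {s : ℕ → ℝ} {q : ℝ} (hs : Sides n s q) {k i : ℕ} (h : k ≤ i) :
    s i ≤ q ^ (i - k) * s k := by
  induction i, h using Nat.le_induction with
  | base => simp
  | succ i hi ih =>
    have e : i + 1 - k = (i - k) + 1 := by omega
    rw [e, pow_succ]
    have h1 := hs.dec i
    have h2 := mul_le_mul_of_nonneg_left ih hs.q0.le
    linarith

private theorem t2_split {X : Type} [Fintype X] {n : ℕ} {lab : ℕ → X → ℕ} (T : IsTree n lab)
    {s : ℕ → ℝ} {C : ℝ} {K : X → X → ℝ} (hK : IsCZ n lab s C K) (x y : X) :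
    K x y = ∑ k ∈ Finset.range n, Kk lab K k x y := by
  classical
  have h1 : ∀ k, Kk lab K k x y = K x y * ((if lab k x = lab k y then (1 : ℝ) else 0) -
      (if lab (k + 1) x = lab (k + 1) y then (1 : ℝ) else 0)) := by
    intro k
    unfold Kk
    by_cases h2 : lab (k + 1) x = lab (k + 1) y
    · have h3 := T.nest k x y h2
      simp [h2, h3]
    · by_cases h3 : lab k x = lab k y
      · simp [h2, h3]
      · simp [h2, h3]
  rw [Finset.sum_congr rfl fun k _ => h1 k, ← Finset.mul_sum, Finset.sum_range_sub']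
  rw [if_pos (T.zero x y)]
  by_cases h4 : lab n x = lab n y
  · have h5 := T.top x y h4
    subst h5
    have h6 := hK.anti x x
    have h7 : K x x = 0 := by linarith
    rw [h7]
    ring
  · rw [if_neg h4]
    ring

private theorem t2_swap {X : Type} [Fintype X] {n : ℕ} {lab : ℕ → X → ℕ}
    {s : ℕ → ℝ} {C : ℝ} {K : X → X → ℝ} (hK : IsCZ n lab s C K) (k : ℕ) (u v : X → ℝ) :
    Bf (Kk lab K k) u v = - Bf (Kk lab K k) v u := by
  unfold Bf
  rw [Finset.sum_comm, ← Finset.sum_neg_distrib]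
  refine Finset.sum_congr rfl fun x _ => ?_
  rw [← Finset.sum_neg_distrib]
  refine Finset.sum_congr rfl fun y _ => ?_
  have h1 : Kk lab K k y x = - Kk lab K k x y := by
    unfold Kk
    by_cases h2 : lab k x = lab k y ∧ lab (k + 1) x ≠ lab (k + 1) y
    · rw [if_pos h2, if_pos ⟨h2.1.symm, fun h => h2.2 h.symm⟩]
      exact hK.anti x y
    · rw [if_neg h2, if_neg fun h => h2 ⟨h.1.symm, fun h' => h.2 h'.symm⟩, neg_zero]
  rw [h1]
  ring

/-- the estimate for one `k` -/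
private theorem t2_one {X : Type} [Fintype X] {n : ℕ} {lab : ℕ → X → ℕ} (T : IsTree n lab)
    {s : ℕ → ℝ} {q C : ℝ} (hs : Sides n s q) (hC : 0 ≤ C) {K : X → X → ℝ}
    (hK : IsCZ n lab s C K) (f g : X → ℝ) (k : ℕ) (hk : k < n) :
    |Bf (Kk lab K k) g f| ≤ 4 ^ n * C * (1 / (4 ^ k * s k)) *
      ((∑ i ∈ Finset.Ico k n, q ^ (i - k) * Real.sqrt (∑ x, md lab i g x ^ 2)) *
        (∑ i ∈ Finset.Ico k n, q ^ (i - k) * Real.sqrt (∑ x, md lab i f x ^ 2)) +
      (∑ i ∈ Finset.Ico k n, q ^ (i - k) * Real.sqrt (∑ x, md lab i g x ^ 2)) *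
        Real.sqrt (∑ x, f x ^ 2) +
      (∑ i ∈ Finset.Ico k n, q ^ (i - k) * Real.sqrt (∑ x, md lab i f x ^ 2)) *
        Real.sqrt (∑ x, g x ^ 2)) := by
  set G : ℕ → ℝ := fun i => Real.sqrt (∑ x, md lab i g x ^ 2) with hG
  set F : ℕ → ℝ := fun i => Real.sqrt (∑ x, md lab i f x ^ 2) with hF
  set a : ℝ := 1 / (4 ^ k * s k) with ha
  have hsk := hs.pos k
  have hG0 : ∀ i, 0 ≤ G i := fun i => Real.sqrt_nonneg _
  have hF0 : ∀ i, 0 ≤ F i := fun i => Real.sqrt_nonneg _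
  have hq := hs.q0.le
  -- decomposition
  have hdg : g = fun x => ce lab k g x + ∑ i ∈ Finset.Ico k n, md lab i g x := by
    funext x
    exact T.sum_md g hk.le x
  have hdf : f = fun x => ce lab k f x + ∑ i ∈ Finset.Ico k n, md lab i f x := by
    funext x
    exact T.sum_md f hk.le x
  have hz : Bf (Kk lab K k) (ce lab k g) (ce lab k f) = 0 := pair_zero T hK k hk f g
  have hexp : Bf (Kk lab K k) g f =
      ∑ i ∈ Finset.Ico k n, ∑ j ∈ Finset.Ico k n, Bf (Kk lab K k) (md lab i g) (md lab j f) +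
      ∑ i ∈ Finset.Ico k n, Bf (Kk lab K k) (md lab i g) (ce lab k f) +
      ∑ j ∈ Finset.Ico k n, Bf (Kk lab K k) (ce lab k g) (md lab j f) := by
    have e1 : Bf (Kk lab K k) g f =
        Bf (Kk lab K k) (fun x => ce lab k g x + ∑ i ∈ Finset.Ico k n, md lab i g x)
          (fun x => ce lab k f x + ∑ i ∈ Finset.Ico k n, md lab i f x) := by
      rw [← hdg, ← hdf]
    rw [e1, Bf_add_left, Bf_add_right, Bf_add_right, hz,
      Bf_sum_right (Kk lab K k) (Finset.Ico k n) (ce lab k g) (fun i => md lab i f),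
      Bf_sum_left (Kk lab K k) (Finset.Ico k n) (fun i => md lab i g) (ce lab k f),
      Bf_sum_left (Kk lab K k) (Finset.Ico k n) (fun i => md lab i g)
        (fun x => ∑ i ∈ Finset.Ico k n, md lab i f x)]
    have e2 : ∀ i ∈ Finset.Ico k n, Bf (Kk lab K k) (md lab i g)
        (fun x => ∑ i ∈ Finset.Ico k n, md lab i f x) =
        ∑ j ∈ Finset.Ico k n, Bf (Kk lab K k) (md lab i g) (md lab j f) := fun i _ =>
      Bf_sum_right (Kk lab K k) (Finset.Ico k n) (md lab i g) (fun j => md lab j f)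
    rw [Finset.sum_congr rfl e2]
    ring
  -- the bounds
  have h1 : ∀ i ∈ Finset.Ico k n, ∀ j ∈ Finset.Ico k n,
      |Bf (Kk lab K k) (md lab i g) (md lab j f)| ≤
        4 ^ n * C * a * ((q ^ (i - k) * G i) * (q ^ (j - k) * F j)) := by
    intro i hi j hj
    rw [Finset.mem_Ico] at hi hj
    refine (pair_md T hs hC hK k i j hi.1 hj.1 hi.2 hj.2 f g).trans ?_
    have b1 : s i * s j ≤ (q ^ (i - k) * s k) * (q ^ (j - k) * s k) :=
      mul_le_mul (t2_side hs hi.1) (t2_side hs hj.1) (hs.pos j).le (by positivity)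
    have b2 : C * (s i * s j / s k ^ 3) / 4 ^ k ≤ C * a * (q ^ (i - k) * q ^ (j - k)) := by
      have b3 : s i * s j / s k ^ 3 ≤ (q ^ (i - k) * s k) * (q ^ (j - k) * s k) / s k ^ 3 :=
        div_le_div_of_nonneg_right b1 (by positivity)
      have b4 : C * (s i * s j / s k ^ 3) / 4 ^ k ≤
          C * ((q ^ (i - k) * s k) * (q ^ (j - k) * s k) / s k ^ 3) / 4 ^ k :=
        div_le_div_of_nonneg_right (mul_le_mul_of_nonneg_left b3 hC) (by positivity)
      refine b4.trans (le_of_eq ?_)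
      rw [ha]
      field_simp
    have b5 : 0 ≤ G i * F j := mul_nonneg (hG0 i) (hF0 j)
    have b6 := mul_le_mul_of_nonneg_right (mul_le_mul_of_nonneg_left b2
      (by positivity : (0 : ℝ) ≤ 4 ^ n)) b5
    refine b6.trans (le_of_eq ?_)
    ring
  have h2 : ∀ (u v : X → ℝ), ∀ i ∈ Finset.Ico k n,
      |Bf (Kk lab K k) (md lab i u) (ce lab k v)| ≤
        4 ^ n * C * a * ((q ^ (i - k) * Real.sqrt (∑ x, md lab i u x ^ 2)) *
          Real.sqrt (∑ x, v x ^ 2)) := by
    intro u v i hi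
    rw [Finset.mem_Ico] at hi
    refine (pair_ce T hs hC hK k i hi.1 hi.2 v u).trans ?_
    have b2 : C * (s i / s k ^ 2) / 4 ^ k ≤ C * a * q ^ (i - k) := by
      have b3 : s i / s k ^ 2 ≤ (q ^ (i - k) * s k) / s k ^ 2 :=
        div_le_div_of_nonneg_right (t2_side hs hi.1) (by positivity)
      have b4 : C * (s i / s k ^ 2) / 4 ^ k ≤ C * ((q ^ (i - k) * s k) / s k ^ 2) / 4 ^ k :=
        div_le_div_of_nonneg_right (mul_le_mul_of_nonneg_left b3 hC) (by positivity)
      refine b4.trans (le_of_eq ?_)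
      rw [ha]
      field_simp
    have b5 : 0 ≤ Real.sqrt (∑ x, md lab i u x ^ 2) * Real.sqrt (∑ x, v x ^ 2) :=
      mul_nonneg (Real.sqrt_nonneg _) (Real.sqrt_nonneg _)
    have b6 := mul_le_mul_of_nonneg_right (mul_le_mul_of_nonneg_left b2
      (by positivity : (0 : ℝ) ≤ 4 ^ n)) b5
    refine b6.trans (le_of_eq ?_)
    ring
  have s1 : |∑ i ∈ Finset.Ico k n, ∑ j ∈ Finset.Ico k n,
      Bf (Kk lab K k) (md lab i g) (md lab j f)| ≤
      4 ^ n * C * a * ((∑ i ∈ Finset.Ico k n, q ^ (i - k) * G i) *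
        (∑ i ∈ Finset.Ico k n, q ^ (i - k) * F i)) := by
    refine (Finset.abs_sum_le_sum_abs _ _).trans ?_
    rw [Finset.sum_mul_sum, Finset.mul_sum]
    refine Finset.sum_le_sum fun i hi => ?_
    refine (Finset.abs_sum_le_sum_abs _ _).trans ?_
    rw [Finset.mul_sum]
    exact Finset.sum_le_sum fun j hj => h1 i hi j hj
  have s2 : |∑ i ∈ Finset.Ico k n, Bf (Kk lab K k) (md lab i g) (ce lab k f)| ≤
      4 ^ n * C * a * ((∑ i ∈ Finset.Ico k n, q ^ (i - k) * G i) *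
        Real.sqrt (∑ x, f x ^ 2)) := by
    refine (Finset.abs_sum_le_sum_abs _ _).trans ?_
    rw [Finset.sum_mul, Finset.mul_sum]
    exact Finset.sum_le_sum fun i hi => h2 g f i hi
  have s3 : |∑ i ∈ Finset.Ico k n, Bf (Kk lab K k) (ce lab k g) (md lab i f)| ≤
      4 ^ n * C * a * ((∑ i ∈ Finset.Ico k n, q ^ (i - k) * F i) *
        Real.sqrt (∑ x, g x ^ 2)) := by
    refine (Finset.abs_sum_le_sum_abs _ _).trans ?_
    rw [Finset.sum_mul, Finset.mul_sum]
    refine Finset.sum_le_sum fun i hi => ?_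
    rw [t2_swap hK, abs_neg]
    exact h2 f g i hi
  rw [hexp]
  refine (abs_add_three _ _ _).trans ?_
  have s4 : 4 ^ n * C * a *
      ((∑ i ∈ Finset.Ico k n, q ^ (i - k) * G i) * (∑ i ∈ Finset.Ico k n, q ^ (i - k) * F i) +
      (∑ i ∈ Finset.Ico k n, q ^ (i - k) * G i) * Real.sqrt (∑ x, f x ^ 2) +
      (∑ i ∈ Finset.Ico k n, q ^ (i - k) * F i) * Real.sqrt (∑ x, g x ^ 2)) =
      4 ^ n * C * a * ((∑ i ∈ Finset.Ico k n, q ^ (i - k) * G i) *
        (∑ i ∈ Finset.Ico k n, q ^ (i - k) * F i)) +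
      4 ^ n * C * a * ((∑ i ∈ Finset.Ico k n, q ^ (i - k) * G i) *
        Real.sqrt (∑ x, f x ^ 2)) +
      4 ^ n * C * a * ((∑ i ∈ Finset.Ico k n, q ^ (i - k) * F i) *
        Real.sqrt (∑ x, g x ^ 2)) := by ring
  rw [s4]
  linarith

private theorem t2_norm {X : Type} [Fintype X] {n : ℕ} {lab : ℕ → X → ℕ} (T : IsTree n lab)
    (q : ℝ) (hq0 : 0 < q) (hq1 : q < 1) (g : X → ℝ) :
    Real.sqrt (∑ k ∈ Finset.range n,
      (∑ i ∈ Finset.Ico k n, q ^ (i - k) * Real.sqrt (∑ x, md lab i g x ^ 2)) ^ 2) ≤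
      1 / (1 - q) * Real.sqrt (∑ x, g x ^ 2) := by
  have h1 : 0 < 1 - q := by linarith
  have h2 := t2_conv q hq0 hq1 n (fun i => Real.sqrt (∑ x, md lab i g x ^ 2))
  have h3 : ∑ i ∈ Finset.range n, Real.sqrt (∑ x, md lab i g x ^ 2) ^ 2 ≤ ∑ x, g x ^ 2 := by
    have h4 := T.sum_md_sq g
    have h5 : 0 ≤ ∑ x, ce lab 0 g x ^ 2 := Finset.sum_nonneg fun x _ => sq_nonneg _
    have h6 : ∀ i ∈ Finset.range n, Real.sqrt (∑ x, md lab i g x ^ 2) ^ 2 =
        ∑ x, md lab i g x ^ 2 := fun i _ =>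
      Real.sq_sqrt (Finset.sum_nonneg fun x _ => sq_nonneg _)
    rw [Finset.sum_congr rfl h6]
    linarith
  have h7 : 1 / (1 - q) * Real.sqrt (∑ x, g x ^ 2) =
      Real.sqrt ((1 / (1 - q)) ^ 2 * ∑ x, g x ^ 2) := by
    rw [Real.sqrt_mul (sq_nonneg _), Real.sqrt_sq (by positivity)]
  rw [h7]
  refine Real.sqrt_le_sqrt (h2.trans ?_)
  exact mul_le_mul_of_nonneg_left h3 (sq_nonneg _)

/-- the `L²` bound -/
theorem treeL2 (q C : ℝ) (hq0 : 0 < q) (hq1 : q < 1) (hC : 0 ≤ C) : ∃ C' : ℝ, 0 < C' ∧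
    ∀ {X : Type} [Fintype X] (n : ℕ) (lab : ℕ → X → ℕ) (_ : IsTree n lab) (s : ℕ → ℝ)
      (_ : Sides n s q) (K : X → X → ℝ) (_ : IsCZ n lab s C K) (f g : X → ℝ),
      |av (fun x => g x * op K f x)| ≤
        C' * (1 + Real.sqrt (∑ k ∈ Finset.range n, (1 / (4 ^ k * s k)) ^ 2)) *
          (Real.sqrt (av (fun x => g x ^ 2)) * Real.sqrt (av (fun x => f x ^ 2))) := by
  have h1q : 0 < 1 - q := by linarith
  have hR : 0 < 1 / (1 - q) := by positivity
  refine ⟨C * ((1 / (1 - q)) ^ 2 + 2 * (1 / (1 - q))) + 1, by positivity, ?_⟩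
  intro X _ n lab T s hs K hK f g
  rcases isEmpty_or_nonempty X with hX | hX
  · have e : av (fun x => g x * op K f x) = 0 := by
      unfold av
      simp
    rw [e, abs_zero]
    positivity
  obtain ⟨x0⟩ := hX
  have hN := T.card_univ x0
  have hN' : (Fintype.card X : ℝ) = 4 ^ n := by rw [hN]; push_cast; rfl
  have hNp : (0 : ℝ) < 4 ^ n := by positivity
  set R : ℝ := 1 / (1 - q) with hRdef
  set nf : ℝ := Real.sqrt (∑ x, f x ^ 2) with hnf
  set ng : ℝ := Real.sqrt (∑ x, g x ^ 2) with hng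
  set A : ℝ := Real.sqrt (∑ k ∈ Finset.range n, (1 / (4 ^ k * s k)) ^ 2) with hA
  set U : ℕ → ℝ := fun k => ∑ i ∈ Finset.Ico k n, q ^ (i - k) *
    Real.sqrt (∑ x, md lab i g x ^ 2) with hU
  set V : ℕ → ℝ := fun k => ∑ i ∈ Finset.Ico k n, q ^ (i - k) *
    Real.sqrt (∑ x, md lab i f x ^ 2) with hV
  have hnf0 : 0 ≤ nf := Real.sqrt_nonneg _
  have hng0 : 0 ≤ ng := Real.sqrt_nonneg _
  have hA0 : 0 ≤ A := Real.sqrt_nonneg _
  have hU0 : ∀ k, 0 ≤ U k := fun k =>
    Finset.sum_nonneg fun i _ => mul_nonneg (pow_nonneg hq0.le _) (Real.sqrt_nonneg _)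
  have hV0 : ∀ k, 0 ≤ V k := fun k =>
    Finset.sum_nonneg fun i _ => mul_nonneg (pow_nonneg hq0.le _) (Real.sqrt_nonneg _)
  have hUn : Real.sqrt (∑ k ∈ Finset.range n, U k ^ 2) ≤ R * ng := t2_norm T q hq0 hq1 g
  have hVn : Real.sqrt (∑ k ∈ Finset.range n, V k ^ 2) ≤ R * nf := t2_norm T q hq0 hq1 f
  -- the form
  have hform : av (fun x => g x * op K f x) = (∑ k ∈ Finset.range n, Bf (Kk lab K k) g f) /
      (4 ^ n * 4 ^ n) := by
    have e1 : ∑ k ∈ Finset.range n, Bf (Kk lab K k) g f = Bf K g f := by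
      unfold Bf
      rw [Finset.sum_comm]
      refine Finset.sum_congr rfl fun x _ => ?_
      rw [Finset.sum_comm]
      refine Finset.sum_congr rfl fun y _ => ?_
      rw [t2_split T hK x y, Finset.mul_sum, Finset.sum_mul]
    rw [e1]
    unfold av op Bf
    rw [hN', ← div_div]
    congr 1
    rw [Finset.sum_div]
    refine Finset.sum_congr rfl fun x _ => ?_
    show g x * ((∑ y, K x y * f y) / 4 ^ n) = (∑ y, g x * K x y * f y) / 4 ^ n
    rw [Finset.sum_div, Finset.sum_div, Finset.mul_sum]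
    refine Finset.sum_congr rfl fun y _ => ?_
    ring
  have hbound : |∑ k ∈ Finset.range n, Bf (Kk lab K k) g f| ≤
      4 ^ n * ((C * (R ^ 2 + 2 * R)) * (1 + A) * (ng * nf)) := by
    have c1 : |∑ k ∈ Finset.range n, Bf (Kk lab K k) g f| ≤
        ∑ k ∈ Finset.range n, 4 ^ n * C * (1 / (4 ^ k * s k)) *
          (U k * V k + U k * nf + V k * ng) := by
      refine (Finset.abs_sum_le_sum_abs _ _).trans (Finset.sum_le_sum fun k hk => ?_)
      exact t2_one T hs hC hK f g k (Finset.mem_range.mp hk)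
    have c2 : ∑ k ∈ Finset.range n, 4 ^ n * C * (1 / (4 ^ k * s k)) *
          (U k * V k + U k * nf + V k * ng) =
        4 ^ n * C * (∑ k ∈ Finset.range n, (1 / (4 ^ k * s k)) * (U k * V k) +
          (∑ k ∈ Finset.range n, (1 / (4 ^ k * s k)) * U k) * nf +
          (∑ k ∈ Finset.range n, (1 / (4 ^ k * s k)) * V k) * ng) := by
      rw [Finset.sum_mul, Finset.sum_mul, ← Finset.sum_add_distrib, ← Finset.sum_add_distrib,
        Finset.mul_sum]
      refine Finset.sum_congr rfl fun k _ => ?_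
      ring
    have c3 : ∑ k ∈ Finset.range n, (1 / (4 ^ k * s k)) * (U k * V k) ≤ R ^ 2 * (ng * nf) := by
      have d1 : ∑ k ∈ Finset.range n, (1 / (4 ^ k * s k)) * (U k * V k) ≤
          ∑ k ∈ Finset.range n, U k * V k := by
        refine Finset.sum_le_sum fun k _ => ?_
        have d2 : 1 / (4 ^ k * s k) ≤ 1 := by
          have d3 := hs.den k
          rw [div_le_one (by linarith)]
          exact d3
        exact mul_le_of_le_one_left (mul_nonneg (hU0 k) (hV0 k)) d2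
      have d4 := Real.sum_mul_le_sqrt_mul_sqrt (Finset.range n) U V
      have d5 : Real.sqrt (∑ k ∈ Finset.range n, U k ^ 2) *
          Real.sqrt (∑ k ∈ Finset.range n, V k ^ 2) ≤ (R * ng) * (R * nf) :=
        mul_le_mul hUn hVn (Real.sqrt_nonneg _) (mul_nonneg hR.le hng0)
      have d6 : (R * ng) * (R * nf) = R ^ 2 * (ng * nf) := by ring
      linarith
    have c4 : ∑ k ∈ Finset.range n, (1 / (4 ^ k * s k)) * U k ≤ A * (R * ng) :=
      (Real.sum_mul_le_sqrt_mul_sqrt (Finset.range n) (fun k => 1 / (4 ^ k * s k)) U).trans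
        (mul_le_mul_of_nonneg_left hUn hA0)
    have c5 : ∑ k ∈ Finset.range n, (1 / (4 ^ k * s k)) * V k ≤ A * (R * nf) :=
      (Real.sum_mul_le_sqrt_mul_sqrt (Finset.range n) (fun k => 1 / (4 ^ k * s k)) V).trans
        (mul_le_mul_of_nonneg_left hVn hA0)
    have c6 := mul_le_mul_of_nonneg_right c4 hnf0
    have c7 := mul_le_mul_of_nonneg_right c5 hng0
    have c8 : ∑ k ∈ Finset.range n, (1 / (4 ^ k * s k)) * (U k * V k) +
          (∑ k ∈ Finset.range n, (1 / (4 ^ k * s k)) * U k) * nf +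
          (∑ k ∈ Finset.range n, (1 / (4 ^ k * s k)) * V k) * ng ≤
        (R ^ 2 + 2 * R) * (1 + A) * (ng * nf) := by
      have e1 : (R ^ 2 + 2 * R) * (1 + A) * (ng * nf) =
          R ^ 2 * (ng * nf) + 2 * (A * R * (ng * nf)) + R ^ 2 * A * (ng * nf) +
            2 * R * (ng * nf) := by ring
      have e2 : 0 ≤ ng * nf := mul_nonneg hng0 hnf0
      have e3 : 0 ≤ R ^ 2 * A * (ng * nf) := by positivity
      have e4 : 0 ≤ 2 * R * (ng * nf) := by positivity
      have e5 : A * (R * ng) * nf = A * R * (ng * nf) := by ring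
      have e6 : A * (R * nf) * ng = A * R * (ng * nf) := by ring
      linarith
    refine c1.trans ?_
    rw [c2]
    refine (mul_le_mul_of_nonneg_left c8 (by positivity : (0 : ℝ) ≤ 4 ^ n * C)).trans
      (le_of_eq ?_)
    ring
  have hrhs : Real.sqrt (av (fun x => g x ^ 2)) * Real.sqrt (av (fun x => f x ^ 2)) =
      ng * nf / 4 ^ n := by
    unfold av
    rw [hN', Real.sqrt_div' _ hNp.le, Real.sqrt_div' _ hNp.le, div_mul_div_comm,
      Real.mul_self_sqrt hNp.le]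
  rw [hform, hrhs, abs_div, abs_of_pos (by positivity : (0 : ℝ) < 4 ^ n * 4 ^ n),
    div_le_iff₀ (by positivity)]
  refine hbound.trans ?_
  have e7 : (C * (R ^ 2 + 2 * R) + 1) * (1 + A) * (ng * nf / 4 ^ n) * (4 ^ n * 4 ^ n) =
      4 ^ n * ((C * (R ^ 2 + 2 * R) + 1) * (1 + A) * (ng * nf)) := by
    field_simp
  rw [e7]
  refine mul_le_mul_of_nonneg_left ?_ hNp.le
  refine mul_le_mul_of_nonneg_right ?_ (mul_nonneg hng0 hnf0)
  refine mul_le_mul_of_nonneg_right ?_ (by linarith)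
  linarith

end Pool.Agent.VC
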