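import Pool.Agent.VC.StackS

set_option autoImplicit false

open MeasureTheory Set

namespace Pool.Agent.VC

private theorem vs_div (k j w i : ℕ) (hk : k ≤ j) (hw : i / 2 ^ j = w) :
    i / 2 ^ (j - k) = w * 2 ^ k + (i % 2 ^ j) / 2 ^ (j - k) := by
  obtain ⟨m, rfl⟩ := Nat.exists_eq_add_of_le hk
  have e1 : k + m - k = m := by omega
  rw [e1]
  have h1 : i = w * 2 ^ (k + m) + i % 2 ^ (k + m) := by
    rw [← hw]
    exact (Nat.div_add_mod' i (2 ^ (k + m))).symm
  have h2 : 0 < 2 ^ m := by positivity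
  conv_lhs => rw [h1]
  rw [pow_add, ← mul_assoc, add_comm, Nat.add_mul_div_right _ _ h2, add_comm]

private theorem vs_lt (k j i : ℕ) (hk : k ≤ j) : (i % 2 ^ j) / 2 ^ (j - k) < 2 ^ k := by
  rw [Nat.div_lt_iff_lt_mul (by positivity), ← pow_add]
  have : k + (j - k) = j := by omega
  rw [this]
  exact Nat.mod_lt _ (by positivity)

/-- the projections of all high cells of a family have small union -/
theorem vitaliS (v L : ℕ → ℝ) (hv : ∀ i, 0 ≤ v i) (hL : ∀ i, L i = v (i + 1) + L (i + 1))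
    (hLp : ∀ i, 0 < L i) (n j : ℕ) (F : Finset ℕ) (hF : ∀ w ∈ F, w < 2 ^ n)
    (H β K : ℝ) (hH : 0 < H) (hβ : 0 < β) (hK : 0 < K)
    (hb : ∀ i ≤ j, β * (2 ^ (n + i) * L (n + i)) ≤ K) :
    volume {x | ∃ w ∈ F, ∃ k ≤ j, ∃ s < 2 ^ k, high (sh n v) (sh n L) H k s ∧
        x ∈ cell v L (n + k) (w * 2 ^ k + s)} ≤
      ENNReal.ofReal (15 * K * (F.card * (DD (sh n v) (sh n L) H j).card) /
        (2 ^ (n + j) * H * β)) := by
  classical
  let T : Set (ℕ × ℕ × ℕ) := {b | b.1 ∈ F ∧ b.2.1 ≤ j ∧ b.2.2 < 2 ^ b.2.1 ∧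
    high (sh n v) (sh n L) H b.2.1 b.2.2}
  have hTfin : T.Finite := by
    refine Set.Finite.subset (F ×ˢ (Finset.range (j + 1) ×ˢ Finset.range (2 ^ j))).finite_toSet ?_
    rintro ⟨w, k, s⟩ ⟨h1, h2, h3, -⟩
    simp only at h1 h2 h3
    rw [Finset.mem_coe, Finset.mem_product, Finset.mem_product, Finset.mem_range, Finset.mem_range]
    exact ⟨h1, Nat.lt_succ_of_le h2, lt_of_lt_of_le h3 (Nat.pow_le_pow_right (by norm_num) h2)⟩
  let c : ℕ × ℕ × ℕ → ℝ := fun b => pos v (n + b.2.1) (b.1 * 2 ^ b.2.1 + b.2.2) + L (n + b.2.1) / 2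
  let r : ℕ × ℕ × ℕ → ℝ := fun b => 3 / 2 * L (n + b.2.1)
  obtain ⟨R, hR⟩ : ∃ R, ∀ b ∈ T, r b ≤ R := by
    obtain ⟨R, hR⟩ := (hTfin.image r).bddAbove
    exact ⟨R, fun b hb => hR ⟨b, hb, rfl⟩⟩
  obtain ⟨U, hUT, hUd, hUc⟩ := Vitali.exists_disjoint_subfamily_covering_enlargement_closedBall
    T c r R hR 5 (by norm_num)
  have hUfin : U.Finite := hTfin.subset hUT
  -- the chosen points
  have hx : ∀ b : ℕ × ℕ × ℕ, ∃ x : ℝ, b ∈ T → x ∈ cell (sh n v) (sh n L) b.2.1 b.2.2 ∧
      H ≤ cnt (sh n v) (sh n L) b.2.1 x := by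
    intro b
    by_cases hbT : b ∈ T
    · obtain ⟨x, hx⟩ := hbT.2.2.2
      exact ⟨x, fun _ => hx⟩
    · exact ⟨0, fun h => absurd h hbT⟩
  choose X hX using hx
  let desc : ℕ × ℕ × ℕ → Finset ℕ := fun b => (Finset.range (2 ^ (n + j))).filter (fun i =>
    i / 2 ^ j = b.1 ∧ X b ∈ cell (sh n v) (sh n L) b.2.1 ((i % 2 ^ j) / 2 ^ (j - b.2.1)))
  -- number of descendants
  have hcard : ∀ b ∈ T, H * 2 ^ (j - b.2.1) ≤ ((desc b).card : ℝ) := by
    rintro ⟨w, k, s⟩ hbT
    obtain ⟨h1, h2, h3, h4⟩ := hbT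
    obtain ⟨hx1, hx2⟩ := hX (w, k, s) ⟨h1, h2, h3, h4⟩
    simp only at h1 h2 h3 h4 hx1 hx2 ⊢
    set x := X (w, k, s) with hxdef
    rw [cnt_eq_card] at hx2
    set Sb : Finset ℕ := {i ∈ Finset.range (2 ^ k) | pos (sh n v) k i ≤ x ∧
      x ≤ pos (sh n v) k i + sh n L k} with hSb
    have hinj : (Sb ×ˢ Finset.range (2 ^ (j - k))).card ≤ (desc (w, k, s)).card := by
      refine Finset.card_le_card_of_injOn
        (fun a => w * 2 ^ j + (a.1 * 2 ^ (j - k) + a.2)) ?_ ?_
      · rintro ⟨s', m⟩ ha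
        rw [Finset.mem_coe, Finset.mem_product] at ha
        obtain ⟨ha1, ha2⟩ := ha
        simp only at ha1 ha2
        rw [hSb, Finset.mem_filter, Finset.mem_range] at ha1
        rw [Finset.mem_range] at ha2
        have hlt : s' * 2 ^ (j - k) + m < 2 ^ j := by
          have e : 2 ^ j = 2 ^ k * 2 ^ (j - k) := by
            rw [← pow_add]
            congr 1
            omega
          rw [e]
          have : (s' + 1) * 2 ^ (j - k) ≤ 2 ^ k * 2 ^ (j - k) :=
            Nat.mul_le_mul_right _ ha1.1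
          rw [add_mul, one_mul] at this
          omega
        have hp : 0 < 2 ^ j := by positivity
        have hdiv : (w * 2 ^ j + (s' * 2 ^ (j - k) + m)) / 2 ^ j = w := by
          rw [add_comm, Nat.add_mul_div_right _ _ hp, Nat.div_eq_of_lt hlt, zero_add]
        have hmod : (w * 2 ^ j + (s' * 2 ^ (j - k) + m)) % 2 ^ j = s' * 2 ^ (j - k) + m := by
          rw [add_comm, Nat.add_mul_mod_self_right, Nat.mod_eq_of_lt hlt]
        have hdiv2 : (s' * 2 ^ (j - k) + m) / 2 ^ (j - k) = s' := by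
          rw [add_comm, Nat.add_mul_div_right _ _ (by positivity), Nat.div_eq_of_lt ha2, zero_add]
        simp only [desc, Finset.coe_filter, Finset.mem_range]
        refine ⟨?_, hdiv, ?_⟩
        · have hw := hF w h1
          have : (w + 1) * 2 ^ j ≤ 2 ^ n * 2 ^ j := Nat.mul_le_mul_right _ hw
          rw [add_mul, one_mul, ← pow_add] at this
          omega
        · rw [hmod, hdiv2]
          exact ha1.2
      · rintro ⟨s', m⟩ ha ⟨s'', m'⟩ ha' he
        rw [Finset.mem_coe, Finset.mem_product] at ha ha'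
        simp only [Finset.mem_range] at ha ha' he
        have he' : s' * 2 ^ (j - k) + m = s'' * 2 ^ (j - k) + m' := by omega
        have hs : s' = s'' := by
          have h5 : (s' * 2 ^ (j - k) + m) / 2 ^ (j - k) = s' := by
            rw [add_comm, Nat.add_mul_div_right _ _ (by positivity), Nat.div_eq_of_lt ha.2,
              zero_add]
          have h6 : (s'' * 2 ^ (j - k) + m') / 2 ^ (j - k) = s'' := by
            rw [add_comm, Nat.add_mul_div_right _ _ (by positivity), Nat.div_eq_of_lt ha'.2,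
              zero_add]
          rw [← h5, he', h6]
        subst hs
        have hm : m = m' := by omega
        rw [hm]
    rw [Finset.card_product, Finset.card_range] at hinj
    calc H * 2 ^ (j - k) ≤ (Sb.card : ℝ) * 2 ^ (j - k) :=
          mul_le_mul_of_nonneg_right hx2 (by positivity)
      _ = ((Sb.card * 2 ^ (j - k) : ℕ) : ℝ) := by push_cast; ring
      _ ≤ _ := by exact_mod_cast hinj
  -- the cells of descendants
  have hcell : ∀ b ∈ T, ∀ i ∈ desc b, cell v L (n + j) i ⊆ Metric.closedBall (c b) (r b) := by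
    rintro ⟨w, k, s⟩ hbT i hi
    obtain ⟨h1, h2, h3, h4⟩ := hbT
    obtain ⟨hx1, hx2⟩ := hX (w, k, s) ⟨h1, h2, h3, h4⟩
    simp only [desc, Finset.mem_filter, Finset.mem_range] at hi
    obtain ⟨hi1, hi2, hi3⟩ := hi
    simp only at h1 h2 h3 h4 hx1 hx2
    have e : n + j = (n + k) + (j - k) := by omega
    have hsub : cell v L (n + j) i ⊆ cell v L (n + k) (i / 2 ^ (j - k)) := by
      conv_lhs => rw [e]
      exact cell_anc v L hv hL (n + k) (j - k) i
    rw [vs_div k j w i h2 hi2] at hsub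
    have hy1 : pos v n w + X (w, k, s) ∈
        cell v L (n + k) (w * 2 ^ k + (i % 2 ^ j) / 2 ^ (j - k)) := by
      rw [cell_split v L n k w _ (vs_lt k j i h2)]
      exact ⟨_, hi3, rfl⟩
    have hy2 : pos v n w + X (w, k, s) ∈ cell v L (n + k) (w * 2 ^ k + s) := by
      rw [cell_split v L n k w _ h3]
      exact ⟨_, hx1, rfl⟩
    intro z hz
    have hz' := hsub hz
    rw [cell, Set.mem_Icc] at hy1 hy2 hz'
    rw [Metric.mem_closedBall, Real.dist_eq, abs_le]
    simp only [c, r]
    constructor <;> linarith [hy1.1, hy1.2, hy2.1, hy2.2, hz'.1, hz'.2]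
  have hdisj : Set.PairwiseDisjoint U desc := by
    intro b hbU b' hbU' hne
    rw [Function.onFun, Finset.disjoint_left]
    intro i hi hi'
    have h1 := hUd hbU hbU' hne
    rw [Function.onFun, Set.disjoint_left] at h1
    have hpos : pos v (n + j) i ∈ cell v L (n + j) i :=
      ⟨le_refl _, by linarith [hLp (n + j)]⟩
    exact h1 (hcell b (hUT hbU) i hi hpos) (hcell b' (hUT hbU') i hi' hpos)
  -- the total number
  have hsum : H * ∑ b ∈ hUfin.toFinset, (2 : ℝ) ^ (j - b.2.1) ≤
      F.card * (DD (sh n v) (sh n L) H j).card := by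
    have h1 : (hUfin.toFinset.biUnion desc).card = ∑ b ∈ hUfin.toFinset, (desc b).card := by
      refine Finset.card_biUnion fun b hb b' hb' hne => ?_
      rw [Finset.mem_coe, Set.Finite.mem_toFinset] at hb hb'
      exact hdisj hb hb' hne
    have h2 : (hUfin.toFinset.biUnion desc).card ≤
        (F ×ˢ (DD (sh n v) (sh n L) H j)).card := by
      refine Finset.card_le_card_of_injOn (fun i => (i / 2 ^ j, i % 2 ^ j)) ?_ ?_
      · intro i hi
        rw [Finset.mem_coe, Finset.mem_biUnion] at hi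
        obtain ⟨b, hbU, hi⟩ := hi
        rw [Set.Finite.mem_toFinset] at hbU
        have hbT := hUT hbU
        obtain ⟨hx1, hx2⟩ := hX b hbT
        simp only [desc, Finset.mem_filter, Finset.mem_range] at hi
        obtain ⟨hi1, hi2, hi3⟩ := hi
        rw [Finset.mem_coe, Finset.mem_product]
        refine ⟨?_, ?_⟩
        · show i / 2 ^ j ∈ F
          rw [hi2]
          exact hbT.1
        · show i % 2 ^ j ∈ DD (sh n v) (sh n L) H j
          rw [DD, Finset.mem_filter, Finset.mem_range]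
          exact ⟨Nat.mod_lt _ (by positivity), b.2.1, hbT.2.1, X b, hi3, hx2⟩
      · intro i _ i' _ he
        simp only [Prod.mk.injEq] at he
        rw [← Nat.div_add_mod i (2 ^ j), ← Nat.div_add_mod i' (2 ^ j), he.1, he.2]
    rw [Finset.card_product, h1] at h2
    calc H * ∑ b ∈ hUfin.toFinset, (2 : ℝ) ^ (j - b.2.1)
        = ∑ b ∈ hUfin.toFinset, H * (2 : ℝ) ^ (j - b.2.1) := Finset.mul_sum _ _ _
      _ ≤ ∑ b ∈ hUfin.toFinset, ((desc b).card : ℝ) := by
          refine Finset.sum_le_sum fun b hb => hcard b (hUT ?_)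
          rwa [Set.Finite.mem_toFinset] at hb
      _ = ((∑ b ∈ hUfin.toFinset, (desc b).card : ℕ) : ℝ) := by push_cast; rfl
      _ ≤ _ := by exact_mod_cast h2
  -- the covering
  have hcov : {x | ∃ w ∈ F, ∃ k ≤ j, ∃ s < 2 ^ k, high (sh n v) (sh n L) H k s ∧
        x ∈ cell v L (n + k) (w * 2 ^ k + s)} ⊆
      ⋃ b ∈ hUfin.toFinset, Metric.closedBall (c b) (5 * r b) := by
    rintro x ⟨w, hw, k, hk, s, hs, hh, hxc⟩
    obtain ⟨b, hbU, hb⟩ := hUc (w, k, s) ⟨hw, hk, hs, hh⟩
    rw [Set.mem_iUnion₂]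
    refine ⟨b, by rwa [Set.Finite.mem_toFinset], hb ?_⟩
    rw [cell, Set.mem_Icc] at hxc
    rw [Metric.mem_closedBall, Real.dist_eq, abs_le]
    simp only [c, r]
    have := hLp (n + k)
    constructor <;> linarith [hxc.1, hxc.2]
  calc volume {x | ∃ w ∈ F, ∃ k ≤ j, ∃ s < 2 ^ k, high (sh n v) (sh n L) H k s ∧
        x ∈ cell v L (n + k) (w * 2 ^ k + s)}
      ≤ volume (⋃ b ∈ hUfin.toFinset, Metric.closedBall (c b) (5 * r b)) := measure_mono hcov
    _ ≤ ∑ b ∈ hUfin.toFinset, volume (Metric.closedBall (c b) (5 * r b)) :=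
        measure_biUnion_finset_le _ _
    _ = ∑ b ∈ hUfin.toFinset, ENNReal.ofReal (15 * L (n + b.2.1)) := by
        refine Finset.sum_congr rfl fun b _ => ?_
        rw [Real.volume_closedBall]
        congr 1
        simp only [r]
        ring
    _ = ENNReal.ofReal (∑ b ∈ hUfin.toFinset, 15 * L (n + b.2.1)) := by
        rw [ENNReal.ofReal_sum_of_nonneg]
        intro b _
        have := hLp (n + b.2.1)
        positivity
    _ ≤ _ := by
        apply ENNReal.ofReal_le_ofReal
        have h3 : ∀ b ∈ hUfin.toFinset, 15 * L (n + b.2.1) ≤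
            15 * K / (2 ^ (n + j) * β) * 2 ^ (j - b.2.1) := by
          intro b hbU
          rw [Set.Finite.mem_toFinset] at hbU
          have hk := (hUT hbU).2.1
          have h4 := hb b.2.1 hk
          have e : (2 : ℝ) ^ (n + j) = 2 ^ (n + b.2.1) * 2 ^ (j - b.2.1) := by
            rw [← pow_add]
            congr 1
            omega
          rw [div_mul_eq_mul_div, le_div_iff₀ (by positivity), e]
          have hp : (0 : ℝ) < 2 ^ (j - b.2.1) := by positivity
          nlinarith [mul_le_mul_of_nonneg_right h4 hp.le]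
        calc ∑ b ∈ hUfin.toFinset, 15 * L (n + b.2.1)
            ≤ ∑ b ∈ hUfin.toFinset, 15 * K / (2 ^ (n + j) * β) * 2 ^ (j - b.2.1) :=
              Finset.sum_le_sum h3
          _ = 15 * K / (2 ^ (n + j) * β) * ∑ b ∈ hUfin.toFinset, (2 : ℝ) ^ (j - b.2.1) :=
              (Finset.mul_sum _ _ _).symm
          _ = 15 * K / (2 ^ (n + j) * H * β) *
                (H * ∑ b ∈ hUfin.toFinset, (2 : ℝ) ^ (j - b.2.1)) := by
              have hq : (0 : ℝ) < 2 ^ (n + j) := by positivity
              generalize ∑ b ∈ hUfin.toFinset, (2 : ℝ) ^ (j - b.2.1) = S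
              generalize (2 : ℝ) ^ (n + j) = q at hq
              have hq' := hq.ne'
              have hH' := hH.ne'
              have hβ' := hβ.ne'
              field_simp
          _ ≤ 15 * K / (2 ^ (n + j) * H * β) *
                (F.card * (DD (sh n v) (sh n L) H j).card) :=
              mul_le_mul_of_nonneg_left hsum (by positivity)
          _ = _ := by ring

end Pool.Agent.VC
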